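import Pool.Agent.Q197.CI.FixP

/-!
# Elements with prime indices, iterated
-/

set_option autoImplicit false

namespace Pool.Agent.Q197.CI

open Finset Filter MeasureTheory Pool.Agent.Q120.ET Pool.Agent.Q120.MF
open scoped Topology

/-- `x` is an element whose index is an element, and so on, `a` times. -/
def IsPr : ℕ → Set ℕ → ℕ → Prop
  | 0, S, x => 3 ≤ x ∧ x ∈ S
  | a + 1, S, x => (3 ≤ x ∧ x ∈ S) ∧ IsPr a S (ct S x + 1)

theorem isPr_mem {a : ℕ} {S : Set ℕ} {x : ℕ} (h : IsPr a S x) : 3 ≤ x ∧ x ∈ S := by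
  cases a with
  | zero => exact h
  | succ a => exact h.1

theorem isPr_congr (a : ℕ) : ∀ (x : ℕ) (S S' : Set ℕ), (∀ j, 3 ≤ j → j < x + 1 → (j ∈ S ↔ j ∈ S')) →
    (IsPr a S x ↔ IsPr a S' x) := by
  induction a with
  | zero =>
    intro x S S' hS
    unfold IsPr
    constructor
    · rintro ⟨h1, h2⟩
      exact ⟨h1, (hS x h1 (by omega)).1 h2⟩
    · rintro ⟨h1, h2⟩
      exact ⟨h1, (hS x h1 (by omega)).2 h2⟩
  | succ a ih =>
    have key : ∀ (x : ℕ) (S S' : Set ℕ), (∀ j, 3 ≤ j → j < x + 1 → (j ∈ S ↔ j ∈ S')) → IsPr (a + 1) S x → IsPr (a + 1) S' x := by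
      rintro x S S' hS ⟨⟨h1, h2⟩, h3⟩
      have e : ct S x = ct S' x := dep_ct (show x ≤ x + 1 by omega) S S' hS
      have h4 := ct_le_sub S x
      refine ⟨⟨h1, (hS x h1 (by omega)).1 h2⟩, ?_⟩
      rw [← e]
      exact (ih (ct S x + 1) S S' (fun j hj1 hj2 => hS j hj1 (by omega))).1 h3
    intro x S S' hS
    exact ⟨key x S S' hS, key x S' S (fun j h1 h2 => (hS j h1 h2).symm)⟩

theorem isPr_iff {S : Set ℕ} (hS : S.Infinite) (a : ℕ) : ∀ x : ℕ, IsPr a S x ↔ ∃ m, 1 ≤ m ∧ (el S)^[a + 1] m = x := by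
  induction a with
  | zero =>
    intro x
    simp only [zero_add, Function.iterate_one]
    unfold IsPr
    constructor
    · rintro ⟨h1, h2⟩
      exact ⟨ct S x + 1, by omega, el_eq hS ⟨h1, h2, rfl⟩⟩
    · rintro ⟨m, h1, rfl⟩
      have := isEl_el hS h1
      exact ⟨this.1, this.2.1⟩
  | succ a ih =>
    intro x
    constructor
    · rintro ⟨⟨h1, h2⟩, h3⟩
      obtain ⟨m, hm, h4⟩ := (ih _).1 h3
      refine ⟨m, hm, ?_⟩
      rw [Function.iterate_succ_apply', h4]
      exact el_eq hS ⟨h1, h2, rfl⟩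
    · rintro ⟨m, hm, h4⟩
      rw [Function.iterate_succ_apply'] at h4
      have h5 := (ih ((el S)^[a + 1] m)).2 ⟨m, hm, rfl⟩
      have h6 := (isPr_mem h5).1
      have h7 := isEl_el hS (show 1 ≤ (el S)^[a + 1] m by omega)
      rw [h4] at h7
      refine ⟨⟨h7.1, h7.2.1⟩, ?_⟩
      rw [h7.2.2]
      exact h5

theorem cD_succ (S : Set ℕ) (a h : ℕ) : cD (IsPr (a + 1) S) h = cD (IsPr a S) (ct S (h + 1)) := by
  classical
  unfold cD
  have h1 : (Icc 1 (ct S (h + 1))).filter (IsPr a S) = ((Icc 1 h).filter (IsPr (a + 1) S)).image (fun x => ct S x + 1) := by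
    ext m
    simp only [mem_filter, mem_Icc, mem_image]
    constructor
    · rintro ⟨⟨h2, h3⟩, h4⟩
      obtain ⟨x, h5, h6⟩ := exists_isEl h2 h3
      refine ⟨x, ⟨⟨by have := h6.1; omega, by omega⟩, ⟨h6.1, h6.2.1⟩, ?_⟩, h6.2.2⟩
      rw [h6.2.2]
      exact h4
    · rintro ⟨x, ⟨⟨h2, h3⟩, h4⟩, rfl⟩
      refine ⟨⟨by omega, ?_⟩, h4.2⟩
      rw [← ct_succ_of_mem h4.1.1 h4.1.2]
      exact ct_mono S (by omega)
  rw [h1, card_image_of_injOn]
  intro x hx x' hx' hxx
  simp only [coe_filter, mem_Icc, Set.mem_ofPred_eq] at hx hx'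
  exact isEl_unique (m := ct S x + 1) ⟨hx.2.1.1, hx.2.1.2, rfl⟩ ⟨hx'.2.1.1, hx'.2.1.2, hxx.symm⟩

theorem cD_law {S : Set ℕ} (hS : Tendsto (fun h : ℕ => (ct S (h + 1) : ℝ) * Real.log h / h) atTop (𝓝 1)) (a : ℕ) :
    Tendsto (fun h : ℕ => cD (IsPr a S) h * Real.log h ^ (a + 1) / h) atTop (𝓝 1) := by
  induction a with
  | zero =>
    refine hS.congr (fun h => ?_)
    rw [zero_add, pow_one, ← cD_zero]
    rfl
  | succ a ih =>
    obtain ⟨h1, h2⟩ := ct_top hS
    have h3 := ((ih.comp h1).mul hS).div (h2.pow (a + 1)) (by norm_num)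
    rw [mul_one, one_pow, div_one] at h3
    refine h3.congr' ?_
    filter_upwards [hl.eventually_gt_atTop 0, eventually_ge_atTop 1, h1.eventually_ge_atTop 2] with h h4 h5 h6
    have hn0 : (0 : ℝ) < h := by exact_mod_cast h5
    have hc0 : (0 : ℝ) < ct S (h + 1) := by exact_mod_cast (show 0 < ct S (h + 1) by omega)
    have hc1 : 0 < Real.log (ct S (h + 1) : ℝ) := Real.log_pos (by exact_mod_cast h6)
    rw [cD_succ]
    simp only [Pi.div_apply, Function.comp_apply]
    rw [div_pow, pow_succ (Real.log (h : ℝ)) (a + 1)]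
    field_simp

theorem rowPr (a : ℕ) : Row (fun x S => IsPr a S x) (fun _ _ => True) (fun h => h + 3) (FlF P1) (fun n => 6 * n + 6)
    (qF P1) 1 1 := by
  refine rowF fix_one (fun _ => dep_const True) ?_ (fun _ => by omega) (fun a b hab => by
    show a + 3 ≤ b + 3
    omega) ⟨2, fun h => ?_⟩
  · intro h S S' _ hS j hj1 hj2
    exact isPr_congr a j S S' (fun i h1 h2 => hS i h1 (by omega))
  · push_cast
    have : (0 : ℝ) ≤ h := Nat.cast_nonneg _
    nlinarith

theorem ws_eq_cD (W : ℕ → Set ℕ → Prop) (S : Set ℕ) (h : ℕ) : ((Ws W S h).card : ℝ) = cD (fun j => W j S) h := by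
  classical
  unfold Ws cD
  congr 2

variable {Ω : Type*} [MeasurableSpace Ω] {μ : Measure Ω} [IsProbabilityMeasure μ] {A : Ω → Set ℕ}

theorem lawPr (hA : IsCramer μ A) (a : ℕ) : ∀ᵐ ω ∂μ, Tendsto (fun h : ℕ =>
    ((Ws (fun x S => IsPr a S x) (A ω) h).card : ℝ) * Real.log h ^ (a + 1) / h) atTop (𝓝 1) := by
  filter_upwards [ct_law' hA] with ω h1
  refine (cD_law h1 a).congr (fun h => ?_)
  rw [ws_eq_cD]

/-- The tested place for `n` and `x`. -/
def Q5d7 (a n x p : ℕ) (S : Set ℕ) : Prop := x < n ∧ IsPr a S x ∧ p = 2 * n - x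

theorem dep_Q5d7 (a n x p : ℕ) : Dep p (Q5d7 a n x p) := by
  intro S S' hS
  unfold Q5d7
  apply propext
  constructor
  · rintro ⟨h1, h2, h3⟩
    exact ⟨h1, (isPr_congr a x S S' (fun j hj1 hj2 => hS j hj1 (by omega))).1 h2, h3⟩
  · rintro ⟨h1, h2, h3⟩
    exact ⟨h1, (isPr_congr a x S S' (fun j hj1 hj2 => hS j hj1 (by omega))).2 h2, h3⟩

theorem totalPr (hA : IsCramer μ A) (a : ℕ) : ∀ᵐ ω ∂μ, Tendsto (fun n : ℕ =>
    (({x : ℕ | x < n ∧ IsPr a (A ω) x ∧ 2 * n - x ∈ A ω}.ncard : ℝ)) * Real.log n ^ (a + 2) / n) atTop (𝓝 1) := by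
  classical
  have hpos : ∀ (ω : Ω) (n : ℕ), (∀ m p, 1 ≤ m → (Q5d7 a n m p (A ω) ↔ ((m < n ∧ IsPr a (A ω) m) ∧ p = 2 * n - m))) ∧
      (∀ m, 1 ≤ m → m ≤ n → (m < n ∧ IsPr a (A ω) m) → 3 ≤ 2 * n - m ∧ 2 * n - m < 2 * n) ∧
      (∀ m m', 1 ≤ m → 1 ≤ m' → (m < n ∧ IsPr a (A ω) m) → (m' < n ∧ IsPr a (A ω) m') → 2 * n - m = 2 * n - m' → m = m') := by
    intro ω n
    refine ⟨fun m p _ => ?_, fun m h1 h2 h3 => ?_, fun m m' _ _ h1 h2 h3 => ?_⟩
    · unfold Q5d7
      rw [and_assoc]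
    · have := (isPr_mem h3.2).1
      omega
    · omega
  have h1 := chern_as hA (fun n => HP (Q5d7 a n) n) (fun n p _ => dep_HP (dep_Q5d7 a n) n p) (fun n => 2 * n)
    (fun n : ℕ => (n : ℝ) / Real.log n ^ (a + 2)) ?_ one_pos ?_
  · filter_upwards [h1] with ω h2
    refine h2.congr' ?_
    filter_upwards [hl.eventually_gt_atTop 0] with n h5
    obtain ⟨h41, h42, h43⟩ := hpos ω n
    rw [hits_HP h41 h42 h43]
    have h6 : ({x : ℕ | x < n ∧ IsPr a (A ω) x ∧ 2 * n - x ∈ A ω}.ncard) = (Ws (WP (Q5d7 a n)) (A ω) n).card := by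
      rw [← Set.ncard_coe_finset]
      congr 1
      ext k
      rw [mem_coe, mem_Ws]
      simp only [Set.mem_ofPred_eq]
      constructor
      · rintro ⟨h7, h8, h9⟩
        exact ⟨⟨by have := (isPr_mem h8).1; omega, h7.le⟩, 2 * n - k, ⟨h7, h8, rfl⟩, h9⟩
      · rintro ⟨_, p, ⟨h7, h8, rfl⟩, h9⟩
        exact ⟨h7, h8, h9⟩
    rw [h6]
    field_simp
  · refine (x_div_log_pow (a + 3)).congr (fun h => ?_)
    rw [div_div, pow_succ (Real.log (h : ℝ)) (a + 2)]
  · filter_upwards [lawPr hA a] with ω h3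
    have hcD : Tendsto (fun h : ℕ => cD (IsPr a (A ω)) h * Real.log h ^ (a + 1) / h) atTop (𝓝 1) := by
      refine h3.congr (fun h => ?_)
      rw [ws_eq_cD]
    have hsum := wsum2 (D := IsPr a (A ω)) (w := fun n k => pb (2 * n - k)) (a := a + 1) (κ := 1)
      hcD (B := 2) (fun h k => pb_nonneg' _) (fun h k => pb_le_two _) one_pos ?_
    · rw [one_mul] at hsum
      have hz : Tendsto (fun n : ℕ => (if IsPr a (A ω) n then pb n else 0) * Real.log n ^ (a + 2) / n) atTop (𝓝 0) := by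
        have h5 : Tendsto (fun n : ℕ => 2 * (Real.log n ^ (a + 2) / (n : ℝ))) atTop (𝓝 (2 * 0)) := by
          refine Tendsto.const_mul 2 ?_
          refine ((x_div_log_pow (a + 2)).inv_tendsto_atTop).congr (fun n => ?_)
          rw [Pi.inv_apply, inv_div]
        rw [mul_zero] at h5
        refine squeeze_zero' ?_ ?_ h5
        · filter_upwards [hl.eventually_gt_atTop 0] with n h6
          split_ifs
          · have := pb_nonneg' n
            positivity
          · simp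
        · filter_upwards [hl.eventually_gt_atTop 0] with n h6
          rw [← mul_div_assoc]
          refine div_le_div_of_nonneg_right (mul_le_mul_of_nonneg_right ?_ (by positivity)) (Nat.cast_nonneg _)
          split_ifs
          · exact pb_le_two n
          · norm_num
      have h4 := hsum.sub hz
      rw [sub_zero] at h4
      refine h4.congr' ?_
      filter_upwards [hl.eventually_gt_atTop 0, eventually_ge_atTop 1] with n h7 h8
      obtain ⟨h41, h42, h43⟩ := hpos ω n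
      rw [lam_HP h41 h42 h43]
      have h9 : ∑ k ∈ (Icc 1 n).filter (IsPr a (A ω)), pb (2 * n - k) =
          ∑ m ∈ (Icc 1 n).filter (fun m => m < n ∧ IsPr a (A ω) m), pb (2 * n - m) +
          (if IsPr a (A ω) n then pb n else 0) := by
        rw [sum_filter, sum_filter]
        obtain ⟨k, rfl⟩ : ∃ k, n = k + 1 := ⟨n - 1, by omega⟩
        rw [sum_Icc_succ_top (by omega), sum_Icc_succ_top (by omega)]
        rw [if_neg (show ¬ (k + 1 < k + 1 ∧ IsPr a (A ω) (k + 1)) by omega), add_zero]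
        have h10 : 2 * (k + 1) - (k + 1) = k + 1 := by omega
        rw [h10]
        congr 1
        refine sum_congr rfl (fun m hm => ?_)
        rw [mem_Icc] at hm
        have h11 : (m < k + 1 ∧ IsPr a (A ω) m) ↔ IsPr a (A ω) m := ⟨fun h => h.2, fun h => ⟨by omega, h⟩⟩
        simp only [h11]
      rw [h9]
      have h10 : ∑ m ∈ (Icc 1 n).filter (fun m => m < n ∧ IsPr a (A ω) m), pb (2 * n - m) =
          ∑ m ∈ @filter ℕ (fun m => m < n ∧ IsPr a (A ω) m) (fun m => Classical.propDecidable _) (Icc 1 n), pb (2 * n - m) := by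
        refine sum_congr ?_ (fun _ _ => rfl)
        ext j
        simp only [mem_filter]
      rw [h10]
      generalize ∑ m ∈ @filter ℕ (fun m => m < n ∧ IsPr a (A ω) m) (fun m => Classical.propDecidable _) (Icc 1 n), pb (2 * n - m) = s
      field_simp
      ring
    · intro δ hδ
      filter_upwards [pb_place hδ, eventually_ge_atTop 1] with n h4 h0 k _ hk2
      have h5 := h4 (2 * n - k) (by omega) (by omega)
      constructor <;> linarith [h5.1, h5.2]

end Pool.Agent.Q197.CI
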