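import Pool.Agent.Q197.CI.SumL

/-!
# The laws of the least `k`
-/

set_option autoImplicit false

namespace Pool.Agent.Q197.CI

open Finset Filter MeasureTheory Pool.Agent.Q120.ET Pool.Agent.Q120.MF Pool.Agent.Q120.NC
open scoped Topology

variable {Ω : Type*} [MeasurableSpace Ω] {μ : Measure Ω} [IsProbabilityMeasure μ] {A : Ω → Set ℕ}

/-- No `k ≤ y` is such that the element with index `k ^ d n` plus `s` is an element. -/
def Fails (S : Set ℕ) (s d n : ℕ) (y : ℝ) : Prop := ∀ k : ℕ, 1 ≤ k → (k : ℝ) ≤ y → el S (k ^ d * n) + s ∉ S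

/-- The number of such `n ≤ N`. -/
noncomputable def count (S : Set ℕ) (s d : ℕ) (y : ℕ → ℝ) (N : ℕ) : ℝ :=
  ({n : ℕ | 1 ≤ n ∧ n ≤ N ∧ Fails S s d n (y n)}.ncard : ℝ)

/-- The set is almost surely infinite. -/
theorem ae_infinite (hA : IsCramer μ A) : ∀ᵐ ω ∂μ, (A ω).Infinite := by
  have key : ∀ m : ℕ, μ {ω | ∀ x, ct (A ω) x < m} = 0 := by
    intro m
    have h1 : Tendsto (fun m' : ℕ => 2 * Real.exp (-(Real.sqrt m' / 256))) atTop (𝓝 (2 * 0)) := by
      refine Tendsto.const_mul 2 (Real.tendsto_exp_neg_atTop_nhds_zero.comp ?_)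
      exact (Real.tendsto_sqrt_atTop.comp tendsto_natCast_atTop_atTop).atTop_div_const (by norm_num)
    rw [mul_zero] at h1
    have h0 : Tendsto (fun m' : ℕ => dl m' * m' / 12) atTop atTop := dl_mul.atTop_div_const (by norm_num)
    have h2 : ∀ᶠ m' : ℕ in atTop, μ.real {ω | ∀ x, ct (A ω) x < m} ≤ 2 * Real.exp (-(Real.sqrt m' / 256)) := by
      filter_upwards [pr_good, pos_bounds, h0.eventually_ge_atTop 3, eventually_ge_atTop m] with m' h3 h4 h5 h6
      have hlh : lo m' ≤ hi m' := by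
        have := h4.2.2.2.2.2.2.1.trans h4.2.2.2.2.2.2.2.1
        exact_mod_cast this
      have h7 := h3 3 le_rfl (by push_cast; exact h5) ∅ (by simp) (hi m') le_rfl
      have hdep : Dep (hi m') (fun S => ¬ Good S m') := by
        intro S S' hS
        have e : Good S m' = Good S' m' := dep_good hlh le_rfl S S' hS
        show (¬ Good S m') = (¬ Good S' m')
        rw [e]
      rw [← real_eq_pr hA hdep] at h7
      refine (measureReal_mono ?_).trans h7
      intro ω hω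
      have hω' : ∀ x, ct (A ω) x < m := hω
      intro hG
      have h8 : m' ≤ ct (A ω) (hi m') := hG.2
      have h9 := hω' (hi m')
      omega
    have h3 : μ.real {ω | ∀ x, ct (A ω) x < m} ≤ 0 := ge_of_tendsto h1 h2
    have h4 : μ.real {ω | ∀ x, ct (A ω) x < m} = 0 := le_antisymm h3 measureReal_nonneg
    rwa [measureReal_eq_zero_iff] at h4
  have h1 : ∀ᵐ ω ∂μ, ∀ m : ℕ, ¬ ∀ x, ct (A ω) x < m := by
    rw [ae_all_iff]
    intro m
    rw [ae_iff]
    simp only [not_not]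
    exact key m
  filter_upwards [h1] with ω hω
  by_contra hcon
  rw [Set.not_infinite] at hcon
  classical
  apply hω (hcon.toFinset.card + 1)
  intro x
  have h2 : ct (A ω) x ≤ hcon.toFinset.card := by
    unfold ct
    refine card_le_card (fun j hj => ?_)
    rw [mem_filter] at hj
    rw [Set.Finite.mem_toFinset]
    exact hj.2
  omega

theorem mem_ev_iff {ω : Ω} (hinf : (A ω).Infinite) {s d n : ℕ} (hn : 1 ≤ n) (y : ℝ) :
    ω ∈ Ev A (Jd d ⌊y⌋₊ n) (gs s) ↔ Fails (A ω) s d n y := by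
  constructor
  · intro h k hk1 hky
    have h1 : k ≤ ⌊y⌋₊ := (Nat.le_floor_iff' (by omega)).2 hky
    have h2 : 1 ≤ k ^ d * n := Nat.mul_pos (Nat.pow_pos hk1) hn
    exact h (k ^ d * n) (mem_Jd.2 ⟨k, hk1, h1, rfl⟩) _ (isEl_el hinf h2)
  · intro h m hm a ha
    obtain ⟨k, hk1, hk2, hk3⟩ := mem_Jd.1 hm
    have h1 := h k hk1 ((Nat.le_floor_iff' (by omega)).1 hk2)
    rw [hk3, el_eq hinf ha] at h1
    exact h1

theorem count_near {ω : Ω} (hinf : (A ω).Infinite) (s d : ℕ) (y : ℕ → ℝ) (N : ℕ) :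
    |count (A ω) s d y N - cnt (fun n => Ev A (Jd d ⌊y n⌋₊ n) (gs s)) N ω| ≤ 2 := by
  classical
  have h1 : {n : ℕ | 1 ≤ n ∧ n ≤ N ∧ Fails (A ω) s d n (y n)} =
      ((Icc 1 N).filter (fun n => Fails (A ω) s d n (y n)) : Finset ℕ) := by
    ext n
    rw [mem_coe, mem_filter, mem_Icc]
    simp only [Set.mem_ofPred_eq]
    tauto
  have h2 : count (A ω) s d y N = (((Icc 1 N).filter (fun n => Fails (A ω) s d n (y n))).card : ℝ) := by
    unfold count
    rw [h1, Set.ncard_coe_finset]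
  have h3 : cnt (fun n => Ev A (Jd d ⌊y n⌋₊ n) (gs s)) N ω =
      (((range N).filter (fun n => ω ∈ Ev A (Jd d ⌊y n⌋₊ n) (gs s))).card : ℝ) := by
    unfold cnt
    rw [card_filter]
    push_cast
    refine sum_congr rfl (fun n _ => ?_)
    by_cases h : ω ∈ Ev A (Jd d ⌊y n⌋₊ n) (gs s) <;> simp [h]
  have h4 : (Icc 1 N).filter (fun n => Fails (A ω) s d n (y n)) ⊆
      insert N ((range N).filter (fun n => ω ∈ Ev A (Jd d ⌊y n⌋₊ n) (gs s))) := by
    intro n hn
    rw [mem_filter, mem_Icc] at hn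
    rw [mem_insert, mem_filter, mem_range]
    by_cases h5 : n = N
    · exact Or.inl h5
    · exact Or.inr ⟨by omega, (mem_ev_iff hinf hn.1.1 _).2 hn.2⟩
  have h5 : (range N).filter (fun n => ω ∈ Ev A (Jd d ⌊y n⌋₊ n) (gs s)) ⊆
      insert 0 ((Icc 1 N).filter (fun n => Fails (A ω) s d n (y n))) := by
    intro n hn
    rw [mem_filter, mem_range] at hn
    rw [mem_insert, mem_filter, mem_Icc]
    by_cases h6 : n = 0
    · exact Or.inl h6
    · exact Or.inr ⟨⟨by omega, by omega⟩, (mem_ev_iff hinf (by omega) _).1 hn.2⟩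
  have h6 := (card_le_card h4).trans (card_insert_le _ _)
  have h7 := (card_le_card h5).trans (card_insert_le _ _)
  rw [h2, h3, abs_le]
  have h8 : (((Icc 1 N).filter (fun n => Fails (A ω) s d n (y n))).card : ℝ) ≤
      (((range N).filter (fun n => ω ∈ Ev A (Jd d ⌊y n⌋₊ n) (gs s))).card : ℝ) + 1 := by exact_mod_cast h6
  have h9 : (((range N).filter (fun n => ω ∈ Ev A (Jd d ⌊y n⌋₊ n) (gs s))).card : ℝ) ≤
      (((Icc 1 N).filter (fun n => Fails (A ω) s d n (y n))).card : ℝ) + 1 := by exact_mod_cast h7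
  constructor <;> linarith

/-- From the law to the asymptotics of the count. -/
theorem count_law (hA : IsCramer μ A) {s d : ℕ} {y : ℕ → ℝ} {F : ℕ → ℝ} {κ : ℝ} (hκ : 0 < κ)
    (hF : Tendsto F atTop atTop)
    (hQ : Tendsto (fun N => (∑ n ∈ range N, Qp (Jd d ⌊y n⌋₊ n)) / F N) atTop (𝓝 κ))
    (hlaw : Tendsto (fun N => ∑ n ∈ range N, Qp (Jd d ⌊y n⌋₊ n)) atTop atTop →
      ∀ᵐ ω ∂μ, Tendsto (fun N => cnt (fun n => Ev A (Jd d ⌊y n⌋₊ n) (gs s)) N ω /
        ∑ n ∈ range N, Qp (Jd d ⌊y n⌋₊ n)) atTop (𝓝 1)) :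
    ∀ᵐ ω ∂μ, Tendsto (fun N => count (A ω) s d y N / F N) atTop (𝓝 κ) := by
  have hdiv : Tendsto (fun N => ∑ n ∈ range N, Qp (Jd d ⌊y n⌋₊ n)) atTop atTop := by
    have h1 := hQ.pos_mul_atTop hκ hF
    refine h1.congr' ?_
    filter_upwards [hF.eventually_gt_atTop 0] with N hN
    field_simp
  filter_upwards [hlaw hdiv, ae_infinite hA] with ω h1 hinf
  have h2 := h1.mul hQ
  rw [one_mul] at h2
  have h3 : Tendsto (fun N => (count (A ω) s d y N - cnt (fun n => Ev A (Jd d ⌊y n⌋₊ n) (gs s)) N ω) / F N)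
      atTop (𝓝 0) := by
    have e1 : Tendsto (fun N => 2 / F N) atTop (𝓝 0) := tendsto_const_nhds.div_atTop hF
    refine squeeze_zero_norm' ?_ e1
    filter_upwards [hF.eventually_gt_atTop 0] with N hN
    rw [Real.norm_eq_abs, abs_div, abs_of_pos hN]
    exact div_le_div_of_nonneg_right (count_near hinf s d y N) hN.le
  have h4 := h2.add h3
  rw [add_zero] at h4
  refine h4.congr' ?_
  filter_upwards [hF.eventually_gt_atTop 0, hdiv.eventually_gt_atTop 0] with N hN hN2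
  field_simp
  ring

theorem hb_C (b : ℝ) : ∀ᶠ n : ℕ in atTop, (hb b n : ℝ) ≤ 2 * Real.log n ^ 2 := by
  filter_upwards [(hb_lim1 b).eventually_le_const (show (1 : ℝ) < 2 by norm_num), hl.eventually_ge_atTop 1] with n h1 h2
  rwa [div_le_iff₀ (by positivity)] at h1

theorem hb_mono (b : ℝ) : ∀ᶠ n : ℕ in atTop, ∀ m, n ≤ m → 3 * hb b n ≤ 4 * hb b m := by
  have h0 := ((hb_lim1 b).eventually_le_const (show (1 : ℝ) < 11 / 10 by norm_num)).and
    (((hb_lim1 b).eventually_const_le (show (9 / 10 : ℝ) < 1 by norm_num)).and (hl.eventually_ge_atTop 1))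
  obtain ⟨n0, hn0⟩ := eventually_atTop.1 h0
  filter_upwards [eventually_ge_atTop n0, eventually_ge_atTop 1] with n hn hn1 m hm
  obtain ⟨h1, _, h3⟩ := hn0 n hn
  obtain ⟨_, h5, h6⟩ := hn0 m (hn.trans hm)
  rw [div_le_iff₀ (by positivity)] at h1
  rw [le_div_iff₀ (by positivity)] at h5
  have h7 : Real.log n ≤ Real.log m := Real.log_le_log (by exact_mod_cast hn1) (by exact_mod_cast hm)
  have h8 : Real.log n ^ 2 ≤ Real.log m ^ 2 := pow_le_pow_left₀ (by linarith) h7 2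
  have h9 : (3 * hb b n : ℝ) ≤ 4 * hb b m := by nlinarith
  exact_mod_cast h9

theorem hb_R (b : ℝ) : ∃ K0 : ℝ, ∀ᶠ n : ℕ in atTop, ∀ m : ℕ, n ≤ m → m ≤ n ^ 2 →
    Real.log n ^ 4 * Real.exp (-(hb b m / (6 * Real.log m))) ≤ K0 := by
  refine ⟨1, ?_⟩
  have h0 := ((hb_lim1 b).eventually_const_le (show (9 / 10 : ℝ) < 1 by norm_num)).and (hl.eventually_ge_atTop 1)
  obtain ⟨n0, hn0⟩ := eventually_atTop.1 h0
  have h1 : ∀ᶠ n : ℕ in atTop, Real.log n ^ 4 ≤ (n : ℝ) ^ (3 / 20 : ℝ) := by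
    filter_upwards [polylog_le 1 2 (show (0 : ℝ) < 3 / 20 by norm_num)] with n e1
    calc Real.log n ^ 4 = (1 * Real.log n ^ 2) ^ 2 := by ring
      _ ≤ _ := e1
  filter_upwards [eventually_ge_atTop n0, eventually_ge_atTop 1, h1, hl.eventually_ge_atTop 1] with n hn hn1 h2 h3 m hm _
  obtain ⟨h5, h6⟩ := hn0 m (hn.trans hm)
  rw [le_div_iff₀ (by positivity)] at h5
  have h7 : Real.log n ≤ Real.log m := Real.log_le_log (by exact_mod_cast hn1) (by exact_mod_cast hm)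
  have hn0 : (0 : ℝ) < n := by exact_mod_cast hn1
  have h8 : 3 / 20 * Real.log n ≤ (hb b m : ℝ) / (6 * Real.log m) := by
    rw [le_div_iff₀ (by positivity)]
    nlinarith
  have h9 : Real.exp (-(hb b m / (6 * Real.log m))) ≤ (n : ℝ) ^ (-(3 / 20) : ℝ) := by
    rw [Real.rpow_def_of_pos hn0, Real.exp_le_exp]
    linarith
  calc Real.log n ^ 4 * Real.exp (-(hb b m / (6 * Real.log m))) ≤ (n : ℝ) ^ (3 / 20 : ℝ) * (n : ℝ) ^ (-(3 / 20) : ℝ) :=
        mul_le_mul h2 h9 (Real.exp_pos _).le (by positivity)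
    _ = 1 := by rw [← Real.rpow_add hn0]; norm_num

/-- The real threshold. -/
noncomputable def yb (b : ℝ) (n : ℕ) : ℝ := Real.log n ^ 2 + b * (Real.log n * Real.log (Real.log n))

theorem law_b (hA : IsCramer μ A) {s d : ℕ} (hs : 1 ≤ s) (hd : 1 ≤ d) {b : ℝ} (hb' : b < 2 * d + 2) :
    ∀ᵐ ω ∂μ, Tendsto (fun N : ℕ => count (A ω) s d (yb b) N / Real.log N ^ (2 * d + 2 - b : ℝ)) atTop
      (𝓝 (Real.exp (-(d + 1 / 2)) / (2 * d + 2 - b))) := by
  have hβ : 0 < 2 * (d : ℝ) + 2 - b := by linarith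
  refine count_law hA (by positivity) ((tendsto_rpow_atTop hβ).comp hl) ?_
    (fun hdiv => law_kd hA hs hd (h := hb b) (C := 2) (by norm_num) (hb_C b) (hb_mono b) (Or.inl (hb_R b)) hdiv)
  refine sum_pow hβ ((lim_b hd b).congr (fun n => ?_))
  have : 2 * (d : ℝ) + 1 - b = 2 * d + 2 - b - 1 := by ring
  rw [this]
  rfl

theorem law_b0 (hA : IsCramer μ A) {s d : ℕ} (hs : 1 ≤ s) (hd : 1 ≤ d) :
    ∀ᵐ ω ∂μ, Tendsto (fun N : ℕ => count (A ω) s d (yb (2 * d + 2)) N / Real.log (Real.log N)) atTop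
      (𝓝 (Real.exp (-(d + 1 / 2)))) := by
  refine count_law hA (by positivity) lll ?_
    (fun hdiv => law_kd hA hs hd (h := hb (2 * d + 2)) (C := 2) (by norm_num) (hb_C _) (hb_mono _) (Or.inl (hb_R _)) hdiv)
  refine sum_ll ((lim_b hd (2 * d + 2)).congr (fun n => ?_))
  have : 2 * (d : ℝ) + 1 - (2 * d + 2) = -1 := by ring
  rw [this]
  rfl

theorem law_big (hA : IsCramer μ A) {s d : ℕ} (hs : 1 ≤ s) (hd : 1 ≤ d) {b : ℝ} (hb' : 2 * d + 2 < b) :
    ∀ᵐ ω ∂μ, ∀ᶠ n : ℕ in atTop, ¬ Fails (A ω) s d n (yb b n) := by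
  have h1 := (lim_b hd b).eventually_le_const (show Real.exp (-(d + 1 / 2)) < 1 by
    rw [Real.exp_lt_one_iff]
    have : (0 : ℝ) ≤ d := Nat.cast_nonneg _
    linarith)
  have hev : ∀ᶠ n : ℕ in atTop, μ.real (Ev A (Jd d (hb b n) n) (gs s)) ≤ 2 * (Real.log n ^ (2 * d + 2 - b - 1 : ℝ) / n) := by
    filter_upwards [h1, twin_near hA hs (show (0 : ℝ) ≤ 2 by norm_num), hb_C b, hl.eventually_ge_atTop 1,
      eventually_ge_atTop 10] with n h2 h3 h4 h5 h6
    have h7 := h3 (Jd d (hb b n) n) (fun m hm => Jd_ge hm) (by rw [Jd_card hd (by omega)]; exact h4)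
    rw [abs_le] at h7
    have hn0 : (1 : ℝ) ≤ n := by
      have : 1 ≤ n := by omega
      exact_mod_cast this
    have h8 : (n : ℝ) ^ (-(1 / 5) : ℝ) ≤ 1 := Real.rpow_le_one_of_one_le_of_nonpos hn0 (by norm_num)
    have h9 : 0 ≤ Qp (Jd d (hb b n) n) := Qp_nonneg (fun m hm => by have := Jd_ge hm; omega)
    have h10 : 0 < Real.log (n : ℝ) ^ (2 * d + 1 - b : ℝ) := Real.rpow_pos_of_pos (by linarith) _
    rw [div_le_iff₀ (by positivity)] at h2
    have h11 : 2 * (d : ℝ) + 2 - b - 1 = 2 * d + 1 - b := by ring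
    rw [h11]
    nlinarith [h7.2, mul_le_mul_of_nonneg_right h8 h9]
  obtain ⟨n0, hn0⟩ := eventually_atTop.1 hev
  have hsum : Summable (fun n : ℕ => (if n < n0 then (1 : ℝ) else 0) + 2 * (Real.log n ^ (2 * d + 2 - b - 1 : ℝ) / n)) := by
    refine Summable.add ?_ ((summable_log (show 2 * (d : ℝ) + 2 - b < 0 by linarith)).mul_left 2)
    exact summable_of_ne_finset_zero (s := range n0) (fun b hb => by
      rw [if_neg]
      rwa [mem_range] at hb)
  have hne : ∑' n : ℕ, μ (Ev A (Jd d (hb b n) n) (gs s)) ≠ ⊤ := by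
    have h3 : ∀ n : ℕ, μ (Ev A (Jd d (hb b n) n) (gs s)) ≤
        ENNReal.ofReal ((if n < n0 then (1 : ℝ) else 0) + 2 * (Real.log n ^ (2 * d + 2 - b - 1 : ℝ) / n)) := by
      intro n
      rw [← ofReal_measureReal]
      apply ENNReal.ofReal_le_ofReal
      have h5 : 0 ≤ Real.log (n : ℝ) ^ (2 * d + 2 - b - 1 : ℝ) / n :=
        div_nonneg (Real.rpow_nonneg (Real.log_natCast_nonneg _) _) (Nat.cast_nonneg _)
      by_cases h : n < n0
      · rw [if_pos h]
        have h4 : μ.real (Ev A (Jd d (hb b n) n) (gs s)) ≤ 1 := measureReal_le_one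
        linarith
      · rw [if_neg h, zero_add]
        exact hn0 n (by omega)
    refine ne_top_of_le_ne_top ?_ (ENNReal.tsum_le_tsum h3)
    rw [← ENNReal.ofReal_tsum_of_nonneg (fun n => by
      have h5 : 0 ≤ Real.log (n : ℝ) ^ (2 * d + 2 - b - 1 : ℝ) / n :=
        div_nonneg (Real.rpow_nonneg (Real.log_natCast_nonneg _) _) (Nat.cast_nonneg _)
      split_ifs <;> linarith) hsum]
    exact ENNReal.ofReal_ne_top
  filter_upwards [ae_eventually_notMem hne, ae_infinite hA] with ω hω hinf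
  filter_upwards [hω, eventually_ge_atTop 1] with n h2 h3 h4
  exact h2 ((mem_ev_iff hinf h3 _).2 h4)

theorem law_t (hA : IsCramer μ A) {s d : ℕ} (hs : 1 ≤ s) (hd : 1 ≤ d) {t : ℝ} (ht : 0 ≤ t) :
    ∀ᵐ ω ∂μ, Tendsto (fun N : ℕ => count (A ω) s d (fun n => t * Real.log n) N / N) atTop (𝓝 (Real.exp (-t))) := by
  have hQ := lim_t hd ht
  refine count_law hA (F := fun N : ℕ => (N : ℝ)) (Real.exp_pos _) tendsto_natCast_atTop_atTop ?_ (fun hdiv =>
    law_kd hA hs hd (h := fun n => ⌊t * Real.log n⌋₊) (C := t) ht ?_ ?_ (Or.inr ⟨Real.exp (-t) / 2, by positivity, ?_⟩) hdiv)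
  · have h1 := hQ.cesaro
    refine h1.congr (fun N => ?_)
    rw [inv_mul_eq_div]
  · filter_upwards [hl.eventually_ge_atTop 1] with n hn
    have h1 := Nat.floor_le (mul_nonneg ht (Real.log_natCast_nonneg n))
    have h2 : t * Real.log n ≤ t * Real.log n ^ 2 := mul_le_mul_of_nonneg_left (by nlinarith) ht
    linarith
  · filter_upwards [eventually_ge_atTop 1] with n hn m hm
    have h1 : ⌊t * Real.log n⌋₊ ≤ ⌊t * Real.log m⌋₊ := by
      refine Nat.floor_le_floor (mul_le_mul_of_nonneg_left ?_ ht)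
      exact Real.log_le_log (by exact_mod_cast hn) (by exact_mod_cast hm)
    omega
  · exact hQ.eventually_const_le (by have := Real.exp_pos (-t); linarith)

end Pool.Agent.Q197.CI
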