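import Pool.Agent.Q197.CI.RowG
import Pool.Agent.Q197.CI.CountB

/-!
# Almost sure laws for the numbers of successful tests
-/

set_option autoImplicit false

namespace Pool.Agent.Q197.CI

open Finset Filter MeasureTheory Pool.Agent.Q120.ET Pool.Agent.Q120.MF
open scoped Topology

variable {Ω : Type*} [MeasurableSpace Ω] {μ : Measure Ω} [IsProbabilityMeasure μ] {A : Ω → Set ℕ}

theorem dep_hits {x : ℕ} {H : ℕ → Set ℕ → Prop} (hH : ∀ a, 3 ≤ a → Dep a (H a)) : Dep x (fun S => hits 3 x H S) := by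
  classical
  intro S S' hS
  show hits 3 x H S = hits 3 x H S'
  unfold hits
  congr 1
  refine filter_congr (fun a ha => ?_)
  rw [mem_Ico] at ha
  rw [hH a ha.1 S S' (fun j h3 hj => hS j h3 (by omega)), hS a ha.1 ha.2]

theorem dep_lam {x : ℕ} {H : ℕ → Set ℕ → Prop} (hH : ∀ a, 3 ≤ a → Dep a (H a)) : Dep x (fun S => lam 3 x H S) := by
  classical
  intro S S' hS
  show lam 3 x H S = lam 3 x H S'
  unfold lam
  refine sum_congr (filter_congr (fun a ha => ?_)) (fun _ _ => rfl)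
  rw [mem_Ico] at ha
  rw [hH a ha.1 S S' (fun j h3 hj => hS j h3 (by omega))]

theorem x_div_log_pow (k : ℕ) : Tendsto (fun x : ℕ => (x : ℝ) / Real.log x ^ k) atTop atTop := by
  rw [tendsto_atTop]
  intro B
  have h1 := (Real.isLittleO_pow_log_id_atTop (n := k)).comp_tendsto tendsto_natCast_atTop_atTop
  filter_upwards [h1.bound (show (0 : ℝ) < 1 / (|B| + 1) by positivity), hl.eventually_gt_atTop 0] with n hn hn2
  simp only [Function.comp_apply, id, Real.norm_eq_abs] at hn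
  rw [Nat.abs_cast, abs_of_pos (pow_pos hn2 k), div_mul_eq_mul_div, one_mul, le_div_iff₀ (by positivity)] at hn
  rw [le_div_iff₀ (pow_pos hn2 k)]
  have h2 := le_abs_self B
  have h3 := pow_pos hn2 k
  nlinarith

/-- Chernoff's bounds give the law of large numbers. -/
theorem chern_as (hA : IsCramer μ A) (H : ℕ → ℕ → Set ℕ → Prop) (hH : ∀ n a, 3 ≤ a → Dep a (H n a)) (x : ℕ → ℕ)
    (F : ℕ → ℝ) (hF : Tendsto (fun n : ℕ => F n / Real.log n) atTop atTop) {κ : ℝ} (hκ : 0 < κ)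
    (hlam : ∀ᵐ ω ∂μ, Tendsto (fun n => lam 3 (x n) (H n) (A ω) / F n) atTop (𝓝 κ)) :
    ∀ᵐ ω ∂μ, Tendsto (fun n => (hits 3 (x n) (H n) (A ω) : ℝ) / F n) atTop (𝓝 κ) := by
  have hT0 : ∀ j ∈ (∅ : Finset ℕ), j < 3 := by simp
  have hsum : ∀ e : ℝ, 0 < e → ∀ᶠ n : ℕ in atTop, 0 < F n ∧ Real.exp (-(e * F n)) ≤ (n : ℝ) ^ (-2 : ℝ) := by
    intro e he
    filter_upwards [hF.eventually_ge_atTop (2 / e), hl.eventually_gt_atTop 0, eventually_ge_atTop 1] with n h1 h2 h3
    have hn0 : (0 : ℝ) < n := by exact_mod_cast h3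
    rw [div_le_div_iff₀ he h2] at h1
    have h4 : 0 < F n := by
      by_contra hcon
      push Not at hcon
      nlinarith
    refine ⟨h4, ?_⟩
    rw [Real.rpow_def_of_pos hn0, Real.exp_le_exp]
    linarith
  have hup : ∀ᵐ ω ∂μ, ∀ k : ℕ, ∀ᶠ n in atTop, ¬ (lam 3 (x n) (H n) (A ω) ≤ (1 + 1 / ((k : ℝ) + 1)) * κ * F n ∧
      (1 + 1 / ((k : ℝ) + 1)) * ((1 + 1 / ((k : ℝ) + 1)) * κ * F n) ≤ hits 3 (x n) (H n) (A ω)) := by
    rw [ae_all_iff]
    intro k
    obtain ⟨δ, hδ⟩ : ∃ δ : ℝ, δ = 1 / ((k : ℝ) + 1) := ⟨_, rfl⟩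
    have hδ0 : 0 < δ := by rw [hδ]; positivity
    have hδ1 : δ ≤ 1 := by
      rw [hδ, div_le_one (by positivity)]
      have : (0 : ℝ) ≤ k := Nat.cast_nonneg _
      linarith
    rw [← hδ]
    refine bc (E := fun n => {ω | lam 3 (x n) (H n) (A ω) ≤ (1 + δ) * κ * F n ∧
      (1 + δ) * ((1 + δ) * κ * F n) ≤ hits 3 (x n) (H n) (A ω)}) (f := fun n : ℕ => (n : ℝ) ^ (-2 : ℝ)) ?_
      (Real.summable_nat_rpow.2 (by norm_num))
    filter_upwards [hsum (δ ^ 2 * ((1 + δ) * κ) / 4) (by positivity)] with n h1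
    have hdep : Dep (x n) (fun S => lam 3 (x n) (H n) S ≤ (1 + δ) * κ * F n ∧
        (1 + δ) * ((1 + δ) * κ * F n) ≤ hits 3 (x n) (H n) S) := by
      intro S S' hS
      have e1 : lam 3 (x n) (H n) S = lam 3 (x n) (H n) S' := dep_lam (hH n) S S' hS
      have e2 : hits 3 (x n) (H n) S = hits 3 (x n) (H n) S' := dep_hits (hH n) S S' hS
      simp only [e1, e2]
    rw [real_eq_pr hA hdep]
    refine (tail_up le_rfl hT0 (H n) (hH n) (x n) hδ0.le (by linarith) (mul_nonneg (by positivity) h1.1.le) le_rfl).trans ?_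
    refine le_trans (Real.exp_le_exp.2 (le_of_eq ?_)) h1.2
    ring
  have hlow : ∀ᵐ ω ∂μ, ∀ k : ℕ, ∀ᶠ n in atTop, ¬ ((1 - 1 / ((k : ℝ) + 2)) * κ * F n ≤ lam 3 (x n) (H n) (A ω) ∧
      (hits 3 (x n) (H n) (A ω) : ℝ) ≤ (1 - 1 / ((k : ℝ) + 2)) * ((1 - 1 / ((k : ℝ) + 2)) * κ * F n)) := by
    rw [ae_all_iff]
    intro k
    obtain ⟨δ, hδ⟩ : ∃ δ : ℝ, δ = 1 / ((k : ℝ) + 2) := ⟨_, rfl⟩
    have hδ0 : 0 < δ := by rw [hδ]; positivity
    have hδ1 : δ ≤ 1 / 2 := by
      rw [hδ]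
      refine one_div_le_one_div_of_le (by norm_num) ?_
      have : (0 : ℝ) ≤ k := Nat.cast_nonneg _
      linarith
    have hδ2 : 0 < 1 - δ := by linarith
    rw [← hδ]
    refine bc (E := fun n => {ω | (1 - δ) * κ * F n ≤ lam 3 (x n) (H n) (A ω) ∧
      (hits 3 (x n) (H n) (A ω) : ℝ) ≤ (1 - δ) * ((1 - δ) * κ * F n)}) (f := fun n : ℕ => (n : ℝ) ^ (-2 : ℝ)) ?_
      (Real.summable_nat_rpow.2 (by norm_num))
    filter_upwards [hsum (δ ^ 2 * ((1 - δ) * κ) / 4) (by positivity)] with n h1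
    have hdep : Dep (x n) (fun S => (1 - δ) * κ * F n ≤ lam 3 (x n) (H n) S ∧
        (hits 3 (x n) (H n) S : ℝ) ≤ (1 - δ) * ((1 - δ) * κ * F n)) := by
      intro S S' hS
      have e1 : lam 3 (x n) (H n) S = lam 3 (x n) (H n) S' := dep_lam (hH n) S S' hS
      have e2 : hits 3 (x n) (H n) S = hits 3 (x n) (H n) S' := dep_hits (hH n) S S' hS
      simp only [e1, e2]
    rw [real_eq_pr hA hdep]
    refine (tail_low le_rfl hT0 (H n) (hH n) (x n) hδ0.le (by linarith) (mul_nonneg (by positivity) h1.1.le) le_rfl).trans ?_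
    refine le_trans (Real.exp_le_exp.2 (le_of_eq ?_)) h1.2
    ring
  filter_upwards [hlam, hup, hlow] with ω h1 h2 h3
  have hk1 : Tendsto (fun k : ℕ => 1 / ((k : ℝ) + 1)) atTop (𝓝 0) := tendsto_one_div_add_atTop_nhds_zero_nat
  have hk2 : Tendsto (fun k : ℕ => 1 / ((k : ℝ) + 2)) atTop (𝓝 0) := by
    refine tendsto_const_nhds.div_atTop ?_
    exact tendsto_atTop_add_const_right _ _ tendsto_natCast_atTop_atTop
  have hu : Tendsto (fun k : ℕ => (1 + 1 / ((k : ℝ) + 1)) * ((1 + 1 / ((k : ℝ) + 1)) * κ)) atTop (𝓝 ((1 + 0) * ((1 + 0) * κ))) :=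
    (hk1.const_add 1).mul ((hk1.const_add 1).mul_const κ)
  have hl' : Tendsto (fun k : ℕ => (1 - 1 / ((k : ℝ) + 2)) * ((1 - 1 / ((k : ℝ) + 2)) * κ)) atTop (𝓝 ((1 - 0) * ((1 - 0) * κ))) :=
    (hk2.const_sub 1).mul ((hk2.const_sub 1).mul_const κ)
  rw [add_zero, one_mul, one_mul] at hu
  rw [sub_zero, one_mul, one_mul] at hl'
  rw [tendsto_order]
  constructor
  · intro a ha
    obtain ⟨k, hk⟩ := (hl'.eventually_const_lt ha).exists
    have hδ : 1 / ((k : ℝ) + 2) < 1 := by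
      rw [div_lt_one (by positivity)]
      have : (0 : ℝ) ≤ k := Nat.cast_nonneg _
      linarith
    have hδ0 : 0 < 1 / ((k : ℝ) + 2) := by positivity
    filter_upwards [h3 k, h1.eventually_const_lt (show (1 - 1 / ((k : ℝ) + 2)) * κ < κ by nlinarith), hsum 1 one_pos]
      with n h4 h5 h6
    rw [lt_div_iff₀ h6.1] at h5 ⊢
    by_contra hcon
    push Not at hcon
    refine h4 ⟨h5.le, hcon.trans ?_⟩
    rw [← mul_assoc, ← mul_assoc]
    rw [← mul_assoc] at hk
    exact mul_le_mul_of_nonneg_right hk.le h6.1.le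
  · intro a ha
    obtain ⟨k, hk⟩ := (hu.eventually_lt_const ha).exists
    have hδ0 : 0 < 1 / ((k : ℝ) + 1) := by positivity
    filter_upwards [h2 k, h1.eventually_lt_const (show κ < (1 + 1 / ((k : ℝ) + 1)) * κ by nlinarith), hsum 1 one_pos]
      with n h4 h5 h6
    rw [div_lt_iff₀ h6.1] at h5 ⊢
    by_contra hcon
    push Not at hcon
    refine h4 ⟨h5.le, le_trans ?_ hcon⟩
    rw [← mul_assoc, ← mul_assoc]
    rw [← mul_assoc] at hk
    exact mul_le_mul_of_nonneg_right hk.le h6.1.le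

/-- All large elements are where they should be. -/
theorem ae_good (hA : IsCramer μ A) : ∀ᵐ ω ∂μ, ∀ᶠ m in atTop, Good (A ω) m := by
  have h0 : Tendsto (fun m' : ℕ => dl m' * m' / 12) atTop atTop := dl_mul.atTop_div_const (by norm_num)
  have h1 := bc (μ := μ) (E := fun m => {ω | ¬ Good (A ω) m}) (f := fun m : ℕ => (m : ℝ) ^ (-2 : ℝ)) ?_
    (Real.summable_nat_rpow.2 (by norm_num))
  · filter_upwards [h1] with ω h2
    filter_upwards [h2] with m h3
    by_contra hcon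
    exact h3 hcon
  · have hsq : ∀ᶠ m : ℕ in atTop, 2 * Real.exp (-(Real.sqrt m / 256)) ≤ (m : ℝ) ^ (-2 : ℝ) := by
      have h2 := log_le_rpow (show (0 : ℝ) < 1 / 1024 by norm_num) (show (0 : ℝ) < 1 / 2 by norm_num)
      filter_upwards [h2, hl.eventually_ge_atTop (2 * Real.log 2), eventually_ge_atTop 1] with m h3 h4 h5
      have hm0 : (0 : ℝ) < m := by exact_mod_cast h5
      rw [← Real.sqrt_eq_rpow] at h3
      have h6 : (2 : ℝ) = Real.exp (Real.log 2) := (Real.exp_log (by norm_num)).symm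
      have h7 := Real.sqrt_nonneg (m : ℝ)
      rw [h6, ← Real.exp_add, ← h6, Real.rpow_def_of_pos hm0, Real.exp_le_exp]
      linarith
    filter_upwards [pr_good, pos_bounds, h0.eventually_ge_atTop 3, hsq] with m' h3 h4 h5 h6
    have hlh : lo m' ≤ hi m' := by
      have := h4.2.2.2.2.2.2.1.trans h4.2.2.2.2.2.2.2.1
      exact_mod_cast this
    have h7 := h3 3 le_rfl (by push_cast; exact h5) ∅ (by simp) (hi m') le_rfl
    have hdep : Dep (hi m') (fun S => ¬ Good S m') := by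
      intro S S' hS
      have e : Good S m' = Good S' m' := dep_good hlh le_rfl S S' hS
      show (¬ Good S m') = (¬ Good S' m')
      rw [e]
    rw [← real_eq_pr hA hdep] at h7
    exact h7.trans h6

/-- The elements. -/
theorem ae_el (hA : IsCramer μ A) : ∀ᵐ ω ∂μ, (A ω).Infinite ∧ ∀ᶠ m in atTop,
    lo m ≤ el (A ω) m ∧ el (A ω) m < hi m ∧ el (A ω) m ≤ m ^ 2 := by
  filter_upwards [ae_good hA, ae_infinite hA] with ω h1 h2
  refine ⟨h2, ?_⟩
  filter_upwards [h1, eventually_ge_atTop 1, hi_le] with m h3 h4 h5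
  obtain ⟨a, ha1, ha2, ha3⟩ := good_isEl h4 h3
  rw [el_eq h2 ha3]
  exact ⟨ha1, ha2, by omega⟩

theorem ae_log_el (hA : IsCramer μ A) : ∀ᵐ ω ∂μ, Tendsto (fun m : ℕ => Real.log (el (A ω) m) / Real.log m) atTop (𝓝 1) := by
  filter_upwards [ae_el hA] with ω h
  obtain ⟨_, h⟩ := h
  have h1 : Tendsto (fun m : ℕ => Real.log (el (A ω) m) - Real.log (fp m)) atTop (𝓝 0) := by
    have hd := dl_tendsto
    refine squeeze_zero_norm' ?_ (by
      have := hd.const_mul 4
      rwa [mul_zero] at this)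
    filter_upwards [h, pos_bounds, eventually_ge_atTop 1] with m h2 h3 h4
    obtain ⟨b1, b2, b3, b4, b5, b6, b7, b8, b9, b10, b11⟩ := h3
    have hf : m ≤ fp m := le_fp m
    have hf0 : (0 : ℝ) < fp m := by exact_mod_cast (show 0 < fp m by omega)
    have hel : (0 : ℝ) < el (A ω) m := by exact_mod_cast (show 0 < el (A ω) m by omega)
    have h5 : (el (A ω) m : ℝ) ≤ (1 + 2 * dl m) * fp m := by
      refine le_trans ?_ b9
      exact_mod_cast h2.2.1.le
    have h6 : (1 - 2 * dl m) * fp m ≤ el (A ω) m := by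
      refine b6.trans ?_
      exact_mod_cast h2.1
    rw [Real.norm_eq_abs, abs_le]
    constructor
    · have f1 := Real.log_le_log (by nlinarith) h6
      rw [Real.log_mul (by nlinarith) hf0.ne'] at f1
      have f2 := Real.one_sub_inv_le_log_of_pos (show 0 < 1 - 2 * dl m by linarith)
      have f3 : (1 - 2 * dl m)⁻¹ ≤ 1 + 4 * dl m := by
        rw [inv_le_iff_one_le_mul₀ (by linarith)]
        nlinarith
      linarith
    · have f1 := Real.log_le_log hel h5
      rw [Real.log_mul (by positivity) hf0.ne'] at f1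
      have f2 := Real.log_le_sub_one_of_pos (show 0 < 1 + 2 * dl m by positivity)
      linarith
  have h2 := log_fp_ratio.add (h1.div_atTop hl)
  rw [add_zero] at h2
  refine h2.congr (fun m => ?_)
  rw [← add_div]
  congr 1
  ring

theorem hits_true (x : ℕ) (S : Set ℕ) : hits 3 x (fun _ _ => True) S = ct S x := by
  classical
  unfold hits ct
  congr 1
  ext a
  simp

theorem lam_true (x : ℕ) (S : Set ℕ) : lam 3 x (fun _ _ => True) S = Lf x := by
  classical
  unfold lam Lf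
  simp

/-- The number of elements. -/
theorem ct_law (hA : IsCramer μ A) : ∀ᵐ ω ∂μ, Tendsto (fun x : ℕ => (ct (A ω) x : ℝ) * Real.log x / x) atTop (𝓝 1) := by
  have h1 := chern_as hA (fun _ _ _ => True) (fun _ _ _ => dep_const True) (fun x => x) (fun x : ℕ => (x : ℝ) / Real.log x)
    ?_ one_pos ?_
  · filter_upwards [h1] with ω h2
    refine h2.congr (fun x => ?_)
    rw [hits_true]
    field_simp
  · refine (x_div_log_pow 2).congr (fun x => ?_)
    rw [div_div, sq]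
  · refine Eventually.of_forall (fun ω => ?_)
    simp only [lam_true]
    exact tendsto_Lf

end Pool.Agent.Q197.CI
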