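import Pool.Agent.Q197.CI.AsL

/-!
# Almost sure laws for the numbers of admissible indices
-/

set_option autoImplicit false

namespace Pool.Agent.Q197.CI

open Finset Filter MeasureTheory Pool.Agent.Q120.ET Pool.Agent.Q120.MF
open scoped Topology

theorem squeeze_family {f : ℕ → ℝ} {κ : ℝ} (lo' hi' : ℕ → ℕ → ℝ) (a b : ℕ → ℝ) (ha : Tendsto a atTop (𝓝 κ))
    (hb : Tendsto b atTop (𝓝 κ)) (h1 : ∀ k, Tendsto (lo' k) atTop (𝓝 (a k))) (h2 : ∀ k, Tendsto (hi' k) atTop (𝓝 (b k)))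
    (h3 : ∀ k, ∀ᶠ n in atTop, lo' k n ≤ f n) (h4 : ∀ k, ∀ᶠ n in atTop, f n ≤ hi' k n) :
    Tendsto f atTop (𝓝 κ) := by
  rw [tendsto_order]
  constructor
  · intro c hc
    obtain ⟨k, hk⟩ := (ha.eventually_const_lt hc).exists
    filter_upwards [h3 k, (h1 k).eventually_const_lt hk] with n h5 h6
    linarith
  · intro c hc
    obtain ⟨k, hk⟩ := (hb.eventually_lt_const hc).exists
    filter_upwards [h4 k, (h2 k).eventually_lt_const hk] with n h5 h6
    linarith

theorem sum_Icc_range (f : ℕ → ℝ) (h : ℕ) : ∑ m ∈ Icc 1 h, f m = ∑ n ∈ range h, f (n + 1) := by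
  induction h with
  | zero => simp
  | succ h ih => rw [sum_Icc_succ_top (by omega), ih, sum_range_succ]

theorem log_succ_ratio : Tendsto (fun n : ℕ => Real.log ((n + 1 : ℕ) : ℝ) / Real.log n) atTop (𝓝 1) := by
  have h1 := (Real.tendsto_log_nat_add_one_sub_log.div_atTop hl).const_add 1
  rw [add_zero] at h1
  refine h1.congr' ?_
  filter_upwards [hl.eventually_gt_atTop 0] with n hn
  push_cast
  rw [sub_div, div_self hn.ne']
  ring

/-- Sums of the probabilities. -/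
theorem sum_pb_law {t : ℕ → ℕ} {κ : ℝ} (hκ : 0 < κ) (ht : Tendsto (fun m : ℕ => Real.log (t m) / Real.log m) atTop (𝓝 κ)) :
    Tendsto (fun h : ℕ => (∑ m ∈ Icc 1 h, pb (t m)) * Real.log h / h) atTop (𝓝 (1 / κ)) := by
  have hpb : ∀ n : ℕ, 3 ≤ n → Lf (n + 1) - Lf n = pb n := by
    intro n hn
    rw [Lf_sub hn (by omega)]
    have : Ico n (n + 1) = {n} := by
      ext j
      rw [mem_Ico, mem_singleton]
      omega
    rw [this, sum_singleton]
  have h1 : Tendsto (fun n : ℕ => pb (t (n + 1)) / (Lf (n + 1) - Lf n)) atTop (𝓝 (1 / κ)) := by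
    have h2 := ((tendsto_const_nhds (x := (1 : ℝ))).div (ht.comp (tendsto_add_atTop_nat 1)) hκ.ne').div
      log_succ_ratio one_ne_zero
    rw [div_one] at h2
    refine h2.congr' ?_
    filter_upwards [eventually_ge_atTop 3, hl.eventually_gt_atTop 0] with n hn hn2
    rw [hpb n hn]
    unfold pb
    simp only [Pi.div_apply, Function.comp_apply]
    have h3 : 0 < Real.log ((n + 1 : ℕ) : ℝ) := Real.log_pos (by exact_mod_cast (show 1 < n + 1 by omega))
    by_cases h4 : Real.log (t (n + 1) : ℝ) = 0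
    · rw [h4]
      simp
    · field_simp
  have h2 := stolz (Q := fun n => pb (t (n + 1))) (F := Lf) (κ := 1 / κ) ?_ Lf_top h1
  · have h3 := h2.mul tendsto_Lf
    rw [mul_one] at h3
    refine h3.congr' ?_
    filter_upwards [Lf_top.eventually_gt_atTop 0] with N hN
    rw [sum_Icc_range]
    by_cases h4 : Real.log (N : ℝ) = 0
    · rw [h4]
      simp
    by_cases h5 : (N : ℝ) = 0
    · rw [h5]
      simp
    field_simp
  · filter_upwards [eventually_ge_atTop 3] with n hn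
    rw [hpb n hn]
    exact pb_pos hn

open Classical in
/-- The number of `k ≤ h` with the property `D`. -/
noncomputable def cD (D : ℕ → Prop) (h : ℕ) : ℝ := (((Icc 1 h).filter D).card : ℝ)

open Classical in
/-- Sums of weights over a set with a counting law. -/
theorem wsum {D : ℕ → Prop} {w : ℕ → ℝ} {a : ℕ} {κ κ' : ℝ} (hD : Tendsto (fun h : ℕ => cD D h * Real.log h ^ a / h) atTop (𝓝 κ'))
    {B : ℝ} (hw0 : ∀ k, 0 ≤ w k) (hwB : ∀ k, w k ≤ B) (hκ : 0 < κ)
    (hw : Tendsto (fun k : ℕ => w k * Real.log k) atTop (𝓝 κ)) :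
    Tendsto (fun h : ℕ => (∑ k ∈ (Icc 1 h).filter D, w k) * Real.log h ^ (a + 1) / h) atTop (𝓝 (κ' * κ)) := by
  have hB0 : 0 ≤ B := (hw0 0).trans (hwB 0)
  obtain ⟨u, hu⟩ : ∃ u : ℕ → ℕ, u = fun h : ℕ => ⌊(h : ℝ) / Real.log h ^ (a + 2)⌋₊ := ⟨_, rfl⟩
  have hutop : Tendsto u atTop atTop := by
    rw [hu]
    exact tendsto_nat_floor_atTop.comp (x_div_log_pow (a + 2))
  have hule : ∀ᶠ h : ℕ in atTop, (u h : ℝ) * Real.log h ^ (a + 1) / h ≤ 1 / Real.log h := by
    filter_upwards [hl.eventually_gt_atTop 0, eventually_ge_atTop 1] with h h1 h2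
    have hh0 : (0 : ℝ) < h := by exact_mod_cast h2
    have h3 : (u h : ℝ) ≤ (h : ℝ) / Real.log h ^ (a + 2) := by
      rw [hu]
      exact Nat.floor_le (by positivity)
    calc (u h : ℝ) * Real.log h ^ (a + 1) / h ≤ (h : ℝ) / Real.log h ^ (a + 2) * Real.log h ^ (a + 1) / h := by
          gcongr
      _ = 1 / Real.log h := by
          rw [pow_succ (Real.log (h : ℝ)) (a + 1)]
          field_simp
  have hu0 : Tendsto (fun h : ℕ => (u h : ℝ) * Real.log h ^ (a + 1) / h) atTop (𝓝 0) := by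
    refine squeeze_zero' ?_ hule (tendsto_const_nhds.div_atTop hl)
    filter_upwards [hl.eventually_gt_atTop 0] with h h1
    positivity
  have hu1 : Tendsto (fun h : ℕ => (u h : ℝ) * Real.log h ^ a / h) atTop (𝓝 0) := by
    refine squeeze_zero' ?_ ?_ hu0
    · filter_upwards [hl.eventually_gt_atTop 0] with h h1
      positivity
    · filter_upwards [hl.eventually_ge_atTop 1] with h h1
      have : Real.log (h : ℝ) ^ a ≤ Real.log h ^ (a + 1) := pow_le_pow_right₀ h1 (by omega)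
      gcongr
  have hul : Tendsto (fun h : ℕ => Real.log (u h) / Real.log h) atTop (𝓝 1) := by
    have h1 : Tendsto (fun h : ℕ => (u h : ℝ) / ((h : ℝ) / Real.log h ^ (a + 2))) atTop (𝓝 1) := by
      rw [hu]
      exact (tendsto_nat_floor_div_atTop (R := ℝ)).comp (x_div_log_pow (a + 2))
    have h2 : Tendsto (fun h : ℕ => Real.log ((u h : ℝ) / ((h : ℝ) / Real.log h ^ (a + 2))) / Real.log h) atTop (𝓝 0) := by
      have := (Real.continuousAt_log one_ne_zero).tendsto.comp h1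
      rw [Real.log_one] at this
      exact this.div_atTop hl
    have h3 := (h2.add_const 1).sub (ll_div.const_mul ((a : ℝ) + 2))
    rw [zero_add, mul_zero, sub_zero] at h3
    refine h3.congr' ?_
    filter_upwards [hl.eventually_gt_atTop 0, hutop.eventually_ge_atTop 1, eventually_ge_atTop 1] with h h4 h5 h6
    have hh0 : (0 : ℝ) < h := by exact_mod_cast h6
    have hu0' : (0 : ℝ) < u h := by exact_mod_cast h5
    rw [Real.log_div hu0'.ne' (by positivity), Real.log_div hh0.ne' (by positivity), Real.log_pow]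
    push_cast
    field_simp
    ring
  have hk2 : Tendsto (fun k : ℕ => 1 / ((k : ℝ) + 2)) atTop (𝓝 0) := by
    refine tendsto_const_nhds.div_atTop ?_
    exact tendsto_atTop_add_const_right _ _ tendsto_natCast_atTop_atTop
  have hδ : ∀ k : ℕ, 0 < 1 / ((k : ℝ) + 2) ∧ 1 / ((k : ℝ) + 2) < 1 := by
    intro k
    refine ⟨by positivity, ?_⟩
    rw [div_lt_one (by positivity)]
    have : (0 : ℝ) ≤ k := Nat.cast_nonneg _
    linarith
  refine squeeze_family (fun k h => (cD D h * Real.log h ^ a / h - (u h : ℝ) * Real.log h ^ a / h) * (κ * (1 - 1 / ((k : ℝ) + 2))))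
    (fun k h => B * ((u h : ℝ) * Real.log h ^ (a + 1) / h) + (cD D h * Real.log h ^ a / h) *
      (κ * (1 + 1 / ((k : ℝ) + 2)) / (1 - 1 / ((k : ℝ) + 2))))
    (fun k => (κ' - 0) * (κ * (1 - 1 / ((k : ℝ) + 2))))
    (fun k => B * 0 + κ' * (κ * (1 + 1 / ((k : ℝ) + 2)) / (1 - 1 / ((k : ℝ) + 2)))) ?_ ?_ ?_ ?_ ?_ ?_
  · have := ((hk2.const_sub 1).const_mul κ).const_mul (κ' - 0)
    rw [sub_zero, sub_zero, mul_one] at this
    simp only [sub_zero]
    exact this
  · have := (((hk2.const_add 1).const_mul κ).div (hk2.const_sub 1) (by norm_num)).const_mul κ'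
    rw [add_zero, sub_zero, mul_one, div_one] at this
    refine this.congr (fun k => ?_)
    simp only [Pi.div_apply, mul_zero, zero_add]
  · intro k
    exact (hD.sub hu1).mul_const _
  · intro k
    exact (hu0.const_mul B).add (hD.mul_const _)
  · intro k
    obtain ⟨hδ0, hδ1⟩ := hδ k
    obtain ⟨δ, hδe⟩ : ∃ δ : ℝ, δ = 1 / ((k : ℝ) + 2) := ⟨_, rfl⟩
    rw [← hδe] at hδ0 hδ1 ⊢
    obtain ⟨k0, hk0⟩ := eventually_atTop.1 (hw.eventually_const_lt (show κ * (1 - δ) < κ by nlinarith))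
    filter_upwards [hutop.eventually_ge_atTop (k0 + 3), hl.eventually_gt_atTop 0, eventually_ge_atTop 1] with h h1 h2 h3
    have hh0 : (0 : ℝ) < h := by exact_mod_cast h3
    have h4 : (cD D h - u h) * (κ * (1 - δ) / Real.log h) ≤ ∑ k ∈ (Icc 1 h).filter D, w k := by
      have h5 : ((Icc 1 h).filter (fun k => D k ∧ u h < k)) ⊆ (Icc 1 h).filter D := by
        intro j hj
        rw [mem_filter] at hj ⊢
        exact ⟨hj.1, hj.2.1⟩
      have h6 : cD D h - u h ≤ (((Icc 1 h).filter (fun k => D k ∧ u h < k)).card : ℝ) := by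
        have h7 : (Icc 1 h).filter D ⊆ (Icc 1 h).filter (fun k => D k ∧ u h < k) ∪ Icc 1 (u h) := by
          intro j hj
          rw [mem_filter, mem_Icc] at hj
          rw [mem_union, mem_filter, mem_Icc, mem_Icc]
          by_cases h8 : u h < j
          · exact Or.inl ⟨hj.1, hj.2, h8⟩
          · exact Or.inr ⟨hj.1.1, by omega⟩
        have h8 := (card_le_card h7).trans (card_union_le _ _)
        rw [Nat.card_Icc, Nat.add_sub_cancel] at h8
        unfold cD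
        have h9 : (((Icc 1 h).filter D).card : ℝ) ≤ (((Icc 1 h).filter (fun k => D k ∧ u h < k)).card : ℝ) + u h := by
          exact_mod_cast h8
        linarith
      refine le_trans ?_ (sum_le_sum_of_subset_of_nonneg h5 (fun i _ _ => hw0 i))
      refine le_trans (mul_le_mul_of_nonneg_right h6 (by
        have : 0 ≤ κ * (1 - δ) := by nlinarith
        positivity)) ?_
      rw [← nsmul_eq_mul]
      refine card_nsmul_le_sum _ _ _ (fun j hj => ?_)
      rw [mem_filter, mem_Icc] at hj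
      have h7 := hk0 j (by omega)
      have h8 : 0 < Real.log (j : ℝ) := Real.log_pos (by exact_mod_cast (show 1 < j by omega))
      have h9 : Real.log (j : ℝ) ≤ Real.log h := Real.log_le_log (by exact_mod_cast (show 0 < j by omega)) (by exact_mod_cast hj.1.2)
      rw [div_le_iff₀ h2]
      refine h7.le.trans ?_
      exact mul_le_mul_of_nonneg_left h9 (hw0 j)
    calc (cD D h * Real.log h ^ a / h - (u h : ℝ) * Real.log h ^ a / h) * (κ * (1 - δ))
        = ((cD D h - u h) * (κ * (1 - δ) / Real.log h)) * Real.log h ^ (a + 1) / h := by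
          rw [pow_succ]
          field_simp
      _ ≤ _ := by gcongr
  · intro k
    obtain ⟨hδ0, hδ1⟩ := hδ k
    obtain ⟨δ, hδe⟩ : ∃ δ : ℝ, δ = 1 / ((k : ℝ) + 2) := ⟨_, rfl⟩
    rw [← hδe] at hδ0 hδ1 ⊢
    obtain ⟨k0, hk0⟩ := eventually_atTop.1 (hw.eventually_lt_const (show κ < κ * (1 + δ) by nlinarith))
    filter_upwards [hutop.eventually_ge_atTop (k0 + 3), hl.eventually_gt_atTop 0, eventually_ge_atTop 1,
      hul.eventually_const_lt (show 1 - δ < 1 by linarith)] with h h1 h2 h3 h4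
    have hh0 : (0 : ℝ) < h := by exact_mod_cast h3
    rw [lt_div_iff₀ h2] at h4
    have h5 : ∑ k ∈ (Icc 1 h).filter D, w k ≤ B * u h + cD D h * (κ * (1 + δ) / (1 - δ) / Real.log h) := by
      have h6 : ∀ k ∈ (Icc 1 h).filter D, w k ≤ (if k ≤ u h then B else 0) + κ * (1 + δ) / (1 - δ) / Real.log h := by
        intro j hj
        rw [mem_filter, mem_Icc] at hj
        have hpos : 0 ≤ κ * (1 + δ) / (1 - δ) / Real.log h := by
          have : 0 < 1 - δ := by linarith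
          positivity
        split_ifs with h7
        · linarith [hwB j]
        · rw [zero_add]
          have h8 := hk0 j (by omega)
          have hu0' : (0 : ℝ) < u h := by exact_mod_cast (show 0 < u h by omega)
          have h9 : Real.log (u h : ℝ) ≤ Real.log j := Real.log_le_log hu0' (by exact_mod_cast (show u h ≤ j by omega))
          have h10 : (1 - δ) * Real.log h ≤ Real.log j := by linarith
          have h11 : 0 < (1 - δ) * Real.log h := mul_pos (by linarith) h2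
          rw [div_div, le_div_iff₀ h11]
          have h12 : w j * ((1 - δ) * Real.log h) ≤ w j * Real.log j := mul_le_mul_of_nonneg_left h10 (hw0 j)
          linarith
      refine (sum_le_sum h6).trans ?_
      rw [sum_add_distrib, sum_const, nsmul_eq_mul]
      unfold cD
      have h7 : ∑ k ∈ (Icc 1 h).filter D, (if k ≤ u h then B else 0) ≤ B * u h := by
        rw [← sum_filter, sum_const, nsmul_eq_mul, mul_comm]
        refine mul_le_mul_of_nonneg_left ?_ hB0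
        have h8 : ((Icc 1 h).filter D).filter (fun k => k ≤ u h) ⊆ Icc 1 (u h) := by
          intro j hj
          rw [mem_filter, mem_filter, mem_Icc] at hj
          rw [mem_Icc]
          exact ⟨hj.1.1.1, hj.2⟩
        have h9 := card_le_card h8
        rw [Nat.card_Icc, Nat.add_sub_cancel] at h9
        exact_mod_cast h9
      linarith
    calc (∑ k ∈ (Icc 1 h).filter D, w k) * Real.log h ^ (a + 1) / h
        ≤ (B * u h + cD D h * (κ * (1 + δ) / (1 - δ) / Real.log h)) * Real.log h ^ (a + 1) / h := by gcongr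
      _ = B * ((u h : ℝ) * Real.log h ^ (a + 1) / h) + (cD D h * Real.log h ^ a / h) * (κ * (1 + δ) / (1 - δ)) := by
          have : (1 - δ) ≠ 0 := by linarith
          rw [pow_succ]
          field_simp

variable {Ω : Type*} [MeasurableSpace Ω] {μ : Measure Ω} [IsProbabilityMeasure μ] {A : Ω → Set ℕ}

/-- The number `a` is tested for some index `m ≤ h`. -/
def HP (Pos : ℕ → ℕ → Set ℕ → Prop) (h a : ℕ) (S : Set ℕ) : Prop := ∃ m, 1 ≤ m ∧ m ≤ h ∧ Pos m a S

/-- Successful indices. -/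
def WP (Pos : ℕ → ℕ → Set ℕ → Prop) (m : ℕ) (S : Set ℕ) : Prop := ∃ a, Pos m a S ∧ a ∈ S

theorem dep_HP {Pos : ℕ → ℕ → Set ℕ → Prop} (hP : ∀ m a, Dep a (Pos m a)) (h a : ℕ) : Dep a (HP Pos h a) := by
  intro S S' hS
  unfold HP
  apply propext
  constructor
  · rintro ⟨m, h1, h2, h3⟩
    have h4 : Pos m a S = Pos m a S' := hP m a S S' hS
    exact ⟨m, h1, h2, h4 ▸ h3⟩
  · rintro ⟨m, h1, h2, h3⟩
    have h4 : Pos m a S = Pos m a S' := hP m a S S' hS
    exact ⟨m, h1, h2, h4 ▸ h3⟩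

open Classical in
theorem filter_HP {Pos : ℕ → ℕ → Set ℕ → Prop} {S : Set ℕ} {D : ℕ → Prop} {e : ℕ → ℕ} {h x : ℕ}
    (h1 : ∀ m a, 1 ≤ m → (Pos m a S ↔ (D m ∧ a = e m)))
    (h2 : ∀ m, 1 ≤ m → m ≤ h → D m → 3 ≤ e m ∧ e m < x) :
    (Ico 3 x).filter (fun a => HP Pos h a S) = ((Icc 1 h).filter D).image e := by
  ext a
  rw [mem_filter, mem_Ico, mem_image]
  unfold HP
  constructor
  · rintro ⟨_, m, h3, h4, h5⟩
    obtain ⟨h6, h7⟩ := (h1 m a h3).1 h5
    exact ⟨m, mem_filter.2 ⟨mem_Icc.2 ⟨h3, h4⟩, h6⟩, h7.symm⟩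
  · rintro ⟨m, h3, rfl⟩
    rw [mem_filter, mem_Icc] at h3
    exact ⟨h2 m h3.1.1 h3.1.2 h3.2, m, h3.1.1, h3.1.2, (h1 m _ h3.1.1).2 ⟨h3.2, rfl⟩⟩

open Classical in
theorem lam_HP {Pos : ℕ → ℕ → Set ℕ → Prop} {S : Set ℕ} {D : ℕ → Prop} {e : ℕ → ℕ} {h x : ℕ}
    (h1 : ∀ m a, 1 ≤ m → (Pos m a S ↔ (D m ∧ a = e m)))
    (h2 : ∀ m, 1 ≤ m → m ≤ h → D m → 3 ≤ e m ∧ e m < x)
    (h3 : ∀ m m', 1 ≤ m → 1 ≤ m' → D m → D m' → e m = e m' → m = m') :
    lam 3 x (HP Pos h) S = ∑ m ∈ (Icc 1 h).filter D, pb (e m) := by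
  unfold lam
  rw [filter_HP h1 h2, sum_image]
  intro m hm m' hm' hmm
  rw [mem_coe, mem_filter, mem_Icc] at hm hm'
  exact h3 m m' hm.1.1 hm'.1.1 hm.2 hm'.2 hmm

open Classical in
theorem hits_HP {Pos : ℕ → ℕ → Set ℕ → Prop} {S : Set ℕ} {D : ℕ → Prop} {e : ℕ → ℕ} {h x : ℕ}
    (h1 : ∀ m a, 1 ≤ m → (Pos m a S ↔ (D m ∧ a = e m)))
    (h2 : ∀ m, 1 ≤ m → m ≤ h → D m → 3 ≤ e m ∧ e m < x)
    (h3 : ∀ m m', 1 ≤ m → 1 ≤ m' → D m → D m' → e m = e m' → m = m') :
    hits 3 x (HP Pos h) S = (Ws (WP Pos) S h).card := by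
  unfold hits
  rw [← filter_filter, filter_HP h1 h2]
  have h4 : (((Icc 1 h).filter D).image e).filter (fun a => a ∈ S) = (Ws (WP Pos) S h).image e := by
    ext a
    rw [mem_filter, mem_image, mem_image]
    constructor
    · rintro ⟨⟨m, h5, rfl⟩, h6⟩
      rw [mem_filter, mem_Icc] at h5
      exact ⟨m, mem_Ws.2 ⟨h5.1, ⟨e m, (h1 m _ h5.1.1).2 ⟨h5.2, rfl⟩, h6⟩⟩, rfl⟩
    · rintro ⟨m, h5, rfl⟩
      rw [mem_Ws] at h5
      obtain ⟨h6, a, h7, h8⟩ := h5
      obtain ⟨h9, h10⟩ := (h1 m a h6.1).1 h7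
      rw [h10] at h8
      exact ⟨⟨m, mem_filter.2 ⟨mem_Icc.2 h6, h9⟩, rfl⟩, h8⟩
  rw [h4, card_image_of_injOn]
  intro m hm m' hm' hmm
  rw [mem_coe, mem_Ws] at hm hm'
  obtain ⟨h5, a, h6, _⟩ := hm
  obtain ⟨h7, a', h8, _⟩ := hm'
  exact h3 m m' h5.1 h7.1 ((h1 m a h5.1).1 h6).1 ((h1 m' a' h7.1).1 h8).1 hmm

open Classical in
/-- The law for the number of successful indices. -/
theorem pos_law (hA : IsCramer μ A) {Pos : ℕ → ℕ → Set ℕ → Prop} (hP : ∀ m a, Dep a (Pos m a)) (x : ℕ → ℕ) (a : ℕ)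
    {κ : ℝ} (hκ : 0 < κ)
    (h : ∀ᵐ ω ∂μ, ∃ (D : ℕ → Prop) (e : ℕ → ℕ), (∀ m a, 1 ≤ m → (Pos m a (A ω) ↔ (D m ∧ a = e m))) ∧
      (∀ m, 1 ≤ m → D m → 3 ≤ e m) ∧ (∀ m m', 1 ≤ m → 1 ≤ m' → D m → D m' → e m = e m' → m = m') ∧
      (∀ᶠ h in atTop, ∀ m, 1 ≤ m → m ≤ h → e m < x h) ∧
      Tendsto (fun h : ℕ => (∑ m ∈ (Icc 1 h).filter D, pb (e m)) * Real.log h ^ a / h) atTop (𝓝 κ)) :
    ∀ᵐ ω ∂μ, Tendsto (fun h : ℕ => ((Ws (WP Pos) (A ω) h).card : ℝ) * Real.log h ^ a / h) atTop (𝓝 κ) := by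
  have h1 := chern_as hA (HP Pos) (fun h a _ => dep_HP hP h a) x (fun h : ℕ => (h : ℝ) / Real.log h ^ a) ?_ hκ ?_
  · filter_upwards [h1, h] with ω h2 h3
    obtain ⟨D, e, h4, h5, h6, h7, h8⟩ := h3
    refine h2.congr' ?_
    filter_upwards [h7, hl.eventually_gt_atTop 0] with h h9 h10
    rw [hits_HP h4 (fun m hm1 hm2 hm3 => ⟨h5 m hm1 hm3, h9 m hm1 hm2⟩) h6]
    field_simp
  · refine (x_div_log_pow (a + 1)).congr (fun h => ?_)
    rw [div_div, pow_succ]
  · filter_upwards [h] with ω h3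
    obtain ⟨D, e, h4, h5, h6, h7, h8⟩ := h3
    refine h8.congr' ?_
    filter_upwards [h7, hl.eventually_gt_atTop 0] with h h9 h10
    rw [lam_HP h4 (fun m hm1 hm2 hm3 => ⟨h5 m hm1 hm3, h9 m hm1 hm2⟩) h6]
    field_simp

end Pool.Agent.Q197.CI
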