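import Pool.Agent.Q197.CI.AsM

/-!
# Weighted sums, and the elements with given indices
-/

set_option autoImplicit false

namespace Pool.Agent.Q197.CI

open Finset Filter MeasureTheory Pool.Agent.Q120.ET Pool.Agent.Q120.MF
open scoped Topology

open Classical in
/-- Sums of weights which depend on the length. -/
theorem wsum2 {D : ℕ → Prop} {w : ℕ → ℕ → ℝ} {a : ℕ} {κ κ' : ℝ} (hD : Tendsto (fun h : ℕ => cD D h * Real.log h ^ a / h) atTop (𝓝 κ'))
    {B : ℝ} (hw0 : ∀ h k, 0 ≤ w h k) (hwB : ∀ h k, w h k ≤ B) (hκ : 0 < κ)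
    (hw : ∀ δ : ℝ, 0 < δ → ∀ᶠ h : ℕ in atTop, ∀ k : ℕ, (h : ℝ) / Real.log h ^ (a + 2) < k → k ≤ h →
      κ * (1 - δ) ≤ w h k * Real.log h ∧ w h k * Real.log h ≤ κ * (1 + δ)) :
    Tendsto (fun h : ℕ => (∑ k ∈ (Icc 1 h).filter D, w h k) * Real.log h ^ (a + 1) / h) atTop (𝓝 (κ' * κ)) := by
  have hB0 : 0 ≤ B := (hw0 0 0).trans (hwB 0 0)
  obtain ⟨u, hu⟩ : ∃ u : ℕ → ℕ, u = fun h : ℕ => ⌊(h : ℝ) / Real.log h ^ (a + 2)⌋₊ := ⟨_, rfl⟩
  have hutop : Tendsto u atTop atTop := by
    rw [hu]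
    exact tendsto_nat_floor_atTop.comp (x_div_log_pow (a + 2))
  have hule : ∀ᶠ h : ℕ in atTop, (u h : ℝ) * Real.log h ^ (a + 1) / h ≤ 1 / Real.log h := by
    filter_upwards [hl.eventually_gt_atTop 0, eventually_ge_atTop 1] with h h1 h2
    have hh0 : (0 : ℝ) < h := by exact_mod_cast h2
    have h3 : (u h : ℝ) ≤ (h : ℝ) / Real.log h ^ (a + 2) := by
      rw [hu]
      exact Nat.floor_le (by positivity)
    calc (u h : ℝ) * Real.log h ^ (a + 1) / h ≤ (h : ℝ) / Real.log h ^ (a + 2) * Real.log h ^ (a + 1) / h := by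
          gcongr
      _ = 1 / Real.log h := by
          rw [pow_succ (Real.log (h : ℝ)) (a + 1)]
          field_simp
  have hu0 : Tendsto (fun h : ℕ => (u h : ℝ) * Real.log h ^ (a + 1) / h) atTop (𝓝 0) := by
    refine squeeze_zero' ?_ hule (tendsto_const_nhds.div_atTop hl)
    filter_upwards [hl.eventually_gt_atTop 0] with h h1
    positivity
  have hu1 : Tendsto (fun h : ℕ => (u h : ℝ) * Real.log h ^ a / h) atTop (𝓝 0) := by
    refine squeeze_zero' ?_ ?_ hu0
    · filter_upwards [hl.eventually_gt_atTop 0] with h h1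
      positivity
    · filter_upwards [hl.eventually_ge_atTop 1] with h h1
      have : Real.log (h : ℝ) ^ a ≤ Real.log h ^ (a + 1) := pow_le_pow_right₀ h1 (by omega)
      gcongr
  have hk2 : Tendsto (fun k : ℕ => 1 / ((k : ℝ) + 2)) atTop (𝓝 0) := by
    refine tendsto_const_nhds.div_atTop ?_
    exact tendsto_atTop_add_const_right _ _ tendsto_natCast_atTop_atTop
  have hδ : ∀ k : ℕ, 0 < 1 / ((k : ℝ) + 2) ∧ 1 / ((k : ℝ) + 2) < 1 := by
    intro k
    refine ⟨by positivity, ?_⟩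
    rw [div_lt_one (by positivity)]
    have : (0 : ℝ) ≤ k := Nat.cast_nonneg _
    linarith
  refine squeeze_family (fun k h => (cD D h * Real.log h ^ a / h - (u h : ℝ) * Real.log h ^ a / h) * (κ * (1 - 1 / ((k : ℝ) + 2))))
    (fun k h => B * ((u h : ℝ) * Real.log h ^ (a + 1) / h) + (cD D h * Real.log h ^ a / h) *
      (κ * (1 + 1 / ((k : ℝ) + 2))))
    (fun k => (κ' - 0) * (κ * (1 - 1 / ((k : ℝ) + 2))))
    (fun k => B * 0 + κ' * (κ * (1 + 1 / ((k : ℝ) + 2)))) ?_ ?_ ?_ ?_ ?_ ?_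
  · have := ((hk2.const_sub 1).const_mul κ).const_mul (κ' - 0)
    rw [sub_zero, sub_zero, mul_one] at this
    simp only [sub_zero]
    exact this
  · have := ((hk2.const_add 1).const_mul κ).const_mul κ'
    rw [add_zero, mul_one] at this
    refine this.congr (fun k => ?_)
    simp only [mul_zero, zero_add]
  · intro k
    exact (hD.sub hu1).mul_const _
  · intro k
    exact (hu0.const_mul B).add (hD.mul_const _)
  · intro k
    obtain ⟨hδ0, hδ1⟩ := hδ k
    obtain ⟨δ, hδe⟩ : ∃ δ : ℝ, δ = 1 / ((k : ℝ) + 2) := ⟨_, rfl⟩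
    rw [← hδe] at hδ0 hδ1 ⊢
    filter_upwards [hw δ hδ0, hl.eventually_gt_atTop 0, eventually_ge_atTop 1] with h h1 h2 h3
    have hh0 : (0 : ℝ) < h := by exact_mod_cast h3
    have h4 : (cD D h - u h) * (κ * (1 - δ) / Real.log h) ≤ ∑ k ∈ (Icc 1 h).filter D, w h k := by
      have h5 : ((Icc 1 h).filter (fun k => D k ∧ u h < k)) ⊆ (Icc 1 h).filter D := by
        intro j hj
        rw [mem_filter] at hj ⊢
        exact ⟨hj.1, hj.2.1⟩
      have h6 : cD D h - u h ≤ (((Icc 1 h).filter (fun k => D k ∧ u h < k)).card : ℝ) := by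
        have h7 : (Icc 1 h).filter D ⊆ (Icc 1 h).filter (fun k => D k ∧ u h < k) ∪ Icc 1 (u h) := by
          intro j hj
          rw [mem_filter, mem_Icc] at hj
          rw [mem_union, mem_filter, mem_Icc, mem_Icc]
          by_cases h8 : u h < j
          · exact Or.inl ⟨hj.1, hj.2, h8⟩
          · exact Or.inr ⟨hj.1.1, by omega⟩
        have h8 := (card_le_card h7).trans (card_union_le _ _)
        rw [Nat.card_Icc, Nat.add_sub_cancel] at h8
        unfold cD
        have h9 : (((Icc 1 h).filter D).card : ℝ) ≤ (((Icc 1 h).filter (fun k => D k ∧ u h < k)).card : ℝ) + u h := by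
          exact_mod_cast h8
        linarith
      refine le_trans ?_ (sum_le_sum_of_subset_of_nonneg h5 (fun i _ _ => hw0 h i))
      refine le_trans (mul_le_mul_of_nonneg_right h6 (by
        have : 0 ≤ κ * (1 - δ) := by nlinarith
        positivity)) ?_
      rw [← nsmul_eq_mul]
      refine card_nsmul_le_sum _ _ _ (fun j hj => ?_)
      rw [mem_filter, mem_Icc] at hj
      have h7 := (h1 j (by
        have h8 := hj.2.2
        rw [hu] at h8
        exact (Nat.floor_lt (by positivity)).1 h8) hj.1.2).1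
      rw [div_le_iff₀ h2]
      exact h7
    calc (cD D h * Real.log h ^ a / h - (u h : ℝ) * Real.log h ^ a / h) * (κ * (1 - δ))
        = ((cD D h - u h) * (κ * (1 - δ) / Real.log h)) * Real.log h ^ (a + 1) / h := by
          rw [pow_succ]
          field_simp
      _ ≤ _ := by gcongr
  · intro k
    obtain ⟨hδ0, hδ1⟩ := hδ k
    obtain ⟨δ, hδe⟩ : ∃ δ : ℝ, δ = 1 / ((k : ℝ) + 2) := ⟨_, rfl⟩
    rw [← hδe] at hδ0 hδ1 ⊢
    filter_upwards [hw δ hδ0, hl.eventually_gt_atTop 0, eventually_ge_atTop 1] with h h1 h2 h3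
    have hh0 : (0 : ℝ) < h := by exact_mod_cast h3
    have h5 : ∑ k ∈ (Icc 1 h).filter D, w h k ≤ B * u h + cD D h * (κ * (1 + δ) / Real.log h) := by
      have h6 : ∀ k ∈ (Icc 1 h).filter D, w h k ≤ (if k ≤ u h then B else 0) + κ * (1 + δ) / Real.log h := by
        intro j hj
        rw [mem_filter, mem_Icc] at hj
        have hpos : 0 ≤ κ * (1 + δ) / Real.log h := by positivity
        split_ifs with h7
        · linarith [hwB h j]
        · rw [zero_add]
          push Not at h7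
          rw [hu] at h7
          have h8 := (h1 j ((Nat.floor_lt (by positivity)).1 h7) hj.1.2).2
          rw [le_div_iff₀ h2]
          exact h8
      refine (sum_le_sum h6).trans ?_
      rw [sum_add_distrib, sum_const, nsmul_eq_mul]
      unfold cD
      have h7 : ∑ k ∈ (Icc 1 h).filter D, (if k ≤ u h then B else 0) ≤ B * u h := by
        rw [← sum_filter, sum_const, nsmul_eq_mul, mul_comm]
        refine mul_le_mul_of_nonneg_left ?_ hB0
        have h8 : ((Icc 1 h).filter D).filter (fun k => k ≤ u h) ⊆ Icc 1 (u h) := by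
          intro j hj
          rw [mem_filter, mem_filter, mem_Icc] at hj
          rw [mem_Icc]
          exact ⟨hj.1.1.1, hj.2⟩
        have h9 := card_le_card h8
        rw [Nat.card_Icc, Nat.add_sub_cancel] at h9
        exact_mod_cast h9
      linarith
    calc (∑ k ∈ (Icc 1 h).filter D, w h k) * Real.log h ^ (a + 1) / h
        ≤ (B * u h + cD D h * (κ * (1 + δ) / Real.log h)) * Real.log h ^ (a + 1) / h := by gcongr
      _ = B * ((u h : ℝ) * Real.log h ^ (a + 1) / h) + (cD D h * Real.log h ^ a / h) * (κ * (1 + δ)) := by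
          rw [pow_succ]
          field_simp

theorem el_lt_el {S : Set ℕ} (hS : S.Infinite) {m m' : ℕ} (hm : 1 ≤ m) (h : m < m') : el S m < el S m' :=
  isEl_lt (isEl_el hS hm) (isEl_el hS (by omega)) h

theorem el_ge {S : Set ℕ} (hS : S.Infinite) {m : ℕ} (hm : 1 ≤ m) : m + 2 ≤ el S m := isEl_ge (isEl_el hS hm)

variable {Ω : Type*} [MeasurableSpace Ω] {μ : Measure Ω} [IsProbabilityMeasure μ] {A : Ω → Set ℕ}

/-- The failures in terms of the elements. -/
theorem ae_flI (hA : IsCramer μ A) {idx : ℕ → ℕ → ℕ} (hI : Idx idx) (G : ℕ → ℕ) : ∀ᵐ ω ∂μ, ∀ M : ℕ, ∀ᶠ n : ℕ in atTop,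
    ∀ j : ℕ, 1 ≤ j → (j : ℝ) ≤ Real.log n ^ M → (¬ FlI idx G n j (A ω) ↔ G (el (A ω) (idx n j)) ∈ A ω) := by
  filter_upwards [ae_el hA] with ω h1
  obtain ⟨hinf, h1⟩ := h1
  obtain ⟨m0, hm0⟩ := eventually_atTop.1 h1
  intro M
  filter_upwards [hI.low M, eventually_ge_atTop (2 * m0 + 10)] with n h2 h3 j hj1 hj2
  have h4 := h2 j hj1 hj2
  have h5 := hm0 (idx n j) (by omega)
  have h6 := isEl_el hinf (show 1 ≤ idx n j by omega)
  unfold FlI
  constructor
  · intro h7
    by_contra hcon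
    exact h7 ⟨_, h5.1, h5.2.1, h6, hcon⟩
  · rintro h7 ⟨a, _, _, h8, h9⟩
    rw [isEl_unique h8 h6] at h9
    exact h9 h7

end Pool.Agent.Q197.CI
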