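import Pool.Agent.Q197.CI.KdLaw
import Pool.Agent.Q120.NC.Asym

/-!
# The size of the products
-/

set_option autoImplicit false

namespace Pool.Agent.Q197.CI

open Finset Filter
open scoped Topology

theorem lll : Tendsto (fun n : ℕ => Real.log (Real.log (n : ℝ))) atTop atTop := Real.tendsto_log_atTop.comp hl

theorem ll_pow_div (k : ℕ) : Tendsto (fun x : ℕ => Real.log (Real.log (x : ℝ)) ^ k / Real.log x) atTop (𝓝 0) := by
  have h1 : Tendsto (fun t : ℝ => Real.log t ^ k / t) atTop (𝓝 0) := by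
    have := (Real.isLittleO_pow_log_id_atTop (n := k)).tendsto_div_nhds_zero
    simpa using this
  exact h1.comp hl

theorem log_factorial_ge (h : ℕ) : (h : ℝ) * Real.log h - h ≤ Real.log (h.factorial : ℝ) := by
  rcases Nat.eq_zero_or_pos h with h0 | h0
  · rw [h0]
    simp
  · have h1 : (0 : ℝ) < h := by exact_mod_cast h0
    have h2 := Real.pow_div_factorial_le_exp (x := (h : ℝ)) h1.le h
    have h3 : (0 : ℝ) < h.factorial := by exact_mod_cast Nat.factorial_pos h
    rw [div_le_iff₀ h3] at h2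
    have h4 := Real.log_le_log (by positivity) h2
    rw [Real.log_pow, Real.log_mul (Real.exp_ne_zero _) h3.ne', Real.log_exp] at h4
    linarith

theorem log_factorial_le (h : ℕ) : Real.log (h.factorial : ℝ) ≤ ((h : ℝ) + 1) * Real.log (h + 1) - h := by
  induction h with
  | zero => simp
  | succ h ih =>
    rw [Nat.factorial_succ]
    push_cast
    have h3 : (0 : ℝ) < h.factorial := by exact_mod_cast Nat.factorial_pos h
    rw [Real.log_mul (by positivity) h3.ne']
    have h4 : Real.log ((h : ℝ) + 1 + 1) = Real.log (h + 1) + Real.log (1 + 1 / (h + 1)) := by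
      rw [← Real.log_mul (by positivity) (by positivity)]
      congr 1
      field_simp
    have h5 : 1 / ((h : ℝ) + 2) ≤ Real.log (1 + 1 / ((h : ℝ) + 1)) := by
      have h6 := Real.one_sub_inv_le_log_of_pos (show (0 : ℝ) < 1 + 1 / ((h : ℝ) + 1) by positivity)
      refine le_trans (le_of_eq ?_) h6
      field_simp
      ring
    have h7 : (1 : ℝ) ≤ ((h : ℝ) + 2) * Real.log (1 + 1 / ((h : ℝ) + 1)) := by
      have h8 : (0 : ℝ) < (h : ℝ) + 2 := by positivity
      calc (1 : ℝ) = ((h : ℝ) + 2) * (1 / ((h : ℝ) + 2)) := by field_simp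
        _ ≤ _ := mul_le_mul_of_nonneg_left h5 h8.le
    rw [h4]
    nlinarith

theorem log_factorial_eq_sum (h : ℕ) : Real.log (h.factorial : ℝ) = ∑ k ∈ Icc 1 h, Real.log (k : ℝ) := by
  induction h with
  | zero => simp
  | succ h ih =>
    rw [sum_Icc_succ_top (by omega), Nat.factorial_succ, ← ih]
    push_cast
    have h3 : (0 : ℝ) < h.factorial := by exact_mod_cast Nat.factorial_pos h
    rw [Real.log_mul (by positivity) h3.ne']
    ring

/-- One factor. -/
theorem term_est {L u v t : ℝ} (hL : 2 ≤ L) (hu : 0 ≤ u) (ht : t = 1 / (L + u)) :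
    |Real.log (1 - t) + 1 / L - v / L ^ 2 + 1 / (2 * L ^ 2)| ≤ (|u - v| + (2 + u + u ^ 2) / L) / L ^ 2 := by
  have hL0 : 0 < L := by linarith
  have hLu : 0 < L + u := by linarith
  have ht0 : 0 < t := by rw [ht]; positivity
  have htL : t ≤ 1 / L := by rw [ht]; exact one_div_le_one_div_of_le hL0 (by linarith)
  have ht2 : t ≤ 1 / 2 := htL.trans (one_div_le_one_div_of_le (by norm_num) hL)
  have h1 := Pool.Agent.Q120.NC.log_one_sub ht0.le ht2
  have h2 : |t - 1 / L + u / L ^ 2| ≤ u ^ 2 / L ^ 3 := by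
    have e1 : t - 1 / L + u / L ^ 2 = u ^ 2 / (L ^ 2 * (L + u)) := by
      rw [ht]
      field_simp
      ring
    rw [e1, abs_of_nonneg (by positivity)]
    exact div_le_div_of_nonneg_left (by positivity) (by positivity) (by nlinarith [pow_pos hL0 2, mul_nonneg (pow_pos hL0 2).le hu])
  have h3 : |t ^ 2 - 1 / L ^ 2| ≤ 2 * u / L ^ 3 := by
    have e1 : t ^ 2 - 1 / L ^ 2 = -(u * (2 * L + u) / (L ^ 2 * (L + u) ^ 2)) := by
      rw [ht]
      field_simp
      ring
    rw [e1, abs_neg, abs_of_nonneg (by positivity), div_le_div_iff₀ (by positivity) (by positivity)]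
    have e2 : L ^ 3 * (2 * L + u) ≤ 2 * (L ^ 2 * (L + u) ^ 2) := by
      have e3 : 2 * (L ^ 2 * (L + u) ^ 2) - L ^ 3 * (2 * L + u) = L ^ 2 * (3 * L * u + 2 * u ^ 2) := by ring
      have e4 : 0 ≤ L ^ 2 * (3 * L * u + 2 * u ^ 2) := by positivity
      linarith
    have e5 := mul_le_mul_of_nonneg_left e2 hu
    nlinarith
  have h4 : 2 * t ^ 3 ≤ 2 / L ^ 3 := by
    have e1 : t ^ 3 ≤ (1 / L) ^ 3 := pow_le_pow_left₀ ht0.le htL 3
    have e2 : (1 / L) ^ 3 = 1 / L ^ 3 := by rw [one_div_pow]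
    rw [e2] at e1
    have e3 : 2 / L ^ 3 = 2 * (1 / L ^ 3) := by ring
    rw [e3]
    linarith
  have e1 : Real.log (1 - t) + 1 / L - v / L ^ 2 + 1 / (2 * L ^ 2) =
      (Real.log (1 - t) + t + t ^ 2 / 2) - (t - 1 / L + u / L ^ 2) - (t ^ 2 - 1 / L ^ 2) / 2 + (u - v) / L ^ 2 := by
    field_simp
    ring
  rw [e1]
  have e2 : (|u - v| + (2 + u + u ^ 2) / L) / L ^ 2 = 2 / L ^ 3 + u ^ 2 / L ^ 3 + (2 * u / L ^ 3) / 2 + |u - v| / L ^ 2 := by
    field_simp
    ring
  rw [e2]
  have e3 : |(u - v) / L ^ 2| = |u - v| / L ^ 2 := by rw [abs_div, abs_of_pos (by positivity : (0 : ℝ) < L ^ 2)]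
  rw [abs_le] at h1 h2 h3 ⊢
  have e4 := abs_le.1 e3.le
  constructor
  · linarith [h1.1, h2.2, h3.2, e4.1]
  · linarith [h1.2, h2.1, h3.1, e4.2]

/-- The main estimate. -/
theorem log_Qp {d : ℕ} (hd : 1 ≤ d) (C : ℝ) {δ : ℝ} (hδ : 0 < δ) : ∀ᶠ n : ℕ in atTop, ∀ h : ℕ,
    (h : ℝ) ≤ C * Real.log n ^ 2 →
    |Real.log (Qp (Jd d h n)) + h / Real.log n - (d * Real.log (h.factorial : ℝ) + h * Real.log (Real.log n)) / Real.log n ^ 2 +
      h / (2 * Real.log n ^ 2)| ≤ h * (δ / Real.log n ^ 2) := by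
  have h1 := Metric.tendsto_nhds.1 log_fp (δ / 4) (by positivity)
  obtain ⟨m1, hm1⟩ := eventually_atTop.1 h1
  obtain ⟨K, hK⟩ : ∃ K : ℝ, K = 2 * d + 3 := ⟨_, rfl⟩
  have hK0 : 0 < K := by rw [hK]; positivity
  have h2 : Tendsto (fun n : ℕ => (2 + K * Real.log (Real.log (n : ℝ)) + (K * Real.log (Real.log n)) ^ 2) / Real.log n)
      atTop (𝓝 0) := by
    have e1 := ((ll_pow_div 0).const_mul 2).add (((ll_pow_div 1).const_mul K).add ((ll_pow_div 2).const_mul (K ^ 2)))
    rw [mul_zero, mul_zero, mul_zero, add_zero, add_zero] at e1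
    refine e1.congr (fun n => ?_)
    ring
  have h3 : ∀ᶠ n : ℕ in atTop, K * Real.log (Real.log (n : ℝ)) / Real.log n ≤ δ / 4 := by
    have e1 := (ll_pow_div 1).const_mul K
    rw [mul_zero] at e1
    filter_upwards [e1.eventually_le_const (show 0 < δ / 4 by positivity)] with n e2
    rw [pow_one] at e2
    rw [mul_div_assoc]
    exact e2
  have h4 : ∀ᶠ n : ℕ in atTop, d * Real.log (|C| + 1) + 1 + δ ≤ Real.log (Real.log (n : ℝ)) := lll.eventually_ge_atTop _
  filter_upwards [eventually_ge_atTop m1, h2.eventually_le_const (show 0 < δ / 4 by positivity), h3, h4,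
    hl.eventually_ge_atTop 3, eventually_ge_atTop 10, lll.eventually_ge_atTop 1] with n g1 g2 g3 g4 g5 g6 g7 h hh
  obtain ⟨L, hL⟩ : ∃ L : ℝ, L = Real.log n := ⟨_, rfl⟩
  obtain ⟨M, hM⟩ : ∃ M : ℝ, M = Real.log (Real.log n) := ⟨_, rfl⟩
  have hML : M = Real.log L := by rw [hM, hL]
  rw [← hL] at g5 hh ⊢
  rw [← hM] at g2 g3 g4 g7
  rw [← hL] at g2 g3
  rw [← hML]
  have hL0 : 0 < L := by linarith
  have hn0 : (0 : ℝ) < n := by
    have : 0 < n := by omega
    exact_mod_cast this
  have hlogQ : Real.log (Qp (Jd d h n)) = ∑ k ∈ Icc 1 h, Real.log (1 - pb (fp (k ^ d * n))) := by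
    rw [Qp_Jd hd (by omega), Real.log_prod]
    intro k hk
    rw [mem_Icc] at hk
    have e1 : n ≤ k ^ d * n := Nat.le_mul_of_pos_left n (Nat.pow_pos hk.1)
    have := pb_lt_one (show 3 ≤ fp (k ^ d * n) by have := le_fp (k ^ d * n); omega)
    linarith
  have hterm : ∀ k ∈ Icc 1 h, |Real.log (1 - pb (fp (k ^ d * n))) + 1 / L - (d * Real.log k + M) / L ^ 2 + 1 / (2 * L ^ 2)| ≤
      δ / L ^ 2 := by
    intro k hk
    rw [mem_Icc] at hk
    obtain ⟨m, hm⟩ : ∃ m, m = k ^ d * n := ⟨_, rfl⟩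
    rw [← hm]
    have hk0 : (0 : ℝ) < k := by exact_mod_cast hk.1
    have hk1 : (1 : ℝ) ≤ k := by exact_mod_cast hk.1
    have hmn : n ≤ m := by rw [hm]; exact Nat.le_mul_of_pos_left n (Nat.pow_pos hk.1)
    have hlk : 0 ≤ Real.log (k : ℝ) := Real.log_nonneg hk1
    have hlm : Real.log m = d * Real.log k + L := by
      rw [hm]
      push_cast
      rw [Real.log_mul (by positivity) hn0.ne', Real.log_pow, hL]
    have hkh : Real.log k ≤ Real.log (|C| + 1) + 2 * M := by
      have e1 : (k : ℝ) ≤ (|C| + 1) * L ^ 2 := by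
        have e2 : (k : ℝ) ≤ h := by exact_mod_cast hk.2
        have e3 : C ≤ |C| + 1 := by have := le_abs_self C; linarith
        have e4 := mul_le_mul_of_nonneg_right e3 (sq_nonneg L)
        linarith
      have e2 := Real.log_le_log hk0 e1
      rw [Real.log_mul (by positivity) (by positivity), Real.log_pow, ← hML] at e2
      push_cast at e2
      exact e2
    have hd0 : (1 : ℝ) ≤ d := by exact_mod_cast hd
    have hdk : d * Real.log k ≤ (2 * d + 1) * M - 1 - δ := by
      have e1 := mul_le_mul_of_nonneg_left hkh (show (0 : ℝ) ≤ d by linarith)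
      nlinarith
    -- log log m
    have hllm : M ≤ Real.log (Real.log m) ∧ Real.log (Real.log m) ≤ M + δ / 4 := by
      rw [hlm]
      constructor
      · rw [hML]
        exact Real.log_le_log hL0 (by nlinarith)
      · have e1 : d * Real.log k + L ≤ L * (1 + K * M / L) := by
          have e2 : L * (1 + K * M / L) = L + K * M := by field_simp
          rw [e2, hK]
          nlinarith
        have e2 := Real.log_le_log (by nlinarith) e1
        rw [Real.log_mul hL0.ne' (by positivity), ← hML] at e2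
        have e3 := Real.log_le_sub_one_of_pos (show 0 < 1 + K * M / L by positivity)
        linarith
    have hfp := hm1 m (by omega)
    rw [Real.dist_eq, sub_zero, abs_lt] at hfp
    obtain ⟨u, hu⟩ : ∃ u : ℝ, u = Real.log (fp m) - L := ⟨_, rfl⟩
    have hu1 : |u - (d * Real.log k + M)| ≤ δ / 2 := by
      rw [hu, abs_le]
      constructor
      · linarith [hfp.1, hllm.1]
      · linarith [hfp.2, hllm.2]
    have hu0 : 0 ≤ u := by
      rw [hu]
      have e1 := Real.log_le_log hn0 (show (n : ℝ) ≤ fp m by exact_mod_cast hmn.trans (le_fp m))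
      linarith
    have huK : u ≤ K * M := by
      rw [abs_le] at hu1
      rw [hK]
      nlinarith [hu1.2]
    have hb := term_est (L := L) (u := u) (v := d * Real.log k + M) (t := pb (fp m)) (by linarith) hu0 (by
      unfold pb
      rw [hu]
      congr 1
      ring)
    refine hb.trans (div_le_div_of_nonneg_right ?_ (by positivity))
    have e1 : (2 + u + u ^ 2) / L ≤ δ / 4 := by
      refine le_trans (div_le_div_of_nonneg_right ?_ hL0.le) g2
      have e2 : u ^ 2 ≤ (K * M) ^ 2 := pow_le_pow_left₀ hu0 huK 2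
      linarith
    linarith
  have hsum : Real.log (Qp (Jd d h n)) + h / L - (d * Real.log (h.factorial : ℝ) + h * M) / L ^ 2 + h / (2 * L ^ 2) =
      ∑ k ∈ Icc 1 h, (Real.log (1 - pb (fp (k ^ d * n))) + 1 / L - (d * Real.log k + M) / L ^ 2 + 1 / (2 * L ^ 2)) := by
    have s1 : ∑ k ∈ Icc 1 h, (1 : ℝ) / L = h / L := by
      rw [sum_const, Nat.card_Icc, nsmul_eq_mul, Nat.add_sub_cancel]
      ring
    have s2 : ∑ k ∈ Icc 1 h, (d * Real.log (k : ℝ) + M) / L ^ 2 = (d * Real.log (h.factorial : ℝ) + h * M) / L ^ 2 := by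
      rw [← sum_div, sum_add_distrib, ← mul_sum, ← log_factorial_eq_sum, sum_const, Nat.card_Icc, nsmul_eq_mul,
        Nat.add_sub_cancel]
    have s3 : ∑ k ∈ Icc 1 h, (1 : ℝ) / (2 * L ^ 2) = h / (2 * L ^ 2) := by
      rw [sum_const, Nat.card_Icc, nsmul_eq_mul, Nat.add_sub_cancel]
      ring
    rw [sum_add_distrib, sum_sub_distrib, sum_add_distrib, ← hlogQ, s1, s2, s3]
  rw [hsum]
  refine (abs_sum_le_sum_abs _ _).trans ((sum_le_sum hterm).trans ?_)
  rw [sum_const, Nat.card_Icc, nsmul_eq_mul, Nat.add_sub_cancel]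

end Pool.Agent.Q197.CI
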