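import Pool.Agent.Q197.CI.Asym

/-!
# Limits
-/

set_option autoImplicit false

namespace Pool.Agent.Q197.CI

open Finset Filter
open scoped Topology

theorem hl2 : Tendsto (fun n : ℕ => Real.log (n : ℝ) ^ 2) atTop atTop :=
  (tendsto_pow_atTop (by norm_num)).comp hl

theorem log_factorial_est {h : ℕ} (hh : 1 ≤ h) : 0 ≤ Real.log (h.factorial : ℝ) - (h * Real.log h - h) ∧
    Real.log (h.factorial : ℝ) - (h * Real.log h - h) ≤ Real.log (h + 1) + 1 := by
  have h0 : (0 : ℝ) < h := by exact_mod_cast hh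
  refine ⟨by linarith [log_factorial_ge h], ?_⟩
  have h1 := log_factorial_le h
  have h2 : Real.log ((h : ℝ) + 1) = Real.log h + Real.log (1 + 1 / h) := by
    rw [← Real.log_mul h0.ne' (by positivity)]
    congr 1
    field_simp
  have h3 := Real.log_le_sub_one_of_pos (show (0 : ℝ) < 1 + 1 / h by positivity)
  have h4 : (h : ℝ) * Real.log (1 + 1 / h) ≤ 1 := by
    have h5 := mul_le_mul_of_nonneg_left h3 h0.le
    have h6 : (h : ℝ) * (1 + 1 / h - 1) = 1 := by field_simp; ring
    linarith
  nlinarith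

theorem lim_fact {h : ℕ → ℕ} {c : ℝ} (hc : 0 < c) (hh : Tendsto (fun n : ℕ => (h n : ℝ) / Real.log n ^ 2) atTop (𝓝 c)) :
    Tendsto (fun n : ℕ => Real.log ((h n).factorial : ℝ) / Real.log n ^ 2 -
      2 * ((h n : ℝ) / Real.log n ^ 2 * Real.log (Real.log n))) atTop (𝓝 (c * (Real.log c - 1))) := by
  have hht : Tendsto (fun n => (h n : ℝ)) atTop atTop := by
    have h1 := hh.pos_mul_atTop hc hl2
    refine h1.congr' ?_
    filter_upwards [hl.eventually_ge_atTop 1] with n hn
    field_simp
  have h1 : Tendsto (fun n : ℕ => (Real.log ((h n).factorial : ℝ) - (h n * Real.log (h n) - h n)) / Real.log n ^ 2)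
      atTop (𝓝 0) := by
    have h2 : Tendsto (fun n : ℕ => (Real.log (h n + 1) + 1) / (h n + 1)) atTop (𝓝 0) := by
      have e1 : Tendsto (fun t : ℝ => (Real.log t + 1) / t) atTop (𝓝 0) := by
        have e2 : Tendsto (fun t : ℝ => Real.log t / t) atTop (𝓝 0) := by
          have := Real.isLittleO_log_id_atTop.tendsto_div_nhds_zero
          simpa using this
        have e3 : Tendsto (fun t : ℝ => (1 : ℝ) / t) atTop (𝓝 0) := by
          simp only [one_div]
          exact tendsto_inv_atTop_zero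
        have e4 := e2.add e3
        rw [add_zero] at e4
        refine e4.congr (fun t => ?_)
        ring
      exact e1.comp (tendsto_atTop_add_const_right _ 1 hht)
    have h3 : Tendsto (fun n : ℕ => ((h n : ℝ) + 1) / Real.log n ^ 2) atTop (𝓝 c) := by
      have e1 : Tendsto (fun n : ℕ => 1 / Real.log (n : ℝ) ^ 2) atTop (𝓝 0) := by
        simp only [one_div]
        exact hl2.inv_tendsto_atTop
      have e2 := hh.add e1
      rw [add_zero] at e2
      refine e2.congr (fun n => ?_)
      ring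
    have h4 := h2.mul h3
    rw [zero_mul] at h4
    refine squeeze_zero' ?_ ?_ h4
    · filter_upwards [hht.eventually_ge_atTop 1, hl.eventually_ge_atTop 1] with n e1 e2
      have e3 : 1 ≤ h n := by exact_mod_cast e1
      exact div_nonneg (log_factorial_est e3).1 (by positivity)
    · filter_upwards [hht.eventually_ge_atTop 1, hl.eventually_ge_atTop 1] with n e1 e2
      have e3 : 1 ≤ h n := by exact_mod_cast e1
      have e4 : (Real.log (h n + 1) + 1) / (h n + 1) * (((h n : ℝ) + 1) / Real.log n ^ 2) =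
          (Real.log (h n + 1) + 1) / Real.log n ^ 2 := by
        field_simp
      rw [e4]
      exact div_le_div_of_nonneg_right (log_factorial_est e3).2 (by positivity)
  have h2 : Tendsto (fun n : ℕ => (h n : ℝ) / Real.log n ^ 2 * (Real.log ((h n : ℝ) / Real.log n ^ 2) - 1)) atTop
      (𝓝 (c * (Real.log c - 1))) :=
    hh.mul (((Real.continuousAt_log hc.ne').tendsto.comp hh).sub_const 1)
  have h3 := h1.add h2
  rw [zero_add] at h3
  refine h3.congr' ?_
  filter_upwards [hht.eventually_ge_atTop 1, hl.eventually_ge_atTop 1] with n e1 e2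
  rw [Real.log_div (by linarith) (by positivity), Real.log_pow]
  push_cast
  field_simp
  ring

theorem lim_Qp2 {d : ℕ} (hd : 1 ≤ d) {h : ℕ → ℕ} {c : ℝ} (hc : 0 < c)
    (hh : Tendsto (fun n : ℕ => (h n : ℝ) / Real.log n ^ 2) atTop (𝓝 c)) :
    Tendsto (fun n : ℕ => Real.log (Qp (Jd d (h n) n)) + h n / Real.log n -
      (2 * d + 1) * ((h n : ℝ) / Real.log n ^ 2 * Real.log (Real.log n))) atTop (𝓝 (c * (d * (Real.log c - 1) - 1 / 2))) := by
  have h1 : Tendsto (fun n : ℕ => Real.log (Qp (Jd d (h n) n)) + h n / Real.log n -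
      (d * Real.log ((h n).factorial : ℝ) + h n * Real.log (Real.log n)) / Real.log n ^ 2 +
      h n / (2 * Real.log n ^ 2)) atTop (𝓝 0) := by
    rw [Metric.tendsto_nhds]
    intro ε hε
    have e1 := log_Qp hd (c + 1) (show 0 < ε / (2 * (c + 1)) by positivity)
    filter_upwards [e1, hh.eventually_le_const (show c < c + 1 by linarith), hl.eventually_ge_atTop 1] with n e2 e3 e4
    have e5 : (h n : ℝ) ≤ (c + 1) * Real.log n ^ 2 := by rwa [div_le_iff₀ (by positivity)] at e3
    rw [Real.dist_eq, sub_zero]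
    refine lt_of_le_of_lt (e2 (h n) e5) ?_
    have e6 : (h n : ℝ) * (ε / (2 * (c + 1)) / Real.log n ^ 2) = (h n : ℝ) / Real.log n ^ 2 * (ε / (2 * (c + 1))) := by
      field_simp
    rw [e6]
    have e7 : (h n : ℝ) / Real.log n ^ 2 * (ε / (2 * (c + 1))) ≤ (c + 1) * (ε / (2 * (c + 1))) :=
      mul_le_mul_of_nonneg_right e3 (by positivity)
    have e8 : (c + 1) * (ε / (2 * (c + 1))) = ε / 2 := by field_simp
    linarith
  have h2 := (h1.add ((lim_fact hc hh).const_mul (d : ℝ))).sub (hh.const_mul (1 / 2))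
  have h3 : 0 + (d : ℝ) * (c * (Real.log c - 1)) - 1 / 2 * c = c * (d * (Real.log c - 1) - 1 / 2) := by ring
  rw [h3] at h2
  refine h2.congr' ?_
  filter_upwards [hl.eventually_ge_atTop 1] with n e2
  field_simp
  ring

/-- The number of tests. -/
noncomputable def hb (b : ℝ) (n : ℕ) : ℕ := ⌊Real.log n ^ 2 + b * (Real.log n * Real.log (Real.log n))⌋₊

theorem hb_near (b : ℝ) : ∀ᶠ n : ℕ in atTop, |(hb b n : ℝ) - (Real.log n ^ 2 + b * (Real.log n * Real.log (Real.log n)))| ≤ 1 := by
  have h1 : Tendsto (fun n : ℕ => Real.log (n : ℝ) ^ 2 * (1 + b * (Real.log (Real.log n) ^ 1 / Real.log n))) atTop atTop := by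
    have e1 := ((ll_pow_div 1).const_mul b).const_add 1
    rw [mul_zero, add_zero] at e1
    exact hl2.atTop_mul_pos one_pos e1
  filter_upwards [h1.eventually_ge_atTop 0, hl.eventually_ge_atTop 1] with n h2 h3
  have h4 : Real.log (n : ℝ) ^ 2 * (1 + b * (Real.log (Real.log n) ^ 1 / Real.log n)) =
      Real.log n ^ 2 + b * (Real.log n * Real.log (Real.log n)) := by
    field_simp
  rw [h4] at h2
  unfold hb
  have h5 := Nat.floor_le h2
  have h6 := Nat.lt_floor_add_one (Real.log n ^ 2 + b * (Real.log n * Real.log (Real.log n)))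
  rw [abs_le]
  constructor <;> linarith

theorem hb_lim (b : ℝ) : Tendsto (fun n : ℕ => ((hb b n : ℝ) / Real.log n ^ 2 - 1) * Real.log (Real.log n)) atTop (𝓝 0) := by
  have h1 : Tendsto (fun n : ℕ => Real.log (Real.log (n : ℝ)) / Real.log n ^ 2) atTop (𝓝 0) := by
    have e1 := (ll_pow_div 1).mul hl.inv_tendsto_atTop
    rw [mul_zero] at e1
    refine e1.congr' ?_
    filter_upwards [hl.eventually_ge_atTop 1] with n hn
    simp only [Pi.inv_apply]
    field_simp
  have h2 := (ll_pow_div 2).const_mul |b|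
  rw [mul_zero] at h2
  have h3 := h1.add h2
  rw [add_zero] at h3
  refine squeeze_zero_norm' ?_ h3
  filter_upwards [hb_near b, hl.eventually_ge_atTop 1, lll.eventually_ge_atTop 0] with n e1 e2 e3
  rw [Real.norm_eq_abs, abs_mul, abs_of_nonneg e3]
  have e4 : (hb b n : ℝ) / Real.log n ^ 2 - 1 = ((hb b n : ℝ) - (Real.log n ^ 2 + b * (Real.log n * Real.log (Real.log n)))) /
      Real.log n ^ 2 + b * Real.log (Real.log n) / Real.log n := by
    field_simp
    ring
  have e5 : |(hb b n : ℝ) / Real.log n ^ 2 - 1| ≤ 1 / Real.log n ^ 2 + |b| * Real.log (Real.log n) / Real.log n := by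
    rw [e4]
    refine (abs_add_le _ _).trans (add_le_add ?_ (le_of_eq ?_))
    · rw [abs_div, abs_of_pos (by positivity : 0 < Real.log (n : ℝ) ^ 2)]
      exact div_le_div_of_nonneg_right e1 (by positivity)
    · rw [abs_div, abs_mul, abs_of_nonneg e3, abs_of_pos (by linarith : 0 < Real.log (n : ℝ))]
  refine (mul_le_mul_of_nonneg_right e5 e3).trans (le_of_eq ?_)
  field_simp

theorem hb_lim1 (b : ℝ) : Tendsto (fun n : ℕ => (hb b n : ℝ) / Real.log n ^ 2) atTop (𝓝 1) := by
  have h1 : Tendsto (fun n : ℕ => (hb b n : ℝ) / Real.log n ^ 2 - 1) atTop (𝓝 0) := by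
    refine squeeze_zero_norm' ?_ ((hb_lim b).norm.trans (by rw [norm_zero]))
    filter_upwards [lll.eventually_ge_atTop 1] with n e1
    rw [norm_mul, Real.norm_eq_abs (Real.log (Real.log n)), abs_of_nonneg (by linarith)]
    exact le_mul_of_one_le_right (norm_nonneg _) e1
  have h2 := h1.add_const 1
  rw [zero_add] at h2
  refine h2.congr (fun n => ?_)
  ring

theorem lim_b {d : ℕ} (hd : 1 ≤ d) (b : ℝ) : Tendsto (fun n : ℕ => Qp (Jd d (hb b n) n) /
    (Real.log n ^ (2 * d + 1 - b : ℝ) / n)) atTop (𝓝 (Real.exp (-(d + 1 / 2)))) := by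
  have h1 := lim_Qp2 hd one_pos (hb_lim1 b)
  rw [Real.log_one] at h1
  have h2 : Tendsto (fun n : ℕ => (hb b n : ℝ) / Real.log n - (Real.log n + b * Real.log (Real.log n))) atTop (𝓝 0) := by
    have e1 : Tendsto (fun n : ℕ => 1 / Real.log (n : ℝ)) atTop (𝓝 0) := by
      simp only [one_div]
      exact hl.inv_tendsto_atTop
    refine squeeze_zero_norm' ?_ e1
    filter_upwards [hb_near b, hl.eventually_ge_atTop 1] with n e2 e3
    have e4 : (hb b n : ℝ) / Real.log n - (Real.log n + b * Real.log (Real.log n)) =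
        ((hb b n : ℝ) - (Real.log n ^ 2 + b * (Real.log n * Real.log (Real.log n)))) / Real.log n := by
      field_simp
    rw [e4, Real.norm_eq_abs, abs_div, abs_of_pos (by linarith : 0 < Real.log (n : ℝ))]
    exact div_le_div_of_nonneg_right e2 (by linarith)
  have h3 := ((h1.sub h2).add ((hb_lim b).const_mul (2 * (d : ℝ) + 1)))
  have h4 : 1 * ((d : ℝ) * (0 - 1) - 1 / 2) - 0 + (2 * (d : ℝ) + 1) * 0 = -(d + 1 / 2) := by ring
  rw [h4] at h3
  have h5 := (Real.continuous_exp.tendsto _).comp h3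
  refine h5.congr' ?_
  filter_upwards [hl.eventually_ge_atTop 1, eventually_ge_atTop 10] with n e1 e2
  have hn0 : (0 : ℝ) < n := by
    have : 0 < n := by omega
    exact_mod_cast this
  have hQ : 0 < Qp (Jd d (hb b n) n) := prod_pos (fun m hm => by
    have h6 := Jd_ge hm
    have := pb_lt_one (show 3 ≤ fp m by have := le_fp m; omega)
    linarith)
  have hL0 : 0 < Real.log (n : ℝ) := by linarith
  simp only [Function.comp]
  have e3 : Qp (Jd d (hb b n) n) / (Real.log n ^ (2 * d + 1 - b : ℝ) / n) =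
      Real.exp (Real.log (Qp (Jd d (hb b n) n)) - (2 * d + 1 - b) * Real.log (Real.log n) + Real.log n) := by
    rw [Real.exp_add, Real.exp_sub, Real.exp_log hQ, Real.exp_log hn0, Real.rpow_def_of_pos hL0]
    rw [mul_comm (Real.log (Real.log n)) (2 * (d : ℝ) + 1 - b)]
    field_simp
  rw [e3]
  congr 1
  ring

theorem lim_t {d : ℕ} (hd : 1 ≤ d) {t : ℝ} (ht : 0 ≤ t) : Tendsto (fun n : ℕ => Qp (Jd d ⌊t * Real.log n⌋₊ n)) atTop
    (𝓝 (Real.exp (-t))) := by
  obtain ⟨h, hh⟩ : ∃ h : ℕ → ℕ, h = fun (n : ℕ) => ⌊t * Real.log n⌋₊ := ⟨_, rfl⟩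
  have hle : ∀ n : ℕ, (h n : ℝ) ≤ t * Real.log n := fun n => by
    rw [hh]
    exact Nat.floor_le (mul_nonneg ht (Real.log_natCast_nonneg n))
  have hge : ∀ n : ℕ, t * Real.log n - 1 < h n := fun n => by
    rw [hh]
    exact Nat.sub_one_lt_floor _
  have h1 : Tendsto (fun n : ℕ => (h n : ℝ) / Real.log n) atTop (𝓝 t) := by
    have e1 : Tendsto (fun n : ℕ => t - 1 / Real.log (n : ℝ)) atTop (𝓝 (t - 0)) := by
      refine Tendsto.const_sub t ?_
      simp only [one_div]
      exact hl.inv_tendsto_atTop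
    rw [sub_zero] at e1
    refine tendsto_of_tendsto_of_tendsto_of_le_of_le' e1 tendsto_const_nhds ?_ ?_
    · filter_upwards [hl.eventually_ge_atTop 1] with n e2
      rw [le_div_iff₀ (by linarith)]
      have e3 := hge n
      have e4 : (t - 1 / Real.log n) * Real.log n = t * Real.log n - 1 := by field_simp
      linarith
    · filter_upwards [hl.eventually_ge_atTop 1] with n e2
      rw [div_le_iff₀ (by linarith)]
      exact hle n
  have h2 : Tendsto (fun n : ℕ => (h n : ℝ) * Real.log (Real.log n) / Real.log n ^ 2) atTop (𝓝 0) := by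
    have e1 := h1.mul (ll_pow_div 1)
    rw [mul_zero] at e1
    refine e1.congr' ?_
    filter_upwards [hl.eventually_ge_atTop 1] with n e2
    field_simp
  have h3 : Tendsto (fun n : ℕ => (h n : ℝ) / Real.log n ^ 2) atTop (𝓝 0) := by
    have e1 := h1.mul hl.inv_tendsto_atTop
    rw [mul_zero] at e1
    refine e1.congr' ?_
    filter_upwards [hl.eventually_ge_atTop 1] with n e2
    simp only [Pi.inv_apply]
    field_simp
  have h4 : Tendsto (fun n : ℕ => Real.log ((h n).factorial : ℝ) / Real.log n ^ 2) atTop (𝓝 0) := by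
    have e1 := (h3.const_mul |Real.log (t + 1)|).add h2
    rw [mul_zero, add_zero] at e1
    refine squeeze_zero' (Eventually.of_forall (fun n => ?_)) ?_ e1
    · refine div_nonneg (Real.log_nonneg ?_) (sq_nonneg _)
      exact_mod_cast Nat.one_le_iff_ne_zero.2 (Nat.factorial_ne_zero _)
    · filter_upwards [hl.eventually_ge_atTop 1, lll.eventually_ge_atTop 0] with n e2 e3
      rw [mul_div_assoc', ← add_div]
      refine div_le_div_of_nonneg_right ?_ (sq_nonneg _)
      rcases Nat.eq_zero_or_pos (h n) with h0 | h0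
      · rw [h0]
        simp
      · have f0 : (0 : ℝ) < h n := by exact_mod_cast h0
        have f1 : Real.log ((h n).factorial : ℝ) ≤ h n * Real.log (h n) := by
          have g1 : ((h n).factorial : ℝ) ≤ (h n : ℝ) ^ (h n) := by exact_mod_cast Nat.factorial_le_pow (h n)
          have g2 := Real.log_le_log (by exact_mod_cast Nat.factorial_pos (h n)) g1
          rwa [Real.log_pow] at g2
        have f2 : Real.log (h n) ≤ |Real.log (t + 1)| + Real.log (Real.log n) := by
          have g1 : (h n : ℝ) ≤ (t + 1) * Real.log n := by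
            have := hle n
            nlinarith
          have g2 := Real.log_le_log f0 g1
          rw [Real.log_mul (by positivity) (by linarith)] at g2
          have := le_abs_self (Real.log (t + 1))
          linarith
        nlinarith
  have h5 : Tendsto (fun n : ℕ => Real.log (Qp (Jd d (h n) n)) + h n / Real.log n -
      (d * Real.log ((h n).factorial : ℝ) + h n * Real.log (Real.log n)) / Real.log n ^ 2 +
      h n / (2 * Real.log n ^ 2)) atTop (𝓝 0) := by
    refine squeeze_zero_norm' ?_ h3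
    filter_upwards [log_Qp hd (t + 1) one_pos, hl.eventually_ge_atTop 1] with n e1 e2
    have e3 : (h n : ℝ) ≤ (t + 1) * Real.log n ^ 2 := by
      have := hle n
      nlinarith
    rw [Real.norm_eq_abs]
    refine (e1 (h n) e3).trans (le_of_eq ?_)
    ring
  have h6 := (((h5.sub h1).add (h4.const_mul (d : ℝ))).add h2).sub (h3.const_mul (1 / 2))
  have h7 : 0 - t + (d : ℝ) * 0 + 0 - 1 / 2 * 0 = -t := by ring
  rw [h7] at h6
  have h8 := (Real.continuous_exp.tendsto _).comp h6
  refine h8.congr' ?_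
  filter_upwards [hl.eventually_ge_atTop 1, eventually_ge_atTop 10] with n e1 e2
  have hQ : 0 < Qp (Jd d (h n) n) := prod_pos (fun m hm => by
    have h6 := Jd_ge hm
    have := pb_lt_one (show 3 ≤ fp m by have := le_fp m; omega)
    linarith)
  simp only [Function.comp]
  have e3 : Real.log (Qp (Jd d (h n) n)) + h n / Real.log n -
      (d * Real.log ((h n).factorial : ℝ) + h n * Real.log (Real.log n)) / Real.log n ^ 2 +
      h n / (2 * Real.log n ^ 2) - h n / Real.log n + d * (Real.log ((h n).factorial : ℝ) / Real.log n ^ 2) +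
      h n * Real.log (Real.log n) / Real.log n ^ 2 - 1 / 2 * (h n / Real.log n ^ 2) = Real.log (Qp (Jd d (h n) n)) := by
    field_simp
    ring
  rw [e3, Real.exp_log hQ, hh]

/-- The theorem of Stolz and Cesaro. -/
theorem stolz {Q F : ℕ → ℝ} {κ : ℝ} (hF : ∀ᶠ n in atTop, 0 < F (n + 1) - F n) (hFt : Tendsto F atTop atTop)
    (h : Tendsto (fun n => Q n / (F (n + 1) - F n)) atTop (𝓝 κ)) :
    Tendsto (fun N => (∑ n ∈ range N, Q n) / F N) atTop (𝓝 κ) := by
  obtain ⟨n0, hn0⟩ := eventually_atTop.1 hF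
  obtain ⟨g, hg⟩ : ∃ g : ℕ → ℝ, g = fun n => if n < n0 then 0 else F (n + 1) - F n := ⟨_, rfl⟩
  have hg0 : ∀ n, 0 ≤ g n := by
    intro n
    rw [hg]
    simp only
    split_ifs with h1
    · exact le_rfl
    · exact (hn0 n (by omega)).le
  have hgs : ∀ N, n0 ≤ N → ∑ n ∈ range N, g n = F N - F n0 := by
    intro N hN
    rw [← sum_range_add_sum_Ico _ hN]
    have e1 : ∑ n ∈ range n0, g n = 0 := sum_eq_zero (fun n hn => by
      rw [hg]
      simp only
      rw [if_pos (mem_range.1 hn)])
    have e2 : ∑ n ∈ Ico n0 N, g n = ∑ n ∈ Ico n0 N, (F (n + 1) - F n) := sum_congr rfl (fun n hn => by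
      rw [hg]
      simp only
      rw [if_neg (by have := (mem_Ico.1 hn).1; omega)])
    rw [e1, e2, sum_Ico_eq_sub _ hN, sum_range_sub, sum_range_sub]
    ring
  have hgt : Tendsto (fun N => ∑ n ∈ range N, g n) atTop atTop := by
    refine (tendsto_atTop_add_const_right _ (-F n0) hFt).congr' ?_
    filter_upwards [eventually_ge_atTop n0] with N hN
    rw [hgs N hN]
    ring
  have ho : (fun n => Q n - κ * g n) =o[atTop] g := by
    rw [Asymptotics.isLittleO_iff]
    intro ε hε
    filter_upwards [Metric.tendsto_nhds.1 h ε hε, eventually_ge_atTop n0] with n h1 h2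
    have h3 := hn0 n h2
    have h4 : g n = F (n + 1) - F n := by
      rw [hg]
      simp only
      rw [if_neg (by omega)]
    rw [h4, Real.norm_eq_abs, Real.norm_eq_abs, abs_of_pos h3]
    rw [Real.dist_eq] at h1
    have h5 : Q n - κ * (F (n + 1) - F n) = (Q n / (F (n + 1) - F n) - κ) * (F (n + 1) - F n) := by
      field_simp
    rw [h5, abs_mul, abs_of_pos h3]
    exact mul_le_mul_of_nonneg_right h1.le h3.le
  have hs := ho.sum_range hg0 hgt
  have h1 := hs.tendsto_div_nhds_zero
  have h2 : Tendsto (fun N => (∑ n ∈ range N, g n) / F N) atTop (𝓝 1) := by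
    have e1 : Tendsto (fun N => 1 - F n0 / F N) atTop (𝓝 (1 - 0)) := (tendsto_const_nhds.div_atTop hFt).const_sub 1
    rw [sub_zero] at e1
    refine e1.congr' ?_
    filter_upwards [eventually_ge_atTop n0, hFt.eventually_gt_atTop 0] with N h3 h4
    rw [hgs N h3]
    field_simp
  have h3 := (h1.add_const κ).mul h2
  rw [zero_add, mul_one] at h3
  refine h3.congr' ?_
  filter_upwards [hFt.eventually_gt_atTop 0, hgt.eventually_gt_atTop 0] with N h4 h5
  rw [sum_sub_distrib, ← mul_sum]
  field_simp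
  ring

end Pool.Agent.Q197.CI
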