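import Pool.Agent.Q120.MF.Exists

/-!
# Sequential tests in the random model

`A` is a random set of integers, `n ≥ 3` is in `A` with probability `1 / log n`, independently. We fix the elements
below `y` and consider functions of the elements in `[y, x)`.
-/

set_option autoImplicit false

namespace Pool.Agent.Q197.CI

open Finset MeasureTheory Filter Pool.Agent.Q120.ET Pool.Agent.Q120.MF

/-- The function `F` depends only on the elements in `[3, x)`. -/
def Dep {α : Type*} (x : ℕ) (F : Set ℕ → α) : Prop :=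
  ∀ S S' : Set ℕ, (∀ j, 3 ≤ j → j < x → (j ∈ S ↔ j ∈ S')) → F S = F S'

/-- The mean of `F (T0 ∪ T)` for the random subset `T` of `[y, x)`. -/
noncomputable def Ex (y : ℕ) (T0 : Finset ℕ) (x : ℕ) (F : Set ℕ → ℝ) : ℝ :=
  ∑ T ∈ (Ico y x).powerset, cramerOn (Ico y x) T * F ((T0 ∪ T : Finset ℕ) : Set ℕ)

/-- The probability of a property of `T0 ∪ T`. -/
noncomputable def Pr (y : ℕ) (T0 : Finset ℕ) (x : ℕ) (Q : Set ℕ → Prop) : ℝ := by
  classical exact Ex y T0 x (fun S => if Q S then 1 else 0)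

/-- The probability of the integer `a`. -/
noncomputable def pb (a : ℕ) : ℝ := 1 / Real.log (a : ℝ)

theorem pb_pos {a : ℕ} (ha : 3 ≤ a) : 0 < pb a := (inv_log_mem ha).1

theorem pb_lt_one {a : ℕ} (ha : 3 ≤ a) : pb a < 1 := (inv_log_mem ha).2

theorem dep_mono {α : Type*} {x z : ℕ} {F : Set ℕ → α} (h : Dep x F) (hxz : x ≤ z) : Dep z F :=
  fun S S' hS => h S S' (fun j h3 hj => hS j h3 (by omega))

theorem cramerOn_nonneg' {y x : ℕ} (hy : 3 ≤ y) {T : Finset ℕ} (hT : T ⊆ Ico y x) : 0 ≤ cramerOn (Ico y x) T :=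
  (cramerOn_pos (fun n hn => by have := (mem_Ico.1 hn).1; omega) hT).le

theorem ex_mono {y x : ℕ} (hy : 3 ≤ y) {T0 : Finset ℕ} {F G : Set ℕ → ℝ}
    (h : ∀ T ⊆ Ico y x, F ((T0 ∪ T : Finset ℕ) : Set ℕ) ≤ G ((T0 ∪ T : Finset ℕ) : Set ℕ)) :
    Ex y T0 x F ≤ Ex y T0 x G := by
  refine sum_le_sum (fun T hT => ?_)
  rw [mem_powerset] at hT
  exact mul_le_mul_of_nonneg_left (h T hT) (cramerOn_nonneg' hy hT)

theorem ex_congr {y x : ℕ} {T0 : Finset ℕ} {F G : Set ℕ → ℝ}
    (h : ∀ T ⊆ Ico y x, F ((T0 ∪ T : Finset ℕ) : Set ℕ) = G ((T0 ∪ T : Finset ℕ) : Set ℕ)) :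
    Ex y T0 x F = Ex y T0 x G :=
  sum_congr rfl (fun T hT => by rw [h T (mem_powerset.1 hT)])

theorem ex_add (y : ℕ) (T0 : Finset ℕ) (x : ℕ) (F G : Set ℕ → ℝ) :
    Ex y T0 x (fun S => F S + G S) = Ex y T0 x F + Ex y T0 x G := by
  unfold Ex
  rw [← sum_add_distrib]
  exact sum_congr rfl (fun T _ => by ring)

theorem ex_const_mul (y : ℕ) (T0 : Finset ℕ) (x : ℕ) (c : ℝ) (F : Set ℕ → ℝ) :
    Ex y T0 x (fun S => c * F S) = c * Ex y T0 x F := by
  unfold Ex
  rw [mul_sum]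
  exact sum_congr rfl (fun T _ => by ring)

theorem ex_const (y : ℕ) (T0 : Finset ℕ) (x : ℕ) (c : ℝ) : Ex y T0 x (fun _ => c) = c := by
  unfold Ex
  rw [← sum_mul, sum_cramerOn, one_mul]

theorem ex_nonneg {y x : ℕ} (hy : 3 ≤ y) {T0 : Finset ℕ} {F : Set ℕ → ℝ}
    (h : ∀ T ⊆ Ico y x, 0 ≤ F ((T0 ∪ T : Finset ℕ) : Set ℕ)) : 0 ≤ Ex y T0 x F := by
  have := ex_mono hy (T0 := T0) (F := fun _ => 0) (G := F) h
  rwa [ex_const] at this

/-- One step. -/
theorem ex_succ {y x : ℕ} (hyx : y ≤ x) (T0 : Finset ℕ) (F : Set ℕ → ℝ) :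
    Ex y T0 (x + 1) F = Ex y T0 x (fun S => pb x * F (insert x S) + (1 - pb x) * F S) := by
  have h1 : Ico y (x + 1) = insert x (Ico y x) := by
    ext j
    rw [mem_insert, mem_Ico, mem_Ico]
    omega
  have h2 : x ∉ Ico y x := by simp
  unfold Ex
  rw [h1, sum_powerset_insert h2, ← sum_add_distrib]
  refine sum_congr rfl (fun T hT => ?_)
  rw [mem_powerset] at hT
  have h3 : x ∉ T := fun h => h2 (hT h)
  have h4 : cramerOn (insert x (Ico y x)) T = cramerOn (Ico y x) T * (1 - pb x) := by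
    unfold cramerOn pb
    rw [insert_sdiff_of_notMem _ h3, prod_insert (by simp)]
    ring
  have h5 : cramerOn (insert x (Ico y x)) (insert x T) = cramerOn (Ico y x) T * pb x := by
    unfold cramerOn pb
    rw [insert_sdiff_insert, prod_insert h3, sdiff_insert_of_notMem h2]
    ring
  rw [h4, h5]
  have h6 : ((T0 ∪ insert x T : Finset ℕ) : Set ℕ) = insert x ((T0 ∪ T : Finset ℕ) : Set ℕ) := by
    rw [union_insert, coe_insert]
  rw [h6]
  ring

/-- The product of the factors. -/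
theorem ex_prod_le {y : ℕ} (hy : 3 ≤ y) {T0 : Finset ℕ} (hT0 : ∀ j ∈ T0, j < y) (m : ℕ → Set ℕ → ℝ)
    (hdep : ∀ a, y ≤ a → Dep (a + 1) (m a)) (hm0 : ∀ a S, y ≤ a → 0 ≤ m a S)
    (hm : ∀ a, y ≤ a → ∀ S : Set ℕ, a ∉ S → pb a * m a (insert a S) + (1 - pb a) * m a S ≤ 1) (x : ℕ) :
    Ex y T0 x (fun S => ∏ a ∈ Ico y x, m a S) ≤ 1 := by
  induction x with
  | zero =>
    have h1 : Ico y 0 = ∅ := by simp
    rw [h1]
    simp only [prod_empty]
    rw [ex_const]
  | succ x ih =>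
    rcases lt_or_ge x y with h | h
    · have h1 : Ico y (x + 1) = ∅ := Ico_eq_empty (by omega)
      rw [h1]
      simp only [prod_empty]
      rw [ex_const]
    · rw [ex_succ h]
      refine le_trans (ex_mono hy (fun T hT => ?_)) ih
      obtain ⟨S, hS⟩ : ∃ S : Set ℕ, S = ((T0 ∪ T : Finset ℕ) : Set ℕ) := ⟨_, rfl⟩
      rw [← hS]
      have hxS : x ∉ S := by
        rw [hS, mem_coe, mem_union]
        rintro (h2 | h2)
        · have := hT0 x h2
          omega
        · have := mem_Ico.1 (hT h2)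
          omega
      have h1 : Ico y (x + 1) = insert x (Ico y x) := by
        ext j
        rw [mem_insert, mem_Ico, mem_Ico]
        omega
      have h2 : x ∉ Ico y x := by simp
      have h3 : ∏ a ∈ Ico y x, m a (insert x S) = ∏ a ∈ Ico y x, m a S := by
        refine prod_congr rfl (fun a ha => ?_)
        rw [mem_Ico] at ha
        refine hdep a ha.1 _ _ (fun j _ hj => ?_)
        rw [Set.mem_insert_iff]
        constructor
        · rintro (h4 | h4)
          · omega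
          · exact h4
        · exact fun h4 => Or.inr h4
      rw [h1, prod_insert h2, prod_insert h2, h3]
      have h4 := hm x h S hxS
      have h5 : 0 ≤ ∏ a ∈ Ico y x, m a S := prod_nonneg (fun a ha => hm0 a S (mem_Ico.1 ha).1)
      nlinarith

/-- The exact version. -/
theorem ex_prod_eq {y : ℕ} {T0 : Finset ℕ} (hT0 : ∀ j ∈ T0, j < y) (m : ℕ → Set ℕ → ℝ)
    (hdep : ∀ a, y ≤ a → Dep (a + 1) (m a))
    (hm : ∀ a, y ≤ a → ∀ S : Set ℕ, a ∉ S → pb a * m a (insert a S) + (1 - pb a) * m a S = 1) (x : ℕ) :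
    Ex y T0 x (fun S => ∏ a ∈ Ico y x, m a S) = 1 := by
  induction x with
  | zero =>
    have h1 : Ico y 0 = ∅ := by simp
    rw [h1]
    simp only [prod_empty]
    rw [ex_const]
  | succ x ih =>
    rcases lt_or_ge x y with h | h
    · have h1 : Ico y (x + 1) = ∅ := Ico_eq_empty (by omega)
      rw [h1]
      simp only [prod_empty]
      rw [ex_const]
    · rw [ex_succ h]
      refine Eq.trans (ex_congr (fun T hT => ?_)) ih
      obtain ⟨S, hS⟩ : ∃ S : Set ℕ, S = ((T0 ∪ T : Finset ℕ) : Set ℕ) := ⟨_, rfl⟩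
      rw [← hS]
      have hxS : x ∉ S := by
        rw [hS, mem_coe, mem_union]
        rintro (h2 | h2)
        · have := hT0 x h2
          omega
        · have := mem_Ico.1 (hT h2)
          omega
      have h1 : Ico y (x + 1) = insert x (Ico y x) := by
        ext j
        rw [mem_insert, mem_Ico, mem_Ico]
        omega
      have h2 : x ∉ Ico y x := by simp
      have h3 : ∏ a ∈ Ico y x, m a (insert x S) = ∏ a ∈ Ico y x, m a S := by
        refine prod_congr rfl (fun a ha => ?_)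
        rw [mem_Ico] at ha
        refine hdep a ha.1 _ _ (fun j _ hj => ?_)
        rw [Set.mem_insert_iff]
        constructor
        · rintro (h4 | h4)
          · omega
          · exact h4
        · exact fun h4 => Or.inr h4
      rw [h1, prod_insert h2, prod_insert h2, h3]
      have h4 := hm x h S hxS
      linear_combination (∏ a ∈ Ico y x, m a S) * h4

open Classical in
theorem pr_def (y : ℕ) (T0 : Finset ℕ) (x : ℕ) (Q : Set ℕ → Prop) :
    Pr y T0 x Q = Ex y T0 x (fun S => if Q S then 1 else 0) := by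
  unfold Pr
  congr 1

theorem pr_nonneg {y x : ℕ} (hy : 3 ≤ y) {T0 : Finset ℕ} (Q : Set ℕ → Prop) : 0 ≤ Pr y T0 x Q := by
  classical
  rw [pr_def]
  refine ex_nonneg hy (fun T _ => ?_)
  split_ifs <;> norm_num

theorem pr_mono {y x : ℕ} (hy : 3 ≤ y) {T0 : Finset ℕ} {Q R : Set ℕ → Prop}
    (h : ∀ T ⊆ Ico y x, Q ((T0 ∪ T : Finset ℕ) : Set ℕ) → R ((T0 ∪ T : Finset ℕ) : Set ℕ)) :
    Pr y T0 x Q ≤ Pr y T0 x R := by
  classical
  rw [pr_def, pr_def]
  refine ex_mono hy (fun T hT => ?_)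
  by_cases h1 : Q ((T0 ∪ T : Finset ℕ) : Set ℕ)
  · rw [if_pos h1, if_pos (h T hT h1)]
  · rw [if_neg h1]
    split_ifs <;> norm_num

theorem pr_le_one {y x : ℕ} (hy : 3 ≤ y) {T0 : Finset ℕ} (Q : Set ℕ → Prop) : Pr y T0 x Q ≤ 1 := by
  classical
  refine le_trans ?_ (ex_const y T0 x 1).le
  rw [pr_def]
  refine ex_mono hy (fun T _ => ?_)
  split_ifs <;> norm_num

theorem pr_or_le {y x : ℕ} (hy : 3 ≤ y) {T0 : Finset ℕ} (Q R : Set ℕ → Prop) :
    Pr y T0 x (fun S => Q S ∨ R S) ≤ Pr y T0 x Q + Pr y T0 x R := by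
  classical
  rw [pr_def, pr_def, pr_def, ← ex_add]
  refine ex_mono hy (fun T _ => ?_)
  generalize ((T0 ∪ T : Finset ℕ) : Set ℕ) = S
  by_cases h1 : Q S <;> by_cases h2 : R S <;> simp [h1, h2]

theorem pr_exists_le {y x : ℕ} (hy : 3 ≤ y) {T0 : Finset ℕ} {ι : Type*} (I : Finset ι) (Q : ι → Set ℕ → Prop) :
    Pr y T0 x (fun S => ∃ i ∈ I, Q i S) ≤ ∑ i ∈ I, Pr y T0 x (Q i) := by
  classical
  induction I using Finset.induction_on with
  | empty =>
    rw [sum_empty]
    refine le_trans (pr_mono hy (R := fun _ => False) (fun T _ h => ?_)) ?_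
    · simp at h
    · rw [pr_def]
      simp only [if_false]
      rw [ex_const]
  | insert i I hi ih =>
    rw [sum_insert hi]
    refine le_trans ?_ ((pr_or_le hy (Q i) (fun S => ∃ i ∈ I, Q i S)).trans (by linarith))
    refine pr_mono hy (fun T _ h => ?_)
    obtain ⟨j, hj, hq⟩ := h
    rcases mem_insert.1 hj with h1 | h1
    · rw [h1] at hq
      exact Or.inl hq
    · exact Or.inr ⟨j, h1, hq⟩

/-- Markov's inequality. -/
theorem pr_le_of_prod {y x : ℕ} (hy : 3 ≤ y) {T0 : Finset ℕ} {F : Set ℕ → ℝ} (hF : Ex y T0 x F ≤ 1)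
    (hF0 : ∀ S, 0 ≤ F S) {Q : Set ℕ → Prop} {c : ℝ} (hc : 0 < c)
    (hQ : ∀ T ⊆ Ico y x, Q ((T0 ∪ T : Finset ℕ) : Set ℕ) → c ≤ F ((T0 ∪ T : Finset ℕ) : Set ℕ)) :
    Pr y T0 x Q ≤ 1 / c := by
  classical
  rw [pr_def, le_div_iff₀ hc, mul_comm, ← ex_const_mul]
  refine le_trans (ex_mono hy (fun T hT => ?_)) hF
  split_ifs with h
  · rw [mul_one]
    exact hQ T hT h
  · rw [mul_zero]
    exact hF0 _

variable {Ω : Type*} [MeasurableSpace Ω] {μ : Measure Ω} [IsProbabilityMeasure μ] {A : Ω → Set ℕ}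

theorem dep_iff {x : ℕ} {Q : Set ℕ → Prop} (hQ : Dep x Q) (ω : Ω) :
    Q (A ω) ↔ Q ((tr A (Ico 3 x) ω : Finset ℕ) : Set ℕ) := by
  rw [hQ (A ω) ((tr A (Ico 3 x) ω : Finset ℕ) : Set ℕ)]
  intro j h3 hj
  rw [mem_coe, mem_tr, mem_Ico]
  tauto

theorem measurable_dep (hA : IsCramer μ A) {x : ℕ} {Q : Set ℕ → Prop} (hQ : Dep x Q) :
    MeasurableSet {ω | Q (A ω)} := by
  classical
  have h1 : {ω | Q (A ω)} = ⋃ T ∈ (Ico 3 x).powerset.filter (fun T : Finset ℕ => Q (T : Set ℕ)),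
      {ω | ∀ n ∈ Ico 3 x, (n ∈ A ω ↔ n ∈ T)} := by
    ext ω
    simp only [Set.mem_ofPred_eq, Set.mem_iUnion, exists_prop, mem_filter, mem_powerset]
    rw [dep_iff hQ]
    constructor
    · intro h
      refine ⟨tr A (Ico 3 x) ω, ⟨fun n hn => (mem_tr.1 hn).1, h⟩, fun n hn => ?_⟩
      rw [mem_tr]
      tauto
    · rintro ⟨T, ⟨hT, h⟩, h2⟩
      have h3 : tr A (Ico 3 x) ω = T := by
        ext n
        rw [mem_tr]
        constructor
        · rintro ⟨h4, h5⟩
          exact (h2 n h4).1 h5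
        · exact fun h4 => ⟨hT h4, (h2 n (hT h4)).2 h4⟩
      rw [h3]
      exact h
  rw [h1]
  exact Finset.measurableSet_biUnion _ (fun T _ => measurableSet_law hA.random _ _)

/-- The probability of an event of the model. -/
theorem real_eq_pr (hA : IsCramer μ A) {x : ℕ} {Q : Set ℕ → Prop} (hQ : Dep x Q) :
    μ.real {ω | Q (A ω)} = Pr 3 ∅ x Q := by
  classical
  have h1 : {ω | Q (A ω)} = {ω | Q ((tr A (Ico 3 x) ω : Finset ℕ) : Set ℕ)} := by
    ext ω
    exact dep_iff hQ ω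
  rw [h1, real_event hA.random (Ico 3 x) (fun T : Finset ℕ => Q (T : Set ℕ)), pr_def, Ex, sum_filter]
  refine sum_congr rfl (fun T hT => ?_)
  rw [mem_powerset] at hT
  rw [empty_union]
  split_ifs with h
  · rw [mul_one]
    exact hA.law _ _ (fun n hn => (mem_Ico.1 hn).1) hT
  · rw [mul_zero]

/-- Conditioning on the elements below `y`. -/
theorem ex_split {y x : ℕ} (hy : 3 ≤ y) (hyx : y ≤ x) (F : Set ℕ → ℝ) :
    Ex 3 ∅ x F = ∑ T0 ∈ (Ico 3 y).powerset, cramerOn (Ico 3 y) T0 * Ex y T0 x F := by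
  induction x, hyx using Nat.le_induction generalizing F with
  | base =>
    refine sum_congr rfl (fun T0 hT0 => ?_)
    unfold Ex
    rw [Ico_self, powerset_empty, sum_singleton, empty_union, union_empty]
    simp [cramerOn]
  | succ x hyx ih =>
    rw [ex_succ (by omega), ih]
    refine sum_congr rfl (fun T0 _ => ?_)
    rw [ex_succ hyx]

theorem pr_split {y x : ℕ} (hy : 3 ≤ y) (hyx : y ≤ x) (Q : Set ℕ → Prop) :
    Pr 3 ∅ x Q = ∑ T0 ∈ (Ico 3 y).powerset, cramerOn (Ico 3 y) T0 * Pr y T0 x Q := by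
  classical
  rw [pr_def, ex_split hy hyx]
  refine sum_congr rfl (fun T0 _ => ?_)
  rw [pr_def]

/-- If the part below `y` is good then the conditional probability is small. -/
theorem pr_cond_le {y x : ℕ} (hy : 3 ≤ y) (hyx : y ≤ x) {V Q : Set ℕ → Prop} (hV : Dep y V) {c : ℝ} (hc : 0 ≤ c)
    (h : ∀ T0 ⊆ Ico 3 y, V (T0 : Set ℕ) → Pr y T0 x Q ≤ c) :
    Pr 3 ∅ x (fun S => V S ∧ Q S) ≤ c := by
  classical
  rw [pr_split hy hyx]
  calc ∑ T0 ∈ (Ico 3 y).powerset, cramerOn (Ico 3 y) T0 * Pr y T0 x (fun S => V S ∧ Q S)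
      ≤ ∑ T0 ∈ (Ico 3 y).powerset, cramerOn (Ico 3 y) T0 * c := by
        refine sum_le_sum (fun T0 hT0 => ?_)
        rw [mem_powerset] at hT0
        refine mul_le_mul_of_nonneg_left ?_ (cramerOn_nonneg' le_rfl hT0)
        have hVT : ∀ T ⊆ Ico y x, (V ((T0 ∪ T : Finset ℕ) : Set ℕ) ↔ V (T0 : Set ℕ)) := by
          intro T hT
          rw [hV ((T0 ∪ T : Finset ℕ) : Set ℕ) (T0 : Set ℕ)]
          intro j _ hj
          rw [mem_coe, mem_coe, mem_union]
          constructor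
          · rintro (h1 | h1)
            · exact h1
            · have := mem_Ico.1 (hT h1)
              omega
          · exact fun h1 => Or.inl h1
        by_cases h1 : V (T0 : Set ℕ)
        · refine (pr_mono hy (fun T _ h2 => h2.2)).trans (h T0 hT0 h1)
        · refine le_trans (pr_mono hy (R := fun _ => False) (fun T hT h2 => ?_)) ?_
          · exact h1 ((hVT T hT).1 h2.1)
          · rw [pr_def]
            simp only [if_false]
            rw [ex_const]
            exact hc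
    _ = c := by rw [← sum_mul, sum_cramerOn, one_mul]

end Pool.Agent.Q197.CI
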