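import Pool.Agent.Q197.CI.FixP

/-!
# Elements whose index is an element, followed at distance two by an element
-/

set_option autoImplicit false

namespace Pool.Agent.Q197.CI

open Finset Filter MeasureTheory Pool.Agent.Q120.ET Pool.Agent.Q120.MF
open scoped Topology

/-- `m` is tested at the number `b + 2`, where `b` is the element with index `M` and `M` is the element with index `m`. -/
def P04e (m a : ℕ) (S : Set ℕ) : Prop := ∃ M b, b < a ∧ IsEl S m M ∧ IsEl S M b ∧ a = b + 2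

theorem dep_P04e (m a : ℕ) : Dep a (P04e m a) := by
  intro S S' hS
  have key : ∀ S S' : Set ℕ, (∀ j, 3 ≤ j → j < a → (j ∈ S ↔ j ∈ S')) → P04e m a S → P04e m a S' := by
    rintro S S' hS ⟨M, b, h1, h2, h3, h4⟩
    have h5 := isEl_ge h3
    have e1 : IsEl S m M = IsEl S' m M := dep_isEl (show M < a by omega) S S' hS
    have e2 : IsEl S M b = IsEl S' M b := dep_isEl h1 S S' hS
    exact ⟨M, b, h1, e1 ▸ h2, e2 ▸ h3, h4⟩
  exact propext ⟨key S S' hS, key S' S (fun j h1 h2 => (hS j h1 h2).symm)⟩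

theorem p04e_iff {S : Set ℕ} (hS : S.Infinite) {m : ℕ} (hm : 1 ≤ m) (a : ℕ) :
    P04e m a S ↔ (True ∧ a = el S (el S m) + 2) := by
  have h1 := isEl_el hS hm
  have h2 := isEl_el hS (show 1 ≤ el S m by have := h1.1; omega)
  unfold P04e
  constructor
  · rintro ⟨M, b, _, h3, h4, h5⟩
    have h6 := isEl_unique h3 h1
    rw [h6] at h4
    rw [isEl_unique h4 h2] at h5
    exact ⟨trivial, h5⟩
  · rintro ⟨_, rfl⟩
    exact ⟨_, _, by omega, h1, h2, rfl⟩

/-- All indices up to `h` are decided below `(h + 2) ^ 5`. -/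
def V04e (h : ℕ) (S : Set ℕ) : Prop := ∃ M b, b + 3 ≤ (h + 2) ^ 5 ∧ IsEl S h M ∧ IsEl S M b

theorem dep_V04e (h : ℕ) : Dep ((h + 2) ^ 5) (V04e h) := by
  intro S S' hS
  have key : ∀ S S' : Set ℕ, (∀ j, 3 ≤ j → j < (h + 2) ^ 5 → (j ∈ S ↔ j ∈ S')) → V04e h S → V04e h S' := by
    rintro S S' hS ⟨M, b, h1, h2, h3⟩
    have h5 := isEl_ge h3
    have e1 : IsEl S h M = IsEl S' h M := dep_isEl (show M < (h + 2) ^ 5 by omega) S S' hS
    have e2 : IsEl S M b = IsEl S' M b := dep_isEl (show b < (h + 2) ^ 5 by omega) S S' hS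
    exact ⟨M, b, h1, e1 ▸ h2, e2 ▸ h3⟩
  exact propext ⟨key S S' hS, key S' S (fun j h1 h2 => (hS j h1 h2).symm)⟩

theorem depW04e (h : ℕ) (S S' : Set ℕ) (hV : V04e h S) (hS : ∀ j, 3 ≤ j → j < (h + 2) ^ 5 → (j ∈ S ↔ j ∈ S')) :
    ∀ j, 1 ≤ j → j ≤ h → (WP P04e j S ↔ WP P04e j S') := by
  have hV' : V04e h S' := by
    have e : V04e h S = V04e h S' := dep_V04e h S S' hS
    exact e ▸ hV
  have key : ∀ S S' : Set ℕ, V04e h S → (∀ j, 3 ≤ j → j < (h + 2) ^ 5 → (j ∈ S ↔ j ∈ S')) →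
      ∀ j, 1 ≤ j → j ≤ h → WP P04e j S → WP P04e j S' := by
    rintro S S' ⟨Mh, bh, h1, h2, h3⟩ hS j hj1 hj2 ⟨a, ⟨M, b, h4, h5, h6, h7⟩, h8⟩
    have hM : M ≤ Mh := by
      rcases Nat.lt_or_ge j h with h9 | h9
      · exact (isEl_lt h5 h2 h9).le
      · have : j = h := by omega
        rw [this] at h5
        exact (isEl_unique h5 h2).le
    have hb : b ≤ bh := by
      rcases Nat.lt_or_ge M Mh with h9 | h9
      · exact (isEl_lt h6 h3 h9).le
      · have : M = Mh := by omega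
        rw [this] at h6
        exact (isEl_unique h6 h3).le
    have h9 := isEl_ge h6
    have h10 := h6.1
    have e1 : IsEl S j M = IsEl S' j M := dep_isEl (show M < (h + 2) ^ 5 by omega) S S' hS
    have e2 : IsEl S M b = IsEl S' M b := dep_isEl (show b < (h + 2) ^ 5 by omega) S S' hS
    exact ⟨a, ⟨M, b, h4, e1 ▸ h5, e2 ▸ h6, h7⟩, (hS a (by omega) (by omega)).1 h8⟩
  intro j hj1 hj2
  exact ⟨key S S' hV hS j hj1 hj2, key S' S hV' (fun j h1 h2 => (hS j h1 h2).symm) j hj1 hj2⟩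

theorem row04e : Row (WP P04e) V04e (fun h => (h + 2) ^ 5) (FlI (fun n j => n - j) (fun a => a + 2)) XI
    (qI (fun n j => n - j) (fun a => a + 2)) 1 1 := by
  refine rowI (tgt_add (by norm_num)) idx_sub dep_V04e depW04e (fun h => ?_) (fun a b hab => ?_) ⟨5, fun h => ?_⟩
  · have : 2 ^ 5 ≤ (h + 2) ^ 5 := Nat.pow_le_pow_left (by omega) 5
    omega
  · exact Nat.pow_le_pow_left (by omega) 5
  · push_cast
    exact le_rfl

variable {Ω : Type*} [MeasurableSpace Ω] {μ : Measure Ω} [IsProbabilityMeasure μ] {A : Ω → Set ℕ}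

/-- Twice iterated indices stay small. -/
theorem ae_el2 (hA : IsCramer μ A) : ∀ᵐ ω ∂μ, ∀ᶠ h in atTop, el (A ω) (el (A ω) h) + 3 ≤ (h + 2) ^ 5 ∧
    (∀ m, 1 ≤ m → m ≤ h → el (A ω) (el (A ω) m) + 2 < (h + 2) ^ 5) := by
  filter_upwards [ae_el hA] with ω h1
  obtain ⟨hinf, h1⟩ := h1
  obtain ⟨m0, hm0⟩ := eventually_atTop.1 h1
  filter_upwards [eventually_ge_atTop (m0 + 2)] with h hh
  have h2 := (hm0 h (by omega)).2.2
  have h3 := el_ge hinf (show 1 ≤ h by omega)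
  have h4 := (hm0 (el (A ω) h) (by omega)).2.2
  have h5 : el (A ω) (el (A ω) h) ≤ h ^ 4 := h4.trans (by
    calc el (A ω) h ^ 2 ≤ (h ^ 2) ^ 2 := Nat.pow_le_pow_left h2 2
      _ = h ^ 4 := by ring)
  have h6 : h ^ 4 + 3 ≤ (h + 2) ^ 5 := by
    have h7 : (h + 2) ^ 5 = (h + 2) * (h + 2) ^ 4 := by ring
    have h8 : h ^ 4 ≤ (h + 2) ^ 4 := Nat.pow_le_pow_left (by omega) 4
    have h9 : 2 ^ 4 ≤ (h + 2) ^ 4 := Nat.pow_le_pow_left (by omega) 4
    nlinarith
  refine ⟨by omega, fun m hm1 hm2 => ?_⟩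
  have h7 := el_mono' hinf hm1 hm2
  have h8 := el_mono' hinf (show 1 ≤ el (A ω) m by have := el_ge hinf hm1; omega) h7
  omega

theorem ae_log_el2 (hA : IsCramer μ A) (s : ℕ) : ∀ᵐ ω ∂μ,
    Tendsto (fun m : ℕ => Real.log ((el (A ω) (el (A ω) m) + s : ℕ) : ℝ) / Real.log m) atTop (𝓝 1) := by
  filter_upwards [ae_log_el hA, ae_infinite hA] with ω h1 hinf
  have h2 := h1.comp (el_top hinf)
  have h3 := ((log_affine 1 s le_rfl).comp ((el_top hinf).comp (el_top hinf))).mul (h2.mul h1)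
  rw [one_mul, one_mul] at h3
  refine h3.congr' ?_
  filter_upwards [eventually_ge_atTop 1] with m hm
  have h4 := el_ge3 hinf m
  have h5 := el_ge3 hinf (el (A ω) m)
  have h6 : 0 < Real.log (el (A ω) m : ℝ) := Real.log_pos (by exact_mod_cast (show 1 < el (A ω) m by omega))
  have h7 : 0 < Real.log (el (A ω) (el (A ω) m) : ℝ) :=
    Real.log_pos (by exact_mod_cast (show 1 < el (A ω) (el (A ω) m) by omega))
  simp only [Function.comp_apply, one_mul]
  field_simp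

theorem law04e (hA : IsCramer μ A) :
    ∀ᵐ ω ∂μ, Tendsto (fun h : ℕ => ((Ws (WP P04e) (A ω) h).card : ℝ) * Real.log h ^ 1 / h) atTop (𝓝 1) := by
  classical
  refine pos_law hA dep_P04e (fun h => (h + 2) ^ 5) 1 one_pos ?_
  filter_upwards [ae_infinite hA, ae_el2 hA, ae_log_el2 hA 2] with ω hinf h1 h2
  refine ⟨fun _ => True, fun m => el (A ω) (el (A ω) m) + 2, fun m a hm => p04e_iff hinf hm a, fun m hm _ => ?_,
    fun m m' hm hm' _ _ h => ?_, ?_, ?_⟩
  · have := el_ge3 hinf (el (A ω) m)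
    show 3 ≤ el (A ω) (el (A ω) m) + 2
    omega
  · have h3 : el (A ω) (el (A ω) m) + 2 = el (A ω) (el (A ω) m') + 2 := h
    have g1 := el_ge hinf hm
    have g2 := el_ge hinf hm'
    rcases lt_trichotomy m m' with h4 | h4 | h4
    · have := el_lt_el hinf (by omega) (el_lt_el hinf hm h4)
      omega
    · exact h4
    · have := el_lt_el hinf (by omega) (el_lt_el hinf hm' h4)
      omega
  · filter_upwards [h1] with h h3 m hm1 hm2
    exact h3.2 m hm1 hm2
  · have h3 := sum_pb_law (t := fun m => el (A ω) (el (A ω) m) + 2) one_pos h2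
    rw [div_one] at h3
    refine h3.congr (fun h => ?_)
    rw [pow_one]
    congr 2
    refine sum_congr ?_ (fun _ _ => rfl)
    ext j
    simp

theorem v04e (hA : IsCramer μ A) : ∀ᵐ ω ∂μ, ∀ᶠ h in atTop, V04e h (A ω) := by
  filter_upwards [ae_infinite hA, ae_el2 hA] with ω hinf h1
  filter_upwards [h1, eventually_ge_atTop 1] with h h2 h3
  have h4 := isEl_el hinf h3
  exact ⟨_, _, h2.1, h4, isEl_el hinf (by have := h4.1; omega)⟩

end Pool.Agent.Q197.CI
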