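import Pool.Agent.Q197.CI.Cea8

/-!
# Elements `q` with `el (q + 2) + 2` an element
-/

set_option autoImplicit false

namespace Pool.Agent.Q197.CI

open Finset Filter MeasureTheory Pool.Agent.Q120.ET Pool.Agent.Q120.MF
open scoped Topology

/-- `q` is tested at `b + 2`, where `b` is the element with index `q + 2`, if `q` is an element. -/
def P8 (q a : ℕ) (S : Set ℕ) : Prop := ∃ b, b < a ∧ (3 ≤ q ∧ q ∈ S) ∧ IsEl S (q + 2) b ∧ a = b + 2

theorem dep_P8 (q a : ℕ) : Dep a (P8 q a) := by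
  intro S S' hS
  have key : ∀ S S' : Set ℕ, (∀ j, 3 ≤ j → j < a → (j ∈ S ↔ j ∈ S')) → P8 q a S → P8 q a S' := by
    rintro S S' hS ⟨b, h1, h2, h3, h4⟩
    have h5 := isEl_ge h3
    have e2 : IsEl S (q + 2) b = IsEl S' (q + 2) b := dep_isEl h1 S S' hS
    exact ⟨b, h1, ⟨h2.1, (hS q h2.1 (by omega)).1 h2.2⟩, e2 ▸ h3, h4⟩
  exact propext ⟨key S S' hS, key S' S (fun j h1 h2 => (hS j h1 h2).symm)⟩

theorem p8_iff {S : Set ℕ} (hS : S.Infinite) (q a : ℕ) :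
    P8 q a S ↔ ((3 ≤ q ∧ q ∈ S) ∧ a = el S (q + 2) + 2) := by
  have h1 := isEl_el hS (show 1 ≤ q + 2 by omega)
  unfold P8
  constructor
  · rintro ⟨b, _, h2, h3, h5⟩
    rw [isEl_unique h3 h1] at h5
    exact ⟨h2, h5⟩
  · rintro ⟨h2, rfl⟩
    exact ⟨_, by omega, h2, h1, rfl⟩

theorem wp8 {S : Set ℕ} (hS : S.Infinite) (q : ℕ) : WP P8 q S ↔ ((3 ≤ q ∧ q ∈ S) ∧ el S (q + 2) + 2 ∈ S) := by
  unfold WP
  constructor
  · rintro ⟨a, h1, h2⟩
    obtain ⟨h3, h4⟩ := (p8_iff hS q a).1 h1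
    rw [h4] at h2
    exact ⟨h3, h2⟩
  · exact fun h => ⟨_, (p8_iff hS q _).2 ⟨h.1, rfl⟩, h.2⟩

/-- All conditions up to `h` are decided below `(h + 2) ^ 3`. -/
def V8 (h : ℕ) (S : Set ℕ) : Prop := ∃ b, b + 3 ≤ (h + 2) ^ 3 ∧ IsEl S (h + 2) b

theorem dep_V8 (h : ℕ) : Dep ((h + 2) ^ 3) (V8 h) := by
  intro S S' hS
  have key : ∀ S S' : Set ℕ, (∀ j, 3 ≤ j → j < (h + 2) ^ 3 → (j ∈ S ↔ j ∈ S')) → V8 h S → V8 h S' := by
    rintro S S' hS ⟨b, h1, h3⟩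
    have e2 : IsEl S (h + 2) b = IsEl S' (h + 2) b := dep_isEl (show b < (h + 2) ^ 3 by omega) S S' hS
    exact ⟨b, h1, e2 ▸ h3⟩
  exact propext ⟨key S S' hS, key S' S (fun j h1 h2 => (hS j h1 h2).symm)⟩

theorem depW8 (h : ℕ) (S S' : Set ℕ) (hV : V8 h S) (hS : ∀ j, 3 ≤ j → j < (h + 2) ^ 3 → (j ∈ S ↔ j ∈ S')) :
    ∀ j, 1 ≤ j → j ≤ h → (WP P8 j S ↔ WP P8 j S') := by
  have hV' : V8 h S' := by
    have e : V8 h S = V8 h S' := dep_V8 h S S' hS
    exact e ▸ hV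
  have key : ∀ S S' : Set ℕ, V8 h S → (∀ j, 3 ≤ j → j < (h + 2) ^ 3 → (j ∈ S ↔ j ∈ S')) →
      ∀ j, 1 ≤ j → j ≤ h → WP P8 j S → WP P8 j S' := by
    rintro S S' ⟨bh, h1, h3⟩ hS j hj1 hj2 ⟨a, ⟨b, h4, h5, h6, h7⟩, h8⟩
    have hb : b ≤ bh := by
      rcases Nat.lt_or_ge j h with h9 | h9
      · exact (isEl_lt h6 h3 (by omega)).le
      · have : j = h := by omega
        rw [this] at h6
        exact (isEl_unique h6 h3).le
    have h10 := h6.1
    have h11 := isEl_ge h6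
    have e2 : IsEl S (j + 2) b = IsEl S' (j + 2) b := dep_isEl (show b < (h + 2) ^ 3 by omega) S S' hS
    exact ⟨a, ⟨b, h4, ⟨h5.1, (hS j h5.1 (by omega)).1 h5.2⟩, e2 ▸ h6, h7⟩, (hS a (by omega) (by omega)).1 h8⟩
  intro j hj1 hj2
  exact ⟨key S S' hV hS j hj1 hj2, key S' S hV' (fun j h1 h2 => (hS j h1 h2).symm) j hj1 hj2⟩

theorem row8 : Row (WP P8) V8 (fun h => (h + 2) ^ 3) (FlF P1) (fun n => 6 * n + 6) (qF P1) 1 1 := by
  refine rowF fix_one dep_V8 depW8 (fun h => ?_) (fun a b hab => ?_) ⟨3, fun h => ?_⟩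
  · have : 2 ^ 3 ≤ (h + 2) ^ 3 := Nat.pow_le_pow_left (by omega) 3
    omega
  · exact Nat.pow_le_pow_left (by omega) 3
  · push_cast
    exact le_rfl

theorem log_shift : Tendsto (fun m : ℕ => Real.log ((m + 2 : ℕ) : ℝ) / Real.log m) atTop (𝓝 1) := by
  have h := log_affine 1 2 le_rfl
  simpa using h

variable {Ω : Type*} [MeasurableSpace Ω] {μ : Measure Ω} [IsProbabilityMeasure μ] {A : Ω → Set ℕ}

theorem ae_log_el_two (hA : IsCramer μ A) : ∀ᵐ ω ∂μ,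
    Tendsto (fun q : ℕ => Real.log ((el (A ω) (q + 2) + 2 : ℕ) : ℝ) / Real.log q) atTop (𝓝 1) := by
  filter_upwards [ae_infinite hA, ae_log_el hA] with ω hinf h2
  have h3 := ((log_affine 1 2 le_rfl).comp (el_top hinf)).mul h2
  have h4 := (h3.comp (tendsto_add_atTop_nat 2)).mul log_shift
  rw [one_mul, one_mul] at h4
  refine h4.congr' ?_
  filter_upwards [eventually_ge_atTop 1] with m hm
  have h4 := el_ge3 hinf (m + 2)
  have h6 : 0 < Real.log (el (A ω) (m + 2) : ℝ) :=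
    Real.log_pos (by exact_mod_cast (show 1 < el (A ω) (m + 2) by omega))
  have h7 : 0 < Real.log ((m + 2 : ℕ) : ℝ) := Real.log_pos (by exact_mod_cast (show 1 < m + 2 by omega))
  simp only [Function.comp_apply, one_mul]
  field_simp

theorem law8 (hA : IsCramer μ A) :
    ∀ᵐ ω ∂μ, Tendsto (fun h : ℕ => ((Ws (WP P8) (A ω) h).card : ℝ) * Real.log h ^ 2 / h) atTop (𝓝 1) := by
  classical
  refine pos_law hA dep_P8 (fun h => (h + 2) ^ 3) 2 one_pos ?_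
  filter_upwards [ae_infinite hA, ae_el1 hA 2, ae_log_el_two hA, ct_law' hA] with ω hinf h1 h2 hct
  refine ⟨fun q => 3 ≤ q ∧ q ∈ A ω, fun q => el (A ω) (q + 2) + 2, fun m a _ => p8_iff hinf m a, fun m hm _ => ?_,
    fun m m' hm hm' _ _ h => ?_, ?_, ?_⟩
  · have := el_ge3 hinf (m + 2)
    show 3 ≤ el (A ω) (m + 2) + 2
    omega
  · have h3 : el (A ω) (m + 2) + 2 = el (A ω) (m' + 2) + 2 := h
    rcases lt_trichotomy m m' with h4 | h4 | h4
    · have := el_lt_el hinf (show 1 ≤ m + 2 by omega) (show m + 2 < m' + 2 by omega)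
      omega
    · exact h4
    · have := el_lt_el hinf (show 1 ≤ m' + 2 by omega) (show m' + 2 < m + 2 by omega)
      omega
  · filter_upwards [h1] with h h3 m hm1 hm2
    exact h3.2 m hm1 hm2
  · have hcD : Tendsto (fun h : ℕ => cD (fun q => 3 ≤ q ∧ q ∈ A ω) h * Real.log h ^ 1 / h) atTop (𝓝 1) := by
      refine hct.congr (fun h => ?_)
      rw [cD_zero, pow_one]
    have hw : Tendsto (fun k : ℕ => pb (el (A ω) (k + 2) + 2) * Real.log k) atTop (𝓝 1) := by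
      have h3 := h2.inv₀ one_ne_zero
      rw [inv_one] at h3
      refine h3.congr (fun k => ?_)
      unfold pb
      rw [inv_div, one_div_mul_eq_div]
    have h3 := wsum (D := fun q => 3 ≤ q ∧ q ∈ A ω) (w := fun q => pb (el (A ω) (q + 2) + 2)) (a := 1) hcD (B := 2)
      (fun k => pb_nonneg' _) (fun k => pb_le_two _) one_pos hw
    rw [one_mul] at h3
    exact h3

theorem v8 (hA : IsCramer μ A) : ∀ᵐ ω ∂μ, ∀ᶠ h in atTop, V8 h (A ω) := by
  filter_upwards [ae_infinite hA, ae_el1 hA 2] with ω hinf h1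
  filter_upwards [h1] with h h2
  exact ⟨_, h2.1, isEl_el hinf (by omega)⟩

end Pool.Agent.Q197.CI
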