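import Pool.Agent.Q197.CI.FixP

/-!
# Twin pairs `6 k - 1, 6 k + 1` and indices of twin elements
-/

set_option autoImplicit false

namespace Pool.Agent.Q197.CI

open Finset Filter MeasureTheory Pool.Agent.Q120.ET Pool.Agent.Q120.MF
open scoped Topology

/-- `k` is tested at `6 k - 1`. -/
def P6a (k a : ℕ) (_ : Set ℕ) : Prop := 1 ≤ k ∧ a = 6 * k - 1

/-- `k` is tested at `6 k + 1` if `6 k - 1` is an element. -/
def P6 (k a : ℕ) (S : Set ℕ) : Prop := 1 ≤ k ∧ 6 * k - 1 ∈ S ∧ a = 6 * k + 1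

theorem dep_P6 (k a : ℕ) : Dep a (P6 k a) := by
  intro S S' hS
  unfold P6
  apply propext
  constructor
  · rintro ⟨h1, h2, h3⟩
    exact ⟨h1, (hS _ (by omega) (by omega)).1 h2, h3⟩
  · rintro ⟨h1, h2, h3⟩
    exact ⟨h1, (hS _ (by omega) (by omega)).2 h2, h3⟩

theorem wp6a {k : ℕ} (hk : 1 ≤ k) (S : Set ℕ) : WP P6a k S ↔ 6 * k - 1 ∈ S := by
  unfold WP P6a
  constructor
  · rintro ⟨a, ⟨_, rfl⟩, h⟩
    exact h
  · exact fun h => ⟨_, ⟨hk, rfl⟩, h⟩

theorem wp6 {k : ℕ} (hk : 1 ≤ k) (S : Set ℕ) : WP P6 k S ↔ (6 * k - 1 ∈ S ∧ 6 * k + 1 ∈ S) := by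
  unfold WP P6
  constructor
  · rintro ⟨a, ⟨_, h1, rfl⟩, h⟩
    exact ⟨h1, h⟩
  · exact fun h => ⟨_, ⟨hk, h.1, rfl⟩, h.2⟩

theorem row6 : Row (WP P6) (fun _ _ => True) (fun h => 6 * h + 3) (FlI (fun n j => n - j) (fun a => a + 2)) XI
    (qI (fun n j => n - j) (fun a => a + 2)) 1 1 := by
  refine rowI (tgt_add (by norm_num)) idx_sub (fun _ => dep_const True) ?_ (fun _ => by omega) (fun a b hab => by
    show 6 * a + 3 ≤ 6 * b + 3
    omega) ⟨3, fun h => ?_⟩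
  · intro h S S' _ hS j hj1 hj2
    rw [wp6 hj1, wp6 hj1, hS (6 * j - 1) (by omega) (by omega), hS (6 * j + 1) (by omega) (by omega)]
  · push_cast
    have : (0 : ℝ) ≤ h := Nat.cast_nonneg _
    nlinarith [mul_nonneg this this, mul_nonneg (mul_nonneg this this) this]

theorem log_6 : Tendsto (fun m : ℕ => Real.log ((6 * m - 1 : ℕ) : ℝ) / Real.log m) atTop (𝓝 1) := by
  have h1 := log_affine 5 0 (by norm_num)
  have h2 := log_affine 6 0 (by norm_num)
  refine tendsto_of_tendsto_of_tendsto_of_le_of_le' h1 h2 ?_ ?_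
  · filter_upwards [hl.eventually_gt_atTop 0, eventually_ge_atTop 1] with m h3 h4
    refine div_le_div_of_nonneg_right (Real.log_le_log ?_ ?_) h3.le
    · exact_mod_cast (show 0 < 5 * m + 0 by omega)
    · exact_mod_cast (show 5 * m + 0 ≤ 6 * m - 1 by omega)
  · filter_upwards [hl.eventually_gt_atTop 0, eventually_ge_atTop 1] with m h3 h4
    refine div_le_div_of_nonneg_right (Real.log_le_log ?_ ?_) h3.le
    · exact_mod_cast (show 0 < 6 * m - 1 by omega)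
    · exact_mod_cast (show 6 * m - 1 ≤ 6 * m + 0 by omega)

variable {Ω : Type*} [MeasurableSpace Ω] {μ : Measure Ω} [IsProbabilityMeasure μ] {A : Ω → Set ℕ}

theorem law6a (hA : IsCramer μ A) :
    ∀ᵐ ω ∂μ, Tendsto (fun h : ℕ => ((Ws (WP P6a) (A ω) h).card : ℝ) * Real.log h ^ 1 / h) atTop (𝓝 1) := by
  classical
  refine pos_law hA (fun _ _ _ _ _ => rfl) (fun h => 6 * h + 2) 1 one_pos (Eventually.of_forall (fun ω =>
    ⟨fun _ => True, fun m => 6 * m - 1, fun m a hm => ?_, fun m hm _ => show 3 ≤ 6 * m - 1 by omega,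
      fun m m' hm hm' _ _ h => ?_, Eventually.of_forall (fun h m _ hm => ?_), ?_⟩))
  · unfold P6a
    simp [hm]
  · have : 6 * m - 1 = 6 * m' - 1 := h
    omega
  · show 6 * m - 1 < 6 * h + 2
    omega
  · have h1 := sum_pb_law (t := fun m => 6 * m - 1) one_pos log_6
    rw [div_one] at h1
    refine h1.congr (fun h => ?_)
    rw [pow_one]
    congr 2
    refine sum_congr ?_ (fun _ _ => rfl)
    ext j
    simp

theorem law6 (hA : IsCramer μ A) :
    ∀ᵐ ω ∂μ, Tendsto (fun h : ℕ => ((Ws (WP P6) (A ω) h).card : ℝ) * Real.log h ^ 2 / h) atTop (𝓝 1) := by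
  classical
  refine pos_law hA dep_P6 (fun h => 6 * h + 2) 2 one_pos ?_
  filter_upwards [law6a hA] with ω h1
  refine ⟨fun k => 6 * k - 1 ∈ A ω, fun m => 6 * m + 1, fun m a hm => ?_, fun m hm _ => show 3 ≤ 6 * m + 1 by omega,
      fun m m' hm hm' _ _ h => ?_, Eventually.of_forall (fun h m _ hm => ?_), ?_⟩
  · unfold P6
    simp [hm]
  · have : 6 * m + 1 = 6 * m' + 1 := h
    omega
  · show 6 * m + 1 < 6 * h + 2
    omega
  · have hcD : Tendsto (fun h : ℕ => cD (fun k => 6 * k - 1 ∈ A ω) h * Real.log h ^ 1 / h) atTop (𝓝 1) := by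
      refine h1.congr (fun h => ?_)
      have : cD (fun k => 6 * k - 1 ∈ A ω) h = ((Ws (WP P6a) (A ω) h).card : ℝ) := by
        unfold cD Ws
        congr 2
        ext k
        simp only [mem_filter, mem_Icc]
        constructor
        · rintro ⟨h2, h3⟩
          exact ⟨h2, (wp6a h2.1 _).2 h3⟩
        · rintro ⟨h2, h3⟩
          exact ⟨h2, (wp6a h2.1 _).1 h3⟩
      rw [this]
    have hw : Tendsto (fun k : ℕ => pb (6 * k + 1) * Real.log k) atTop (𝓝 1) := by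
      have h2 := (log_affine 6 1 (by norm_num)).inv₀ one_ne_zero
      rw [inv_one] at h2
      refine h2.congr (fun k => ?_)
      unfold pb
      rw [inv_div, one_div_mul_eq_div]
    have h3 := wsum (D := fun k => 6 * k - 1 ∈ A ω) (w := fun k => pb (6 * k + 1)) (a := 1) hcD (B := 2)
      (fun k => pb_nonneg' _) (fun k => pb_le_two _) one_pos hw
    rw [one_mul] at h3
    exact h3

/-- `m` is tested at `b + 2`, where `b` is the element with index `m`. -/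
def P7 (m a : ℕ) (S : Set ℕ) : Prop := ∃ b, b < a ∧ IsEl S m b ∧ a = b + 2

theorem dep_P7 (m a : ℕ) : Dep a (P7 m a) := by
  intro S S' hS
  have key : ∀ S S' : Set ℕ, (∀ j, 3 ≤ j → j < a → (j ∈ S ↔ j ∈ S')) → P7 m a S → P7 m a S' := by
    rintro S S' hS ⟨b, h1, h3, h4⟩
    have e2 : IsEl S m b = IsEl S' m b := dep_isEl h1 S S' hS
    exact ⟨b, h1, e2 ▸ h3, h4⟩
  exact propext ⟨key S S' hS, key S' S (fun j h1 h2 => (hS j h1 h2).symm)⟩

theorem p7_iff {S : Set ℕ} (hS : S.Infinite) {m : ℕ} (hm : 1 ≤ m) (a : ℕ) : P7 m a S ↔ (True ∧ a = el S m + 2) := by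
  have h1 := isEl_el hS hm
  unfold P7
  constructor
  · rintro ⟨b, _, h3, h5⟩
    rw [isEl_unique h3 h1] at h5
    exact ⟨trivial, h5⟩
  · rintro ⟨_, rfl⟩
    exact ⟨_, by omega, h1, rfl⟩

/-- All indices up to `h` are decided below `(h + 2) ^ 3`. -/
def V7 (h : ℕ) (S : Set ℕ) : Prop := ∃ b, b + 3 ≤ (h + 2) ^ 3 ∧ IsEl S h b

theorem dep_V7 (h : ℕ) : Dep ((h + 2) ^ 3) (V7 h) := by
  intro S S' hS
  have key : ∀ S S' : Set ℕ, (∀ j, 3 ≤ j → j < (h + 2) ^ 3 → (j ∈ S ↔ j ∈ S')) → V7 h S → V7 h S' := by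
    rintro S S' hS ⟨b, h1, h3⟩
    have e2 : IsEl S h b = IsEl S' h b := dep_isEl (show b < (h + 2) ^ 3 by omega) S S' hS
    exact ⟨b, h1, e2 ▸ h3⟩
  exact propext ⟨key S S' hS, key S' S (fun j h1 h2 => (hS j h1 h2).symm)⟩

theorem depW7 (h : ℕ) (S S' : Set ℕ) (hV : V7 h S) (hS : ∀ j, 3 ≤ j → j < (h + 2) ^ 3 → (j ∈ S ↔ j ∈ S')) :
    ∀ j, 1 ≤ j → j ≤ h → (WP P7 j S ↔ WP P7 j S') := by
  have hV' : V7 h S' := by
    have e : V7 h S = V7 h S' := dep_V7 h S S' hS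
    exact e ▸ hV
  have key : ∀ S S' : Set ℕ, V7 h S → (∀ j, 3 ≤ j → j < (h + 2) ^ 3 → (j ∈ S ↔ j ∈ S')) →
      ∀ j, 1 ≤ j → j ≤ h → WP P7 j S → WP P7 j S' := by
    rintro S S' ⟨bh, h1, h3⟩ hS j hj1 hj2 ⟨a, ⟨b, h4, h6, h7⟩, h8⟩
    have hb : b ≤ bh := by
      rcases Nat.lt_or_ge j h with h9 | h9
      · exact (isEl_lt h6 h3 h9).le
      · have : j = h := by omega
        rw [this] at h6
        exact (isEl_unique h6 h3).le
    have h10 := h6.1
    have e2 : IsEl S j b = IsEl S' j b := dep_isEl (show b < (h + 2) ^ 3 by omega) S S' hS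
    exact ⟨a, ⟨b, h4, e2 ▸ h6, h7⟩, (hS a (by omega) (by omega)).1 h8⟩
  intro j hj1 hj2
  exact ⟨key S S' hV hS j hj1 hj2, key S' S hV' (fun j h1 h2 => (hS j h1 h2).symm) j hj1 hj2⟩

theorem row7 : Row (WP P7) V7 (fun h => (h + 2) ^ 3) (FlF P2) (fun n => 6 * n + 6) (qF P2) 2 1 := by
  refine rowF fix_two dep_V7 depW7 (fun h => ?_) (fun a b hab => ?_) ⟨3, fun h => ?_⟩
  · have : 2 ^ 3 ≤ (h + 2) ^ 3 := Nat.pow_le_pow_left (by omega) 3
    omega
  · exact Nat.pow_le_pow_left (by omega) 3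
  · push_cast
    exact le_rfl

theorem ae_el1 (hA : IsCramer μ A) (s : ℕ) : ∀ᵐ ω ∂μ, ∀ᶠ h in atTop, el (A ω) (h + s) + 3 ≤ (h + 2) ^ 3 ∧
    (∀ m, 1 ≤ m → m ≤ h → el (A ω) (m + s) + 2 < (h + 2) ^ 3) := by
  filter_upwards [ae_el hA] with ω h1
  obtain ⟨hinf, h1⟩ := h1
  obtain ⟨m0, hm0⟩ := eventually_atTop.1 h1
  filter_upwards [eventually_ge_atTop (m0 + s ^ 2 + s + 2)] with h hh
  have h2 := (hm0 (h + s) (by omega)).2.2
  have h6 : (h + s) ^ 2 + 3 ≤ (h + 2) ^ 3 := by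
    have h7 : (h + 2) ^ 3 = h ^ 3 + 6 * h ^ 2 + 12 * h + 8 := by ring
    have h8 : (h + s) ^ 2 = h ^ 2 + 2 * s * h + s ^ 2 := by ring
    have h9 : s ≤ h := by omega
    have h10 : s * h ≤ h * h := Nat.mul_le_mul_right h h9
    have h11 : h ^ 2 = h * h := sq h
    have h12 : s ^ 2 ≤ h := by omega
    nlinarith [Nat.zero_le (h ^ 3)]
  refine ⟨by omega, fun m hm1 hm2 => ?_⟩
  have h7 := el_mono' hinf (show 1 ≤ m + s by omega) (show m + s ≤ h + s by omega)
  omega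

theorem law7 (hA : IsCramer μ A) :
    ∀ᵐ ω ∂μ, Tendsto (fun h : ℕ => ((Ws (WP P7) (A ω) h).card : ℝ) * Real.log h ^ 1 / h) atTop (𝓝 1) := by
  classical
  refine pos_law hA dep_P7 (fun h => (h + 2) ^ 3) 1 one_pos ?_
  filter_upwards [ae_infinite hA, ae_el1 hA 0, ae_log_el hA] with ω hinf h1 h2
  refine ⟨fun _ => True, fun m => el (A ω) m + 2, fun m a hm => p7_iff hinf hm a, fun m hm _ => ?_,
    fun m m' hm hm' _ _ h => ?_, ?_, ?_⟩
  · have := el_ge3 hinf m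
    show 3 ≤ el (A ω) m + 2
    omega
  · have h3 : el (A ω) m + 2 = el (A ω) m' + 2 := h
    rcases lt_trichotomy m m' with h4 | h4 | h4
    · have := el_lt_el hinf hm h4
      omega
    · exact h4
    · have := el_lt_el hinf hm' h4
      omega
  · filter_upwards [h1] with h h3 m hm1 hm2
    exact h3.2 m hm1 hm2
  · have hlog : Tendsto (fun m : ℕ => Real.log ((el (A ω) m + 2 : ℕ) : ℝ) / Real.log m) atTop (𝓝 1) := by
      have h3 := ((log_affine 1 2 le_rfl).comp (el_top hinf)).mul h2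
      rw [one_mul] at h3
      refine h3.congr' ?_
      filter_upwards [eventually_ge_atTop 1] with m hm
      have h4 := el_ge3 hinf m
      have h6 : 0 < Real.log (el (A ω) m : ℝ) := Real.log_pos (by exact_mod_cast (show 1 < el (A ω) m by omega))
      simp only [Function.comp_apply, one_mul]
      field_simp
    have h3 := sum_pb_law (t := fun m => el (A ω) m + 2) one_pos hlog
    rw [div_one] at h3
    refine h3.congr (fun h => ?_)
    rw [pow_one]
    congr 2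
    refine sum_congr ?_ (fun _ _ => rfl)
    ext j
    simp

theorem v7 (hA : IsCramer μ A) : ∀ᵐ ω ∂μ, ∀ᶠ h in atTop, V7 h (A ω) := by
  filter_upwards [ae_infinite hA, ae_el1 hA 0] with ω hinf h1
  filter_upwards [h1, eventually_ge_atTop 1] with h h2 h3
  exact ⟨_, h2.1, isEl_el hinf h3⟩

end Pool.Agent.Q197.CI
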