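import Pool.Agent.Q197.CI.Poly
import Pool.Agent.Q197.CI.Cea8

/-!
# The elements with `el n + 2 P(n)` an element
-/

set_option autoImplicit false

namespace Pool.Agent.Q197.CI

open Finset Filter MeasureTheory Pool.Agent.Q120.ET Pool.Agent.Q120.MF
open scoped Topology Polynomial

/-- `el n + 2 P(n)` is an element. -/
def Hit (S : Set ℕ) (P : ℚ[X]) (n : ℕ) : Prop := ∃ a ∈ S, (a : ℚ) = el S n + 2 * P.eval (n : ℚ)

theorem hit_iff {S : Set ℕ} {P : ℚ[X]} {c : ℕ → ℕ} {m0 : ℕ} (hc : ∀ m, m0 ≤ m → ((c m : ℕ) : ℚ) = 2 * P.eval (m : ℚ))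
    {n : ℕ} (hn : m0 ≤ n) : Hit S P n ↔ el S n + c n ∈ S := by
  unfold Hit
  rw [← hc n hn]
  constructor
  · rintro ⟨a, h1, h2⟩
    have h3 : a = el S n + c n := by exact_mod_cast h2
    rw [← h3]
    exact h1
  · intro h
    exact ⟨_, h, by push_cast; ring⟩

/-- The test of `n` at `b + c n`, `b` the element with index `n ≥ m0`. -/
def Pc (c : ℕ → ℕ) (m0 n a : ℕ) (S : Set ℕ) : Prop := m0 ≤ n ∧ ∃ b, b < a ∧ IsEl S n b ∧ a = b + c n

theorem dep_Pc (c : ℕ → ℕ) (m0 n a : ℕ) : Dep a (Pc c m0 n a) := by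
  intro S S' hS
  have key : ∀ S S' : Set ℕ, (∀ j, 3 ≤ j → j < a → (j ∈ S ↔ j ∈ S')) → Pc c m0 n a S → Pc c m0 n a S' := by
    rintro S S' hS ⟨h0, b, h1, h3, h4⟩
    have e2 : IsEl S n b = IsEl S' n b := dep_isEl h1 S S' hS
    exact ⟨h0, b, h1, e2 ▸ h3, h4⟩
  exact propext ⟨key S S' hS, key S' S (fun j h1 h2 => (hS j h1 h2).symm)⟩

theorem pc_iff {S : Set ℕ} (hS : S.Infinite) {c : ℕ → ℕ} (hc : ∀ m, 1 ≤ c m) {m0 n : ℕ} (hn : 1 ≤ n) (a : ℕ) :
    Pc c m0 n a S ↔ (m0 ≤ n ∧ a = el S n + c n) := by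
  have h1 := isEl_el hS hn
  unfold Pc
  constructor
  · rintro ⟨h0, b, _, h3, h5⟩
    rw [isEl_unique h3 h1] at h5
    exact ⟨h0, h5⟩
  · rintro ⟨h0, rfl⟩
    have := hc n
    exact ⟨h0, _, by omega, h1, rfl⟩

theorem wpc_iff {S : Set ℕ} (hS : S.Infinite) {c : ℕ → ℕ} (hc : ∀ m, 1 ≤ c m) {m0 n : ℕ} (hn : 1 ≤ n) :
    WP (Pc c m0) n S ↔ (m0 ≤ n ∧ el S n + c n ∈ S) := by
  unfold WP
  constructor
  · rintro ⟨a, h1, h2⟩
    obtain ⟨h3, h4⟩ := (pc_iff hS hc hn a).1 h1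
    rw [h4] at h2
    exact ⟨h3, h2⟩
  · exact fun h => ⟨_, (pc_iff hS hc hn _).2 ⟨h.1, rfl⟩, h.2⟩

theorem cD_ge (m0 : ℕ) : Tendsto (fun h : ℕ => cD (fun m => m0 ≤ m) h * Real.log h ^ 0 / h) atTop (𝓝 1) := by
  classical
  have h1 : Tendsto (fun h : ℕ => 1 - (m0 : ℝ) / h) atTop (𝓝 1) := by
    have := (tendsto_const_nhds (x := (m0 : ℝ))).div_atTop tendsto_natCast_atTop_atTop
    have h3 := (tendsto_const_nhds (x := (1 : ℝ))).sub this
    rw [sub_zero] at h3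
    exact h3
  refine tendsto_of_tendsto_of_tendsto_of_le_of_le' h1 tendsto_const_nhds ?_ ?_
  · filter_upwards [eventually_ge_atTop 1] with h hh
    have hh0 : (0 : ℝ) < h := by exact_mod_cast hh
    rw [pow_zero, mul_one, le_div_iff₀ hh0, sub_mul, div_mul_cancel₀ _ hh0.ne', one_mul]
    have h2 : h ≤ ((Icc 1 h).filter (fun m => m0 ≤ m)).card + m0 := by
      have h3 : Icc 1 h ⊆ (Icc 1 h).filter (fun m => m0 ≤ m) ∪ range m0 := by
        intro m hm
        rw [mem_union, mem_filter, mem_range]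
        by_cases h4 : m0 ≤ m
        · exact Or.inl ⟨hm, h4⟩
        · exact Or.inr (by omega)
      have h4 := (card_le_card h3).trans (card_union_le _ _)
      rw [Nat.card_Icc, card_range] at h4
      omega
    have h3 : (h : ℝ) ≤ cD (fun m => m0 ≤ m) h + m0 := by
      unfold cD
      have e : ((Icc 1 h).filter (fun m => m0 ≤ m)).card = (@filter _ (fun m => m0 ≤ m) (fun a => Classical.propDecidable _) (Icc 1 h)).card := by
        congr
      rw [e] at h2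
      exact_mod_cast h2
    linarith
  · filter_upwards [eventually_ge_atTop 1] with h hh
    have hh0 : (0 : ℝ) < h := by exact_mod_cast hh
    rw [pow_zero, mul_one, div_le_one hh0]
    unfold cD
    have h2 := card_filter_le (Icc 1 h) (fun m => m0 ≤ m)
    rw [Nat.card_Icc] at h2
    have e : ((Icc 1 h).filter (fun m => m0 ≤ m)).card = (@filter _ (fun m => m0 ≤ m) (fun a => Classical.propDecidable _) (Icc 1 h)).card := by
      congr
    rw [e] at h2
    exact_mod_cast (by omega : (@filter _ (fun m => m0 ≤ m) (fun a => Classical.propDecidable _) (Icc 1 h)).card ≤ h)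

variable {Ω : Type*} [MeasurableSpace Ω] {μ : Measure Ω} [IsProbabilityMeasure μ] {A : Ω → Set ℕ}

theorem lawPc (hA : IsCramer μ A) {c : ℕ → ℕ} (hc : ∀ m, 1 ≤ c m) (hmono : Monotone c) (m0 : ℕ) {d : ℝ}
    (hlog : Tendsto (fun m : ℕ => Real.log (c m) / Real.log m) atTop (𝓝 d)) :
    ∀ᵐ ω ∂μ, Tendsto (fun h : ℕ => ((Ws (WP (Pc c m0)) (A ω) h).card : ℝ) * Real.log h ^ 1 / h) atTop
      (𝓝 (1 / max 1 d)) := by
  classical
  have hκ : 0 < max 1 d := lt_of_lt_of_le one_pos (le_max_left _ _)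
  refine pos_law hA (dep_Pc c m0) (fun h => (h + 2) ^ 3 + c h) 1 (by positivity) ?_
  filter_upwards [ae_infinite hA, ae_el1 hA 0, ae_log_el hA] with ω hinf h1 h2
  refine ⟨fun n => m0 ≤ n, fun n => el (A ω) n + c n, fun m a hm => pc_iff hinf hc hm a, fun m hm _ => ?_,
    fun m m' hm hm' _ _ h => ?_, ?_, ?_⟩
  · have := el_ge3 hinf m
    show 3 ≤ el (A ω) m + c m
    omega
  · have h3 : el (A ω) m + c m = el (A ω) m' + c m' := h
    rcases lt_trichotomy m m' with h4 | h4 | h4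
    · have := el_lt_el hinf hm h4
      have := hmono h4.le
      omega
    · exact h4
    · have := el_lt_el hinf hm' h4
      have := hmono h4.le
      omega
  · filter_upwards [h1] with h h3 m hm1 hm2
    have h4 := h3.2 m hm1 hm2
    have h5 := hmono hm2
    show el (A ω) m + c m < (h + 2) ^ 3 + c h
    rw [add_zero] at h4
    omega
  · have hl1 := log_sum (u := fun m => el (A ω) m) (v := c) (fun m _ => by have := el_ge3 hinf m; omega) (fun m _ => hc m) h2 hlog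
    have hw : Tendsto (fun k : ℕ => pb (el (A ω) k + c k) * Real.log k) atTop (𝓝 (1 / max 1 d)) := by
      have h3 := hl1.inv₀ hκ.ne'
      rw [← one_div] at h3
      refine h3.congr (fun k => ?_)
      unfold pb
      rw [inv_div, one_div_mul_eq_div]
    have h3 := wsum (D := fun n => m0 ≤ n) (w := fun n => pb (el (A ω) n + c n)) (a := 0) (cD_ge m0) (B := 2)
      (fun k => pb_nonneg' _) (fun k => pb_le_two _) (by positivity) hw
    rw [one_mul] at h3
    exact h3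

theorem cntP_close {P Q : ℕ → Prop} {m0 : ℕ} (h : ∀ n, m0 ≤ n → (P n ↔ Q n)) (N : ℕ) :
    |cntP P N - cntP Q N| ≤ 2 * (m0 + 1) := by
  have h1 := cntP_near (P := P) (E := fun n _ => Q n) (S := ∅) (n0 := m0) h N
  have h2 := cntP_near (P := Q) (E := fun n _ => Q n) (S := ∅) (n0 := m0) (fun n _ => Iff.rfl) N
  rw [abs_le] at h1 h2 ⊢
  constructor <;> linarith [h1.1, h1.2, h2.1, h2.2]

theorem cntP_ws (W : ℕ → Set ℕ → Prop) (S : Set ℕ) (N : ℕ) : cntP (fun n => W n S) N = ((Ws W S N).card : ℝ) := by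
  unfold cntP
  rw [← Set.ncard_coe_finset]
  congr 2
  ext n
  rw [mem_coe, mem_Ws]
  simp only [Set.mem_ofPred_eq]
  tauto

/-- The number of hits. -/
theorem hit_count (hA : IsCramer μ A) {P : ℚ[X]} (hP : IntValued P) (hlc : 0 < P.leadingCoeff) :
    ∀ᵐ ω ∂μ, Tendsto (fun N : ℕ => cntP (Hit (A ω) P) N * Real.log N / N) atTop (𝓝 (1 / max 1 (P.natDegree : ℝ))) := by
  obtain ⟨c, m0, hc1, hmono, hc, _, hlog⟩ := poly_data hP hlc
  filter_upwards [lawPc hA hc1 hmono m0 hlog, ae_infinite hA] with ω h1 hinf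
  have h2 : Tendsto (fun N : ℕ => (cntP (Hit (A ω) P) N - ((Ws (WP (Pc c m0)) (A ω) N).card : ℝ)) * Real.log N / N)
      atTop (𝓝 0) := by
    have h3 : Tendsto (fun N : ℕ => (2 * ((m0 + 1 : ℕ) + 1 : ℝ)) * ((N : ℝ) / Real.log N ^ 1)⁻¹) atTop (𝓝 0) := by
      have := ((x_div_log_pow 1).inv_tendsto_atTop).const_mul (2 * ((m0 + 1 : ℕ) + 1 : ℝ))
      rw [mul_zero] at this
      exact this
    refine squeeze_zero_norm' ?_ h3
    filter_upwards [hl.eventually_gt_atTop 0, eventually_ge_atTop 1] with N h4 h5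
    rw [← cntP_ws (WP (Pc c m0)) (A ω) N, Real.norm_eq_abs, abs_div, abs_mul, abs_of_pos h4, Nat.abs_cast, pow_one, inv_div,
      ← mul_div_assoc]
    refine div_le_div_of_nonneg_right (mul_le_mul_of_nonneg_right ?_ h4.le) (Nat.cast_nonneg _)
    refine cntP_close (m0 := m0 + 1) (fun n hn => ?_) N
    rw [wpc_iff hinf hc1 (by omega), hit_iff hc (show m0 ≤ n by omega)]
    constructor
    · exact fun h => ⟨by omega, h⟩
    · exact fun h => h.2
  have h3 := h1.add h2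
  rw [add_zero] at h3
  refine h3.congr (fun N => ?_)
  rw [pow_one]
  ring

/-- The row of tests. -/
theorem rowPc {c : ℕ → ℕ} (hc : ∀ m, 1 ≤ c m) (hmono : Monotone c) {D : ℕ} (hD : 1 ≤ D)
    (hle : ∃ s : ℕ, ∀ m, c m ≤ m ^ D + s) {d : ℝ} (hlog : Tendsto (fun m : ℕ => Real.log (c m) / Real.log m) atTop (𝓝 d)) :
    Row (fun _ _ => True) (fun _ _ => True) (fun _ => 3) (FlJ (fun n j => n + j) (fun m a => a + c m)) (XJ D)
      (qJ (fun n j => n + j) (fun m a => a + c m)) 1 (max 1 d) := by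
  have hfp : Tendsto (fun m : ℕ => Real.log ((fp m + c m : ℕ) : ℝ) / Real.log m) atTop (𝓝 (max 1 d)) :=
    log_sum (u := fp) (v := c) (fun m hm => hm.trans (le_fp m)) (fun m _ => hc m) log_fp_ratio hlog
  refine rowJ (tgI_add hc hmono hD hle (lt_of_lt_of_le one_pos (le_max_left _ _)) hfp) idx_add
    (fun _ => dep_const True) (fun h S S' _ _ j _ _ => Iff.rfl) (fun _ => le_rfl) (fun a b _ => le_rfl) ⟨2, fun h => ?_⟩
  push_cast
  have : (0 : ℝ) ≤ h := Nat.cast_nonneg _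
  nlinarith

/-- No hit in `(n, n + y]`. -/
def NoHit (S : Set ℕ) (P : ℚ[X]) (n : ℕ) (y : ℝ) : Prop := ∀ m : ℕ, n < m → (m : ℝ) ≤ n + y → ¬ Hit S P m

theorem noHit_iff (S : Set ℕ) (P : ℚ[X]) (n : ℕ) (y : ℝ) : NoHit S P n y ↔ NoSol (fun n j => Hit S P (n + j)) n y := by
  unfold NoHit NoSol
  constructor
  · intro h j hj1 hj2
    exact h (n + j) (by omega) (by push_cast; linarith)
  · intro h m hm1 hm2
    have h1 := h (m - n) (by omega) (by
      rw [Nat.cast_sub hm1.le]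
      linarith)
    have e : n + (m - n) = m := by omega
    have h2 : ¬ Hit S P (n + (m - n)) := h1
    rw [e] at h2
    exact h2

/-- The laws. -/
theorem hit_laws (hA : IsCramer μ A) {P : ℚ[X]} (hP : IntValued P) (hlc : 0 < P.leadingCoeff) {κ : ℝ}
    (hκ : κ = max 1 (P.natDegree : ℝ)) :
    (∀ c : ℝ, κ < c → ∀ᵐ ω ∂μ, ∀ᶠ n : ℕ in atTop, ¬ NoHit (A ω) P n (c * Real.log n ^ 2)) ∧
    (∀ c : ℝ, 0 < c → c < κ → ∀ᵐ ω ∂μ, Tendsto (fun N : ℕ =>
      Real.log (cntP (fun n => NoHit (A ω) P n (c * Real.log n ^ 2)) N) / Real.log N) atTop (𝓝 (1 - c / κ))) ∧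
    (∀ t : ℝ, 0 < t → ∀ᵐ ω ∂μ, Tendsto (fun N : ℕ =>
      cntP (fun n => NoHit (A ω) P n (t * Real.log n)) N / N) atTop (𝓝 (Real.exp (-(t / κ))))) := by
  obtain ⟨c, m0, hc1, hmono, hc, hle, hlog⟩ := poly_data hP hlc
  have hR := rowPc hc1 hmono (D := P.natDegree + 1) (by omega) hle hlog
  have hW : ∀ᵐ ω ∂μ, Tendsto (fun k : ℕ => ((Ws (fun _ _ => True) (A ω) k).card : ℝ) * Real.log k ^ 0 / k) atTop (𝓝 1) := by
    refine Eventually.of_forall (fun ω => ?_)
    refine (tendsto_const_nhds (x := (1 : ℝ))).congr' ?_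
    filter_upwards [eventually_ge_atTop 1] with k hk
    have : (Ws (fun _ _ => True) (A ω) k).card = k := by
      unfold Ws
      simp
    rw [this, pow_zero, mul_one, div_self]
    exact_mod_cast (show k ≠ 0 by omega)
  have hSol : ∀ᵐ ω ∂μ, ∀ M : ℕ, ∀ᶠ n : ℕ in atTop, ∀ j : ℕ, 1 ≤ j → (j : ℝ) ≤ Real.log n ^ M →
      ((fun S n j => Hit S P (n + j)) (A ω) n j ↔ ((fun _ _ => True) j (A ω) ∧
        ¬ FlJ (fun n j => n + j) (fun m a => a + c m) n j (A ω))) := by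
    filter_upwards [ae_flJ hA idx_add (fun m a => a + c m)] with ω h1 M
    filter_upwards [h1 M, eventually_ge_atTop m0] with n h2 h3 j hj1 hj2
    have h4 := h2 j hj1 hj2
    rw [h4, true_and]
    exact hit_iff hc (show m0 ≤ n + j by omega)
  obtain ⟨h1, h2, h3⟩ := hR.final hA 0 hW (Eventually.of_forall (fun _ => Eventually.of_forall (fun _ => trivial)))
    (fun S n j => Hit S P (n + j)) hSol
  have hk0 : 0 < κ := by rw [hκ]; exact lt_of_lt_of_le one_pos (le_max_left _ _)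
  rw [← hκ] at h1 h2 h3
  simp only [pow_zero, mul_one] at h1 h2 h3
  refine ⟨fun c hc => ?_, fun c hc0 hc => ?_, fun t ht => ?_⟩
  · simp only [noHit_iff]
    exact h1 c hc
  · simp only [noHit_iff]
    exact h2 c hc0 hc
  · simp only [noHit_iff]
    have := h3 t ht
    simp only [pow_one] at this
    exact this

/-- All polynomials at once. -/
theorem hit_all (hA : IsCramer μ A) : ∀ᵐ ω ∂μ, ∀ P : ℚ[X], IntValued P → 0 < P.leadingCoeff →
    Tendsto (fun N : ℕ => cntP (Hit (A ω) P) N * Real.log N / N) atTop (𝓝 (1 / max 1 (P.natDegree : ℝ))) ∧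
    ∀ c : ℝ, max 1 (P.natDegree : ℝ) < c → ∀ᶠ n : ℕ in atTop,
      ∃ m : ℕ, n < m ∧ (m : ℝ) ≤ n + c * Real.log n ^ 2 ∧ Hit (A ω) P m := by
  have := countable_poly
  have h1 : ∀ᵐ ω ∂μ, ∀ P : ℚ[X], IntValued P → 0 < P.leadingCoeff →
      Tendsto (fun N : ℕ => cntP (Hit (A ω) P) N * Real.log N / N) atTop (𝓝 (1 / max 1 (P.natDegree : ℝ))) := by
    rw [ae_all_iff]
    intro P
    by_cases h2 : IntValued P ∧ 0 < P.leadingCoeff
    · filter_upwards [hit_count hA h2.1 h2.2] with ω h3 _ _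
      exact h3
    · exact Eventually.of_forall (fun ω h3 h4 => absurd ⟨h3, h4⟩ h2)
  have h2 : ∀ᵐ ω ∂μ, ∀ P : ℚ[X], ∀ k : ℕ, IntValued P → 0 < P.leadingCoeff →
      ∀ᶠ n : ℕ in atTop, ¬ NoHit (A ω) P n ((max 1 (P.natDegree : ℝ) + 1 / ((k : ℝ) + 1)) * Real.log n ^ 2) := by
    rw [ae_all_iff]
    intro P
    rw [ae_all_iff]
    intro k
    by_cases h2 : IntValued P ∧ 0 < P.leadingCoeff
    · have h4 : max 1 (P.natDegree : ℝ) < max 1 (P.natDegree : ℝ) + 1 / ((k : ℝ) + 1) := by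
        have : 0 < 1 / ((k : ℝ) + 1) := by positivity
        linarith
      filter_upwards [(hit_laws hA h2.1 h2.2 rfl).1 _ h4] with ω h3 _ _
      exact h3
    · exact Eventually.of_forall (fun ω h3 h4 => absurd ⟨h3, h4⟩ h2)
  filter_upwards [h1, h2] with ω h3 h4 P hP hlc
  refine ⟨h3 P hP hlc, fun c hc => ?_⟩
  obtain ⟨k, hk⟩ := exists_nat_one_div_lt (show 0 < c - max 1 (P.natDegree : ℝ) by linarith)
  filter_upwards [h4 P k hP hlc] with n h5
  unfold NoHit at h5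
  push Not at h5
  obtain ⟨m, h6, h7, h8⟩ := h5
  refine ⟨m, h6, h7.trans ?_, h8⟩
  have h9 : (max 1 (P.natDegree : ℝ) + 1 / ((k : ℝ) + 1)) * Real.log n ^ 2 ≤ c * Real.log n ^ 2 :=
    mul_le_mul_of_nonneg_right (by linarith) (by positivity)
  linarith

end Pool.Agent.Q197.CI
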