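import Pool.Agent.Q197.CI.AsN

/-!
# `2 k + 1` and the square of the element with index `k n`, minus two
-/

set_option autoImplicit false

namespace Pool.Agent.Q197.CI

open Finset Filter MeasureTheory Pool.Agent.Q120.ET Pool.Agent.Q120.MF
open scoped Topology

theorem scale_le (c : ℝ) (γ a : ℕ) : ∀ᶠ n : ℕ in atTop, c * (Real.log n ^ γ * Real.log (Real.log n) ^ a) ≤ n := by
  filter_upwards [us_le c γ a, pow_log_le (γ + a + 1)] with n h1 h2
  exact h1.trans h2

/-- `k` is tested at the number `2 k + 1`. -/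
def P971 (m a : ℕ) (_ : Set ℕ) : Prop := a = 2 * m + 1

theorem wp971 (m : ℕ) (S : Set ℕ) : WP P971 m S ↔ 2 * m + 1 ∈ S := by
  unfold WP P971
  constructor
  · rintro ⟨a, rfl, h⟩
    exact h
  · exact fun h => ⟨_, rfl, h⟩

theorem row971 : Row (WP P971) (fun _ _ => True) (fun h => 2 * h + 3) (FlI (fun n j => j * n) G2) XI
    (qI (fun n j => j * n) G2) 1 2 := by
  refine rowI tgt_sq idx_mul (fun _ => dep_const True) ?_ (fun _ => by omega) (fun a b hab => by
    show 2 * a + 3 ≤ 2 * b + 3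
    omega) ⟨2, fun h => ?_⟩
  · intro h S S' _ hS j hj1 hj2
    rw [wp971, wp971]
    exact hS (2 * j + 1) (by omega) (by omega)
  · push_cast
    have : (0 : ℝ) ≤ h := Nat.cast_nonneg _
    nlinarith

theorem log_affine (c d : ℕ) (hc : 1 ≤ c) : Tendsto (fun m : ℕ => Real.log ((c * m + d : ℕ) : ℝ) / Real.log m) atTop (𝓝 1) := by
  have hc0 : (0 : ℝ) < c := by exact_mod_cast (show 0 < c by omega)
  have h1 : Tendsto (fun m : ℕ => (c : ℝ) + (d : ℝ) / m) atTop (𝓝 (c + 0)) :=
    tendsto_const_nhds.add (tendsto_const_nhds.div_atTop tendsto_natCast_atTop_atTop)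
  rw [add_zero] at h1
  have h2 := ((Real.continuousAt_log hc0.ne').tendsto.comp h1).div_atTop hl
  have h3 := h2.const_add 1
  rw [add_zero] at h3
  refine h3.congr' ?_
  filter_upwards [hl.eventually_gt_atTop 0, eventually_ge_atTop 1] with m h4 h5
  have hm0 : (0 : ℝ) < m := by exact_mod_cast h5
  simp only [Function.comp_apply]
  have h6 : ((c * m + d : ℕ) : ℝ) = m * (c + (d : ℝ) / m) := by
    push_cast
    field_simp
  rw [h6, Real.log_mul hm0.ne' (by positivity), add_div, div_self h4.ne']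

variable {Ω : Type*} [MeasurableSpace Ω] {μ : Measure Ω} [IsProbabilityMeasure μ] {A : Ω → Set ℕ}

theorem law971 (hA : IsCramer μ A) :
    ∀ᵐ ω ∂μ, Tendsto (fun h : ℕ => ((Ws (WP P971) (A ω) h).card : ℝ) * Real.log h ^ 1 / h) atTop (𝓝 1) := by
  classical
  refine pos_law hA (fun _ _ _ _ _ => rfl) (fun h => 2 * h + 2) 1 one_pos (Eventually.of_forall (fun ω =>
    ⟨fun _ => True, fun m => 2 * m + 1, fun m a _ => ?_, fun m hm _ => show 3 ≤ 2 * m + 1 by omega, fun m m' _ _ _ _ h => ?_,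
      Eventually.of_forall (fun h m _ hm => ?_), ?_⟩))
  · unfold P971
    simp
  · have : 2 * m + 1 = 2 * m' + 1 := h
    omega
  · show 2 * m + 1 < 2 * h + 2
    omega
  · have h1 := sum_pb_law (t := fun m => 2 * m + 1) one_pos (log_affine 2 1 (by norm_num))
    rw [div_one] at h1
    refine h1.congr (fun h => ?_)
    rw [pow_one]
    congr 2
    refine sum_congr ?_ (fun _ _ => rfl)
    ext j
    simp

theorem log_g2 : Tendsto (fun b : ℕ => Real.log (G2 b) / Real.log b) atTop (𝓝 2) := by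
  have h1 : Tendsto (fun b : ℕ => (2 : ℝ) / (b : ℝ) ^ 2) atTop (𝓝 0) :=
    tendsto_const_nhds.div_atTop ((tendsto_pow_atTop (by norm_num)).comp tendsto_natCast_atTop_atTop)
  have h2 : Tendsto (fun b : ℕ => Real.log (1 - (2 : ℝ) / (b : ℝ) ^ 2)) atTop (𝓝 0) := by
    have := (Real.continuousAt_log (show (1 - 0 : ℝ) ≠ 0 by norm_num)).tendsto.comp (h1.const_sub 1)
    simp only [sub_zero, Real.log_one] at this
    exact this
  have h3 := (h2.div_atTop hl).const_add 2
  rw [add_zero] at h3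
  refine h3.congr' ?_
  filter_upwards [eventually_ge_atTop 3, hl.eventually_gt_atTop 0] with b hb hlb
  have hb0 : (0 : ℝ) < b := by exact_mod_cast (show 0 < b by omega)
  have h4 : 3 * b ≤ b ^ 2 := by nlinarith
  have hc2 : ((b ^ 2 - 2 : ℕ) : ℝ) = (b : ℝ) ^ 2 - 2 := by
    rw [Nat.cast_sub (by omega)]
    push_cast
    ring
  have hb3 : (3 : ℝ) ≤ b := by exact_mod_cast hb
  have h5 : 0 < 1 - (2 : ℝ) / (b : ℝ) ^ 2 := by
    have : (2 : ℝ) / (b : ℝ) ^ 2 < 1 := by
      rw [div_lt_one (by positivity)]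
      nlinarith
    linarith
  rw [g2_of_ge (by omega), hc2]
  have h6 : (b : ℝ) ^ 2 - 2 = (b : ℝ) ^ 2 * (1 - (2 : ℝ) / (b : ℝ) ^ 2) := by
    field_simp
  rw [h6, Real.log_mul (by positivity) h5.ne', Real.log_pow, add_div]
  push_cast
  rw [mul_div_assoc, div_self hlb.ne', mul_one]

theorem el_ge3 {S : Set ℕ} (hS : S.Infinite) (m : ℕ) : 3 ≤ el S m := by
  rcases Nat.eq_zero_or_pos m with h | h
  · subst h
    have h1 : el S 0 = el S 1 := rfl
    rw [h1]
    exact (isEl_el hS le_rfl).1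
  · exact (isEl_el hS h).1

theorem el_top {S : Set ℕ} (hS : S.Infinite) : Tendsto (el S) atTop atTop := by
  refine tendsto_atTop_mono' _ ?_ tendsto_id
  filter_upwards [eventually_ge_atTop 1] with m hm
  have := el_ge hS hm
  simp only [id]
  omega

theorem el_mono' {S : Set ℕ} (hS : S.Infinite) {m m' : ℕ} (hm : 1 ≤ m) (h : m ≤ m') : el S m ≤ el S m' := by
  rcases Nat.lt_or_ge m m' with h1 | h1
  · exact (el_lt_el hS hm h1).le
  · rw [show m = m' by omega]

/-- The tested number for `n` and `k`. -/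
def Q971 (n k a : ℕ) (S : Set ℕ) : Prop := 2 * k + 1 < a ∧ 2 * k + 1 ∈ S ∧ ∃ b, b < a ∧ IsEl S (k * n) b ∧ a = G2 b

theorem dep_Q971 (n k a : ℕ) : Dep a (Q971 n k a) := by
  intro S S' hS
  have key : ∀ S S' : Set ℕ, (∀ j, 3 ≤ j → j < a → (j ∈ S ↔ j ∈ S')) → Q971 n k a S → Q971 n k a S' := by
    rintro S S' hS ⟨h1, h2, b, h3, h4, h5⟩
    have hk : 1 ≤ k := by
      have := isEl_pos h4
      by_contra hcon
      have : k = 0 := by omega
      subst this
      omega
    refine ⟨h1, (hS _ (by omega) h1).1 h2, b, h3, ?_, h5⟩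
    have h6 : IsEl S (k * n) b = IsEl S' (k * n) b := dep_isEl h3 S S' hS
    rw [← h6]
    exact h4
  exact propext ⟨key S S' hS, key S' S (fun j h1 h2 => (hS j h1 h2).symm)⟩

theorem total971 (hA : IsCramer μ A) : ∀ᵐ ω ∂μ, Tendsto (fun n : ℕ =>
    (({k : ℕ | 1 ≤ k ∧ k ≤ n ∧ 2 * k + 1 ∈ A ω ∧ el (A ω) (k * n) ^ 2 - 2 ∈ A ω}.ncard : ℝ)) * Real.log n ^ 2 / n) atTop
    (𝓝 (1 / 4)) := by
  classical
  have hae : ∀ᵐ ω ∂μ, ∀ᶠ n : ℕ in atTop, (∀ m a, 1 ≤ m → (Q971 n m a (A ω) ↔ (2 * m + 1 ∈ A ω ∧ a = G2 (el (A ω) (m * n))))) ∧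
      (∀ m, 1 ≤ m → m ≤ n → 2 * m + 1 ∈ A ω → 3 ≤ G2 (el (A ω) (m * n)) ∧ G2 (el (A ω) (m * n)) < n ^ 8 + 1) ∧
      (∀ m m', 1 ≤ m → 1 ≤ m' → 2 * m + 1 ∈ A ω → 2 * m' + 1 ∈ A ω → G2 (el (A ω) (m * n)) = G2 (el (A ω) (m' * n)) →
        m = m') := by
    filter_upwards [ae_el hA] with ω h1
    obtain ⟨hinf, h1⟩ := h1
    obtain ⟨m0, hm0⟩ := eventually_atTop.1 h1
    filter_upwards [eventually_ge_atTop (m0 + 1)] with n hn
    refine ⟨fun m a hm => ?_, fun m hm1 hm2 _ => ?_, fun m m' hm hm' _ _ h => ?_⟩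
    · have hmn : 1 ≤ m * n := Nat.mul_pos hm (by omega)
      have h2 := isEl_el hinf hmn
      constructor
      · rintro ⟨_, h3, b, _, h4, h5⟩
        rw [isEl_unique h4 h2] at h5
        exact ⟨h3, h5⟩
      · rintro ⟨h3, rfl⟩
        have h4 := el_ge hinf hmn
        have h5 : m ≤ m * n := Nat.le_mul_of_pos_right m (by omega)
        have h6 := tgt_sq.gt (el (A ω) (m * n)) (by omega)
        refine ⟨?_, h3, _, h6, h2, rfl⟩
        rw [g2_of_ge (by omega)]
        have h7 : (m + 2) ^ 2 ≤ el (A ω) (m * n) ^ 2 := Nat.pow_le_pow_left (by omega) 2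
        have h8 : (m + 2) ^ 2 = m ^ 2 + 4 * m + 4 := by ring
        omega
    · have hmn : 1 ≤ m * n := Nat.mul_pos hm1 (by omega)
      have h4 := el_ge hinf hmn
      have h6 := tgt_sq.gt (el (A ω) (m * n)) (by omega)
      refine ⟨by omega, ?_⟩
      have h7 : m * n ≤ n ^ 2 := by
        rw [sq]
        exact Nat.mul_le_mul_right n hm2
      have h8 := el_mono' hinf hmn h7
      have h9 : n ≤ n ^ 2 := Nat.le_self_pow (by norm_num) n
      have h10 := (hm0 (n ^ 2) (by omega)).2.2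
      have h11 : el (A ω) (m * n) ^ 2 ≤ n ^ 8 := by
        calc el (A ω) (m * n) ^ 2 ≤ ((n ^ 2) ^ 2) ^ 2 := Nat.pow_le_pow_left (h8.trans h10) 2
          _ = n ^ 8 := by ring
      rw [g2_of_ge (by omega)]
      omega
    · have h2 : el (A ω) (m * n) = el (A ω) (m' * n) := tgt_sq.mono.injective h
      have hmn : 1 ≤ m * n := Nat.mul_pos hm (by omega)
      have hmn' : 1 ≤ m' * n := Nat.mul_pos hm' (by omega)
      have h3 : m * n = m' * n := by
        rcases lt_trichotomy (m * n) (m' * n) with h4 | h4 | h4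
        · have := el_lt_el hinf hmn h4
          omega
        · exact h4
        · have := el_lt_el hinf hmn' h4
          omega
      exact Nat.eq_of_mul_eq_mul_right (show 0 < n by omega) h3
  have h1 := chern_as hA (fun n => HP (Q971 n) n) (fun n a _ => dep_HP (dep_Q971 n) n a) (fun n => n ^ 8 + 1)
    (fun n : ℕ => (n : ℝ) / Real.log n ^ 2) ?_ (show (0 : ℝ) < 1 / 4 by norm_num) ?_
  · filter_upwards [h1, hae] with ω h2 h3
    refine h2.congr' ?_
    filter_upwards [h3, hl.eventually_gt_atTop 0] with n h4 h5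
    rw [hits_HP h4.1 h4.2.1 h4.2.2]
    have h6 : ({k : ℕ | 1 ≤ k ∧ k ≤ n ∧ 2 * k + 1 ∈ A ω ∧ el (A ω) (k * n) ^ 2 - 2 ∈ A ω}.ncard) =
        (Ws (WP (Q971 n)) (A ω) n).card := by
      rw [← Set.ncard_coe_finset]
      congr 1
      ext k
      rw [mem_coe, mem_Ws]
      simp only [Set.mem_ofPred_eq]
      constructor
      · rintro ⟨h7, h8, h9, h10⟩
        refine ⟨⟨h7, h8⟩, G2 (el (A ω) (k * n)), (h4.1 k _ h7).2 ⟨h9, rfl⟩, ?_⟩
        have h11 : 2 ≤ el (A ω) (k * n) := by
          by_contra hcon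
          have h12 := (h4.2.1 k h7 h8 h9).1
          unfold G2 at h12
          split_ifs at h12 <;> omega
        rw [g2_of_ge h11]
        exact h10
      · rintro ⟨⟨h7, h8⟩, a, h9, h10⟩
        obtain ⟨h11, h12⟩ := (h4.1 k a h7).1 h9
        refine ⟨h7, h8, h11, ?_⟩
        have h13 : 2 ≤ el (A ω) (k * n) := by
          by_contra hcon
          have h12 := (h4.2.1 k h7 h8 h11).1
          unfold G2 at h12
          split_ifs at h12 <;> omega
        rw [h12, g2_of_ge h13] at h10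
        exact h10
    rw [h6]
    field_simp
  · refine (x_div_log_pow 3).congr (fun h => ?_)
    rw [div_div, pow_succ]
  · filter_upwards [hae, law971 hA, ae_log_el hA, ae_el hA] with ω h2 h3 h4 h5
    obtain ⟨hinf, _⟩ := h5
    have hcD : Tendsto (fun h : ℕ => cD (fun k => 2 * k + 1 ∈ A ω) h * Real.log h ^ 1 / h) atTop (𝓝 1) := by
      refine h3.congr (fun h => ?_)
      have : cD (fun k => 2 * k + 1 ∈ A ω) h = ((Ws (WP P971) (A ω) h).card : ℝ) := by
        unfold cD Ws
        congr 2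
        ext k
        rw [mem_filter, mem_filter, wp971]
      rw [this]
    have hlog : Tendsto (fun m : ℕ => Real.log (G2 (el (A ω) m)) / Real.log m) atTop (𝓝 2) := by
      have h6 := (log_g2.comp (el_top hinf)).mul h4
      rw [mul_one] at h6
      refine h6.congr' ?_
      filter_upwards [eventually_ge_atTop 1] with m hm
      simp only [Function.comp_apply]
      have h7 : 0 < Real.log (el (A ω) m : ℝ) := Real.log_pos (by exact_mod_cast (show 1 < el (A ω) m by have := el_ge3 hinf m; omega))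
      field_simp
    have hsum := wsum2 (D := fun k => 2 * k + 1 ∈ A ω) (w := fun n k => pb (G2 (el (A ω) (k * n)))) (a := 1) (κ := 1 / 4)
      hcD (B := pb 3) (fun h k => (pb_pos (by
        have h6 := el_ge3 hinf (k * h)
        have h7 := tgt_sq.gt _ h6
        omega)).le) (fun h k => pb_anti le_rfl (by
        have h6 := el_ge3 hinf (k * h)
        have h7 := tgt_sq.gt _ h6
        omega)) (by norm_num) ?_
    · rw [one_mul] at hsum
      refine hsum.congr' ?_
      filter_upwards [h2, hl.eventually_gt_atTop 0] with n h6 h7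
      rw [lam_HP h6.1 h6.2.1 h6.2.2]
      field_simp
    · intro δ hδ
      obtain ⟨e, he⟩ : ∃ e : ℝ, e = min (δ / 8) (1 / 8) := ⟨_, rfl⟩
      have he0 : 0 < e := by rw [he]; exact lt_min (by linarith) (by norm_num)
      have he1 : e ≤ δ / 8 := by rw [he]; exact min_le_left _ _
      have he2 : e ≤ 1 / 8 := by rw [he]; exact min_le_right _ _
      obtain ⟨m1, hm1⟩ := eventually_atTop.1 ((hlog.eventually_lt_const (show 2 < 2 * (1 + e) by linarith)).and
        (hlog.eventually_const_lt (show 2 * (1 - e) < 2 by linarith)))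
      have h0 : Tendsto (fun n : ℕ => (3 : ℝ) * (Real.log (Real.log (n : ℝ)) / Real.log n)) atTop (𝓝 (3 * 0)) :=
        ll_div.const_mul (3 : ℝ)
      rw [mul_zero] at h0
      filter_upwards [eventually_ge_atTop (m1 + 3), hl.eventually_ge_atTop 1, h0.eventually_lt_const (show 0 < 2 * e by linarith)]
        with n hn hl1 hll k hk1 hk2
      have hn0 : (0 : ℝ) < n := by exact_mod_cast (show 0 < n by omega)
      have hk0 : (0 : ℝ) < k := lt_trans (by positivity) hk1
      have hk0' : 1 ≤ k := by exact_mod_cast hk0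
      have h8 : m1 ≤ k * n := by
        have : 1 * n ≤ k * n := Nat.mul_le_mul_right n hk0'
        omega
      obtain ⟨h9, h10⟩ := hm1 (k * n) h8
      have h11 : Real.log ((k * n : ℕ) : ℝ) = Real.log k + Real.log n := by
        push_cast
        rw [Real.log_mul hk0.ne' hn0.ne']
      have h12 : Real.log (k : ℝ) ≤ Real.log n := Real.log_le_log hk0 (by exact_mod_cast hk2)
      have h13 : (1 - 2 * e) * Real.log n ≤ Real.log k := by
        have h14 := Real.log_le_log (by positivity) hk1.le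
        rw [Real.log_div hn0.ne' (by positivity), Real.log_pow] at h14
        rw [← mul_div_assoc, div_lt_iff₀ (by linarith)] at hll
        push_cast at h14
        linarith
      have hL : 0 < Real.log ((k * n : ℕ) : ℝ) := by rw [h11]; nlinarith
      rw [div_lt_iff₀ hL] at h9
      rw [lt_div_iff₀ hL] at h10
      rw [h11] at h9 h10
      obtain ⟨g, hg⟩ : ∃ g : ℝ, g = Real.log (G2 (el (A ω) (k * n))) := ⟨_, rfl⟩
      rw [← hg] at h9 h10
      have hln : 0 < Real.log (n : ℝ) := by linarith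
      have hg1 : g ≤ 4 * (1 + e) * Real.log n := by nlinarith
      have hg2 : 4 * ((1 - e) * (1 - e)) * Real.log n ≤ g := by nlinarith
      have hg0 : 0 < g := lt_of_lt_of_le (by
        have : 0 < (1 - e) * (1 - e) := by nlinarith
        positivity) hg2
      unfold pb
      rw [← hg, one_div_mul_eq_div g (Real.log (n : ℝ))]
      constructor
      · rw [le_div_iff₀ hg0]
        by_cases hd : 1 - δ ≤ 0
        · have : 1 / 4 * (1 - δ) * g ≤ 0 := by nlinarith
          linarith
        · push Not at hd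
          have h15 : (1 - δ) * (1 + e) ≤ 1 := by nlinarith
          have h16 : 1 / 4 * (1 - δ) * g ≤ 1 / 4 * (1 - δ) * (4 * (1 + e) * Real.log n) :=
            mul_le_mul_of_nonneg_left hg1 (by linarith)
          nlinarith
      · rw [div_le_iff₀ hg0]
        have h15 : 1 ≤ (1 + δ) * ((1 - e) * (1 - e)) := by
          have h16 : 1 - 2 * e ≤ (1 - e) * (1 - e) := by nlinarith
          have h17 : (1 + δ) * (1 - 2 * e) ≤ (1 + δ) * ((1 - e) * (1 - e)) := mul_le_mul_of_nonneg_left h16 (by linarith)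
          nlinarith
        have h16 : 1 / 4 * (1 + δ) * (4 * ((1 - e) * (1 - e)) * Real.log n) ≤ 1 / 4 * (1 + δ) * g :=
          mul_le_mul_of_nonneg_left hg2 (by linarith)
        nlinarith

end Pool.Agent.Q197.CI
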