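import Pool.Agent.Q197.CI.Power

/-!
# Chebyshev's inequality for finitely many events, given the small elements
-/

set_option autoImplicit false

namespace Pool.Agent.Q197.CI

open Finset Filter MeasureTheory Pool.Agent.Q120.ET Pool.Agent.Q120.MF

open Classical in
/-- The number of the events which occur. -/
noncomputable def Zc (B : Finset ℕ) (E : ℕ → Set ℕ → Prop) (S : Set ℕ) : ℝ := ((B.filter (fun n => E n S)).card : ℝ)

open Classical in
theorem zc_eq (B : Finset ℕ) (E : ℕ → Set ℕ → Prop) (S : Set ℕ) :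
    Zc B E S = ∑ n ∈ B, (if E n S then (1 : ℝ) else 0) := by
  unfold Zc
  rw [card_filter]
  push_cast
  exact sum_congr rfl (fun n _ => by split_ifs <;> simp)

theorem ex_sum {ι : Type*} (y : ℕ) (T0 : Finset ℕ) (x : ℕ) (B : Finset ι) (F : ι → Set ℕ → ℝ) :
    Ex y T0 x (fun S => ∑ i ∈ B, F i S) = ∑ i ∈ B, Ex y T0 x (F i) := by
  classical
  induction B using Finset.induction_on with
  | empty =>
    simp only [sum_empty]
    exact ex_const y T0 x 0
  | insert i B hi ih =>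
    simp only [sum_insert hi]
    rw [ex_add, ih]

theorem ex_sq (y : ℕ) (T0 : Finset ℕ) (x : ℕ) (B : Finset ℕ) (E : ℕ → Set ℕ → Prop) (s : ℝ) :
    Ex y T0 x (fun S => (Zc B E S - s) ^ 2) =
      ∑ n ∈ B, ∑ m ∈ B, Pr y T0 x (fun S => E n S ∧ E m S) - 2 * s * ∑ n ∈ B, Pr y T0 x (E n) + s ^ 2 := by
  classical
  have h1 : (fun S => (Zc B E S - s) ^ 2) = fun S => (∑ n ∈ B, ∑ m ∈ B, (if E n S ∧ E m S then (1 : ℝ) else 0)) +
      ((-(2 * s)) * (∑ n ∈ B, (if E n S then (1 : ℝ) else 0)) + s ^ 2) := by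
    funext S
    have h2 : ∑ n ∈ B, ∑ m ∈ B, (if E n S ∧ E m S then (1 : ℝ) else 0) = Zc B E S * Zc B E S := by
      rw [zc_eq, sum_mul_sum]
      refine sum_congr rfl (fun n _ => sum_congr rfl (fun m _ => ?_))
      by_cases h3 : E n S <;> by_cases h4 : E m S <;> simp [h3, h4]
    rw [h2, ← zc_eq]
    ring
  rw [h1, ex_add, ex_add, ex_const_mul, ex_const, ex_sum, ex_sum]
  have h2 : ∑ n ∈ B, Ex y T0 x (fun S => ∑ m ∈ B, (if E n S ∧ E m S then (1 : ℝ) else 0)) =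
      ∑ n ∈ B, ∑ m ∈ B, Pr y T0 x (fun S => E n S ∧ E m S) := by
    refine sum_congr rfl (fun n _ => ?_)
    rw [ex_sum]
    refine sum_congr rfl (fun m _ => ?_)
    rw [pr_def]
    refine ex_congr (fun T _ => ?_)
    congr
  have h3 : ∑ n ∈ B, Ex y T0 x (fun S => (if E n S then (1 : ℝ) else 0)) = ∑ n ∈ B, Pr y T0 x (E n) :=
    sum_congr rfl (fun m _ => (pr_def _ _ _ _).symm)
  rw [h2, h3]
  ring

/-- Chebyshev's inequality. -/
theorem pr_cheb {y x : ℕ} (hy : 3 ≤ y) {T0 : Finset ℕ} (B : Finset ℕ) (E : ℕ → Set ℕ → Prop) (Q : ℕ → ℝ) {ε δ : ℝ}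
    (hε : 0 ≤ ε) (hε1 : ε ≤ 1) (hδ : 0 < δ) (h1 : ∀ n ∈ B, (1 - ε) * Q n ≤ Pr y T0 x (E n))
    (h1' : ∀ n ∈ B, Pr y T0 x (E n) ≤ (1 + ε) * Q n)
    (h2 : ∀ n ∈ B, ∀ m ∈ B, n < m → Pr y T0 x (fun S => E n S ∧ E m S) ≤ (1 + ε) * (Q n * Q m))
    (hS : 0 < ∑ n ∈ B, Q n) :
    Pr y T0 x (fun S => δ * ∑ n ∈ B, Q n ≤ |Zc B E S - ∑ n ∈ B, Q n|) ≤
      (3 * ε + 2 / ∑ n ∈ B, Q n) / δ ^ 2 := by
  classical
  obtain ⟨s, hs⟩ : ∃ s : ℝ, s = ∑ n ∈ B, Q n := ⟨_, rfl⟩
  rw [← hs] at hS ⊢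
  have hQ0 : ∀ n ∈ B, 0 ≤ Q n := by
    intro n hn
    have h3 := h1' n hn
    have h4 := pr_nonneg (x := x) hy (T0 := T0) (E n)
    have h5 : 0 ≤ (1 + ε) * Q n := h4.trans h3
    exact nonneg_of_mul_nonneg_right h5 (by linarith)
  have h2' : ∀ n ∈ B, ∀ m ∈ B, n ≠ m → Pr y T0 x (fun S => E n S ∧ E m S) ≤ (1 + ε) * (Q n * Q m) := by
    intro n hn m hm hnm
    rcases lt_or_gt_of_ne hnm with h | h
    · exact h2 n hn m hm h
    · have h3 := h2 m hm n hn h
      refine le_trans (le_of_eq ?_) (h3.trans (le_of_eq (by ring)))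
      congr 1
      funext S
      exact propext and_comm
  have h3 : Ex y T0 x (fun S => (Zc B E S - s) ^ 2) ≤ (3 * ε + 2 / s) * s ^ 2 := by
    rw [ex_sq]
    have h4 : ∑ n ∈ B, ∑ m ∈ B, Pr y T0 x (fun S => E n S ∧ E m S) ≤ (1 + ε) * s + (1 + ε) * s ^ 2 := by
      calc ∑ n ∈ B, ∑ m ∈ B, Pr y T0 x (fun S => E n S ∧ E m S)
          ≤ ∑ n ∈ B, ∑ m ∈ B, ((if n = m then (1 + ε) * Q n else 0) + (1 + ε) * (Q n * Q m)) := by
            refine sum_le_sum (fun n hn => sum_le_sum (fun m hm => ?_))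
            by_cases hnm : n = m
            · rw [if_pos hnm]
              have h5 := h1' n hn
              have h6 : Pr y T0 x (fun S => E n S ∧ E m S) ≤ Pr y T0 x (E n) := pr_mono hy (fun T _ h => h.1)
              have h7 : 0 ≤ (1 + ε) * (Q n * Q m) := mul_nonneg (by linarith) (mul_nonneg (hQ0 n hn) (hQ0 m hm))
              linarith
            · rw [if_neg hnm, zero_add]
              exact h2' n hn m hm hnm
        _ = (1 + ε) * s + (1 + ε) * s ^ 2 := by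
            simp only [sum_add_distrib]
            congr 1
            · rw [hs, mul_sum]
              refine sum_congr rfl (fun n hn => ?_)
              rw [sum_ite_eq, if_pos hn]
            · rw [hs, sq, sum_mul_sum, mul_sum]
              refine sum_congr rfl (fun n _ => ?_)
              rw [mul_sum]
    have h5 : (1 - ε) * s ≤ ∑ n ∈ B, Pr y T0 x (E n) := by
      rw [hs, mul_sum]
      exact sum_le_sum h1
    have h6 : (3 * ε + 2 / s) * s ^ 2 = 3 * ε * s ^ 2 + 2 * s := by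
      field_simp
    rw [h6]
    have h7 : 2 * s * ((1 - ε) * s) ≤ 2 * s * ∑ n ∈ B, Pr y T0 x (E n) :=
      mul_le_mul_of_nonneg_left h5 (by linarith)
    nlinarith
  rw [pr_def, le_div_iff₀ (by positivity)]
  have h4 : Ex y T0 x (fun S => if δ * s ≤ |Zc B E S - s| then 1 else 0) * δ ^ 2 * s ^ 2 ≤ (3 * ε + 2 / s) * s ^ 2 := by
    refine le_trans ?_ h3
    have h5 : Ex y T0 x (fun S => if δ * s ≤ |Zc B E S - s| then 1 else 0) * δ ^ 2 * s ^ 2 =
        (δ ^ 2 * s ^ 2) * Ex y T0 x (fun S => if δ * s ≤ |Zc B E S - s| then 1 else 0) := by ring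
    rw [h5, ← ex_const_mul]
    refine ex_mono hy (fun T _ => ?_)
    split_ifs with h
    · rw [mul_one, ← sq_abs (Zc B E _ - s), ← mul_pow]
      exact pow_le_pow_left₀ (by positivity) h 2
    · rw [mul_zero]
      positivity
  exact le_of_mul_le_mul_right h4 (by positivity)

theorem zc_nonneg (B : Finset ℕ) (E : ℕ → Set ℕ → Prop) (S : Set ℕ) : 0 ≤ Zc B E S := by
  unfold Zc
  positivity

/-- A partition into classes. -/
theorem zc_classes {R : ℕ} (hR : 0 < R) (B : Finset ℕ) (E : ℕ → Set ℕ → Prop) (S : Set ℕ) :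
    Zc B E S = ∑ r ∈ range R, Zc (B.filter (fun n => n % R = r)) E S := by
  classical
  simp only [zc_eq]
  rw [← sum_fiberwise_of_maps_to (g := fun n => n % R) (t := range R) (fun n _ => mem_range.2 (Nat.mod_lt _ hR))]

theorem sum_classes {R : ℕ} (hR : 0 < R) (B : Finset ℕ) (Q : ℕ → ℝ) :
    ∑ n ∈ B, Q n = ∑ r ∈ range R, ∑ n ∈ B.filter (fun n => n % R = r), Q n := by
  classical
  rw [← sum_fiberwise_of_maps_to (g := fun n => n % R) (t := range R) (fun n _ => mem_range.2 (Nat.mod_lt _ hR))]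

end Pool.Agent.Q197.CI
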