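import Pool.Agent.Q197.CI.RowH

/-!
# Tests at `n - j`, and the squares minus two
-/

set_option autoImplicit false

namespace Pool.Agent.Q197.CI

open Finset Filter MeasureTheory Pool.Agent.Q120.ET Pool.Agent.Q120.MF
open scoped Topology

theorem pb_place0 {δ : ℝ} (hδ : 0 < δ) : ∀ᶠ n : ℕ in atTop, ∀ a, n ≤ 2 * a → a ≤ n →
    1 ≤ pb a * Real.log n ∧ pb a * Real.log n ≤ 1 + δ := by
  filter_upwards [hl.eventually_ge_atTop (max 2 (1 + 1 / δ)), eventually_ge_atTop 10] with n h1 h2 a ha1 ha2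
  have hl1 : 2 ≤ Real.log (n : ℝ) := (le_max_left _ _).trans h1
  have hl2 : 1 + 1 / δ ≤ Real.log (n : ℝ) := (le_max_right _ _).trans h1
  have hn0 : (0 : ℝ) < n := by exact_mod_cast (show 0 < n by omega)
  have ha0 : (0 : ℝ) < a := by exact_mod_cast (show 0 < a by omega)
  have h3 : Real.log (a : ℝ) ≤ Real.log n := Real.log_le_log ha0 (by exact_mod_cast ha2)
  have h4 : Real.log (n : ℝ) ≤ Real.log a + 1 := by
    have h5 : (n : ℝ) ≤ 2 * a := by exact_mod_cast ha1
    have h6 := Real.log_le_log hn0 h5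
    rw [Real.log_mul (by norm_num) ha0.ne'] at h6
    have h7 : Real.log 2 ≤ 1 := by
      have := Real.log_two_lt_d9
      linarith
    linarith
  have h5 : 0 < Real.log (a : ℝ) := by linarith
  unfold pb
  rw [one_div_mul_eq_div (Real.log (a : ℝ)) (Real.log (n : ℝ)), le_div_iff₀ h5, div_le_iff₀ h5]
  refine ⟨by linarith, ?_⟩
  have h6 : 1 ≤ δ * Real.log a := by
    have h7 : 1 / δ ≤ Real.log a := by linarith
    rw [div_le_iff₀ hδ] at h7
    linarith
  linarith

/-- One place. -/
def P0 (n j : ℕ) : Finset ℕ := {n - j}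

theorem two_pow_le (M : ℕ) : ∀ᶠ n : ℕ in atTop, ∀ j : ℕ, (j : ℝ) ≤ Real.log n ^ M → 2 * j + 6 ≤ n := by
  filter_upwards [pow_log_le (M + 1), hl.eventually_ge_atTop 3, pow_log_le 1, eventually_ge_atTop 60, pow_log_le (M + 2)]
    with n h1 h2 h3 h4 h5 j hj
  have h7 : 3 * Real.log (n : ℝ) ^ M ≤ n := by
    have h8 : 3 * Real.log (n : ℝ) ^ M ≤ Real.log n ^ (M + 1) := by
      rw [pow_succ, mul_comm]
      exact mul_le_mul_of_nonneg_left h2 (by positivity)
    linarith
  have h9 : 3 * j ≤ n := by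
    have : 3 * (j : ℝ) ≤ n := by linarith
    exact_mod_cast this
  omega

theorem fix_zero : FixG P0 (FlF P0) (fun n => n + 1) (qF P0) 1 1 where
  hb := one_pos
  hβ := le_rfl
  Xmono := fun a b hab => by
    show a + 1 ≤ b + 1
    omega
  Xge := fun n => by
    show n ≤ n + 1
    omega
  sub := fun M => by
    filter_upwards [two_pow_le M] with n h1 j hj1 hj2 a ha
    have h2 := h1 j hj2
    unfold P0 at ha
    rw [mem_singleton] at ha
    omega
  disj := fun M => by
    filter_upwards [two_pow_le M] with n h1 j j' hj1 hj2 hj1' hj2' hne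
    have h2 := h1 j hj2
    have h3 := h1 j' hj2'
    unfold P0
    rw [disjoint_singleton]
    omega
  sep := fun M => by
    filter_upwards [two_pow_le M, hl.eventually_ge_atTop 1] with n h1 h0 m hm j j' hj1 hj2 hj1' hj2'
    have h2 := h1 j hj2
    have hpos : 0 ≤ Real.log (n : ℝ) ^ M := by positivity
    have h3 : n + j' < m := by
      have : (n : ℝ) + j' < m := by linarith
      exact_mod_cast this
    unfold P0
    rw [disjoint_singleton]
    omega
  dep := depOn_flF P0
  pr := fun M => by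
    filter_upwards [two_pow_le M] with n h1 j hj1 hj2 y x T0 hy hT0 hx
    have h2 := h1 j hj2
    have h3 := h1 y hy
    unfold qF FlF
    rw [pr_not, pr_all_mem hT0 (P0 n j) (fun a ha => by
      unfold P0 at ha
      rw [mem_singleton] at ha
      omega)]
  hq := fun M δ hδ => by
    filter_upwards [pb_place0 hδ, two_pow_le M] with n h1 h2 j hj1 hj2
    have h3 := h2 j hj2
    have h4 := h1 (n - j) (by omega) (by omega)
    unfold qF P0
    rw [prod_singleton, one_mul, pow_one, abs_le]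
    constructor <;> linarith [h4.1, h4.2]

/-- `q` is tested at `q ^ 2 - 2` if it is an element. -/
def P10 (q a : ℕ) (S : Set ℕ) : Prop := 3 ≤ q ∧ q ∈ S ∧ a = q ^ 2 - 2

theorem sq_gt {q : ℕ} (hq : 3 ≤ q) : q < q ^ 2 - 2 := by
  have : 3 * q ≤ q ^ 2 := by rw [sq]; exact Nat.mul_le_mul_right q hq
  omega

theorem dep_P10 (q a : ℕ) : Dep a (P10 q a) := by
  intro S S' hS
  unfold P10
  apply propext
  constructor
  · rintro ⟨h1, h2, h3⟩
    have := sq_gt h1
    exact ⟨h1, (hS _ h1 (by omega)).1 h2, h3⟩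
  · rintro ⟨h1, h2, h3⟩
    have := sq_gt h1
    exact ⟨h1, (hS _ h1 (by omega)).2 h2, h3⟩

/-- `q` and `q ^ 2 - 2` are elements. -/
def Wsq (q : ℕ) (S : Set ℕ) : Prop := 3 ≤ q ∧ q ∈ S ∧ q ^ 2 - 2 ∈ S

theorem wp10 (q : ℕ) (S : Set ℕ) : WP P10 q S ↔ Wsq q S := by
  unfold WP P10 Wsq
  constructor
  · rintro ⟨a, ⟨h0, h1, rfl⟩, h⟩
    exact ⟨h0, h1, h⟩
  · exact fun h => ⟨_, ⟨h.1, h.2.1, rfl⟩, h.2.2⟩

theorem log_sq : Tendsto (fun b : ℕ => Real.log ((b ^ 2 - 2 : ℕ) : ℝ) / Real.log b) atTop (𝓝 2) := by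
  refine log_g2.congr' ?_
  filter_upwards [eventually_ge_atTop 2] with b hb
  rw [g2_of_ge hb]

/-- Blocks of length `m`. -/
def Wd (m : ℕ) (W : ℕ → Set ℕ → Prop) (j : ℕ) (S : Set ℕ) : Prop := W (j / m) S

theorem wd_card {m : ℕ} (hm : 1 ≤ m) {W : ℕ → Set ℕ → Prop} {S : Set ℕ} (h0 : ¬ W 0 S) (h : ℕ) :
    (Ws (Wd m W) S h).card ≤ m * (Ws W S (h / m)).card ∧ m * (Ws W S (h / m)).card ≤ (Ws (Wd m W) S h).card + m := by
  classical
  have hmaps : ∀ j ∈ Ws (Wd m W) S h, j / m ∈ Ws W S (h / m) := by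
    intro j hj
    rw [mem_Ws] at hj ⊢
    refine ⟨⟨?_, Nat.div_le_div_right hj.1.2⟩, hj.2⟩
    rcases Nat.eq_zero_or_pos (j / m) with h2 | h2
    · have h1 := hj.2
      unfold Wd at h1
      rw [h2] at h1
      exact absurd h1 h0
    · exact h2
  have hc : ∀ q ∈ Ws W S (h / m), ((Ws (Wd m W) S h).filter (fun j => j / m = q)).card ≤ m := by
    intro q hq
    have h1 : (Ws (Wd m W) S h).filter (fun j => j / m = q) ⊆ Ico (m * q) (m * q + m) := by
      intro j hj
      rw [mem_filter] at hj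
      rw [mem_Ico, ← hj.2]
      constructor
      · exact Nat.mul_div_le j m
      · exact Nat.lt_mul_div_succ j hm
    refine (card_le_card h1).trans ?_
    rw [Nat.card_Ico]
    omega
  constructor
  · have := card_le_mul_card_image_of_maps_to (f := fun j => j / m) hmaps m hc
    exact this
  · have hlow : ∀ q ∈ Ws W S (h / m), q ≠ h / m → ((Ws (Wd m W) S h).filter (fun j => j / m = q)).card = m := by
      intro q hq hne
      rw [mem_Ws] at hq
      have h2 : (Ws (Wd m W) S h).filter (fun j => j / m = q) = Ico (m * q) (m * q + m) := by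
        ext j
        rw [mem_filter, mem_Ico, mem_Ws]
        constructor
        · rintro ⟨_, rfl⟩
          exact ⟨Nat.mul_div_le j m, Nat.lt_mul_div_succ j hm⟩
        · rintro ⟨h3, h4⟩
          have h5 : j / m = q := by
            rw [Nat.div_eq_iff (by omega)]
            constructor
            · rw [mul_comm]; exact h3
            · have : q * m = m * q := mul_comm _ _
              omega
          have h6 : m * (q + 1) ≤ m * (h / m) := Nat.mul_le_mul_left m (by omega)
          have h7 : m * (h / m) ≤ h := Nat.mul_div_le h m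
          have h8 : m * 1 ≤ m * q := Nat.mul_le_mul_left m hq.1.1
          have h9 : m * (q + 1) = m * q + m := by ring
          refine ⟨⟨⟨by omega, by omega⟩, ?_⟩, h5⟩
          unfold Wd
          rw [h5]
          exact hq.2
      rw [h2, Nat.card_Ico]
      omega
    have h3 : (Ws (Wd m W) S h).card = ∑ q ∈ Ws W S (h / m), ((Ws (Wd m W) S h).filter (fun j => j / m = q)).card :=
      card_eq_sum_card_fiberwise hmaps
    rw [h3, ← sum_filter_add_sum_filter_not (Ws W S (h / m)) (fun q => q ≠ h / m)]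
    have h4 : ∑ q ∈ (Ws W S (h / m)).filter (fun q => q ≠ h / m), ((Ws (Wd m W) S h).filter (fun j => j / m = q)).card =
        ((Ws W S (h / m)).filter (fun q => q ≠ h / m)).card * m := by
      rw [sum_congr rfl (fun q hq => hlow q (mem_filter.1 hq).1 (mem_filter.1 hq).2), sum_const, smul_eq_mul]
    have h5 : ((Ws W S (h / m)).filter (fun q => ¬ q ≠ h / m)).card ≤ 1 := by
      refine card_le_one.2 (fun a ha b hb => ?_)
      rw [mem_filter, not_not] at ha hb
      rw [ha.2, hb.2]
    have h6 := card_filter_add_card_filter_not (s := Ws W S (h / m)) (fun q => q ≠ h / m)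
    rw [h4, ← h6]
    nlinarith [Nat.zero_le (∑ q ∈ (Ws W S (h / m)).filter (fun q => ¬ q ≠ h / m),
      ((Ws (Wd m W) S h).filter (fun j => j / m = q)).card)]

theorem law_div {m : ℕ} (hm : 1 ≤ m) {W : ℕ → Set ℕ → Prop} {S : Set ℕ} (h0 : ¬ W 0 S) {a : ℕ} {κ : ℝ}
    (h : Tendsto (fun h : ℕ => ((Ws W S h).card : ℝ) * Real.log h ^ a / h) atTop (𝓝 κ)) :
    Tendsto (fun h : ℕ => ((Ws (Wd m W) S h).card : ℝ) * Real.log h ^ a / h) atTop (𝓝 κ) := by
  have hm0 : (0 : ℝ) < m := by exact_mod_cast hm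
  have hdiv : Tendsto (fun h : ℕ => h / m) atTop atTop := Nat.tendsto_div_const_atTop (by omega)
  -- h / m is asymptotic
  have h1 : Tendsto (fun h : ℕ => (m : ℝ) * ((h / m : ℕ) : ℝ) / h) atTop (𝓝 1) := by
    have h2 : Tendsto (fun h : ℕ => 1 - (m : ℝ) / h) atTop (𝓝 1) := by
      have := (tendsto_const_nhds (x := (m : ℝ))).div_atTop tendsto_natCast_atTop_atTop
      have h3 := (tendsto_const_nhds (x := (1 : ℝ))).sub this
      rw [sub_zero] at h3
      exact h3
    refine tendsto_of_tendsto_of_tendsto_of_le_of_le' h2 tendsto_const_nhds ?_ ?_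
    · filter_upwards [eventually_ge_atTop 1] with h hh
      have hh0 : (0 : ℝ) < h := by exact_mod_cast hh
      rw [le_div_iff₀ hh0, sub_mul, div_mul_cancel₀ _ hh0.ne', one_mul]
      have h4 := Nat.lt_mul_div_succ h hm
      have h5 : (h : ℝ) ≤ m * ((h / m : ℕ) : ℝ) + m := by
        have : h ≤ m * (h / m) + m := by
          have e : m * (h / m + 1) = m * (h / m) + m := by ring
          omega
        exact_mod_cast this
      linarith
    · filter_upwards [eventually_ge_atTop 1] with h hh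
      have hh0 : (0 : ℝ) < h := by exact_mod_cast hh
      rw [div_le_one hh0]
      exact_mod_cast Nat.mul_div_le h m
  have h2 : Tendsto (fun h : ℕ => Real.log h / Real.log ((h / m : ℕ) : ℝ)) atTop (𝓝 1) := by
    have h3 : Tendsto (fun h : ℕ => Real.log ((2 * m * (h / m) + 0 : ℕ) : ℝ) / Real.log ((h / m : ℕ) : ℝ)) atTop (𝓝 1) :=
      (log_affine (2 * m) 0 (by omega)).comp hdiv
    have h4 : Tendsto (fun _ : ℕ => (1 : ℝ)) atTop (𝓝 1) := tendsto_const_nhds
    refine tendsto_of_tendsto_of_tendsto_of_le_of_le' h4 h3 ?_ ?_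
    · filter_upwards [hdiv.eventually_ge_atTop 2] with h hh
      have h5 : 0 < Real.log ((h / m : ℕ) : ℝ) := Real.log_pos (by exact_mod_cast (show 1 < h / m by omega))
      rw [le_div_iff₀ h5, one_mul]
      refine Real.log_le_log (by exact_mod_cast (show 0 < h / m by omega)) ?_
      exact_mod_cast Nat.div_le_self h m
    · filter_upwards [hdiv.eventually_ge_atTop 2] with h hh
      have h5 : 0 < Real.log ((h / m : ℕ) : ℝ) := Real.log_pos (by exact_mod_cast (show 1 < h / m by omega))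
      refine div_le_div_of_nonneg_right (Real.log_le_log ?_ ?_) h5.le
      · have : 0 < h := by
          by_contra hcon
          have : h = 0 := by omega
          rw [this] at hh
          simp at hh
        exact_mod_cast this
      · have h6 := Nat.lt_mul_div_succ h hm
        have h7 : h ≤ 2 * m * (h / m) + 0 := by
          have e : m * (h / m + 1) = m * (h / m) + m := by ring
          have e2 : 2 * m * (h / m) = m * (h / m) + m * (h / m) := by ring
          have e3 : m * 2 ≤ m * (h / m) := Nat.mul_le_mul_left m hh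
          omega
        exact_mod_cast h7
  have h3 : Tendsto (fun h : ℕ => (m : ℝ) * ((Ws W S (h / m)).card : ℝ) * Real.log h ^ a / h) atTop (𝓝 κ) := by
    have h4 := ((h.comp hdiv).mul h1).mul (h2.pow a)
    rw [mul_one, one_pow, mul_one] at h4
    refine h4.congr' ?_
    filter_upwards [hdiv.eventually_ge_atTop 2] with h hh
    have h5 : 0 < Real.log ((h / m : ℕ) : ℝ) := Real.log_pos (by exact_mod_cast (show 1 < h / m by omega))
    have h6 : (0 : ℝ) < ((h / m : ℕ) : ℝ) := by exact_mod_cast (show 0 < h / m by omega)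
    have h7 : (0 : ℝ) < h := by
      have : 0 < h := by
        by_contra hcon
        have : h = 0 := by omega
        rw [this] at hh
        simp at hh
      exact_mod_cast this
    simp only [Function.comp_apply]
    rw [div_pow]
    field_simp
  have h4 : Tendsto (fun h : ℕ => (m : ℝ) * Real.log h ^ a / h) atTop (𝓝 0) := by
    have h5 : Tendsto (fun h : ℕ => ((h : ℝ) / Real.log h ^ a)⁻¹) atTop (𝓝 0) := (x_div_log_pow a).inv_tendsto_atTop
    have h6 := h5.const_mul (m : ℝ)
    rw [mul_zero] at h6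
    refine h6.congr (fun h => ?_)
    rw [inv_div]
    ring
  have h5 : Tendsto (fun h : ℕ => (m : ℝ) * ((Ws W S (h / m)).card : ℝ) * Real.log h ^ a / h - (m : ℝ) * Real.log h ^ a / h)
      atTop (𝓝 κ) := by
    have := h3.sub h4
    rw [sub_zero] at this
    exact this
  refine tendsto_of_tendsto_of_tendsto_of_le_of_le' h5 h3 ?_ ?_
  · filter_upwards [hl.eventually_ge_atTop 0, eventually_ge_atTop 1] with h hh hh1
    have h6 := (wd_card hm h0 h).2
    have h7 : (m : ℝ) * ((Ws W S (h / m)).card : ℝ) ≤ ((Ws (Wd m W) S h).card : ℝ) + m := by exact_mod_cast h6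
    rw [← sub_div]
    refine div_le_div_of_nonneg_right ?_ (Nat.cast_nonneg _)
    have h8 : 0 ≤ Real.log (h : ℝ) ^ a := by positivity
    nlinarith
  · filter_upwards [hl.eventually_ge_atTop 0, eventually_ge_atTop 1] with h hh hh1
    have h6 := (wd_card hm h0 h).1
    have h7 : ((Ws (Wd m W) S h).card : ℝ) ≤ (m : ℝ) * ((Ws W S (h / m)).card : ℝ) := by exact_mod_cast h6
    refine div_le_div_of_nonneg_right (mul_le_mul_of_nonneg_right h7 (by positivity)) (Nat.cast_nonneg _)

variable {Ω : Type*} [MeasurableSpace Ω] {μ : Measure Ω} [IsProbabilityMeasure μ] {A : Ω → Set ℕ}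

theorem law10 (hA : IsCramer μ A) :
    ∀ᵐ ω ∂μ, Tendsto (fun h : ℕ => ((Ws (WP P10) (A ω) h).card : ℝ) * Real.log h ^ 2 / h) atTop (𝓝 (1 / 2)) := by
  classical
  refine pos_law hA dep_P10 (fun h => h ^ 2 + 1) 2 (by norm_num) ?_
  filter_upwards [ct_law' hA] with ω hct
  refine ⟨fun q => 3 ≤ q ∧ q ∈ A ω, fun q => q ^ 2 - 2, fun m a _ => by unfold P10; tauto, fun m hm hD => ?_,
    fun m m' hm hm' hD hD' h => ?_, Eventually.of_forall (fun h m _ hm => ?_), ?_⟩
  · have := sq_gt hD.1
    have := hD.1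
    show 3 ≤ m ^ 2 - 2
    omega
  · have h1 : m ^ 2 - 2 = m' ^ 2 - 2 := h
    have h2 : 3 ^ 2 ≤ m ^ 2 := Nat.pow_le_pow_left hD.1 2
    have h3 : 3 ^ 2 ≤ m' ^ 2 := Nat.pow_le_pow_left hD'.1 2
    have h4 : m ^ 2 = m' ^ 2 := by omega
    exact Nat.pow_left_injective (show (2 : ℕ) ≠ 0 by norm_num) h4
  · show m ^ 2 - 2 < h ^ 2 + 1
    have : m ^ 2 ≤ h ^ 2 := Nat.pow_le_pow_left hm 2
    omega
  · have hcD : Tendsto (fun h : ℕ => cD (fun q => 3 ≤ q ∧ q ∈ A ω) h * Real.log h ^ 1 / h) atTop (𝓝 1) := by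
      refine hct.congr (fun h => ?_)
      rw [cD_zero, pow_one]
    have hw : Tendsto (fun k : ℕ => pb (k ^ 2 - 2) * Real.log k) atTop (𝓝 (1 / 2)) := by
      have h3 := log_sq.inv₀ two_ne_zero
      rw [← one_div] at h3
      refine h3.congr (fun k => ?_)
      unfold pb
      rw [inv_div, one_div_mul_eq_div]
    have h3 := wsum (D := fun q => 3 ≤ q ∧ q ∈ A ω) (w := fun q => pb (q ^ 2 - 2)) (a := 1) hcD (B := 2)
      (fun k => pb_nonneg' _) (fun k => pb_le_two _) (by norm_num) hw
    rw [one_mul] at h3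
    exact h3

theorem lawsq (hA : IsCramer μ A) :
    ∀ᵐ ω ∂μ, Tendsto (fun h : ℕ => ((Ws Wsq (A ω) h).card : ℝ) * Real.log h ^ 2 / h) atTop (𝓝 (1 / 2)) := by
  have e : WP P10 = Wsq := by
    funext q S
    exact propext (wp10 q S)
  rw [← e]
  exact law10 hA

end Pool.Agent.Q197.CI
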