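import Pool.Agent.Q197.CI.AsL

/-!
# Existence of a success for all members of a family of tests
-/

set_option autoImplicit false

namespace Pool.Agent.Q197.CI

open Finset Filter MeasureTheory Pool.Agent.Q120.ET Pool.Agent.Q120.MF
open scoped Topology

variable {Ω : Type*} [MeasurableSpace Ω] {μ : Measure Ω} [IsProbabilityMeasure μ] {A : Ω → Set ℕ}

theorem sqrt_pair {n m : ℕ} (hm : m ≤ 2 * n) : Nat.sqrt (n ^ 2 + m) = n ∧ n ^ 2 + m - (Nat.sqrt (n ^ 2 + m)) ^ 2 = m := by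
  have h1 : Nat.sqrt (n ^ 2 + m) = n := by
    symm
    rw [Nat.eq_sqrt]
    have e : (n + 1) * (n + 1) = n ^ 2 + 2 * n + 1 := by ring
    have e2 : n * n = n ^ 2 := (sq n).symm
    constructor <;> omega
  refine ⟨h1, ?_⟩
  rw [h1]
  omega

/-- For all large `n` and all `m ≤ 2 n`: a large sum of the probabilities gives a success. -/
theorem low_all (hA : IsCramer μ A) (H : ℕ → ℕ → ℕ → Set ℕ → Prop) (hH : ∀ n m a, 3 ≤ a → Dep a (H n m a))
    (x : ℕ → ℕ → ℕ) (K : ℕ → ℝ) (hK : ∀ᶠ n : ℕ in atTop, 32 * Real.log n ≤ K n) :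
    ∀ᵐ ω ∂μ, ∀ᶠ n : ℕ in atTop, ∀ m : ℕ, m ≤ 2 * n → K n ≤ lam 3 (x n m) (H n m) (A ω) →
      1 ≤ hits 3 (x n m) (H n m) (A ω) := by
  have hT0 : ∀ j ∈ (∅ : Finset ℕ), j < 3 := by simp
  have h1 := bc (μ := μ) (E := fun N => {ω | K (Nat.sqrt N) ≤ lam 3 (x (Nat.sqrt N) (N - (Nat.sqrt N) ^ 2))
      (H (Nat.sqrt N) (N - (Nat.sqrt N) ^ 2)) (A ω) ∧ (hits 3 (x (Nat.sqrt N) (N - (Nat.sqrt N) ^ 2))
      (H (Nat.sqrt N) (N - (Nat.sqrt N) ^ 2)) (A ω) : ℝ) ≤ 0}) (f := fun N : ℕ => (N : ℝ) ^ (-2 : ℝ)) ?_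
      (Real.summable_nat_rpow.2 (by norm_num))
  · filter_upwards [h1] with ω h2
    obtain ⟨N0, hN0⟩ := eventually_atTop.1 h2
    filter_upwards [eventually_ge_atTop N0] with n hn m hm h3
    obtain ⟨e1, e2⟩ := sqrt_pair hm
    have h4 := hN0 (n ^ 2 + m) (by nlinarith [Nat.le_self_pow (show (2 : ℕ) ≠ 0 by norm_num) n])
    simp only [Set.mem_ofPred_eq, e2] at h4
    rw [e1] at h4
    by_contra hcon
    refine h4 ⟨h3, ?_⟩
    have : hits 3 (x n m) (H n m) (A ω) = 0 := by omega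
    rw [this]
    simp
  · have hsq : Tendsto Nat.sqrt atTop atTop := by
      refine tendsto_atTop_atTop.2 (fun b => ⟨b * b, fun a ha => ?_⟩)
      exact Nat.le_sqrt.2 ha
    filter_upwards [hsq.eventually hK, hsq.eventually_ge_atTop 3, eventually_ge_atTop 1] with N h2 h3 h4
    obtain ⟨n, hn⟩ : ∃ n, n = Nat.sqrt N := ⟨_, rfl⟩
    obtain ⟨m, hm⟩ : ∃ m, m = N - n ^ 2 := ⟨_, rfl⟩
    rw [← hn] at h2 h3 ⊢
    rw [← hm]
    have hdep : Dep (x n m) (fun S => K n ≤ lam 3 (x n m) (H n m) S ∧ (hits 3 (x n m) (H n m) S : ℝ) ≤ 0) := by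
      intro S S' hS
      have e1 : lam 3 (x n m) (H n m) S = lam 3 (x n m) (H n m) S' := dep_lam (hH n m) S S' hS
      have e2 : hits 3 (x n m) (H n m) S = hits 3 (x n m) (H n m) S' := dep_hits (hH n m) S S' hS
      simp only [e1, e2]
    have hn0 : (0 : ℝ) < n := by exact_mod_cast (show 0 < n by omega)
    have hlogn : 0 ≤ Real.log (n : ℝ) := Real.log_nonneg (by exact_mod_cast (show 1 ≤ n by omega))
    have hK0 : 0 ≤ K n := by linarith
    rw [real_eq_pr hA hdep]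
    refine (tail_low le_rfl hT0 (H n m) (hH n m) (x n m) (η := 1) (by norm_num) (by norm_num) hK0 (by
      rw [sub_self, zero_mul])).trans ?_
    have hN0 : (0 : ℝ) < N := by exact_mod_cast h4
    rw [Real.rpow_def_of_pos hN0, Real.exp_le_exp]
    have h5 : N < (n + 1) ^ 2 := by
      rw [hn]
      exact Nat.lt_succ_sqrt' N
    have h6 : Real.log (N : ℝ) ≤ 4 * Real.log n := by
      have h7 : N ≤ n ^ 4 := by
        have h8 : (n + 1) ^ 2 ≤ (n ^ 2) ^ 2 := Nat.pow_le_pow_left (by nlinarith) 2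
        have h9 : (n ^ 2) ^ 2 = n ^ 4 := by ring
        omega
      have h8 : Real.log (N : ℝ) ≤ Real.log ((n : ℝ) ^ 4) := Real.log_le_log hN0 (by exact_mod_cast h7)
      rw [Real.log_pow] at h8
      push_cast at h8
      exact h8
    nlinarith

end Pool.Agent.Q197.CI
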