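import Pool.Agent.Q197.CI.D1
import Pool.Agent.Q197.CI.Low

/-!
# The integer parts of `(n - p) / m`
-/

set_option autoImplicit false

namespace Pool.Agent.Q197.CI

open Finset Filter MeasureTheory Pool.Agent.Q120.ET Pool.Agent.Q120.MF
open scoped Topology

theorem row10 (m : ℕ) : Row (Wd m Wsq) (fun _ _ => True) (fun h => h ^ 2 + 3) (FlF P0) (fun n => n + 1) (qF P0) 1 1 := by
  refine rowH fix_zero (fun _ => dep_const True) ?_ (fun _ => by omega) (fun a b hab => ?_) ⟨3, fun h => ?_⟩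
  · intro h S S' _ hS j hj1 hj2
    unfold Wd Wsq
    have h1 : j / m ≤ h := (Nat.div_le_self j m).trans hj2
    have h2 : (j / m) ^ 2 ≤ h ^ 2 := Nat.pow_le_pow_left h1 2
    have h3 : h ≤ h ^ 2 := Nat.le_self_pow (by norm_num) h
    constructor
    · rintro ⟨h4, h5, h6⟩
      have := sq_gt h4
      exact ⟨h4, (hS _ h4 (by omega)).1 h5, (hS _ (by omega) (by omega)).1 h6⟩
    · rintro ⟨h4, h5, h6⟩
      have := sq_gt h4
      exact ⟨h4, (hS _ h4 (by omega)).2 h5, (hS _ (by omega) (by omega)).2 h6⟩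
  · show a ^ 2 + 3 ≤ b ^ 2 + 3
    have : a ^ 2 ≤ b ^ 2 := Nat.pow_le_pow_left hab 2
    omega
  · push_cast
    have : (0 : ℝ) ≤ h := Nat.cast_nonneg _
    nlinarith [mul_nonneg this this, mul_nonneg (mul_nonneg this this) this]

theorem row_gap : Row (fun _ _ => True) (fun _ _ => True) (fun _ => 3) (FlF P0) (fun n => n + 1) (qF P0) 1 1 := by
  refine rowH fix_zero (fun _ => dep_const True) (fun h S S' _ _ j _ _ => Iff.rfl) (fun _ => le_rfl)
    (fun a b _ => le_rfl) ⟨2, fun h => ?_⟩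
  push_cast
  have : (0 : ℝ) ≤ h := Nat.cast_nonneg _
  nlinarith

variable {Ω : Type*} [MeasurableSpace Ω] {μ : Measure Ω} [IsProbabilityMeasure μ] {A : Ω → Set ℕ}

/-- The gaps. -/
theorem ae_gap (hA : IsCramer μ A) : ∀ᵐ ω ∂μ, ∀ᶠ n : ℕ in atTop, ∃ j : ℕ, 1 ≤ j ∧ (j : ℝ) ≤ 2 * Real.log n ^ 2 ∧
    n - j ∈ A ω := by
  have h1 := (row_gap.final hA 0 ?_ (Eventually.of_forall (fun _ => Eventually.of_forall (fun _ => trivial)))
    (fun S n j => n - j ∈ S) ?_).1 2 (by norm_num)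
  · filter_upwards [h1] with ω h2
    filter_upwards [h2] with n h3
    unfold NoSol at h3
    push Not at h3
    obtain ⟨j, h4, h5, h6⟩ := h3
    refine ⟨j, h4, ?_, h6⟩
    simpa using h5
  · refine Eventually.of_forall (fun ω => ?_)
    refine (tendsto_const_nhds (x := (1 : ℝ))).congr' ?_
    filter_upwards [eventually_ge_atTop 1] with k hk
    have : (Ws (fun _ _ => True) (A ω) k).card = k := by
      unfold Ws
      simp
    rw [this, pow_zero, mul_one, div_self]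
    exact_mod_cast (show k ≠ 0 by omega)
  · refine Eventually.of_forall (fun ω M => Eventually.of_forall (fun n j _ _ => ?_))
    unfold FlF P0
    simp

/-- The test of `(n, m)` at `a = n - m q`. -/
def Hm (n m a : ℕ) (S : Set ℕ) : Prop := ∃ q : ℕ, 3 ≤ q ∧ (q : ℝ) ≤ Real.log n ^ 3 ∧ q ^ 2 < a ∧ Wsq q S ∧ a = n - m * q

theorem dep_Hm (n m a : ℕ) : Dep a (Hm n m a) := by
  intro S S' hS
  have key : ∀ S S' : Set ℕ, (∀ j, 3 ≤ j → j < a → (j ∈ S ↔ j ∈ S')) → Hm n m a S → Hm n m a S' := by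
    rintro S S' hS ⟨q, h1, h2, h3, ⟨h4, h5, h6⟩, h7⟩
    have h8 := sq_gt h4
    exact ⟨q, h1, h2, h3, ⟨h4, (hS _ (by omega) (by omega)).1 h5, (hS _ (by omega) (by omega)).1 h6⟩, h7⟩
  exact propext ⟨key S S' hS, key S' S (fun j h1 h2 => (hS j h1 h2).symm)⟩

theorem many_tests {S : Set ℕ} (hS : Tendsto (fun h : ℕ => ((Ws Wsq S h).card : ℝ) * Real.log h ^ 2 / h) atTop (𝓝 (1 / 2))) :
    ∀ᶠ n : ℕ in atTop, 32 * Real.log n ^ 2 ≤ ((Ws Wsq S ⌊Real.log (n : ℝ) ^ 3⌋₊).card : ℝ) := by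
  have htop : Tendsto (fun n : ℕ => ⌊Real.log (n : ℝ) ^ 3⌋₊) atTop atTop :=
    tendsto_nat_floor_atTop.comp ((tendsto_pow_atTop (by norm_num)).comp hl)
  filter_upwards [htop.eventually (hS.eventually_const_lt (show (1 / 4 : ℝ) < 1 / 2 by norm_num)), htop.eventually_ge_atTop 3,
    hl.eventually_ge_atTop 2, (ll_pow_div 2).eventually_le_const (show (0 : ℝ) < 1 / 4608 by norm_num), lll.eventually_gt_atTop 0]
    with n h1 h2 h3 h4 h5
  obtain ⟨h, hh⟩ : ∃ h, h = ⌊Real.log (n : ℝ) ^ 3⌋₊ := ⟨_, rfl⟩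
  rw [← hh] at h1 h2 ⊢
  have hh0 : (0 : ℝ) < h := by exact_mod_cast (show 0 < h by omega)
  have hL : 0 < Real.log (h : ℝ) := Real.log_pos (by exact_mod_cast (show 1 < h by omega))
  have hle : (h : ℝ) ≤ Real.log n ^ 3 := by
    rw [hh]
    exact Nat.floor_le (by positivity)
  have hge : Real.log (n : ℝ) ^ 3 / 2 ≤ h := by
    have h6 := Nat.lt_floor_add_one (Real.log (n : ℝ) ^ 3)
    rw [← hh] at h6
    have h7 : (2 : ℝ) ^ 3 ≤ Real.log (n : ℝ) ^ 3 := pow_le_pow_left₀ (by norm_num) h3 3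
    linarith
  have hlog : Real.log (h : ℝ) ≤ 3 * Real.log (Real.log n) := by
    have h6 := Real.log_le_log hh0 hle
    rw [Real.log_pow] at h6
    push_cast at h6
    exact h6
  rw [lt_div_iff₀ hh0] at h1
  rw [div_le_iff₀ (by linarith)] at h4
  have h6 : Real.log (h : ℝ) ^ 2 ≤ 9 * Real.log (Real.log n) ^ 2 := by
    have h7 := pow_le_pow_left₀ hL.le hlog 2
    linarith [show (3 * Real.log (Real.log (n : ℝ))) ^ 2 = 9 * Real.log (Real.log n) ^ 2 by ring]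
  have h7 : Real.log (h : ℝ) ^ 2 ≤ Real.log n / 512 := by linarith
  obtain ⟨c, hc⟩ : ∃ c : ℝ, c = ((Ws Wsq S h).card : ℝ) := ⟨_, rfl⟩
  rw [← hc] at h1 ⊢
  have hc0 : 0 ≤ c := by rw [hc]; positivity
  by_contra hcon
  push Not at hcon
  have hL2 : 0 < Real.log (h : ℝ) ^ 2 := by positivity
  have h8 : c * Real.log (h : ℝ) ^ 2 ≤ 32 * Real.log n ^ 2 * (Real.log n / 512) :=
    mul_le_mul hcon.le h7 hL2.le (by positivity)
  have h9 : 32 * Real.log (n : ℝ) ^ 2 * (Real.log n / 512) = Real.log n ^ 3 / 16 := by ring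
  have h10 : (0 : ℝ) < Real.log n ^ 3 := by positivity
  linarith

/-- Small `m`. -/
theorem ex_small (hA : IsCramer μ A) : ∀ᵐ ω ∂μ, ∀ᶠ n : ℕ in atTop, ∀ m : ℕ, 1 ≤ m → (m : ℝ) ≤ Real.log n ^ 3 →
    ∃ q : ℕ, m * q < n ∧ Wsq q (A ω) ∧ n - m * q ∈ A ω := by
  classical
  filter_upwards [low_all hA Hm (fun n m a _ => dep_Hm n m a) (fun n _ => n + 1) (fun n => 32 * Real.log n)
    (Eventually.of_forall (fun n => le_rfl)), lawsq hA] with ω h1 hW
  filter_upwards [h1, many_tests hW, two_pow_le 6, pb_place0 one_pos, hl.eventually_ge_atTop 2] with n h2 h3 h4 h5 h6 m hm1 hm2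
  obtain ⟨L, hL⟩ : ∃ L : ℝ, L = Real.log (n : ℝ) := ⟨_, rfl⟩
  rw [← hL] at h2 h3 h6 hm2
  have hsmall : ∀ q : ℕ, (q : ℝ) ≤ L ^ 3 → 2 * (m * q) + 6 ≤ n ∧ 2 * q ^ 2 + 6 ≤ n := by
    intro q hq
    constructor
    · refine h4 (m * q) ?_
      push_cast
      rw [← hL]
      calc (m : ℝ) * q ≤ L ^ 3 * L ^ 3 := mul_le_mul hm2 hq (Nat.cast_nonneg _) (by positivity)
        _ = L ^ 6 := by ring
    · refine h4 (q ^ 2) ?_
      push_cast
      rw [← hL]
      calc (q : ℝ) ^ 2 ≤ (L ^ 3) ^ 2 := pow_le_pow_left₀ (Nat.cast_nonneg _) hq 2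
        _ = L ^ 6 := by ring
  have hfl : ∀ q ∈ Ws Wsq (A ω) ⌊L ^ 3⌋₊, 3 ≤ q ∧ (q : ℝ) ≤ L ^ 3 ∧ Wsq q (A ω) := by
    intro q hq
    rw [mem_Ws] at hq
    refine ⟨hq.2.1, ?_, hq.2⟩
    have : (q : ℝ) ≤ ⌊L ^ 3⌋₊ := by exact_mod_cast hq.1.2
    exact this.trans (Nat.floor_le (by positivity))
  have hlam : 32 * L ≤ lam 3 (n + 1) (Hm n m) (A ω) := by
    unfold lam
    have hsub : (Ws Wsq (A ω) ⌊L ^ 3⌋₊).image (fun q => n - m * q) ⊆ (Ico 3 (n + 1)).filter (fun a => Hm n m a (A ω)) := by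
      intro a ha
      rw [mem_image] at ha
      obtain ⟨q, hq, rfl⟩ := ha
      obtain ⟨g1, g2, g3⟩ := hfl q hq
      obtain ⟨g4, g5⟩ := hsmall q g2
      rw [mem_filter, mem_Ico]
      exact ⟨⟨by omega, by omega⟩, q, g1, by rw [← hL]; exact g2, by omega, g3, rfl⟩
    have hpb : ∀ a, 0 ≤ pb a := pb_nonneg'
    refine le_trans ?_ (sum_le_sum_of_subset_of_nonneg hsub (fun a _ _ => hpb a))
    have hinj : Set.InjOn (fun q => n - m * q) (Ws Wsq (A ω) ⌊L ^ 3⌋₊ : Set ℕ) := by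
      intro q hq q' hq' h
      have g1 := hsmall q (hfl q (mem_coe.1 hq)).2.1
      have g2 := hsmall q' (hfl q' (mem_coe.1 hq')).2.1
      have g3 : n - m * q = n - m * q' := h
      have g4 : m * q = m * q' := by omega
      exact Nat.eq_of_mul_eq_mul_left (show 0 < m by omega) g4
    rw [sum_image hinj]
    have hone : ∀ q ∈ Ws Wsq (A ω) ⌊L ^ 3⌋₊, 1 / L ≤ pb (n - m * q) := by
      intro q hq
      have g1 := hsmall q (hfl q hq).2.1
      have g2 := (h5 (n - m * q) (by omega) (by omega)).1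
      rw [← hL] at g2
      rw [div_le_iff₀ (by linarith)]
      exact g2
    refine le_trans ?_ (sum_le_sum hone)
    rw [sum_const, nsmul_eq_mul, mul_one_div, le_div_iff₀ (by linarith)]
    nlinarith
  have h7 := h2 m (by
    have := (hsmall 3 (by push_cast; nlinarith [pow_le_pow_left₀ (show (0:ℝ) ≤ 2 by norm_num) h6 3])).1
    omega) hlam
  unfold hits at h7
  obtain ⟨a, ha⟩ := card_pos.1 (show 0 < _ from h7)
  rw [mem_filter, mem_Ico] at ha
  obtain ⟨_, ⟨q, g1, g2, g3, g4, rfl⟩, g5⟩ := ha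
  exact ⟨q, by omega, g4, g5⟩

/-- All pairs. -/
theorem all_pairs (hA : IsCramer μ A) : ∀ᵐ ω ∂μ, ∃ C : ℕ, ∀ m n : ℕ, 1 ≤ m → C ≤ n → C * m ≤ n →
    ∃ p, p < n ∧ p ∈ A ω ∧ Wsq ((n - p) / m) (A ω) := by
  filter_upwards [ex_small hA, ae_gap hA, lawsq hA] with ω h1 h2 hW
  obtain ⟨q0, hq0⟩ : ∃ q0, Wsq q0 (A ω) := by
    obtain ⟨n, h3, h4⟩ := ((many_tests hW).and (hl.eventually_ge_atTop 1)).exists
    have h5 : 0 < (Ws Wsq (A ω) ⌊Real.log (n : ℝ) ^ 3⌋₊).card := by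
      have : (0 : ℝ) < ((Ws Wsq (A ω) ⌊Real.log (n : ℝ) ^ 3⌋₊).card : ℝ) := by nlinarith
      exact_mod_cast this
    obtain ⟨q, hq⟩ := card_pos.1 h5
    exact ⟨q, (mem_Ws.1 hq).2⟩
  obtain ⟨n1, hn1⟩ := eventually_atTop.1 h1
  obtain ⟨n2, hn2⟩ := eventually_atTop.1 h2
  obtain ⟨n3, hn3⟩ := eventually_atTop.1 (hl.eventually_ge_atTop 4)
  obtain ⟨n4, hn4⟩ := eventually_atTop.1 (two_pow_le 3)
  refine ⟨2 * q0 + n1 + 2 * n2 + n3 + n4 + 2, fun m n hm hn hmn => ?_⟩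
  by_cases h3 : (m : ℝ) ≤ Real.log n ^ 3
  · obtain ⟨q, g1, g2, g3⟩ := hn1 n (by omega) m hm h3
    have hq : 3 ≤ q := g2.1
    have hmq : 1 * 3 ≤ m * q := Nat.mul_le_mul hm hq
    refine ⟨n - m * q, by omega, g3, ?_⟩
    have e : n - (n - m * q) = m * q := by omega
    rw [e, Nat.mul_div_cancel_left q (by omega)]
    exact g2
  · push Not at h3
    have hL := hn3 n (by omega)
    have h4 : 2 * q0 * m ≤ n := le_trans (Nat.mul_le_mul_right m (by omega)) hmn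
    have h4' : 2 * (m * q0) ≤ n := by
      have : 2 * q0 * m = 2 * (m * q0) := by ring
      omega
    obtain ⟨n', hn'⟩ : ∃ n', n' = n - m * q0 := ⟨_, rfl⟩
    have hn'1 : n2 ≤ n' := by omega
    have hn'2 : 1 ≤ n' := by omega
    obtain ⟨j, g1, g2, g3⟩ := hn2 n' hn'1
    have hlog : Real.log (n' : ℝ) ≤ Real.log n :=
      Real.log_le_log (by exact_mod_cast hn'2) (by exact_mod_cast (show n' ≤ n by omega))
    have hlog0 : 0 ≤ Real.log (n' : ℝ) := Real.log_nonneg (by exact_mod_cast hn'2)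
    have h5 : (j : ℝ) ≤ 2 * Real.log n ^ 2 := g2.trans (by nlinarith)
    have h6 : (j : ℝ) < m := by
      have : 2 * Real.log (n : ℝ) ^ 2 ≤ Real.log n ^ 3 := by nlinarith [mul_nonneg (sq_nonneg (Real.log (n : ℝ))) (show 0 ≤ Real.log (n : ℝ) - 2 by linarith)]
      linarith
    have h7 : j < m := by exact_mod_cast h6
    have h8 : 2 * j + 6 ≤ n := by
      refine hn4 n (by omega) j (h5.trans ?_)
      nlinarith [mul_nonneg (sq_nonneg (Real.log (n : ℝ))) (show 0 ≤ Real.log (n : ℝ) - 2 by linarith)]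
    refine ⟨n' - j, by omega, g3, ?_⟩
    have e : n - (n' - j) = m * q0 + j := by omega
    rw [e]
    have e2 : (m * q0 + j) / m = q0 := by
      rw [Nat.mul_add_div (by omega), Nat.div_eq_of_lt h7, add_zero]
    rw [e2]
    exact hq0

end Pool.Agent.Q197.CI
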