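import Pool.Agent.Q197.CI.Base

/-!
# The elements of the random set in increasing order, and Chernoff bounds for sequential tests
-/

set_option autoImplicit false

namespace Pool.Agent.Q197.CI

open Finset MeasureTheory Filter Pool.Agent.Q120.ET Pool.Agent.Q120.MF

open Classical in
/-- The number of elements in `[3, x)`. -/
noncomputable def ct (S : Set ℕ) (x : ℕ) : ℕ := ((Ico 3 x).filter (fun j => j ∈ S)).card

/-- `a` is the `m`-th element `≥ 3`. -/
def IsEl (S : Set ℕ) (m a : ℕ) : Prop := 3 ≤ a ∧ a ∈ S ∧ ct S a + 1 = m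

/-- The `m`-th element `≥ 3`, `m ≥ 1`. -/
noncomputable def el (S : Set ℕ) (m : ℕ) : ℕ := Nat.nth (fun j => 3 ≤ j ∧ j ∈ S) (m - 1)

theorem ct_succ_of_mem {S : Set ℕ} {x : ℕ} (h3 : 3 ≤ x) (hx : x ∈ S) : ct S (x + 1) = ct S x + 1 := by
  classical
  unfold ct
  have h1 : Ico 3 (x + 1) = insert x (Ico 3 x) := by
    ext j
    rw [mem_insert, mem_Ico, mem_Ico]
    omega
  rw [h1, filter_insert, if_pos hx, card_insert_of_notMem (by simp)]

theorem ct_succ_of_notMem {S : Set ℕ} {x : ℕ} (hx : ¬ (3 ≤ x ∧ x ∈ S)) : ct S (x + 1) = ct S x := by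
  classical
  unfold ct
  congr 1
  ext j
  rw [mem_filter, mem_filter, mem_Ico, mem_Ico]
  constructor
  · rintro ⟨⟨h1, h2⟩, h3⟩
    refine ⟨⟨h1, ?_⟩, h3⟩
    by_contra hcon
    have : j = x := by omega
    rw [this] at h1 h3
    exact hx ⟨h1, h3⟩
  · rintro ⟨⟨h1, h2⟩, h3⟩
    exact ⟨⟨h1, by omega⟩, h3⟩

theorem ct_mono (S : Set ℕ) : Monotone (ct S) := by
  classical
  intro x y h
  unfold ct
  refine card_le_card (filter_subset_filter _ (fun j hj => ?_))
  rw [mem_Ico] at hj ⊢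
  omega

theorem ct_succ_le (S : Set ℕ) (x : ℕ) : ct S (x + 1) ≤ ct S x + 1 := by
  by_cases h : 3 ≤ x ∧ x ∈ S
  · rw [ct_succ_of_mem h.1 h.2]
  · rw [ct_succ_of_notMem h]
    omega

theorem ct_le_sub (S : Set ℕ) (x : ℕ) : ct S x ≤ x - 3 := by
  classical
  unfold ct
  refine (card_filter_le _ _).trans ?_
  rw [Nat.card_Ico]

theorem ct_three (S : Set ℕ) : ct S 3 = 0 := by
  have := ct_le_sub S 3
  omega

theorem ct_add_le (S : Set ℕ) {x y : ℕ} (h : y ≤ x) : ct S x ≤ ct S y + (x - y) := by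
  induction x, h using Nat.le_induction with
  | base => simp
  | succ x hx ih =>
    have := ct_succ_le S x
    omega

theorem dep_ct {z x : ℕ} (h : z ≤ x) : Dep x (fun S => ct S z) := by
  classical
  intro S S' hS
  show ct S z = ct S' z
  unfold ct
  have h1 : (Ico 3 z).filter (fun j => j ∈ S) = (Ico 3 z).filter (fun j => j ∈ S') := by
    refine filter_congr (fun j hj => ?_)
    rw [mem_Ico] at hj
    exact hS j hj.1 (by omega)
  rw [h1]

theorem dep_isEl {m a x : ℕ} (h : a < x) : Dep x (fun S => IsEl S m a) := by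
  intro S S' hS
  have h1 : ct S a = ct S' a := dep_ct h.le S S' hS
  show (3 ≤ a ∧ a ∈ S ∧ ct S a + 1 = m) = (3 ≤ a ∧ a ∈ S' ∧ ct S' a + 1 = m)
  rw [h1]
  by_cases h3 : 3 ≤ a
  · rw [hS a h3 h]
  · simp [h3]

theorem isEl_unique {S : Set ℕ} {m a b : ℕ} (ha : IsEl S m a) (hb : IsEl S m b) : a = b := by
  obtain ⟨h1, h2, h3⟩ := ha
  obtain ⟨h4, h5, h6⟩ := hb
  rcases lt_trichotomy a b with h | h | h
  · have h7 := ct_mono S (show a + 1 ≤ b by omega)
    rw [ct_succ_of_mem h1 h2] at h7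
    omega
  · exact h
  · have h7 := ct_mono S (show b + 1 ≤ a by omega)
    rw [ct_succ_of_mem h4 h5] at h7
    omega

theorem isEl_lt {S : Set ℕ} {m m' a b : ℕ} (ha : IsEl S m a) (hb : IsEl S m' b) (h : m < m') : a < b := by
  by_contra hcon
  have h7 := ct_mono S (show b ≤ a by omega)
  obtain ⟨h1, h2, h3⟩ := ha
  obtain ⟨h4, h5, h6⟩ := hb
  omega

theorem isEl_idx {S : Set ℕ} {m m' a : ℕ} (ha : IsEl S m a) (hb : IsEl S m' a) : m = m' := by
  obtain ⟨h1, h2, h3⟩ := ha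
  obtain ⟨h4, h5, h6⟩ := hb
  omega

theorem exists_isEl {S : Set ℕ} {m x : ℕ} (hm : 1 ≤ m) (h : m ≤ ct S x) : ∃ a, a < x ∧ IsEl S m a := by
  induction x with
  | zero =>
    have := ct_le_sub S 0
    omega
  | succ x ih =>
    by_cases h1 : m ≤ ct S x
    · obtain ⟨a, h2, h3⟩ := ih h1
      exact ⟨a, by omega, h3⟩
    · by_cases h2 : 3 ≤ x ∧ x ∈ S
      · rw [ct_succ_of_mem h2.1 h2.2] at h
        exact ⟨x, by omega, h2.1, h2.2, by omega⟩
      · rw [ct_succ_of_notMem h2] at h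
        omega

theorem le_of_ct_lt {S : Set ℕ} {m a l : ℕ} (ha : IsEl S m a) (h : ct S l < m) : l ≤ a := by
  by_contra hcon
  have h7 := ct_mono S (show a + 1 ≤ l by omega)
  rw [ct_succ_of_mem ha.1 ha.2.1] at h7
  have := ha.2.2
  omega

theorem lt_of_le_ct {S : Set ℕ} {m a u : ℕ} (ha : IsEl S m a) (h : m ≤ ct S u) : a < u := by
  by_contra hcon
  have h7 := ct_mono S (show u ≤ a by omega)
  have := ha.2.2
  omega

theorem isEl_ge {S : Set ℕ} {m a : ℕ} (ha : IsEl S m a) : m + 2 ≤ a := by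
  have h1 := ct_le_sub S a
  have h2 := ha.2.2
  have h3 := ha.1
  omega

theorem isEl_pos {S : Set ℕ} {m a : ℕ} (ha : IsEl S m a) : 1 ≤ m := by
  have h2 := ha.2.2
  omega

theorem isEl_el {S : Set ℕ} (hS : S.Infinite) {m : ℕ} (hm : 1 ≤ m) : IsEl S m (el S m) := by
  classical
  have hinf : {j | 3 ≤ j ∧ j ∈ S}.Infinite := by
    have h1 : {j | 3 ≤ j ∧ j ∈ S} = S \ {j | j < 3} := by
      ext j
      simp only [Set.mem_ofPred_eq, Set.mem_sdiff]
      constructor
      · rintro ⟨h1, h2⟩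
        exact ⟨h2, by omega⟩
      · rintro ⟨h1, h2⟩
        exact ⟨by omega, h1⟩
    rw [h1]
    exact hS.sdiff (Set.finite_lt_nat 3)
  have h1 := Nat.nth_mem_of_infinite hinf (m - 1)
  have h2 := Nat.count_nth_of_infinite hinf (m - 1)
  refine ⟨h1.1, h1.2, ?_⟩
  have h3 : ct S (el S m) = Nat.count (fun j => 3 ≤ j ∧ j ∈ S) (el S m) := by
    rw [Nat.count_eq_card_filter_range]
    unfold ct
    congr 1
    ext j
    rw [mem_filter, mem_filter, mem_Ico, mem_range]
    tauto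
  rw [h3]
  unfold el
  rw [h2]
  omega

theorem el_eq {S : Set ℕ} (hS : S.Infinite) {m a : ℕ} (h : IsEl S m a) : el S m = a :=
  isEl_unique (isEl_el hS (isEl_pos h)) h

open Classical in
/-- The number of successful tests in `[y, x)`. -/
noncomputable def hits (y x : ℕ) (H : ℕ → Set ℕ → Prop) (S : Set ℕ) : ℕ :=
  ((Ico y x).filter (fun a => H a S ∧ a ∈ S)).card

open Classical in
/-- The sum of the probabilities of success. -/
noncomputable def lam (y x : ℕ) (H : ℕ → Set ℕ → Prop) (S : Set ℕ) : ℝ :=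
  ∑ a ∈ (Ico y x).filter (fun a => H a S), pb a

theorem chernoff {y : ℕ} (hy : 3 ≤ y) {T0 : Finset ℕ} (hT0 : ∀ j ∈ T0, j < y) (H : ℕ → Set ℕ → Prop)
    (hH : ∀ a, y ≤ a → Dep a (H a)) (s : ℝ) (x : ℕ) :
    Ex y T0 x (fun S => Real.exp (s * hits y x H S - (Real.exp s - 1) * lam y x H S)) ≤ 1 := by
  classical
  obtain ⟨m, hm⟩ : ∃ m : ℕ → Set ℕ → ℝ, m = fun a S => if H a S then
      (if a ∈ S then Real.exp s else 1) * Real.exp (-((Real.exp s - 1) * pb a)) else 1 := ⟨_, rfl⟩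
  have h1 := ex_prod_le hy hT0 m ?_ ?_ ?_ x
  · refine le_trans (le_of_eq (ex_congr (fun T _ => ?_))) h1
    obtain ⟨S, hS⟩ : ∃ S : Set ℕ, S = ((T0 ∪ T : Finset ℕ) : Set ℕ) := ⟨_, rfl⟩
    rw [← hS]
    have h2 : ∀ a ∈ Ico y x, m a S = Real.exp (s * (if H a S ∧ a ∈ S then 1 else 0) -
        (Real.exp s - 1) * (if H a S then pb a else 0)) := by
      intro a _
      rw [hm]
      simp only
      by_cases h3 : H a S
      · by_cases h4 : a ∈ S
        · rw [if_pos h3, if_pos h4, if_pos ⟨h3, h4⟩, if_pos h3, ← Real.exp_add]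
          congr 1
          ring
        · rw [if_pos h3, if_neg h4, if_neg (fun h => h4 h.2), if_pos h3, one_mul]
          congr 1
          ring
      · rw [if_neg h3, if_neg (fun h => h3 h.1), if_neg h3]
        simp
    rw [prod_congr rfl h2, ← Real.exp_sum, sum_sub_distrib, ← mul_sum, ← mul_sum]
    unfold hits lam
    rw [card_filter, sum_filter]
    push_cast
    rfl
  · intro a ha S S' hS
    rw [hm]
    simp only
    have h2 : H a S ↔ H a S' := by
      rw [hH a ha S S' (fun j h3 hj => hS j h3 (by omega))]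
    have h3 : a ∈ S ↔ a ∈ S' := hS a (by omega) (by omega)
    simp only [h2, h3]
  · intro a S _
    rw [hm]
    simp only
    split_ifs <;> positivity
  · intro a ha S haS
    rw [hm]
    simp only
    have h2 : H a (insert a S) ↔ H a S := by
      rw [hH a ha (insert a S) S (fun j h3 hj => ?_)]
      rw [Set.mem_insert_iff]
      constructor
      · rintro (h4 | h4)
        · omega
        · exact h4
      · exact fun h4 => Or.inr h4
    by_cases h3 : H a S
    · rw [if_pos (h2.2 h3), if_pos h3, if_pos (Set.mem_insert a S), if_neg haS]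
      have h4 : pb a * (Real.exp s * Real.exp (-((Real.exp s - 1) * pb a))) +
          (1 - pb a) * (1 * Real.exp (-((Real.exp s - 1) * pb a))) =
          (1 + (Real.exp s - 1) * pb a) * Real.exp (-((Real.exp s - 1) * pb a)) := by ring
      rw [h4]
      have h5 := Real.add_one_le_exp ((Real.exp s - 1) * pb a)
      calc (1 + (Real.exp s - 1) * pb a) * Real.exp (-((Real.exp s - 1) * pb a))
          ≤ Real.exp ((Real.exp s - 1) * pb a) * Real.exp (-((Real.exp s - 1) * pb a)) :=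
            mul_le_mul_of_nonneg_right (by linarith) (Real.exp_pos _).le
        _ = 1 := by rw [← Real.exp_add]; simp
    · rw [if_neg (fun h => h3 (h2.1 h)), if_neg h3]
      linarith

/-- Upper tail. -/
theorem tail_up {y : ℕ} (hy : 3 ≤ y) {T0 : Finset ℕ} (hT0 : ∀ j ∈ T0, j < y) (H : ℕ → Set ℕ → Prop)
    (hH : ∀ a, y ≤ a → Dep a (H a)) (x : ℕ) {η l t : ℝ} (hη0 : 0 ≤ η) (hη1 : η ≤ 2) (hl : 0 ≤ l)
    (ht : (1 + η) * l ≤ t) :
    Pr y T0 x (fun S => lam y x H S ≤ l ∧ t ≤ hits y x H S) ≤ Real.exp (-(η ^ 2 * l / 4)) := by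
  obtain ⟨s, hs⟩ : ∃ s : ℝ, s = η / 2 := ⟨_, rfl⟩
  have hs0 : 0 ≤ s := by rw [hs]; linarith
  have hs1 : s ≤ 1 := by rw [hs]; linarith
  have h1 := pr_le_of_prod (c := Real.exp (s * t - (Real.exp s - 1) * l)) hy
    (chernoff hy hT0 H hH s x) (fun S => (Real.exp_pos _).le)
    (Q := fun S => lam y x H S ≤ l ∧ t ≤ hits y x H S) (Real.exp_pos _) ?_
  · refine h1.trans ?_
    rw [one_div, ← Real.exp_neg, Real.exp_le_exp]
    have h2 := Real.abs_exp_sub_one_sub_id_le (x := s) (by rw [abs_of_nonneg hs0]; exact hs1)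
    rw [abs_le] at h2
    have h3 : Real.exp s - 1 ≤ s + s ^ 2 := by linarith [h2.2]
    have h4 : (Real.exp s - 1) * l ≤ (s + s ^ 2) * l := mul_le_mul_of_nonneg_right h3 hl
    have h5 : s * ((1 + η) * l) ≤ s * t := mul_le_mul_of_nonneg_left ht hs0
    have h6 : s * ((1 + η) * l) - (s + s ^ 2) * l = η ^ 2 * l / 4 := by rw [hs]; ring
    linarith
  · intro T _ hT
    rw [Real.exp_le_exp]
    obtain ⟨h2, h3⟩ := hT
    have h4 : 0 ≤ Real.exp s - 1 := by
      have := Real.add_one_le_exp s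
      linarith
    have h5 := mul_le_mul_of_nonneg_left h2 h4
    have h6 := mul_le_mul_of_nonneg_left h3 hs0
    linarith

/-- Lower tail. -/
theorem tail_low {y : ℕ} (hy : 3 ≤ y) {T0 : Finset ℕ} (hT0 : ∀ j ∈ T0, j < y) (H : ℕ → Set ℕ → Prop)
    (hH : ∀ a, y ≤ a → Dep a (H a)) (x : ℕ) {η l t : ℝ} (hη0 : 0 ≤ η) (hη1 : η ≤ 2) (hl : 0 ≤ l)
    (ht : t ≤ (1 - η) * l) :
    Pr y T0 x (fun S => l ≤ lam y x H S ∧ (hits y x H S : ℝ) ≤ t) ≤ Real.exp (-(η ^ 2 * l / 4)) := by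
  obtain ⟨s, hs⟩ : ∃ s : ℝ, s = η / 2 := ⟨_, rfl⟩
  have hs0 : 0 ≤ s := by rw [hs]; linarith
  have hs1 : s ≤ 1 := by rw [hs]; linarith
  have h1 := pr_le_of_prod (c := Real.exp (-s * t - (Real.exp (-s) - 1) * l)) hy
    (chernoff hy hT0 H hH (-s) x) (fun S => (Real.exp_pos _).le)
    (Q := fun S => l ≤ lam y x H S ∧ (hits y x H S : ℝ) ≤ t) (Real.exp_pos _) ?_
  · refine h1.trans ?_
    rw [one_div, ← Real.exp_neg, Real.exp_le_exp]
    have h2 := Real.abs_exp_sub_one_sub_id_le (x := -s) (by rw [abs_neg, abs_of_nonneg hs0]; exact hs1)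
    rw [abs_le] at h2
    have h3 : Real.exp (-s) - 1 ≤ -s + s ^ 2 := by nlinarith [h2.2]
    have h4 : (Real.exp (-s) - 1) * l ≤ (-s + s ^ 2) * l := mul_le_mul_of_nonneg_right h3 hl
    have h5 : s * t ≤ s * ((1 - η) * l) := mul_le_mul_of_nonneg_left ht hs0
    have h6 : s * ((1 - η) * l) + (-s + s ^ 2) * l = -(η ^ 2 * l / 4) := by rw [hs]; ring
    linarith
  · intro T _ hT
    rw [Real.exp_le_exp]
    obtain ⟨h2, h3⟩ := hT
    have h4 : Real.exp (-s) - 1 ≤ 0 := by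
      have : Real.exp (-s) ≤ 1 := Real.exp_le_one_iff.2 (by linarith)
      linarith
    have h5 := mul_le_mul_of_nonpos_left h2 h4
    have h6 := mul_le_mul_of_nonneg_left h3 hs0
    linarith

/-- The horizon does not matter. -/
theorem ex_horizon {y x x' : ℕ} {T0 : Finset ℕ} (hyx : y ≤ x) (hx : x ≤ x') {F : Set ℕ → ℝ} (hF : Dep x F) :
    Ex y T0 x' F = Ex y T0 x F := by
  induction x', hx using Nat.le_induction with
  | base => rfl
  | succ z hz ih =>
    rw [← ih, ex_succ (by omega)]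
    refine ex_congr (fun T _ => ?_)
    rw [hF (insert z ((T0 ∪ T : Finset ℕ) : Set ℕ)) ((T0 ∪ T : Finset ℕ) : Set ℕ) (fun j h3 hj => ?_)]
    · ring
    · rw [Set.mem_insert_iff]
      constructor
      · rintro (h4 | h4)
        · omega
        · exact h4
      · exact fun h4 => Or.inr h4

theorem pr_horizon {y x x' : ℕ} {T0 : Finset ℕ} (hyx : y ≤ x) (hx : x ≤ x') {Q : Set ℕ → Prop} (hQ : Dep x Q) :
    Pr y T0 x' Q = Pr y T0 x Q := by
  classical
  rw [pr_def, pr_def]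
  refine ex_horizon hyx hx (fun S S' hS => ?_)
  rw [hQ S S' hS]

end Pool.Agent.Q197.CI
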