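import Pool.Agent.Q197.CI.RowF
import Pool.Agent.Q197.CI.C971

/-!
# The places `2 n - j` and `6 (n - j) - 1, 6 (n - j) + 1`
-/

set_option autoImplicit false

namespace Pool.Agent.Q197.CI

open Finset Filter MeasureTheory Pool.Agent.Q120.ET Pool.Agent.Q120.MF
open scoped Topology

theorem pb_place {δ : ℝ} (hδ : 0 < δ) : ∀ᶠ n : ℕ in atTop, ∀ a, n ≤ a → a < 6 * n + 6 →
    1 - δ ≤ pb a * Real.log n ∧ pb a * Real.log n ≤ 1 := by
  filter_upwards [hl.eventually_ge_atTop (max 1 (2 / δ)), eventually_ge_atTop 10] with n h1 h2 a ha1 ha2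
  have hl1 : 1 ≤ Real.log (n : ℝ) := (le_max_left _ _).trans h1
  have hl2 : 2 / δ ≤ Real.log (n : ℝ) := (le_max_right _ _).trans h1
  rw [div_le_iff₀ hδ] at hl2
  have hn0 : (0 : ℝ) < n := by exact_mod_cast (show 0 < n by omega)
  have ha0 : (0 : ℝ) < a := by exact_mod_cast (show 0 < a by omega)
  have h3 : Real.log (n : ℝ) ≤ Real.log a := Real.log_le_log hn0 (by exact_mod_cast ha1)
  have h4 : Real.log (a : ℝ) ≤ Real.log n + 2 := by
    have h5 : (a : ℝ) ≤ 7 * n := by exact_mod_cast (show a ≤ 7 * n by omega)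
    have h6 := Real.log_le_log ha0 h5
    rw [Real.log_mul (by norm_num) hn0.ne'] at h6
    have h7 : Real.log 7 ≤ 2 := by
      rw [Real.log_le_iff_le_exp (by norm_num)]
      have h8 := Real.exp_one_gt_d9
      have h9 : Real.exp 2 = Real.exp 1 * Real.exp 1 := by rw [← Real.exp_add]; norm_num
      rw [h9]
      nlinarith
    linarith
  unfold pb
  rw [one_div_mul_eq_div (Real.log (a : ℝ)) (Real.log (n : ℝ))]
  have h5 : 0 < Real.log (a : ℝ) := by linarith
  constructor
  · rw [le_div_iff₀ h5]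
    by_cases hd : 1 - δ ≤ 0
    · nlinarith
    · push Not at hd
      nlinarith
  · rw [div_le_one h5]
    exact h3

/-- One place. -/
def P1 (n j : ℕ) : Finset ℕ := {2 * n - j}

theorem fix_one : Fix P1 1 1 where
  hb := one_pos
  hβ := le_rfl
  sub := fun M => by
    filter_upwards [pow_log_le M] with n h1 j hj1 hj2 a ha
    unfold P1 at ha
    rw [mem_singleton] at ha
    have h2 : j ≤ n := by exact_mod_cast hj2.trans h1
    omega
  disj := fun M => by
    filter_upwards [pow_log_le M] with n h1 j j' hj1 hj2 hj1' hj2' hne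
    have h2 : j ≤ n := by exact_mod_cast hj2.trans h1
    have h3 : j' ≤ n := by exact_mod_cast hj2'.trans h1
    unfold P1
    rw [disjoint_singleton]
    omega
  sep := fun M => by
    filter_upwards [pow_log_le M, hl.eventually_ge_atTop 1] with n h1 h0 m hm j j' hj1 hj2 hj1' hj2'
    have h2 : j ≤ n := by exact_mod_cast hj2.trans h1
    have hpos : 0 ≤ Real.log (n : ℝ) ^ M := by positivity
    have h3 : n + j' < m := by
      have : (n : ℝ) + j' < m := by linarith
      exact_mod_cast this
    unfold P1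
    rw [disjoint_singleton]
    omega
  hq := fun M δ hδ => by
    filter_upwards [pb_place hδ, pow_log_le M] with n h1 h2 j hj1 hj2
    have h3 : j ≤ n := by exact_mod_cast hj2.trans h2
    have h4 := h1 (2 * n - j) (by omega) (by omega)
    unfold qF P1
    rw [prod_singleton, one_mul, pow_one, abs_le]
    constructor <;> linarith [h4.1, h4.2]

/-- Two places. -/
def P2 (n j : ℕ) : Finset ℕ := {6 * (n - j) - 1, 6 * (n - j) + 1}

theorem fix_two : Fix P2 2 1 where
  hb := one_pos
  hβ := by norm_num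
  sub := fun M => by
    filter_upwards [pow_log_le (M + 1), hl.eventually_ge_atTop 2, eventually_ge_atTop 2] with n h1 h2 h0 j hj1 hj2 a ha
    have h3 : 2 * (j : ℝ) ≤ n := by
      have h4 : 2 * Real.log (n : ℝ) ^ M ≤ Real.log n ^ (M + 1) := by
        rw [pow_succ, mul_comm]
        exact mul_le_mul_of_nonneg_left h2 (by positivity)
      linarith
    have h4 : 2 * j ≤ n := by exact_mod_cast h3
    unfold P2 at ha
    rw [mem_insert, mem_singleton] at ha
    omega
  disj := fun M => by
    filter_upwards [pow_log_le (M + 1), hl.eventually_ge_atTop 2, eventually_ge_atTop 2] with n h1 h2 h0 j j' hj1 hj2 hj1' hj2' hne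
    have h4 : 2 * Real.log (n : ℝ) ^ M ≤ Real.log n ^ (M + 1) := by
      rw [pow_succ, mul_comm]
      exact mul_le_mul_of_nonneg_left h2 (by positivity)
    have h5 : 2 * j ≤ n := by
      have : 2 * (j : ℝ) ≤ n := by linarith
      exact_mod_cast this
    have h6 : 2 * j' ≤ n := by
      have : 2 * (j' : ℝ) ≤ n := by linarith
      exact_mod_cast this
    unfold P2
    rw [disjoint_left]
    intro a ha ha'
    rw [mem_insert, mem_singleton] at ha ha'
    omega
  sep := fun M => by
    filter_upwards [pow_log_le (M + 1), hl.eventually_ge_atTop 2, eventually_ge_atTop 2] with n h1 h2 h0 m hm j j' hj1 hj2 hj1' hj2'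
    have hpos : 0 ≤ Real.log (n : ℝ) ^ M := by positivity
    have h4 : 2 * Real.log (n : ℝ) ^ M ≤ Real.log n ^ (M + 1) := by
      rw [pow_succ, mul_comm]
      exact mul_le_mul_of_nonneg_left h2 (by positivity)
    have h5 : 2 * j ≤ n := by
      have : 2 * (j : ℝ) ≤ n := by linarith
      exact_mod_cast this
    have h3 : n + j' < m := by
      have : (n : ℝ) + j' < m := by linarith
      exact_mod_cast this
    unfold P2
    rw [disjoint_left]
    intro a ha ha'
    rw [mem_insert, mem_singleton] at ha ha'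
    omega
  hq := fun M δ hδ => by
    obtain ⟨e, he⟩ : ∃ e : ℝ, e = min (δ / 2) (1 / 2) := ⟨_, rfl⟩
    have he0 : 0 < e := by rw [he]; exact lt_min (by linarith) (by norm_num)
    have he1 : e ≤ δ / 2 := by rw [he]; exact min_le_left _ _
    have he2 : e ≤ 1 / 2 := by rw [he]; exact min_le_right _ _
    filter_upwards [pb_place he0, pow_log_le (M + 1), hl.eventually_ge_atTop 2, eventually_ge_atTop 2]
      with n h1 h2 h3 h0 j hj1 hj2
    have h4 : 2 * Real.log (n : ℝ) ^ M ≤ Real.log n ^ (M + 1) := by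
      rw [pow_succ, mul_comm]
      exact mul_le_mul_of_nonneg_left h3 (by positivity)
    have h5 : 2 * j ≤ n := by
      have : 2 * (j : ℝ) ≤ n := by linarith
      exact_mod_cast this
    have h6 := h1 (6 * (n - j) - 1) (by omega) (by omega)
    have h7 := h1 (6 * (n - j) + 1) (by omega) (by omega)
    unfold qF P2
    rw [prod_insert (by rw [mem_singleton]; omega), prod_singleton, one_mul, sq, abs_le]
    have h8 : pb (6 * (n - j) - 1) * pb (6 * (n - j) + 1) * (Real.log n * Real.log n) =
        (pb (6 * (n - j) - 1) * Real.log n) * (pb (6 * (n - j) + 1) * Real.log n) := by ring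
    rw [h8]
    constructor <;> nlinarith [h6.1, h6.2, h7.1, h7.2]

theorem pb_nonneg' (a : ℕ) : 0 ≤ pb a := by
  unfold pb
  have := Real.log_natCast_nonneg a
  positivity

theorem pb_le_two (a : ℕ) : pb a ≤ 2 := by
  unfold pb
  rcases Nat.lt_or_ge a 2 with h | h
  · have : a = 0 ∨ a = 1 := by omega
    rcases this with rfl | rfl <;> simp
  · have h1 : Real.log 2 ≤ Real.log (a : ℝ) := Real.log_le_log (by norm_num) (by exact_mod_cast h)
    have h2 := Real.log_two_gt_d9
    rw [div_le_iff₀ (by linarith)]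
    linarith

/-- The elements up to `h`. -/
theorem cD_zero (S : Set ℕ) (h : ℕ) : cD (fun x => 3 ≤ x ∧ x ∈ S) h = ct S (h + 1) := by
  classical
  unfold cD ct
  congr 2
  ext j
  simp only [mem_filter, mem_Icc, mem_Ico]
  constructor
  · rintro ⟨⟨h1, h2⟩, h3, h4⟩
    exact ⟨⟨h3, by omega⟩, h4⟩
  · rintro ⟨⟨h1, h2⟩, h3⟩
    exact ⟨⟨by omega, by omega⟩, h1, h3⟩

variable {Ω : Type*} [MeasurableSpace Ω] {μ : Measure Ω} [IsProbabilityMeasure μ] {A : Ω → Set ℕ}

theorem ct_law' (hA : IsCramer μ A) : ∀ᵐ ω ∂μ, Tendsto (fun h : ℕ => (ct (A ω) (h + 1) : ℝ) * Real.log h / h) atTop (𝓝 1) := by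
  filter_upwards [ct_law hA] with ω h1
  have h2 := (h1.comp (tendsto_add_atTop_nat 1)).div log_succ_ratio one_ne_zero
  have h3 : Tendsto (fun n : ℕ => ((n + 1 : ℕ) : ℝ) / n) atTop (𝓝 1) := by
    have h4 := (tendsto_natCast_div_add_atTop (1 : ℝ)).inv₀ one_ne_zero
    rw [inv_one] at h4
    refine h4.congr (fun n => ?_)
    rw [inv_div]
    push_cast
    rfl
  have h5 := h2.mul h3
  rw [div_one, one_mul] at h5
  refine h5.congr' ?_
  filter_upwards [hl.eventually_gt_atTop 0, eventually_ge_atTop 1] with n h6 h7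
  have hn0 : (0 : ℝ) < n := by exact_mod_cast h7
  have h8 : 0 < Real.log ((n + 1 : ℕ) : ℝ) := Real.log_pos (by exact_mod_cast (show 1 < n + 1 by omega))
  have h9 : (0 : ℝ) < ((n + 1 : ℕ) : ℝ) := by positivity
  show (ct (A ω) (n + 1) : ℝ) * Real.log ((n + 1 : ℕ) : ℝ) / ((n + 1 : ℕ) : ℝ) / (Real.log ((n + 1 : ℕ) : ℝ) / Real.log n) *
    (((n + 1 : ℕ) : ℝ) / n) = _
  field_simp

theorem ct_top {S : Set ℕ} (h : Tendsto (fun h : ℕ => (ct S (h + 1) : ℝ) * Real.log h / h) atTop (𝓝 1)) :
    Tendsto (fun h => ct S (h + 1)) atTop atTop ∧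
    Tendsto (fun h : ℕ => Real.log (ct S (h + 1)) / Real.log h) atTop (𝓝 1) := by
  have h1 : Tendsto (fun h => ct S (h + 1)) atTop atTop := by
    have h2 : Tendsto (fun h : ℕ => (ct S (h + 1) : ℝ)) atTop atTop := by
      have h3 := h.pos_mul_atTop one_pos x_div_log
      refine h3.congr' ?_
      filter_upwards [hl.eventually_gt_atTop 0, eventually_ge_atTop 1] with n h6 h7
      have hn0 : (0 : ℝ) < n := by exact_mod_cast h7
      field_simp
    exact tendsto_natCast_atTop_iff.1 h2
  refine ⟨h1, ?_⟩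
  have h2 : Tendsto (fun h : ℕ => Real.log ((ct S (h + 1) : ℝ) * Real.log h / h)) atTop (𝓝 0) := by
    have := (Real.continuousAt_log one_ne_zero).tendsto.comp h
    rw [Real.log_one] at this
    exact this
  have h3 := ((h2.div_atTop hl).add_const 1).sub ll_div
  rw [zero_add, sub_zero] at h3
  refine h3.congr' ?_
  filter_upwards [hl.eventually_gt_atTop 0, eventually_ge_atTop 1, h1.eventually_ge_atTop 1] with n h6 h7 h8
  have hn0 : (0 : ℝ) < n := by exact_mod_cast h7
  have hc0 : (0 : ℝ) < ct S (n + 1) := by exact_mod_cast h8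
  rw [Real.log_div (by positivity) hn0.ne', Real.log_mul hc0.ne' h6.ne']
  field_simp
  ring

end Pool.Agent.Q197.CI
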