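import Pool.Agent.Q197.CI.Twin

/-!
# The indices `k ^ d * n`, `1 ≤ k ≤ h`
-/

set_option autoImplicit false

namespace Pool.Agent.Q197.CI

open Finset Filter MeasureTheory Pool.Agent.Q120.ET Pool.Agent.Q120.MF
open scoped Topology

/-- The indices. -/
def Jd (d h n : ℕ) : Finset ℕ := (Icc 1 h).image (fun k => k ^ d * n)

theorem mem_Jd {d h n m : ℕ} : m ∈ Jd d h n ↔ ∃ k, 1 ≤ k ∧ k ≤ h ∧ k ^ d * n = m := by
  unfold Jd
  rw [mem_image]
  constructor
  · rintro ⟨k, hk, h1⟩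
    rw [mem_Icc] at hk
    exact ⟨k, hk.1, hk.2, h1⟩
  · rintro ⟨k, hk1, hk2, h1⟩
    exact ⟨k, mem_Icc.2 ⟨hk1, hk2⟩, h1⟩

theorem Jd_ge {d h n m : ℕ} (hm : m ∈ Jd d h n) : n ≤ m := by
  obtain ⟨k, h1, _, h3⟩ := mem_Jd.1 hm
  rw [← h3]
  exact Nat.le_mul_of_pos_left n (Nat.pow_pos h1)

theorem Jd_le {d h n m : ℕ} (hm : m ∈ Jd d h n) : m ≤ h ^ d * n := by
  obtain ⟨k, _, h2, h3⟩ := mem_Jd.1 hm
  rw [← h3]
  exact Nat.mul_le_mul_right n (Nat.pow_le_pow_left h2 d)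

theorem Jd_inj {d n : ℕ} (hd : 1 ≤ d) (hn : 1 ≤ n) : Function.Injective (fun k : ℕ => k ^ d * n) := by
  intro a b hab
  have h1 : a ^ d = b ^ d := Nat.eq_of_mul_eq_mul_right (by omega) hab
  exact Nat.pow_left_injective (by omega) h1

theorem Jd_card {d h n : ℕ} (hd : 1 ≤ d) (hn : 1 ≤ n) : (Jd d h n).card = h := by
  unfold Jd
  rw [card_image_of_injective _ (Jd_inj hd hn), Nat.card_Icc]
  omega

theorem Qp_Jd {d h n : ℕ} (hd : 1 ≤ d) (hn : 1 ≤ n) : Qp (Jd d h n) = ∏ k ∈ Icc 1 h, (1 - pb (fp (k ^ d * n))) := by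
  unfold Qp Jd
  rw [prod_image (fun a _ b _ hab => Jd_inj hd hn hab)]

/-- The overlap of two index sets. -/
theorem card_inter {d n m hn hm : ℕ} (hd : 1 ≤ d) (h1 : 1 ≤ n) (h : n < m) :
    2 * (Jd d hn n ∩ Jd d hm m).card ≤ hn := by
  rcases (Jd d hn n ∩ Jd d hm m).eq_empty_or_nonempty with he | ⟨z, hz⟩
  · rw [he]
    simp
  · rw [mem_inter] at hz
    obtain ⟨k, k1, k2, k3⟩ := mem_Jd.1 hz.1
    obtain ⟨l, l1, l2, l3⟩ := mem_Jd.1 hz.2
    obtain ⟨g, hg⟩ : ∃ g, g = Nat.gcd k l := ⟨_, rfl⟩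
    have hg0 : 0 < g := by rw [hg]; exact Nat.gcd_pos_of_pos_left _ k1
    obtain ⟨a, ha⟩ : g ∣ k := by rw [hg]; exact Nat.gcd_dvd_left k l
    obtain ⟨b, hb⟩ : g ∣ l := by rw [hg]; exact Nat.gcd_dvd_right k l
    have hab : Nat.Coprime a b := by
      have h2 : g * Nat.gcd a b = g := by
        rw [← Nat.gcd_mul_left, ← ha, ← hb, ← hg]
      have h3 : Nat.gcd a b = 1 := by
        have : g * Nat.gcd a b = g * 1 := by rw [h2, mul_one]
        exact Nat.eq_of_mul_eq_mul_left hg0 this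
      exact h3
    have hkl : l < k := by
      by_contra hcon
      have h2 : k ^ d ≤ l ^ d := Nat.pow_le_pow_left (by omega) d
      have h3 : k ^ d * n < l ^ d * m := by
        calc k ^ d * n ≤ l ^ d * n := Nat.mul_le_mul_right n h2
          _ < l ^ d * m := Nat.mul_lt_mul_of_pos_left h (Nat.pow_pos l1)
      omega
    have ha2 : 2 ≤ a := by
      by_contra hcon
      have h2 : a = 0 ∨ a = 1 := by omega
      rcases h2 with h2 | h2
      · rw [h2] at ha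
        omega
      · rw [h2] at ha
        have hb1 : 1 ≤ b := by
          rcases Nat.eq_zero_or_pos b with h3 | h3
          · rw [h3] at hb
            omega
          · exact h3
        have : g * 1 ≤ g * b := Nat.mul_le_mul_left g hb1
        omega
    have hsub : Jd d hn n ∩ Jd d hm m ⊆ ((Ioc 0 hn).filter (fun x => a ∣ x)).image (fun k => k ^ d * n) := by
      intro z' hz'
      rw [mem_inter] at hz'
      obtain ⟨k', k1', k2', k3'⟩ := mem_Jd.1 hz'.1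
      obtain ⟨l', l1', l2', l3'⟩ := mem_Jd.1 hz'.2
      rw [mem_image]
      refine ⟨k', ?_, k3'⟩
      rw [mem_filter, mem_Ioc]
      refine ⟨⟨by omega, k2'⟩, ?_⟩
      have e1 : (k * l') ^ d = (l * k') ^ d := by
        have e2 : k ^ d * n * (l' ^ d * m) = l ^ d * m * (k' ^ d * n) := by rw [k3, l3', l3, k3']
        have e3 : (k ^ d * l' ^ d) * (n * m) = (l ^ d * k' ^ d) * (n * m) := by
          calc (k ^ d * l' ^ d) * (n * m) = k ^ d * n * (l' ^ d * m) := by ring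
            _ = l ^ d * m * (k' ^ d * n) := e2
            _ = (l ^ d * k' ^ d) * (n * m) := by ring
        have e4 := Nat.eq_of_mul_eq_mul_right (Nat.mul_pos (by omega) (by omega)) e3
        rw [mul_pow, mul_pow]
        exact e4
      have e2 : k * l' = l * k' := Nat.pow_left_injective (by omega) e1
      have e3 : a * l' = b * k' := by
        have e4 : g * (a * l') = g * (b * k') := by
          calc g * (a * l') = g * a * l' := by ring
            _ = k * l' := by rw [← ha]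
            _ = l * k' := e2
            _ = g * b * k' := by rw [← hb]
            _ = g * (b * k') := by ring
        exact Nat.eq_of_mul_eq_mul_left hg0 e4
      have e4 : a ∣ b * k' := ⟨l', e3.symm⟩
      exact hab.dvd_of_dvd_mul_left e4
    have h2 := (card_le_card hsub).trans card_image_le
    rw [Nat.Ioc_filter_dvd_card_eq_div] at h2
    have h3 : hn / a ≤ hn / 2 := Nat.div_le_div_left ha2 (by norm_num)
    omega

theorem fp_le : ∀ᶠ m : ℕ in atTop, (fp m : ℝ) ≤ (m : ℝ) ^ (9 / 8 : ℝ) := by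
  filter_upwards [log_fp_ratio.eventually_le_const (show (1 : ℝ) < 9 / 8 by norm_num), hl.eventually_ge_atTop 1,
    eventually_ge_atTop 1] with m h1 h2 h3
  have hm0 : (0 : ℝ) < m := by exact_mod_cast h3
  have hf0 : (0 : ℝ) < fp m := lt_of_lt_of_le hm0 (by exact_mod_cast le_fp m)
  rw [div_le_iff₀ (by linarith)] at h1
  rw [← Real.log_le_log_iff hf0 (by positivity), Real.log_rpow hm0]
  exact h1

/-- Polylogarithms are small. -/
theorem polylog_le (C : ℝ) (d : ℕ) {r : ℝ} (hr : 0 < r) : ∀ᶠ n : ℕ in atTop, (C * Real.log n ^ 2) ^ d ≤ (n : ℝ) ^ r := by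
  have h1 : ∀ᶠ n : ℕ in atTop, |C| * Real.log n ^ 2 ≤ (n : ℝ) ^ (r / (d + 1)) := by
    have h2 := log_le_rpow (η := 1) one_pos (show (0 : ℝ) < r / (d + 1) / 3 by positivity)
    have h3 : Tendsto (fun n : ℕ => (n : ℝ) ^ (r / (d + 1) / 3)) atTop atTop :=
      (tendsto_rpow_atTop (by positivity)).comp tendsto_natCast_atTop_atTop
    filter_upwards [h2, h3.eventually_ge_atTop |C|, hl.eventually_ge_atTop 0, eventually_ge_atTop 1] with n h4 h5 h6 h7
    have hn0 : (0 : ℝ) < n := by exact_mod_cast h7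
    rw [one_mul] at h4
    have h8 : (n : ℝ) ^ (r / (d + 1)) = (n : ℝ) ^ (r / (d + 1) / 3) * ((n : ℝ) ^ (r / (d + 1) / 3)) ^ 2 := by
      rw [← Real.rpow_natCast, ← Real.rpow_mul hn0.le, ← Real.rpow_add hn0]
      congr 1
      push_cast
      ring
    rw [h8]
    have h9 : Real.log n ^ 2 ≤ ((n : ℝ) ^ (r / (d + 1) / 3)) ^ 2 := pow_le_pow_left₀ h6 h4 2
    exact mul_le_mul h5 h9 (sq_nonneg _) (by positivity)
  filter_upwards [h1, eventually_ge_atTop 1] with n h2 h7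
  have hn1 : (1 : ℝ) ≤ n := by exact_mod_cast h7
  have hn0 : (0 : ℝ) < n := by linarith
  have h3 : (C * Real.log n ^ 2) ^ d ≤ (|C| * Real.log n ^ 2) ^ d := by
    have h4 : |(C * Real.log n ^ 2) ^ d| = (|C| * Real.log n ^ 2) ^ d := by
      rw [abs_pow, abs_mul, abs_of_nonneg (sq_nonneg (Real.log (n : ℝ)))]
    rw [← h4]
    exact le_abs_self _
  refine h3.trans ((pow_le_pow_left₀ (by positivity) h2 d).trans ?_)
  rw [← Real.rpow_natCast, ← Real.rpow_mul hn0.le]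
  refine Real.rpow_le_rpow_of_exponent_le hn1 ?_
  rw [div_mul_eq_mul_div, div_le_iff₀ (by positivity)]
  nlinarith

/-- The sizes of the indices and of the positions. -/
theorem Jd_size {s d : ℕ} {h : ℕ → ℕ} {C : ℝ} (hC : ∀ᶠ n : ℕ in atTop, (h n : ℝ) ≤ C * Real.log n ^ 2) :
    ∀ᶠ n : ℕ in atTop, ∀ m ∈ Jd d (h n) n, m ≤ n ^ 2 ∧ hi m + s ≤ n ^ 2 ∧ (fp m : ℝ) ≤ (n : ℝ) ^ 2 := by
  obtain ⟨m1, hm1⟩ := eventually_atTop.1 (fp_le.and pos_bounds)
  have h0 : Tendsto (fun n : ℕ => (n : ℝ) ^ (1 / 4 : ℝ)) atTop atTop :=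
    (tendsto_rpow_atTop (by norm_num)).comp tendsto_natCast_atTop_atTop
  filter_upwards [hC, polylog_le C d (show (0 : ℝ) < 1 / 8 by norm_num), eventually_ge_atTop m1,
    eventually_ge_atTop 1, h0.eventually_ge_atTop (3 + s)] with n h1 h2 h3 h4 h5 m hm
  have hn1 : (1 : ℝ) ≤ n := by exact_mod_cast h4
  have hn0 : (0 : ℝ) < n := by linarith
  have h6 := Jd_ge hm
  have h7 : (m : ℝ) ≤ (n : ℝ) ^ (9 / 8 : ℝ) := by
    have e1 : (m : ℝ) ≤ (h n : ℝ) ^ d * n := by exact_mod_cast Jd_le hm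
    have e2 : (h n : ℝ) ^ d ≤ (n : ℝ) ^ (1 / 8 : ℝ) := (pow_le_pow_left₀ (Nat.cast_nonneg _) h1 d).trans h2
    have e3 : (n : ℝ) ^ (9 / 8 : ℝ) = (n : ℝ) ^ (1 / 8 : ℝ) * n := by
      nth_rw 3 [← Real.rpow_one (n : ℝ)]
      rw [← Real.rpow_add hn0]
      norm_num
    rw [e3]
    exact e1.trans (mul_le_mul_of_nonneg_right e2 hn0.le)
  obtain ⟨h8, b1, b2, b3, b4, b5, b6, b7, b8, b9, b10, b11⟩ := hm1 m (h3.trans h6)
  have h9 : (fp m : ℝ) ≤ (n : ℝ) ^ (3 / 2 : ℝ) := by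
    refine h8.trans ((Real.rpow_le_rpow (Nat.cast_nonneg m) h7 (by norm_num)).trans ?_)
    rw [← Real.rpow_mul hn0.le]
    exact Real.rpow_le_rpow_of_exponent_le hn1 (by norm_num)
  have e32 : (n : ℝ) ^ (3 / 2 : ℝ) * (n : ℝ) ^ (1 / 4 : ℝ) ≤ (n : ℝ) ^ 2 := by
    rw [← Real.rpow_add hn0, ← Real.rpow_natCast]
    exact Real.rpow_le_rpow_of_exponent_le hn1 (by norm_num)
  have e33 : 1 ≤ (n : ℝ) ^ (3 / 2 : ℝ) := Real.one_le_rpow hn1 (by norm_num)
  refine ⟨?_, ?_, ?_⟩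
  · have e1 : (m : ℝ) ≤ (n : ℝ) ^ 2 := by
      refine h7.trans ?_
      rw [← Real.rpow_natCast]
      exact Real.rpow_le_rpow_of_exponent_le hn1 (by norm_num)
    exact_mod_cast e1
  · have e1 : ((hi m + s : ℕ) : ℝ) ≤ (n : ℝ) ^ 2 := by
      push_cast
      have e2 : (hi m : ℝ) ≤ 2 * fp m := by
        have : (0 : ℝ) ≤ fp m := Nat.cast_nonneg _
        nlinarith
      have e3 : (0 : ℝ) ≤ s := Nat.cast_nonneg _
      nlinarith
    exact_mod_cast e1
  · have e3 : (0 : ℝ) ≤ s := Nat.cast_nonneg _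
    have e2 : (n : ℝ) ^ (3 / 2 : ℝ) * 1 ≤ (n : ℝ) ^ (3 / 2 : ℝ) * (n : ℝ) ^ (1 / 4 : ℝ) :=
      mul_le_mul_of_nonneg_left (by linarith) (by positivity)
    linarith

theorem Qp_union {J J' : Finset ℕ} : Qp (J ∪ J') = Qp J * Qp (J' \ J) := by
  unfold Qp
  rw [← union_sdiff_self_eq_union, prod_union disjoint_sdiff]

theorem Qp_sdiff_le {J J' : Finset ℕ} (hJ' : ∀ m ∈ J', 3 ≤ m) : Qp J' ≤ Qp (J' \ J) := by
  unfold Qp
  rw [← prod_sdiff (sdiff_subset (s := J') (t := J))]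
  have h1 : 0 ≤ ∏ m ∈ J' \ J, (1 - pb (fp m)) := Qp_nonneg (fun m hm => hJ' m (mem_sdiff.1 hm).1)
  have h2 : ∏ m ∈ J' \ (J' \ J), (1 - pb (fp m)) ≤ 1 := Qp_le_one (fun m hm => hJ' m (mem_sdiff.1 hm).1)
  nlinarith

theorem Qp_le_exp {J : Finset ℕ} {p : ℝ} (h : ∀ m ∈ J, p ≤ pb (fp m)) (h3 : ∀ m ∈ J, 3 ≤ m) :
    Qp J ≤ Real.exp (-(J.card * p)) := by
  unfold Qp
  have h1 : ∏ m ∈ J, (1 - pb (fp m)) ≤ ∏ m ∈ J, Real.exp (-p) := by
    refine prod_le_prod (fun m hm => ?_) (fun m hm => ?_)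
    · have := pb_lt_one (show 3 ≤ fp m from (h3 m hm).trans (le_fp m))
      linarith
    · have e1 := h m hm
      have e2 := Real.add_one_le_exp (-p)
      linarith
  refine h1.trans (le_of_eq ?_)
  rw [prod_const, ← Real.exp_nat_mul]
  congr 1
  ring

end Pool.Agent.Q197.CI
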