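import Pool.Agent.Q197.CI.Kd

/-!
# The number of `n` such that no test at the indices `k ^ d * n`, `k ≤ h n`, succeeds
-/

set_option autoImplicit false

namespace Pool.Agent.Q197.CI

open Finset Filter MeasureTheory Pool.Agent.Q120.ET Pool.Agent.Q120.MF Pool.Agent.Q120.NC
open scoped Topology

variable {Ω : Type*} [MeasurableSpace Ω] {μ : Measure Ω} [IsProbabilityMeasure μ] {A : Ω → Set ℕ}

/-- The bound for the pairs with common indices. -/
theorem overlap {d : ℕ} (hd : 1 ≤ d) {h : ℕ → ℕ} {C : ℝ} (hC0 : 0 ≤ C) {n : ℕ} (hn10 : 10 ≤ n)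
    (hCn : ∀ m, n ≤ m → (h m : ℝ) ≤ C * Real.log m ^ 2) (hmono : ∀ m, n ≤ m → 3 * h n ≤ 4 * h m)
    (hsz : ∀ m, n ≤ m → ∀ j ∈ Jd d (h m) m, j ≤ m ^ 2 ∧ (fp j : ℝ) ≤ (m : ℝ) ^ 2)
    {B : ℝ} (hB : ∀ m, n ≤ m → m ≤ n ^ 2 → Real.log n ^ 4 * Real.exp (-(h m / (6 * Real.log m))) ≤ B)
    {R : Finset ℕ} (hR : ∀ m ∈ R, n < m ∧ ¬ Disjoint (Jd d (h n) n) (Jd d (h m) m)) :
    ∑ m ∈ R, Qp (Jd d (h m) m \ Jd d (h n) n) ≤ 4 * C ^ 2 * B := by
  have hln : 1 < Real.log n := one_lt_log (by omega)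
  have hn0 : (0 : ℝ) < n := by
    have : 0 < n := by omega
    exact_mod_cast this
  have hB0 : 0 ≤ B := le_trans (by positivity) (hB n le_rfl (by nlinarith))
  have hm2 : ∀ m ∈ R, m ≤ n ^ 2 := by
    intro m hm
    obtain ⟨h1, h2⟩ := hR m hm
    rw [Finset.not_disjoint_iff] at h2
    obtain ⟨z, hz1, hz2⟩ := h2
    exact (Jd_ge hz2).trans (hsz n le_rfl z hz1).1
  have hterm : ∀ m ∈ R, Qp (Jd d (h m) m \ Jd d (h n) n) ≤ B / Real.log n ^ 4 := by
    intro m hm
    obtain ⟨h1, h2⟩ := hR m hm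
    have hmn := hm2 m hm
    have hm0 : (0 : ℝ) < m := by
      have : 0 < m := by omega
      exact_mod_cast this
    have hlm : 1 < Real.log m := one_lt_log (by omega)
    have h3 : ∀ j ∈ Jd d (h m) m \ Jd d (h n) n, 1 / (2 * Real.log m) ≤ pb (fp j) := by
      intro j hj
      have hj1 := (mem_sdiff.1 hj).1
      have e1 := (hsz m h1.le j hj1).2
      have e2 := Jd_ge hj1
      have e3 : 10 ≤ fp j := by
        have := le_fp j
        omega
      have e4 : (10 : ℝ) ≤ fp j := by exact_mod_cast e3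
      have e5 := Real.log_le_log (by linarith) e1
      rw [Real.log_pow] at e5
      push_cast at e5
      have e6 : 1 < Real.log (fp j) := one_lt_log (by omega)
      unfold pb
      exact one_div_le_one_div_of_le (by linarith) e5
    have h4 := Qp_le_exp h3 (fun j hj => by
      have := Jd_ge (mem_sdiff.1 hj).1
      omega)
    refine h4.trans ?_
    rw [le_div_iff₀ (by positivity)]
    refine le_trans ?_ (hB m h1.le hmn)
    rw [mul_comm]
    refine mul_le_mul_of_nonneg_left ?_ (by positivity)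
    rw [Real.exp_le_exp]
    have h5 : (h m : ℝ) / 3 ≤ ((Jd d (h m) m \ Jd d (h n) n).card : ℝ) := by
      have e1 := card_inter (hn := h n) (hm := h m) hd (show 1 ≤ n by omega) h1
      have e2 := card_sdiff_add_card_inter (Jd d (h m) m) (Jd d (h n) n)
      rw [Jd_card hd (by omega), inter_comm] at e2
      have e3 := hmono m h1.le
      have e4 : h m ≤ 3 * (Jd d (h m) m \ Jd d (h n) n).card := by omega
      have e5 : (h m : ℝ) ≤ 3 * ((Jd d (h m) m \ Jd d (h n) n).card : ℝ) := by exact_mod_cast e4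
      linarith
    have h6 : (h m : ℝ) / (6 * Real.log m) ≤ ((Jd d (h m) m \ Jd d (h n) n).card : ℝ) * (1 / (2 * Real.log m)) := by
      have e1 : (h m : ℝ) / (6 * Real.log m) = (h m : ℝ) / 3 * (1 / (2 * Real.log m)) := by
        field_simp
        ring
      rw [e1]
      exact mul_le_mul_of_nonneg_right h5 (by positivity)
    linarith
  have hcard : (R.card : ℝ) ≤ 4 * C ^ 2 * Real.log n ^ 4 := by
    obtain ⟨H, hH⟩ : ∃ H : ℕ, H = ⌊4 * C * Real.log n ^ 2⌋₊ := ⟨_, rfl⟩
    have hsub : R ⊆ (Icc 1 (h n) ×ˢ Icc 1 H).image (fun p => p.1 ^ d * n / p.2 ^ d) := by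
      intro m hm
      obtain ⟨h1, h2⟩ := hR m hm
      have hmn := hm2 m hm
      rw [Finset.not_disjoint_iff] at h2
      obtain ⟨z, hz1, hz2⟩ := h2
      obtain ⟨k, k1, k2, k3⟩ := mem_Jd.1 hz1
      obtain ⟨l, l1, l2, l3⟩ := mem_Jd.1 hz2
      rw [mem_image]
      refine ⟨(k, l), mem_product.2 ⟨mem_Icc.2 ⟨k1, k2⟩, mem_Icc.2 ⟨l1, ?_⟩⟩, ?_⟩
      · rw [hH]
        apply Nat.le_floor
        have e1 := hCn m h1.le
        have e2 : (l : ℝ) ≤ h m := by exact_mod_cast l2
        have hm0 : (0 : ℝ) < m := by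
          have : 0 < m := by omega
          exact_mod_cast this
        have e3 : Real.log m ≤ 2 * Real.log n := by
          have e4 : (m : ℝ) ≤ (n : ℝ) ^ 2 := by exact_mod_cast hmn
          have := Real.log_le_log hm0 e4
          rw [Real.log_pow] at this
          push_cast at this
          exact this
        have hlm : 1 < Real.log m := one_lt_log (by omega)
        have e4 : Real.log m ^ 2 ≤ (2 * Real.log n) ^ 2 := pow_le_pow_left₀ (by linarith) e3 2
        have e5 := mul_le_mul_of_nonneg_left e4 hC0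
        nlinarith
      · simp only
        rw [k3, ← l3]
        exact Nat.mul_div_cancel_left m (Nat.pow_pos l1)
    have e1 := (card_le_card hsub).trans card_image_le
    rw [card_product, Nat.card_Icc, Nat.card_Icc] at e1
    have e2 : R.card ≤ h n * H := by simpa using e1
    have e3 : (R.card : ℝ) ≤ h n * H := by exact_mod_cast e2
    have e4 : (H : ℝ) ≤ 4 * C * Real.log n ^ 2 := by rw [hH]; exact Nat.floor_le (by positivity)
    have e5 := hCn n le_rfl
    calc (R.card : ℝ) ≤ h n * H := e3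
      _ ≤ (C * Real.log n ^ 2) * (4 * C * Real.log n ^ 2) := mul_le_mul e5 e4 (Nat.cast_nonneg _) (by positivity)
      _ = 4 * C ^ 2 * Real.log n ^ 4 := by ring
  calc ∑ m ∈ R, Qp (Jd d (h m) m \ Jd d (h n) n) ≤ ∑ m ∈ R, B / Real.log n ^ 4 := sum_le_sum hterm
    _ = R.card * (B / Real.log n ^ 4) := by rw [sum_const, nsmul_eq_mul]
    _ ≤ (4 * C ^ 2 * Real.log n ^ 4) * (B / Real.log n ^ 4) := mul_le_mul_of_nonneg_right hcard (by positivity)
    _ = 4 * C ^ 2 * B := by
      have : Real.log n ≠ 0 := by linarith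
      field_simp

theorem law_kd (hA : IsCramer μ A) {s d : ℕ} (hs : 1 ≤ s) (hd : 1 ≤ d) {h : ℕ → ℕ} {C : ℝ} (hC0 : 0 ≤ C)
    (hC : ∀ᶠ n : ℕ in atTop, (h n : ℝ) ≤ C * Real.log n ^ 2)
    (hmono : ∀ᶠ n : ℕ in atTop, ∀ m, n ≤ m → 3 * h n ≤ 4 * h m)
    (hR : (∃ K0 : ℝ, ∀ᶠ n : ℕ in atTop, ∀ m : ℕ, n ≤ m → m ≤ n ^ 2 →
      Real.log n ^ 4 * Real.exp (-(h m / (6 * Real.log m))) ≤ K0) ∨
      (∃ c : ℝ, 0 < c ∧ ∀ᶠ n : ℕ in atTop, c ≤ Qp (Jd d (h n) n)))
    (hdiv : Tendsto (fun N => ∑ n ∈ range N, Qp (Jd d (h n) n)) atTop atTop) :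
    ∀ᵐ ω ∂μ, Tendsto (fun N => cnt (fun n => Ev A (Jd d (h n) n) (gs s)) N ω / ∑ n ∈ range N, Qp (Jd d (h n) n))
      atTop (𝓝 1) := by
  classical
  obtain ⟨J, hJ⟩ : ∃ J : ℕ → Finset ℕ, J = fun n => Jd d (h n) n := ⟨_, rfl⟩
  have hJn : ∀ n, Jd d (h n) n = J n := fun n => by rw [hJ]
  -- everything from `n0` on
  have hev := (((twin_near hA hs (show 0 ≤ 17 * C by linarith)).and (twin_far hA hs hC0)).and
    ((Jd_size (s := s) (d := d) hC).and (hC.and hmono)))
  obtain ⟨n1, hn1⟩ := eventually_atTop.1 hev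
  obtain ⟨n0, hn0, hn010, hB⟩ : ∃ n0 : ℕ, n1 ≤ n0 ∧ 10 ≤ n0 ∧ ∃ K : ℝ, 0 ≤ K ∧ ∀ n, n0 ≤ n → ∀ m, n ≤ m → m ≤ n ^ 2 →
      ∀ N, n < N → Real.log n ^ 4 * Real.exp (-(h m / (6 * Real.log m))) ≤
        K * (1 + ∑ j ∈ range N, (if j < n0 then 0 else Qp (J j))) ^ (5 / 6 : ℝ) := by
    have hnn : ∀ n0 N : ℕ, 10 ≤ n0 → 0 ≤ ∑ j ∈ range N, (if j < n0 then 0 else Qp (J j)) := by
      intro n0 N h10
      refine sum_nonneg (fun j _ => ?_)
      split_ifs with h1
      · exact le_rfl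
      · rw [hJ]
        exact Qp_nonneg (fun m hm => by have := Jd_ge hm; omega)
    rcases hR with ⟨K0, hK0⟩ | ⟨c, hc, hcQ⟩
    · obtain ⟨n2, hn2⟩ := eventually_atTop.1 hK0
      refine ⟨max n1 (max n2 10), by omega, by omega, max K0 0, le_max_right _ _, fun n hn m hm1 hm2 N hN => ?_⟩
      refine (hn2 n (by omega) m hm1 hm2).trans ((le_max_left K0 0).trans ?_)
      have e1 := hnn (max n1 (max n2 10)) N (by omega)
      have e2 := Real.one_le_rpow (show 1 ≤ 1 + ∑ j ∈ range N, (if j < max n1 (max n2 10) then 0 else Qp (J j)) by linarith)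
        (show (0 : ℝ) ≤ 5 / 6 by norm_num)
      exact le_mul_of_one_le_right (le_max_right _ _) e2
    · obtain ⟨n2, hn2⟩ := eventually_atTop.1 hcQ
      have hlog : ∀ᶠ n : ℕ in atTop, Real.log n ^ 4 ≤ (n : ℝ) ^ (5 / 6 : ℝ) := by
        filter_upwards [polylog_le 1 2 (show (0 : ℝ) < 5 / 6 by norm_num)] with n e1
        calc Real.log n ^ 4 = (1 * Real.log n ^ 2) ^ 2 := by ring
          _ ≤ _ := e1
      obtain ⟨n3, hn3⟩ := eventually_atTop.1 hlog
      obtain ⟨n0, hn0⟩ : ∃ n0, n0 = max n1 (max n2 (max n3 10)) := ⟨_, rfl⟩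
      refine ⟨n0, by omega, by omega, (n0 + 1 / c + 1) ^ (5 / 6 : ℝ), by positivity, fun n hn m hm1 hm2 N hN => ?_⟩
      have e1 : Real.log n ^ 4 * Real.exp (-(h m / (6 * Real.log m))) ≤ (n : ℝ) ^ (5 / 6 : ℝ) := by
        have f1 : Real.exp (-(h m / (6 * Real.log m))) ≤ 1 := by
          rw [Real.exp_le_one_iff]
          have : 0 ≤ Real.log (m : ℝ) := Real.log_natCast_nonneg m
          have : 0 ≤ (h m : ℝ) / (6 * Real.log m) := by positivity
          linarith
        have f2 := hn3 n (by omega)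
        have f3 : 0 ≤ Real.log (n : ℝ) ^ 4 := by positivity
        nlinarith
      refine e1.trans ?_
      have e2 : c * ((n : ℝ) - n0) ≤ ∑ j ∈ range N, (if j < n0 then 0 else Qp (J j)) := by
        have f1 : ∑ j ∈ Ico n0 n, c ≤ ∑ j ∈ range N, (if j < n0 then 0 else Qp (J j)) := by
          calc ∑ j ∈ Ico n0 n, c ≤ ∑ j ∈ Ico n0 n, (if j < n0 then 0 else Qp (J j)) := by
                refine sum_le_sum (fun j hj => ?_)
                rw [mem_Ico] at hj
                rw [if_neg (by omega), hJ]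
                exact hn2 j (by omega)
            _ ≤ _ := by
              refine sum_le_sum_of_subset_of_nonneg (fun j hj => ?_) (fun j _ _ => ?_)
              · rw [mem_Ico] at hj
                rw [mem_range]
                omega
              · split_ifs with h1
                · exact le_rfl
                · rw [hJ]
                  exact Qp_nonneg (fun m hm => by have := Jd_ge hm; omega)
        rw [sum_const, Nat.card_Ico, nsmul_eq_mul, Nat.cast_sub hn] at f1
        linarith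
      rw [← Real.mul_rpow (by positivity) (by have := hnn n0 N (by omega); linarith)]
      refine Real.rpow_le_rpow (Nat.cast_nonneg n) ?_ (by norm_num)
      obtain ⟨S, hS⟩ : ∃ S, S = ∑ j ∈ range N, (if j < n0 then 0 else Qp (J j)) := ⟨_, rfl⟩
      rw [← hS] at e2 ⊢
      have e3 : (n0 : ℝ) ≤ n := by exact_mod_cast hn
      have e4 : 0 ≤ S := by rw [hS]; exact hnn n0 N (by omega)
      have e5 : (n : ℝ) - n0 ≤ 1 / c * S := by
        rw [one_div, ← div_eq_inv_mul, le_div_iff₀ hc]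
        linarith
      have e6 : (0 : ℝ) ≤ n0 := Nat.cast_nonneg _
      have e7 : (0 : ℝ) ≤ 1 / c := by positivity
      nlinarith
  obtain ⟨K, hK0, hK⟩ := hB
  obtain ⟨Q', hQ'⟩ : ∃ Q' : ℕ → ℝ, Q' = fun j => if j < n0 then 0 else Qp (J j) := ⟨_, rfl⟩
  obtain ⟨E', hE'⟩ : ∃ E' : ℕ → Set Ω, E' = fun n => if n < n0 then ∅ else Ev A (J n) (gs s) := ⟨_, rfl⟩
  have hQz : ∀ n, n < n0 → Q' n = 0 := fun n hn => by rw [hQ']; simp only; rw [if_pos hn]
  have hQe : ∀ n, n0 ≤ n → Q' n = Qp (J n) := fun n hn => by rw [hQ']; simp only; rw [if_neg (by omega)]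
  have hEz : ∀ n, n < n0 → E' n = ∅ := fun n hn => by rw [hE']; simp only; rw [if_pos hn]
  have hEe : ∀ n, n0 ≤ n → E' n = Ev A (J n) (gs s) := fun n hn => by rw [hE']; simp only; rw [if_neg (by omega)]
  have hJ3 : ∀ n, n0 ≤ n → ∀ m ∈ J n, n ≤ m := fun n _ m hm => by rw [hJ] at hm; exact Jd_ge hm
  have hQ0 : ∀ n, 0 ≤ Q' n := by
    intro n
    rcases lt_or_ge n n0 with h1 | h1
    · rw [hQz n h1]
    · rw [hQe n h1]
      exact Qp_nonneg (fun m hm => by have := hJ3 n h1 m hm; omega)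
  have hQ1 : ∀ n, Q' n ≤ 1 := by
    intro n
    rcases lt_or_ge n n0 with h1 | h1
    · rw [hQz n h1]
      exact zero_le_one
    · rw [hQe n h1]
      exact Qp_le_one (fun m hm => by have := hJ3 n h1 m hm; omega)
  have hsumQ : ∀ N, n0 ≤ N → ∑ n ∈ range N, Q' n = ∑ n ∈ range N, Qp (J n) - ∑ n ∈ range n0, Qp (J n) := by
    intro N hN
    rw [← sum_range_add_sum_Ico _ hN, ← sum_range_add_sum_Ico (fun n => Qp (J n)) hN]
    have e1 : ∑ n ∈ range n0, Q' n = 0 := sum_eq_zero (fun n hn => hQz n (mem_range.1 hn))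
    have e2 : ∑ n ∈ Ico n0 N, Q' n = ∑ n ∈ Ico n0 N, Qp (J n) := sum_congr rfl (fun n hn => hQe n (mem_Ico.1 hn).1)
    rw [e1, e2]
    ring
  obtain ⟨q0, hq0⟩ : ∃ q0 : ℝ, q0 = ∑ n ∈ range n0, Qp (J n) := ⟨_, rfl⟩
  simp only [hJn] at hdiv ⊢
  have hdiv' : Tendsto (fun N => ∑ n ∈ range N, Q' n) atTop atTop := by
    refine (tendsto_atTop_add_const_right _ (-q0) hdiv).congr' ?_
    filter_upwards [eventually_ge_atTop n0] with N hN
    rw [hsumQ N hN, hq0]
    ring
  have hpow0 : ∀ n : ℕ, 0 ≤ (n : ℝ) ^ (-(1 / 5) : ℝ) := fun n => by positivity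
  have hpow1 : ∀ n : ℕ, n0 ≤ n → (n : ℝ) ^ (-(1 / 5) : ℝ) ≤ 1 := fun n hn =>
    Real.rpow_le_one_of_one_le_of_nonpos (by
      have : 1 ≤ n := by omega
      exact_mod_cast this) (by norm_num)
  have hlaw := slaw_pairs (μ := μ) (E := E') (fun n => by
      rcases lt_or_ge n n0 with h1 | h1
      · rw [hEz n h1]
        exact MeasurableSet.empty
      · rw [hEe n h1]
        exact measurable_ev hA _ _) Q' hQ0 hQ1 (hQz 0 (by omega)) hdiv'
    (fun n m => ¬ Disjoint (J n) (J m)) (c := 3) (K := 12 * C ^ 2 * K) (by norm_num) (by positivity) ?_ ?_ ?_ ?_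
  · -- from `E'` to `E`
    filter_upwards [hlaw] with ω hω
    obtain ⟨c0, hc0⟩ : ∃ c0 : ℝ, c0 = cnt (fun n => Ev A (J n) (gs s)) n0 ω := ⟨_, rfl⟩
    have hcnt : ∀ N, n0 ≤ N → cnt (fun n => Ev A (J n) (gs s)) N ω = cnt E' N ω + c0 := by
      intro N hN
      rw [hc0]
      unfold cnt
      rw [← sum_range_add_sum_Ico _ hN, ← sum_range_add_sum_Ico (fun n => (E' n).indicator (fun _ => (1 : ℝ)) ω) hN]
      have e1 : ∑ n ∈ range n0, (E' n).indicator (fun _ => (1 : ℝ)) ω = 0 :=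
        sum_eq_zero (fun n hn => by rw [hEz n (mem_range.1 hn)]; simp)
      have e2 : ∑ n ∈ Ico n0 N, (E' n).indicator (fun _ => (1 : ℝ)) ω =
          ∑ n ∈ Ico n0 N, (Ev A (J n) (gs s)).indicator (fun _ => (1 : ℝ)) ω :=
        sum_congr rfl (fun n hn => by rw [hEe n (mem_Ico.1 hn).1])
      rw [e1, e2]
      ring
    have e1 : Tendsto (fun N => (∑ n ∈ range N, Q' n) / ∑ n ∈ range N, Qp (J n)) atTop (𝓝 1) := by
      have f1 : Tendsto (fun N => 1 - q0 / ∑ n ∈ range N, Qp (J n)) atTop (𝓝 (1 - 0)) :=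
        (tendsto_const_nhds.div_atTop hdiv).const_sub 1
      rw [sub_zero] at f1
      refine f1.congr' ?_
      filter_upwards [eventually_ge_atTop n0, hdiv.eventually_gt_atTop 0] with N hN hN2
      rw [hsumQ N hN, ← hq0]
      field_simp
    have e2 : Tendsto (fun N => c0 / ∑ n ∈ range N, Qp (J n)) atTop (𝓝 0) := tendsto_const_nhds.div_atTop hdiv
    have e3 := (hω.mul e1).add e2
    rw [mul_one, add_zero] at e3
    refine e3.congr' ?_
    filter_upwards [eventually_ge_atTop n0, hdiv.eventually_gt_atTop 0, hdiv'.eventually_gt_atTop 0] with N hN hN2 hN3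
    rw [hcnt N hN]
    have g1 : (∑ n ∈ range N, Q' n) ≠ 0 := hN3.ne'
    have g2 : (∑ n ∈ range N, Qp (J n)) ≠ 0 := hN2.ne'
    field_simp
  · -- lower bound
    intro n
    rcases lt_or_ge n n0 with h1 | h1
    · rw [hQz n h1, mul_zero]
      exact measureReal_nonneg
    · rw [hQe n h1, hEe n h1]
      obtain ⟨⟨a1, a2⟩, a3, a4, a5⟩ := hn1 n (hn0.trans h1)
      have b1 := a1 (J n) (hJ3 n h1) (by
        rw [← hJn, Jd_card hd (by omega)]
        nlinarith [sq_nonneg (Real.log (n : ℝ)), mul_nonneg hC0 (sq_nonneg (Real.log (n : ℝ)))])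
      rw [abs_le] at b1
      have b2 : 0 ≤ Qp (J n) := Qp_nonneg (fun m hm => by have := hJ3 n h1 m hm; omega)
      have b3 := mul_nonneg (hpow0 n) b2
      nlinarith [b1.1]
  · intro n
    rcases lt_or_ge n n0 with h1 | h1
    · rw [hQz n h1, mul_zero, hEz n h1]
      simp
    · rw [hQe n h1, hEe n h1]
      obtain ⟨⟨a1, a2⟩, a3, a4, a5⟩ := hn1 n (hn0.trans h1)
      have b1 := a1 (J n) (hJ3 n h1) (by
        rw [← hJn, Jd_card hd (by omega)]
        nlinarith [sq_nonneg (Real.log (n : ℝ)), mul_nonneg hC0 (sq_nonneg (Real.log (n : ℝ)))])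
      rw [abs_le] at b1
      have b2 : 0 ≤ Qp (J n) := Qp_nonneg (fun m hm => by have := hJ3 n h1 m hm; omega)
      have b3 := mul_le_mul_of_nonneg_right (hpow1 n h1) b2
      nlinarith [b1.2]
  · -- disjoint index sets
    intro n m hnm hD
    rw [not_not] at hD
    rcases lt_or_ge n n0 with h1 | h1
    · rw [hQz n h1, hEz n h1]
      simp
    · have h2 : n0 ≤ m := by omega
      rw [hQe n h1, hQe m h2, hEe n h1, hEe m h2]
      obtain ⟨⟨a1, a2⟩, a3, a4, a5⟩ := hn1 n (hn0.trans h1)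
      obtain ⟨_, _, c4, _⟩ := hn1 m (hn0.trans h2)
      have b2 : 0 ≤ Qp (J n) := Qp_nonneg (fun j hj => by have := hJ3 n h1 j hj; omega)
      have b3 : 0 ≤ Qp (J m) := Qp_nonneg (fun j hj => by have := hJ3 m h2 j hj; omega)
      have bb := mul_nonneg b2 b3
      have hcn : ((J n).card : ℝ) ≤ C * Real.log n ^ 2 := by rw [← hJn, Jd_card hd (by omega)]; exact a4
      have hcm : ((J m).card : ℝ) ≤ C * Real.log m ^ 2 := by rw [← hJn, Jd_card hd (by omega)]; exact c4
      have hnr : (0 : ℝ) < n := by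
        have : 0 < n := by omega
        exact_mod_cast this
      have hmr : (0 : ℝ) < m := by
        have : 0 < m := by omega
        exact_mod_cast this
      rcases le_or_gt m (n ^ 4) with h3 | h3
      · have hlm : Real.log m ≤ 4 * Real.log n := by
          have e4 : (m : ℝ) ≤ (n : ℝ) ^ 4 := by exact_mod_cast h3
          have := Real.log_le_log hmr e4
          rw [Real.log_pow] at this
          push_cast at this
          exact this
        have hlm0 : 0 ≤ Real.log m := Real.log_natCast_nonneg m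
        have e5 : C * Real.log m ^ 2 ≤ C * (4 * Real.log n) ^ 2 :=
          mul_le_mul_of_nonneg_left (pow_le_pow_left₀ hlm0 hlm 2) hC0
        have b1 := a1 (J n ∪ J m) (fun j hj => by
          rcases mem_union.1 hj with hj | hj
          · exact hJ3 n h1 j hj
          · have := hJ3 m h2 j hj
            omega) (by
          have f1 : ((J n ∪ J m).card : ℝ) ≤ (J n).card + (J m).card := by exact_mod_cast card_union_le _ _
          nlinarith)
        rw [abs_le] at b1
        have f2 : Qp (J n ∪ J m) = Qp (J n) * Qp (J m) := by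
          rw [Qp_union, Finset.sdiff_eq_self_of_disjoint hD.symm]
        rw [f2] at b1
        rw [ev_union]
        have b4 := mul_nonneg (hpow0 n) bb
        nlinarith [b1.2]
      · have b1 := a2 (J n) (hJ3 n h1) hcn m (by omega) (n ^ 2) (fun j hj => (a3 j (by rw [hJn]; exact hj)).2.1) (by
          rw [Real.le_sqrt (by positivity) hmr.le]
          push_cast
          have : (n : ℝ) ^ 4 ≤ m := by exact_mod_cast h3.le
          nlinarith) (by nlinarith) (J m) (hJ3 m h2) hcm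
        have e1 : (m : ℝ) ^ (-(1 / 5) : ℝ) ≤ (n : ℝ) ^ (-(1 / 5) : ℝ) :=
          Real.rpow_le_rpow_of_nonpos hnr (by exact_mod_cast hnm.le) (by norm_num)
        have e2 := hpow1 n h1
        have e3 := hpow0 n
        have e4 := hpow0 m
        refine b1.trans ?_
        have e5 : (1 + (n : ℝ) ^ (-(1 / 5) : ℝ)) * (1 + (m : ℝ) ^ (-(1 / 5) : ℝ)) ≤ 1 + 3 * (n : ℝ) ^ (-(1 / 5) : ℝ) := by
          nlinarith
        calc (1 + (n : ℝ) ^ (-(1 / 5) : ℝ)) * Qp (J n) * ((1 + (m : ℝ) ^ (-(1 / 5) : ℝ)) * Qp (J m)) =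
            (1 + (n : ℝ) ^ (-(1 / 5) : ℝ)) * (1 + (m : ℝ) ^ (-(1 / 5) : ℝ)) * (Qp (J n) * Qp (J m)) := by ring
          _ ≤ _ := mul_le_mul_of_nonneg_right e5 bb
  · -- common indices
    intro n N hnN R hRm
    rcases lt_or_ge n n0 with h1 | h1
    · rw [hQz n h1, hEz n h1]
      simp
    · have hev' : ∀ m, n ≤ m → _ := fun m hm => hn1 m (hn0.trans (h1.trans hm))
      have hov := overlap (d := d) hd (h := h) hC0 (n := n) (by omega) (fun m hm => (hev' m hm).2.2.1)
        (hev' n le_rfl).2.2.2 (fun m hm j hj => ⟨((hev' m hm).2.1 j hj).1, ((hev' m hm).2.1 j hj).2.2⟩)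
        (B := K * (1 + ∑ j ∈ range N, Q' j) ^ (5 / 6 : ℝ)) (fun m hm1 hm2 => by
          rw [hQ']
          exact hK n h1 m hm1 hm2 N hnN) (R := R) (fun m hm => by
          obtain ⟨r1, _, r3⟩ := hRm m hm
          exact ⟨r1, by rw [hJn, hJn]; exact r3⟩)
      have b2 : 0 ≤ Qp (J n) := Qp_nonneg (fun j hj => by have := hJ3 n h1 j hj; omega)
      have hterm : ∀ m ∈ R, μ.real (E' n ∩ E' m) + Q' n * Q' m ≤ 3 * Qp (J n) * Qp (J m \ J n) := by
        intro m hm
        obtain ⟨r1, _, r3⟩ := hRm m hm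
        have h2 : n0 ≤ m := by omega
        rw [hQe n h1, hQe m h2, hEe n h1, hEe m h2, ev_union]
        obtain ⟨⟨a1, a2⟩, a3, a4, a5⟩ := hn1 n (hn0.trans h1)
        obtain ⟨_, _, c4, _⟩ := hn1 m (hn0.trans h2)
        have hmn : m ≤ n ^ 2 := by
          rw [Finset.not_disjoint_iff] at r3
          obtain ⟨z, hz1, hz2⟩ := r3
          exact (hJ3 m h2 z hz2).trans (a3 z (by rw [hJn]; exact hz1)).1
        have hcn : ((J n).card : ℝ) ≤ C * Real.log n ^ 2 := by rw [← hJn, Jd_card hd (by omega)]; exact a4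
        have hcm : ((J m).card : ℝ) ≤ C * Real.log m ^ 2 := by rw [← hJn, Jd_card hd (by omega)]; exact c4
        have hmr : (0 : ℝ) < m := by
          have : 0 < m := by omega
          exact_mod_cast this
        have hlm : Real.log m ≤ 4 * Real.log n := by
          have e4 : (m : ℝ) ≤ (n : ℝ) ^ 2 := by exact_mod_cast hmn
          have e5 := Real.log_le_log hmr e4
          rw [Real.log_pow] at e5
          push_cast at e5
          have : 0 ≤ Real.log (n : ℝ) := Real.log_natCast_nonneg n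
          linarith
        have hlm0 : 0 ≤ Real.log m := Real.log_natCast_nonneg m
        have e5 : C * Real.log m ^ 2 ≤ C * (4 * Real.log n) ^ 2 :=
          mul_le_mul_of_nonneg_left (pow_le_pow_left₀ hlm0 hlm 2) hC0
        have b1 := a1 (J n ∪ J m) (fun j hj => by
          rcases mem_union.1 hj with hj | hj
          · exact hJ3 n h1 j hj
          · have := hJ3 m h2 j hj
            omega) (by
          have f1 : ((J n ∪ J m).card : ℝ) ≤ (J n).card + (J m).card := by exact_mod_cast card_union_le _ _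
          nlinarith)
        rw [abs_le, Qp_union] at b1
        have b3 : 0 ≤ Qp (J m \ J n) := Qp_nonneg (fun j hj => by
          have := hJ3 m h2 j (mem_sdiff.1 hj).1
          omega)
        have b4 : Qp (J m) ≤ Qp (J m \ J n) := Qp_sdiff_le (fun j hj => by have := hJ3 m h2 j hj; omega)
        have b5 := mul_le_mul_of_nonneg_left b4 b2
        have b6 := mul_le_mul_of_nonneg_right (hpow1 n h1) (mul_nonneg b2 b3)
        nlinarith [b1.2]
      refine (sum_le_sum hterm).trans ?_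
      rw [← mul_sum, hQe n h1]
      have hov' : ∑ m ∈ R, Qp (J m \ J n) ≤ 4 * C ^ 2 * (K * (1 + ∑ j ∈ range N, Q' j) ^ (5 / 6 : ℝ)) := by
        rw [hJ]
        exact hov
      have := mul_le_mul_of_nonneg_left hov' (show 0 ≤ 3 * Qp (J n) by positivity)
      nlinarith

end Pool.Agent.Q197.CI
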