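import Pool.Agent.Q197.CI.RowJ

/-!
# Integer-valued polynomials
-/

set_option autoImplicit false

namespace Pool.Agent.Q197.CI

open Finset Filter MeasureTheory Pool.Agent.Q120.ET Pool.Agent.Q120.MF
open scoped Topology Polynomial

theorem countable_poly : Countable ℚ[X] := by
  have h : Function.Injective (fun p : ℚ[X] => (⟨p.natDegree + 1, fun i => p.coeff i⟩ : Σ n : ℕ, (Fin n → ℚ))) := by
    intro p q hpq
    simp only [Sigma.mk.injEq] at hpq
    obtain ⟨h1, h2⟩ := hpq
    have h3 : p.natDegree = q.natDegree := by omega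
    ext n
    by_cases hn : n < p.natDegree + 1
    · have key : ∀ (a b : ℕ) (hab : a = b) (f : Fin a → ℚ) (g : Fin b → ℚ), HEq f g → ∀ (i : ℕ) (hi : i < a) (hi' : i < b),
          f ⟨i, hi⟩ = g ⟨i, hi'⟩ := by
        intro a b hab f g hfg i hi hi'
        subst hab
        rw [eq_of_heq hfg]
      exact key _ _ h1 _ _ h2 n hn (by omega)
    · rw [Polynomial.coeff_eq_zero_of_natDegree_lt (by omega), Polynomial.coeff_eq_zero_of_natDegree_lt (by omega)]
  exact h.countable

/-- A real polynomial with a positive leading coefficient is eventually nonnegative. -/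
theorem poly_pos {Q : ℝ[X]} (h : 0 < Q.leadingCoeff) : ∀ᶠ x : ℝ in atTop, 0 < Q.eval x := by
  rcases Nat.eq_zero_or_pos Q.natDegree with h1 | h1
  · rw [Polynomial.eq_C_of_natDegree_eq_zero h1] at h ⊢
    rw [Polynomial.leadingCoeff_C] at h
    simp only [Polynomial.eval_C]
    exact Eventually.of_forall (fun _ => h)
  · exact (Polynomial.tendsto_atTop_of_leadingCoeff_nonneg Q (Polynomial.natDegree_pos_iff_degree_pos.1 h1) h.le).eventually_gt_atTop 0

theorem poly_mono {Q : ℝ[X]} (h : 0 < Q.leadingCoeff) : ∃ x0 : ℝ, ∀ x y : ℝ, x0 ≤ x → x ≤ y → Q.eval x ≤ Q.eval y := by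
  rcases Nat.eq_zero_or_pos Q.natDegree with h1 | h1
  · refine ⟨0, fun x y _ _ => ?_⟩
    rw [Polynomial.eq_C_of_natDegree_eq_zero h1]
    simp
  · have h2 : 0 < (Polynomial.derivative Q).leadingCoeff := by
      rw [Polynomial.leadingCoeff_derivative]
      exact mul_pos h (by exact_mod_cast h1)
    obtain ⟨x0, hx0⟩ := eventually_atTop.1 (poly_pos h2)
    refine ⟨x0, fun x y hx hxy => ?_⟩
    have h3 : MonotoneOn (fun x => Q.eval x) (Set.Ici x0) := by
      refine monotoneOn_of_deriv_nonneg (convex_Ici x0) Q.continuous.continuousOn Q.differentiable.differentiableOn ?_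
      intro z hz
      rw [interior_Ici] at hz
      rw [Polynomial.deriv]
      exact (hx0 z (le_of_lt hz)).le
    exact h3 hx (hx.trans hxy) hxy

theorem poly_log {Q : ℝ[X]} (h : 0 < Q.leadingCoeff) :
    Tendsto (fun m : ℕ => Real.log (Q.eval (m : ℝ)) / Real.log m) atTop (𝓝 (Q.natDegree : ℝ)) := by
  have h1 := (Polynomial.isEquivalent_atTop_lead Q).comp_tendsto (tendsto_natCast_atTop_atTop (R := ℝ))
  have h2 : Tendsto (fun m : ℕ => Q.eval (m : ℝ) / (Q.leadingCoeff * (m : ℝ) ^ Q.natDegree)) atTop (𝓝 1) := by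
    rw [Asymptotics.isEquivalent_iff_tendsto_one] at h1
    · exact h1
    · filter_upwards [eventually_ge_atTop 1] with m hm
      have : (0 : ℝ) < m := by exact_mod_cast hm
      simp only [Function.comp_apply]
      positivity
  have h3 : Tendsto (fun m : ℕ => Real.log (Q.eval (m : ℝ) / (Q.leadingCoeff * (m : ℝ) ^ Q.natDegree))) atTop (𝓝 0) := by
    have := (Real.continuousAt_log one_ne_zero).tendsto.comp h2
    rw [Real.log_one] at this
    exact this
  have h4 : Tendsto (fun m : ℕ => (Real.log (Q.eval (m : ℝ) / (Q.leadingCoeff * (m : ℝ) ^ Q.natDegree)) +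
      Real.log Q.leadingCoeff) / Real.log m + Q.natDegree) atTop (𝓝 (0 + Q.natDegree)) :=
    (Tendsto.div_atTop (h3.add_const _) hl).add_const _
  rw [zero_add] at h4
  refine h4.congr' ?_
  filter_upwards [eventually_ge_atTop 2, tendsto_natCast_atTop_atTop.eventually (poly_pos h)] with m hm hq
  have hm0 : (0 : ℝ) < m := by exact_mod_cast (show 0 < m by omega)
  have hlm : 0 < Real.log (m : ℝ) := Real.log_pos (by exact_mod_cast (show 1 < m by omega))
  rw [Real.log_div hq.ne' (by positivity), Real.log_mul h.ne' (by positivity), Real.log_pow]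
  field_simp
  ring

/-- Integer values. -/
def IntValued (P : ℚ[X]) : Prop := ∀ m : ℤ, ∃ k : ℤ, P.eval (m : ℚ) = k

/-- The shifts `2 P(m)` for large `m`. -/
theorem poly_data {P : ℚ[X]} (hP : IntValued P) (hlc : 0 < P.leadingCoeff) : ∃ (c : ℕ → ℕ) (m0 : ℕ), (∀ m, 1 ≤ c m) ∧
    Monotone c ∧ (∀ m, m0 ≤ m → ((c m : ℕ) : ℚ) = 2 * P.eval (m : ℚ)) ∧ (∃ s : ℕ, ∀ m, c m ≤ m ^ (P.natDegree + 1) + s) ∧
    Tendsto (fun m : ℕ => Real.log (c m) / Real.log m) atTop (𝓝 (P.natDegree : ℝ)) := by
  classical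
  obtain ⟨Q, hQ⟩ : ∃ Q : ℝ[X], Q = P.map (algebraMap ℚ ℝ) := ⟨_, rfl⟩
  have hQlc : 0 < Q.leadingCoeff := by
    rw [hQ, Polynomial.leadingCoeff_map]
    simpa using hlc
  have hQd : Q.natDegree = P.natDegree := by rw [hQ, Polynomial.natDegree_map]
  have hQe : ∀ m : ℕ, Q.eval (m : ℝ) = ((P.eval (m : ℚ) : ℚ) : ℝ) := by
    intro m
    rw [hQ]
    have := Polynomial.eval_map_algebraMap P (m : ℝ) (R := ℚ)
    rw [this]
    have h2 := Polynomial.aeval_algebraMap_apply_eq_algebraMap_eval (A := ℝ) (m : ℚ) P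
    simpa using h2
  obtain ⟨x0, hx0⟩ := poly_mono hQlc
  obtain ⟨m1, hm1⟩ := eventually_atTop.1 (tendsto_natCast_atTop_atTop.eventually (poly_pos hQlc))
  choose f hf using fun m : ℕ => hP (m : ℤ)
  have hf' : ∀ m : ℕ, (Q.eval (m : ℝ)) = ((f m : ℤ) : ℝ) := by
    intro m
    rw [hQe]
    have h := hf m
    simp only [Int.cast_natCast] at h
    rw [h]
    simp
  obtain ⟨m0, hm0⟩ : ∃ m0 : ℕ, m0 = max m1 ⌈x0⌉₊ := ⟨_, rfl⟩
  have hm01 : m1 ≤ m0 := by rw [hm0]; exact le_max_left _ _
  have hm02 : x0 ≤ m0 := by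
    rw [hm0]
    exact (Nat.le_ceil x0).trans (by exact_mod_cast le_max_right _ _)
  have hpos : ∀ m, m0 ≤ m → 1 ≤ f m := by
    intro m hm
    have h1 := hm1 m (by omega)
    rw [hf'] at h1
    have h2 : (0 : ℤ) < f m := by exact_mod_cast h1
    omega
  have hmono : ∀ m m', m0 ≤ m → m ≤ m' → f m ≤ f m' := by
    intro m m' hm hmm
    have h1 := hx0 (m : ℝ) (m' : ℝ) (hm02.trans (by exact_mod_cast hm)) (by exact_mod_cast hmm)
    rw [hf', hf'] at h1
    exact_mod_cast h1
  obtain ⟨c, hc⟩ : ∃ c : ℕ → ℕ, c = fun m => if m0 ≤ m then (2 * f m).toNat else 1 := ⟨_, rfl⟩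
  have hc1 : ∀ m, m0 ≤ m → ((c m : ℕ) : ℤ) = 2 * f m := by
    intro m hm
    have h1 := hpos m hm
    rw [hc]
    simp only [if_pos hm]
    rw [Int.toNat_of_nonneg (by omega)]
  have hc2 : ∀ m, ¬ m0 ≤ m → c m = 1 := by
    intro m hm
    rw [hc]
    simp only [if_neg hm]
  have hcR : ∀ m, m0 ≤ m → ((c m : ℕ) : ℝ) = 2 * Q.eval (m : ℝ) := by
    intro m hm
    rw [hf']
    exact_mod_cast hc1 m hm
  refine ⟨c, m0, fun m => ?_, fun m m' hmm => ?_, fun m hm => ?_, ?_, ?_⟩
  · by_cases hm : m0 ≤ m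
    · have h1 := hc1 m hm
      have h2 := hpos m hm
      omega
    · rw [hc2 m hm]
  · by_cases hm : m0 ≤ m
    · have h1 := hc1 m hm
      have h2 := hc1 m' (hm.trans hmm)
      have h3 := hmono m m' hm hmm
      omega
    · rw [hc2 m hm]
      by_cases hm' : m0 ≤ m'
      · have h1 := hc1 m' hm'
        have h2 := hpos m' hm'
        omega
      · rw [hc2 m' hm']
  · have h1 := hc1 m hm
    have h2 := hf m
    simp only [Int.cast_natCast] at h2
    rw [h2]
    exact_mod_cast h1
  · -- the bound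
    have h1 : Tendsto (fun x : ℝ => Q.eval x / (x ^ (P.natDegree + 1))) atTop (𝓝 0) := by
      have h2 := Polynomial.div_tendsto_atTop_zero_of_degree_lt Q (Polynomial.X ^ (P.natDegree + 1)) (by
        rw [Polynomial.degree_X_pow]
        refine lt_of_le_of_lt Polynomial.degree_le_natDegree ?_
        rw [hQd]
        exact_mod_cast Nat.lt_succ_self _)
      simpa using h2
    have h3 := (h1.comp tendsto_natCast_atTop_atTop).eventually_le_const (show (0 : ℝ) < 1 / 2 by norm_num)
    obtain ⟨m2, hm2⟩ := eventually_atTop.1 (h3.and (eventually_ge_atTop (max m0 1)))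
    refine ⟨∑ m ∈ range m2, c m, fun m => ?_⟩
    by_cases hm : m < m2
    · have := single_le_sum (f := c) (fun i _ => Nat.zero_le _) (mem_range.2 hm)
      omega
    · obtain ⟨h4, h5⟩ := hm2 m (by omega)
      have h6 : m0 ≤ m := (le_max_left _ _).trans h5
      have h7 : 1 ≤ m := (le_max_right _ _).trans h5
      have hm0' : (0 : ℝ) < m := by exact_mod_cast h7
      simp only [Function.comp_apply] at h4
      rw [div_le_iff₀ (by positivity)] at h4
      have h8 : ((c m : ℕ) : ℝ) ≤ (m : ℝ) ^ (P.natDegree + 1) := by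
        rw [hcR m h6]
        linarith
      have h9 : c m ≤ m ^ (P.natDegree + 1) := by exact_mod_cast h8
      omega
  · have h1 := poly_log hQlc
    rw [hQd] at h1
    have h2 : Tendsto (fun m : ℕ => Real.log 2 / Real.log m) atTop (𝓝 0) := tendsto_const_nhds.div_atTop hl
    have h3 := h2.add h1
    rw [zero_add] at h3
    refine h3.congr' ?_
    filter_upwards [eventually_ge_atTop (max m0 m1)] with m hm
    have hm' : m0 ≤ m := (le_max_left _ _).trans hm
    have h4 := hm1 m (by omega)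
    rw [hcR m hm', Real.log_mul (by norm_num) h4.ne', add_div]

/-- The logarithm of a sum. -/
theorem log_sum {u v : ℕ → ℕ} (hu : ∀ m, 1 ≤ m → 1 ≤ u m) (hv : ∀ m, 1 ≤ m → 1 ≤ v m) {a b : ℝ}
    (h1 : Tendsto (fun m : ℕ => Real.log (u m) / Real.log m) atTop (𝓝 a))
    (h2 : Tendsto (fun m : ℕ => Real.log (v m) / Real.log m) atTop (𝓝 b)) :
    Tendsto (fun m : ℕ => Real.log ((u m + v m : ℕ) : ℝ) / Real.log m) atTop (𝓝 (max a b)) := by
  have h3 := h1.max h2
  have h4 : Tendsto (fun m : ℕ => Real.log 2 / Real.log m + max (Real.log (u m) / Real.log m) (Real.log (v m) / Real.log m))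
      atTop (𝓝 (0 + max a b)) := (tendsto_const_nhds.div_atTop hl).add h3
  rw [zero_add] at h4
  refine tendsto_of_tendsto_of_tendsto_of_le_of_le' h3 h4 ?_ ?_
  · filter_upwards [hl.eventually_gt_atTop 0, eventually_ge_atTop 1] with m h5 h6
    have hu1 := hu m h6
    have hv1 := hv m h6
    refine max_le ?_ ?_
    · refine div_le_div_of_nonneg_right (Real.log_le_log (by exact_mod_cast hu1) ?_) h5.le
      exact_mod_cast (show u m ≤ u m + v m by omega)
    · refine div_le_div_of_nonneg_right (Real.log_le_log (by exact_mod_cast hv1) ?_) h5.le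
      exact_mod_cast (show v m ≤ u m + v m by omega)
  · filter_upwards [hl.eventually_gt_atTop 0, eventually_ge_atTop 1] with m h5 h6
    have hu1 := hu m h6
    have hv1 := hv m h6
    have hu0 : (0 : ℝ) < u m := by exact_mod_cast hu1
    have hv0 : (0 : ℝ) < v m := by exact_mod_cast hv1
    rcases le_total (u m) (v m) with h7 | h7
    · have h8 : Real.log ((u m + v m : ℕ) : ℝ) ≤ Real.log 2 + Real.log (v m) := by
        rw [← Real.log_mul (by norm_num) hv0.ne']
        refine Real.log_le_log (by exact_mod_cast (show 0 < u m + v m by omega)) ?_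
        exact_mod_cast (show u m + v m ≤ 2 * v m by omega)
      have h9 := div_le_div_of_nonneg_right h8 h5.le
      rw [add_div] at h9
      exact h9.trans (add_le_add le_rfl (le_max_right _ _))
    · have h8 : Real.log ((u m + v m : ℕ) : ℝ) ≤ Real.log 2 + Real.log (u m) := by
        rw [← Real.log_mul (by norm_num) hu0.ne']
        refine Real.log_le_log (by exact_mod_cast (show 0 < u m + v m by omega)) ?_
        exact_mod_cast (show u m + v m ≤ 2 * u m by omega)
      have h9 := div_le_div_of_nonneg_right h8 h5.le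
      rw [add_div] at h9
      exact h9.trans (add_le_add le_rfl (le_max_left _ _))

end Pool.Agent.Q197.CI
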