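import Pool.Agent.Q197.CI.ProdL

/-!
# Asymptotic independence of the tests, with a power saving error
-/

set_option autoImplicit false

namespace Pool.Agent.Q197.CI

open Finset Filter MeasureTheory Pool.Agent.Q120.ET Pool.Agent.Q120.MF
open scoped Topology

variable {J : Finset ℕ} {g : ℕ → ℕ → ℕ} {y x n : ℕ}

/-- The probability of no success is near the product. -/
theorem nh_near (h : Ok J g y x n) {T0 : Finset ℕ} (hT0 : ∀ j ∈ T0, j < y) (q : ℕ → ℝ) {ε : ℝ}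
    (hq1 : ∀ m ∈ J, q m ≤ 1 / 2) (hε0 : 0 ≤ ε) (hε1 : ε ≤ 1 / 4) (hεJ : 2 * ε * J.card ≤ 1)
    (hq : ∀ m ∈ J, ∀ a, lo m ≤ a → a < hi m → |pb (g m a) - q m| ≤ ε)
    (hgt : ∀ m ∈ J, ∀ a, 3 ≤ a → a < g m a) {B : ℝ} (hB : Pr y T0 x (fun S => ∃ m ∈ J, ¬ Good S m) ≤ B) :
    Pr y T0 x (NH J g) ≤ (1 + 4 * ε * J.card) * ∏ m ∈ J, (1 - q m) ∧
    (1 - 2 * ε * J.card - (1 / (1 - pb n)) ^ J.card * B) * ∏ m ∈ J, (1 - q m) ≤ Pr y T0 x (NH J g) := by
  have hP : 0 < ∏ m ∈ J, (1 - q m) := prod_pos (fun m hm => by have := hq1 m hm; linarith)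
  have hJ0 : (0 : ℝ) ≤ J.card := Nat.cast_nonneg _
  constructor
  · have h1 := pr_nh_le h hT0 (fun m => q m - ε) (fun m hm a h1 h2 => by
      have := hq m hm a h1 h2
      rw [abs_le] at this
      linarith [this.1]) (fun m hm => by
      have := hq1 m hm
      linarith)
    refine h1.trans ?_
    have h2 : ∏ m ∈ J, (1 - (q m - ε)) ≤ ∏ m ∈ J, ((1 + 2 * ε) * (1 - q m)) := by
      refine prod_le_prod (fun m hm => ?_) (fun m hm => ?_)
      · have := hq1 m hm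
        linarith
      · have := hq1 m hm
        nlinarith
    refine h2.trans ?_
    rw [prod_mul_distrib, prod_const]
    refine mul_le_mul_of_nonneg_right ?_ hP.le
    have h3 : (1 + 2 * ε) ^ J.card ≤ Real.exp (2 * ε * J.card) := by
      rw [mul_comm (2 * ε) (J.card : ℝ), Real.exp_nat_mul]
      exact pow_le_pow_left₀ (by positivity) (by linarith [Real.add_one_le_exp (2 * ε)]) _
    refine h3.trans ?_
    have h4 := Real.abs_exp_sub_one_sub_id_le (x := 2 * ε * J.card) (by rw [abs_of_nonneg (by positivity)]; exact hεJ)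
    rw [abs_le] at h4
    have h5 : (2 * ε * J.card) ^ 2 ≤ 2 * ε * J.card := by
      have : 0 ≤ 2 * ε * J.card := by positivity
      nlinarith
    linarith [h4.2]
  · have h1 := le_pr_nh h hT0 (fun m => q m + ε) (fun m hm a h1 h2 => by
      have := hq m hm a h1 h2
      rw [abs_le] at this
      linarith [this.2]) (fun m hm => by
      have := hq1 m hm
      linarith) hgt
    refine le_trans ?_ h1
    have hW0 : 0 < (1 / (1 - pb n)) ^ J.card := by
      have := pb_lt_one h.hn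
      have : 0 < 1 - pb n := by linarith
      positivity
    obtain ⟨W, hW⟩ : ∃ W : ℝ, W = (1 / (1 - pb n)) ^ J.card := ⟨_, rfl⟩
    rw [← hW] at hW0 ⊢
    have h2 : (1 - 2 * ε * J.card) * ∏ m ∈ J, (1 - q m) ≤ ∏ m ∈ J, (1 - (q m + ε)) := by
      have h3 : ∏ m ∈ J, ((1 - 2 * ε) * (1 - q m)) ≤ ∏ m ∈ J, (1 - (q m + ε)) := by
        refine prod_le_prod (fun m hm => ?_) (fun m hm => ?_)
        · have := hq1 m hm
          nlinarith
        · have := hq1 m hm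
          nlinarith
      refine le_trans ?_ h3
      rw [prod_mul_distrib, prod_const]
      refine mul_le_mul_of_nonneg_right ?_ hP.le
      have h4 := one_add_mul_le_pow (show (-2 : ℝ) ≤ -(2 * ε) by linarith) J.card
      have h5 : (1 + -(2 * ε)) = 1 - 2 * ε := by ring
      rw [h5] at h4
      linarith
    have hP2 : 0 ≤ ∏ m ∈ J, (1 - (q m + ε)) := prod_nonneg (fun m hm => by
      have := hq1 m hm
      linarith)
    have hP3 : ∏ m ∈ J, (1 - (q m + ε)) ≤ ∏ m ∈ J, (1 - q m) := prod_le_prod (fun m hm => by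
      have := hq1 m hm
      linarith) (fun m _ => by linarith)
    obtain ⟨p, hp⟩ : ∃ p : ℝ, p = Pr y T0 x (fun S => ∃ m ∈ J, ¬ Good S m) := ⟨_, rfl⟩
    have hp0 : 0 ≤ p := by rw [hp]; exact pr_nonneg h.hy _
    rw [← hp] at hB ⊢
    have h3 : W * p * ∏ m ∈ J, (1 - (q m + ε)) ≤ W * B * ∏ m ∈ J, (1 - q m) := by
      refine mul_le_mul (mul_le_mul_of_nonneg_left hB hW0.le) hP3 hP2 (by
        have : 0 ≤ B := hp0.trans hB
        positivity)
    calc (1 - 2 * ε * J.card - W * B) * ∏ m ∈ J, (1 - q m)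
        = (1 - 2 * ε * J.card) * ∏ m ∈ J, (1 - q m) - W * B * ∏ m ∈ J, (1 - q m) := by ring
      _ ≤ ∏ m ∈ J, (1 - (q m + ε)) - W * p * ∏ m ∈ J, (1 - (q m + ε)) := by linarith
      _ = (∏ m ∈ J, (1 - (q m + ε))) * (1 - W * p) := by ring

/-- The bad event. -/
theorem pr_bad_le (C : ℝ) : ∀ᶠ n : ℕ in atTop, ∀ y : ℕ, 3 ≤ y → (y : ℝ) ≤ Real.sqrt n → ∀ T0 : Finset ℕ,
    (∀ j ∈ T0, j < y) → ∀ J : Finset ℕ, (∀ m ∈ J, n ≤ m) → (J.card : ℝ) ≤ C * Real.log n ^ 2 →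
    ∀ x, (∀ m ∈ J, hi m ≤ x) →
    Pr y T0 x (fun S => ∃ m ∈ J, ¬ Good S m) ≤ (n : ℝ) ^ (-(2 * C + 1)) := by
  have hsq : ∀ᶠ m : ℕ in atTop, Real.sqrt m ≤ dl m * m / 12 := by
    have h1 : Tendsto (fun m : ℕ => (m : ℝ) ^ (1 / 4 : ℝ)) atTop atTop :=
      (tendsto_rpow_atTop (by norm_num)).comp tendsto_natCast_atTop_atTop
    filter_upwards [h1.eventually_ge_atTop 12, eventually_ge_atTop 1] with m h2 h3
    have h4 : (0 : ℝ) < m := by exact_mod_cast h3
    have h5 : dl m * m = (m : ℝ) ^ (1 / 4 : ℝ) * Real.sqrt m := by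
      unfold dl
      rw [Real.sqrt_eq_rpow]
      nth_rw 2 [← Real.rpow_one (m : ℝ)]
      rw [← Real.rpow_add h4, ← Real.rpow_add h4]
      norm_num
    rw [h5]
    have h6 : 0 ≤ Real.sqrt m := Real.sqrt_nonneg _
    nlinarith
  obtain ⟨m1, hm1⟩ := eventually_atTop.1 (pr_good.and hsq)
  have hexp : ∀ᶠ n : ℕ in atTop, 2 * (|C| + 1) * Real.log n ^ 2 * Real.exp (-(Real.sqrt n / 256)) ≤
      (n : ℝ) ^ (-(2 * C + 1)) := by
    have h1 := log_le_rpow (η := 1 / 2000 / (|C| + 2)) (r := 1 / 2) (by positivity) (by norm_num)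
    have h2 := hl.eventually_ge_atTop (2 * (|C| + 1))
    filter_upwards [h1, h2, hl.eventually_ge_atTop 1, eventually_ge_atTop 1] with n h3 h4 h5 h6
    have h7 : (0 : ℝ) < n := by exact_mod_cast h6
    obtain ⟨L, hL⟩ : ∃ L : ℝ, L = Real.log n := ⟨_, rfl⟩
    have hnL : (n : ℝ) = Real.exp L := by rw [hL, Real.exp_log h7]
    rw [← Real.sqrt_eq_rpow] at h3
    have h8 : (n : ℝ) ^ (-(2 * C + 1)) = Real.exp (-(2 * C + 1) * L) := by
      rw [Real.rpow_def_of_pos h7, ← hL, mul_comm]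
    rw [h8]
    rw [← hL] at h3 h4 h5 ⊢
    have h9 : 2000 * (|C| + 2) * L ≤ Real.sqrt n := by
      have e1 : 1 / 2000 / (|C| + 2) * Real.sqrt n = Real.sqrt n / (2000 * (|C| + 2)) := by field_simp
      rw [e1, le_div_iff₀ (by positivity)] at h3
      linarith
    have h10 : L ^ 3 ≤ Real.exp (3 * L) := by
      have e1 : L ≤ Real.exp L := by
        have := Real.add_one_le_exp L
        linarith
      calc L ^ 3 ≤ (Real.exp L) ^ 3 := pow_le_pow_left₀ (by linarith) e1 3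
        _ = Real.exp (3 * L) := by rw [← Real.exp_nat_mul]; norm_num
    calc 2 * (|C| + 1) * L ^ 2 * Real.exp (-(Real.sqrt n / 256)) ≤ L * L ^ 2 * Real.exp (-(Real.sqrt n / 256)) := by
          have : 0 ≤ L ^ 2 * Real.exp (-(Real.sqrt n / 256)) := by positivity
          nlinarith
      _ = L ^ 3 * Real.exp (-(Real.sqrt n / 256)) := by ring
      _ ≤ Real.exp (3 * L) * Real.exp (-(Real.sqrt n / 256)) :=
          mul_le_mul_of_nonneg_right h10 (Real.exp_pos _).le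
      _ = Real.exp (3 * L - Real.sqrt n / 256) := by rw [← Real.exp_add]; congr 1
      _ ≤ Real.exp (-(2 * C + 1) * L) := by
        rw [Real.exp_le_exp]
        have e1 : C ≤ |C| := le_abs_self C
        have e2 : C * L ≤ |C| * L := mul_le_mul_of_nonneg_right e1 (by linarith)
        have e3 : 0 ≤ |C| * L := by positivity
        nlinarith
  filter_upwards [eventually_ge_atTop m1, hexp, hl.eventually_ge_atTop 1] with n hn hex hL1 y hy hyn T0 hT0 J hJ hJc x hx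
  refine (pr_exists_le hy J (fun m S => ¬ Good S m)).trans ?_
  have h1 : ∀ m ∈ J, Pr y T0 x (fun S => ¬ Good S m) ≤ 2 * Real.exp (-(Real.sqrt n / 256)) := by
    intro m hm
    have h2 := hJ m hm
    obtain ⟨h3, h4⟩ := hm1 m (by omega)
    have h5 : (n : ℝ) ≤ m := by exact_mod_cast h2
    have h6 := Real.sqrt_le_sqrt h5
    refine (h3 y hy (by linarith) T0 hT0 x (hx m hm)).trans ?_
    have h7 : Real.exp (-(Real.sqrt m / 256)) ≤ Real.exp (-(Real.sqrt n / 256)) := by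
      rw [Real.exp_le_exp]
      linarith
    linarith
  refine (sum_le_sum h1).trans ?_
  rw [sum_const, nsmul_eq_mul]
  refine le_trans ?_ hex
  have h2 : (J.card : ℝ) ≤ (|C| + 1) * Real.log n ^ 2 := by
    have e1 : C ≤ |C| + 1 := by have := le_abs_self C; linarith
    have e2 := mul_le_mul_of_nonneg_right e1 (sq_nonneg (Real.log (n : ℝ)))
    linarith
  have h3 := Real.exp_pos (-(Real.sqrt n / 256))
  nlinarith

theorem W_le {C : ℝ} (hn : 8 ≤ n) (hJ : (J.card : ℝ) ≤ C * Real.log n ^ 2) :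
    (1 / (1 - pb n)) ^ J.card ≤ (n : ℝ) ^ (2 * C) := by
  have h0 : (0 : ℝ) < n := by
    have : 0 < n := by omega
    exact_mod_cast this
  have hl2 : 2 ≤ Real.log n := by
    rw [Real.le_log_iff_exp_le h0]
    have h1 : Real.exp 2 = Real.exp 1 * Real.exp 1 := by rw [← Real.exp_add]; norm_num
    have h2 := Real.exp_one_lt_d9
    have h3 : (8 : ℝ) ≤ n := by exact_mod_cast hn
    have h4 := Real.exp_pos 1
    rw [h1]
    nlinarith
  have hp : pb n ≤ 1 / 2 := by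
    unfold pb
    exact one_div_le_one_div_of_le (by norm_num) hl2
  have hp0 := pb_pos (show 3 ≤ n by omega)
  have h1 : 1 / (1 - pb n) ≤ Real.exp (2 * pb n) := by
    have h2 : 1 / (1 - pb n) ≤ 1 + 2 * pb n := by
      rw [div_le_iff₀ (by linarith)]
      nlinarith
    have := Real.add_one_le_exp (2 * pb n)
    linarith
  calc (1 / (1 - pb n)) ^ J.card ≤ (Real.exp (2 * pb n)) ^ J.card :=
        pow_le_pow_left₀ (by
          have : 0 < 1 - pb n := by linarith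
          positivity) h1 _
    _ = Real.exp (2 * pb n * J.card) := by rw [← Real.exp_nat_mul]; ring_nf
    _ ≤ Real.exp (Real.log n * (2 * C)) := by
      rw [Real.exp_le_exp]
      have h2 : 2 * pb n * J.card ≤ 2 * pb n * (C * Real.log n ^ 2) :=
        mul_le_mul_of_nonneg_left hJ (by positivity)
      refine h2.trans (le_of_eq ?_)
      unfold pb
      have : Real.log n ≠ 0 := by linarith
      field_simp
    _ = (n : ℝ) ^ (2 * C) := by rw [Real.rpow_def_of_pos h0]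

/-- Two properties at different scales. -/
theorem pr_and_le {y x : ℕ} (hy : 3 ≤ y) (hyx : y ≤ x) {V Q : Set ℕ → Prop} (hV : Dep y V) {c : ℝ}
    (h : ∀ T0 ⊆ Ico 3 y, Pr y T0 x Q ≤ c) :
    Pr 3 ∅ x (fun S => V S ∧ Q S) ≤ Pr 3 ∅ x V * c := by
  classical
  rw [pr_split hy hyx, pr_split hy hyx, sum_mul]
  refine sum_le_sum (fun T0 hT0 => ?_)
  rw [mem_powerset] at hT0
  rw [mul_assoc]
  refine mul_le_mul_of_nonneg_left ?_ (cramerOn_nonneg' le_rfl hT0)
  have hVT : ∀ T ⊆ Ico y x, (V ((T0 ∪ T : Finset ℕ) : Set ℕ) ↔ V (T0 : Set ℕ)) := by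
    intro T hT
    rw [hV ((T0 ∪ T : Finset ℕ) : Set ℕ) (T0 : Set ℕ)]
    intro j _ hj
    rw [mem_coe, mem_coe, mem_union]
    constructor
    · rintro (h1 | h1)
      · exact h1
      · have := mem_Ico.1 (hT h1)
        omega
    · exact fun h1 => Or.inl h1
  by_cases h1 : V (T0 : Set ℕ)
  · have h2 : Pr y T0 x V = 1 := by
      rw [pr_def]
      refine Eq.trans (ex_congr (fun T hT => ?_)) (ex_const y T0 x 1)
      rw [if_pos ((hVT T hT).2 h1)]
    rw [h2, one_mul]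
    exact (pr_mono hy (fun T _ h2 => h2.2)).trans (h T0 hT0)
  · have h2 : Pr y T0 x V = 0 := by
      rw [pr_def]
      refine Eq.trans (ex_congr (fun T hT => ?_)) (ex_const y T0 x 0)
      rw [if_neg (fun h3 => h1 ((hVT T hT).1 h3))]
    rw [h2, zero_mul]
    refine le_trans (pr_mono hy (R := V) (fun T hT h3 => h3.1)) h2.le

variable {Ω : Type*} [MeasurableSpace Ω] {μ : Measure Ω} [IsProbabilityMeasure μ] {A : Ω → Set ℕ}

/-- No test at the indices in `J` succeeds. -/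
def Ev (A : Ω → Set ℕ) (J : Finset ℕ) (g : ℕ → ℕ → ℕ) : Set Ω :=
  {ω | ∀ m ∈ J, ∀ a, IsEl (A ω) m a → g m a ∉ A ω}

theorem measurable_isEl (hA : IsCramer μ A) (m a : ℕ) : MeasurableSet {ω | IsEl (A ω) m a} :=
  measurable_dep hA (dep_isEl (Nat.lt_succ_self a))

theorem measurable_ev (hA : IsCramer μ A) (J : Finset ℕ) (g : ℕ → ℕ → ℕ) : MeasurableSet (Ev A J g) := by
  have h1 : Ev A J g = ⋂ m ∈ J, ⋂ a, ({ω | IsEl (A ω) m a}ᶜ ∪ {ω | g m a ∈ A ω}ᶜ) := by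
    ext ω
    simp only [Ev, Set.mem_ofPred_eq, Set.mem_iInter, Set.mem_union, Set.mem_compl_iff]
    constructor
    · intro h m hm a
      by_cases h2 : IsEl (A ω) m a
      · exact Or.inr (h m hm a h2)
      · exact Or.inl h2
    · intro h m hm a h2
      rcases h m hm a with h3 | h3
      · exact absurd h2 h3
      · exact h3
  rw [h1]
  refine Finset.measurableSet_biInter _ (fun m _ => MeasurableSet.iInter (fun a => ?_))
  exact ((measurable_isEl hA m a).compl).union (hA.random _).compl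

theorem ev_union (J J' : Finset ℕ) (g : ℕ → ℕ → ℕ) : Ev A J g ∩ Ev A J' g = Ev A (J ∪ J') g := by
  ext ω
  simp only [Ev, Set.mem_inter_iff, Set.mem_ofPred_eq, mem_union]
  constructor
  · rintro ⟨h1, h2⟩ m (hm | hm)
    · exact h1 m hm
    · exact h2 m hm
  · intro h
    exact ⟨fun m hm => h m (Or.inl hm), fun m hm => h m (Or.inr hm)⟩

theorem dep_nh {J : Finset ℕ} {g : ℕ → ℕ → ℕ} {x : ℕ}
    (h : ∀ m ∈ J, ∀ a, lo m ≤ a → a < hi m → a < g m a ∧ g m a < x) (h3 : ∀ m ∈ J, 3 ≤ lo m) :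
    Dep x (NH J g) := by
  intro S S' hS
  apply propext
  have key : ∀ S S' : Set ℕ, (∀ j, 3 ≤ j → j < x → (j ∈ S ↔ j ∈ S')) → NH J g S → NH J g S' := by
    intro S S' hS hN m hm
    obtain ⟨a, h1, h2, h4, h5⟩ := hN m hm
    obtain ⟨h6, h7⟩ := h m hm a h1 h2
    have h8 := h3 m hm
    have e : IsEl S m a = IsEl S' m a := dep_isEl (show a < x by omega) S S' hS
    refine ⟨a, h1, h2, by rwa [← e], fun h9 => h5 ((hS _ (by omega) h7).2 h9)⟩
  exact ⟨key S S' hS, key S' S (fun j h3 hj => (hS j h3 hj).symm)⟩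

/-- The conditional version. -/
theorem cond_near {C : ℝ} (hC : 0 ≤ C) : ∀ᶠ n : ℕ in atTop, ∀ y : ℕ, 3 ≤ y → (y : ℝ) ≤ Real.sqrt n →
    ∀ T0 : Finset ℕ, (∀ j ∈ T0, j < y) → ∀ J : Finset ℕ, (∀ m ∈ J, n ≤ m) →
    (J.card : ℝ) ≤ C * Real.log n ^ 2 → ∀ g : ℕ → ℕ → ℕ, (∀ m ∈ J, ∀ a, 3 ≤ a → a < g m a) →
    (∀ m ∈ J, ∀ m' ∈ J, ∀ a a', m < m' → a < a' → g m a < g m' a') → ∀ (q : ℕ → ℝ) (ε : ℝ),
    (∀ m ∈ J, q m ≤ pb n) → (∀ m ∈ J, ∀ a, lo m ≤ a → a < hi m → |pb (g m a) - q m| ≤ ε) → 0 ≤ ε →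
    4 * ε * (C * Real.log n ^ 2) ≤ 1 → ∀ x, (∀ m ∈ J, hi m ≤ x ∧ ∀ a, a < hi m → g m a < x) →
    Pr y T0 x (fun S => NH J g S ∨ ∃ m ∈ J, ¬ Good S m) ≤
      (1 + (4 * ε * (C * Real.log n ^ 2) + 2 * (n : ℝ) ^ (-(1 : ℝ)))) * ∏ m ∈ J, (1 - q m) ∧
    (1 - (4 * ε * (C * Real.log n ^ 2) + 2 * (n : ℝ) ^ (-(1 : ℝ)))) * ∏ m ∈ J, (1 - q m) ≤ Pr y T0 x (NH J g) := by
  obtain ⟨n1, hn1⟩ := eventually_atTop.1 pos_bounds
  filter_upwards [pr_bad_le C, eventually_ge_atTop n1, eventually_ge_atTop 10, hl.eventually_ge_atTop 4]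
    with n hbad hn hn10 hl4 y hy hyn T0 hT0 J hJ hJc g hgt hinj q ε hq1 hq hε0 hε1 x hx
  have hn0 : (0 : ℝ) < n := by
    have : 0 < n := by omega
    exact_mod_cast this
  have hyn' : y ≤ n := by
    have h1 : Real.sqrt n ≤ n := by
      rw [Real.sqrt_le_left hn0.le]
      have : (10 : ℝ) ≤ n := by exact_mod_cast hn10
      nlinarith
    exact_mod_cast hyn.trans h1
  have hpos : ∀ m ∈ J, 100 ≤ lo m ∧ lo m ≤ hi m ∧ m ≤ lo m := by
    intro m hm
    have h1 := hn1 m (hn.trans (hJ m hm))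
    refine ⟨h1.2.2.2.1, ?_, h1.2.2.2.2.1⟩
    have h2 := h1.2.2.2.2.2.2.1.trans h1.2.2.2.2.2.2.2.1
    exact_mod_cast h2
  have hOk : Ok J g y x n := by
    refine ⟨hy, by omega, hJ, fun m hm => ?_, fun m hm => (hpos m hm).2.1, fun m hm a h1 h2 => ?_, hinj⟩
    · have := (hpos m hm).2.2
      have := hJ m hm
      omega
    · have := (hpos m hm).1
      exact ⟨hgt m hm a (by omega), (hx m hm).2 a h2⟩
  have hpbn : pb n ≤ 1 / 4 := by
    unfold pb
    exact one_div_le_one_div_of_le (by norm_num) hl4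
  have hB := hbad y hy hyn T0 hT0 J hJ hJc x (fun m hm => (hx m hm).1)
  have hεJ : ε * J.card ≤ ε * (C * Real.log n ^ 2) := mul_le_mul_of_nonneg_left hJc hε0
  have hW := W_le (J := J) (n := n) (by omega) hJc
  have hε4 : ε ≤ 1 / 4 ∨ J = ∅ := by
    by_cases hJe : J = ∅
    · exact Or.inr hJe
    · left
      have h1 : 1 ≤ J.card := card_pos.2 (nonempty_iff_ne_empty.2 hJe)
      have h2 : (1 : ℝ) ≤ J.card := by exact_mod_cast h1
      nlinarith
  rcases hε4 with hε4 | hJe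
  swap
  · rw [hJe, prod_empty, mul_one, mul_one]
    have h1 : 0 ≤ 4 * ε * (C * Real.log n ^ 2) + 2 * (n : ℝ) ^ (-(1 : ℝ)) := by positivity
    refine ⟨(pr_le_one hy _).trans (by linarith), ?_⟩
    have h2 : Pr y T0 x (NH ∅ g) = 1 := by
      classical
      rw [pr_def]
      refine Eq.trans (ex_congr (fun T _ => ?_)) (ex_const y T0 x 1)
      rw [if_pos (by intro m hm; simp at hm)]
    rw [h2]
    linarith
  obtain ⟨P, hP⟩ : ∃ P : ℝ, P = ∏ m ∈ J, (1 - q m) := ⟨_, rfl⟩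
  have hP0 : 0 < P := by
    rw [hP]
    exact prod_pos (fun m hm => by have := hq1 m hm; linarith)
  obtain ⟨h1, h2⟩ := nh_near hOk (T0 := T0) hT0 q (fun m hm => by have := hq1 m hm; linarith) hε0 hε4
    (by nlinarith) hq hgt hB
  rw [← hP] at h1 h2 ⊢
  have hWB : (1 / (1 - pb n)) ^ J.card * (n : ℝ) ^ (-(2 * C + 1)) ≤ (n : ℝ) ^ (-(1 : ℝ)) := by
    calc (1 / (1 - pb n)) ^ J.card * (n : ℝ) ^ (-(2 * C + 1)) ≤ (n : ℝ) ^ (2 * C) * (n : ℝ) ^ (-(2 * C + 1)) :=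
          mul_le_mul_of_nonneg_right hW (by positivity)
      _ = (n : ℝ) ^ (-(1 : ℝ)) := by
        rw [← Real.rpow_add hn0]
        congr 1
        ring
  have hWP : 1 ≤ (1 / (1 - pb n)) ^ J.card * P := by
    rw [hP, ← prod_const, ← prod_mul_distrib]
    have h3 : 0 < 1 - pb n := by linarith
    have h5 : (1 : ℝ) = ∏ m ∈ J, (1 : ℝ) := by rw [prod_const_one]
    refine h5.le.trans (prod_le_prod (fun m _ => zero_le_one) (fun m hm => ?_))
    have h4 := hq1 m hm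
    rw [one_div, ← div_eq_inv_mul, le_div_iff₀ h3]
    linarith
  have hBP : (n : ℝ) ^ (-(2 * C + 1)) ≤ (n : ℝ) ^ (-(1 : ℝ)) * P := by
    have h3 : 0 ≤ (n : ℝ) ^ (-(2 * C + 1)) := by positivity
    calc (n : ℝ) ^ (-(2 * C + 1)) ≤ (n : ℝ) ^ (-(2 * C + 1)) * ((1 / (1 - pb n)) ^ J.card * P) :=
          le_mul_of_one_le_right h3 hWP
      _ = (1 / (1 - pb n)) ^ J.card * (n : ℝ) ^ (-(2 * C + 1)) * P := by ring
      _ ≤ (n : ℝ) ^ (-(1 : ℝ)) * P := mul_le_mul_of_nonneg_right hWB hP0.le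
  have hJc4 : ε * J.card * P ≤ ε * (C * Real.log n ^ 2) * P := mul_le_mul_of_nonneg_right hεJ hP0.le
  have hWBP := mul_le_mul_of_nonneg_right hWB hP0.le
  have hεC : 0 ≤ ε * (C * Real.log n ^ 2) * P := by positivity
  have hnP : 0 ≤ (n : ℝ) ^ (-(1 : ℝ)) * P := by positivity
  constructor
  · refine (pr_or_le hy _ _).trans ?_
    nlinarith
  · nlinarith

/-- Asymptotic independence in the model. -/
theorem ev_near (hA : IsCramer μ A) {C : ℝ} (hC : 0 ≤ C) : ∀ᶠ n : ℕ in atTop, ∀ J : Finset ℕ, (∀ m ∈ J, n ≤ m) →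
    (J.card : ℝ) ≤ C * Real.log n ^ 2 → ∀ g : ℕ → ℕ → ℕ, (∀ m ∈ J, ∀ a, 3 ≤ a → a < g m a) →
    (∀ m ∈ J, ∀ m' ∈ J, ∀ a a', m < m' → a < a' → g m a < g m' a') → ∀ (q : ℕ → ℝ) (ε : ℝ),
    (∀ m ∈ J, q m ≤ pb n) → (∀ m ∈ J, ∀ a, lo m ≤ a → a < hi m → |pb (g m a) - q m| ≤ ε) → 0 ≤ ε →
    4 * ε * (C * Real.log n ^ 2) ≤ 1 →
    |μ.real (Ev A J g) - ∏ m ∈ J, (1 - q m)| ≤ (4 * ε * (C * Real.log n ^ 2) + 2 * (n : ℝ) ^ (-(1 : ℝ))) *
      ∏ m ∈ J, (1 - q m) := by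
  obtain ⟨n1, hn1⟩ := eventually_atTop.1 pos_bounds
  filter_upwards [cond_near hC, eventually_ge_atTop n1, eventually_ge_atTop 10]
    with n hcond hn hn10 J hJ hJc g hgt hinj q ε hq1 hq hε0 hε1
  -- the horizon
  obtain ⟨x, hx⟩ : ∃ x : ℕ, ∀ m ∈ J, hi m ≤ x ∧ ∀ a, a < hi m → g m a < x := by
    refine ⟨∑ m ∈ J, (hi m + 1 + ∑ a ∈ range (hi m), (g m a + 1)), fun m hm => ?_⟩
    have h1 := single_le_sum (f := fun m => hi m + 1 + ∑ a ∈ range (hi m), (g m a + 1)) (fun _ _ => Nat.zero_le _) hm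
    refine ⟨by omega, fun a ha => ?_⟩
    have h2 := single_le_sum (f := fun a => g m a + 1) (fun _ _ => Nat.zero_le _) (mem_range.2 ha)
    omega
  have hpos : ∀ m ∈ J, 100 ≤ lo m ∧ lo m ≤ hi m := by
    intro m hm
    have h1 := hn1 m (hn.trans (hJ m hm))
    refine ⟨h1.2.2.2.1, ?_⟩
    have h2 := h1.2.2.2.2.2.2.1.trans h1.2.2.2.2.2.2.2.1
    exact_mod_cast h2
  have hn0 : (0 : ℝ) < n := by
    have : 0 < n := by omega
    exact_mod_cast this
  obtain ⟨h1, h2⟩ := hcond 3 le_rfl (by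
    rw [Real.le_sqrt (by norm_num) hn0.le]
    have : (10 : ℝ) ≤ n := by exact_mod_cast hn10
    push_cast
    linarith) ∅ (by simp) J hJ hJc g hgt hinj q ε hq1 hq hε0 hε1 x hx
  -- the events
  have hdep := dep_nh (J := J) (g := g) (x := x) (fun m hm a h1 h2 => ⟨hgt m hm a (by
    have := (hpos m hm).1
    omega), (hx m hm).2 a h2⟩) (fun m hm => by have := (hpos m hm).1; omega)
  have hdepB : Dep x (fun S => ∃ m ∈ J, ¬ Good S m) := by
    intro S S' hS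
    apply propext
    have key : ∀ m ∈ J, (Good S m ↔ Good S' m) := by
      intro m hm
      have h3 := (hpos m hm).2
      have h4 := (hx m hm).1
      have e : Good S m = Good S' m := dep_good (x := x) (by omega) h4 S S' hS
      rw [e]
    constructor
    · rintro ⟨m, hm, h3⟩
      exact ⟨m, hm, fun h4 => h3 ((key m hm).2 h4)⟩
    · rintro ⟨m, hm, h3⟩
      exact ⟨m, hm, fun h4 => h3 ((key m hm).1 h4)⟩
  have hdep2 : Dep x (fun S => NH J g S ∨ ∃ m ∈ J, ¬ Good S m) := by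
    intro S S' hS
    have e3 : NH J g S = NH J g S' := hdep S S' hS
    have e4 : (∃ m ∈ J, ¬ Good S m) = (∃ m ∈ J, ¬ Good S' m) := hdepB S S' hS
    show (NH J g S ∨ ∃ m ∈ J, ¬ Good S m) = (NH J g S' ∨ ∃ m ∈ J, ¬ Good S' m)
    rw [e3, e4]
  have e1 : {ω | NH J g (A ω)} ⊆ Ev A J g := by
    intro ω hω m hm a ha
    obtain ⟨b, _, _, h3, h4⟩ := hω m hm
    rw [isEl_unique ha h3]
    exact h4
  have e2 : Ev A J g ⊆ {ω | NH J g (A ω) ∨ ∃ m ∈ J, ¬ Good (A ω) m} := by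
    intro ω hω
    by_cases h3 : ∃ m ∈ J, ¬ Good (A ω) m
    · exact Or.inr h3
    · left
      push Not at h3
      intro m hm
      obtain ⟨a, h4, h5, h6⟩ := good_isEl (by have := hJ m hm; omega) (h3 m hm)
      exact ⟨a, h4, h5, h6, hω m hm a h6⟩
  have f1 : Pr 3 ∅ x (NH J g) ≤ μ.real (Ev A J g) := by
    rw [← real_eq_pr hA hdep]
    exact measureReal_mono e1
  have f2 : μ.real (Ev A J g) ≤ Pr 3 ∅ x (fun S => NH J g S ∨ ∃ m ∈ J, ¬ Good S m) := by
    rw [← real_eq_pr hA hdep2]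
    exact measureReal_mono e2
  rw [abs_le]
  constructor
  · linarith
  · linarith

end Pool.Agent.Q197.CI
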