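import Pool.Agent.Q197.CI.Typ

/-!
# The probability that no test at given indices succeeds
-/

set_option autoImplicit false

namespace Pool.Agent.Q197.CI

open Finset Filter
open scoped Topology

/-- The `m`-th element is near its typical position. -/
def Good (S : Set ℕ) (m : ℕ) : Prop := ct S (lo m) < m ∧ m ≤ ct S (hi m)

theorem dep_good {m x : ℕ} (h1 : lo m ≤ x) (h2 : hi m ≤ x) : Dep x (fun S => Good S m) := by
  intro S S' hS
  have h3 : ct S (lo m) = ct S' (lo m) := dep_ct h1 S S' hS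
  have h4 : ct S (hi m) = ct S' (hi m) := dep_ct h2 S S' hS
  show (ct S (lo m) < m ∧ m ≤ ct S (hi m)) = (ct S' (lo m) < m ∧ m ≤ ct S' (hi m))
  rw [h3, h4]

theorem good_isEl {S : Set ℕ} {m : ℕ} (hm : 1 ≤ m) (h : Good S m) :
    ∃ a, lo m ≤ a ∧ a < hi m ∧ IsEl S m a := by
  obtain ⟨a, h1, h2⟩ := exists_isEl hm h.2
  exact ⟨a, le_of_ct_lt h2 h.1, h1, h2⟩

/-- The number of elements below `z` and the number of hits. -/
theorem hits_lt {y z x : ℕ} (hy : 3 ≤ y) (hyz : y ≤ z) (hzx : z ≤ x) (S : Set ℕ) :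
    ct S y + hits y x (fun a _ => a < z) S = ct S z := by
  classical
  have e1 : hits y x (fun a _ => a < z) S = ((Ico y z).filter (fun j => j ∈ S)).card := by
    unfold hits
    congr 1
    ext j
    simp only [mem_filter, mem_Ico]
    constructor
    · rintro ⟨⟨h1, h2⟩, h3, h4⟩
      exact ⟨⟨h1, h3⟩, h4⟩
    · rintro ⟨⟨h1, h2⟩, h3⟩
      exact ⟨⟨h1, by omega⟩, h2, h3⟩
  rw [e1]
  unfold ct
  rw [← card_union_of_disjoint]
  · congr 1
    ext j
    simp only [mem_union, mem_filter, mem_Ico]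
    constructor
    · rintro (h | h)
      · exact ⟨⟨h.1.1, by omega⟩, h.2⟩
      · exact ⟨⟨by omega, h.1.2⟩, h.2⟩
    · rintro ⟨⟨h1, h2⟩, h3⟩
      by_cases h4 : j < y
      · exact Or.inl ⟨⟨h1, h4⟩, h3⟩
      · exact Or.inr ⟨⟨by omega, h2⟩, h3⟩
  · rw [Finset.disjoint_left]
    intro j h1 h2
    rw [mem_filter, mem_Ico] at h1 h2
    omega

theorem lam_lt {y z x : ℕ} (hy : 3 ≤ y) (hyz : y ≤ z) (hzx : z ≤ x) (S : Set ℕ) :
    lam y x (fun a _ => a < z) S = Lf z - Lf y := by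
  classical
  rw [Lf_sub hy hyz]
  unfold lam
  congr 1
  ext j
  simp only [mem_filter, mem_Ico]
  omega

theorem dep_const {x : ℕ} (p : Prop) : Dep x (fun _ : Set ℕ => p) := fun _ _ _ => rfl

/-- The probability that the `m`-th element is far from its typical position. -/
theorem pr_good : ∀ᶠ m : ℕ in atTop, ∀ y : ℕ, 3 ≤ y → (y : ℝ) ≤ dl m * m / 12 → ∀ T0 : Finset ℕ,
    (∀ j ∈ T0, j < y) → ∀ x, hi m ≤ x →
    Pr y T0 x (fun S => ¬ Good S m) ≤ 2 * Real.exp (-(Real.sqrt m / 256)) := by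
  filter_upwards [pos_bounds, eventually_ge_atTop 1] with m hm hm1 y hy hym T0 hT0 x hx
  obtain ⟨h1, h2, h3, h4, h5, h6, h7, h8, h9, h10, h11⟩ := hm
  obtain ⟨d, hd⟩ : ∃ d : ℝ, d = dl m := ⟨_, rfl⟩
  rw [← hd] at h1 h2 h3 h6 h9 h10 h11 hym
  have hm0 : (0 : ℝ) < m := by exact_mod_cast hm1
  have hloh : lo m ≤ hi m := by
    have : (lo m : ℝ) ≤ hi m := h7.trans h8
    exact_mod_cast this
  have hylo : y ≤ lo m := by
    have e1 : (y : ℝ) ≤ m := by nlinarith
    have e2 : y ≤ m := by exact_mod_cast e1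
    omega
  have hsq : d ^ 2 * m = Real.sqrt m := by
    rw [hd]
    unfold dl
    rw [Real.sqrt_eq_rpow, ← Real.rpow_natCast, ← Real.rpow_mul hm0.le]
    nth_rw 2 [← Real.rpow_one (m : ℝ)]
    rw [← Real.rpow_add hm0]
    norm_num
  have hLy0 := Lf_nonneg y
  have hLy := Lf_le y
  have hb1 := tail_up hy hT0 (fun a _ => a < lo m) (fun a _ => dep_const _) x (η := d / 4)
    (l := m - d * m / 3) (t := m - y) (by positivity) (by linarith) (by nlinarith) (by nlinarith)
  have hb2 := tail_low hy hT0 (fun a _ => a < hi m) (fun a _ => dep_const _) x (η := d / 8)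
    (l := m + d * m / 4) (t := m) (by positivity) (by linarith) (by positivity) (by nlinarith)
  have hc1 : Real.exp (-((d / 4) ^ 2 * (m - d * m / 3) / 4)) ≤ Real.exp (-(Real.sqrt m / 256)) := by
    rw [Real.exp_le_exp, ← hsq]
    have e1 : (m : ℝ) / 2 ≤ m - d * m / 3 := by nlinarith
    have e2 : 0 ≤ d ^ 2 := sq_nonneg d
    nlinarith [mul_le_mul_of_nonneg_left e1 e2]
  have hc2 : Real.exp (-((d / 8) ^ 2 * (m + d * m / 4) / 4)) ≤ Real.exp (-(Real.sqrt m / 256)) := by
    rw [Real.exp_le_exp, ← hsq]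
    have e1 : (m : ℝ) ≤ m + d * m / 4 := by nlinarith
    have e2 : 0 ≤ d ^ 2 := sq_nonneg d
    nlinarith [mul_le_mul_of_nonneg_left e1 e2]
  refine (pr_mono hy (R := fun S => (lam y x (fun a _ => a < lo m) S ≤ m - d * m / 3 ∧
    (m : ℝ) - y ≤ hits y x (fun a _ => a < lo m) S) ∨ (m + d * m / 4 ≤ lam y x (fun a _ => a < hi m) S ∧
    (hits y x (fun a _ => a < hi m) S : ℝ) ≤ m)) (fun T _ hG => ?_)).trans
    ((pr_or_le hy _ _).trans (by linarith))
  generalize ((T0 ∪ T : Finset ℕ) : Set ℕ) = S at hG ⊢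
  have f1 := hits_lt hy hylo (hloh.trans hx) S
  have f2 := hits_lt hy (hylo.trans hloh) hx S
  have f3 := ct_le_sub S y
  by_cases hG1 : ct S (lo m) < m
  · right
    have hG2 : ct S (hi m) < m := by
      by_contra hcon
      exact hG ⟨hG1, by omega⟩
    constructor
    · rw [lam_lt hy (hylo.trans hloh) hx]
      linarith
    · have : hits y x (fun a _ => a < hi m) S ≤ m := by omega
      exact_mod_cast this
  · left
    constructor
    · rw [lam_lt hy hylo (hloh.trans hx)]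
      linarith
    · have e1 : m ≤ hits y x (fun a _ => a < lo m) S + y := by omega
      have e2 : (m : ℝ) ≤ hits y x (fun a _ => a < lo m) S + y := by exact_mod_cast e1
      linarith

/-- The position `a` is tested: it is the target of the element with an index in `J`. -/
def Tst (J : Finset ℕ) (g : ℕ → ℕ → ℕ) (a : ℕ) (S : Set ℕ) : Prop :=
  ∃ m ∈ J, ∃ b, b < a ∧ IsEl S m b ∧ g m b = a

theorem dep_tst (J : Finset ℕ) (g : ℕ → ℕ → ℕ) (a : ℕ) : Dep a (Tst J g a) := by
  intro S S' hS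
  apply propext
  constructor
  · rintro ⟨m, hm, b, h1, h2, h3⟩
    have e : IsEl S m b = IsEl S' m b := dep_isEl h1 S S' hS
    exact ⟨m, hm, b, h1, by rwa [← e], h3⟩
  · rintro ⟨m, hm, b, h1, h2, h3⟩
    have e : IsEl S m b = IsEl S' m b := dep_isEl h1 S S' hS
    exact ⟨m, hm, b, h1, by rwa [e], h3⟩

open Classical in
/-- The factors. -/
noncomputable def fac (J : Finset ℕ) (g : ℕ → ℕ → ℕ) (a : ℕ) (S : Set ℕ) : ℝ :=
  if Tst J g a S then (if a ∈ S then 0 else 1 / (1 - pb a)) else 1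

theorem ex_fac {y : ℕ} (hy : 3 ≤ y) {T0 : Finset ℕ} (hT0 : ∀ j ∈ T0, j < y) (J : Finset ℕ) (g : ℕ → ℕ → ℕ) (x : ℕ) :
    Ex y T0 x (fun S => ∏ a ∈ Ico y x, fac J g a S) = 1 := by
  classical
  refine ex_prod_eq hT0 (fac J g) ?_ ?_ x
  · intro a ha S S' hS
    have h1 : Tst J g a S = Tst J g a S' := dep_tst J g a S S' (fun j h3 hj => hS j h3 (by omega))
    have h2 : a ∈ S ↔ a ∈ S' := hS a (by omega) (by omega)
    unfold fac
    simp only [h1, h2]
  · intro a ha S haS
    have h1 : Tst J g a (insert a S) = Tst J g a S := by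
      refine dep_tst J g a (insert a S) S (fun j h3 hj => ?_)
      rw [Set.mem_insert_iff]
      constructor
      · rintro (h4 | h4)
        · omega
        · exact h4
      · exact fun h4 => Or.inr h4
    unfold fac
    simp only [h1]
    have h2 := pb_lt_one (show 3 ≤ a by omega)
    by_cases h3 : Tst J g a S
    · rw [if_pos h3, if_pos h3, if_pos (Set.mem_insert a S), if_neg haS]
      have h4 : 1 - pb a ≠ 0 := by linarith
      field_simp
      ring
    · rw [if_neg h3, if_neg h3]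
      ring

/-- The elements with indices in `J` are near their typical positions and no target is an element. -/
def NH (J : Finset ℕ) (g : ℕ → ℕ → ℕ) (S : Set ℕ) : Prop :=
  ∀ m ∈ J, ∃ a, lo m ≤ a ∧ a < hi m ∧ IsEl S m a ∧ g m a ∉ S

/-- The assumptions on the indices and the targets. -/
structure Ok (J : Finset ℕ) (g : ℕ → ℕ → ℕ) (y x n : ℕ) : Prop where
  hy : 3 ≤ y
  hn : 3 ≤ n
  one : ∀ m ∈ J, n ≤ m
  lo' : ∀ m ∈ J, y ≤ lo m
  hi' : ∀ m ∈ J, lo m ≤ hi m
  gt : ∀ m ∈ J, ∀ a, lo m ≤ a → a < hi m → a < g m a ∧ g m a < x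
  inj : ∀ m ∈ J, ∀ m' ∈ J, ∀ a a', m < m' → a < a' → g m a < g m' a'

variable {J : Finset ℕ} {g : ℕ → ℕ → ℕ} {y x n : ℕ}

open Classical in
theorem filter_tst (h : Ok J g y x n) {S : Set ℕ} {e : ℕ → ℕ}
    (he : ∀ m ∈ J, lo m ≤ e m ∧ e m < hi m ∧ IsEl S m (e m)) :
    (Ico y x).filter (fun a => Tst J g a S) = J.image (fun m => g m (e m)) := by
  ext a
  rw [mem_filter, mem_Ico, mem_image]
  constructor
  · rintro ⟨_, m, hm, b, h1, h2, h3⟩
    refine ⟨m, hm, ?_⟩
    rw [isEl_unique (he m hm).2.2 h2]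
    exact h3
  · rintro ⟨m, hm, h1⟩
    obtain ⟨h2, h3, h4⟩ := he m hm
    obtain ⟨h5, h6⟩ := h.gt m hm (e m) h2 h3
    have h7 := h.lo' m hm
    exact ⟨⟨by omega, by omega⟩, m, hm, e m, by omega, h4, h1⟩

theorem inj_tst (h : Ok J g y x n) {S : Set ℕ} {e : ℕ → ℕ} (he : ∀ m ∈ J, IsEl S m (e m)) :
    Set.InjOn (fun m => g m (e m)) (J : Set ℕ) := by
  intro m hm m' hm' hmm
  rcases lt_trichotomy m m' with h1 | h1 | h1
  · have h2 := h.inj m hm m' hm' _ _ h1 (isEl_lt (he m hm) (he m' hm') h1)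
    simp only at hmm
    omega
  · exact h1
  · have h2 := h.inj m' hm' m hm _ _ h1 (isEl_lt (he m' hm') (he m hm) h1)
    simp only at hmm
    omega

theorem prod_fac (h : Ok J g y x n) {S : Set ℕ} {e : ℕ → ℕ}
    (he : ∀ m ∈ J, lo m ≤ e m ∧ e m < hi m ∧ IsEl S m (e m)) (hno : ∀ m ∈ J, g m (e m) ∉ S) :
    ∏ a ∈ Ico y x, fac J g a S = ∏ m ∈ J, 1 / (1 - pb (g m (e m))) := by
  classical
  have h1 : ∏ a ∈ Ico y x, fac J g a S = ∏ a ∈ (Ico y x).filter (fun a => Tst J g a S), fac J g a S := by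
    rw [prod_filter]
    refine prod_congr rfl (fun a _ => ?_)
    by_cases h2 : Tst J g a S
    · rw [if_pos h2]
    · rw [if_neg h2]
      unfold fac
      rw [if_neg h2]
  rw [h1, filter_tst h he, prod_image (inj_tst h (fun m hm => (he m hm).2.2))]
  refine prod_congr rfl (fun m hm => ?_)
  have h2 : Tst J g (g m (e m)) S := by
    have h3 : g m (e m) ∈ (Ico y x).filter (fun a => Tst J g a S) := by
      rw [filter_tst h he]
      exact mem_image_of_mem _ hm
    exact (mem_filter.1 h3).2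
  unfold fac
  rw [if_pos h2, if_neg (hno m hm)]

/-- Upper bound. -/
theorem pr_nh_le (h : Ok J g y x n) {T0 : Finset ℕ} (hT0 : ∀ j ∈ T0, j < y) (pl : ℕ → ℝ)
    (hpl : ∀ m ∈ J, ∀ a, lo m ≤ a → a < hi m → pl m ≤ pb (g m a)) (hpl1 : ∀ m ∈ J, pl m < 1) :
    Pr y T0 x (NH J g) ≤ ∏ m ∈ J, (1 - pl m) := by
  have hc : 0 < ∏ m ∈ J, 1 / (1 - pl m) := prod_pos (fun m hm => by
    have := hpl1 m hm
    have : 0 < 1 - pl m := by linarith
    positivity)
  refine (pr_le_of_prod h.hy (ex_fac h.hy hT0 J g x).le (fun S => prod_nonneg (fun a ha => ?_)) hc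
    (fun T _ hT => ?_)).trans (le_of_eq ?_)
  · unfold fac
    have h1 := pb_lt_one (show 3 ≤ a by have := (mem_Ico.1 ha).1; have := h.hy; omega)
    have h2 : 0 < 1 - pb a := by linarith
    split_ifs <;> positivity
  · generalize ((T0 ∪ T : Finset ℕ) : Set ℕ) = S at hT ⊢
    have hT' : ∀ m : ℕ, ∃ a, m ∈ J → lo m ≤ a ∧ a < hi m ∧ IsEl S m a ∧ g m a ∉ S := by
      intro m
      by_cases hm : m ∈ J
      · obtain ⟨a, ha⟩ := hT m hm
        exact ⟨a, fun _ => ha⟩
      · exact ⟨0, fun h => absurd h hm⟩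
    choose e he using hT'
    rw [prod_fac h (fun m hm => ⟨(he m hm).1, (he m hm).2.1, (he m hm).2.2.1⟩) (fun m hm => (he m hm).2.2.2)]
    refine prod_le_prod (fun m hm => ?_) (fun m hm => ?_)
    · have := hpl1 m hm
      have : 0 < 1 - pl m := by linarith
      positivity
    · obtain ⟨h1, h2, h3, h4⟩ := he m hm
      have h5 := hpl m hm (e m) h1 h2
      obtain ⟨h6, h7⟩ := h.gt m hm (e m) h1 h2
      have h8 := pb_lt_one (show 3 ≤ g m (e m) by have := h3.1; omega)
      exact one_div_le_one_div_of_le (by linarith) (by linarith)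
  · rw [← one_div_one_div (∏ m ∈ J, (1 - pl m))]
    congr 1
    rw [prod_div_distrib, prod_const_one]

/-- The product is not too large. -/
theorem prod_fac_le (h : Ok J g y x n) (S : Set ℕ) (hS : ∀ m ∈ J, ∀ a, IsEl S m a → a < g m a) :
    ∏ a ∈ Ico y x, fac J g a S ≤ (1 / (1 - pb n)) ^ J.card := by
  classical
  have hn1 := pb_lt_one h.hn
  have hn0 := pb_pos h.hn
  have h1n : 1 ≤ 1 / (1 - pb n) := by
    rw [le_div_iff₀ (by linarith)]
    linarith
  have hy := h.hy
  have h1 : ∏ a ∈ Ico y x, fac J g a S ≤ ∏ a ∈ Ico y x, (if Tst J g a S then 1 / (1 - pb n) else 1) := by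
    refine prod_le_prod (fun a ha => ?_) (fun a ha => ?_)
    · unfold fac
      have h1 := pb_lt_one (show 3 ≤ a by have := (mem_Ico.1 ha).1; omega)
      have h2 : 0 < 1 - pb a := by linarith
      split_ifs <;> positivity
    · unfold fac
      by_cases h2 : Tst J g a S
      · rw [if_pos h2, if_pos h2]
        split_ifs
        · linarith
        · obtain ⟨m, hm, b, h3, h4, h5⟩ := h2
          have h6 := h.one m hm
          have h7 := isEl_ge h4
          have h8 := pb_anti h.hn (show n ≤ a by omega)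
          exact one_div_le_one_div_of_le (by linarith) (by linarith)
      · rw [if_neg h2, if_neg h2]
  refine h1.trans ?_
  rw [← prod_filter, prod_const]
  refine pow_le_pow_right₀ h1n ?_
  have h2 : ∀ a ∈ (Ico y x).filter (fun a => Tst J g a S), ∃ m ∈ J, ∃ b, b < a ∧ IsEl S m b ∧ g m b = a :=
    fun a ha => (mem_filter.1 ha).2
  have h3 : ∀ a : ℕ, ∃ m, a ∈ (Ico y x).filter (fun a => Tst J g a S) →
      m ∈ J ∧ ∃ b, b < a ∧ IsEl S m b ∧ g m b = a := by
    intro a
    by_cases ha : a ∈ (Ico y x).filter (fun a => Tst J g a S)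
    · obtain ⟨m, hm, hb⟩ := h2 a ha
      exact ⟨m, fun _ => ⟨hm, hb⟩⟩
    · exact ⟨0, fun hcon => absurd hcon ha⟩
  choose f hf using h3
  refine card_le_card_of_injOn f (fun a ha => (hf a ha).1) ?_
  intro a ha a' ha' haa
  obtain ⟨_, b, h4, h5, h6⟩ := hf a ha
  obtain ⟨_, b', h7, h8, h9⟩ := hf a' ha'
  rw [haa] at h5 h6
  have h10 := isEl_unique h5 h8
  calc a = g (f a') b := h6.symm
    _ = g (f a') b' := by rw [h10]
    _ = a' := h9

/-- Lower bound. -/
theorem le_pr_nh (h : Ok J g y x n) {T0 : Finset ℕ} (hT0 : ∀ j ∈ T0, j < y) (pu : ℕ → ℝ)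
    (hpu : ∀ m ∈ J, ∀ a, lo m ≤ a → a < hi m → pb (g m a) ≤ pu m) (hpu1 : ∀ m ∈ J, pu m < 1)
    (hgt : ∀ m ∈ J, ∀ a, 3 ≤ a → a < g m a) :
    (∏ m ∈ J, (1 - pu m)) * (1 - (1 / (1 - pb n)) ^ J.card * Pr y T0 x (fun S => ∃ m ∈ J, ¬ Good S m)) ≤
      Pr y T0 x (NH J g) := by
  classical
  have hP : 0 < ∏ m ∈ J, (1 - pu m) := prod_pos (fun m hm => by
    have := hpu1 m hm
    linarith)
  obtain ⟨W, hW⟩ : ∃ W : ℝ, W = (1 / (1 - pb n)) ^ J.card := ⟨_, rfl⟩
  have hW0 : 0 < W := by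
    rw [hW]
    have := pb_lt_one h.hn
    have : 0 < 1 - pb n := by linarith
    positivity
  have key : 1 ≤ 1 / (∏ m ∈ J, (1 - pu m)) * Pr y T0 x (NH J g) + W * Pr y T0 x (fun S => ∃ m ∈ J, ¬ Good S m) := by
    rw [pr_def, pr_def, ← ex_const_mul, ← ex_const_mul, ← ex_add]
    refine le_trans (ex_fac h.hy hT0 J g x).symm.le (ex_mono h.hy (fun T _ => ?_))
    generalize ((T0 ∪ T : Finset ℕ) : Set ℕ) = S
    by_cases hB : ∃ m ∈ J, ¬ Good S m
    · rw [if_pos hB, mul_one]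
      have h1 := prod_fac_le h S (fun m hm a ha => hgt m hm a ha.1)
      rw [← hW] at h1
      have h2 : 0 ≤ 1 / (∏ m ∈ J, (1 - pu m)) * (if NH J g S then (1 : ℝ) else 0) := by
        split_ifs <;> positivity
      linarith
    · rw [if_neg hB, mul_zero, add_zero]
      push Not at hB
      have hT' : ∀ m : ℕ, ∃ a, m ∈ J → lo m ≤ a ∧ a < hi m ∧ IsEl S m a := by
        intro m
        by_cases hm : m ∈ J
        · obtain ⟨a, ha⟩ := good_isEl (by have := h.one m hm; have := h.hn; omega) (hB m hm)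
          exact ⟨a, fun _ => ha⟩
        · exact ⟨0, fun h => absurd h hm⟩
      choose e he using hT'
      by_cases hN : ∀ m ∈ J, g m (e m) ∉ S
      · have hNH : NH J g S := fun m hm => ⟨e m, (he m hm).1, (he m hm).2.1, (he m hm).2.2, hN m hm⟩
        rw [if_pos hNH, mul_one, prod_fac h he hN, one_div, ← prod_inv_distrib]
        refine prod_le_prod (fun m hm => ?_) (fun m hm => ?_)
        · have h3 := (he m hm).2.2.1
          have h4 := hgt m hm (e m) h3
          have h8 := pb_lt_one (show 3 ≤ g m (e m) by omega)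
          have : 0 < 1 - pb (g m (e m)) := by linarith
          positivity
        · have h3 := hpu m hm (e m) (he m hm).1 (he m hm).2.1
          have h4 := hpu1 m hm
          rw [one_div]
          exact inv_anti₀ (by linarith) (by linarith)
      · push Not at hN
        obtain ⟨m, hm, hmS⟩ := hN
        have h1 : ∏ a ∈ Ico y x, fac J g a S = 0 := by
          obtain ⟨h2, h3, h4⟩ := he m hm
          obtain ⟨h5, h6⟩ := h.gt m hm (e m) h2 h3
          have h7 := h.lo' m hm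
          refine prod_eq_zero (i := g m (e m)) (mem_Ico.2 ⟨by omega, h6⟩) ?_
          unfold fac
          rw [if_pos ⟨m, hm, e m, h5, h4, rfl⟩, if_pos hmS]
        rw [h1]
        split_ifs <;> positivity
  rw [← hW]
  have h1 : (∏ m ∈ J, (1 - pu m)) * (1 - W * Pr y T0 x (fun S => ∃ m ∈ J, ¬ Good S m)) ≤
      (∏ m ∈ J, (1 - pu m)) * (1 / (∏ m ∈ J, (1 - pu m)) * Pr y T0 x (NH J g)) :=
    mul_le_mul_of_nonneg_left (by linarith) hP.le
  refine h1.trans (le_of_eq ?_)
  field_simp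

end Pool.Agent.Q197.CI
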