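import Pool.Agent.Q197.CI.Cheb
import Pool.Agent.Q197.CI.Asym2

/-!
# Sequential tests at the admissible numbers `j ≤ h(n)`, where admissibility depends on the small elements
-/

set_option autoImplicit false

namespace Pool.Agent.Q197.CI

open Finset Filter MeasureTheory Pool.Agent.Q120.ET Pool.Agent.Q120.MF
open scoped Topology

/-- `W j S`: the number `j` is admissible; `Fl n j S`: the test of `n` at `j` fails. -/
structure Row (W : ℕ → Set ℕ → Prop) (V : ℕ → Set ℕ → Prop) (Y : ℕ → ℕ) (Fl : ℕ → ℕ → Set ℕ → Prop)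
    (X : ℕ → ℕ) (q : ℕ → ℕ → ℝ) (β : ℕ) (b : ℝ) : Prop where
  hb : 0 < b
  hβ : 1 ≤ β
  depV : ∀ h, Dep (Y h) (V h)
  depW : ∀ h (S S' : Set ℕ), V h S → (∀ j, 3 ≤ j → j < Y h → (j ∈ S ↔ j ∈ S')) → ∀ j, 1 ≤ j → j ≤ h → (W j S ↔ W j S')
  Y3 : ∀ h, 3 ≤ Y h
  Ymono : Monotone Y
  Ypol : ∃ D : ℕ, ∀ h : ℕ, (Y h : ℝ) ≤ ((h : ℝ) + 2) ^ D
  Xmono : Monotone X
  Xge : ∀ n, n ≤ X n
  depF : ∀ M : ℕ, ∀ᶠ n : ℕ in atTop, ∀ j : ℕ, 1 ≤ j → (j : ℝ) ≤ Real.log n ^ M → Dep (X n) (Fl n j)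
  hq : ∀ M : ℕ, ∀ δ : ℝ, 0 < δ → ∀ᶠ n : ℕ in atTop, ∀ j : ℕ, 1 ≤ j → (j : ℝ) ≤ Real.log n ^ M →
    |q n j * (b * Real.log n ^ β) - 1| ≤ δ
  one : ∀ C : ℝ, 0 ≤ C → ∀ M : ℕ, ∀ᶠ n : ℕ in atTop, ∀ y : ℕ, 3 ≤ y → (y : ℝ) ≤ Real.log n ^ M → ∀ T0 : Finset ℕ,
    (∀ j ∈ T0, j < y) → ∀ U : Finset ℕ, (∀ j ∈ U, 1 ≤ j ∧ (j : ℝ) ≤ Real.log n ^ M) →
    (U.card : ℝ) ≤ C * Real.log n ^ (β + 1) → ∀ x, X n ≤ x →
    (1 - (n : ℝ) ^ (-(1 / 5) : ℝ)) * ∏ j ∈ U, (1 - q n j) ≤ Pr y T0 x (fun S => ∀ j ∈ U, Fl n j S) ∧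
    Pr y T0 x (fun S => ∀ j ∈ U, Fl n j S) ≤ (1 + (n : ℝ) ^ (-(1 / 5) : ℝ)) * ∏ j ∈ U, (1 - q n j)
  two : ∀ C : ℝ, 0 ≤ C → ∀ M : ℕ, ∀ ρ : ℝ, 0 < ρ → ∀ᶠ n : ℕ in atTop, ∀ m : ℕ, (n : ℝ) + Real.log n ^ M < m →
    (m : ℝ) ≤ n + (n : ℝ) ^ (1 - ρ) → ∀ y : ℕ, 3 ≤ y → (y : ℝ) ≤ Real.log n ^ M → ∀ T0 : Finset ℕ,
    (∀ j ∈ T0, j < y) → ∀ U U' : Finset ℕ, (∀ j ∈ U, 1 ≤ j ∧ (j : ℝ) ≤ Real.log n ^ M) →
    (∀ j ∈ U', 1 ≤ j ∧ (j : ℝ) ≤ Real.log n ^ M) →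
    (U.card : ℝ) ≤ C * Real.log n ^ (β + 1) → (U'.card : ℝ) ≤ C * Real.log n ^ (β + 1) → ∀ x, X m ≤ x →
    Pr y T0 x (fun S => (∀ j ∈ U, Fl n j S) ∧ ∀ j ∈ U', Fl m j S) ≤
      (1 + (n : ℝ) ^ (-(1 / 5) : ℝ)) * ((∏ j ∈ U, (1 - q n j)) * ∏ j ∈ U', (1 - q m j))

section
variable (W : ℕ → Set ℕ → Prop) (Fl : ℕ → ℕ → Set ℕ → Prop) (q : ℕ → ℕ → ℝ) (h : ℕ → ℕ) (l : ℕ → ℝ)

open Classical in
/-- The admissible numbers up to `k`. -/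
noncomputable def Ws (S : Set ℕ) (k : ℕ) : Finset ℕ := (Icc 1 k).filter (fun j => W j S)

/-- All tests of `n` fail. -/
def En (n : ℕ) (S : Set ℕ) : Prop := ∀ j, 1 ≤ j → j ≤ h n → W j S → Fl n j S

/-- The conditional probability. -/
noncomputable def Qn (n : ℕ) (S : Set ℕ) : ℝ := ∏ j ∈ Ws W S (h n), (1 - q n j)

/-- The number of tests is near `l n`. -/
def Rg (δ : ℝ) (n : ℕ) (S : Set ℕ) : Prop :=
  (1 - δ) * l n ≤ ((Ws W S (h n)).card : ℝ) ∧ ((Ws W S (h n)).card : ℝ) ≤ (1 + δ) * l n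

end

variable {W : ℕ → Set ℕ → Prop} {V : ℕ → Set ℕ → Prop} {Y : ℕ → ℕ} {Fl : ℕ → ℕ → Set ℕ → Prop}
  {X : ℕ → ℕ} {q : ℕ → ℕ → ℝ} {β : ℕ} {b : ℝ} {h : ℕ → ℕ} {l : ℕ → ℝ}

theorem mem_Ws {S : Set ℕ} {k j : ℕ} : j ∈ Ws W S k ↔ (1 ≤ j ∧ j ≤ k) ∧ W j S := by
  classical
  unfold Ws
  simp only [mem_filter, mem_Icc]

theorem Row.ws_eq (R : Row W V Y Fl X q β b) {k k' : ℕ} (hk : k' ≤ k) {S S' : Set ℕ} (hV : V k S)
    (hS : ∀ j, 3 ≤ j → j < Y k → (j ∈ S ↔ j ∈ S')) : Ws W S k' = Ws W S' k' := by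
  ext j
  rw [mem_Ws, mem_Ws]
  constructor
  · rintro ⟨h1, h2⟩
    exact ⟨h1, (R.depW k S S' hV hS j h1.1 (by omega)).1 h2⟩
  · rintro ⟨h1, h2⟩
    exact ⟨h1, (R.depW k S S' hV hS j h1.1 (by omega)).2 h2⟩

theorem en_iff {n : ℕ} {S : Set ℕ} : En W Fl h n S ↔ ∀ j ∈ Ws W S (h n), Fl n j S := by
  unfold En
  constructor
  · intro h1 j hj
    rw [mem_Ws] at hj
    exact h1 j hj.1.1 hj.1.2 hj.2
  · intro h1 j h2 h3 h4
    exact h1 j (mem_Ws.2 ⟨⟨h2, h3⟩, h4⟩)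

/-- Bounds for the product. -/
theorem Row.Q_bounds (R : Row W V Y Fl X q β b) {M : ℕ} (hh : ∀ᶠ n : ℕ in atTop, (h n : ℝ) ≤ Real.log n ^ M)
    (hl0 : ∀ᶠ n : ℕ in atTop, 0 ≤ l n) {η : ℝ} (hη : 0 < η) : ∃ δ : ℝ, 0 < δ ∧ δ ≤ 1 / 8 ∧ ∀ᶠ n : ℕ in atTop,
    ∀ S : Set ℕ, Rg W h l δ n S →
      Real.exp (-((1 + η) * (l n / (b * Real.log n ^ β)))) ≤ Qn W q h n S ∧
      Qn W q h n S ≤ Real.exp (-((1 - η) * (l n / (b * Real.log n ^ β)))) ∧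
      (∀ j ∈ Ws W S (h n), 0 ≤ q n j ∧ q n j ≤ 1 / 2) := by
  obtain ⟨δ, hδ⟩ : ∃ δ : ℝ, δ = min (1 / 8) (η / 4) := ⟨_, rfl⟩
  have hδ0 : 0 < δ := by rw [hδ]; exact lt_min (by norm_num) (by linarith)
  have hδ1 : δ ≤ 1 / 8 := by rw [hδ]; exact min_le_left _ _
  have hδ2 : 4 * δ ≤ η := by
    have : δ ≤ η / 4 := by rw [hδ]; exact min_le_right _ _
    linarith
  refine ⟨δ, hδ0, hδ1, ?_⟩
  have hb := R.hb
  have hpow : Tendsto (fun n : ℕ => b * Real.log n ^ β) atTop atTop :=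
    ((tendsto_pow_atTop (by have := R.hβ; omega)).comp hl).const_mul_atTop hb
  filter_upwards [R.hq M δ hδ0, hh, hl0, hpow.eventually_ge_atTop (2 / δ)] with n h1 h2 h3 h4 S hS
  obtain ⟨B, hB⟩ : ∃ B : ℝ, B = b * Real.log n ^ β := ⟨_, rfl⟩
  rw [← hB] at h4 ⊢
  have hB0 : 0 < B := lt_of_lt_of_le (by positivity) h4
  have hp : 1 / B ≤ δ / 2 := by
    rw [div_le_iff₀ hB0]
    rw [div_le_iff₀ hδ0] at h4
    linarith
  have hp0 : 0 < 1 / B := by positivity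
  have hqj : ∀ j ∈ Ws W S (h n), (1 - δ) * (1 / B) ≤ q n j ∧ q n j ≤ (1 + δ) * (1 / B) := by
    intro j hj
    rw [mem_Ws] at hj
    have h5 := h1 j hj.1.1 (le_trans (by exact_mod_cast hj.1.2) h2)
    rw [← hB, abs_le] at h5
    constructor
    · rw [mul_one_div, div_le_iff₀ hB0]
      linarith
    · rw [mul_one_div, le_div_iff₀ hB0]
      linarith
  have hq0 : ∀ j ∈ Ws W S (h n), 0 ≤ q n j ∧ (1 + δ) * q n j ≤ δ := by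
    intro j hj
    have h5 := hqj j hj
    constructor
    · exact le_trans (mul_nonneg (by linarith) hp0.le) h5.1
    · have h6 : (1 + δ) * q n j ≤ (1 + δ) * ((1 + δ) * (δ / 2)) :=
        mul_le_mul_of_nonneg_left (h5.2.trans (mul_le_mul_of_nonneg_left hp (by linarith))) (by linarith)
      have h7 : (1 + δ) * ((1 + δ) * (δ / 2)) ≤ δ := by
        have h8 : (1 + δ) * (1 + δ) ≤ 2 := by nlinarith
        nlinarith
      linarith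
  obtain ⟨hc1, hc2⟩ := hS
  obtain ⟨c, hc⟩ : ∃ c : ℝ, c = ((Ws W S (h n)).card : ℝ) := ⟨_, rfl⟩
  rw [← hc] at hc1 hc2
  have hc0 : 0 ≤ c := by rw [hc]; positivity
  have hτ0 : 0 ≤ l n / B := by positivity
  refine ⟨?_, ?_, fun j hj => ⟨(hq0 j hj).1, by nlinarith [(hq0 j hj).1, (hq0 j hj).2]⟩⟩
  · have h5 : Real.exp (-((1 + δ) ^ 2 * (1 / B))) ^ (Ws W S (h n)).card ≤ Qn W q h n S := by
      unfold Qn
      rw [← prod_const]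
      refine prod_le_prod (fun j _ => (Real.exp_pos _).le) (fun j hj => ?_)
      have h6 := hq0 j hj
      have h7 := (hqj j hj).2
      have h8 : Real.exp (-(q n j * (1 + δ))) ≤ 1 - q n j := by
        have h9 : 1 / (1 - q n j) ≤ Real.exp (q n j * (1 + δ)) := by
          have h10 := Real.add_one_le_exp (q n j * (1 + δ))
          refine le_trans ?_ h10
          rw [div_le_iff₀ (by nlinarith)]
          have h11 : q n j * ((1 + δ) * q n j) ≤ q n j * δ := mul_le_mul_of_nonneg_left h6.2 h6.1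
          nlinarith
        rw [Real.exp_neg, inv_le_comm₀ (Real.exp_pos _) (by nlinarith), ← one_div]
        exact h9
      refine le_trans (Real.exp_le_exp.2 ?_) h8
      have h9 : q n j * (1 + δ) ≤ (1 + δ) * (1 / B) * (1 + δ) := mul_le_mul_of_nonneg_right h7 (by linarith)
      nlinarith
    refine le_trans ?_ h5
    rw [← Real.exp_nat_mul, Real.exp_le_exp, ← hc]
    have h6 : c * ((1 + δ) ^ 2 * (1 / B)) ≤ ((1 + δ) * l n) * ((1 + δ) ^ 2 * (1 / B)) :=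
      mul_le_mul_of_nonneg_right hc2 (by positivity)
    have h7 : ((1 + δ) * l n) * ((1 + δ) ^ 2 * (1 / B)) = (1 + δ) ^ 3 * (l n / B) := by ring
    have h8 : (1 + δ) ^ 3 ≤ 1 + η := by nlinarith [mul_nonneg hδ0.le hδ0.le]
    have h9 := mul_le_mul_of_nonneg_right h8 hτ0
    linarith
  · have h5 : Qn W q h n S ≤ Real.exp (-((1 - δ) * (1 / B))) ^ (Ws W S (h n)).card := by
      unfold Qn
      rw [← prod_const]
      refine prod_le_prod (fun j hj => by nlinarith [(hq0 j hj).1, (hq0 j hj).2]) (fun j hj => ?_)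
      have h6 := Real.add_one_le_exp (-((1 - δ) * (1 / B)))
      have h7 := (hqj j hj).1
      linarith
    refine h5.trans ?_
    rw [← Real.exp_nat_mul, Real.exp_le_exp, ← hc]
    have h6 : ((1 - δ) * l n) * ((1 - δ) * (1 / B)) ≤ c * ((1 - δ) * (1 / B)) :=
      mul_le_mul_of_nonneg_right hc1 (mul_nonneg (by linarith) hp0.le)
    have h7 : ((1 - δ) * l n) * ((1 - δ) * (1 / B)) = (1 - δ) ^ 2 * (l n / B) := by ring
    have h8 : 1 - η ≤ (1 - δ) ^ 2 := by nlinarith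
    have h9 := mul_le_mul_of_nonneg_right h8 hτ0
    linarith

end Pool.Agent.Q197.CI
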