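import Pool.Agent.Q197.CI.RowU

/-!
# The number of failures in the blocks `[i ^ D, (i + 1) ^ D)`
-/

set_option autoImplicit false

namespace Pool.Agent.Q197.CI

open Finset Filter MeasureTheory Pool.Agent.Q120.ET Pool.Agent.Q120.MF
open scoped Topology

theorem class_card {a len R r k : ℕ} (hR : 0 < R) (hr : r < R) (hk : k * R ≤ len) :
    k ≤ ((Ico a (a + len)).filter (fun n => n % R = r)).card := by
  obtain ⟨e, he⟩ : ∃ e, e = (r + (R - a % R)) % R := ⟨_, rfl⟩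
  have he1 : e < R := by rw [he]; exact Nat.mod_lt _ hR
  have he2 : (a + e) % R = r := by
    have h1 : a % R < R := Nat.mod_lt _ hR
    rw [he, Nat.add_mod, Nat.mod_mod, ← Nat.add_mod]
    have h2 : a + (r + (R - a % R)) = r + R * (a / R + 1) := by
      have := Nat.div_add_mod a R
      rw [Nat.mul_add, Nat.mul_one]
      omega
    rw [h2, Nat.add_mul_mod_self_left, Nat.mod_eq_of_lt hr]
  have h1 : (range k).image (fun t => a + e + t * R) ⊆ (Ico a (a + len)).filter (fun n => n % R = r) := by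
    intro n hn
    rw [mem_image] at hn
    obtain ⟨t, ht, rfl⟩ := hn
    rw [mem_range] at ht
    rw [mem_filter, mem_Ico]
    refine ⟨⟨by omega, ?_⟩, ?_⟩
    · have h2 : (t + 1) * R ≤ k * R := Nat.mul_le_mul_right R ht
      rw [Nat.add_mul, Nat.one_mul] at h2
      omega
    · rw [Nat.add_mul_mod_self_right]
      exact he2
  have h2 := card_le_card h1
  rw [card_image_of_injective _ (fun t t' htt => by
    have h3 : t * R = t' * R := by
      have h4 : a + e + t * R = a + e + t' * R := htt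
      omega
    exact Nat.eq_of_mul_eq_mul_right hR h3), card_range] at h2
  exact h2

theorem one_add_pow_le' (D : ℕ) {u : ℝ} (hu0 : 0 ≤ u) (hu1 : u ≤ 1) : (1 + u) ^ D ≤ 1 + (2 ^ D - 1) * u := by
  induction D with
  | zero => simp
  | succ D ih =>
    have h1 : (1 : ℝ) ≤ 2 ^ D := one_le_pow₀ (by norm_num)
    rw [pow_succ, pow_succ]
    have h2 : (1 + u) ^ D * (1 + u) ≤ (1 + (2 ^ D - 1) * u) * (1 + u) := mul_le_mul_of_nonneg_right ih (by linarith)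
    have h3 : (2 ^ D - 1) * (u * u) ≤ (2 ^ D - 1) * u := mul_le_mul_of_nonneg_left (by nlinarith) (by linarith)
    nlinarith

theorem len_low (i : ℕ) {D : ℕ} (hD : 1 ≤ D) : i ^ D + i ^ (D - 1) ≤ (i + 1) ^ D := by
  obtain ⟨E, rfl⟩ : ∃ E, D = E + 1 := ⟨D - 1, by omega⟩
  rw [Nat.add_sub_cancel, pow_succ, pow_succ]
  have h1 : i ^ E ≤ (i + 1) ^ E := Nat.pow_le_pow_left (by omega) E
  nlinarith

theorem len_up {i D : ℕ} (hi : 1 ≤ i) : ((i + 1 : ℕ) : ℝ) ^ D ≤ (i : ℝ) ^ D * (1 + 2 ^ D / i) := by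
  have hi0 : (1 : ℝ) ≤ i := by exact_mod_cast hi
  have h1 : ((i + 1 : ℕ) : ℝ) = i * (1 + 1 / i) := by
    push_cast
    field_simp
  rw [h1, mul_pow]
  refine mul_le_mul_of_nonneg_left ?_ (by positivity)
  have h2 := one_add_pow_le' D (u := 1 / (i : ℝ)) (by positivity) (by rw [div_le_one (by linarith)]; exact hi0)
  have h3 : (2 ^ D - 1) * (1 / (i : ℝ)) ≤ 2 ^ D / i := by
    rw [mul_one_div]
    exact div_le_div_of_nonneg_right (by linarith) (by linarith)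
  linarith

variable {Ω : Type*} [MeasurableSpace Ω] {μ : Measure Ω} [IsProbabilityMeasure μ] {A : Ω → Set ℕ}
variable {W : ℕ → Set ℕ → Prop} {V : ℕ → Set ℕ → Prop} {Y : ℕ → ℕ} {Fl : ℕ → ℕ → Set ℕ → Prop}
  {X : ℕ → ℕ} {q : ℕ → ℕ → ℝ} {β : ℕ} {b : ℝ} {h : ℕ → ℕ} {l : ℕ → ℝ}

theorem tendsto_pow_D {D : ℕ} (hD : 1 ≤ D) : Tendsto (fun i : ℕ => i ^ D) atTop atTop :=
  tendsto_pow_atTop (by omega)

/-- Size estimates in a block. -/
theorem block_sizes {D : ℕ} (hD : 10 ≤ D) (M : ℕ) {c η : ℝ} (hc0 : 0 ≤ c) (hη : 0 ≤ η)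
    (hDc : 4 ≤ D * (1 - (1 + η) * c)) : ∀ᶠ i : ℕ in atTop, 2 ≤ i ∧
    (∀ n : ℕ, i ^ D ≤ n → Real.log (((i + 1) ^ D : ℕ) : ℝ) ≤ 2 * Real.log n) ∧
    (∀ n : ℕ, i ^ D ≤ n → Real.log (((i + 1) ^ D : ℕ) : ℝ) ^ M ≤ Real.log n ^ (M + 1)) ∧
    (∀ n : ℕ, i ^ D ≤ n → (((i + 1) ^ D : ℕ) : ℝ) ≤ n + (n : ℝ) ^ (1 - 1 / (2 * (D : ℝ)))) ∧
    ((⌊Real.log (((i + 1) ^ D : ℕ) : ℝ) ^ (M + 1)⌋₊ + 2 : ℕ) : ℝ) ≤ (i : ℝ) ^ (1 / 4 : ℝ) ∧
    (∀ R : ℕ, 0 < R → (R : ℝ) ≤ (i : ℝ) ^ (1 / 4 : ℝ) → ∀ r < R,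
      (i : ℝ) ^ 2 ≤ ((Ico (i ^ D) ((i + 1) ^ D)).filter (fun n => n % R = r)).card *
        (((i + 1) ^ D : ℕ) : ℝ) ^ (-((1 + η) * c))) := by
  have hD0 : (0 : ℝ) < D := by
    have : 0 < D := by omega
    exact_mod_cast this
  have hT : Tendsto (fun i : ℕ => (i + 1) ^ D) atTop atTop := (tendsto_pow_D (by omega)).comp (tendsto_add_atTop_nat 1)
  have hlog : Tendsto (fun i : ℕ => Real.log (i : ℝ)) atTop atTop := hl
  have hr : ∀ r : ℝ, 0 < r → Tendsto (fun i : ℕ => (i : ℝ) ^ r) atTop atTop := fun r hr =>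
    (tendsto_rpow_atTop hr).comp tendsto_natCast_atTop_atTop
  have hpl : ∀ᶠ i : ℕ in atTop, (2 * D * Real.log (i : ℝ)) ^ (M + 1) + 2 ≤ (i : ℝ) ^ (1 / 4 : ℝ) := by
    filter_upwards [polylog_le ((2 * D) ^ 2 * 1) (M + 1) (show (0 : ℝ) < 1 / 8 by norm_num), hlog.eventually_ge_atTop 1,
      (hr (1 / 8) (by norm_num)).eventually_ge_atTop 3, eventually_ge_atTop 1] with i h1 h2 h3 h4
    have hi0 : (0 : ℝ) < i := by exact_mod_cast h4
    have h5 : (2 * D * Real.log (i : ℝ)) ^ (M + 1) ≤ ((2 * D) ^ 2 * 1 * Real.log i ^ 2) ^ (M + 1) := by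
      refine pow_le_pow_left₀ (by positivity) ?_ _
      have h6 : (1 : ℝ) ≤ 2 * D * Real.log i := by
        have : (1 : ℝ) ≤ D := by
          have : 1 ≤ D := by omega
          exact_mod_cast this
        nlinarith
      nlinarith
    have h6 : (i : ℝ) ^ (1 / 4 : ℝ) = (i : ℝ) ^ (1 / 8 : ℝ) * (i : ℝ) ^ (1 / 8 : ℝ) := by
      rw [← Real.rpow_add hi0]
      norm_num
    rw [h6]
    nlinarith
  filter_upwards [hpl, hlog.eventually_ge_atTop (2 ^ M), eventually_ge_atTop 2,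
    (hr (1 / 2) (by norm_num)).eventually_ge_atTop (2 ^ D), (hr (1 / 4) (by norm_num)).eventually_ge_atTop
      ((2 : ℝ) ^ (D * ((1 + η) * c))), (hr (1 / 4) (by norm_num)).eventually_ge_atTop 4,
      eventually_ge_atTop 4] with i h1 h2 h3 h4 h5 h6 h7
  have hi2 : (2 : ℝ) ≤ i := by exact_mod_cast h3
  have hi0 : (0 : ℝ) < i := by linarith
  have hl0 : 0 < Real.log (i : ℝ) := Real.log_pos (by linarith)
  have hl1 : (1 : ℝ) ≤ Real.log i := le_trans (one_le_pow₀ (by norm_num)) h2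
  have hD1 : (1 : ℝ) ≤ D := by
    have : 1 ≤ D := by omega
    exact_mod_cast this
  have hTlog : Real.log (((i + 1) ^ D : ℕ) : ℝ) ≤ 2 * D * Real.log i := by
    push_cast
    rw [Real.log_pow]
    have h8 : Real.log ((i : ℝ) + 1) ≤ 2 * Real.log i := by
      have h9 : (2 : ℝ) * Real.log i = Real.log ((i : ℝ) ^ 2) := by
        rw [Real.log_pow]
        push_cast
        ring
      rw [h9]
      exact Real.log_le_log (by linarith) (by nlinarith)
    nlinarith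
  have hnlog : ∀ n : ℕ, i ^ D ≤ n → D * Real.log i ≤ Real.log n := by
    intro n hn
    have h8 : ((i ^ D : ℕ) : ℝ) ≤ n := by exact_mod_cast hn
    push_cast at h8
    rw [← Real.log_pow]
    exact Real.log_le_log (by positivity) h8
  have hT0 : 0 ≤ Real.log (((i + 1) ^ D : ℕ) : ℝ) := Real.log_natCast_nonneg _
  have hR : ((⌊Real.log (((i + 1) ^ D : ℕ) : ℝ) ^ (M + 1)⌋₊ + 2 : ℕ) : ℝ) ≤ (i : ℝ) ^ (1 / 4 : ℝ) := by
    have h8 : (⌊Real.log (((i + 1) ^ D : ℕ) : ℝ) ^ (M + 1)⌋₊ : ℝ) ≤ Real.log (((i + 1) ^ D : ℕ) : ℝ) ^ (M + 1) :=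
      Nat.floor_le (by positivity)
    have h9 : Real.log (((i + 1) ^ D : ℕ) : ℝ) ^ (M + 1) ≤ (2 * D * Real.log (i : ℝ)) ^ (M + 1) :=
      pow_le_pow_left₀ hT0 hTlog _
    rw [Nat.cast_add, Nat.cast_ofNat]
    linarith
  refine ⟨h3, fun n hn => by linarith [hnlog n hn], fun n hn => ?_, fun n hn => ?_, hR, fun R hR0 hR1 r hr => ?_⟩
  · have h8 := hnlog n hn
    have h9 : Real.log (((i + 1) ^ D : ℕ) : ℝ) ≤ 2 * Real.log n := by linarith
    calc Real.log (((i + 1) ^ D : ℕ) : ℝ) ^ M ≤ (2 * Real.log n) ^ M := pow_le_pow_left₀ hT0 h9 M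
      _ = 2 ^ M * Real.log n ^ M := mul_pow _ _ _
      _ ≤ Real.log n * Real.log n ^ M := by
          refine mul_le_mul_of_nonneg_right ?_ (by positivity)
          nlinarith
      _ = Real.log n ^ (M + 1) := by rw [pow_succ]; ring
  · have h8 : ((i ^ D : ℕ) : ℝ) ≤ n := by exact_mod_cast hn
    push_cast at h8
    have hn0 : (0 : ℝ) < n := lt_of_lt_of_le (by positivity) h8
    have h9 := len_up (D := D) (show 1 ≤ i by omega)
    have h10 : (i : ℝ) ^ D * (2 ^ D / i) ≤ (n : ℝ) ^ (1 - 1 / (2 * (D : ℝ))) := by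
      have h11 : (i : ℝ) ^ D * (2 ^ D / i) ≤ (i : ℝ) ^ ((D : ℝ) - 1 / 2) := by
        have h12 : (i : ℝ) ^ ((D : ℝ) - 1 / 2) = (i : ℝ) ^ D * ((i : ℝ) ^ (1 / 2 : ℝ) / i) := by
          rw [Real.rpow_sub hi0, Real.rpow_natCast]
          have h13 : (i : ℝ) ^ (1 / 2 : ℝ) * (i : ℝ) ^ (1 / 2 : ℝ) = i := by
            rw [← Real.rpow_add hi0]
            norm_num
          have h14 : 0 < (i : ℝ) ^ (1 / 2 : ℝ) := Real.rpow_pos_of_pos hi0 _
          have h15 : (i : ℝ) ^ (1 / 2 : ℝ) / i = 1 / (i : ℝ) ^ (1 / 2 : ℝ) := by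
            rw [div_eq_div_iff hi0.ne' h14.ne', h13, one_mul]
          rw [h15]
          ring
        rw [h12]
        exact mul_le_mul_of_nonneg_left (div_le_div_of_nonneg_right h4 hi0.le) (by positivity)
      refine h11.trans ?_
      have h12 : (i : ℝ) ^ ((D : ℝ) - 1 / 2) = ((i : ℝ) ^ D) ^ (1 - 1 / (2 * (D : ℝ))) := by
        rw [← Real.rpow_natCast, ← Real.rpow_mul hi0.le]
        congr 1
        field_simp
      rw [h12]
      refine Real.rpow_le_rpow (by positivity) h8 ?_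
      have : 1 / (2 * (D : ℝ)) ≤ 1 := by
        rw [div_le_one (by positivity)]
        linarith
      linarith
    push_cast at h9 ⊢
    nlinarith
  · obtain ⟨k, hk⟩ : ∃ k, k = i ^ (D - 1) / R := ⟨_, rfl⟩
    have h8 : k ≤ ((Ico (i ^ D) ((i + 1) ^ D)).filter (fun n => n % R = r)).card := by
      have h9 := len_low i (show 1 ≤ D by omega)
      have h10 : (i + 1) ^ D = i ^ D + ((i + 1) ^ D - i ^ D) := by omega
      rw [h10]
      refine class_card hR0 hr ?_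
      have h11 : k * R ≤ i ^ (D - 1) := by rw [hk]; exact Nat.div_mul_le_self _ _
      omega
    have hR0' : (0 : ℝ) < R := by exact_mod_cast hR0
    have h9 : (i : ℝ) ^ (D - 1) / R ≤ k + 1 := by
      have h10 : i ^ (D - 1) < R * (k + 1) := by rw [hk]; exact Nat.lt_mul_div_succ _ hR0
      have h11 : ((i ^ (D - 1) : ℕ) : ℝ) < (R : ℝ) * ((k : ℝ) + 1) := by exact_mod_cast h10
      push_cast at h11
      rw [div_le_iff₀ hR0']
      linarith
    have h10 : (i : ℝ) ^ ((D : ℝ) - 1 - 1 / 4) ≤ (i : ℝ) ^ (D - 1) / R := by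
      have h11 : (i : ℝ) ^ ((D : ℝ) - 1 - 1 / 4) = (i : ℝ) ^ (D - 1) / (i : ℝ) ^ (1 / 4 : ℝ) := by
        rw [Real.rpow_sub hi0]
        congr 1
        rw [← Real.rpow_natCast]
        congr 1
        rw [Nat.cast_sub (by omega)]
        simp
      rw [h11]
      exact div_le_div_of_nonneg_left (by positivity) hR0' hR1
    have h11 : (i : ℝ) ^ ((D : ℝ) - 1 - 1 / 4) ≤ 2 * k := by
      have h12 : (4 : ℝ) ≤ (i : ℝ) ^ ((D : ℝ) - 1 - 1 / 4) := by
        refine h6.trans (Real.rpow_le_rpow_of_exponent_le (by linarith) ?_)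
        have : (10 : ℝ) ≤ D := by exact_mod_cast hD
        linarith
      linarith
    have h12 : (i : ℝ) ^ (-(D * ((1 + η) * c)) - 1 / 4) ≤ (((i + 1) ^ D : ℕ) : ℝ) ^ (-((1 + η) * c)) := by
      have h13 : (((i + 1) ^ D : ℕ) : ℝ) ≤ (2 * i) ^ D := by
        push_cast
        exact pow_le_pow_left₀ (by positivity) (by linarith) D
      have hc1 : 0 ≤ (1 + η) * c := by positivity
      have h14 : ((2 * (i : ℝ)) ^ D) ^ (-((1 + η) * c)) ≤ (((i + 1) ^ D : ℕ) : ℝ) ^ (-((1 + η) * c)) :=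
        Real.rpow_le_rpow_of_nonpos (by positivity) h13 (by linarith)
      refine le_trans ?_ h14
      rw [← Real.rpow_natCast, ← Real.rpow_mul (by positivity), Real.mul_rpow (by norm_num) hi0.le, Real.rpow_sub hi0]
      have h15 : (D : ℝ) * -((1 + η) * c) = -(D * ((1 + η) * c)) := by ring
      have h16 : (2 : ℝ) ^ ((D : ℝ) * -((1 + η) * c)) = ((2 : ℝ) ^ ((D : ℝ) * ((1 + η) * c)))⁻¹ := by
        rw [h15, Real.rpow_neg (by norm_num : (0 : ℝ) ≤ 2)]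
      rw [h16, h15, inv_mul_eq_div]
      exact div_le_div_of_nonneg_left (by positivity) (by positivity) h5
    have h13 : (i : ℝ) ^ ((D : ℝ) - 1 - 1 / 4) * (i : ℝ) ^ (-(D * ((1 + η) * c)) - 1 / 4) ≤
        (2 * k) * (((i + 1) ^ D : ℕ) : ℝ) ^ (-((1 + η) * c)) :=
      mul_le_mul h11 h12 (Real.rpow_nonneg hi0.le _) (by positivity)
    rw [← Real.rpow_add hi0] at h13
    have h14 : (i : ℝ) ^ (5 / 2 : ℝ) ≤ (i : ℝ) ^ ((D : ℝ) - 1 - 1 / 4 + (-(D * ((1 + η) * c)) - 1 / 4)) := by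
      refine Real.rpow_le_rpow_of_exponent_le (by linarith) ?_
      nlinarith
    have h15 : (i : ℝ) ^ (5 / 2 : ℝ) = (i : ℝ) ^ 2 * ((i : ℝ) ^ (1 / 4 : ℝ) * (i : ℝ) ^ (1 / 4 : ℝ)) := by
      rw [← Real.rpow_natCast, ← Real.rpow_add hi0, ← Real.rpow_add hi0]
      norm_num
    have h16 : (2 : ℝ) ≤ (i : ℝ) ^ (1 / 4 : ℝ) * (i : ℝ) ^ (1 / 4 : ℝ) := by nlinarith
    have h17 : 0 < (i : ℝ) ^ 2 := by positivity
    have h18 : (k : ℝ) * (((i + 1) ^ D : ℕ) : ℝ) ^ (-((1 + η) * c)) ≤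
        ((Ico (i ^ D) ((i + 1) ^ D)).filter (fun n => n % R = r)).card *
        (((i + 1) ^ D : ℕ) : ℝ) ^ (-((1 + η) * c)) :=
      mul_le_mul_of_nonneg_right (by exact_mod_cast h8) (Real.rpow_nonneg (Nat.cast_nonneg _) _)
    nlinarith

end Pool.Agent.Q197.CI
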