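import Pool.Agent.Q197.CI.RowB

/-!
# The law of large numbers in the blocks
-/

set_option autoImplicit false

namespace Pool.Agent.Q197.CI

open Finset Filter MeasureTheory Pool.Agent.Q120.ET Pool.Agent.Q120.MF
open scoped Topology

variable {Ω : Type*} [MeasurableSpace Ω] {μ : Measure Ω} [IsProbabilityMeasure μ] {A : Ω → Set ℕ}
variable {W : ℕ → Set ℕ → Prop} {V : ℕ → Set ℕ → Prop} {Y : ℕ → ℕ} {Fl : ℕ → ℕ → Set ℕ → Prop}
  {X : ℕ → ℕ} {q : ℕ → ℕ → ℝ} {β : ℕ} {b : ℝ} {h : ℕ → ℕ} {l : ℕ → ℝ}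

/-- The block. -/
def Bk (D i : ℕ) : Finset ℕ := Ico (i ^ D) ((i + 1) ^ D)

/-- Good small elements for the block. -/
def VB (V : ℕ → Set ℕ → Prop) (W : ℕ → Set ℕ → Prop) (h : ℕ → ℕ) (l : ℕ → ℝ) (δ : ℝ) (D i : ℕ) (S : Set ℕ) : Prop :=
  V (h ((i + 1) ^ D)) S ∧ ∀ n ∈ Bk D i, Rg W h l δ n S

/-- A class in the block is bad. -/
def Bad (W : ℕ → Set ℕ → Prop) (Fl : ℕ → ℕ → Set ℕ → Prop) (q : ℕ → ℕ → ℝ) (h : ℕ → ℕ) (δ : ℝ) (D i R : ℕ)
    (S : Set ℕ) : Prop :=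
  ∃ r ∈ range R, δ * ∑ n ∈ (Bk D i).filter (fun n => n % R = r), Qn W q h n S ≤
    |Zc ((Bk D i).filter (fun n => n % R = r)) (En W Fl h) S - ∑ n ∈ (Bk D i).filter (fun n => n % R = r), Qn W q h n S|

theorem not_bad {δ : ℝ} {D i R : ℕ} (hR : 0 < R) {S : Set ℕ} (hb : ¬ Bad W Fl q h δ D i R S) :
    |Zc (Bk D i) (En W Fl h) S - ∑ n ∈ Bk D i, Qn W q h n S| ≤ δ * ∑ n ∈ Bk D i, Qn W q h n S := by
  rw [zc_classes hR, sum_classes hR (Bk D i) (fun n => Qn W q h n S), ← sum_sub_distrib, mul_sum]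
  refine (abs_sum_le_sum_abs _ _).trans (sum_le_sum (fun r hr => ?_))
  by_contra hcon
  push Not at hcon
  exact hb ⟨r, hr, hcon.le⟩

theorem zc_congr {B : Finset ℕ} {E E' : ℕ → Set ℕ → Prop} {S S' : Set ℕ} (h1 : ∀ n ∈ B, (E n S ↔ E' n S')) :
    Zc B E S = Zc B E' S' := by
  classical
  rw [zc_eq, zc_eq]
  refine sum_congr rfl (fun n hn => ?_)
  have h2 := h1 n hn
  by_cases h3 : E n S
  · rw [if_pos h3, if_pos (h2.1 h3)]
  · rw [if_neg h3, if_neg (fun h4 => h3 (h2.2 h4))]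

/-- Replacement of `S` by `S'` with the same elements below `Y`. -/
theorem Row.q_congr (R : Row W V Y Fl X q β b) {k : ℕ} {S S' : Set ℕ} (hV : V k S)
    (hS : ∀ j, 3 ≤ j → j < Y k → (j ∈ S ↔ j ∈ S')) {n : ℕ} (hn : h n ≤ k) : Qn W q h n S = Qn W q h n S' := by
  unfold Qn
  rw [R.ws_eq hn hV hS]

theorem Row.dep_VB (R : Row W V Y Fl X q β b) (δ : ℝ) (D : ℕ) {i : ℕ} (hm : ∀ n ∈ Bk D i, h n ≤ h ((i + 1) ^ D)) :
    Dep (Y (h ((i + 1) ^ D))) (VB V W h l δ D i) := by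
  intro S S' hS
  have h1 : V (h ((i + 1) ^ D)) S = V (h ((i + 1) ^ D)) S' := R.depV _ S S' hS
  apply propext
  unfold VB Rg
  constructor
  · rintro ⟨h2, h3⟩
    refine ⟨h1 ▸ h2, fun n hn => ?_⟩
    rw [← R.ws_eq (hm n hn) h2 hS]
    exact h3 n hn
  · rintro ⟨h2, h3⟩
    have h4 : V (h ((i + 1) ^ D)) S := by rw [h1]; exact h2
    refine ⟨h4, fun n hn => ?_⟩
    rw [R.ws_eq (hm n hn) h4 hS]
    exact h3 n hn

/-- Fixed small elements: the failures are the failures of fixed tests. -/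
theorem Row.en_congr (R : Row W V Y Fl X q β b) {k : ℕ} {S S' : Set ℕ} (hV : V k S)
    (hS : ∀ j, 3 ≤ j → j < Y k → (j ∈ S ↔ j ∈ S')) {n : ℕ} (hn : h n ≤ k) :
    En W Fl h n S' ↔ ∀ j ∈ Ws W S (h n), Fl n j S' := by
  rw [en_iff, R.ws_eq hn hV hS]

/-- The law of large numbers. -/
theorem Row.block (R : Row W V Y Fl X q β b) (hA : IsCramer μ A) {M : ℕ}
    (hh : ∀ᶠ n : ℕ in atTop, (h n : ℝ) ≤ Real.log n ^ M) (hmono : ∀ᶠ n : ℕ in atTop, ∀ m, n ≤ m → h n ≤ h m)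
    (hl0 : ∀ᶠ n : ℕ in atTop, 0 ≤ l n) {C : ℝ} (hlC : ∀ᶠ n : ℕ in atTop, l n ≤ C * Real.log n ^ (β + 1))
    (hV : ∀ δ : ℝ, 0 < δ → ∀ᵐ ω ∂μ, ∀ᶠ n in atTop, VR V W h l δ n (A ω)) {c : ℝ} (hc0 : 0 ≤ c) (hc1 : c < 1)
    (hτ : ∀ᶠ n : ℕ in atTop, l n / (b * Real.log n ^ β) ≤ c * Real.log n) {D : ℕ} (hD : 10 ≤ D)
    (hDc : 5 ≤ D * (1 - c)) {δ1 : ℝ} (hδ1 : 0 < δ1) :
    ∀ᵐ ω ∂μ, ∀ᶠ i : ℕ in atTop, |Zc (Bk D i) (En W Fl h) (A ω) - ∑ n ∈ Bk D i, Qn W q h n (A ω)| ≤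
      δ1 * ∑ n ∈ Bk D i, Qn W q h n (A ω) := by
  have hD1 : (1 : ℝ) ≤ D := by
    have : 1 ≤ D := by omega
    exact_mod_cast this
  obtain ⟨η, hη⟩ : ∃ η : ℝ, η = 1 / D := ⟨_, rfl⟩
  have hη0 : 0 < η := by rw [hη]; positivity
  have hηD : D * η = 1 := by rw [hη]; field_simp
  have hDc' : 4 ≤ D * (1 - (1 + η) * c) := by
    have h1 : D * (1 - (1 + η) * c) = D * (1 - c) - D * η * c := by ring
    rw [h1, hηD]
    linarith
  obtain ⟨δ, hδ0, hδ8, hQ⟩ := R.Q_bounds hh hl0 hη0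
  obtain ⟨M', hM', hY⟩ := R.Y_le M
  obtain ⟨C2, hC2⟩ : ∃ C2 : ℝ, C2 = 2 * max C 0 * 2 ^ (β + 1) := ⟨_, rfl⟩
  have hC20 : 0 ≤ C2 := by rw [hC2]; positivity
  obtain ⟨Rn, hRn⟩ : ∃ Rn : ℕ → ℕ, Rn = fun i => ⌊Real.log (((i + 1) ^ D : ℕ) : ℝ) ^ (M' + 1)⌋₊ + 2 := ⟨_, rfl⟩
  -- all eventual facts, for all large `n`
  have hev : ∀ᶠ n : ℕ in atTop, (∀ S : Set ℕ, Rg W h l δ n S →
      Real.exp (-((1 + η) * (l n / (b * Real.log n ^ β)))) ≤ Qn W q h n S ∧
      Qn W q h n S ≤ Real.exp (-((1 - η) * (l n / (b * Real.log n ^ β)))) ∧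
      (∀ j ∈ Ws W S (h n), 0 ≤ q n j ∧ q n j ≤ 1 / 2)) ∧ (h n : ℝ) ≤ Real.log n ^ M ∧ 0 ≤ l n ∧
      l n ≤ C * Real.log n ^ (β + 1) ∧ (∀ m, n ≤ m → h n ≤ h m) ∧ l n / (b * Real.log n ^ β) ≤ c * Real.log n ∧
      (∀ k : ℕ, (k : ℝ) ≤ Real.log n ^ M → (Y k : ℝ) ≤ Real.log n ^ M') ∧ Real.log n ^ M' ≤ n ∧
      1 ≤ Real.log (n : ℝ) ∧ 1 ≤ n ∧
      (∀ j : ℕ, 1 ≤ j → (j : ℝ) ≤ Real.log n ^ M → Dep (X n) (Fl n j)) := by
    filter_upwards [hQ, hh, hl0, hlC, hmono, hτ, hY, pow_log_le M', hl.eventually_ge_atTop 1, eventually_ge_atTop 1,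
      R.depF M]
      with n h1 h2 h3 h4 h5 h6 h7 h8 h9 h10 h11
    exact ⟨h1, h2, h3, h4, h5, h6, h7, h8, h9, h10, h11⟩
  have hone := R.one C2 hC20 (M' + 1)
  have htwo := R.two C2 hC20 (M' + 1) (1 / (2 * (D : ℝ))) (by positivity)
  obtain ⟨n1, hn1⟩ := eventually_atTop.1 (hev.and (hone.and htwo))
  have hTi : Tendsto (fun i : ℕ => i ^ D) atTop atTop := tendsto_pow_D (by omega)
  have hprob : ∀ᶠ i : ℕ in atTop, μ.real {ω | VB V W h l δ D i (A ω) ∧ Bad W Fl q h δ1 D i (Rn i) (A ω)} ≤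
      5 / δ1 ^ 2 * (i : ℝ) ^ (-(7 / 4) : ℝ) := by
    filter_upwards [block_sizes hD M' hc0 hη0.le hDc', hTi.eventually_ge_atTop n1] with i hi hin
    obtain ⟨hi2, hi3, hi4, hi5, hi6, hi7⟩ := hi
    have hi0 : (0 : ℝ) < i := by
      have : 0 < i := by omega
      exact_mod_cast this
    have hRi : Rn i = ⌊Real.log (((i + 1) ^ D : ℕ) : ℝ) ^ (M' + 1)⌋₊ + 2 := by rw [hRn]
    obtain ⟨T, hT⟩ : ∃ T : ℕ, T = (i + 1) ^ D := ⟨_, rfl⟩
    have hiT : i ^ D ≤ T := by rw [hT]; exact Nat.pow_le_pow_left (by omega) D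
    rw [← hT] at hi3 hi4 hi5 hRi hi7 hi6
    rw [← hRi] at hi6
    have hfac : ∀ n ∈ Bk D i, i ^ D ≤ n ∧ n < T ∧ n1 ≤ n := by
      intro n hn
      unfold Bk at hn
      rw [mem_Ico, ← hT] at hn
      exact ⟨hn.1, hn.2, le_trans hin hn.1⟩
    have hTfac := (hn1 T (hin.trans hiT)).1
    have hhT : ∀ n ∈ Bk D i, h n ≤ h T := fun n hn => by
      have h1 := hfac n hn
      exact (hn1 n h1.2.2).1.2.2.2.2.1 T h1.2.1.le
    obtain ⟨y, hy⟩ : ∃ y, y = Y (h T) := ⟨_, rfl⟩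
    obtain ⟨x, hx⟩ : ∃ x, x = X T := ⟨_, rfl⟩
    have hyT : (y : ℝ) ≤ Real.log T ^ M' := by
      rw [hy]
      exact hTfac.2.2.2.2.2.2.1 _ hTfac.2.1
    have hy3 : 3 ≤ y := by rw [hy]; exact R.Y3 _
    have hyx : y ≤ x := by
      have h1 : (y : ℝ) ≤ T := hyT.trans hTfac.2.2.2.2.2.2.2.1
      have h2 : y ≤ T := by exact_mod_cast h1
      rw [hx]
      exact h2.trans (R.Xge T)
    have hXx : ∀ n ∈ Bk D i, X n ≤ x := fun n hn => by
      rw [hx]
      exact R.Xmono (hfac n hn).2.1.le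
    have hdepV : Dep y (VB V W h l δ D i) := by
      rw [hy, hT]
      refine R.dep_VB δ D (fun n hn => ?_)
      rw [← hT]
      exact hhT n hn
    have hVT : ∀ S, VB V W h l δ D i S → V (h T) S := by
      intro S hS
      rw [hT]
      exact hS.1
    -- the event depends on the elements below `x`
    have hdep : Dep x (fun S => VB V W h l δ D i S ∧ Bad W Fl q h δ1 D i (Rn i) S) := by
      intro S S' hS
      have hS' : ∀ j, 3 ≤ j → j < Y (h T) → (j ∈ S ↔ j ∈ S') := fun j h3 hj => hS j h3 (by omega)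
      have h1 : VB V W h l δ D i S = VB V W h l δ D i S' := hdepV S S' (fun j h3 hj => hS j h3 (by omega))
      have key : VB V W h l δ D i S → (Bad W Fl q h δ1 D i (Rn i) S ↔ Bad W Fl q h δ1 D i (Rn i) S') := by
        intro hVS
        have hV' := hVT S hVS
        have h2 : ∀ r, Zc ((Bk D i).filter (fun n => n % Rn i = r)) (En W Fl h) S =
            Zc ((Bk D i).filter (fun n => n % Rn i = r)) (En W Fl h) S' := by
          intro r
          refine zc_congr (fun n hn => ?_)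
          rw [mem_filter] at hn
          rw [R.en_congr (S := S) (S' := S) hV' (fun j _ _ => Iff.rfl) (hhT n hn.1),
            R.en_congr (S := S) (S' := S') hV' hS' (hhT n hn.1)]
          have h3 := (hn1 n (hfac n hn.1).2.2).1
          have h4 : ∀ j ∈ Ws W S (h n), Fl n j S = Fl n j S' := by
            intro j hj
            rw [mem_Ws] at hj
            exact h3.2.2.2.2.2.2.2.2.2.2 j hj.1.1 (le_trans (by exact_mod_cast hj.1.2) h3.2.1) S S'
              (fun j h5 h6 => hS j h5 (lt_of_lt_of_le h6 (hXx n hn.1)))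
          constructor
          · intro h5 j hj
            rw [← h4 j hj]
            exact h5 j hj
          · intro h5 j hj
            rw [h4 j hj]
            exact h5 j hj
        have h3 : ∀ r, ∑ n ∈ (Bk D i).filter (fun n => n % Rn i = r), Qn W q h n S =
            ∑ n ∈ (Bk D i).filter (fun n => n % Rn i = r), Qn W q h n S' := by
          intro r
          refine sum_congr rfl (fun n hn => ?_)
          rw [mem_filter] at hn
          exact R.q_congr hV' hS' (hhT n hn.1)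
        unfold Bad
        simp only [h2, h3]
      apply propext
      constructor
      · rintro ⟨h2, h3⟩
        exact ⟨h1 ▸ h2, (key h2).1 h3⟩
      · rintro ⟨h2, h3⟩
        have h4 : VB V W h l δ D i S := by rw [h1]; exact h2
        exact ⟨h4, (key h4).2 h3⟩
    rw [real_eq_pr hA hdep]
    refine pr_cond_le hy3 hyx hdepV (by positivity) (fun T0 hT0 hVT0 => ?_)
    have hT0y : ∀ j ∈ T0, j < y := fun j hj => (mem_Ico.1 (hT0 hj)).2
    have hVT0' := hVT _ hVT0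
    obtain ⟨Q0, hQ0⟩ : ∃ Q0 : ℕ → ℝ, Q0 = fun n => Qn W q h n (T0 : Set ℕ) := ⟨_, rfl⟩
    obtain ⟨E0, hE0⟩ : ∃ E0 : ℕ → Set ℕ → Prop, E0 = fun n S => ∀ j ∈ Ws W (T0 : Set ℕ) (h n), Fl n j S := ⟨_, rfl⟩
    obtain ⟨ε, hε⟩ : ∃ ε : ℝ, ε = ((i ^ D : ℕ) : ℝ) ^ (-(1 / 5) : ℝ) := ⟨_, rfl⟩
    have hiD0 : (0 : ℝ) < ((i ^ D : ℕ) : ℝ) := by push_cast; positivity
    have hε0 : 0 ≤ ε := by rw [hε]; exact Real.rpow_nonneg hiD0.le _
    have hε2 : ε ≤ (i : ℝ) ^ (-2 : ℝ) := by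
      rw [hε]
      push_cast
      rw [← Real.rpow_natCast, ← Real.rpow_mul hi0.le]
      refine Real.rpow_le_rpow_of_exponent_le (by exact_mod_cast (show 1 ≤ i by omega)) ?_
      have : (10 : ℝ) ≤ D := by exact_mod_cast hD
      linarith
    have hi1 : (i : ℝ) ^ (-2 : ℝ) ≤ 1 := Real.rpow_le_one_of_one_le_of_nonpos (by exact_mod_cast (show 1 ≤ i by omega)) (by norm_num)
    have hlogT : ∀ n ∈ Bk D i, Real.log (n : ℝ) ≤ Real.log T := fun n hn => by
      refine Real.log_le_log ?_ (by exact_mod_cast (hfac n hn).2.1.le)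
      have := (hn1 n (hfac n hn).2.2).1.2.2.2.2.2.2.2.2.2.1
      exact_mod_cast this
    have hnε : ∀ n ∈ Bk D i, (n : ℝ) ^ (-(1 / 5) : ℝ) ≤ ε := fun n hn => by
      rw [hε]
      exact Real.rpow_le_rpow_of_nonpos hiD0 (by exact_mod_cast (hfac n hn).1) (by norm_num)
    have hQnn : ∀ n ∈ Bk D i, 0 ≤ Q0 n := fun n hn => by
      rw [hQ0]
      exact (Real.exp_pos _).le.trans ((hn1 n (hfac n hn).2.2).1.1 _ (hVT0.2 n hn)).1
    have hQlow : ∀ n ∈ Bk D i, (T : ℝ) ^ (-((1 + η) * c)) ≤ Q0 n := fun n hn => by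
      have h1 := (hn1 n (hfac n hn).2.2).1
      have h2 := (h1.1 _ (hVT0.2 n hn)).1
      have h3 := h1.2.2.2.2.2.1
      have hn0 : (0 : ℝ) < n := by exact_mod_cast h1.2.2.2.2.2.2.2.2.2.1
      have hT0' : (0 : ℝ) < T := by
        have := (hfac n hn).2.1
        exact_mod_cast (show 0 < T by omega)
      rw [hQ0]
      refine le_trans ?_ h2
      rw [Real.rpow_def_of_pos hT0']
      refine Real.exp_le_exp.2 ?_
      have h4 := hlogT n hn
      have h5 : (1 + η) * (l n / (b * Real.log n ^ β)) ≤ (1 + η) * (c * Real.log n) :=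
        mul_le_mul_of_nonneg_left h3 (by linarith)
      have h6 : (1 + η) * (c * Real.log n) ≤ (1 + η) * (c * Real.log T) :=
        mul_le_mul_of_nonneg_left (mul_le_mul_of_nonneg_left h4 hc0) (by linarith)
      linarith
    have hcard : ∀ n ∈ Bk D i, ((Ws W (T0 : Set ℕ) (h n)).card : ℝ) ≤ 2 * max C 0 * Real.log n ^ (β + 1) := fun n hn => by
      have h1 := (hn1 n (hfac n hn).2.2).1
      have h2 := (hVT0.2 n hn).2
      have h3 : C * Real.log n ^ (β + 1) ≤ max C 0 * Real.log n ^ (β + 1) :=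
        mul_le_mul_of_nonneg_right (le_max_left _ _) (by have := h1.2.2.2.2.2.2.2.2.1; positivity)
      have h4 := h1.2.2.2.1
      have h5 := h1.2.2.1
      nlinarith
    have hjle : ∀ n ∈ Bk D i, ∀ m ∈ Bk D i, ∀ j ∈ Ws W (T0 : Set ℕ) (h m), 1 ≤ j ∧ (j : ℝ) ≤ Real.log n ^ (M' + 1) := by
      intro n hn m hm j hj
      rw [mem_Ws] at hj
      refine ⟨hj.1.1, ?_⟩
      have h1 : j ≤ h T := hj.1.2.trans (hhT m hm)
      have h2 : (j : ℝ) ≤ h T := by exact_mod_cast h1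
      have h3 : (h T : ℝ) ≤ Real.log T ^ M := hTfac.2.1
      have h4 : Real.log (T : ℝ) ^ M ≤ Real.log T ^ M' := pow_le_pow_right₀ hTfac.2.2.2.2.2.2.2.2.1 hM'
      exact h2.trans (h3.trans (h4.trans (hi4 n (hfac n hn).1)))
    have hylog : ∀ n ∈ Bk D i, (y : ℝ) ≤ Real.log n ^ (M' + 1) := fun n hn => hyT.trans (hi4 n (hfac n hn).1)
    have hstepA : Pr y T0 x (Bad W Fl q h δ1 D i (Rn i)) ≤ Pr y T0 x (fun S => ∃ r ∈ range (Rn i),
        δ1 * ∑ n ∈ (Bk D i).filter (fun n => n % Rn i = r), Q0 n ≤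
        |Zc ((Bk D i).filter (fun n => n % Rn i = r)) E0 S - ∑ n ∈ (Bk D i).filter (fun n => n % Rn i = r), Q0 n|) := by
      refine pr_mono hy3 (fun T' hT' hbad => ?_)
      have hag := agree_union (y := y) (x := x) (T0 := T0) hT'
      rw [hy] at hag
      obtain ⟨r, hr, hr2⟩ := hbad
      refine ⟨r, hr, ?_⟩
      have h2 : Zc ((Bk D i).filter (fun n => n % Rn i = r)) (En W Fl h) ((T0 ∪ T' : Finset ℕ) : Set ℕ) =
          Zc ((Bk D i).filter (fun n => n % Rn i = r)) E0 ((T0 ∪ T' : Finset ℕ) : Set ℕ) := by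
        refine zc_congr (fun n hn => ?_)
        rw [mem_filter] at hn
        rw [hE0]
        exact R.en_congr hVT0' hag (hhT n hn.1)
      have h3 : ∑ n ∈ (Bk D i).filter (fun n => n % Rn i = r), Qn W q h n ((T0 ∪ T' : Finset ℕ) : Set ℕ) =
          ∑ n ∈ (Bk D i).filter (fun n => n % Rn i = r), Q0 n := by
        refine sum_congr rfl (fun n hn => ?_)
        rw [mem_filter] at hn
        rw [hQ0]
        exact (R.q_congr hVT0' hag (hhT n hn.1)).symm
      rw [h2, h3] at hr2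
      exact hr2
    refine hstepA.trans ((pr_exists_le hy3 _ _).trans ?_)
    have hclass : ∀ r ∈ range (Rn i), Pr y T0 x (fun S => δ1 * ∑ n ∈ (Bk D i).filter (fun n => n % Rn i = r), Q0 n ≤
        |Zc ((Bk D i).filter (fun n => n % Rn i = r)) E0 S - ∑ n ∈ (Bk D i).filter (fun n => n % Rn i = r), Q0 n|) ≤
        5 / δ1 ^ 2 * (i : ℝ) ^ (-2 : ℝ) := by
      intro r hr
      rw [mem_range] at hr
      obtain ⟨cl, hcl⟩ : ∃ cl, cl = (Bk D i).filter (fun n => n % Rn i = r) := ⟨_, rfl⟩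
      rw [← hcl]
      have hclB : ∀ n ∈ cl, n ∈ Bk D i := fun n hn => by
        rw [hcl] at hn
        exact (mem_filter.1 hn).1
      have hsum : (i : ℝ) ^ 2 ≤ ∑ n ∈ cl, Q0 n := by
        have h1 := hi7 (Rn i) (by rw [hRi]; omega) hi6 r hr
        have h2 : (cl.card : ℝ) * (T : ℝ) ^ (-((1 + η) * c)) ≤ ∑ n ∈ cl, Q0 n := by
          rw [← nsmul_eq_mul]
          exact card_nsmul_le_sum _ _ _ (fun n hn => hQlow n (hclB n hn))
        refine le_trans ?_ h2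
        rw [hcl]
        unfold Bk
        rw [← hT]
        exact h1
      have hi2' : (0 : ℝ) < (i : ℝ) ^ 2 := by positivity
      have hch := pr_cheb (x := x) hy3 (T0 := T0) cl E0 Q0 hε0 (hε2.trans hi1) hδ1 ?_ ?_ ?_ (lt_of_lt_of_le hi2' hsum)
      · refine hch.trans ?_
        rw [div_mul_eq_mul_div]
        refine div_le_div_of_nonneg_right ?_ (by positivity)
        have h1 : 2 / ∑ n ∈ cl, Q0 n ≤ 2 * (i : ℝ) ^ (-2 : ℝ) := by
          have h2 : (i : ℝ) ^ (-2 : ℝ) = 1 / (i : ℝ) ^ 2 := by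
            rw [Real.rpow_neg hi0.le, one_div]
            norm_num
          rw [h2, mul_one_div]
          exact div_le_div_of_nonneg_left (by norm_num) hi2' hsum
        linarith
      · intro n hn
        have h1 := ((hn1 n (hfac n (hclB n hn)).2.2).2.1 y hy3 (hylog n (hclB n hn)) T0 hT0y
          (Ws W (T0 : Set ℕ) (h n)) (hjle n (hclB n hn) n (hclB n hn)) (by
            refine (hcard n (hclB n hn)).trans ?_
            rw [hC2]
            have h2 : (1 : ℝ) ≤ 2 ^ (β + 1) := one_le_pow₀ (by norm_num)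
            have h3 : 0 ≤ 2 * max C 0 * Real.log n ^ (β + 1) := by
              have := (hn1 n (hfac n (hclB n hn)).2.2).1.2.2.2.2.2.2.2.2.1
              positivity
            nlinarith) x (hXx n (hclB n hn))).1
        have h2 := mul_le_mul_of_nonneg_right (hnε n (hclB n hn)) (hQnn n (hclB n hn))
        have h3 : ∏ j ∈ Ws W (T0 : Set ℕ) (h n), (1 - q n j) = Q0 n := by rw [hQ0]; rfl
        rw [h3] at h1
        rw [hE0]
        linarith
      · intro n hn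
        have h1 := ((hn1 n (hfac n (hclB n hn)).2.2).2.1 y hy3 (hylog n (hclB n hn)) T0 hT0y
          (Ws W (T0 : Set ℕ) (h n)) (hjle n (hclB n hn) n (hclB n hn)) (by
            refine (hcard n (hclB n hn)).trans ?_
            rw [hC2]
            have h2 : (1 : ℝ) ≤ 2 ^ (β + 1) := one_le_pow₀ (by norm_num)
            have h3 : 0 ≤ 2 * max C 0 * Real.log n ^ (β + 1) := by
              have := (hn1 n (hfac n (hclB n hn)).2.2).1.2.2.2.2.2.2.2.2.1
              positivity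
            nlinarith) x (hXx n (hclB n hn))).2
        have h2 := mul_le_mul_of_nonneg_right (hnε n (hclB n hn)) (hQnn n (hclB n hn))
        have h3 : ∏ j ∈ Ws W (T0 : Set ℕ) (h n), (1 - q n j) = Q0 n := by rw [hQ0]; rfl
        rw [h3] at h1
        rw [hE0]
        linarith
      · intro n hn m hm hnm
        have hnB := hclB n hn
        have hmB := hclB m hm
        have hlogn : 1 ≤ Real.log (n : ℝ) := (hn1 n (hfac n hnB).2.2).1.2.2.2.2.2.2.2.2.1
        have hlogm : 1 ≤ Real.log (m : ℝ) := (hn1 m (hfac m hmB).2.2).1.2.2.2.2.2.2.2.2.1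
        have hdist : (n : ℝ) + Real.log n ^ (M' + 1) < m := by
          have h1 : Rn i ≤ m - n := by
            refine Nat.le_of_dvd (by omega) ?_
            rw [hcl, mem_filter] at hn hm
            exact (Nat.modEq_iff_dvd' hnm.le).1 (show n ≡ m [MOD Rn i] by
              unfold Nat.ModEq
              rw [hn.2, hm.2])
          have h2 : n + Rn i ≤ m := by omega
          have h3 : (n : ℝ) + Rn i ≤ m := by exact_mod_cast h2
          have h4 : Real.log (n : ℝ) ^ (M' + 1) ≤ Real.log T ^ (M' + 1) :=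
            pow_le_pow_left₀ (by linarith) (hlogT n hnB) _
          have h5 := Nat.lt_floor_add_one (Real.log (T : ℝ) ^ (M' + 1))
          rw [hRi] at h3
          push_cast at h3
          linarith
        have hup : (m : ℝ) ≤ n + (n : ℝ) ^ (1 - 1 / (2 * (D : ℝ))) := by
          have h1 := hi5 n (hfac n hnB).1
          have h2 : (m : ℝ) ≤ T := by exact_mod_cast (hfac m hmB).2.1.le
          linarith
        have h1 := (hn1 n (hfac n hnB).2.2).2.2 m hdist hup y hy3 (hylog n hnB) T0 hT0y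
          (Ws W (T0 : Set ℕ) (h n)) (Ws W (T0 : Set ℕ) (h m)) (hjle n hnB n hnB) (hjle n hnB m hmB) (by
            refine (hcard n hnB).trans ?_
            rw [hC2]
            have h2 : (1 : ℝ) ≤ 2 ^ (β + 1) := one_le_pow₀ (by norm_num)
            have h3 : 0 ≤ 2 * max C 0 * Real.log n ^ (β + 1) := by positivity
            nlinarith) (by
            refine (hcard m hmB).trans ?_
            rw [hC2, mul_assoc (2 * max C 0), ← mul_pow]
            refine mul_le_mul_of_nonneg_left (pow_le_pow_left₀ (by linarith) ?_ _) (by positivity)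
            exact (hlogT m hmB).trans (hi3 n (hfac n hnB).1)) x (hXx m hmB)
        have h2 := mul_le_mul_of_nonneg_right (hnε n hnB) (mul_nonneg (hQnn n hnB) (hQnn m hmB))
        have h3 : ∏ j ∈ Ws W (T0 : Set ℕ) (h n), (1 - q n j) = Q0 n := by rw [hQ0]; rfl
        have h4 : ∏ j ∈ Ws W (T0 : Set ℕ) (h m), (1 - q m j) = Q0 m := by rw [hQ0]; rfl
        rw [h3, h4] at h1
        rw [hE0]
        linarith
    refine (sum_le_sum hclass).trans ?_
    rw [sum_const, card_range, nsmul_eq_mul]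
    have h1 : (i : ℝ) ^ (-(7 / 4) : ℝ) = (i : ℝ) ^ (1 / 4 : ℝ) * (i : ℝ) ^ (-2 : ℝ) := by
      rw [← Real.rpow_add hi0]
      norm_num
    rw [h1]
    have h2 : (Rn i : ℝ) * (5 / δ1 ^ 2 * (i : ℝ) ^ (-2 : ℝ)) ≤ (i : ℝ) ^ (1 / 4 : ℝ) * (5 / δ1 ^ 2 * (i : ℝ) ^ (-2 : ℝ)) :=
      mul_le_mul_of_nonneg_right hi6 (by positivity)
    linarith
  have hbc := bc hprob ((Real.summable_nat_rpow.2 (by norm_num)).mul_left _)
  filter_upwards [hbc, hV δ hδ0] with ω h1 h2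
  obtain ⟨n2, hn2⟩ := eventually_atTop.1 h2
  filter_upwards [h1, hTi.eventually_ge_atTop n2] with i h3 h4
  refine not_bad (R := Rn i) (by rw [hRn]; simp only; omega) (fun h5 => h3 ⟨?_, h5⟩)
  refine ⟨(hn2 _ (h4.trans (Nat.pow_le_pow_left (by omega) D))).1, fun n hn => (hn2 n ?_).2⟩
  unfold Bk at hn
  rw [mem_Ico] at hn
  omega

end Pool.Agent.Q197.CI
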