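import Pool.Agent.Q197.CI.RowC

/-!
# Typical values and the exponents of the counting functions
-/

set_option autoImplicit false

namespace Pool.Agent.Q197.CI

open Finset Filter MeasureTheory Pool.Agent.Q120.ET Pool.Agent.Q120.MF
open scoped Topology

variable {Ω : Type*} [MeasurableSpace Ω] {μ : Measure Ω} [IsProbabilityMeasure μ] {A : Ω → Set ℕ}
variable {W : ℕ → Set ℕ → Prop} {V : ℕ → Set ℕ → Prop} {Y : ℕ → ℕ} {Fl : ℕ → ℕ → Set ℕ → Prop}
  {X : ℕ → ℕ} {q : ℕ → ℕ → ℝ} {β : ℕ} {b : ℝ} {h : ℕ → ℕ} {l : ℕ → ℝ}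

theorem zc_range_pow {D : ℕ} (hD : 1 ≤ D) (E : ℕ → Set ℕ → Prop) (S : Set ℕ) (i : ℕ) :
    Zc (range (i ^ D)) E S = ∑ k ∈ range i, Zc (Bk D k) E S := by
  classical
  induction i with
  | zero =>
    have h1 : (0 : ℕ) ^ D = 0 := by rw [Nat.zero_pow (by omega)]
    rw [h1]
    simp [Zc]
  | succ i ih =>
    rw [sum_range_succ, ← ih, zc_eq, zc_eq, zc_eq]
    unfold Bk
    exact (sum_range_add_sum_Ico _ (Nat.pow_le_pow_left (by omega) D)).symm

theorem zc_mono {B B' : Finset ℕ} (hB : B ⊆ B') (E : ℕ → Set ℕ → Prop) (S : Set ℕ) : Zc B E S ≤ Zc B' E S := by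
  classical
  unfold Zc
  exact_mod_cast card_le_card (filter_subset_filter _ hB)

/-- Interpolation between the numbers `i ^ D`. -/
theorem interp {D : ℕ} (hD : 1 ≤ D) {f : ℕ → ℝ} (hf : Monotone f) (hf0 : ∀ N, 0 ≤ f N) {κ : ℝ}
    (h1 : Tendsto (fun i : ℕ => f (i ^ D) / ((i ^ D : ℕ) : ℝ)) atTop (𝓝 κ)) :
    Tendsto (fun N : ℕ => f N / N) atTop (𝓝 κ) := by
  have hD0 : (0 : ℝ) < D := by exact_mod_cast (show 0 < D by omega)
  obtain ⟨r, hr⟩ : ∃ r : ℕ → ℕ, r = fun N : ℕ => ⌊(N : ℝ) ^ (1 / (D : ℝ))⌋₊ := ⟨_, rfl⟩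
  have hr1 : ∀ N, (r N) ^ D ≤ N := by
    intro N
    have h2 : ((r N : ℕ) : ℝ) ≤ (N : ℝ) ^ (1 / (D : ℝ)) := by
      rw [hr]
      exact Nat.floor_le (Real.rpow_nonneg (Nat.cast_nonneg _) _)
    have h3 : ((r N : ℕ) : ℝ) ^ D ≤ ((N : ℝ) ^ (1 / (D : ℝ))) ^ D := pow_le_pow_left₀ (Nat.cast_nonneg _) h2 D
    rw [← Real.rpow_natCast ((N : ℝ) ^ (1 / (D : ℝ))), ← Real.rpow_mul (Nat.cast_nonneg _), one_div,
      inv_mul_cancel₀ hD0.ne', Real.rpow_one] at h3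
    exact_mod_cast h3
  have hr2 : ∀ N, N ≤ (r N + 1) ^ D := by
    intro N
    have h2 : (N : ℝ) ^ (1 / (D : ℝ)) ≤ ((r N + 1 : ℕ) : ℝ) := by
      rw [hr]
      push_cast
      exact (Nat.lt_floor_add_one _).le
    have h3 : ((N : ℝ) ^ (1 / (D : ℝ))) ^ D ≤ ((r N + 1 : ℕ) : ℝ) ^ D :=
      pow_le_pow_left₀ (Real.rpow_nonneg (Nat.cast_nonneg _) _) h2 D
    rw [← Real.rpow_natCast ((N : ℝ) ^ (1 / (D : ℝ))), ← Real.rpow_mul (Nat.cast_nonneg _), one_div,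
      inv_mul_cancel₀ hD0.ne', Real.rpow_one] at h3
    exact_mod_cast h3
  have hrt : Tendsto r atTop atTop := by
    rw [hr]
    exact tendsto_nat_floor_atTop.comp ((tendsto_rpow_atTop (by positivity)).comp tendsto_natCast_atTop_atTop)
  have hratio : Tendsto (fun i : ℕ => ((i : ℝ) / ((i : ℝ) + 1)) ^ D) atTop (𝓝 1) := by
    have h2 := (tendsto_natCast_div_add_atTop (1 : ℝ)).pow D
    rwa [one_pow] at h2
  have hlow : Tendsto (fun N : ℕ => f ((r N) ^ D) / (((r N) ^ D : ℕ) : ℝ) * ((r N : ℝ) / ((r N : ℝ) + 1)) ^ D) atTop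
      (𝓝 (κ * 1)) := (h1.comp hrt).mul (hratio.comp hrt)
  have hup : Tendsto (fun N : ℕ => f ((r N + 1) ^ D) / (((r N + 1) ^ D : ℕ) : ℝ) / ((r N : ℝ) / ((r N : ℝ) + 1)) ^ D) atTop
      (𝓝 (κ / 1)) := (h1.comp ((tendsto_add_atTop_nat 1).comp hrt)).div (hratio.comp hrt) one_ne_zero
  rw [mul_one] at hlow
  rw [div_one] at hup
  refine tendsto_of_tendsto_of_tendsto_of_le_of_le' hlow hup ?_ ?_
  · filter_upwards [hrt.eventually_ge_atTop 1] with N hN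
    have hrN : (0 : ℝ) < r N := by exact_mod_cast (show 0 < r N by omega)
    have hN1 : ((r N : ℝ)) ^ D ≤ N := by exact_mod_cast hr1 N
    have hN0 : (0 : ℝ) < N := lt_of_lt_of_le (by positivity) hN1
    have hN2 : (N : ℝ) ≤ ((r N : ℝ) + 1) ^ D := by exact_mod_cast hr2 N
    have h3 : f ((r N) ^ D) / (((r N) ^ D : ℕ) : ℝ) * ((r N : ℝ) / ((r N : ℝ) + 1)) ^ D =
        f ((r N) ^ D) / ((r N : ℝ) + 1) ^ D := by
      push_cast
      rw [div_pow]
      field_simp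
    rw [h3]
    exact div_le_div₀ (hf0 _) (hf (hr1 N)) hN0 hN2
  · filter_upwards [hrt.eventually_ge_atTop 1] with N hN
    have hrN : (0 : ℝ) < r N := by exact_mod_cast (show 0 < r N by omega)
    have hN1 : ((r N : ℝ)) ^ D ≤ N := by exact_mod_cast hr1 N
    have hN0 : (0 : ℝ) < N := lt_of_lt_of_le (by positivity) hN1
    have h3 : f ((r N + 1) ^ D) / (((r N + 1) ^ D : ℕ) : ℝ) / ((r N : ℝ) / ((r N : ℝ) + 1)) ^ D =
        f ((r N + 1) ^ D) / (r N : ℝ) ^ D := by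
      push_cast
      rw [div_pow]
      field_simp
    rw [h3]
    exact div_le_div₀ (hf0 _) (hf (hr2 N)) (by positivity) hN1

/-- The typical values. -/
theorem Row.typical (R : Row W V Y Fl X q β b) (hA : IsCramer μ A) {M : ℕ}
    (hh : ∀ᶠ n : ℕ in atTop, (h n : ℝ) ≤ Real.log n ^ M) (hmono : ∀ᶠ n : ℕ in atTop, ∀ m, n ≤ m → h n ≤ h m)
    (hl0 : ∀ᶠ n : ℕ in atTop, 0 ≤ l n) {C : ℝ} (hlC : ∀ᶠ n : ℕ in atTop, l n ≤ C * Real.log n ^ (β + 1))
    (hV : ∀ δ : ℝ, 0 < δ → ∀ᵐ ω ∂μ, ∀ᶠ n in atTop, VR V W h l δ n (A ω)) {t : ℝ}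
    (hτ : Tendsto (fun n : ℕ => l n / (b * Real.log n ^ β)) atTop (𝓝 t)) :
    ∀ᵐ ω ∂μ, Tendsto (fun N : ℕ => Zc (range N) (En W Fl h) (A ω) / N) atTop (𝓝 (Real.exp (-t))) := by
  have hτ2 : ∀ᶠ n : ℕ in atTop, l n / (b * Real.log n ^ β) ≤ (1 / 2) * Real.log n := by
    filter_upwards [hτ.eventually_le_const (show t < t + 1 by linarith), hl.eventually_ge_atTop (2 * (t + 1))] with n h1 h2
    linarith
  have hblock : ∀ᵐ ω ∂μ, ∀ k : ℕ, ∀ᶠ i : ℕ in atTop, |Zc (Bk 10 i) (En W Fl h) (A ω) - ∑ n ∈ Bk 10 i, Qn W q h n (A ω)| ≤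
      (1 / ((k : ℝ) + 1)) * ∑ n ∈ Bk 10 i, Qn W q h n (A ω) := by
    rw [ae_all_iff]
    intro k
    exact R.block hA hh hmono hl0 hlC hV (c := 1 / 2) (by norm_num) (by norm_num) hτ2 (D := 10) le_rfl (by norm_num)
      (by positivity)
  have hQ : ∀ᵐ ω ∂μ, ∀ k : ℕ, ∀ᶠ n : ℕ in atTop,
      Real.exp (-((1 + 1 / ((k : ℝ) + 1)) * (l n / (b * Real.log n ^ β)))) ≤ Qn W q h n (A ω) ∧
      Qn W q h n (A ω) ≤ Real.exp (-((1 - 1 / ((k : ℝ) + 1)) * (l n / (b * Real.log n ^ β)))) := by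
    rw [ae_all_iff]
    intro k
    obtain ⟨δ, hδ0, _, hQ⟩ := R.Q_bounds hh hl0 (η := 1 / ((k : ℝ) + 1)) (by positivity)
    filter_upwards [hV δ hδ0] with ω h1
    filter_upwards [h1, hQ] with n h2 h3
    have h4 := h3 _ h2.2
    exact ⟨h4.1, h4.2.1⟩
  filter_upwards [hblock, hQ] with ω hb hq
  have hQlim : Tendsto (fun n => Qn W q h n (A ω)) atTop (𝓝 (Real.exp (-t))) := by
    have hk : Tendsto (fun k : ℕ => 1 / ((k : ℝ) + 1)) atTop (𝓝 0) := tendsto_one_div_add_atTop_nhds_zero_nat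
    have hu : Tendsto (fun k : ℕ => Real.exp (-((1 - 1 / ((k : ℝ) + 1)) * t))) atTop (𝓝 (Real.exp (-t))) := by
      have := (Real.continuous_exp.tendsto (-((1 - 0) * t))).comp (((tendsto_const_nhds (x := (1 : ℝ))).sub hk).mul_const t).neg
      rw [sub_zero, one_mul] at this
      exact this
    have hl' : Tendsto (fun k : ℕ => Real.exp (-((1 + 1 / ((k : ℝ) + 1)) * t))) atTop (𝓝 (Real.exp (-t))) := by
      have := (Real.continuous_exp.tendsto (-((1 + 0) * t))).comp (((tendsto_const_nhds (x := (1 : ℝ))).add hk).mul_const t).neg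
      rw [add_zero, one_mul] at this
      exact this
    rw [tendsto_order]
    constructor
    · intro a ha
      obtain ⟨k, hk1⟩ := (hl'.eventually_const_lt ha).exists
      have h1 := ((Real.continuous_exp.tendsto _).comp ((hτ.const_mul (1 + 1 / ((k : ℝ) + 1))).neg)).eventually_const_lt hk1
      filter_upwards [h1, hq k] with n h2 h3
      exact lt_of_lt_of_le h2 h3.1
    · intro a ha
      obtain ⟨k, hk1⟩ := (hu.eventually_lt_const ha).exists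
      have h1 := ((Real.continuous_exp.tendsto _).comp ((hτ.const_mul (1 - 1 / ((k : ℝ) + 1))).neg)).eventually_lt_const hk1
      filter_upwards [h1, hq k] with n h2 h3
      exact lt_of_le_of_lt h3.2 h2
  obtain ⟨κ, hκ⟩ : ∃ κ : ℝ, κ = Real.exp (-t) := ⟨_, rfl⟩
  have hκ0 : 0 < κ := by rw [hκ]; exact Real.exp_pos _
  rw [← hκ] at hQlim ⊢
  have hlen : ∀ i : ℕ, ((Bk 10 i).card : ℝ) = (((i + 1) ^ 10 : ℕ) : ℝ) - ((i ^ 10 : ℕ) : ℝ) := by
    intro i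
    unfold Bk
    rw [Nat.card_Ico, Nat.cast_sub (Nat.pow_le_pow_left (by omega) 10)]
  have hlen0 : ∀ i : ℕ, 1 ≤ i → (0 : ℝ) < (Bk 10 i).card := by
    intro i hi
    have h1 := len_low i (show 1 ≤ 10 by norm_num)
    have h2 : 0 < i ^ (10 - 1) := Nat.pow_pos (by omega)
    unfold Bk
    rw [Nat.card_Ico]
    exact_mod_cast (show 0 < (i + 1) ^ 10 - i ^ 10 by omega)
  have hS : Tendsto (fun i : ℕ => (∑ n ∈ Bk 10 i, Qn W q h n (A ω)) / (Bk 10 i).card) atTop (𝓝 κ) := by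
    rw [Metric.tendsto_atTop]
    intro ε hε
    obtain ⟨n0, hn0⟩ := Metric.tendsto_atTop.1 hQlim (ε / 2) (by linarith)
    refine ⟨n0 + 1, fun i hi => ?_⟩
    have h1 := hlen0 i (by omega)
    rw [Real.dist_eq]
    have h2 : (∑ n ∈ Bk 10 i, Qn W q h n (A ω)) / (Bk 10 i).card - κ =
        (∑ n ∈ Bk 10 i, (Qn W q h n (A ω) - κ)) / (Bk 10 i).card := by
      rw [sum_sub_distrib, sum_const, nsmul_eq_mul]
      field_simp
    rw [h2, abs_div, abs_of_pos h1, div_lt_iff₀ h1]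
    have h3 : |∑ n ∈ Bk 10 i, (Qn W q h n (A ω) - κ)| ≤ ∑ n ∈ Bk 10 i, ε / 2 := by
      refine (abs_sum_le_sum_abs _ _).trans (sum_le_sum (fun n hn => ?_))
      unfold Bk at hn
      rw [mem_Ico] at hn
      have h4 : i ≤ i ^ 10 := Nat.le_self_pow (by norm_num) i
      have h5 := hn0 n (by omega)
      rw [Real.dist_eq] at h5
      exact h5.le
    rw [sum_const, nsmul_eq_mul] at h3
    nlinarith
  have hZ : Tendsto (fun i : ℕ => Zc (Bk 10 i) (En W Fl h) (A ω) / (Bk 10 i).card) atTop (𝓝 κ) := by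
    rw [Metric.tendsto_atTop]
    intro ε hε
    obtain ⟨k, hk⟩ := exists_nat_one_div_lt (show 0 < ε / (2 * (κ + 1)) by positivity)
    obtain ⟨i1, hi1⟩ := eventually_atTop.1 (hb k)
    obtain ⟨i2, hi2⟩ := Metric.tendsto_atTop.1 hS (min (ε / 2) 1) (lt_min (by linarith) one_pos)
    refine ⟨max (max i1 i2) 1, fun i hi => ?_⟩
    have h1 := hlen0 i (by omega)
    have h2 := hi1 i (by omega)
    have h3 := hi2 i (by omega)
    rw [Real.dist_eq] at h3 ⊢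
    have h4 : |(∑ n ∈ Bk 10 i, Qn W q h n (A ω)) / (Bk 10 i).card - κ| < ε / 2 := lt_of_lt_of_le h3 (min_le_left _ _)
    have h5 : |(∑ n ∈ Bk 10 i, Qn W q h n (A ω)) / (Bk 10 i).card - κ| < 1 := lt_of_lt_of_le h3 (min_le_right _ _)
    obtain ⟨s, hs⟩ : ∃ s, s = ∑ n ∈ Bk 10 i, Qn W q h n (A ω) := ⟨_, rfl⟩
    obtain ⟨z, hz⟩ : ∃ z, z = Zc (Bk 10 i) (En W Fl h) (A ω) := ⟨_, rfl⟩
    rw [← hs] at h2 h4 h5
    rw [← hz] at h2 ⊢
    have h6 : |z / (Bk 10 i).card - s / (Bk 10 i).card| < ε / 2 := by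
      rw [← sub_div, abs_div, abs_of_pos h1, div_lt_iff₀ h1]
      have h7 : s < (κ + 1) * (Bk 10 i).card := by
        have h8 := (abs_lt.1 h5).2
        rw [← div_lt_iff₀ h1]
        linarith
      have h8 : (1 / ((k : ℝ) + 1)) * s ≤ (1 / ((k : ℝ) + 1)) * ((κ + 1) * (Bk 10 i).card) :=
        mul_le_mul_of_nonneg_left h7.le (by positivity)
      have h9 : (1 / ((k : ℝ) + 1)) * ((κ + 1) * (Bk 10 i).card) < (ε / (2 * (κ + 1))) * ((κ + 1) * (Bk 10 i).card) :=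
        mul_lt_mul_of_pos_right hk (by positivity)
      have h10 : (ε / (2 * (κ + 1))) * ((κ + 1) * (Bk 10 i).card) = ε / 2 * (Bk 10 i).card := by
        field_simp
      linarith
    have h7 := abs_sub_abs_le_abs_sub (z / (Bk 10 i).card - κ) (s / (Bk 10 i).card - κ)
    have h8 : z / (Bk 10 i).card - κ - (s / (Bk 10 i).card - κ) = z / (Bk 10 i).card - s / (Bk 10 i).card := by ring
    rw [h8] at h7
    linarith
  refine interp (D := 10) (by norm_num) (f := fun N => Zc (range N) (En W Fl h) (A ω))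
    (fun N N' hN => zc_mono (range_subset_range.2 hN) _ _) (fun N => zc_nonneg _ _ _) ?_
  have h1 := stolz (Q := fun i => Zc (Bk 10 i) (En W Fl h) (A ω)) (F := fun i : ℕ => ((i ^ 10 : ℕ) : ℝ)) (κ := κ) ?_ ?_ ?_
  · refine h1.congr (fun i => ?_)
    rw [zc_range_pow (by norm_num)]
  · filter_upwards [eventually_ge_atTop 1] with i hi
    have := hlen0 i hi
    rw [hlen] at this
    exact this
  · exact tendsto_natCast_atTop_atTop.comp (tendsto_pow_D (by norm_num))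
  · refine hZ.congr (fun i => ?_)
    rw [hlen]

/-- Lower bound for the number of failures. -/
theorem Row.count_ge (R : Row W V Y Fl X q β b) (hA : IsCramer μ A) {M : ℕ}
    (hh : ∀ᶠ n : ℕ in atTop, (h n : ℝ) ≤ Real.log n ^ M) (hmono : ∀ᶠ n : ℕ in atTop, ∀ m, n ≤ m → h n ≤ h m)
    (hl0 : ∀ᶠ n : ℕ in atTop, 0 ≤ l n) {C : ℝ} (hlC : ∀ᶠ n : ℕ in atTop, l n ≤ C * Real.log n ^ (β + 1))
    (hV : ∀ δ : ℝ, 0 < δ → ∀ᵐ ω ∂μ, ∀ᶠ n in atTop, VR V W h l δ n (A ω)) {c : ℝ} (hc0 : 0 ≤ c) (hc1 : c < 1)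
    (hτ : ∀ᶠ n : ℕ in atTop, l n / (b * Real.log n ^ β) ≤ c * Real.log n) {ε : ℝ} (hε : 0 < ε) (hε1 : c + ε < 1) :
    ∀ᵐ ω ∂μ, ∀ᶠ N : ℕ in atTop, (N : ℝ) ^ (1 - c - ε) ≤ Zc (range N) (En W Fl h) (A ω) := by
  obtain ⟨D, hD⟩ := exists_nat_ge (max 10 (max (5 / (1 - c)) (8 / ε)))
  have hD10 : (10 : ℝ) ≤ D := le_trans (le_max_left _ _) hD
  have hD5 : 5 / (1 - c) ≤ D := le_trans ((le_max_left _ _).trans (le_max_right _ _)) hD
  have hD8 : 8 / ε ≤ D := le_trans ((le_max_right _ _).trans (le_max_right _ _)) hD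
  have hD10' : 10 ≤ D := by exact_mod_cast hD10
  rw [div_le_iff₀ (by linarith)] at hD5
  rw [div_le_iff₀ hε] at hD8
  obtain ⟨η, hη⟩ : ∃ η : ℝ, η = ε / 4 := ⟨_, rfl⟩
  have hη0 : 0 < η := by rw [hη]; linarith
  obtain ⟨δ, hδ0, _, hQ⟩ := R.Q_bounds hh hl0 hη0
  filter_upwards [R.block hA hh hmono hl0 hlC hV hc0 hc1 hτ hD10' hD5 (show (0 : ℝ) < 1 / 2 by norm_num), hV δ hδ0]
    with ω hb hv
  have hev : ∀ᶠ n : ℕ in atTop, (n : ℝ) ^ (-((1 + η) * c)) ≤ Qn W q h n (A ω) := by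
    filter_upwards [hv, hQ, hτ, eventually_ge_atTop 1] with n h1 h2 h3 h4
    have hn0 : (0 : ℝ) < n := by exact_mod_cast h4
    refine le_trans ?_ (h2 _ h1.2).1
    rw [Real.rpow_def_of_pos hn0]
    refine Real.exp_le_exp.2 ?_
    have h5 := mul_le_mul_of_nonneg_left h3 (show 0 ≤ 1 + η by linarith)
    linarith
  obtain ⟨n0, hn0⟩ := eventually_atTop.1 hev
  have hr : ∀ r : ℝ, 0 < r → Tendsto (fun i : ℕ => (i : ℝ) ^ r) atTop atTop := fun r hr =>
    (tendsto_rpow_atTop hr).comp tendsto_natCast_atTop_atTop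
  have hi : ∀ᶠ i : ℕ in atTop, (((i + 2) ^ D : ℕ) : ℝ) ^ (1 - c - ε) ≤ Zc (Bk D i) (En W Fl h) (A ω) := by
    filter_upwards [hb, eventually_ge_atTop (max n0 2), (hr 1 (by norm_num)).eventually_ge_atTop
      (2 * 2 ^ (D * ((1 + η) * c)) * 2 ^ (D * (1 - c - ε)))] with i h1 h2 h3
    have hi0 : (0 : ℝ) < i := by exact_mod_cast (show 0 < i by omega)
    rw [Real.rpow_one] at h3
    rw [abs_le] at h1
    have h4 : (1 / 2) * ∑ n ∈ Bk D i, Qn W q h n (A ω) ≤ Zc (Bk D i) (En W Fl h) (A ω) := by linarith [h1.1]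
    have h5 : ((Bk D i).card : ℝ) * ((2 * (i : ℝ)) ^ D) ^ (-((1 + η) * c)) ≤ ∑ n ∈ Bk D i, Qn W q h n (A ω) := by
      rw [← nsmul_eq_mul]
      refine card_nsmul_le_sum _ _ _ (fun n hn => ?_)
      unfold Bk at hn
      rw [mem_Ico] at hn
      have h6 : i ≤ i ^ D := Nat.le_self_pow (by omega) i
      refine le_trans ?_ (hn0 n (by omega))
      have h7 : 0 < n := by omega
      refine Real.rpow_le_rpow_of_nonpos (by exact_mod_cast h7) ?_ ?_
      · have h8 : (n : ℝ) ≤ ((i + 1 : ℕ) : ℝ) ^ D := by exact_mod_cast hn.2.le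
        refine h8.trans (pow_le_pow_left₀ (by positivity) ?_ D)
        push_cast
        have : (2 : ℝ) ≤ i := by exact_mod_cast (show 2 ≤ i by omega)
        linarith
      · have : 0 ≤ (1 + η) * c := by positivity
        linarith
    have h6 : (i : ℝ) ^ (D - 1) ≤ (Bk D i).card := by
      have h7 := len_low i (show 1 ≤ D by omega)
      unfold Bk
      rw [Nat.card_Ico]
      exact_mod_cast (show i ^ (D - 1) ≤ (i + 1) ^ D - i ^ D by omega)
    have h7 : ((2 * (i : ℝ)) ^ D) ^ (-((1 + η) * c)) = (2 : ℝ) ^ (-(D * ((1 + η) * c))) * (i : ℝ) ^ (-(D * ((1 + η) * c))) := by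
      rw [← Real.rpow_natCast, ← Real.rpow_mul (by positivity), Real.mul_rpow (by norm_num) hi0.le]
      have : (D : ℝ) * -((1 + η) * c) = -(D * ((1 + η) * c)) := by ring
      rw [this]
    have h8 : (((i + 2) ^ D : ℕ) : ℝ) ^ (1 - c - ε) ≤ 2 ^ (D * (1 - c - ε)) * (i : ℝ) ^ (D * (1 - c - ε)) := by
      rw [← Real.mul_rpow (by norm_num) hi0.le, Real.rpow_mul (by positivity), Real.rpow_natCast]
      refine Real.rpow_le_rpow (by positivity) ?_ (by linarith)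
      push_cast
      refine pow_le_pow_left₀ (by positivity) ?_ D
      have : (2 : ℝ) ≤ i := by exact_mod_cast (show 2 ≤ i by omega)
      linarith
    have h9 : (i : ℝ) * (i : ℝ) ^ (D * (1 - c - ε)) ≤ (i : ℝ) ^ (D - 1) * (i : ℝ) ^ (-(D * ((1 + η) * c))) := by
      have h10 : (i : ℝ) * (i : ℝ) ^ (D * (1 - c - ε)) = (i : ℝ) ^ (1 + D * (1 - c - ε)) := by
        rw [Real.rpow_add hi0, Real.rpow_one]
      have h11 : (i : ℝ) ^ (D - 1) = (i : ℝ) ^ ((D : ℝ) - 1) := by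
        rw [← Real.rpow_natCast]
        congr 1
        rw [Nat.cast_sub (by omega)]
        simp
      rw [h10, h11, ← Real.rpow_add hi0]
      refine Real.rpow_le_rpow_of_exponent_le (by exact_mod_cast (show 1 ≤ i by omega)) ?_
      have h12 : D * ((1 + η) * c) = D * c + D * ε * c / 4 := by rw [hη]; ring
      rw [h12]
      have h13 : D * ε * c ≤ D * ε := by
        have : 0 ≤ (D : ℝ) * ε := by positivity
        nlinarith
      nlinarith
    have h10 : 0 < (i : ℝ) ^ (D * (1 - c - ε)) := Real.rpow_pos_of_pos hi0 _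
    have h11 : 0 < (2 : ℝ) ^ (-(D * ((1 + η) * c))) := Real.rpow_pos_of_pos (by norm_num) _
    have h12 : (2 : ℝ) ^ (-(D * ((1 + η) * c))) * (2 : ℝ) ^ (D * ((1 + η) * c)) = 1 := by
      rw [← Real.rpow_add (by norm_num)]
      simp
    have h13 : (2 : ℝ) ^ (D * (1 - c - ε)) ≤ (1 / 2) * (2 : ℝ) ^ (-(D * ((1 + η) * c))) * i := by
      have h14 := mul_le_mul_of_nonneg_left h3 h11.le
      have h15 : (2 : ℝ) ^ (-(D * ((1 + η) * c))) * (2 * 2 ^ (D * ((1 + η) * c)) * 2 ^ (D * (1 - c - ε))) =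
          2 * 2 ^ (D * (1 - c - ε)) * ((2 : ℝ) ^ (-(D * ((1 + η) * c))) * (2 : ℝ) ^ (D * ((1 + η) * c))) := by ring
      rw [h15, h12, mul_one] at h14
      linarith
    calc (((i + 2) ^ D : ℕ) : ℝ) ^ (1 - c - ε) ≤ 2 ^ (D * (1 - c - ε)) * (i : ℝ) ^ (D * (1 - c - ε)) := h8
      _ ≤ ((1 / 2) * (2 : ℝ) ^ (-(D * ((1 + η) * c))) * i) * (i : ℝ) ^ (D * (1 - c - ε)) :=
          mul_le_mul_of_nonneg_right h13 h10.le
      _ = (1 / 2) * (2 : ℝ) ^ (-(D * ((1 + η) * c))) * (i * (i : ℝ) ^ (D * (1 - c - ε))) := by ring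
      _ ≤ (1 / 2) * (2 : ℝ) ^ (-(D * ((1 + η) * c))) * ((i : ℝ) ^ (D - 1) * (i : ℝ) ^ (-(D * ((1 + η) * c)))) :=
          mul_le_mul_of_nonneg_left h9 (by positivity)
      _ = (1 / 2) * ((i : ℝ) ^ (D - 1) * ((2 : ℝ) ^ (-(D * ((1 + η) * c))) * (i : ℝ) ^ (-(D * ((1 + η) * c))))) := by ring
      _ ≤ (1 / 2) * ((Bk D i).card * ((2 : ℝ) ^ (-(D * ((1 + η) * c))) * (i : ℝ) ^ (-(D * ((1 + η) * c))))) := by
          refine mul_le_mul_of_nonneg_left (mul_le_mul_of_nonneg_right h6 ?_) (by norm_num)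
          exact mul_nonneg h11.le (Real.rpow_nonneg hi0.le _)
      _ ≤ (1 / 2) * ∑ n ∈ Bk D i, Qn W q h n (A ω) := by
          rw [← h7]
          exact mul_le_mul_of_nonneg_left h5 (by norm_num)
      _ ≤ _ := h4
  obtain ⟨i0, hi0⟩ := eventually_atTop.1 hi
  filter_upwards [eventually_ge_atTop ((i0 + 1) ^ D)] with N hN
  -- the index of the block
  classical
  have hex : ∃ k, N < (k + 2) ^ D := ⟨N, lt_of_lt_of_le (by omega) (Nat.le_self_pow (by omega) (N + 2))⟩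
  obtain ⟨k, hk⟩ : ∃ k, k = Nat.find hex := ⟨_, rfl⟩
  have hk1 : N < (k + 2) ^ D := by rw [hk]; exact Nat.find_spec hex
  have hk2 : (k + 1) ^ D ≤ N := by
    rcases Nat.eq_zero_or_pos k with h0 | h0
    · rw [h0]
      have : 1 ≤ (i0 + 1) ^ D := Nat.one_le_pow _ _ (by omega)
      simp
      omega
    · have h1 := Nat.find_min hex (m := k - 1) (by omega)
      push Not at h1
      have h2 : k - 1 + 2 = k + 1 := by omega
      rwa [h2] at h1
  have hk3 : i0 ≤ k := by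
    by_contra hcon
    have h1 : (k + 2) ^ D ≤ (i0 + 1) ^ D := Nat.pow_le_pow_left (by omega) D
    omega
  have h1 := hi0 k hk3
  have h2 : Zc (Bk D k) (En W Fl h) (A ω) ≤ Zc (range N) (En W Fl h) (A ω) := by
    refine zc_mono (fun n hn => ?_) _ _
    unfold Bk at hn
    rw [mem_Ico] at hn
    rw [mem_range]
    omega
  refine le_trans ?_ (h1.trans h2)
  exact Real.rpow_le_rpow (Nat.cast_nonneg _) (by exact_mod_cast hk1.le) (by linarith)

end Pool.Agent.Q197.CI
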