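import Pool.Agent.Q197.CI.RowD

/-!
# The laws with explicit scales
-/

set_option autoImplicit false

namespace Pool.Agent.Q197.CI

open Finset Filter MeasureTheory Pool.Agent.Q120.ET Pool.Agent.Q120.MF
open scoped Topology

/-- The scale `c log ^ γ n (log log n) ^ a`. -/
noncomputable def us (c : ℝ) (γ a n : ℕ) : ℝ := c * (Real.log n ^ γ * Real.log (Real.log n) ^ a)

/-- Its integer part. -/
noncomputable def hs (c : ℝ) (γ a n : ℕ) : ℕ := ⌊us c γ a n⌋₊

/-- The expected number of tests. -/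
noncomputable def ls (c : ℝ) (γ a n : ℕ) : ℝ := c * Real.log n ^ γ / (γ : ℝ) ^ a

theorem us_top {c : ℝ} (hc : 0 < c) {γ : ℕ} (hγ : 1 ≤ γ) (a : ℕ) : Tendsto (us c γ a) atTop atTop := by
  have h1 : Tendsto (fun n : ℕ => c * Real.log n ^ γ) atTop atTop :=
    ((tendsto_pow_atTop (by omega)).comp hl).const_mul_atTop hc
  refine tendsto_atTop_mono' _ ?_ h1
  filter_upwards [lll.eventually_ge_atTop 1, hl.eventually_ge_atTop 0] with n h2 h3
  unfold us
  have h4 : (1 : ℝ) ≤ Real.log (Real.log n) ^ a := one_le_pow₀ h2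
  have h5 : Real.log (n : ℝ) ^ γ * 1 ≤ Real.log n ^ γ * Real.log (Real.log n) ^ a :=
    mul_le_mul_of_nonneg_left h4 (by positivity)
  rw [mul_one] at h5
  exact mul_le_mul_of_nonneg_left h5 hc.le

theorem hs_top {c : ℝ} (hc : 0 < c) {γ : ℕ} (hγ : 1 ≤ γ) (a : ℕ) : Tendsto (hs c γ a) atTop atTop :=
  tendsto_nat_floor_atTop.comp (us_top hc hγ a)

theorem hs_div_us {c : ℝ} (hc : 0 < c) {γ : ℕ} (hγ : 1 ≤ γ) (a : ℕ) :
    Tendsto (fun n => (hs c γ a n : ℝ) / us c γ a n) atTop (𝓝 1) :=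
  (tendsto_nat_floor_div_atTop (R := ℝ)).comp (us_top hc hγ a)

theorem us_mono {c : ℝ} (hc : 0 ≤ c) (γ a : ℕ) : ∀ᶠ n : ℕ in atTop, ∀ m, n ≤ m → us c γ a n ≤ us c γ a m := by
  filter_upwards [lll.eventually_ge_atTop 0, hl.eventually_ge_atTop 1, eventually_ge_atTop 1] with n h1 h2 h3 m hm
  have h4 : Real.log (n : ℝ) ≤ Real.log m := Real.log_le_log (by exact_mod_cast h3) (by exact_mod_cast hm)
  have h5 : Real.log (Real.log (n : ℝ)) ≤ Real.log (Real.log m) := Real.log_le_log (by linarith) h4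
  unfold us
  have h6 : Real.log (n : ℝ) ^ γ ≤ Real.log m ^ γ := pow_le_pow_left₀ (by linarith) h4 γ
  have h7 : Real.log (Real.log (n : ℝ)) ^ a ≤ Real.log (Real.log m) ^ a := pow_le_pow_left₀ h1 h5 a
  exact mul_le_mul_of_nonneg_left (mul_le_mul h6 h7 (pow_nonneg h1 a) (pow_nonneg (by linarith) γ)) hc

theorem hs_mono {c : ℝ} (hc : 0 ≤ c) (γ a : ℕ) : ∀ᶠ n : ℕ in atTop, ∀ m, n ≤ m → hs c γ a n ≤ hs c γ a m := by
  filter_upwards [us_mono hc γ a] with n h1 m hm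
  exact Nat.floor_le_floor (h1 m hm)

theorem us_le (c : ℝ) (γ a : ℕ) : ∀ᶠ n : ℕ in atTop, us c γ a n ≤ Real.log n ^ (γ + a + 1) := by
  filter_upwards [lll.eventually_ge_atTop 0, hl.eventually_ge_atTop (max c 1)] with n h1 h2
  have hc : c ≤ Real.log n := (le_max_left _ _).trans h2
  have h3 : (1 : ℝ) ≤ Real.log n := (le_max_right _ _).trans h2
  have h4 : Real.log (Real.log (n : ℝ)) ≤ Real.log n := (Real.log_le_sub_one_of_pos (by linarith)).trans (by linarith)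
  have h5 : Real.log (Real.log (n : ℝ)) ^ a ≤ Real.log n ^ a := pow_le_pow_left₀ h1 h4 a
  unfold us
  calc c * (Real.log n ^ γ * Real.log (Real.log n) ^ a) ≤ Real.log n * (Real.log n ^ γ * Real.log (Real.log n) ^ a) :=
        mul_le_mul_of_nonneg_right hc (by positivity)
    _ ≤ Real.log n * (Real.log n ^ γ * Real.log n ^ a) :=
        mul_le_mul_of_nonneg_left (mul_le_mul_of_nonneg_left h5 (by positivity)) (by positivity)
    _ = Real.log n ^ (γ + a + 1) := by ring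

theorem hs_le {c : ℝ} (hc : 0 ≤ c) (γ a : ℕ) : ∀ᶠ n : ℕ in atTop, (hs c γ a n : ℝ) ≤ Real.log n ^ (γ + a + 1) := by
  filter_upwards [us_le c γ a, lll.eventually_ge_atTop 0, hl.eventually_ge_atTop 0] with n h1 h2 h3
  refine (Nat.floor_le ?_).trans h1
  unfold us
  positivity

theorem log_hs {c : ℝ} (hc : 0 < c) {γ : ℕ} (hγ : 1 ≤ γ) (a : ℕ) :
    Tendsto (fun n : ℕ => Real.log (hs c γ a n) / Real.log (Real.log n)) atTop (𝓝 γ) := by
  have h1 : Tendsto (fun n : ℕ => Real.log ((hs c γ a n : ℝ) / us c γ a n)) atTop (𝓝 0) := by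
    have := (Real.continuousAt_log one_ne_zero).tendsto.comp (hs_div_us hc hγ a)
    rw [Real.log_one] at this
    exact this
  have h2 : Tendsto (fun n : ℕ => Real.log (Real.log (Real.log (n : ℝ))) / Real.log (Real.log n)) atTop (𝓝 0) := by
    have h3 : Tendsto (fun x : ℝ => Real.log x / x) atTop (𝓝 0) := by
      have := Real.isLittleO_log_id_atTop.tendsto_div_nhds_zero
      exact this
    exact h3.comp lll
  have h3 : Tendsto (fun n : ℕ => (Real.log ((hs c γ a n : ℝ) / us c γ a n) + Real.log c) / Real.log (Real.log n) +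
      (γ : ℝ) + a * (Real.log (Real.log (Real.log (n : ℝ))) / Real.log (Real.log n))) atTop (𝓝 (0 + γ + a * 0)) :=
    (((h1.add_const (Real.log c)).div_atTop lll).add_const _).add (h2.const_mul (a : ℝ))
  rw [zero_add, mul_zero, add_zero] at h3
  refine h3.congr' ?_
  filter_upwards [lll.eventually_gt_atTop 0, hl.eventually_gt_atTop 0, (hs_top hc hγ a).eventually_gt_atTop 0]
    with n h4 h5 h6
  have h6' : (0 : ℝ) < hs c γ a n := by exact_mod_cast h6
  have hu : 0 < us c γ a n := by unfold us; positivity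
  rw [Real.log_div h6'.ne' hu.ne']
  have h7 : Real.log (us c γ a n) = Real.log c + (γ * Real.log (Real.log n) + a * Real.log (Real.log (Real.log n))) := by
    unfold us
    rw [Real.log_mul hc.ne' (by positivity), Real.log_mul (by positivity) (by positivity), Real.log_pow, Real.log_pow]
  rw [h7]
  field_simp
  ring

/-- The number of tests. -/
theorem hs_tests {c : ℝ} (hc : 0 < c) {γ : ℕ} (hγ : 1 ≤ γ) (a : ℕ) :
    Tendsto (fun n : ℕ => (hs c γ a n : ℝ) / Real.log (hs c γ a n) ^ a / ls c γ a n) atTop (𝓝 1) := by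
  have hγ0 : (0 : ℝ) < γ := by exact_mod_cast (show 0 < γ by omega)
  have h1 : Tendsto (fun n : ℕ => ((hs c γ a n : ℝ) / us c γ a n) *
      ((γ : ℝ) ^ a / (Real.log (hs c γ a n) / Real.log (Real.log n)) ^ a)) atTop (𝓝 (1 * ((γ : ℝ) ^ a / (γ : ℝ) ^ a))) :=
    (hs_div_us hc hγ a).mul ((tendsto_const_nhds (x := (γ : ℝ) ^ a)).div ((log_hs hc hγ a).pow a) (by positivity))
  rw [one_mul, div_self (by positivity)] at h1
  refine h1.congr' ?_
  filter_upwards [lll.eventually_gt_atTop 0, hl.eventually_gt_atTop 0, (hs_top hc hγ a).eventually_gt_atTop 1]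
    with n h4 h5 h6
  have h7 : 0 < Real.log (hs c γ a n : ℝ) := Real.log_pos (by exact_mod_cast h6)
  unfold us ls
  rw [div_pow]
  field_simp

variable {Ω : Type*} [MeasurableSpace Ω] {μ : Measure Ω} [IsProbabilityMeasure μ] {A : Ω → Set ℕ}
variable {W : ℕ → Set ℕ → Prop} {V : ℕ → Set ℕ → Prop} {Y : ℕ → ℕ} {Fl : ℕ → ℕ → Set ℕ → Prop}
  {X : ℕ → ℕ} {q : ℕ → ℕ → ℝ} {β : ℕ} {b : ℝ}

omit [IsProbabilityMeasure μ] in
theorem vr_ae (a : ℕ) (hW : ∀ᵐ ω ∂μ, Tendsto (fun k : ℕ => ((Ws W (A ω) k).card : ℝ) * Real.log k ^ a / k) atTop (𝓝 1))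
    (hV : ∀ᵐ ω ∂μ, ∀ᶠ k in atTop, V k (A ω)) {c : ℝ} (hc : 0 < c) {γ : ℕ} (hγ : 1 ≤ γ) {δ : ℝ} (hδ : 0 < δ) :
    ∀ᵐ ω ∂μ, ∀ᶠ n in atTop, VR V W (hs c γ a) (ls c γ a) δ n (A ω) := by
  filter_upwards [hW, hV] with ω h1 h2
  have h3 := (h1.comp (hs_top hc hγ a)).mul (hs_tests hc hγ a)
  rw [one_mul] at h3
  filter_upwards [(hs_top hc hγ a).eventually h2, h3.eventually_const_lt (show 1 - δ < 1 by linarith),
    h3.eventually_lt_const (show 1 < 1 + δ by linarith), hl.eventually_gt_atTop 0, (hs_top hc hγ a).eventually_gt_atTop 1]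
    with n h4 h5 h6 h7 h8
  have hγ0 : (0 : ℝ) < γ := by exact_mod_cast (show 0 < γ by omega)
  have hls : 0 < ls c γ a n := by unfold ls; positivity
  have h9 : 0 < Real.log (hs c γ a n : ℝ) := Real.log_pos (by exact_mod_cast h8)
  have h10 : (0 : ℝ) < hs c γ a n := by exact_mod_cast (show 0 < hs c γ a n by omega)
  have h11 : ((Ws W (A ω) (hs c γ a n)).card : ℝ) * Real.log (hs c γ a n) ^ a / hs c γ a n *
      ((hs c γ a n : ℝ) / Real.log (hs c γ a n) ^ a / ls c γ a n) = ((Ws W (A ω) (hs c γ a n)).card : ℝ) / ls c γ a n := by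
    field_simp
  simp only [Function.comp_apply] at h5 h6
  rw [h11, lt_div_iff₀ hls] at h5
  rw [h11, div_lt_iff₀ hls] at h6
  exact ⟨h4, h5.le, h6.le⟩

/-- The three laws. -/
theorem Row.law (R : Row W V Y Fl X q β b) (hA : IsCramer μ A) (a : ℕ)
    (hW : ∀ᵐ ω ∂μ, Tendsto (fun k : ℕ => ((Ws W (A ω) k).card : ℝ) * Real.log k ^ a / k) atTop (𝓝 1))
    (hV : ∀ᵐ ω ∂μ, ∀ᶠ k in atTop, V k (A ω)) :
    (∀ c : ℝ, b * (β + 1 : ℝ) ^ a < c → ∀ᵐ ω ∂μ, ∀ᶠ n in atTop, ¬ En W Fl (hs c (β + 1) a) n (A ω)) ∧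
    (∀ c : ℝ, 0 < c → c < b * (β + 1 : ℝ) ^ a → ∀ ε : ℝ, 0 < ε → ∀ᵐ ω ∂μ, ∀ᶠ N : ℕ in atTop,
      (N : ℝ) ^ (1 - c / (b * (β + 1 : ℝ) ^ a) - ε) ≤ Zc (range N) (En W Fl (hs c (β + 1) a)) (A ω) ∧
      Zc (range N) (En W Fl (hs c (β + 1) a)) (A ω) ≤ (N : ℝ) ^ (1 - c / (b * (β + 1 : ℝ) ^ a) + ε)) ∧
    (∀ t : ℝ, 0 < t → ∀ᵐ ω ∂μ, Tendsto (fun N : ℕ => Zc (range N) (En W Fl (hs t β a)) (A ω) / N) atTop
      (𝓝 (Real.exp (-(t / (b * (β : ℝ) ^ a)))))) := by
  have hb := R.hb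
  have hβ := R.hβ
  have hl0 : ∀ (c : ℝ) (γ : ℕ), 0 < c → ∀ᶠ n : ℕ in atTop, 0 ≤ ls c γ a n := by
    intro c γ hc
    filter_upwards [hl.eventually_ge_atTop 0] with n hn
    unfold ls
    positivity
  have hlC : ∀ (c : ℝ) (γ : ℕ), 0 < c → 1 ≤ γ → γ ≤ β + 1 → ∀ᶠ n : ℕ in atTop,
      ls c γ a n ≤ c / (γ : ℝ) ^ a * Real.log n ^ (β + 1) := by
    intro c γ hc hγ hγ'
    filter_upwards [hl.eventually_ge_atTop 1] with n hn
    have hγ0 : (0 : ℝ) < γ := by exact_mod_cast (show 0 < γ by omega)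
    unfold ls
    rw [mul_div_right_comm]
    exact mul_le_mul_of_nonneg_left (pow_le_pow_right₀ hn hγ') (by positivity)
  have hB : 0 < b * (β + 1 : ℝ) ^ a := by positivity
  have hτ : ∀ c : ℝ, ∀ᶠ n : ℕ in atTop, ls c (β + 1) a n / (b * Real.log n ^ β) =
      c / (b * (β + 1 : ℝ) ^ a) * Real.log n := by
    intro c
    filter_upwards [hl.eventually_gt_atTop 0] with n hn
    unfold ls
    push_cast
    rw [pow_succ]
    field_simp
  refine ⟨fun c hc => ?_, fun c hc0 hc ε hε => ?_, fun t ht => ?_⟩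
  · have hc0 : 0 < c := hB.trans hc
    refine R.never hA (hs_le hc0.le (β + 1) a) (hl0 c _ hc0) (hlC c (β + 1) hc0 (by omega) le_rfl)
      (fun δ hδ => vr_ae a hW hV hc0 (by omega) hδ) (c := c / (b * (β + 1 : ℝ) ^ a)) ?_ ?_
    · rw [one_lt_div hB]
      exact hc
    · filter_upwards [hτ c] with n hn
      rw [hn]
  · have hc1 : c / (b * (β + 1 : ℝ) ^ a) < 1 := by rw [div_lt_one hB]; exact hc
    have hc2 : 0 < c / (b * (β + 1 : ℝ) ^ a) := by positivity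
    obtain ⟨ε', hε'⟩ : ∃ ε' : ℝ, ε' = min ε ((1 - c / (b * (β + 1 : ℝ) ^ a)) / 2) := ⟨_, rfl⟩
    have h1 : 0 < ε' := by rw [hε']; exact lt_min hε (by linarith)
    have h2 : ε' ≤ ε := by rw [hε']; exact min_le_left _ _
    have h3 : ε' ≤ (1 - c / (b * (β + 1 : ℝ) ^ a)) / 2 := by rw [hε']; exact min_le_right _ _
    filter_upwards [R.count_le hA (hs_le hc0.le (β + 1) a) (hl0 c _ hc0) (hlC c (β + 1) hc0 (by omega) le_rfl)
      (fun δ hδ => vr_ae a hW hV hc0 (by omega) hδ) hc2 hc1 (by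
        filter_upwards [hτ c] with n hn
        rw [hn]) hε,
      R.count_ge hA (hs_le hc0.le (β + 1) a) (hs_mono hc0.le _ _) (hl0 c _ hc0) (hlC c (β + 1) hc0 (by omega) le_rfl)
      (fun δ hδ => vr_ae a hW hV hc0 (by omega) hδ) hc2.le hc1 (by
        filter_upwards [hτ c] with n hn
        rw [hn]) h1 (by linarith)] with ω h4 h5
    filter_upwards [h4, h5, eventually_ge_atTop 1] with N h6 h7 h8
    refine ⟨le_trans (Real.rpow_le_rpow_of_exponent_le (by exact_mod_cast h8) (by linarith)) h7, h6⟩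
  · have hβ0 : (0 : ℝ) < β := by exact_mod_cast (show 0 < β by omega)
    refine R.typical hA (hs_le ht.le β a) (hs_mono ht.le _ _) (hl0 t _ ht) (hlC t β ht hβ (by omega))
      (fun δ hδ => vr_ae a hW hV ht hβ hδ) ?_
    refine tendsto_const_nhds.congr' ?_
    filter_upwards [hl.eventually_gt_atTop 0] with n hn
    unfold ls
    field_simp

/-- The number of `n`, `1 ≤ n ≤ N`, with a property. -/
noncomputable def cntP (P : ℕ → Prop) (N : ℕ) : ℝ := ({n : ℕ | 1 ≤ n ∧ n ≤ N ∧ P n}.ncard : ℝ)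

theorem cntP_near {P : ℕ → Prop} {E : ℕ → Set ℕ → Prop} {S : Set ℕ} {n0 : ℕ} (h1 : ∀ n, n0 ≤ n → (P n ↔ E n S)) (N : ℕ) :
    |cntP P N - Zc (range N) E S| ≤ n0 + 1 := by
  classical
  have h2 : cntP P N = (((range (N + 1)).filter (fun n => 1 ≤ n ∧ P n)).card : ℝ) := by
    unfold cntP
    rw [← Set.ncard_coe_finset]
    congr 2
    ext n
    simp only [Set.mem_ofPred_eq, coe_filter, mem_range]
    constructor
    · rintro ⟨h3, h4, h5⟩
      exact ⟨by omega, h3, h5⟩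
    · rintro ⟨h3, h4, h5⟩
      exact ⟨h4, by omega, h5⟩
  rw [h2, abs_le]
  unfold Zc
  have h3 : (range (N + 1)).filter (fun n => 1 ≤ n ∧ P n) ⊆ (range N).filter (fun n => E n S) ∪ (range n0 ∪ {N}) := by
    intro n hn
    rw [mem_filter, mem_range] at hn
    rw [mem_union, mem_filter, mem_range, mem_union, mem_range, mem_singleton]
    by_cases h4 : n = N
    · exact Or.inr (Or.inr h4)
    · by_cases h5 : n < n0
      · exact Or.inr (Or.inl h5)
      · exact Or.inl ⟨by omega, (h1 n (by omega)).1 hn.2.2⟩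
  have h4 : (range N).filter (fun n => E n S) ⊆ (range (N + 1)).filter (fun n => 1 ≤ n ∧ P n) ∪ (range n0 ∪ {0}) := by
    intro n hn
    rw [mem_filter, mem_range] at hn
    rw [mem_union, mem_filter, mem_range, mem_union, mem_range, mem_singleton]
    by_cases h4 : n = 0
    · exact Or.inr (Or.inr h4)
    · by_cases h5 : n < n0
      · exact Or.inr (Or.inl h5)
      · exact Or.inl ⟨by omega, by omega, (h1 n (by omega)).2 hn.2⟩
  have h5 := (card_le_card h3).trans (card_union_le _ _)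
  have h6 := (card_le_card h4).trans (card_union_le _ _)
  have h7 : ∀ a : ℕ, (range n0 ∪ {a}).card ≤ n0 + 1 := fun a => by
    refine (card_union_le _ _).trans ?_
    rw [card_range, card_singleton]
  have h8 : ((((range (N + 1)).filter (fun n => 1 ≤ n ∧ P n)).card : ℕ) : ℝ) ≤
      (((range N).filter (fun n => E n S)).card : ℝ) + ((n0 : ℝ) + 1) := by
    exact_mod_cast h5.trans (by have := h7 N; omega)
  have h9 : ((((range N).filter (fun n => E n S)).card : ℕ) : ℝ) ≤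
      (((range (N + 1)).filter (fun n => 1 ≤ n ∧ P n)).card : ℝ) + ((n0 : ℝ) + 1) := by
    exact_mod_cast h6.trans (by have := h7 0; omega)
  constructor <;> linarith

/-- Exponents from bounds. -/
theorem expo_of_bounds {f : ℕ → ℝ} {s : ℝ} (hs : 0 < s) {g : ℕ → ℝ} {K : ℝ} (hg : ∀ N, |f N - g N| ≤ K)
    (h : ∀ k : ℕ, ∀ᶠ N : ℕ in atTop, (N : ℝ) ^ (s - 1 / ((k : ℝ) + 1)) ≤ g N ∧ g N ≤ (N : ℝ) ^ (s + 1 / ((k : ℝ) + 1))) :
    Tendsto (fun N : ℕ => Real.log (f N) / Real.log N) atTop (𝓝 s) := by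
  have hr : ∀ r : ℝ, 0 < r → Tendsto (fun i : ℕ => (i : ℝ) ^ r) atTop atTop := fun r hr =>
    (tendsto_rpow_atTop hr).comp tendsto_natCast_atTop_atTop
  have hK : 0 ≤ K := (abs_nonneg _).trans (hg 0)
  rw [Metric.tendsto_atTop]
  intro ε hε
  obtain ⟨k, hk⟩ := exists_nat_one_div_lt (show 0 < min (ε / 2) (s / 2) by exact lt_min (by linarith) (by linarith))
  obtain ⟨e, he⟩ : ∃ e : ℝ, e = 1 / ((k : ℝ) + 1) := ⟨_, rfl⟩
  have hk1 := h k
  rw [← he] at hk hk1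
  have he1 : e < ε / 2 := lt_of_lt_of_le hk (min_le_left _ _)
  have he2 : e < s / 2 := lt_of_lt_of_le hk (min_le_right _ _)
  have he0 : 0 < e := by rw [he]; positivity
  have hev : ∀ᶠ N : ℕ in atTop, |Real.log (f N) / Real.log N - s| < ε := by
    filter_upwards [hk1, hl.eventually_ge_atTop 1, (hr (s - e) (by linarith)).eventually_ge_atTop (2 * K),
      (hl.const_mul_atTop (show 0 < ε / 4 by linarith)).eventually_ge_atTop (Real.log 2), eventually_ge_atTop 1]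
      with N h1 h2 h3 h4 h5
    have hN0 : (0 : ℝ) < N := by exact_mod_cast h5
    have h6 := abs_le.1 (hg N)
    have hp : 0 < (N : ℝ) ^ (s - e) := Real.rpow_pos_of_pos hN0 _
    have hpp : (N : ℝ) ^ (s - e) ≤ (N : ℝ) ^ (s + e) :=
      Real.rpow_le_rpow_of_exponent_le (by exact_mod_cast h5) (by linarith)
    have h7 : (N : ℝ) ^ (s - e) / 2 ≤ f N := by linarith [h6.1, h1.1]
    have h8 : f N ≤ 2 * (N : ℝ) ^ (s + e) := by linarith [h6.2, h1.2]
    have hf0 : 0 < f N := by linarith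
    have h9 : (s - e) * Real.log N - Real.log 2 ≤ Real.log (f N) := by
      have h10 := Real.log_le_log (by positivity) h7
      rw [Real.log_div hp.ne' (by norm_num), Real.log_rpow hN0] at h10
      exact h10
    have h10 : Real.log (f N) ≤ (s + e) * Real.log N + Real.log 2 := by
      have h11 := Real.log_le_log hf0 h8
      rw [Real.log_mul (by norm_num) (Real.rpow_pos_of_pos hN0 _).ne', Real.log_rpow hN0] at h11
      linarith
    have hL : 0 < Real.log (N : ℝ) := by linarith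
    rw [abs_lt]
    constructor
    · rw [lt_sub_iff_add_lt, lt_div_iff₀ hL]
      nlinarith
    · rw [sub_lt_iff_lt_add, div_lt_iff₀ hL]
      nlinarith
  obtain ⟨N0, hN0⟩ := eventually_atTop.1 hev
  exact ⟨N0, fun N hN => by rw [Real.dist_eq]; exact hN0 N hN⟩

theorem ratio_of_near {f g : ℕ → ℝ} {K κ : ℝ} (hg : ∀ N, |f N - g N| ≤ K)
    (h : Tendsto (fun N : ℕ => g N / N) atTop (𝓝 κ)) : Tendsto (fun N : ℕ => f N / N) atTop (𝓝 κ) := by
  have h1 : Tendsto (fun N : ℕ => (f N - g N) / N) atTop (𝓝 0) := by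
    have h2 : Tendsto (fun N : ℕ => K / (N : ℝ)) atTop (𝓝 0) := tendsto_const_nhds.div_atTop tendsto_natCast_atTop_atTop
    refine squeeze_zero_norm (fun N => ?_) h2
    rw [Real.norm_eq_abs, abs_div, Nat.abs_cast]
    exact div_le_div_of_nonneg_right (hg N) (Nat.cast_nonneg _)
  have h3 := h.add h1
  rw [add_zero] at h3
  refine h3.congr (fun N => ?_)
  ring

/-- No solution up to `y`. -/
def NoSol (Sol : ℕ → ℕ → Prop) (n : ℕ) (y : ℝ) : Prop := ∀ j : ℕ, 1 ≤ j → (j : ℝ) ≤ y → ¬ Sol n j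

/-- The laws for the solutions. -/
theorem Row.final (R : Row W V Y Fl X q β b) (hA : IsCramer μ A) (a : ℕ)
    (hW : ∀ᵐ ω ∂μ, Tendsto (fun k : ℕ => ((Ws W (A ω) k).card : ℝ) * Real.log k ^ a / k) atTop (𝓝 1))
    (hV : ∀ᵐ ω ∂μ, ∀ᶠ k in atTop, V k (A ω)) (Sol : Set ℕ → ℕ → ℕ → Prop)
    (hSol : ∀ᵐ ω ∂μ, ∀ M : ℕ, ∀ᶠ n : ℕ in atTop, ∀ j : ℕ, 1 ≤ j → (j : ℝ) ≤ Real.log n ^ M →
      (Sol (A ω) n j ↔ (W j (A ω) ∧ ¬ Fl n j (A ω)))) :
    (∀ c : ℝ, b * (β + 1 : ℝ) ^ a < c → ∀ᵐ ω ∂μ, ∀ᶠ n : ℕ in atTop,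
      ¬ NoSol (Sol (A ω)) n (c * (Real.log n ^ (β + 1) * Real.log (Real.log n) ^ a))) ∧
    (∀ c : ℝ, 0 < c → c < b * (β + 1 : ℝ) ^ a → ∀ᵐ ω ∂μ, Tendsto (fun N : ℕ =>
      Real.log (cntP (fun n => NoSol (Sol (A ω)) n (c * (Real.log n ^ (β + 1) * Real.log (Real.log n) ^ a))) N) /
        Real.log N) atTop (𝓝 (1 - c / (b * (β + 1 : ℝ) ^ a)))) ∧
    (∀ t : ℝ, 0 < t → ∀ᵐ ω ∂μ, Tendsto (fun N : ℕ =>
      cntP (fun n => NoSol (Sol (A ω)) n (t * (Real.log n ^ β * Real.log (Real.log n) ^ a))) N / N) atTop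
      (𝓝 (Real.exp (-(t / (b * (β : ℝ) ^ a)))))) := by
  obtain ⟨h1, h2, h3⟩ := R.law hA a hW hV
  have hB : 0 < b * (β + 1 : ℝ) ^ a := by have := R.hb; positivity
  have key : ∀ c : ℝ, 0 < c → ∀ γ : ℕ, ∀ᵐ ω ∂μ, ∀ᶠ n : ℕ in atTop,
      (NoSol (Sol (A ω)) n (c * (Real.log n ^ γ * Real.log (Real.log n) ^ a)) ↔ En W Fl (hs c γ a) n (A ω)) := by
    intro c hc γ
    filter_upwards [hSol] with ω h4
    filter_upwards [h4 (γ + a + 1), hs_le hc.le γ a] with n h5 h6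
    unfold NoSol En
    constructor
    · intro h7 j hj1 hj2 hj3
      by_contra hcon
      have h8 : (j : ℝ) ≤ c * (Real.log n ^ γ * Real.log (Real.log n) ^ a) := by
        unfold hs us at hj2
        exact (Nat.le_floor_iff' (by omega)).1 hj2
      have h9 : (j : ℝ) ≤ Real.log n ^ (γ + a + 1) := le_trans (by exact_mod_cast hj2) h6
      exact h7 j hj1 h8 ((h5 j hj1 h9).2 ⟨hj3, hcon⟩)
    · intro h7 j hj1 hj2 hj3
      have h8 : j ≤ hs c γ a n := by
        unfold hs us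
        exact (Nat.le_floor_iff' (by omega)).2 hj2
      have h9 : (j : ℝ) ≤ Real.log n ^ (γ + a + 1) := le_trans (by exact_mod_cast h8) h6
      obtain ⟨h10, h11⟩ := (h5 j hj1 h9).1 hj3
      exact h11 (h7 j hj1 h8 h10)
  refine ⟨fun c hc => ?_, fun c hc0 hc => ?_, fun t ht => ?_⟩
  · filter_upwards [h1 c hc, key c (hB.trans hc) (β + 1)] with ω h4 h5
    filter_upwards [h4, h5] with n h6 h7 h8
    exact h6 (h7.1 h8)
  · have h4 : ∀ᵐ ω ∂μ, ∀ k : ℕ, ∀ᶠ N : ℕ in atTop,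
        (N : ℝ) ^ (1 - c / (b * (β + 1 : ℝ) ^ a) - 1 / ((k : ℝ) + 1)) ≤ Zc (range N) (En W Fl (hs c (β + 1) a)) (A ω) ∧
        Zc (range N) (En W Fl (hs c (β + 1) a)) (A ω) ≤ (N : ℝ) ^ (1 - c / (b * (β + 1 : ℝ) ^ a) + 1 / ((k : ℝ) + 1)) := by
      rw [ae_all_iff]
      intro k
      exact h2 c hc0 hc _ (by positivity)
    filter_upwards [h4, key c hc0 (β + 1)] with ω h5 h6
    obtain ⟨n0, hn0⟩ := eventually_atTop.1 h6
    refine expo_of_bounds ?_ (fun N => cntP_near hn0 N) h5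
    have : c / (b * (β + 1 : ℝ) ^ a) < 1 := by rw [div_lt_one hB]; exact hc
    linarith
  · filter_upwards [h3 t ht, key t ht β] with ω h5 h6
    obtain ⟨n0, hn0⟩ := eventually_atTop.1 h6
    exact ratio_of_near (fun N => cntP_near hn0 N) h5

end Pool.Agent.Q197.CI
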