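import Pool.Agent.Q197.CI.AsN

/-!
# Tests at fixed places
-/

set_option autoImplicit false

namespace Pool.Agent.Q197.CI

open Finset Filter MeasureTheory Pool.Agent.Q120.ET Pool.Agent.Q120.MF
open scoped Topology

/-- `F` depends only on the elements in `P`. -/
def DepOn {α : Type*} (P : Set ℕ) (F : Set ℕ → α) : Prop := ∀ S S' : Set ℕ, (∀ j ∈ P, (j ∈ S ↔ j ∈ S')) → F S = F S'

theorem depOn_insert {α : Type*} {P : Set ℕ} {F : Set ℕ → α} (hF : DepOn P F) {x : ℕ} (hx : x ∉ P) (S : Set ℕ) :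
    F (insert x S) = F S := by
  refine hF _ _ (fun j hj => ?_)
  rw [Set.mem_insert_iff]
  constructor
  · rintro (h | h)
    · rw [h] at hj
      exact absurd hj hx
    · exact h
  · exact fun h => Or.inr h

theorem ex_base {y x : ℕ} (T0 : Finset ℕ) (h : x ≤ y) (F : Set ℕ → ℝ) : Ex y T0 x F = F (T0 : Set ℕ) := by
  unfold Ex
  rw [Ico_eq_empty (by omega), powerset_empty, sum_singleton, union_empty]
  simp [cramerOn]

/-- Independence. -/
theorem ex_mul (y : ℕ) (T0 : Finset ℕ) (x : ℕ) {P Q : Set ℕ} (hPQ : Disjoint P Q) {F G : Set ℕ → ℝ} (hF : DepOn P F)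
    (hG : DepOn Q G) : Ex y T0 x (fun S => F S * G S) = Ex y T0 x F * Ex y T0 x G := by
  induction x generalizing F G with
  | zero => rw [ex_base T0 (by omega), ex_base T0 (by omega), ex_base T0 (by omega)]
  | succ x ih =>
    rcases Nat.lt_or_ge x y with h | h
    · rw [ex_base T0 (by omega), ex_base T0 (by omega), ex_base T0 (by omega)]
    · by_cases hx : x ∈ P
      · have hxQ : x ∉ Q := fun h' => (Set.disjoint_left.1 hPQ) hx h'
        have hF' : DepOn P (fun S => pb x * F (insert x S) + (1 - pb x) * F S) := by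
          intro S S' hS
          have e1 : F S = F S' := hF S S' hS
          have e2 : F (insert x S) = F (insert x S') := hF _ _ (fun j hj => by
            rw [Set.mem_insert_iff, Set.mem_insert_iff, hS j hj])
          show pb x * F (insert x S) + (1 - pb x) * F S = pb x * F (insert x S') + (1 - pb x) * F S'
          rw [e1, e2]
        have e3 := ih hF' hG
        rw [ex_succ h, ex_succ h, ex_succ h]
        have e4 : (fun S => pb x * G (insert x S) + (1 - pb x) * G S) = G := by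
          funext S
          rw [depOn_insert hG hxQ S]
          ring
        have e5 : (fun S => pb x * (F (insert x S) * G (insert x S)) + (1 - pb x) * (F S * G S)) =
            fun S => (pb x * F (insert x S) + (1 - pb x) * F S) * G S := by
          funext S
          rw [depOn_insert hG hxQ S]
          ring
        rw [e4, e5]
        exact e3
      · have hG' : DepOn (Q ∪ {x}) (fun S => pb x * G (insert x S) + (1 - pb x) * G S) := by
          intro S S' hS
          have hS' : ∀ j ∈ Q, (j ∈ S ↔ j ∈ S') := fun j hj => hS j (Or.inl hj)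
          have e1 : G S = G S' := hG S S' hS'
          have e2 : G (insert x S) = G (insert x S') := hG _ _ (fun j hj => by
            rw [Set.mem_insert_iff, Set.mem_insert_iff, hS' j hj])
          show pb x * G (insert x S) + (1 - pb x) * G S = pb x * G (insert x S') + (1 - pb x) * G S'
          rw [e1, e2]
        have hG'' : DepOn Q (fun S => pb x * G (insert x S) + (1 - pb x) * G S) := by
          intro S S' hS
          have e1 : G S = G S' := hG S S' hS
          have e2 : G (insert x S) = G (insert x S') := hG _ _ (fun j hj => by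
            rw [Set.mem_insert_iff, Set.mem_insert_iff, hS j hj])
          show pb x * G (insert x S) + (1 - pb x) * G S = pb x * G (insert x S') + (1 - pb x) * G S'
          rw [e1, e2]
        have e3 := ih hF hG''
        rw [ex_succ h, ex_succ h, ex_succ h]
        have e4 : (fun S => pb x * F (insert x S) + (1 - pb x) * F S) = F := by
          funext S
          rw [depOn_insert hF hx S]
          ring
        have e5 : (fun S => pb x * (F (insert x S) * G (insert x S)) + (1 - pb x) * (F S * G S)) =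
            fun S => F S * (pb x * G (insert x S) + (1 - pb x) * G S) := by
          funext S
          rw [depOn_insert hF hx S]
          ring
        rw [e4, e5]
        exact e3

theorem pr_and_mul (y : ℕ) (T0 : Finset ℕ) (x : ℕ) {P Q : Set ℕ} (hPQ : Disjoint P Q) {F G : Set ℕ → Prop}
    (hF : DepOn P F) (hG : DepOn Q G) : Pr y T0 x (fun S => F S ∧ G S) = Pr y T0 x F * Pr y T0 x G := by
  classical
  rw [pr_def, pr_def, pr_def]
  have h1 : DepOn P (fun S => if F S then (1 : ℝ) else 0) := by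
    intro S S' hS
    have e : F S = F S' := hF S S' hS
    show (if F S then (1 : ℝ) else 0) = if F S' then (1 : ℝ) else 0
    simp only [e]
  have h2 : DepOn Q (fun S => if G S then (1 : ℝ) else 0) := by
    intro S S' hS
    have e : G S = G S' := hG S S' hS
    show (if G S then (1 : ℝ) else 0) = if G S' then (1 : ℝ) else 0
    simp only [e]
  rw [← ex_mul y T0 x hPQ h1 h2]
  refine ex_congr (fun T _ => ?_)
  generalize ((T0 ∪ T : Finset ℕ) : Set ℕ) = S
  by_cases h3 : F S <;> by_cases h4 : G S <;> simp [h3, h4]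

theorem pr_mem {y x a : ℕ} {T0 : Finset ℕ} (hT0 : ∀ j ∈ T0, j < y) (hya : y ≤ a) (hax : a < x) :
    Pr y T0 x (fun S => a ∈ S) = pb a := by
  classical
  have hdep : Dep (a + 1) (fun S : Set ℕ => if a ∈ S then (1 : ℝ) else 0) ∨ a < 3 := by
    by_cases h : a < 3
    · exact Or.inr h
    · left
      intro S S' hS
      have := hS a (by omega) (by omega)
      simp only [this]
  rw [pr_def]
  have key : ∀ x, a < x → Ex y T0 x (fun S : Set ℕ => if a ∈ S then (1 : ℝ) else 0) = pb a := by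
    intro x hx
    induction x, (show a + 1 ≤ x from hx) using Nat.le_induction with
    | base =>
      rw [ex_succ hya]
      refine Eq.trans (ex_congr (fun T hT => ?_)) (ex_const y T0 a (pb a))
      have h1 : a ∉ ((T0 ∪ T : Finset ℕ) : Set ℕ) := by
        rw [mem_coe, mem_union]
        rintro (h2 | h2)
        · have := hT0 a h2
          omega
        · have := mem_Ico.1 (hT h2)
          omega
      rw [if_pos (Set.mem_insert a _), if_neg h1]
      ring
    | succ z hz ih =>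
      rw [ex_succ (by omega)]
      refine Eq.trans (ex_congr (fun T _ => ?_)) (ih (by omega))
      have h1 : (a ∈ insert z ((T0 ∪ T : Finset ℕ) : Set ℕ)) ↔ a ∈ ((T0 ∪ T : Finset ℕ) : Set ℕ) := by
        rw [Set.mem_insert_iff]
        constructor
        · rintro (h2 | h2)
          · omega
          · exact h2
        · exact fun h2 => Or.inr h2
      simp only [h1]
      split_ifs <;> ring
  exact key x hax

theorem pr_true (y : ℕ) (T0 : Finset ℕ) (x : ℕ) {Q : Set ℕ → Prop} (hQ : ∀ S, Q S) : Pr y T0 x Q = 1 := by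
  classical
  rw [pr_def]
  refine Eq.trans (ex_congr (fun T _ => ?_)) (ex_const y T0 x 1)
  rw [if_pos (hQ _)]

theorem pr_not (y : ℕ) (T0 : Finset ℕ) (x : ℕ) (Q : Set ℕ → Prop) : Pr y T0 x (fun S => ¬ Q S) = 1 - Pr y T0 x Q := by
  classical
  rw [pr_def, pr_def, eq_sub_iff_add_eq, ← ex_add]
  refine Eq.trans (ex_congr (fun T _ => ?_)) (ex_const y T0 x 1)
  generalize ((T0 ∪ T : Finset ℕ) : Set ℕ) = S
  by_cases h : Q S <;> simp [h]

theorem depOn_all (P : Finset ℕ) : DepOn (P : Set ℕ) (fun S : Set ℕ => ∀ a ∈ P, a ∈ S) := by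
  intro S S' hS
  apply propext
  constructor
  · exact fun h a ha => (hS a ha).1 (h a ha)
  · exact fun h a ha => (hS a ha).2 (h a ha)

theorem pr_all_mem {y x : ℕ} {T0 : Finset ℕ} (hT0 : ∀ j ∈ T0, j < y) (P : Finset ℕ)
    (hP : ∀ a ∈ P, y ≤ a ∧ a < x) : Pr y T0 x (fun S => ∀ a ∈ P, a ∈ S) = ∏ a ∈ P, pb a := by
  classical
  induction P using Finset.induction_on with
  | empty =>
    rw [prod_empty]
    exact pr_true y T0 x (fun S a ha => by simp at ha)
  | insert a P ha ih =>
    rw [prod_insert ha, ← ih (fun b hb => hP b (mem_insert_of_mem hb)),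
      ← pr_mem hT0 (hP a (mem_insert_self a P)).1 (hP a (mem_insert_self a P)).2]
    have h1 : DepOn ({a} : Set ℕ) (fun S : Set ℕ => a ∈ S) := by
      intro S S' hS
      exact propext (hS a rfl)
    have h2 : Disjoint ({a} : Set ℕ) (P : Set ℕ) := by
      rw [Set.disjoint_left]
      intro b hb hb'
      rw [Set.mem_singleton_iff] at hb
      rw [hb] at hb'
      exact ha (mem_coe.1 hb')
    rw [← pr_and_mul y T0 x h2 h1 (depOn_all P)]
    congr 1
    funext S
    apply propext
    constructor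
    · intro h3
      exact ⟨h3 a (mem_insert_self a P), fun b hb => h3 b (mem_insert_of_mem hb)⟩
    · rintro ⟨h3, h4⟩ b hb
      rcases mem_insert.1 hb with rfl | h5
      · exact h3
      · exact h4 b h5

/-- The test of `n` at the places `P n j` fails. -/
def FlF (P : ℕ → ℕ → Finset ℕ) (n j : ℕ) (S : Set ℕ) : Prop := ¬ ∀ a ∈ P n j, a ∈ S

noncomputable def qF (P : ℕ → ℕ → Finset ℕ) (n j : ℕ) : ℝ := ∏ a ∈ P n j, pb a

theorem depOn_flF (P : ℕ → ℕ → Finset ℕ) (n j : ℕ) : DepOn ((P n j : Finset ℕ) : Set ℕ) (FlF P n j) := by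
  intro S S' hS
  have h := depOn_all (P n j) S S' hS
  unfold FlF
  exact congrArg Not h

theorem depOn_flFs (P : ℕ → ℕ → Finset ℕ) (n : ℕ) (U : Finset ℕ) :
    DepOn (⋃ j ∈ U, ((P n j : Finset ℕ) : Set ℕ)) (fun S => ∀ j ∈ U, FlF P n j S) := by
  intro S S' hS
  apply propext
  have key : ∀ j ∈ U, FlF P n j S = FlF P n j S' := fun j hj =>
    depOn_flF P n j S S' (fun a ha => hS a (Set.mem_biUnion hj ha))
  constructor
  · exact fun h j hj => key j hj ▸ h j hj
  · exact fun h j hj => (key j hj).symm ▸ h j hj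

/-- The probability that all tests fail. -/
theorem pr_tests {y x : ℕ} {T0 : Finset ℕ} (hT0 : ∀ j ∈ T0, j < y) (P : ℕ → ℕ → Finset ℕ) (n : ℕ) (U : Finset ℕ)
    (hP : ∀ j ∈ U, ∀ a ∈ P n j, y ≤ a ∧ a < x) (hd : ∀ j ∈ U, ∀ j' ∈ U, j ≠ j' → Disjoint (P n j) (P n j')) :
    Pr y T0 x (fun S => ∀ j ∈ U, FlF P n j S) = ∏ j ∈ U, (1 - qF P n j) := by
  classical
  induction U using Finset.induction_on with
  | empty =>
    rw [prod_empty]
    exact pr_true y T0 x (fun S a ha => by simp at ha)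
  | insert j U hj ih =>
    rw [prod_insert hj, ← ih (fun b hb => hP b (mem_insert_of_mem hb))
      (fun b hb b' hb' => hd b (mem_insert_of_mem hb) b' (mem_insert_of_mem hb'))]
    have h0 : 1 - qF P n j = Pr y T0 x (FlF P n j) := by
      unfold qF FlF
      rw [← pr_all_mem hT0 (P n j) (hP j (mem_insert_self j U)), pr_not]
    have h2 : Disjoint ((P n j : Finset ℕ) : Set ℕ) (⋃ i ∈ U, ((P n i : Finset ℕ) : Set ℕ)) := by
      rw [Set.disjoint_left]
      intro a ha ha'
      simp only [Set.mem_iUnion, exists_prop] at ha'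
      obtain ⟨i, hi, hi'⟩ := ha'
      have h3 := hd j (mem_insert_self j U) i (mem_insert_of_mem hi) (fun h => hj (h ▸ hi))
      exact (disjoint_left.1 h3) (mem_coe.1 ha) (mem_coe.1 hi')
    rw [h0, ← pr_and_mul y T0 x h2 (depOn_flF P n j) (depOn_flFs P n U)]
    congr 1
    funext S
    apply propext
    constructor
    · intro h3
      exact ⟨h3 j (mem_insert_self j U), fun b hb => h3 b (mem_insert_of_mem hb)⟩
    · rintro ⟨h3, h4⟩ b hb
      rcases mem_insert.1 hb with rfl | h5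
      · exact h3
      · exact h4 b h5

/-- Fixed places. -/
structure Fix (P : ℕ → ℕ → Finset ℕ) (β : ℕ) (b : ℝ) : Prop where
  hb : 0 < b
  hβ : 1 ≤ β
  sub : ∀ M : ℕ, ∀ᶠ n : ℕ in atTop, ∀ j : ℕ, 1 ≤ j → (j : ℝ) ≤ Real.log n ^ M → ∀ a ∈ P n j, n ≤ a ∧ a < 6 * n + 6
  disj : ∀ M : ℕ, ∀ᶠ n : ℕ in atTop, ∀ j j' : ℕ, 1 ≤ j → (j : ℝ) ≤ Real.log n ^ M → 1 ≤ j' → (j' : ℝ) ≤ Real.log n ^ M →
    j ≠ j' → Disjoint (P n j) (P n j')
  sep : ∀ M : ℕ, ∀ᶠ n : ℕ in atTop, ∀ m : ℕ, (n : ℝ) + Real.log n ^ M < m →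
    ∀ j j' : ℕ, 1 ≤ j → (j : ℝ) ≤ Real.log n ^ M → 1 ≤ j' → (j' : ℝ) ≤ Real.log n ^ M → Disjoint (P n j) (P m j')
  hq : ∀ M : ℕ, ∀ δ : ℝ, 0 < δ → ∀ᶠ n : ℕ in atTop, ∀ j : ℕ, 1 ≤ j → (j : ℝ) ≤ Real.log n ^ M →
    |qF P n j * (b * Real.log n ^ β) - 1| ≤ δ

theorem rowF {P : ℕ → ℕ → Finset ℕ} {β : ℕ} {b : ℝ} (hP : Fix P β b) {W : ℕ → Set ℕ → Prop} {V : ℕ → Set ℕ → Prop} {Y : ℕ → ℕ}
    (depV : ∀ h, Dep (Y h) (V h))
    (depW : ∀ h (S S' : Set ℕ), V h S → (∀ j, 3 ≤ j → j < Y h → (j ∈ S ↔ j ∈ S')) → ∀ j, 1 ≤ j → j ≤ h → (W j S ↔ W j S'))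
    (Y3 : ∀ h, 3 ≤ Y h) (Ymono : Monotone Y) (Ypol : ∃ D : ℕ, ∀ h : ℕ, (Y h : ℝ) ≤ ((h : ℝ) + 2) ^ D) :
    Row W V Y (FlF P) (fun n => 6 * n + 6) (qF P) β b where
  hb := hP.hb
  hβ := hP.hβ
  depV := depV
  depW := depW
  Y3 := Y3
  Ymono := Ymono
  Ypol := Ypol
  Xmono := fun a b hab => by
    show 6 * a + 6 ≤ 6 * b + 6
    omega
  Xge := fun n => by
    show n ≤ 6 * n + 6
    omega
  depF := fun M => by
    filter_upwards [hP.sub M, eventually_ge_atTop 3] with n h1 h2 j hj1 hj2 S S' hS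
    refine depOn_flF P n j S S' (fun a ha => ?_)
    have h3 := h1 j hj1 hj2 a (mem_coe.1 ha)
    exact hS a (by omega) h3.2
  hq := hP.hq
  one := fun C hC M => by
    filter_upwards [hP.sub M, hP.disj M, pow_log_le M, eventually_ge_atTop 3, hP.hq M 1 one_pos,
      (((tendsto_pow_atTop (show β ≠ 0 by have := hP.hβ; omega)).comp hl).const_mul_atTop hP.hb).eventually_ge_atTop 2]
      with n h1 h2 h3 h4 h5 h6 y hy hyn T0 hT0 U hU hUc x hx
    have hyn' : y ≤ n := by exact_mod_cast hyn.trans h3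
    have h7 := pr_tests (y := y) (x := x) hT0 P n U (fun j hj a ha => by
      have := h1 j (hU j hj).1 (hU j hj).2 a ha
      have hx' : 6 * n + 6 ≤ x := hx
      omega) (fun j hj j' hj' hne => h2 j j' (hU j hj).1 (hU j hj).2 (hU j' hj').1 (hU j' hj').2 hne)
    rw [h7]
    have hq0 : 0 ≤ ∏ j ∈ U, (1 - qF P n j) := prod_nonneg (fun j hj => by
      have h8 := h5 j (hU j hj).1 (hU j hj).2
      rw [abs_le] at h8
      simp only [Function.comp_apply] at h6
      have h9 : qF P n j * (b * Real.log n ^ β) ≤ 2 := by linarith [h8.2]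
      have h10 : qF P n j ≤ 1 := by
        by_contra hcon
        push Not at hcon
        nlinarith
      linarith)
    have hn0 : 0 ≤ (n : ℝ) ^ (-(1 / 5) : ℝ) := Real.rpow_nonneg (Nat.cast_nonneg _) _
    constructor <;> nlinarith
  two := fun C hC M ρ _ => by
    obtain ⟨n2, hn2⟩ := eventually_atTop.1 ((hP.sub M).and ((hP.disj M).and ((pow_log_le M).and ((hP.hq M 1 one_pos).and
      ((((tendsto_pow_atTop (show β ≠ 0 by have := hP.hβ; omega)).comp hl).const_mul_atTop hP.hb).eventually_ge_atTop 2)))))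
    filter_upwards [hP.sep M, eventually_ge_atTop (max n2 3), hl.eventually_ge_atTop 1]
      with n h2 hn hl1 m hm1 hm2 y hy hyn T0 hT0 U U' hU hU' hUc hUc' x hx
    have hnm : n ≤ m := by
      have : (n : ℝ) ≤ m := by
        have : 0 ≤ Real.log (n : ℝ) ^ M := by positivity
        linarith
      exact_mod_cast this
    obtain ⟨hs1, hd1, hp1, hq1, hb1⟩ := hn2 n (by omega)
    obtain ⟨hs2, hd2, hp2, hq2, hb2⟩ := hn2 m (by omega)
    have hyn' : y ≤ n := by exact_mod_cast hyn.trans hp1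
    have hlog : Real.log (n : ℝ) ^ M ≤ Real.log m ^ M :=
      pow_le_pow_left₀ (by linarith) (Real.log_le_log (by exact_mod_cast (show 0 < n by omega)) (by exact_mod_cast hnm)) M
    have hU2 : ∀ j ∈ U', 1 ≤ j ∧ (j : ℝ) ≤ Real.log m ^ M := fun j hj => ⟨(hU' j hj).1, (hU' j hj).2.trans hlog⟩
    have hx' : 6 * m + 6 ≤ x := hx
    have e1 := pr_tests (y := y) (x := x) hT0 P n U (fun j hj a ha => by
      have := hs1 j (hU j hj).1 (hU j hj).2 a ha
      omega) (fun j hj j' hj' hne => hd1 j j' (hU j hj).1 (hU j hj).2 (hU j' hj').1 (hU j' hj').2 hne)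
    have e2 := pr_tests (y := y) (x := x) hT0 P m U' (fun j hj a ha => by
      have := hs2 j (hU2 j hj).1 (hU2 j hj).2 a ha
      omega) (fun j hj j' hj' hne => hd2 j j' (hU2 j hj).1 (hU2 j hj).2 (hU2 j' hj').1 (hU2 j' hj').2 hne)
    have hdis : Disjoint (⋃ j ∈ U, ((P n j : Finset ℕ) : Set ℕ)) (⋃ j ∈ U', ((P m j : Finset ℕ) : Set ℕ)) := by
      rw [Set.disjoint_left]
      intro a ha ha'
      simp only [Set.mem_iUnion, exists_prop] at ha ha'
      obtain ⟨i, hi, hi'⟩ := ha
      obtain ⟨j, hj, hj'⟩ := ha'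
      exact (disjoint_left.1 (h2 m hm1 i j (hU i hi).1 (hU i hi).2 (hU' j hj).1 (hU' j hj).2)) (mem_coe.1 hi') (mem_coe.1 hj')
    rw [pr_and_mul y T0 x hdis (depOn_flFs P n U) (depOn_flFs P m U'), e1, e2]
    have hq0 : ∀ (k : ℕ) (U : Finset ℕ), (∀ j ∈ U, 1 ≤ j ∧ (j : ℝ) ≤ Real.log k ^ M) →
        (∀ j : ℕ, 1 ≤ j → (j : ℝ) ≤ Real.log k ^ M → |qF P k j * (b * Real.log k ^ β) - 1| ≤ 1) →
        2 ≤ b * Real.log k ^ β → 0 ≤ ∏ j ∈ U, (1 - qF P k j) := by
      intro k U hU hq hb
      refine prod_nonneg (fun j hj => ?_)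
      have h8 := hq j (hU j hj).1 (hU j hj).2
      rw [abs_le] at h8
      have h9 : qF P k j * (b * Real.log k ^ β) ≤ 2 := by linarith [h8.2]
      have h10 : qF P k j ≤ 1 := by
        by_contra hcon
        push Not at hcon
        nlinarith
      linarith
    have hn0 : 0 ≤ (n : ℝ) ^ (-(1 / 5) : ℝ) := Real.rpow_nonneg (Nat.cast_nonneg _) _
    have h8 := mul_nonneg (hq0 n U hU hq1 hb1) (hq0 m U' hU2 hq2 hb2)
    nlinarith

end Pool.Agent.Q197.CI
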