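import Pool.Agent.Q197.CI.RowI

/-!
# The tested numbers `a + s` and `a ^ 2 - 2`, the indices `j n` and `n - j`
-/

set_option autoImplicit false

namespace Pool.Agent.Q197.CI

open Finset Filter MeasureTheory Pool.Agent.Q120.ET Pool.Agent.Q120.MF
open scoped Topology

theorem fp_lt_hi : ∀ᶠ m : ℕ in atTop, lo m ≤ fp m ∧ fp m < hi m := by
  filter_upwards [pos_bounds, eventually_ge_atTop 1] with m h1 h2
  have h3 : m ≤ fp m := le_fp m
  have h4 : (0 : ℝ) < fp m := by exact_mod_cast (show 0 < fp m by omega)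
  refine ⟨by exact_mod_cast h1.2.2.2.2.2.2.1, ?_⟩
  unfold hi
  rw [Nat.lt_ceil]
  nlinarith [h1.1]

theorem log_add_sub (s : ℕ) : Tendsto (fun m : ℕ => Real.log ((fp m + s : ℕ) : ℝ) - Real.log (fp m)) atTop (𝓝 0) := by
  have h1 : Tendsto (fun m : ℕ => (s : ℝ) / fp m) atTop (𝓝 0) :=
    tendsto_const_nhds.div_atTop (tendsto_natCast_atTop_atTop.comp fp_top)
  have h2 : Tendsto (fun m : ℕ => Real.log (1 + (s : ℝ) / fp m)) atTop (𝓝 0) := by
    have := (Real.continuousAt_log (show (1 + 0 : ℝ) ≠ 0 by norm_num)).tendsto.comp (h1.const_add 1)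
    simp only [add_zero, Real.log_one] at this
    exact this
  refine h2.congr' ?_
  filter_upwards [fp_top.eventually_ge_atTop 1] with m hm
  have hm0 : (0 : ℝ) < fp m := by exact_mod_cast (show 0 < fp m by omega)
  rw [← Real.log_div (by push_cast; positivity) hm0.ne']
  congr 1
  push_cast
  field_simp

theorem tgt_add {s : ℕ} (hs : 1 ≤ s) : Tgt (fun a => a + s) 1 where
  kpos := one_pos
  mono := fun a b hab => by
    show a + s < b + s
    omega
  gt := fun a _ => by
    show a < a + s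
    omega
  le := ⟨s, fun a => by
    show a + s ≤ a ^ 2 + s
    have : a ≤ a ^ 2 := Nat.le_self_pow (by norm_num) a
    omega⟩
  close := by
    refine ⟨8, by norm_num, ?_⟩
    obtain ⟨n1, hn1⟩ := eventually_atTop.1 fp_lt_hi
    filter_upwards [pb_near s, eventually_ge_atTop n1] with n h1 h2 m hm a ha1 ha2
    have h3 := h1 m hm a ha1 ha2
    have h4 := hn1 m (h2.trans hm)
    have h5 := h1 m hm (fp m) h4.1 h4.2
    have h6 : |pb (a + s) - pb (fp m + s)| ≤ |pb (a + s) - pb (fp m)| + |pb (fp m + s) - pb (fp m)| := by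
      rw [abs_sub_comm (pb (fp m + s))]
      exact abs_sub_le _ _ _
    have h7 : 8 * dl n / Real.log n ^ 2 = 4 * dl n / Real.log n ^ 2 + 4 * dl n / Real.log n ^ 2 := by ring
    rw [h7]
    show |pb (a + s) - pb (fp m + s)| ≤ _
    linarith
  lim := by
    have h1 := log_fp_ratio.add ((log_add_sub s).div_atTop hl)
    rw [add_zero] at h1
    refine h1.congr (fun m => ?_)
    rw [← add_div]
    congr 1
    ring

/-- `a ^ 2 - 2` for `a ≥ 2`. -/
def G2 (a : ℕ) : ℕ := if a ≤ 1 then a else a ^ 2 - 2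

theorem g2_of_ge {a : ℕ} (ha : 2 ≤ a) : G2 a = a ^ 2 - 2 := by
  unfold G2
  rw [if_neg (by omega)]

theorem tgt_sq : Tgt G2 2 where
  kpos := by norm_num
  mono := by
    refine strictMono_nat_of_lt_succ (fun a => ?_)
    unfold G2
    rcases Nat.lt_or_ge a 1 with h | h
    · have : a = 0 := by omega
      subst this
      norm_num
    · rcases Nat.lt_or_ge a 2 with h2 | h2
      · have : a = 1 := by omega
        subst this
        norm_num
      · rw [if_neg (by omega), if_neg (by omega)]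
        have h3 : a ^ 2 < (a + 1) ^ 2 := Nat.pow_lt_pow_left (by omega) (by norm_num)
        have h4 : 2 ^ 2 ≤ a ^ 2 := Nat.pow_le_pow_left h2 2
        omega
  gt := fun a ha => by
    rw [g2_of_ge (by omega)]
    have : 3 * a ≤ a ^ 2 := by nlinarith
    omega
  le := ⟨0, fun a => by
    unfold G2
    split_ifs with h
    · have : a ≤ a ^ 2 := Nat.le_self_pow (by norm_num) a
      omega
    · omega⟩
  close := by
    refine ⟨12, by norm_num, ?_⟩
    obtain ⟨n1, hn1⟩ := eventually_atTop.1 pos_bounds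
    filter_upwards [eventually_ge_atTop n1, eventually_ge_atTop 3] with n hn hn3 m hm a h1 h2
    obtain ⟨b1, b2, b3, b4, b5, b6, b7, b8, b9, b10, b11⟩ := hn1 m (hn.trans hm)
    have hfp := le_fp m
    have ha1 : (lo m : ℝ) ≤ a := by exact_mod_cast h1
    have ha2 : (a : ℝ) ≤ hi m := by exact_mod_cast h2.le
    rw [g2_of_ge (by omega), g2_of_ge (by omega)]
    have h3 : 3 * a ≤ a ^ 2 := by nlinarith
    have h4 : 3 * fp m ≤ fp m ^ 2 := by nlinarith
    have hc1 : ((a ^ 2 - 2 : ℕ) : ℝ) = (a : ℝ) ^ 2 - 2 := by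
      rw [Nat.cast_sub (by omega)]
      push_cast
      ring
    have hc2 : ((fp m ^ 2 - 2 : ℕ) : ℝ) = (fp m : ℝ) ^ 2 - 2 := by
      rw [Nat.cast_sub (by omega)]
      push_cast
      ring
    have hf3 : (3 : ℝ) ≤ fp m := by exact_mod_cast (show 3 ≤ fp m by omega)
    have hau : (a : ℝ) ≤ (1 + 2 * dl m) * fp m := ha2.trans b9
    have hal : (1 - 2 * dl m) * fp m ≤ (a : ℝ) := b6.trans ha1
    have hau2 : (a : ℝ) ^ 2 ≤ ((1 + 2 * dl m) * fp m) ^ 2 := pow_le_pow_left₀ (Nat.cast_nonneg _) hau 2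
    have hal2 : ((1 - 2 * dl m) * fp m) ^ 2 ≤ (a : ℝ) ^ 2 := pow_le_pow_left₀ (by nlinarith) hal 2
    have hf9 : (9 : ℝ) ≤ (fp m : ℝ) ^ 2 := by nlinarith
    refine (pb_close (u := a ^ 2 - 2) (v := fp m ^ 2 - 2) (d := 3 * dl m) hn3 (by omega) (by omega) (by linarith)
      (by linarith) ?_ ?_).trans ?_
    · rw [hc1, hc2]
      have h5 : (1 + 2 * dl m) ^ 2 ≤ 1 + 5 * dl m := by nlinarith
      have h6 : (1 + 2 * dl m) ^ 2 * (fp m : ℝ) ^ 2 ≤ (1 + 5 * dl m) * (fp m : ℝ) ^ 2 :=
        mul_le_mul_of_nonneg_right h5 (by positivity)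
      have h7 : dl m * 9 ≤ dl m * (fp m : ℝ) ^ 2 := mul_le_mul_of_nonneg_left hf9 b1.le
      nlinarith
    · rw [hc1, hc2]
      have h5 : 1 - 4 * dl m ≤ (1 - 2 * dl m) ^ 2 := by nlinarith
      have h6 : (1 - 4 * dl m) * (fp m : ℝ) ^ 2 ≤ (1 - 2 * dl m) ^ 2 * (fp m : ℝ) ^ 2 :=
        mul_le_mul_of_nonneg_right h5 (by positivity)
      have h7 : dl m * 9 ≤ dl m * (fp m : ℝ) ^ 2 := mul_le_mul_of_nonneg_left hf9 b1.le
      nlinarith
    · have h4 := dl_anti (show 1 ≤ n by omega) hm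
      have h5 : 0 < Real.log n ^ 2 := by
        have := one_lt_log hn3
        positivity
      exact div_le_div_of_nonneg_right (by linarith) h5.le
  lim := by
    have h1 : Tendsto (fun m : ℕ => (2 : ℝ) / (fp m : ℝ) ^ 2) atTop (𝓝 0) :=
      tendsto_const_nhds.div_atTop ((tendsto_pow_atTop (by norm_num)).comp (tendsto_natCast_atTop_atTop.comp fp_top))
    have h2 : Tendsto (fun m : ℕ => Real.log (1 - (2 : ℝ) / (fp m : ℝ) ^ 2)) atTop (𝓝 0) := by
      have := (Real.continuousAt_log (show (1 - 0 : ℝ) ≠ 0 by norm_num)).tendsto.comp (h1.const_sub 1)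
      simp only [sub_zero, Real.log_one] at this
      exact this
    have h3 := (log_fp_ratio.const_mul 2).add (h2.div_atTop hl)
    rw [mul_one, add_zero] at h3
    refine h3.congr' ?_
    filter_upwards [fp_top.eventually_ge_atTop 3] with m hm
    have hm0 : (0 : ℝ) < fp m := by exact_mod_cast (show 0 < fp m by omega)
    have h4 : 3 * fp m ≤ fp m ^ 2 := by nlinarith
    have hc2 : ((fp m ^ 2 - 2 : ℕ) : ℝ) = (fp m : ℝ) ^ 2 - 2 := by
      rw [Nat.cast_sub (by omega)]
      push_cast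
      ring
    have hm3 : (3 : ℝ) ≤ fp m := by exact_mod_cast hm
    have h5 : 0 < 1 - (2 : ℝ) / (fp m : ℝ) ^ 2 := by
      have : (2 : ℝ) / (fp m : ℝ) ^ 2 < 1 := by
        rw [div_lt_one (by positivity)]
        nlinarith
      linarith
    rw [g2_of_ge (by omega), hc2]
    have h6 : (fp m : ℝ) ^ 2 - 2 = (fp m : ℝ) ^ 2 * (1 - (2 : ℝ) / (fp m : ℝ) ^ 2) := by
      field_simp
    rw [h6, Real.log_mul (by positivity) h5.ne', Real.log_pow, ← mul_div_assoc, ← add_div]
    push_cast
    rfl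

theorem idx_mul : Idx (fun n j => j * n) where
  low := fun M => Eventually.of_forall (fun n j hj _ => by
    have : 1 * n ≤ j * n := Nat.mul_le_mul_right n hj
    show n ≤ 2 * (j * n)
    omega)
  up := fun M => ⟨M, Eventually.of_forall (fun n j _ hj => by
    show ((j * n : ℕ) : ℝ) ≤ _
    push_cast
    rw [mul_comm]
    exact mul_le_mul_of_nonneg_left hj (Nat.cast_nonneg _))⟩
  inj := fun M => by
    filter_upwards [eventually_ge_atTop 1] with n hn j j' _ _ _ _ h
    exact Nat.eq_of_mul_eq_mul_right (by omega) h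
  sep := fun M ρ hρ => by
    have h1 := polylog_le 1 M (show (0 : ℝ) < ρ / 2 by linarith)
    have h2 : Tendsto (fun n : ℕ => (n : ℝ) ^ (ρ / 2)) atTop atTop :=
      (tendsto_rpow_atTop (by linarith)).comp tendsto_natCast_atTop_atTop
    filter_upwards [h1, h2.eventually_ge_atTop 2, eventually_ge_atTop 1, hl.eventually_ge_atTop 1]
      with n h3 h4 h5 h6 m hm1 hm2 j j' hj1 hj2 hj'1 hj'2 hjj
    have hn0 : (0 : ℝ) < n := by exact_mod_cast h5
    have hpos : 0 ≤ Real.log (n : ℝ) ^ M := by positivity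
    have hnm : n < m := by
      have : (n : ℝ) < m := by linarith
      exact_mod_cast this
    have hjj' : j * n = j' * m := hjj
    have hlt : j' < j := by
      by_contra hcon
      push Not at hcon
      have h7 : j * n ≤ j' * n := Nat.mul_le_mul_right n hcon
      have h8 : j' * n < j' * m := Nat.mul_lt_mul_of_pos_left hnm (by omega)
      omega
    have h7 : (j' + 1) * n ≤ j * n := Nat.mul_le_mul_right n hlt
    have h8 : ((j' : ℝ) + 1) * n ≤ j' * m := by
      have : (j' + 1) * n ≤ j' * m := by omega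
      exact_mod_cast this
    have h9 : (n : ℝ) ≤ j' * (m - n) := by linarith
    have h10 : (j' : ℝ) * (m - n) ≤ Real.log n ^ M * (n : ℝ) ^ (1 - ρ) :=
      mul_le_mul hj'2 (by linarith) (by
        have : (n : ℝ) < m := by exact_mod_cast hnm
        linarith) hpos
    have h11 : Real.log (n : ℝ) ^ M ≤ (n : ℝ) ^ (ρ / 2) := by
      refine le_trans ?_ h3
      rw [one_mul]
      exact pow_le_pow_left₀ (by linarith) (by nlinarith) M
    have h12 : (n : ℝ) ^ (ρ / 2) * (n : ℝ) ^ (1 - ρ) * (n : ℝ) ^ (ρ / 2) = n := by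
      rw [← Real.rpow_add hn0, ← Real.rpow_add hn0]
      have : ρ / 2 + (1 - ρ) + ρ / 2 = 1 := by ring
      rw [this, Real.rpow_one]
    have h13 : Real.log (n : ℝ) ^ M * (n : ℝ) ^ (1 - ρ) ≤ (n : ℝ) ^ (ρ / 2) * (n : ℝ) ^ (1 - ρ) :=
      mul_le_mul_of_nonneg_right h11 (Real.rpow_nonneg hn0.le _)
    have h14 : 0 < (n : ℝ) ^ (ρ / 2) * (n : ℝ) ^ (1 - ρ) := by positivity
    nlinarith

theorem idx_sub : Idx (fun n j => n - j) where
  low := fun M => by
    filter_upwards [pow_log_le (M + 1), hl.eventually_ge_atTop 2] with n h1 h2 j _ hj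
    show n ≤ 2 * (n - j)
    have h3 : 2 * (j : ℝ) ≤ n := by
      have h4 : 2 * Real.log (n : ℝ) ^ M ≤ Real.log n ^ (M + 1) := by
        rw [pow_succ, mul_comm]
        exact mul_le_mul_of_nonneg_left h2 (by positivity)
      linarith
    have h4 : 2 * j ≤ n := by exact_mod_cast h3
    omega
  up := fun M => ⟨0, Eventually.of_forall (fun n j _ _ => by
    rw [pow_zero, mul_one]
    exact_mod_cast Nat.sub_le n j)⟩
  inj := fun M => by
    filter_upwards [pow_log_le M] with n h1 j j' _ hj _ hj' h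
    have h2 : j ≤ n := by exact_mod_cast hj.trans h1
    have h3 : j' ≤ n := by exact_mod_cast hj'.trans h1
    have h4 : n - j = n - j' := h
    omega
  sep := fun M ρ _ => by
    filter_upwards [pow_log_le M, hl.eventually_ge_atTop 1] with n h1 h0 m hm1 _ j j' _ hj _ hj' h
    have h2 : j ≤ n := by exact_mod_cast hj.trans h1
    have hpos : 0 ≤ Real.log (n : ℝ) ^ M := by positivity
    have h3 : n + j' < m := by
      have : (n : ℝ) + j' < m := by linarith
      exact_mod_cast this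
    have h4 : n - j = m - j' := h
    omega

end Pool.Agent.Q197.CI
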