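import Pool.Agent.Q197.CI.RowE

/-!
# The laws for a set of admissible numbers with any constant
-/

set_option autoImplicit false

namespace Pool.Agent.Q197.CI

open Finset Filter MeasureTheory Pool.Agent.Q120.ET Pool.Agent.Q120.MF
open scoped Topology

variable {Ω : Type*} [MeasurableSpace Ω] {μ : Measure Ω} [IsProbabilityMeasure μ] {A : Ω → Set ℕ}
variable {W : ℕ → Set ℕ → Prop} {V : ℕ → Set ℕ → Prop} {Y : ℕ → ℕ} {Fl : ℕ → ℕ → Set ℕ → Prop}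
  {X : ℕ → ℕ} {q : ℕ → ℕ → ℝ} {β : ℕ} {b : ℝ}

/-- The number of tests, with a constant. -/
noncomputable def lk (κ c : ℝ) (γ a n : ℕ) : ℝ := κ * ls c γ a n

omit [IsProbabilityMeasure μ] in
theorem vr_aeK {κ : ℝ} (hκ : 0 < κ) (a : ℕ)
    (hW : ∀ᵐ ω ∂μ, Tendsto (fun k : ℕ => ((Ws W (A ω) k).card : ℝ) * Real.log k ^ a / k) atTop (𝓝 κ))
    (hV : ∀ᵐ ω ∂μ, ∀ᶠ k in atTop, V k (A ω)) {c : ℝ} (hc : 0 < c) {γ : ℕ} (hγ : 1 ≤ γ) {δ : ℝ} (hδ : 0 < δ) :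
    ∀ᵐ ω ∂μ, ∀ᶠ n in atTop, VR V W (hs c γ a) (lk κ c γ a) δ n (A ω) := by
  filter_upwards [hW, hV] with ω h1 h2
  have h3 := (h1.comp (hs_top hc hγ a)).mul (hs_tests hc hγ a)
  rw [mul_one] at h3
  filter_upwards [(hs_top hc hγ a).eventually h2, h3.eventually_const_lt (show κ * (1 - δ) < κ by nlinarith),
    h3.eventually_lt_const (show κ < κ * (1 + δ) by nlinarith), hl.eventually_gt_atTop 0,
    (hs_top hc hγ a).eventually_gt_atTop 1] with n h4 h5 h6 h7 h8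
  have hγ0 : (0 : ℝ) < γ := by exact_mod_cast (show 0 < γ by omega)
  have hls : 0 < ls c γ a n := by unfold ls; positivity
  have h9 : 0 < Real.log (hs c γ a n : ℝ) := Real.log_pos (by exact_mod_cast h8)
  have h10 : (0 : ℝ) < hs c γ a n := by exact_mod_cast (show 0 < hs c γ a n by omega)
  have h11 : ((Ws W (A ω) (hs c γ a n)).card : ℝ) * Real.log (hs c γ a n) ^ a / hs c γ a n *
      ((hs c γ a n : ℝ) / Real.log (hs c γ a n) ^ a / ls c γ a n) = ((Ws W (A ω) (hs c γ a n)).card : ℝ) / ls c γ a n := by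
    field_simp
  simp only [Function.comp_apply] at h5 h6
  rw [h11, lt_div_iff₀ hls] at h5
  rw [h11, div_lt_iff₀ hls] at h6
  have e1 : (1 - δ) * lk κ c γ a n = κ * (1 - δ) * ls c γ a n := by unfold lk; ring
  have e2 : (1 + δ) * lk κ c γ a n = κ * (1 + δ) * ls c γ a n := by unfold lk; ring
  exact ⟨h4, by rw [e1]; exact h5.le, by rw [e2]; exact h6.le⟩

/-- The three laws. -/
theorem Row.lawK (R : Row W V Y Fl X q β b) (hA : IsCramer μ A) {κ : ℝ} (hκ : 0 < κ) (a : ℕ)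
    (hW : ∀ᵐ ω ∂μ, Tendsto (fun k : ℕ => ((Ws W (A ω) k).card : ℝ) * Real.log k ^ a / k) atTop (𝓝 κ))
    (hV : ∀ᵐ ω ∂μ, ∀ᶠ k in atTop, V k (A ω)) :
    (∀ c : ℝ, b / κ * (β + 1 : ℝ) ^ a < c → ∀ᵐ ω ∂μ, ∀ᶠ n in atTop, ¬ En W Fl (hs c (β + 1) a) n (A ω)) ∧
    (∀ c : ℝ, 0 < c → c < b / κ * (β + 1 : ℝ) ^ a → ∀ ε : ℝ, 0 < ε → ∀ᵐ ω ∂μ, ∀ᶠ N : ℕ in atTop,
      (N : ℝ) ^ (1 - c / (b / κ * (β + 1 : ℝ) ^ a) - ε) ≤ Zc (range N) (En W Fl (hs c (β + 1) a)) (A ω) ∧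
      Zc (range N) (En W Fl (hs c (β + 1) a)) (A ω) ≤ (N : ℝ) ^ (1 - c / (b / κ * (β + 1 : ℝ) ^ a) + ε)) ∧
    (∀ t : ℝ, 0 < t → ∀ᵐ ω ∂μ, Tendsto (fun N : ℕ => Zc (range N) (En W Fl (hs t β a)) (A ω) / N) atTop
      (𝓝 (Real.exp (-(t / (b / κ * (β : ℝ) ^ a)))))) := by
  have hb := R.hb
  have hβ := R.hβ
  have hl0 : ∀ (c : ℝ) (γ : ℕ), 0 < c → ∀ᶠ n : ℕ in atTop, 0 ≤ lk κ c γ a n := by
    intro c γ hc
    filter_upwards [hl.eventually_ge_atTop 0] with n hn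
    unfold lk ls
    positivity
  have hlC : ∀ (c : ℝ) (γ : ℕ), 0 < c → 1 ≤ γ → γ ≤ β + 1 → ∀ᶠ n : ℕ in atTop,
      lk κ c γ a n ≤ κ * (c / (γ : ℝ) ^ a) * Real.log n ^ (β + 1) := by
    intro c γ hc hγ hγ'
    filter_upwards [hl.eventually_ge_atTop 1] with n hn
    have hγ0 : (0 : ℝ) < γ := by exact_mod_cast (show 0 < γ by omega)
    unfold lk ls
    rw [mul_div_right_comm, ← mul_assoc]
    exact mul_le_mul_of_nonneg_left (pow_le_pow_right₀ hn hγ') (by positivity)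
  have hB : 0 < b / κ * (β + 1 : ℝ) ^ a := by positivity
  have hτ : ∀ c : ℝ, ∀ᶠ n : ℕ in atTop, lk κ c (β + 1) a n / (b * Real.log n ^ β) =
      c / (b / κ * (β + 1 : ℝ) ^ a) * Real.log n := by
    intro c
    filter_upwards [hl.eventually_gt_atTop 0] with n hn
    unfold lk ls
    push_cast
    rw [pow_succ]
    field_simp
  refine ⟨fun c hc => ?_, fun c hc0 hc ε hε => ?_, fun t ht => ?_⟩
  · have hc0 : 0 < c := hB.trans hc
    refine R.never hA (hs_le hc0.le (β + 1) a) (hl0 c _ hc0) (hlC c (β + 1) hc0 (by omega) le_rfl)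
      (fun δ hδ => vr_aeK hκ a hW hV hc0 (by omega) hδ) (c := c / (b / κ * (β + 1 : ℝ) ^ a)) ?_ ?_
    · rw [one_lt_div hB]
      exact hc
    · filter_upwards [hτ c] with n hn
      rw [hn]
  · have hc1 : c / (b / κ * (β + 1 : ℝ) ^ a) < 1 := by rw [div_lt_one hB]; exact hc
    have hc2 : 0 < c / (b / κ * (β + 1 : ℝ) ^ a) := by positivity
    obtain ⟨ε', hε'⟩ : ∃ ε' : ℝ, ε' = min ε ((1 - c / (b / κ * (β + 1 : ℝ) ^ a)) / 2) := ⟨_, rfl⟩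
    have h1 : 0 < ε' := by rw [hε']; exact lt_min hε (by linarith)
    have h2 : ε' ≤ ε := by rw [hε']; exact min_le_left _ _
    have h3 : ε' ≤ (1 - c / (b / κ * (β + 1 : ℝ) ^ a)) / 2 := by rw [hε']; exact min_le_right _ _
    filter_upwards [R.count_le hA (hs_le hc0.le (β + 1) a) (hl0 c _ hc0) (hlC c (β + 1) hc0 (by omega) le_rfl)
      (fun δ hδ => vr_aeK hκ a hW hV hc0 (by omega) hδ) hc2 hc1 (by
        filter_upwards [hτ c] with n hn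
        rw [hn]) hε,
      R.count_ge hA (hs_le hc0.le (β + 1) a) (hs_mono hc0.le _ _) (hl0 c _ hc0) (hlC c (β + 1) hc0 (by omega) le_rfl)
      (fun δ hδ => vr_aeK hκ a hW hV hc0 (by omega) hδ) hc2.le hc1 (by
        filter_upwards [hτ c] with n hn
        rw [hn]) h1 (by linarith)] with ω h4 h5
    filter_upwards [h4, h5, eventually_ge_atTop 1] with N h6 h7 h8
    refine ⟨le_trans (Real.rpow_le_rpow_of_exponent_le (by exact_mod_cast h8) (by linarith)) h7, h6⟩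
  · have hβ0 : (0 : ℝ) < β := by exact_mod_cast (show 0 < β by omega)
    refine R.typical hA (hs_le ht.le β a) (hs_mono ht.le _ _) (hl0 t _ ht) (hlC t β ht hβ (by omega))
      (fun δ hδ => vr_aeK hκ a hW hV ht hβ hδ) ?_
    refine tendsto_const_nhds.congr' ?_
    filter_upwards [hl.eventually_gt_atTop 0] with n hn
    unfold lk ls
    field_simp

/-- The laws for the solutions. -/
theorem Row.finalK (R : Row W V Y Fl X q β b) (hA : IsCramer μ A) {κ : ℝ} (hκ : 0 < κ) (a : ℕ)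
    (hW : ∀ᵐ ω ∂μ, Tendsto (fun k : ℕ => ((Ws W (A ω) k).card : ℝ) * Real.log k ^ a / k) atTop (𝓝 κ))
    (hV : ∀ᵐ ω ∂μ, ∀ᶠ k in atTop, V k (A ω)) (Sol : Set ℕ → ℕ → ℕ → Prop)
    (hSol : ∀ᵐ ω ∂μ, ∀ M : ℕ, ∀ᶠ n : ℕ in atTop, ∀ j : ℕ, 1 ≤ j → (j : ℝ) ≤ Real.log n ^ M →
      (Sol (A ω) n j ↔ (W j (A ω) ∧ ¬ Fl n j (A ω)))) :
    (∀ c : ℝ, b / κ * (β + 1 : ℝ) ^ a < c → ∀ᵐ ω ∂μ, ∀ᶠ n : ℕ in atTop,
      ¬ NoSol (Sol (A ω)) n (c * (Real.log n ^ (β + 1) * Real.log (Real.log n) ^ a))) ∧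
    (∀ c : ℝ, 0 < c → c < b / κ * (β + 1 : ℝ) ^ a → ∀ᵐ ω ∂μ, Tendsto (fun N : ℕ =>
      Real.log (cntP (fun n => NoSol (Sol (A ω)) n (c * (Real.log n ^ (β + 1) * Real.log (Real.log n) ^ a))) N) /
        Real.log N) atTop (𝓝 (1 - c / (b / κ * (β + 1 : ℝ) ^ a)))) ∧
    (∀ t : ℝ, 0 < t → ∀ᵐ ω ∂μ, Tendsto (fun N : ℕ =>
      cntP (fun n => NoSol (Sol (A ω)) n (t * (Real.log n ^ β * Real.log (Real.log n) ^ a))) N / N) atTop
      (𝓝 (Real.exp (-(t / (b / κ * (β : ℝ) ^ a)))))) := by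
  obtain ⟨h1, h2, h3⟩ := R.lawK hA hκ a hW hV
  have hB : 0 < b / κ * (β + 1 : ℝ) ^ a := by have := R.hb; positivity
  have key : ∀ c : ℝ, 0 < c → ∀ γ : ℕ, ∀ᵐ ω ∂μ, ∀ᶠ n : ℕ in atTop,
      (NoSol (Sol (A ω)) n (c * (Real.log n ^ γ * Real.log (Real.log n) ^ a)) ↔ En W Fl (hs c γ a) n (A ω)) := by
    intro c hc γ
    filter_upwards [hSol] with ω h4
    filter_upwards [h4 (γ + a + 1), hs_le hc.le γ a] with n h5 h6
    unfold NoSol En
    constructor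
    · intro h7 j hj1 hj2 hj3
      by_contra hcon
      have h8 : (j : ℝ) ≤ c * (Real.log n ^ γ * Real.log (Real.log n) ^ a) := by
        unfold hs us at hj2
        exact (Nat.le_floor_iff' (by omega)).1 hj2
      have h9 : (j : ℝ) ≤ Real.log n ^ (γ + a + 1) := le_trans (by exact_mod_cast hj2) h6
      exact h7 j hj1 h8 ((h5 j hj1 h9).2 ⟨hj3, hcon⟩)
    · intro h7 j hj1 hj2 hj3
      have h8 : j ≤ hs c γ a n := by
        unfold hs us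
        exact (Nat.le_floor_iff' (by omega)).2 hj2
      have h9 : (j : ℝ) ≤ Real.log n ^ (γ + a + 1) := le_trans (by exact_mod_cast h8) h6
      obtain ⟨h10, h11⟩ := (h5 j hj1 h9).1 hj3
      exact h11 (h7 j hj1 h8 h10)
  refine ⟨fun c hc => ?_, fun c hc0 hc => ?_, fun t ht => ?_⟩
  · filter_upwards [h1 c hc, key c (hB.trans hc) (β + 1)] with ω h4 h5
    filter_upwards [h4, h5] with n h6 h7 h8
    exact h6 (h7.1 h8)
  · have h4 : ∀ᵐ ω ∂μ, ∀ k : ℕ, ∀ᶠ N : ℕ in atTop,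
        (N : ℝ) ^ (1 - c / (b / κ * (β + 1 : ℝ) ^ a) - 1 / ((k : ℝ) + 1)) ≤ Zc (range N) (En W Fl (hs c (β + 1) a)) (A ω) ∧
        Zc (range N) (En W Fl (hs c (β + 1) a)) (A ω) ≤ (N : ℝ) ^ (1 - c / (b / κ * (β + 1 : ℝ) ^ a) + 1 / ((k : ℝ) + 1)) := by
      rw [ae_all_iff]
      intro k
      exact h2 c hc0 hc _ (by positivity)
    filter_upwards [h4, key c hc0 (β + 1)] with ω h5 h6
    obtain ⟨n0, hn0⟩ := eventually_atTop.1 h6
    refine expo_of_bounds ?_ (fun N => cntP_near hn0 N) h5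
    have : c / (b / κ * (β + 1 : ℝ) ^ a) < 1 := by rw [div_lt_one hB]; exact hc
    linarith
  · filter_upwards [h3 t ht, key t ht β] with ω h5 h6
    obtain ⟨n0, hn0⟩ := eventually_atTop.1 h6
    exact ratio_of_near (fun N => cntP_near hn0 N) h5

end Pool.Agent.Q197.CI
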