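import Pool.Agent.Q197.CI.FixP
import Pool.Agent.Q197.CI.RowK

/-!
# General tests which depend on fixed places
-/

set_option autoImplicit false

namespace Pool.Agent.Q197.CI

open Finset Filter MeasureTheory Pool.Agent.Q120.ET Pool.Agent.Q120.MF
open scoped Topology

theorem depOn_fls {Fl : ℕ → ℕ → Set ℕ → Prop} {P : ℕ → ℕ → Finset ℕ}
    (dep : ∀ n j, DepOn ((P n j : Finset ℕ) : Set ℕ) (Fl n j)) (n : ℕ) (U : Finset ℕ) :
    DepOn (⋃ j ∈ U, ((P n j : Finset ℕ) : Set ℕ)) (fun S => ∀ j ∈ U, Fl n j S) := by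
  intro S S' hS
  apply propext
  have key : ∀ j ∈ U, Fl n j S = Fl n j S' := fun j hj =>
    dep n j S S' (fun a ha => hS a (Set.mem_biUnion hj ha))
  constructor
  · exact fun h j hj => key j hj ▸ h j hj
  · exact fun h j hj => (key j hj).symm ▸ h j hj

/-- The probability that all tests fail. -/
theorem pr_testsG {Fl : ℕ → ℕ → Set ℕ → Prop} {P : ℕ → ℕ → Finset ℕ} {q : ℕ → ℕ → ℝ}
    (dep : ∀ n j, DepOn ((P n j : Finset ℕ) : Set ℕ) (Fl n j)) {y x : ℕ} {T0 : Finset ℕ} (n : ℕ) (U : Finset ℕ)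
    (hp : ∀ j ∈ U, Pr y T0 x (Fl n j) = 1 - q n j)
    (hd : ∀ j ∈ U, ∀ j' ∈ U, j ≠ j' → Disjoint (P n j) (P n j')) :
    Pr y T0 x (fun S => ∀ j ∈ U, Fl n j S) = ∏ j ∈ U, (1 - q n j) := by
  classical
  induction U using Finset.induction_on with
  | empty =>
    rw [prod_empty]
    exact pr_true y T0 x (fun S a ha => by simp at ha)
  | insert j U hj ih =>
    rw [prod_insert hj, ← ih (fun b hb => hp b (mem_insert_of_mem hb))
      (fun b hb b' hb' => hd b (mem_insert_of_mem hb) b' (mem_insert_of_mem hb')), ← hp j (mem_insert_self j U)]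
    have h2 : Disjoint ((P n j : Finset ℕ) : Set ℕ) (⋃ i ∈ U, ((P n i : Finset ℕ) : Set ℕ)) := by
      rw [Set.disjoint_left]
      intro a ha ha'
      simp only [Set.mem_iUnion, exists_prop] at ha'
      obtain ⟨i, hi, hi'⟩ := ha'
      have h3 := hd j (mem_insert_self j U) i (mem_insert_of_mem hi) (fun h => hj (h ▸ hi))
      exact (disjoint_left.1 h3) (mem_coe.1 ha) (mem_coe.1 hi')
    rw [← pr_and_mul y T0 x h2 (dep n j) (depOn_fls dep n U)]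
    congr 1
    funext S
    apply propext
    constructor
    · intro h3
      exact ⟨h3 j (mem_insert_self j U), fun b hb => h3 b (mem_insert_of_mem hb)⟩
    · rintro ⟨h3, h4⟩ b hb
      rcases mem_insert.1 hb with rfl | h5
      · exact h3
      · exact h4 b h5

/-- Tests at fixed places. -/
structure FixG (P : ℕ → ℕ → Finset ℕ) (Fl : ℕ → ℕ → Set ℕ → Prop) (X : ℕ → ℕ) (q : ℕ → ℕ → ℝ) (β : ℕ) (b : ℝ) :
    Prop where
  hb : 0 < b
  hβ : 1 ≤ β
  Xmono : Monotone X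
  Xge : ∀ n, n ≤ X n
  sub : ∀ M : ℕ, ∀ᶠ n : ℕ in atTop, ∀ j : ℕ, 1 ≤ j → (j : ℝ) ≤ Real.log n ^ M → ∀ a ∈ P n j, 3 ≤ a ∧ a < X n
  disj : ∀ M : ℕ, ∀ᶠ n : ℕ in atTop, ∀ j j' : ℕ, 1 ≤ j → (j : ℝ) ≤ Real.log n ^ M → 1 ≤ j' → (j' : ℝ) ≤ Real.log n ^ M →
    j ≠ j' → Disjoint (P n j) (P n j')
  sep : ∀ M : ℕ, ∀ᶠ n : ℕ in atTop, ∀ m : ℕ, (n : ℝ) + Real.log n ^ M < m →
    ∀ j j' : ℕ, 1 ≤ j → (j : ℝ) ≤ Real.log n ^ M → 1 ≤ j' → (j' : ℝ) ≤ Real.log n ^ M → Disjoint (P n j) (P m j')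
  dep : ∀ n j, DepOn ((P n j : Finset ℕ) : Set ℕ) (Fl n j)
  pr : ∀ M : ℕ, ∀ᶠ n : ℕ in atTop, ∀ j : ℕ, 1 ≤ j → (j : ℝ) ≤ Real.log n ^ M → ∀ (y x : ℕ) (T0 : Finset ℕ),
    (y : ℝ) ≤ Real.log n ^ M → (∀ i ∈ T0, i < y) → X n ≤ x → Pr y T0 x (Fl n j) = 1 - q n j
  hq : ∀ M : ℕ, ∀ δ : ℝ, 0 < δ → ∀ᶠ n : ℕ in atTop, ∀ j : ℕ, 1 ≤ j → (j : ℝ) ≤ Real.log n ^ M →
    |q n j * (b * Real.log n ^ β) - 1| ≤ δ

theorem q_le_one {q B : ℝ} (hB : 2 ≤ B) (h : |q * B - 1| ≤ 1) : 0 ≤ 1 - q := by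
  rw [abs_le] at h
  have h9 : q * B ≤ 2 := by linarith [h.2]
  by_contra hcon
  push Not at hcon
  nlinarith

theorem rowH {P : ℕ → ℕ → Finset ℕ} {Fl : ℕ → ℕ → Set ℕ → Prop} {X : ℕ → ℕ} {q : ℕ → ℕ → ℝ} {β : ℕ} {b : ℝ}
    (hP : FixG P Fl X q β b) {W : ℕ → Set ℕ → Prop} {V : ℕ → Set ℕ → Prop} {Y : ℕ → ℕ}
    (depV : ∀ h, Dep (Y h) (V h))
    (depW : ∀ h (S S' : Set ℕ), V h S → (∀ j, 3 ≤ j → j < Y h → (j ∈ S ↔ j ∈ S')) → ∀ j, 1 ≤ j → j ≤ h → (W j S ↔ W j S'))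
    (Y3 : ∀ h, 3 ≤ Y h) (Ymono : Monotone Y) (Ypol : ∃ D : ℕ, ∀ h : ℕ, (Y h : ℝ) ≤ ((h : ℝ) + 2) ^ D) :
    Row W V Y Fl X q β b where
  hb := hP.hb
  hβ := hP.hβ
  depV := depV
  depW := depW
  Y3 := Y3
  Ymono := Ymono
  Ypol := Ypol
  Xmono := hP.Xmono
  Xge := hP.Xge
  depF := fun M => by
    filter_upwards [hP.sub M] with n h1 j hj1 hj2 S S' hS
    refine hP.dep n j S S' (fun a ha => ?_)
    have h3 := h1 j hj1 hj2 a (mem_coe.1 ha)
    exact hS a h3.1 h3.2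
  hq := hP.hq
  one := fun C hC M => by
    filter_upwards [hP.disj M, hP.pr M, hP.hq M 1 one_pos,
      (((tendsto_pow_atTop (show β ≠ 0 by have := hP.hβ; omega)).comp hl).const_mul_atTop hP.hb).eventually_ge_atTop 2]
      with n h2 h3 h5 h6 y hy hyn T0 hT0 U hU hUc x hx
    have h7 := pr_testsG hP.dep (y := y) (x := x) (T0 := T0) (q := q) n U (fun j hj => h3 j (hU j hj).1 (hU j hj).2 y x T0
      hyn hT0 hx) (fun j hj j' hj' hne => h2 j j' (hU j hj).1 (hU j hj).2 (hU j' hj').1 (hU j' hj').2 hne)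
    rw [h7]
    have hq0 : 0 ≤ ∏ j ∈ U, (1 - q n j) := prod_nonneg (fun j hj =>
      q_le_one (by simpa only [Function.comp_apply] using h6) (h5 j (hU j hj).1 (hU j hj).2))
    have hn0 : 0 ≤ (n : ℝ) ^ (-(1 / 5) : ℝ) := Real.rpow_nonneg (Nat.cast_nonneg _) _
    constructor <;> nlinarith
  two := fun C hC M ρ _ => by
    obtain ⟨n2, hn2⟩ := eventually_atTop.1 ((hP.disj M).and ((hP.pr M).and ((hP.hq M 1 one_pos).and
      ((((tendsto_pow_atTop (show β ≠ 0 by have := hP.hβ; omega)).comp hl).const_mul_atTop hP.hb).eventually_ge_atTop 2))))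
    filter_upwards [hP.sep M, eventually_ge_atTop (max n2 3), hl.eventually_ge_atTop 1]
      with n h2 hn hl1 m hm1 hm2 y hy hyn T0 hT0 U U' hU hU' hUc hUc' x hx
    have hnm : n ≤ m := by
      have : (n : ℝ) ≤ m := by
        have : 0 ≤ Real.log (n : ℝ) ^ M := by positivity
        linarith
      exact_mod_cast this
    obtain ⟨hd1, hp1, hq1, hb1⟩ := hn2 n (by omega)
    obtain ⟨hd2, hp2, hq2, hb2⟩ := hn2 m (by omega)
    have hlog : Real.log (n : ℝ) ^ M ≤ Real.log m ^ M :=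
      pow_le_pow_left₀ (by linarith) (Real.log_le_log (by exact_mod_cast (show 0 < n by omega)) (by exact_mod_cast hnm)) M
    have hU2 : ∀ j ∈ U', 1 ≤ j ∧ (j : ℝ) ≤ Real.log m ^ M := fun j hj => ⟨(hU' j hj).1, (hU' j hj).2.trans hlog⟩
    have hx' : X n ≤ x := (hP.Xmono hnm).trans hx
    have e1 := pr_testsG hP.dep (y := y) (x := x) (T0 := T0) (q := q) n U (fun j hj => hp1 j (hU j hj).1 (hU j hj).2 y x T0
      hyn hT0 hx') (fun j hj j' hj' hne => hd1 j j' (hU j hj).1 (hU j hj).2 (hU j' hj').1 (hU j' hj').2 hne)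
    have e2 := pr_testsG hP.dep (y := y) (x := x) (T0 := T0) (q := q) m U' (fun j hj => hp2 j (hU2 j hj).1 (hU2 j hj).2 y x
      T0 (hyn.trans hlog) hT0 hx) (fun j hj j' hj' hne => hd2 j j' (hU2 j hj).1 (hU2 j hj).2 (hU2 j' hj').1 (hU2 j' hj').2 hne)
    have hdis : Disjoint (⋃ j ∈ U, ((P n j : Finset ℕ) : Set ℕ)) (⋃ j ∈ U', ((P m j : Finset ℕ) : Set ℕ)) := by
      rw [Set.disjoint_left]
      intro a ha ha'
      simp only [Set.mem_iUnion, exists_prop] at ha ha'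
      obtain ⟨i, hi, hi'⟩ := ha
      obtain ⟨j, hj, hj'⟩ := ha'
      exact (disjoint_left.1 (h2 m hm1 i j (hU i hi).1 (hU i hi).2 (hU' j hj).1 (hU' j hj).2)) (mem_coe.1 hi') (mem_coe.1 hj')
    rw [pr_and_mul y T0 x hdis (depOn_fls hP.dep n U) (depOn_fls hP.dep m U'), e1, e2]
    have hq0 : 0 ≤ ∏ j ∈ U, (1 - q n j) := prod_nonneg (fun j hj =>
      q_le_one (by simpa only [Function.comp_apply] using hb1) (hq1 j (hU j hj).1 (hU j hj).2))
    have hq0' : 0 ≤ ∏ j ∈ U', (1 - q m j) := prod_nonneg (fun j hj =>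
      q_le_one (by simpa only [Function.comp_apply] using hb2) (hq2 j (hU2 j hj).1 (hU2 j hj).2))
    have hn0 : 0 ≤ (n : ℝ) ^ (-(1 / 5) : ℝ) := Real.rpow_nonneg (Nat.cast_nonneg _) _
    have h8 := mul_nonneg hq0 hq0'
    nlinarith

/-- The probability that no place of a set is occupied. -/
theorem pr_none {y x : ℕ} {T0 : Finset ℕ} (hT0 : ∀ j ∈ T0, j < y) (P : Finset ℕ)
    (hP : ∀ a ∈ P, y ≤ a ∧ a < x) : Pr y T0 x (fun S => ∀ a ∈ P, a ∉ S) = ∏ a ∈ P, (1 - pb a) := by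
  classical
  induction P using Finset.induction_on with
  | empty =>
    rw [prod_empty]
    exact pr_true y T0 x (fun S a ha => by simp at ha)
  | insert a P ha ih =>
    rw [prod_insert ha, ← ih (fun b hb => hP b (mem_insert_of_mem hb)),
      ← pr_mem hT0 (hP a (mem_insert_self a P)).1 (hP a (mem_insert_self a P)).2, ← pr_not]
    have h1 : DepOn ({a} : Set ℕ) (fun S : Set ℕ => a ∉ S) := by
      intro S S' hS
      exact propext (not_congr (hS a rfl))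
    have h2 : Disjoint ({a} : Set ℕ) (P : Set ℕ) := by
      rw [Set.disjoint_left]
      intro b hb hb'
      rw [Set.mem_singleton_iff] at hb
      rw [hb] at hb'
      exact ha (mem_coe.1 hb')
    have h3 : DepOn (P : Set ℕ) (fun S : Set ℕ => ∀ a ∈ P, a ∉ S) := by
      intro S S' hS
      apply propext
      constructor
      · exact fun h a ha h' => h a ha ((hS a ha).2 h')
      · exact fun h a ha h' => h a ha ((hS a ha).1 h')
    rw [← pr_and_mul y T0 x h2 h1 h3]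
    congr 1
    funext S
    apply propext
    constructor
    · intro h3
      exact ⟨h3 a (mem_insert_self a P), fun b hb => h3 b (mem_insert_of_mem hb)⟩
    · rintro ⟨h3, h4⟩ b hb
      rcases mem_insert.1 hb with rfl | h5
      · exact h3
      · exact h4 b h5

end Pool.Agent.Q197.CI
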