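import Pool.Agent.Q197.CI.AsN

/-!
# Tests at numbers which depend on the index and the element
-/

set_option autoImplicit false

namespace Pool.Agent.Q197.CI

open Finset Filter MeasureTheory Pool.Agent.Q120.ET Pool.Agent.Q120.MF
open scoped Topology

/-- The tested number `g m a` for the element `a` with the index `m`. -/
structure TgI (g : ℕ → ℕ → ℕ) (κ : ℝ) (D : ℕ) : Prop where
  kpos : 0 < κ
  mono : ∀ m m' a a', m < m' → a < a' → g m a < g m' a'
  gt : ∀ m a, 3 ≤ a → a < g m a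
  le : ∃ s : ℕ, ∀ m a, g m a ≤ (a + m) ^ D + s
  close : ∃ K : ℝ, 0 ≤ K ∧ ∀ᶠ n : ℕ in atTop, ∀ m, n ≤ m → ∀ a, lo m ≤ a → a < hi m →
    |pb (g m a) - pb (g m (fp m))| ≤ K * dl n / Real.log n ^ 2
  lim : Tendsto (fun m : ℕ => Real.log (g m (fp m)) / Real.log m) atTop (𝓝 κ)

/-- The test at the element with index `idx n j` fails (and this element is where it should be). -/
def FlJ (idx : ℕ → ℕ → ℕ) (g : ℕ → ℕ → ℕ) (n j : ℕ) (S : Set ℕ) : Prop :=
  ∃ a, lo (idx n j) ≤ a ∧ a < hi (idx n j) ∧ IsEl S (idx n j) a ∧ g (idx n j) a ∉ S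

noncomputable def qJ (idx : ℕ → ℕ → ℕ) (g : ℕ → ℕ → ℕ) (n j : ℕ) : ℝ := pb (g (idx n j) (fp (idx n j)))

theorem flJ_iff (idx : ℕ → ℕ → ℕ) (g : ℕ → ℕ → ℕ) (n : ℕ) (U : Finset ℕ) (S : Set ℕ) :
    (∀ j ∈ U, FlJ idx g n j S) ↔ NH (U.image (idx n)) g S := by
  classical
  unfold NH FlJ
  constructor
  · intro h m hm
    rw [mem_image] at hm
    obtain ⟨j, hj, rfl⟩ := hm
    exact h j hj
  · intro h j hj
    exact h _ (mem_image_of_mem _ hj)

variable {g : ℕ → ℕ → ℕ} {κ : ℝ} {D : ℕ}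

/-- The conditional probability. -/
theorem TgI.cond (hG : TgI g κ D) {C : ℝ} (hC : 0 ≤ C) (M : ℕ) : ∀ᶠ n : ℕ in atTop, ∀ y : ℕ, 3 ≤ y →
    (y : ℝ) ≤ Real.log n ^ M → ∀ T0 : Finset ℕ, (∀ j ∈ T0, j < y) → ∀ J : Finset ℕ, (∀ m ∈ J, n ≤ 2 * m) →
    (J.card : ℝ) ≤ C * Real.log n ^ 2 → ∀ x, (∀ m ∈ J, hi m ≤ x ∧ ∀ a, a < hi m → g m a < x) →
    (1 - (n : ℝ) ^ (-(1 / 5) : ℝ)) * ∏ m ∈ J, (1 - pb (g m (fp m))) ≤ Pr y T0 x (NH J g) ∧
    Pr y T0 x (NH J g) ≤ (1 + (n : ℝ) ^ (-(1 / 5) : ℝ)) * ∏ m ∈ J, (1 - pb (g m (fp m))) := by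
  obtain ⟨K, hK0, hK⟩ := hG.close
  have hhalf : Tendsto (fun n : ℕ => (n + 1) / 2) atTop atTop := by
    refine tendsto_atTop.2 (fun b => ?_)
    filter_upwards [eventually_ge_atTop (2 * b)] with n hn
    omega
  have hr : ∀ r : ℝ, 0 < r → Tendsto (fun i : ℕ => (i : ℝ) ^ r) atTop atTop := fun r hr =>
    (tendsto_rpow_atTop hr).comp tendsto_natCast_atTop_atTop
  have h1 : Tendsto (fun n : ℕ => 16 * C * K * (n : ℝ) ^ (-(1 / 20) : ℝ) + 2 * (n : ℝ) ^ (-(4 / 5) : ℝ)) atTop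
      (𝓝 (16 * C * K * 0 + 2 * 0)) :=
    (((tendsto_rpow_neg_atTop (by norm_num)).comp tendsto_natCast_atTop_atTop).const_mul _).add
      (((tendsto_rpow_neg_atTop (by norm_num)).comp tendsto_natCast_atTop_atTop).const_mul _)
  rw [mul_zero, mul_zero, add_zero] at h1
  filter_upwards [hhalf.eventually (cond_near (show 0 ≤ 4 * C by linarith)), hhalf.eventually hK,
    hhalf.eventually (h1.eventually_le_const (show (0 : ℝ) < 1 / 2 by norm_num)), eventually_ge_atTop 10,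
    hhalf.eventually (hl.eventually_ge_atTop 1), (hr (1 / 4) (by norm_num)).eventually_ge_atTop 2,
    polylog_le 1 M (show (0 : ℝ) < 1 / 4 by norm_num), hl.eventually_ge_atTop 1,
    hhalf.eventually ((dl_tendsto.const_mul (16 * C * K)).eventually_le_const (show 16 * C * K * 0 < 1 by norm_num))]
    with n h2 h3 h4 h5 h6 h7 h8 h9 h10 y hy hyn T0 hT0 J hJ hJc x hx
  obtain ⟨n', hn'⟩ : ∃ n', n' = (n + 1) / 2 := ⟨_, rfl⟩
  rw [← hn'] at h2 h3 h4 h6 h10
  have hn0 : (0 : ℝ) < n := by exact_mod_cast (show 0 < n by omega)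
  have hn1 : n ≤ 2 * n' := by omega
  have hn2 : n' ≤ n := by omega
  have hn1' : (n : ℝ) ≤ 2 * n' := by exact_mod_cast hn1
  have hn0' : (0 : ℝ) < n' := by linarith
  have hlog : Real.log n ≤ 2 * Real.log n' := by
    have h11 := Real.log_le_log hn0 hn1'
    rw [Real.log_mul (by norm_num) hn0'.ne'] at h11
    have h12 : Real.log 2 ≤ 1 := by
      have := Real.log_two_lt_d9
      linarith
    linarith
  have hJ' : ∀ m ∈ J, n' ≤ m := fun m hm => by
    have := hJ m hm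
    omega
  have hyn' : (y : ℝ) ≤ Real.sqrt n' := by
    refine hyn.trans ?_
    have h11 : Real.log (n : ℝ) ^ M ≤ (n : ℝ) ^ (1 / 4 : ℝ) := by
      refine le_trans ?_ h8
      rw [one_mul]
      exact pow_le_pow_left₀ (by linarith) (by nlinarith) M
    refine h11.trans (Real.le_sqrt_of_sq_le ?_)
    have h12 : ((n : ℝ) ^ (1 / 4 : ℝ)) ^ 2 * 2 ≤ n := by
      have h13 : ((n : ℝ) ^ (1 / 4 : ℝ)) ^ 2 * ((n : ℝ) ^ (1 / 4 : ℝ)) ^ 2 = n := by
        rw [← pow_add, ← Real.rpow_natCast, ← Real.rpow_mul hn0.le]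
        norm_num
      have h14 : 0 ≤ ((n : ℝ) ^ (1 / 4 : ℝ)) ^ 2 := by positivity
      have h15 : (2 : ℝ) ≤ ((n : ℝ) ^ (1 / 4 : ℝ)) ^ 2 := by nlinarith
      nlinarith
    linarith
  have hcard : (J.card : ℝ) ≤ 4 * C * Real.log n' ^ 2 := by
    refine hJc.trans ?_
    have h11 : Real.log (n : ℝ) ^ 2 ≤ (2 * Real.log n') ^ 2 := pow_le_pow_left₀ (by linarith) hlog 2
    calc C * Real.log n ^ 2 ≤ C * (2 * Real.log n') ^ 2 := mul_le_mul_of_nonneg_left h11 hC
      _ = 4 * C * Real.log n' ^ 2 := by ring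
  have hl0 : 0 < Real.log (n' : ℝ) := by linarith
  have hd0 : 0 ≤ dl n' := Real.rpow_nonneg (Nat.cast_nonneg _) _
  have herr : 4 * (K * dl n' / Real.log n' ^ 2) * (4 * C * Real.log n' ^ 2) = 16 * C * K * dl n' := by
    field_simp
    ring
  have h11 := h2 y hy hyn' T0 hT0 J hJ' hcard g (fun m _ a ha => hG.gt m a ha)
    (fun m _ m' _ a a' hmm haa => hG.mono m m' a a' hmm haa) (fun m => pb (g m (fp m))) (K * dl n' / Real.log n' ^ 2)
    (fun m hm => by
      have h12 : m ≤ fp m := le_fp m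
      have h13 := hJ' m hm
      have h14 : 3 ≤ n' := by omega
      have h15 := hG.gt m (fp m) (by omega)
      exact pb_anti h14 (by omega))
    (fun m hm a ha1 ha2 => h3 m (hJ' m hm) a ha1 ha2) (by positivity) (by rw [herr]; exact h10) x hx
  rw [herr] at h11
  have h12 : 16 * C * K * dl n' + 2 * (n' : ℝ) ^ (-(1 : ℝ)) ≤ (n : ℝ) ^ (-(1 / 5) : ℝ) := by
    have e2 : 16 * C * K * dl n' + 2 * (n' : ℝ) ^ (-(1 : ℝ)) =
        (16 * C * K * (n' : ℝ) ^ (-(1 / 20) : ℝ) + 2 * (n' : ℝ) ^ (-(4 / 5) : ℝ)) * (n' : ℝ) ^ (-(1 / 5) : ℝ) := by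
      unfold dl
      rw [add_mul, mul_assoc (16 * C * K), mul_assoc 2, ← Real.rpow_add hn0', ← Real.rpow_add hn0']
      norm_num
    rw [e2]
    have h13 : (n' : ℝ) ^ (-(1 / 5) : ℝ) ≤ 2 * (n : ℝ) ^ (-(1 / 5) : ℝ) := by
      have h14 : (n' : ℝ) ^ (-(1 / 5) : ℝ) ≤ ((n : ℝ) / 2) ^ (-(1 / 5) : ℝ) :=
        Real.rpow_le_rpow_of_nonpos (by positivity) (by linarith) (by norm_num)
      refine h14.trans ?_
      rw [Real.div_rpow hn0.le (by norm_num), div_eq_mul_inv, ← Real.rpow_neg (by norm_num : (0 : ℝ) ≤ 2), mul_comm]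
      refine mul_le_mul_of_nonneg_right ?_ (Real.rpow_nonneg hn0.le _)
      calc (2 : ℝ) ^ (-(-(1 / 5) : ℝ)) ≤ (2 : ℝ) ^ (1 : ℝ) :=
            Real.rpow_le_rpow_of_exponent_le (by norm_num) (by norm_num)
        _ = 2 := Real.rpow_one 2
    have h15 : 0 ≤ (n' : ℝ) ^ (-(1 / 5) : ℝ) := Real.rpow_nonneg hn0'.le _
    nlinarith
  have hP0 : 0 ≤ ∏ m ∈ J, (1 - pb (g m (fp m))) := prod_nonneg (fun m hm => by
    have h13 : m ≤ fp m := le_fp m
    have h14 := hJ' m hm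
    have h15 := hG.gt m (fp m) (by omega)
    have := pb_lt_one (a := g m (fp m)) (by omega)
    linarith)
  refine ⟨le_trans (mul_le_mul_of_nonneg_right (by linarith) hP0) h11.2, ?_⟩
  refine (pr_mono hy (fun T _ h => Or.inl h)).trans (h11.1.trans (mul_le_mul_of_nonneg_right (by linarith) hP0))

/-- The horizon. -/
def XJ (D n : ℕ) : ℕ := n ^ (5 * D + 12) + n

theorem XJ_spec (hG : TgI g κ D) {idx : ℕ → ℕ → ℕ} (hI : Idx idx) (M : ℕ) : ∀ᶠ n : ℕ in atTop, ∀ j : ℕ, 1 ≤ j →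
    (j : ℝ) ≤ Real.log n ^ M → idx n j ≤ n ^ 2 ∧ 3 ≤ lo (idx n j) ∧ hi (idx n j) ≤ XJ D n ∧
      (∀ a, a < hi (idx n j) → g (idx n j) a < XJ D n) := by
  obtain ⟨s, hs⟩ := hG.le
  obtain ⟨M', hM'⟩ := hI.up M
  obtain ⟨m1, hm1⟩ := eventually_atTop.1 (hi_le.and pos_bounds)
  filter_upwards [hM', hI.low M, pow_log_le M', eventually_ge_atTop (2 * m1 + s + 10)] with n h1 h2 h3 h4 j hj1 hj2
  have h5 := h1 j hj1 hj2
  have h6 := h2 j hj1 hj2
  have hn0 : (0 : ℝ) < n := by exact_mod_cast (show 0 < n by omega)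
  have h7 : idx n j ≤ n ^ 2 := by
    have : (idx n j : ℝ) ≤ (n : ℝ) ^ 2 := by nlinarith
    exact_mod_cast this
  obtain ⟨h8, h9⟩ := hm1 (idx n j) (by omega)
  have h10 : hi (idx n j) ≤ n ^ 4 := h8.trans (by
    calc idx n j ^ 2 ≤ (n ^ 2) ^ 2 := Nat.pow_le_pow_left h7 2
      _ = n ^ 4 := by ring)
  have h11 : n ^ 4 ≤ n ^ (5 * D + 12) := Nat.pow_le_pow_right (by omega) (by omega)
  refine ⟨h7, by have := h9.2.2.2.1; omega, by unfold XJ; omega, fun a ha => ?_⟩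
  have h12 := hs (idx n j) a
  have h13 : (a + idx n j) ^ D ≤ n ^ (5 * D) := by
    have h15 : a + idx n j ≤ n ^ 5 := by
      have h16 : n ^ 2 ≤ n ^ 4 := Nat.pow_le_pow_right (by omega) (by norm_num)
      have h17 : 2 * n ^ 4 ≤ n ^ 5 := by
        rw [pow_succ n 4, mul_comm]
        exact Nat.mul_le_mul_left _ (by omega)
      omega
    calc (a + idx n j) ^ D ≤ (n ^ 5) ^ D := Nat.pow_le_pow_left h15 D
      _ = n ^ (5 * D) := by rw [← pow_mul]
  have h14 : n ^ (5 * D) ≤ n ^ (5 * D + 12) := Nat.pow_le_pow_right (by omega) (by omega)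
  unfold XJ
  omega

theorem qJ_lim (hG : TgI g κ D) {idx : ℕ → ℕ → ℕ} (hI : Idx idx) (M : ℕ) {δ : ℝ} (hδ : 0 < δ) :
    ∀ᶠ n : ℕ in atTop, ∀ j : ℕ, 1 ≤ j → (j : ℝ) ≤ Real.log n ^ M →
    |qJ idx g n j * (κ * Real.log n ^ 1) - 1| ≤ δ := by
  have hκ := hG.kpos
  obtain ⟨e, he⟩ : ∃ e : ℝ, e = min (δ / 8) (1 / 8) := ⟨_, rfl⟩
  have he0 : 0 < e := by rw [he]; exact lt_min (by linarith) (by norm_num)
  have he1 : e ≤ δ / 8 := by rw [he]; exact min_le_left _ _
  have he2 : e ≤ 1 / 8 := by rw [he]; exact min_le_right _ _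
  have hlim := hG.lim
  have hlim' : Tendsto (fun m : ℕ => Real.log (g m (fp m)) / Real.log m / κ) atTop (𝓝 1) := by
    have := hlim.div_const κ
    rwa [div_self hκ.ne'] at this
  obtain ⟨m1, hm1⟩ := eventually_atTop.1 ((hlim'.eventually_le_const (show 1 < 1 + e by linarith)).and
    (hlim'.eventually_const_le (show 1 - e < 1 by linarith)))
  filter_upwards [idx_log hI M he0, hI.low M, eventually_ge_atTop (2 * m1 + 10), hl.eventually_ge_atTop 1]
    with n h1 h2 h3 h4 j hj1 hj2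
  obtain ⟨h5, h6⟩ := h1 j hj1 hj2
  have h7 := h2 j hj1 hj2
  obtain ⟨h8, h9⟩ := hm1 (idx n j) (by omega)
  have hL : 0 < Real.log (idx n j : ℝ) := by nlinarith
  obtain ⟨z, hz⟩ : ∃ z : ℝ, z = Real.log (g (idx n j) (fp (idx n j))) := ⟨_, rfl⟩
  rw [← hz, div_div, div_le_iff₀ (by positivity)] at h8
  rw [← hz, div_div, le_div_iff₀ (by positivity)] at h9
  have hz0 : 0 < z := by nlinarith [mul_pos hL hκ]
  unfold qJ pb
  rw [← hz, pow_one, abs_le]
  have hln : 0 < Real.log (n : ℝ) := by linarith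
  have hk1 : (1 - e) * ((1 - e) * Real.log n * κ) ≤ z := by
    refine le_trans ?_ h9
    exact mul_le_mul_of_nonneg_left (mul_le_mul_of_nonneg_right h5 hκ.le) (by linarith)
  have hk2 : z ≤ (1 + e) * ((1 + e) * Real.log n * κ) := by
    refine h8.trans ?_
    exact mul_le_mul_of_nonneg_left (mul_le_mul_of_nonneg_right h6 hκ.le) (by linarith)
  have hX : 0 < Real.log n * κ := by positivity
  constructor
  · rw [neg_le_sub_iff_le_add, one_div, inv_mul_eq_div]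
    have h10 : 1 - δ ≤ κ * Real.log n / z := by
      rw [le_div_iff₀ hz0]
      by_cases hd : 1 - δ ≤ 0
      · exact le_trans (mul_nonpos_of_nonpos_of_nonneg hd hz0.le) (by positivity)
      · push Not at hd
        have h11 : (1 - δ) * z ≤ (1 - δ) * ((1 + e) * ((1 + e) * Real.log n * κ)) := mul_le_mul_of_nonneg_left hk2 hd.le
        have h12 : (1 - δ) * ((1 + e) * (1 + e)) ≤ 1 := by
          have h13 : (1 + e) * (1 + e) ≤ 1 + 3 * e := by nlinarith
          have h14 : (1 - δ) * ((1 + e) * (1 + e)) ≤ (1 - δ) * (1 + 3 * e) := mul_le_mul_of_nonneg_left h13 hd.le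
          nlinarith
        nlinarith
    linarith
  · rw [sub_le_iff_le_add, one_div, inv_mul_eq_div, div_le_iff₀ hz0]
    have h12 : 1 ≤ (δ + 1) * ((1 - e) * (1 - e)) := by
      have h13 : 1 - 2 * e ≤ (1 - e) * (1 - e) := by nlinarith
      have h14 : (δ + 1) * (1 - 2 * e) ≤ (δ + 1) * ((1 - e) * (1 - e)) := mul_le_mul_of_nonneg_left h13 (by linarith)
      have h15 : 1 ≤ (δ + 1) * (1 - 2 * e) := by nlinarith
      linarith
    have h16 : (δ + 1) * ((1 - e) * ((1 - e) * Real.log n * κ)) ≤ (δ + 1) * z := mul_le_mul_of_nonneg_left hk1 (by linarith)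
    nlinarith

/-- The tests at indices form a row. -/
theorem rowJ (hG : TgI g κ D) {idx : ℕ → ℕ → ℕ} (hI : Idx idx) {W : ℕ → Set ℕ → Prop} {V : ℕ → Set ℕ → Prop} {Y : ℕ → ℕ}
    (depV : ∀ h, Dep (Y h) (V h))
    (depW : ∀ h (S S' : Set ℕ), V h S → (∀ j, 3 ≤ j → j < Y h → (j ∈ S ↔ j ∈ S')) → ∀ j, 1 ≤ j → j ≤ h → (W j S ↔ W j S'))
    (Y3 : ∀ h, 3 ≤ Y h) (Ymono : Monotone Y) (Ypol : ∃ D : ℕ, ∀ h : ℕ, (Y h : ℝ) ≤ ((h : ℝ) + 2) ^ D) :
    Row W V Y (FlJ idx g) (XJ D) (qJ idx g) 1 κ where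
  hb := hG.kpos
  hβ := le_rfl
  depV := depV
  depW := depW
  Y3 := Y3
  Ymono := Ymono
  Ypol := Ypol
  Xmono := fun a b hab => by
    unfold XJ
    have := Nat.pow_le_pow_left hab (5 * D + 12)
    omega
  Xge := fun n => by unfold XJ; omega
  depF := fun M => by
    filter_upwards [XJ_spec hG hI M] with n h1 j hj1 hj2 S S' hS
    obtain ⟨h2, h3, h4, h5⟩ := h1 j hj1 hj2
    have key : ∀ S S' : Set ℕ, (∀ i, 3 ≤ i → i < XJ D n → (i ∈ S ↔ i ∈ S')) → FlJ idx g n j S → FlJ idx g n j S' := by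
      rintro S S' hS ⟨a, ha1, ha2, ha3, ha4⟩
      refine ⟨a, ha1, ha2, ?_, fun h6 => ha4 ?_⟩
      · have h7 : IsEl S (idx n j) a = IsEl S' (idx n j) a := dep_isEl (m := idx n j) (show a < XJ D n by omega) S S' hS
        rw [← h7]
        exact ha3
      · have h8 := hG.gt (idx n j) a (by omega)
        exact (hS (g (idx n j) a) (by omega) (h5 a ha2)).2 h6
    exact propext ⟨key S S' hS, key S' S (fun i h6 h7 => (hS i h6 h7).symm)⟩
  hq := fun M δ hδ => qJ_lim hG hI M hδ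
  one := fun C hC M => by
    classical
    filter_upwards [hG.cond hC M, XJ_spec hG hI M, hI.low M, hI.inj M] with n h1 h2 h3 h4 y hy hyn T0 hT0 U hU hUc x hx
    have hinj : Set.InjOn (idx n) (U : Set ℕ) := by
      intro j hj j' hj' hjj
      exact h4 j j' (hU j hj).1 (hU j hj).2 (hU j' hj').1 (hU j' hj').2 hjj
    have h5 := h1 y hy hyn T0 hT0 (U.image (idx n)) (fun m hm => by
      rw [mem_image] at hm
      obtain ⟨j, hj, rfl⟩ := hm
      exact h3 j (hU j hj).1 (hU j hj).2) (by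
      refine le_trans ?_ hUc
      exact_mod_cast card_image_le) x (fun m hm => by
      rw [mem_image] at hm
      obtain ⟨j, hj, rfl⟩ := hm
      have h6 := h2 j (hU j hj).1 (hU j hj).2
      exact ⟨by omega, fun a ha => lt_of_lt_of_le (h6.2.2.2 a ha) hx⟩)
    rw [prod_image hinj] at h5
    have h6 : Pr y T0 x (fun S => ∀ j ∈ U, FlJ idx g n j S) = Pr y T0 x (NH (U.image (idx n)) g) :=
      pr_congr hy (fun S => flJ_iff idx g n U S)
    rw [h6]
    exact h5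
  two := fun C hC M ρ hρ => by
    classical
    obtain ⟨n2, hn2⟩ := eventually_atTop.1 ((XJ_spec hG hI M).and ((hI.low M).and (hI.inj M)))
    filter_upwards [hG.cond (show 0 ≤ 2 * C by linarith) M, hI.sep M ρ hρ, eventually_ge_atTop (max n2 10),
      hl.eventually_ge_atTop 1] with n h1 h2 hn hl1 m hm1 hm2 y hy hyn T0 hT0 U U' hU hU' hUc hUc' x hx
    have hnm : n ≤ m := by
      have : (n : ℝ) ≤ m := by
        have : 0 ≤ Real.log (n : ℝ) ^ M := by positivity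
        linarith
      exact_mod_cast this
    obtain ⟨hX1, hlow1, hinj1⟩ := hn2 n (by omega)
    obtain ⟨hX2, hlow2, hinj2⟩ := hn2 m (by omega)
    have hlog : Real.log (n : ℝ) ^ M ≤ Real.log m ^ M :=
      pow_le_pow_left₀ (by linarith) (Real.log_le_log (by exact_mod_cast (show 0 < n by omega)) (by exact_mod_cast hnm)) M
    have hU2 : ∀ j ∈ U', 1 ≤ j ∧ (j : ℝ) ≤ Real.log m ^ M := fun j hj => ⟨(hU' j hj).1, (hU' j hj).2.trans hlog⟩
    have hi1 : Set.InjOn (idx n) (U : Set ℕ) := by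
      intro j hj j' hj' hjj
      exact hinj1 j j' (hU j hj).1 (hU j hj).2 (hU j' hj').1 (hU j' hj').2 hjj
    have hi2 : Set.InjOn (idx m) (U' : Set ℕ) := by
      intro j hj j' hj' hjj
      exact hinj2 j j' (hU2 j hj).1 (hU2 j hj).2 (hU2 j' hj').1 (hU2 j' hj').2 hjj
    have hdisj : Disjoint (U.image (idx n)) (U'.image (idx m)) := by
      rw [disjoint_left]
      intro a ha ha'
      rw [mem_image] at ha ha'
      obtain ⟨j, hj, rfl⟩ := ha
      obtain ⟨j', hj', hjj⟩ := ha'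
      exact h2 m hm1 hm2 j j' (hU j hj).1 (hU j hj).2 (hU' j' hj').1 (hU' j' hj').2 hjj.symm
    have hXnm : XJ D n ≤ XJ D m := by
      unfold XJ
      have := Nat.pow_le_pow_left hnm (5 * D + 12)
      omega
    have h5 := (h1 y hy hyn T0 hT0 (U.image (idx n) ∪ U'.image (idx m)) (fun k hk => by
      rw [mem_union, mem_image, mem_image] at hk
      rcases hk with ⟨j, hj, rfl⟩ | ⟨j, hj, rfl⟩
      · exact hlow1 j (hU j hj).1 (hU j hj).2
      · exact hnm.trans (hlow2 j (hU2 j hj).1 (hU2 j hj).2)) (by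
      have h6 : ((U.image (idx n) ∪ U'.image (idx m)).card : ℝ) ≤ U.card + U'.card := by
        exact_mod_cast (card_union_le _ _).trans (Nat.add_le_add card_image_le card_image_le)
      have h7 : (U.card : ℝ) ≤ C * Real.log n ^ 2 := hUc
      have h8 : (U'.card : ℝ) ≤ C * Real.log n ^ 2 := hUc'
      linarith) x (fun k hk => by
      rw [mem_union, mem_image, mem_image] at hk
      rcases hk with ⟨j, hj, rfl⟩ | ⟨j, hj, rfl⟩
      · have h6 := hX1 j (hU j hj).1 (hU j hj).2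
        exact ⟨by omega, fun a ha => lt_of_lt_of_le (h6.2.2.2 a ha) (hXnm.trans hx)⟩
      · have h6 := hX2 j (hU2 j hj).1 (hU2 j hj).2
        exact ⟨by omega, fun a ha => lt_of_lt_of_le (h6.2.2.2 a ha) hx⟩)).2
    rw [prod_union hdisj, prod_image hi1, prod_image hi2] at h5
    have h6 : Pr y T0 x (fun S => (∀ j ∈ U, FlJ idx g n j S) ∧ ∀ j ∈ U', FlJ idx g m j S) =
        Pr y T0 x (NH (U.image (idx n) ∪ U'.image (idx m)) g) :=
      pr_congr hy (fun S => by rw [nh_union, flJ_iff, flJ_iff])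
    rw [h6]
    exact h5

theorem idx_add : Idx (fun n j => n + j) where
  low := fun M => Eventually.of_forall (fun n j _ _ => by
    show n ≤ 2 * (n + j)
    omega)
  up := fun M => by
    refine ⟨1, ?_⟩
    filter_upwards [pow_log_le M, hl.eventually_ge_atTop 2, eventually_ge_atTop 1] with n h1 h2 h3 j _ hj2
    have h4 : (j : ℝ) ≤ n := hj2.trans h1
    have h5 : (0 : ℝ) < n := by exact_mod_cast h3
    push_cast
    rw [pow_one]
    nlinarith
  inj := fun M => Eventually.of_forall (fun n j j' _ _ _ _ h => by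
    have h1 : n + j = n + j' := h
    omega)
  sep := fun M ρ _ => by
    filter_upwards [hl.eventually_ge_atTop 1] with n h0 m hm _ j j' _ hj2 _ _ h
    have h1 : n + j = m + j' := h
    have h2 : (n : ℝ) + j = m + j' := by exact_mod_cast h1
    have h3 : (0 : ℝ) ≤ j' := Nat.cast_nonneg _
    linarith

variable {Ω : Type*} [MeasurableSpace Ω] {μ : Measure Ω} [IsProbabilityMeasure μ] {A : Ω → Set ℕ}

theorem ae_flJ (hA : IsCramer μ A) {idx : ℕ → ℕ → ℕ} (hI : Idx idx) (g : ℕ → ℕ → ℕ) : ∀ᵐ ω ∂μ, ∀ M : ℕ, ∀ᶠ n : ℕ in atTop,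
    ∀ j : ℕ, 1 ≤ j → (j : ℝ) ≤ Real.log n ^ M →
      (¬ FlJ idx g n j (A ω) ↔ g (idx n j) (el (A ω) (idx n j)) ∈ A ω) := by
  filter_upwards [ae_el hA] with ω h1
  obtain ⟨hinf, h1⟩ := h1
  obtain ⟨m0, hm0⟩ := eventually_atTop.1 h1
  intro M
  filter_upwards [hI.low M, eventually_ge_atTop (2 * m0 + 10)] with n h2 h3 j hj1 hj2
  have h4 := h2 j hj1 hj2
  have h5 := hm0 (idx n j) (by omega)
  have h6 := isEl_el hinf (show 1 ≤ idx n j by omega)
  unfold FlJ
  constructor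
  · intro h7
    by_contra hcon
    exact h7 ⟨_, h5.1, h5.2.1, h6, hcon⟩
  · rintro h7 ⟨a, _, _, h8, h9⟩
    rw [isEl_unique h8 h6] at h9
    exact h9 h7

theorem add_pow_le_pow {D : ℕ} (hD : 1 ≤ D) (a m : ℕ) : a + m ^ D ≤ (a + m) ^ D := by
  induction D, hD using Nat.le_induction with
  | base => simp
  | succ D hD ih =>
    rcases Nat.eq_zero_or_pos m with h | h
    · rw [h, zero_pow (by omega)]
      exact Nat.le_self_pow (by omega) a
    · rw [pow_succ, pow_succ]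
      nlinarith [Nat.zero_le (m ^ D), Nat.zero_le a, Nat.mul_le_mul_right (a + m) ih, Nat.mul_le_mul_left a h,
        Nat.zero_le (a * a), Nat.zero_le (m ^ D * a)]

/-- The numbers `a + c m`. -/
theorem tgI_add {c : ℕ → ℕ} (h0 : ∀ m, 1 ≤ c m) (hc : Monotone c) {D : ℕ} (hD : 1 ≤ D) (hle : ∃ s : ℕ, ∀ m, c m ≤ m ^ D + s)
    {κ : ℝ} (hκ : 0 < κ) (hlim : Tendsto (fun m : ℕ => Real.log ((fp m + c m : ℕ) : ℝ) / Real.log m) atTop (𝓝 κ)) :
    TgI (fun m a => a + c m) κ D where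
  kpos := hκ
  mono := fun m m' a a' hm ha => by
    show a + c m < a' + c m'
    have := hc hm.le
    omega
  gt := fun m a _ => by
    show a < a + c m
    have := h0 m
    omega
  le := by
    obtain ⟨s, hs⟩ := hle
    refine ⟨s, fun m a => ?_⟩
    show a + c m ≤ (a + m) ^ D + s
    have h1 := hs m
    have h2 := add_pow_le_pow hD a m
    omega
  close := by
    refine ⟨4, by norm_num, ?_⟩
    obtain ⟨n1, hn1⟩ := eventually_atTop.1 pos_bounds
    filter_upwards [eventually_ge_atTop n1, eventually_ge_atTop 3] with n hn hn3 m hm a h1 h2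
    obtain ⟨b1, b2, b3, b4, b5, b6, b7, b8, b9, b10, b11⟩ := hn1 m (hn.trans hm)
    have hfp := le_fp m
    have ha1 : (lo m : ℝ) ≤ a := by exact_mod_cast h1
    have ha2 : (a : ℝ) ≤ hi m := by exact_mod_cast h2.le
    have hc0 : (0 : ℝ) ≤ c m := Nat.cast_nonneg _
    have hf0 : (0 : ℝ) ≤ fp m := Nat.cast_nonneg _
    have hdn : dl m ≤ dl n := by
      unfold dl
      exact Real.rpow_le_rpow_of_nonpos (by exact_mod_cast (show 0 < n by omega)) (by exact_mod_cast hm) (by norm_num)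
    refine (pb_close (u := a + c m) (v := fp m + c m) (d := dl m) hn3 (by omega) (by omega) b1.le
      (by linarith) ?_ ?_).trans ?_
    · push_cast
      nlinarith [mul_nonneg b1.le hc0, mul_nonneg b1.le hf0]
    · push_cast
      nlinarith [mul_nonneg b1.le hc0]
    · exact div_le_div_of_nonneg_right (by linarith) (by positivity)
  lim := hlim

end Pool.Agent.Q197.CI
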