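import Pool.Agent.Q197.CI.Row
import Pool.Agent.Q197.CI.KdLaw

/-!
# Upper bounds for the number of failures
-/

set_option autoImplicit false

namespace Pool.Agent.Q197.CI

open Finset Filter MeasureTheory Pool.Agent.Q120.ET Pool.Agent.Q120.MF
open scoped Topology

variable {Ω : Type*} [MeasurableSpace Ω] {μ : Measure Ω} [IsProbabilityMeasure μ] {A : Ω → Set ℕ}

/-- Borel-Cantelli. -/
theorem bc {E : ℕ → Set Ω} {f : ℕ → ℝ} (hf : ∀ᶠ n in atTop, μ.real (E n) ≤ f n) (hs : Summable f) :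
    ∀ᵐ ω ∂μ, ∀ᶠ n in atTop, ω ∉ E n := by
  obtain ⟨n0, hn0⟩ := eventually_atTop.1 hf
  have hsum : Summable (fun n : ℕ => (if n < n0 then (1 : ℝ) else 0) + |f n|) := by
    refine Summable.add ?_ hs.abs
    exact summable_of_ne_finset_zero (s := range n0) (fun b hb => by
      rw [if_neg]
      rwa [mem_range] at hb)
  have hne : ∑' n : ℕ, μ (E n) ≠ ⊤ := by
    have h3 : ∀ n : ℕ, μ (E n) ≤ ENNReal.ofReal ((if n < n0 then (1 : ℝ) else 0) + |f n|) := by
      intro n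
      rw [← ofReal_measureReal]
      apply ENNReal.ofReal_le_ofReal
      by_cases h : n < n0
      · rw [if_pos h]
        have h4 : μ.real (E n) ≤ 1 := measureReal_le_one
        have h5 := abs_nonneg (f n)
        linarith
      · rw [if_neg h, zero_add]
        exact (hn0 n (by omega)).trans (le_abs_self _)
    refine ne_top_of_le_ne_top ?_ (ENNReal.tsum_le_tsum h3)
    rw [← ENNReal.ofReal_tsum_of_nonneg (fun n => by
      have h5 := abs_nonneg (f n)
      split_ifs <;> linarith) hsum]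
    exact ENNReal.ofReal_ne_top
  exact ae_eventually_notMem hne

/-- Weighted sums of indicators are finite. -/
theorem weight_sum {E : ℕ → Set Ω} (hE : ∀ n, MeasurableSet (E n)) {w f : ℕ → ℝ} (hw : ∀ n, 0 ≤ w n)
    (hf : ∀ᶠ n in atTop, μ.real (E n) * w n ≤ f n) (hs : Summable f) :
    ∀ᵐ ω ∂μ, ∃ C : ℝ, ∀ N : ℕ, ∑ n ∈ range N, (E n).indicator (fun _ => w n) ω ≤ C := by
  obtain ⟨n0, hn0⟩ := eventually_atTop.1 hf
  have hsum : Summable (fun n : ℕ => (if n < n0 then w n else 0) + |f n|) := by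
    refine Summable.add ?_ hs.abs
    exact summable_of_ne_finset_zero (s := range n0) (fun b hb => by
      rw [if_neg]
      rwa [mem_range] at hb)
  have h1 : ∫⁻ ω, ∑' n : ℕ, ENNReal.ofReal ((E n).indicator (fun _ => w n) ω) ∂μ ≠ ⊤ := by
    rw [lintegral_tsum (fun n => ((measurable_const.indicator (hE n)).ennreal_ofReal).aemeasurable)]
    have h3 : ∀ n : ℕ, ∫⁻ ω, ENNReal.ofReal ((E n).indicator (fun _ => w n) ω) ∂μ ≤
        ENNReal.ofReal ((if n < n0 then w n else 0) + |f n|) := by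
      intro n
      have h4 : ∀ ω, ENNReal.ofReal ((E n).indicator (fun _ => w n) ω) =
          (E n).indicator (fun _ => ENNReal.ofReal (w n)) ω := by
        intro ω
        by_cases h5 : ω ∈ E n
        · rw [Set.indicator_of_mem h5, Set.indicator_of_mem h5]
        · rw [Set.indicator_of_notMem h5, Set.indicator_of_notMem h5, ENNReal.ofReal_zero]
      rw [lintegral_congr h4, lintegral_indicator_const (hE n), ← ofReal_measureReal,
        ← ENNReal.ofReal_mul (hw n)]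
      apply ENNReal.ofReal_le_ofReal
      by_cases h : n < n0
      · rw [if_pos h]
        have h4 : μ.real (E n) ≤ 1 := measureReal_le_one
        have h5 := abs_nonneg (f n)
        nlinarith [hw n]
      · rw [if_neg h, zero_add, mul_comm]
        exact (hn0 n (by omega)).trans (le_abs_self _)
    refine ne_top_of_le_ne_top ?_ (ENNReal.tsum_le_tsum h3)
    rw [← ENNReal.ofReal_tsum_of_nonneg (fun n => by
      have h5 := abs_nonneg (f n)
      have h6 := hw n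
      split_ifs <;> linarith) hsum]
    exact ENNReal.ofReal_ne_top
  have h2 := ae_lt_top (Measurable.tsum (fun n => (measurable_const.indicator (hE n)).ennreal_ofReal)) h1
  filter_upwards [h2] with ω hω
  refine ⟨(∑' n : ℕ, ENNReal.ofReal ((E n).indicator (fun _ => w n) ω)).toReal, fun N => ?_⟩
  have h3 : ∀ n, 0 ≤ (E n).indicator (fun _ => w n) ω := fun n => Set.indicator_nonneg (fun _ _ => hw n) ω
  have h4 : ENNReal.ofReal (∑ n ∈ range N, (E n).indicator (fun _ => w n) ω) ≤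
      ∑' n : ℕ, ENNReal.ofReal ((E n).indicator (fun _ => w n) ω) := by
    rw [ENNReal.ofReal_sum_of_nonneg (fun n _ => h3 n)]
    exact ENNReal.sum_le_tsum _
  rw [← ENNReal.ofReal_le_iff_le_toReal hω.ne]
  exact h4

variable {W : ℕ → Set ℕ → Prop} {V : ℕ → Set ℕ → Prop} {Y : ℕ → ℕ} {Fl : ℕ → ℕ → Set ℕ → Prop}
  {X : ℕ → ℕ} {q : ℕ → ℕ → ℝ} {β : ℕ} {b : ℝ} {h : ℕ → ℕ} {l : ℕ → ℝ}

theorem pow_log_le (M : ℕ) : ∀ᶠ n : ℕ in atTop, Real.log n ^ M ≤ n := by
  have h1 := (Real.isLittleO_pow_log_id_atTop (n := M)).comp_tendsto tendsto_natCast_atTop_atTop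
  filter_upwards [h1.bound (show (0 : ℝ) < 1 by norm_num)] with n hn
  simp only [Function.comp_apply, id, Real.norm_eq_abs, one_mul] at hn
  rw [Nat.abs_cast] at hn
  exact (le_abs_self _).trans hn

theorem Row.Y_le (R : Row W V Y Fl X q β b) (M : ℕ) : ∃ M' : ℕ, M ≤ M' ∧ ∀ᶠ n : ℕ in atTop, ∀ k : ℕ,
    (k : ℝ) ≤ Real.log n ^ M → (Y k : ℝ) ≤ Real.log n ^ M' := by
  obtain ⟨D, hD⟩ := R.Ypol
  refine ⟨(M + 1) * D + M, by omega, ?_⟩
  filter_upwards [hl.eventually_ge_atTop 3] with n hn k hk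
  refine (hD k).trans ?_
  have h1 : (1 : ℝ) ≤ Real.log n ^ M := one_le_pow₀ (by linarith)
  have h2 : (k : ℝ) + 2 ≤ Real.log n ^ (M + 1) := by
    rw [pow_succ]
    nlinarith
  calc ((k : ℝ) + 2) ^ D ≤ (Real.log n ^ (M + 1)) ^ D := pow_le_pow_left₀ (by positivity) h2 D
    _ = Real.log n ^ ((M + 1) * D) := by rw [← pow_mul]
    _ ≤ Real.log n ^ ((M + 1) * D + M) := pow_le_pow_right₀ (by linarith) (by omega)

/-- Good small elements for `n`. -/
def VR (V : ℕ → Set ℕ → Prop) (W : ℕ → Set ℕ → Prop) (h : ℕ → ℕ) (l : ℕ → ℝ) (δ : ℝ) (n : ℕ) (S : Set ℕ) : Prop :=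
  V (h n) S ∧ Rg W h l δ n S

theorem Row.dep_VR (R : Row W V Y Fl X q β b) (δ : ℝ) (n : ℕ) : Dep (Y (h n)) (VR V W h l δ n) := by
  intro S S' hS
  have h1 : V (h n) S = V (h n) S' := R.depV (h n) S S' hS
  apply propext
  unfold VR Rg
  constructor
  · rintro ⟨h2, h3⟩
    rw [R.ws_eq le_rfl h2 hS] at h3
    exact ⟨h1 ▸ h2, h3⟩
  · rintro ⟨h2, h3⟩
    have h4 : V (h n) S := by rw [h1]; exact h2
    rw [R.ws_eq le_rfl h4 hS]
    exact ⟨h4, h3⟩

theorem Row.dep_all (R : Row W V Y Fl X q β b) {M : ℕ} (hh : ∀ᶠ n : ℕ in atTop, (h n : ℝ) ≤ Real.log n ^ M) (δ : ℝ) :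
    ∀ᶠ n : ℕ in atTop, Dep (X n) (fun S => VR V W h l δ n S ∧ En W Fl h n S) := by
  obtain ⟨M', hM', hY⟩ := R.Y_le M
  filter_upwards [hh, hY, pow_log_le M', R.depF M] with n h1 h2 h3 h4 S S' hS
  have hYX : Y (h n) ≤ X n := by
    have h5 : (Y (h n) : ℝ) ≤ n := (h2 _ h1).trans h3
    have h6 : Y (h n) ≤ n := by exact_mod_cast h5
    exact h6.trans (R.Xge n)
  have hS' : ∀ j, 3 ≤ j → j < Y (h n) → (j ∈ S ↔ j ∈ S') := fun j h3 hj => hS j h3 (by omega)
  have h5 : VR V W h l δ n S = VR V W h l δ n S' := R.dep_VR δ n S S' hS'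
  apply propext
  constructor
  · rintro ⟨h6, h7⟩
    refine ⟨h5 ▸ h6, ?_⟩
    rw [en_iff] at h7 ⊢
    rw [← R.ws_eq le_rfl h6.1 hS']
    intro j hj
    have h8 := h7 j hj
    rw [mem_Ws] at hj
    have h9 := h4 j hj.1.1 (le_trans (by exact_mod_cast hj.1.2) h1) S S' hS
    rw [← h9]
    exact h8
  · rintro ⟨h6, h7⟩
    have h6' : VR V W h l δ n S := by rw [h5]; exact h6
    refine ⟨h6', ?_⟩
    rw [en_iff] at h7 ⊢
    rw [R.ws_eq le_rfl h6'.1 hS']
    intro j hj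
    have h8 := h7 j hj
    rw [mem_Ws] at hj
    have h9 := h4 j hj.1.1 (le_trans (by exact_mod_cast hj.1.2) h1) S S' hS
    rw [h9]
    exact h8

theorem agree_union {y x : ℕ} {T0 T : Finset ℕ} (hT : T ⊆ Ico y x) :
    ∀ j, 3 ≤ j → j < y → (j ∈ (T0 : Set ℕ) ↔ j ∈ ((T0 ∪ T : Finset ℕ) : Set ℕ)) := by
  intro j _ hj
  rw [mem_coe, mem_coe, mem_union]
  constructor
  · exact fun h => Or.inl h
  · rintro (h | h)
    · exact h
    · have := mem_Ico.1 (hT h)
      omega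

/-- The probability that all tests fail. -/
theorem Row.prob_le (R : Row W V Y Fl X q β b) (hA : IsCramer μ A) {M : ℕ}
    (hh : ∀ᶠ n : ℕ in atTop, (h n : ℝ) ≤ Real.log n ^ M) (hl0 : ∀ᶠ n : ℕ in atTop, 0 ≤ l n) {C : ℝ}
    (hlC : ∀ᶠ n : ℕ in atTop, l n ≤ C * Real.log n ^ (β + 1)) {η : ℝ} (hη : 0 < η) :
    ∃ δ : ℝ, 0 < δ ∧ ∀ᶠ n : ℕ in atTop, μ.real {ω | VR V W h l δ n (A ω) ∧ En W Fl h n (A ω)} ≤
      2 * Real.exp (-((1 - η) * (l n / (b * Real.log n ^ β)))) := by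
  obtain ⟨δ, hδ0, hδ1, hQ⟩ := R.Q_bounds hh hl0 hη
  refine ⟨δ, hδ0, ?_⟩
  obtain ⟨M', hM', hY⟩ := R.Y_le M
  have hC0 : (0 : ℝ) ≤ 2 * max C 0 := by positivity
  filter_upwards [hQ, hh, hl0, hlC, hY, pow_log_le M', R.dep_all hh δ, R.one (2 * max C 0) hC0 M',
    hl.eventually_ge_atTop 1, eventually_ge_atTop 1] with n h1 h2 h3 h4 h5 h6 h7 h8 h9 h10
  rw [real_eq_pr hA h7]
  have hYX : Y (h n) ≤ X n := by
    have h11 : (Y (h n) : ℝ) ≤ n := (h5 _ h2).trans h6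
    have h12 : Y (h n) ≤ n := by exact_mod_cast h11
    exact h12.trans (R.Xge n)
  refine pr_cond_le (R.Y3 _) hYX (R.dep_VR δ n) (by positivity) (fun T0 hT0 hV => ?_)
  have hT0' : ∀ j ∈ T0, j < Y (h n) := fun j hj => (mem_Ico.1 (hT0 hj)).2
  have h13 : Pr (Y (h n)) T0 (X n) (En W Fl h n) ≤
      Pr (Y (h n)) T0 (X n) (fun S => ∀ j ∈ Ws W (T0 : Set ℕ) (h n), Fl n j S) := by
    refine pr_mono (R.Y3 _) (fun T hT h14 => ?_)
    rw [en_iff, ← R.ws_eq le_rfl hV.1 (agree_union hT)] at h14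
    exact h14
  have hpow : Real.log (n : ℝ) ^ M ≤ Real.log n ^ M' := pow_le_pow_right₀ h9 hM'
  have h14 := (h8 (Y (h n)) (R.Y3 _) (h5 _ h2) T0 hT0' (Ws W (T0 : Set ℕ) (h n)) (fun j hj => by
    rw [mem_Ws] at hj
    exact ⟨hj.1.1, le_trans (by exact_mod_cast hj.1.2) (h2.trans hpow)⟩) (by
    have h15 := hV.2.2
    have h16 : (1 + δ) * l n ≤ 2 * (max C 0 * Real.log n ^ (β + 1)) := by
      have h17 : C * Real.log n ^ (β + 1) ≤ max C 0 * Real.log n ^ (β + 1) :=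
        mul_le_mul_of_nonneg_right (le_max_left _ _) (by positivity)
      nlinarith
    linarith) (X n) le_rfl).2
  have h15 := (h1 _ hV.2).2.1
  unfold Qn at h15
  have h16 : (n : ℝ) ^ (-(1 / 5) : ℝ) ≤ 1 := Real.rpow_le_one_of_one_le_of_nonpos (by exact_mod_cast h10) (by norm_num)
  have h17 : 0 ≤ ∏ j ∈ Ws W (T0 : Set ℕ) (h n), (1 - q n j) :=
    prod_nonneg (fun j hj => by linarith [((h1 _ hV.2).2.2 j hj).2])
  have h18 : 0 ≤ (n : ℝ) ^ (-(1 / 5) : ℝ) := Real.rpow_nonneg (Nat.cast_nonneg _) _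
  nlinarith

/-- Above the threshold there are only finitely many failures. -/
theorem Row.never (R : Row W V Y Fl X q β b) (hA : IsCramer μ A) {M : ℕ}
    (hh : ∀ᶠ n : ℕ in atTop, (h n : ℝ) ≤ Real.log n ^ M) (hl0 : ∀ᶠ n : ℕ in atTop, 0 ≤ l n) {C : ℝ}
    (hlC : ∀ᶠ n : ℕ in atTop, l n ≤ C * Real.log n ^ (β + 1))
    (hV : ∀ δ : ℝ, 0 < δ → ∀ᵐ ω ∂μ, ∀ᶠ n in atTop, VR V W h l δ n (A ω)) {c : ℝ} (hc : 1 < c)
    (hτ : ∀ᶠ n : ℕ in atTop, c * Real.log n ≤ l n / (b * Real.log n ^ β)) :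
    ∀ᵐ ω ∂μ, ∀ᶠ n in atTop, ¬ En W Fl h n (A ω) := by
  obtain ⟨η, hη⟩ : ∃ η : ℝ, η = (1 - 1 / c) / 2 := ⟨_, rfl⟩
  have hc1 : 1 / c < 1 := by rw [div_lt_one (by linarith)]; exact hc
  have hη0 : 0 < η := by rw [hη]; linarith
  obtain ⟨δ, hδ, hp⟩ := R.prob_le hA hh hl0 hlC hη0
  have hη1 : 1 < (1 - η) * c := by
    have h1 : (1 - η) * c = (c + 1) / 2 := by
      rw [hη]
      field_simp
      ring
    rw [h1]
    linarith
  have h1 := bc (μ := μ) (E := fun n => {ω | VR V W h l δ n (A ω) ∧ En W Fl h n (A ω)})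
    (f := fun n : ℕ => 2 * (n : ℝ) ^ (-((1 - η) * c))) ?_ ?_
  · filter_upwards [h1, hV δ hδ] with ω h2 h3
    filter_upwards [h2, h3] with n h4 h5 h6
    exact h4 ⟨h5, h6⟩
  · filter_upwards [hp, hτ, eventually_ge_atTop 1] with n h2 h3 h4
    refine h2.trans ?_
    have hn0 : (0 : ℝ) < n := by exact_mod_cast h4
    rw [Real.rpow_def_of_pos hn0]
    refine mul_le_mul_of_nonneg_left (Real.exp_le_exp.2 ?_) (by norm_num)
    have h5 : (1 - η) * (c * Real.log n) ≤ (1 - η) * (l n / (b * Real.log n ^ β)) :=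
      mul_le_mul_of_nonneg_left h3 (by
        rw [hη]
        have : 0 < 1 / c := by positivity
        linarith)
    linarith
  · exact (Real.summable_nat_rpow.2 (by linarith)).mul_left 2

theorem zc_range_sum (E : ℕ → Set ℕ → Prop) (S : Set ℕ) (N : ℕ) {w : ℕ → ℝ} {c : ℝ} (hc : 0 ≤ c)
    (hw : ∀ n < N, 1 ≤ c * w n) (hw0 : ∀ n, 0 ≤ w n) :
    Zc (range N) E S ≤ c * ∑ n ∈ range N, ({n | E n S} : Set ℕ).indicator w n := by
  classical
  rw [zc_eq, mul_sum]
  refine sum_le_sum (fun n hn => ?_)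
  by_cases h1 : E n S
  · rw [if_pos h1, Set.indicator_of_mem (show n ∈ ({n | E n S} : Set ℕ) from h1)]
    exact hw n (mem_range.1 hn)
  · rw [if_neg h1]
    exact mul_nonneg hc (Set.indicator_nonneg (fun a _ => hw0 a) n)

/-- Upper bound for the number of failures. -/
theorem Row.count_le (R : Row W V Y Fl X q β b) (hA : IsCramer μ A) {M : ℕ}
    (hh : ∀ᶠ n : ℕ in atTop, (h n : ℝ) ≤ Real.log n ^ M) (hl0 : ∀ᶠ n : ℕ in atTop, 0 ≤ l n) {C : ℝ}
    (hlC : ∀ᶠ n : ℕ in atTop, l n ≤ C * Real.log n ^ (β + 1))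
    (hV : ∀ δ : ℝ, 0 < δ → ∀ᵐ ω ∂μ, ∀ᶠ n in atTop, VR V W h l δ n (A ω)) {c : ℝ} (hc0 : 0 < c) (hc1 : c < 1)
    (hτ : ∀ᶠ n : ℕ in atTop, c * Real.log n ≤ l n / (b * Real.log n ^ β)) {ε : ℝ} (hε : 0 < ε) :
    ∀ᵐ ω ∂μ, ∀ᶠ N : ℕ in atTop, Zc (range N) (En W Fl h) (A ω) ≤ (N : ℝ) ^ (1 - c + ε) := by
  obtain ⟨η, hη⟩ : ∃ η : ℝ, η = min (ε / 4) (1 / 2) := ⟨_, rfl⟩
  have hη0 : 0 < η := by rw [hη]; exact lt_min (by linarith) (by norm_num)
  have hη1 : η ≤ ε / 4 := by rw [hη]; exact min_le_left _ _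
  have hη2 : η ≤ 1 / 2 := by rw [hη]; exact min_le_right _ _
  obtain ⟨δ, hδ, hp⟩ := R.prob_le hA hh hl0 hlC hη0
  obtain ⟨n1, hn1⟩ := eventually_atTop.1 (R.dep_all (l := l) hh δ)
  obtain ⟨E, hE⟩ : ∃ E : ℕ → Set Ω, E = fun n => if n1 ≤ n then {ω | VR V W h l δ n (A ω) ∧ En W Fl h n (A ω)} else ∅ :=
    ⟨_, rfl⟩
  have hEm : ∀ n, MeasurableSet (E n) := by
    intro n
    rw [hE]
    simp only
    split_ifs with h1
    · exact measurable_dep hA (hn1 n h1)
    · exact MeasurableSet.empty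
  have h1 := weight_sum (μ := μ) hEm (w := fun n : ℕ => (n : ℝ) ^ (-(1 - c + ε / 2)))
    (f := fun n : ℕ => 2 * (n : ℝ) ^ (-(1 + ε / 4))) (fun n => Real.rpow_nonneg (Nat.cast_nonneg _) _) ?_ ?_
  · filter_upwards [h1, hV δ hδ] with ω h2 h3
    obtain ⟨C', hC'⟩ := h2
    obtain ⟨n2, hn2⟩ := eventually_atTop.1 h3
    obtain ⟨n3, hn3⟩ : ∃ n3, n3 = max (max n1 n2) 1 := ⟨_, rfl⟩
    have hlim : Tendsto (fun N : ℕ => (N : ℝ) ^ (ε / 2)) atTop atTop :=
      (tendsto_rpow_atTop (by linarith)).comp tendsto_natCast_atTop_atTop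
    have hlim2 : Tendsto (fun N : ℕ => (N : ℝ) ^ (1 - c + ε)) atTop atTop :=
      (tendsto_rpow_atTop (by linarith)).comp tendsto_natCast_atTop_atTop
    filter_upwards [hlim.eventually_ge_atTop (2 * |C'|), hlim2.eventually_ge_atTop (2 * (n3 : ℝ)), eventually_ge_atTop n3]
      with N h4 h5 h6
    have hN0 : 1 ≤ N := by omega
    have hN0' : (0 : ℝ) < N := by exact_mod_cast hN0
    have h7 : Zc (range N) (En W Fl h) (A ω) ≤ n3 + (N : ℝ) ^ (1 - c + ε / 2) * C' := by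
      classical
      have h8 : Zc (range N) (En W Fl h) (A ω) ≤ n3 + Zc (Ico n3 N) (En W Fl h) (A ω) := by
        rw [zc_eq, zc_eq, ← sum_range_add_sum_Ico _ h6]
        gcongr
        calc ∑ n ∈ range n3, (if En W Fl h n (A ω) then (1 : ℝ) else 0) ≤ ∑ n ∈ range n3, (1 : ℝ) :=
              sum_le_sum (fun n _ => by split_ifs <;> norm_num)
          _ = n3 := by simp
      refine h8.trans ?_
      gcongr
      have h9 : Zc (Ico n3 N) (En W Fl h) (A ω) ≤ (N : ℝ) ^ (1 - c + ε / 2) *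
          ∑ n ∈ range N, (E n).indicator (fun _ => (n : ℝ) ^ (-(1 - c + ε / 2))) ω := by
        rw [zc_eq, mul_sum]
        refine le_trans (sum_le_sum (fun n hn => ?_)) (sum_le_sum_of_subset_of_nonneg (s := Ico n3 N) (fun n hn => ?_)
          (fun n _ _ => mul_nonneg (Real.rpow_nonneg hN0'.le _)
            (Set.indicator_nonneg (fun _ _ => Real.rpow_nonneg (Nat.cast_nonneg _) _) ω)))
        · rw [mem_Ico] at hn
          by_cases h10 : En W Fl h n (A ω)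
          · rw [if_pos h10]
            have h11 : ω ∈ E n := by
              rw [hE]
              simp only
              rw [if_pos (by omega)]
              exact ⟨hn2 n (by omega), h10⟩
            rw [Set.indicator_of_mem h11, Real.rpow_neg (Nat.cast_nonneg _), ← div_eq_mul_inv]
            have hn0 : (0 : ℝ) < n := by
              have : 1 ≤ n := by omega
              exact_mod_cast this
            rw [one_le_div (Real.rpow_pos_of_pos hn0 _)]
            exact Real.rpow_le_rpow hn0.le (by exact_mod_cast hn.2.le) (by linarith)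
          · rw [if_neg h10]
            exact mul_nonneg (Real.rpow_nonneg hN0'.le _)
              (Set.indicator_nonneg (fun _ _ => Real.rpow_nonneg (Nat.cast_nonneg _) _) ω)
        · rw [mem_Ico] at hn
          exact mem_range.2 hn.2
      refine h9.trans (mul_le_mul_of_nonneg_left (hC' N) (Real.rpow_nonneg hN0'.le _))
    refine h7.trans ?_
    have h8 : (N : ℝ) ^ (1 - c + ε) = (N : ℝ) ^ (1 - c + ε / 2) * (N : ℝ) ^ (ε / 2) := by
      rw [← Real.rpow_add hN0']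
      congr 1
      ring
    have h9 : (N : ℝ) ^ (1 - c + ε / 2) * (2 * C') ≤ (N : ℝ) ^ (1 - c + ε) := by
      rw [h8]
      refine mul_le_mul_of_nonneg_left ?_ (Real.rpow_nonneg hN0'.le _)
      have := le_abs_self C'
      linarith
    linarith
  · filter_upwards [hp, hτ, eventually_ge_atTop 1, eventually_ge_atTop n1] with n h2 h3 h4 h5
    have hn0 : (0 : ℝ) < n := by exact_mod_cast h4
    have h6 : μ.real (E n) ≤ 2 * (n : ℝ) ^ (-((1 - η) * c)) := by
      rw [hE]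
      simp only
      rw [if_pos h5]
      refine h2.trans ?_
      rw [Real.rpow_def_of_pos hn0]
      refine mul_le_mul_of_nonneg_left (Real.exp_le_exp.2 ?_) (by norm_num)
      have h7 : (1 - η) * (c * Real.log n) ≤ (1 - η) * (l n / (b * Real.log n ^ β)) :=
        mul_le_mul_of_nonneg_left h3 (by linarith)
      linarith
    calc μ.real (E n) * (n : ℝ) ^ (-(1 - c + ε / 2)) ≤ 2 * (n : ℝ) ^ (-((1 - η) * c)) * (n : ℝ) ^ (-(1 - c + ε / 2)) :=
          mul_le_mul_of_nonneg_right h6 (Real.rpow_nonneg hn0.le _)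
      _ = 2 * (n : ℝ) ^ (-((1 - η) * c) + -(1 - c + ε / 2)) := by rw [Real.rpow_add hn0]; ring
      _ ≤ 2 * (n : ℝ) ^ (-(1 + ε / 4)) := by
          refine mul_le_mul_of_nonneg_left (Real.rpow_le_rpow_of_exponent_le (by exact_mod_cast h4) ?_) (by norm_num)
          nlinarith
  · exact (Real.summable_nat_rpow.2 (by linarith)).mul_left 2

end Pool.Agent.Q197.CI
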