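import Pool.Agent.Q120.NC.Basic

/-!
# A strong law for events which are nearly independent
-/

set_option autoImplicit false

namespace Pool.Agent.Q197.CI

open Finset MeasureTheory Filter Pool.Agent.Q120.NC
open scoped Topology

variable {Ω : Type*} [MeasurableSpace Ω] {μ : Measure Ω} [IsProbabilityMeasure μ]

theorem second {E : ℕ → Set Ω} (hE : ∀ n, MeasurableSet (E n)) (Q : ℕ → ℝ) (N : ℕ) :
    Integrable (fun ω => (cnt E N ω - ∑ n ∈ range N, Q n) ^ 2) μ ∧
    ∫ ω, (cnt E N ω - ∑ n ∈ range N, Q n) ^ 2 ∂μ = ∑ n ∈ range N, ∑ m ∈ range N,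
      (μ.real (E n ∩ E m) - Q m * μ.real (E n) - Q n * μ.real (E m) + Q n * Q m) := by
  have h1 : ∀ ω, (cnt E N ω - ∑ n ∈ range N, Q n) ^ 2 = ∑ n ∈ range N, ∑ m ∈ range N,
      ((E n ∩ E m).indicator (fun _ => (1 : ℝ)) ω - Q m * (E n).indicator (fun _ => (1 : ℝ)) ω -
        Q n * (E m).indicator (fun _ => (1 : ℝ)) ω + Q n * Q m) := by
    intro ω
    unfold cnt
    rw [← sum_sub_distrib, sq, sum_mul_sum]
    refine sum_congr rfl (fun n _ => sum_congr rfl (fun m _ => ?_))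
    rw [← mul_ind]
    ring
  have hi : ∀ n m : ℕ, Integrable (fun ω => (E n ∩ E m).indicator (fun _ => (1 : ℝ)) ω -
      Q m * (E n).indicator (fun _ => (1 : ℝ)) ω - Q n * (E m).indicator (fun _ => (1 : ℝ)) ω + Q n * Q m) μ := by
    intro n m
    exact (((integrable_ind ((hE n).inter (hE m))).sub ((integrable_ind (hE n)).const_mul _)).sub
      ((integrable_ind (hE m)).const_mul _)).add (integrable_const _)
  have hI := integrable_finsetSum (μ := μ) (range N) (fun n _ => integrable_finsetSum (range N) (fun m _ => hi n m))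
  constructor
  · refine hI.congr (Eventually.of_forall (fun ω => ?_))
    simp only
    rw [h1 ω]
  · rw [integral_congr_ae (Eventually.of_forall h1),
      integral_finsetSum _ (fun n _ => integrable_finsetSum (range N) (fun m _ => hi n m))]
    refine sum_congr rfl (fun n _ => ?_)
    rw [integral_finsetSum _ (fun m _ => hi n m)]
    refine sum_congr rfl (fun m _ => ?_)
    have i1 : Integrable (fun ω => (E n ∩ E m).indicator (fun _ => (1 : ℝ)) ω) μ :=
      integrable_ind ((hE n).inter (hE m))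
    have i2 : Integrable (fun ω => Q m * (E n).indicator (fun _ => (1 : ℝ)) ω) μ := (integrable_ind (hE n)).const_mul _
    have i3 : Integrable (fun ω => Q n * (E m).indicator (fun _ => (1 : ℝ)) ω) μ := (integrable_ind (hE m)).const_mul _
    have i12 : Integrable (fun ω => (E n ∩ E m).indicator (fun _ => (1 : ℝ)) ω -
      Q m * (E n).indicator (fun _ => (1 : ℝ)) ω) μ := i1.sub i2
    have i123 : Integrable (fun ω => (E n ∩ E m).indicator (fun _ => (1 : ℝ)) ω -
      Q m * (E n).indicator (fun _ => (1 : ℝ)) ω - Q n * (E m).indicator (fun _ => (1 : ℝ)) ω) μ := i12.sub i3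
    rw [integral_add i123 (integrable_const _), integral_sub i12 i3, integral_sub i1 i2,
      integral_const_mul, integral_const_mul, integral_ind (hE n), integral_ind (hE m),
      integral_ind ((hE n).inter (hE m)), integral_const]
    simp

theorem det12 {X S : ℕ → ℝ} (hX : Monotone X) (hX0 : ∀ N, 0 ≤ X N) (hS : Monotone S) (hS0 : ∀ N, 0 ≤ S N)
    (hST : Tendsto S atTop atTop)
    (M : ℕ → ℕ) (hM1 : ∀ k : ℕ, (k : ℝ) ^ 12 ≤ S (M k)) (hM2 : ∀ k : ℕ, S (M k) ≤ (k : ℝ) ^ 12 + 1)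
    (hM3 : ∀ (k N : ℕ), (k : ℝ) ^ 12 ≤ S N → M k ≤ N)
    (hlim : ∀ δ : ℝ, 0 < δ → ∀ᶠ k in atTop, |X (M k) - S (M k)| < δ * S (M k)) :
    Tendsto (fun N => X N / S N) atTop (𝓝 1) := by
  have hk : ∀ k : ℕ, ((k : ℝ) ^ 12) ^ (1 / 6 : ℝ) = (k : ℝ) ^ 2 := by
    intro k
    rw [← Real.rpow_natCast, ← Real.rpow_mul (Nat.cast_nonneg k)]
    norm_num
  have h1 : Tendsto (fun N => (X N) ^ (1 / 6 : ℝ) / (S N) ^ (1 / 6 : ℝ)) atTop (𝓝 1) := by
    refine det (fun a b h => Real.rpow_le_rpow (hX0 a) (hX h) (by norm_num))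
      (fun a b h => Real.rpow_le_rpow (hS0 a) (hS h) (by norm_num))
      ((tendsto_rpow_atTop (by norm_num)).comp hST) M ?_ ?_ ?_ ?_
    · intro k
      rw [← hk]
      exact Real.rpow_le_rpow (by positivity) (hM1 k) (by norm_num)
    · intro k
      have h2 := Real.rpow_le_rpow (hS0 _) (hM2 k) (show (0 : ℝ) ≤ 1 / 6 by norm_num)
      have h3 := Real.rpow_add_le_add_rpow (show (0 : ℝ) ≤ (k : ℝ) ^ 12 by positivity) zero_le_one
        (show (0 : ℝ) ≤ 1 / 6 by norm_num) (by norm_num)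
      rw [hk, Real.one_rpow] at h3
      exact h2.trans h3
    · intro k N h
      apply hM3
      have h2 := Real.rpow_le_rpow (by positivity) h (show (0 : ℝ) ≤ 6 by norm_num)
      rw [← Real.rpow_mul (hS0 N)] at h2
      have h3 : ((k : ℝ) ^ 2) ^ (6 : ℝ) = (k : ℝ) ^ 12 := by
        rw [← Real.rpow_natCast, ← Real.rpow_mul (Nat.cast_nonneg k), ← Real.rpow_natCast]
        norm_num
      rw [h3] at h2
      norm_num at h2
      exact h2
    · intro δ hδ
      filter_upwards [hlim δ hδ, eventually_ge_atTop 1] with k h2 h3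
      have h4 : (0 : ℝ) < (k : ℝ) ^ 12 := by
        have : (0 : ℝ) < k := by exact_mod_cast h3
        positivity
      obtain ⟨s, hs⟩ : ∃ s, s = S (M k) := ⟨_, rfl⟩
      obtain ⟨x, hx⟩ : ∃ x, x = X (M k) := ⟨_, rfl⟩
      have hs0 : 0 < s := by rw [hs]; exact lt_of_lt_of_le h4 (hM1 k)
      have hx0 : 0 ≤ x := by rw [hx]; exact hX0 _
      rw [← hs, ← hx] at h2 ⊢
      obtain ⟨v, hv⟩ : ∃ v, v = x / s := ⟨_, rfl⟩
      have hv0 : 0 ≤ v := by rw [hv]; positivity
      have hxv : x = v * s := by rw [hv]; field_simp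
      have h5 : |v - 1| < δ := by
        have h6 : |x - s| = |v - 1| * s := by
          rw [hxv, ← abs_of_pos hs0, ← abs_mul, abs_of_pos hs0]
          congr 1
          ring
        rw [h6] at h2
        exact lt_of_mul_lt_mul_right h2 hs0.le
      have h6 : |v ^ (1 / 6 : ℝ) - 1| ≤ |v - 1| := by
        rcases le_total 1 v with h7 | h7
        · have h8 : 1 ≤ v ^ (1 / 6 : ℝ) := Real.one_le_rpow h7 (by norm_num)
          have h9 : v ^ (1 / 6 : ℝ) ≤ v := by
            calc v ^ (1 / 6 : ℝ) ≤ v ^ (1 : ℝ) := Real.rpow_le_rpow_of_exponent_le h7 (by norm_num)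
              _ = v := Real.rpow_one v
          rw [abs_of_nonneg (by linarith), abs_of_nonneg (by linarith)]
          linarith
        · have h8 : v ^ (1 / 6 : ℝ) ≤ 1 := Real.rpow_le_one hv0 h7 (by norm_num)
          have h9 : v ≤ v ^ (1 / 6 : ℝ) := by
            rcases hv0.eq_or_lt with h10 | h10
            · rw [← h10]
              positivity
            · calc v = v ^ (1 : ℝ) := (Real.rpow_one v).symm
                _ ≤ v ^ (1 / 6 : ℝ) := Real.rpow_le_rpow_of_exponent_ge h10 h7 (by norm_num)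
          rw [abs_of_nonpos (by linarith), abs_of_nonpos (by linarith)]
          linarith
      have h7 : x ^ (1 / 6 : ℝ) - s ^ (1 / 6 : ℝ) = (v ^ (1 / 6 : ℝ) - 1) * s ^ (1 / 6 : ℝ) := by
        rw [hxv, Real.mul_rpow hv0 hs0.le]
        ring
      have h8 : 0 < s ^ (1 / 6 : ℝ) := by positivity
      rw [h7, abs_mul, abs_of_pos h8]
      exact mul_lt_mul_of_pos_right (lt_of_le_of_lt h6 h5) h8
  have h2 := h1.pow 6
  rw [one_pow] at h2
  refine h2.congr' ?_
  filter_upwards [hST.eventually_gt_atTop 0] with N hN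
  rw [← Real.div_rpow (hX0 N) hN.le, ← Real.rpow_natCast, ← Real.rpow_mul (div_nonneg (hX0 N) hN.le)]
  norm_num

/-- The strong law. -/
theorem slaw {E : ℕ → Set Ω} (hE : ∀ n, MeasurableSet (E n)) (Q : ℕ → ℝ) (hQ0 : ∀ n, 0 ≤ Q n) (hQ1 : ∀ n, Q n ≤ 1)
    (hQ : Tendsto (fun N => ∑ n ∈ range N, Q n) atTop atTop) {K : ℝ}
    (hK : ∀ᶠ N : ℕ in atTop, ∑ n ∈ range N, ∑ m ∈ range N,
      (μ.real (E n ∩ E m) - Q m * μ.real (E n) - Q n * μ.real (E m) + Q n * Q m) ≤
      K * (∑ n ∈ range N, Q n) ^ (11 / 6 : ℝ)) :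
    ∀ᵐ ω ∂μ, Tendsto (fun N => cnt E N ω / ∑ n ∈ range N, Q n) atTop (𝓝 1) := by
  classical
  obtain ⟨S, hSd⟩ : ∃ S : ℕ → ℝ, S = fun N => ∑ n ∈ range N, Q n := ⟨_, rfl⟩
  have hSN : ∀ N, ∑ n ∈ range N, Q n = S N := fun N => by rw [hSd]
  simp only [hSN] at hQ hK ⊢
  have hSm : Monotone S := by
    intro a b h
    rw [hSd]
    exact sum_le_sum_of_subset_of_nonneg (range_mono h) (fun _ _ _ => hQ0 _)
  have hS0 : ∀ N, 0 ≤ S N := fun N => by rw [hSd]; exact sum_nonneg (fun _ _ => hQ0 _)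
  have hex : ∀ k : ℕ, ∃ N, (k : ℝ) ^ 12 ≤ S N := fun k => (hQ.eventually_ge_atTop ((k : ℝ) ^ 12)).exists
  obtain ⟨M, hM⟩ : ∃ M : ℕ → ℕ, M = fun (k : ℕ) => Nat.find (hex k) := ⟨_, rfl⟩
  have hM1 : ∀ k : ℕ, (k : ℝ) ^ 12 ≤ S (M k) := fun k => by rw [hM]; exact Nat.find_spec (hex k)
  have hM3 : ∀ (k : ℕ) (N : ℕ), (k : ℝ) ^ 12 ≤ S N → M k ≤ N := fun k N h => by
    rw [hM]; exact Nat.find_min' (hex k) h
  have hM2 : ∀ k : ℕ, S (M k) ≤ (k : ℝ) ^ 12 + 1 := by
    intro k
    rcases Nat.eq_zero_or_pos (M k) with h | h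
    · rw [h]
      have : S 0 = 0 := by rw [hSd]; simp
      rw [this]
      positivity
    · obtain ⟨m, hm⟩ : ∃ m, M k = m + 1 := ⟨M k - 1, by omega⟩
      have h1 : ¬ (k : ℝ) ^ 12 ≤ S m := fun hcon => by
        have := hM3 k m hcon
        omega
      rw [hm]
      have h2 : S (m + 1) = S m + Q m := by rw [hSd]; simp only; rw [sum_range_succ]
      rw [h2]
      have h3 := hQ1 m
      push Not at h1
      linarith
  have hMtop : Tendsto M atTop atTop := by
    rw [tendsto_atTop]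
    intro b
    filter_upwards [eventually_gt_atTop b, eventually_ge_atTop 1] with k hk hk1
    have h1 := hM1 k
    have h2 : S (M k) ≤ M k := by
      rw [hSd]
      refine (sum_le_sum (fun n _ => hQ1 n)).trans ?_
      simp
    have h3 : (k : ℝ) ≤ (k : ℝ) ^ 12 := by
      have : (1 : ℝ) ≤ k := by exact_mod_cast hk1
      calc (k : ℝ) = (k : ℝ) ^ 1 := (pow_one _).symm
        _ ≤ (k : ℝ) ^ 12 := pow_le_pow_right₀ this (by norm_num)
    have h4 : (k : ℝ) ≤ M k := by linarith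
    have h5 : k ≤ M k := by exact_mod_cast h4
    omega
  have hK' := hMtop.eventually hK
  have key : ∀ j : ℕ, ∀ᵐ ω ∂μ, ∀ᶠ k in atTop, |cnt E (M k) ω - S (M k)| < 1 / ((j : ℝ) + 1) * S (M k) := by
    intro j
    obtain ⟨δ, hδ⟩ : ∃ δ : ℝ, δ = 1 / ((j : ℝ) + 1) := ⟨_, rfl⟩
    have hδ0 : 0 < δ := by rw [hδ]; positivity
    rw [← hδ]
    obtain ⟨k1, hk1⟩ := eventually_atTop.1 (hK'.and (eventually_ge_atTop 1))
    have hsum : Summable (fun k : ℕ => |K| / δ ^ 2 * (1 / (k : ℝ) ^ 2)) :=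
      (Real.summable_one_div_nat_pow.2 (by norm_num)).mul_left _
    have h1 : ∀ k : ℕ, k1 ≤ k → μ.real {ω | δ * S (M k) ≤ |cnt E (M k) ω - S (M k)|} ≤
        |K| / δ ^ 2 * (1 / (k : ℝ) ^ 2) := by
      intro k hk
      obtain ⟨h2, h3⟩ := hk1 k hk
      have hk0 : (0 : ℝ) < k := by exact_mod_cast h3
      have hk' : (0 : ℝ) < (k : ℝ) ^ 12 := by positivity
      have h4 : 0 < S (M k) := lt_of_lt_of_le hk' (hM1 k)
      obtain ⟨h5, h6⟩ := second (μ := μ) hE Q (M k)
      rw [hSN] at h5 h6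
      rw [← h6] at h2
      have h7 := mul_meas_ge_le_integral_of_nonneg (μ := μ) (f := fun ω => (cnt E (M k) ω - S (M k)) ^ 2)
        (Eventually.of_forall (fun ω => sq_nonneg _)) h5 ((δ * S (M k)) ^ 2)
      have h8 : {ω | δ * S (M k) ≤ |cnt E (M k) ω - S (M k)|} ⊆
          {ω | (δ * S (M k)) ^ 2 ≤ (cnt E (M k) ω - S (M k)) ^ 2} := by
        intro ω hω
        have hω' : δ * S (M k) ≤ |cnt E (M k) ω - S (M k)| := hω
        show (δ * S (M k)) ^ 2 ≤ (cnt E (M k) ω - S (M k)) ^ 2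
        rw [← sq_abs (cnt E (M k) ω - S (M k))]
        exact pow_le_pow_left₀ (by positivity) hω' 2
      have h9 : (δ * S (M k)) ^ 2 * μ.real {ω | δ * S (M k) ≤ |cnt E (M k) ω - S (M k)|} ≤
          |K| * S (M k) ^ (11 / 6 : ℝ) := by
        refine (mul_le_mul_of_nonneg_left (measureReal_mono h8) (sq_nonneg _)).trans (h7.trans (h2.trans ?_))
        exact mul_le_mul_of_nonneg_right (le_abs_self K) (by positivity)
      obtain ⟨s, hs⟩ : ∃ s, s = S (M k) := ⟨_, rfl⟩
      obtain ⟨p, hp⟩ : ∃ p, p = μ.real {ω | δ * S (M k) ≤ |cnt E (M k) ω - S (M k)|} := ⟨_, rfl⟩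
      have hp0 : 0 ≤ p := by rw [hp]; exact measureReal_nonneg
      rw [← hp] at h9 ⊢
      rw [← hs] at h9 h4
      have h10 : (k : ℝ) ^ 2 ≤ s ^ (1 / 6 : ℝ) := by
        have h11 := Real.rpow_le_rpow (by positivity) (hM1 k) (show (0 : ℝ) ≤ 1 / 6 by norm_num)
        have h12 : ((k : ℝ) ^ 12) ^ (1 / 6 : ℝ) = (k : ℝ) ^ 2 := by
          rw [← Real.rpow_natCast, ← Real.rpow_mul hk0.le]
          norm_num
        rw [h12] at h11
        rw [hs]
        exact h11
      have h11 : s ^ 2 = s ^ (1 / 6 : ℝ) * s ^ (11 / 6 : ℝ) := by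
        rw [← Real.rpow_add h4, ← Real.rpow_natCast]
        norm_num
      have h12 : 0 < s ^ (11 / 6 : ℝ) := by positivity
      have h13 : δ ^ 2 * (s ^ (1 / 6 : ℝ)) * p ≤ |K| := by
        have h14 : δ ^ 2 * (s ^ (1 / 6 : ℝ)) * p * s ^ (11 / 6 : ℝ) ≤ |K| * s ^ (11 / 6 : ℝ) := by
          calc δ ^ 2 * (s ^ (1 / 6 : ℝ)) * p * s ^ (11 / 6 : ℝ) = (δ * s) ^ 2 * p := by
                rw [mul_pow, h11]
                ring
            _ ≤ _ := h9
        exact le_of_mul_le_mul_right h14 h12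
      rw [div_mul_div_comm, mul_one, le_div_iff₀ (by positivity)]
      have h14 : δ ^ 2 * (k : ℝ) ^ 2 * p ≤ δ ^ 2 * (s ^ (1 / 6 : ℝ)) * p :=
        mul_le_mul_of_nonneg_right (mul_le_mul_of_nonneg_left h10 (by positivity)) hp0
      linarith
    have h2 : ∑' k : ℕ, μ {ω | δ * S (M k) ≤ |cnt E (M k) ω - S (M k)|} ≠ ⊤ := by
      have h3 : ∀ k : ℕ, μ {ω | δ * S (M k) ≤ |cnt E (M k) ω - S (M k)|} ≤
          ENNReal.ofReal ((if k < k1 then 1 else 0) + |K| / δ ^ 2 * (1 / (k : ℝ) ^ 2)) := by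
        intro k
        rw [← ofReal_measureReal]
        apply ENNReal.ofReal_le_ofReal
        by_cases h : k < k1
        · rw [if_pos h]
          have h4 : μ.real {ω | δ * S (M k) ≤ |cnt E (M k) ω - S (M k)|} ≤ 1 := measureReal_le_one
          have h5 : 0 ≤ |K| / δ ^ 2 * (1 / (k : ℝ) ^ 2) := by positivity
          linarith
        · rw [if_neg h, zero_add]
          exact h1 k (by omega)
      have hs2 : Summable (fun k : ℕ => (if k < k1 then (1 : ℝ) else 0) + |K| / δ ^ 2 * (1 / (k : ℝ) ^ 2)) := by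
        refine Summable.add ?_ hsum
        exact summable_of_ne_finset_zero (s := range k1) (fun b hb => by
          rw [if_neg]
          rwa [mem_range] at hb)
      refine ne_top_of_le_ne_top ?_ (ENNReal.tsum_le_tsum h3)
      rw [← ENNReal.ofReal_tsum_of_nonneg (fun k => by
        have : 0 ≤ |K| / δ ^ 2 * (1 / (k : ℝ) ^ 2) := by positivity
        split_ifs <;> linarith) hs2]
      exact ENNReal.ofReal_ne_top
    have h3 := ae_eventually_notMem h2
    filter_upwards [h3] with ω hω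
    filter_upwards [hω] with k hk
    have hk' : ¬ δ * S (M k) ≤ |cnt E (M k) ω - S (M k)| := hk
    push Not at hk'
    exact hk'
  filter_upwards [ae_all_iff.2 key] with ω hω
  refine det12 (cnt_mono E ω) (fun N => cnt_nonneg E N ω) hSm hS0 hQ M hM1 hM2 hM3 (fun δ hδ => ?_)
  obtain ⟨j, hj⟩ := exists_nat_gt (1 / δ)
  have hj1 : 1 / ((j : ℝ) + 1) ≤ δ := by
    rw [div_le_iff₀ (by positivity)]
    rw [div_lt_iff₀ hδ] at hj
    nlinarith
  filter_upwards [hω j] with k hk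
  refine lt_of_lt_of_le hk ?_
  exact mul_le_mul_of_nonneg_right hj1 (hS0 _)

end Pool.Agent.Q197.CI
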