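import Pool.Agent.Q197.CI.SLaw

/-!
# A strong law for events which are nearly independent, in terms of pairs
-/

set_option autoImplicit false

namespace Pool.Agent.Q197.CI

open Finset MeasureTheory Filter Pool.Agent.Q120.NC
open scoped Topology

variable {Ω : Type*} [MeasurableSpace Ω] {μ : Measure Ω} [IsProbabilityMeasure μ]

theorem sum_pow_le (Q : ℕ → ℝ) (hQ0 : ∀ n, 0 ≤ Q n) (hQ1 : ∀ n, Q n ≤ 1) {N : ℕ} {S : ℝ}
    (hS : S = ∑ n ∈ range N, Q n) (hS1 : 1 ≤ S) :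
    ∑ n ∈ range N, (n : ℝ) ^ (-(1 / 5) : ℝ) * Q n ≤ 3 * S ^ (5 / 6 : ℝ) := by
  obtain ⟨y, hy⟩ : ∃ y : ℝ, y = S ^ (5 / 6 : ℝ) := ⟨_, rfl⟩
  have hy1 : 1 ≤ y := by rw [hy]; exact Real.one_le_rpow hS1 (by norm_num)
  have h1 : ∀ n ∈ range N, (n : ℝ) ^ (-(1 / 5) : ℝ) * Q n ≤ (if n < ⌈y⌉₊ then (1 : ℝ) else 0) + y ^ (-(1 / 5) : ℝ) * Q n := by
    intro n _
    by_cases hn : n < ⌈y⌉₊
    · rw [if_pos hn]
      have h2 : (n : ℝ) ^ (-(1 / 5) : ℝ) ≤ 1 := by
        rcases Nat.eq_zero_or_pos n with h3 | h3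
        · rw [h3]
          push_cast
          rw [Real.zero_rpow (by norm_num)]
          norm_num
        · have h4 : (1 : ℝ) ≤ n := by exact_mod_cast h3
          exact Real.rpow_le_one_of_one_le_of_nonpos h4 (by norm_num)
      have h3 : 0 ≤ y ^ (-(1 / 5) : ℝ) * Q n := mul_nonneg (by positivity) (hQ0 n)
      have h4 : (n : ℝ) ^ (-(1 / 5) : ℝ) * Q n ≤ 1 * 1 := mul_le_mul h2 (hQ1 n) (hQ0 n) zero_le_one
      linarith
    · rw [if_neg hn, zero_add]
      refine mul_le_mul_of_nonneg_right ?_ (hQ0 n)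
      have h2 : y ≤ n := (Nat.le_ceil y).trans (by exact_mod_cast not_lt.1 hn)
      exact Real.rpow_le_rpow_of_nonpos (by linarith) h2 (by norm_num)
  refine (sum_le_sum h1).trans ?_
  rw [sum_add_distrib, ← mul_sum, ← hS, ← sum_filter, sum_const, nsmul_eq_mul, mul_one]
  have h2 : ((range N).filter (fun n => n < ⌈y⌉₊)).card ≤ ⌈y⌉₊ := by
    calc ((range N).filter (fun n => n < ⌈y⌉₊)).card ≤ (range ⌈y⌉₊).card := card_le_card (fun n hn => by
          rw [mem_filter] at hn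
          rw [mem_range]
          exact hn.2)
      _ = ⌈y⌉₊ := card_range _
  have h3 : (((range N).filter (fun n => n < ⌈y⌉₊)).card : ℝ) ≤ y + 1 := by
    have h4 : (((range N).filter (fun n => n < ⌈y⌉₊)).card : ℝ) ≤ ⌈y⌉₊ := by exact_mod_cast h2
    have h5 := Nat.ceil_lt_add_one (show 0 ≤ y by linarith)
    linarith
  have h4 : y ^ (-(1 / 5) : ℝ) * S = y := by
    have hS0 : 0 < S := by linarith
    rw [hy, ← Real.rpow_mul hS0.le]
    nth_rw 2 [← Real.rpow_one S]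
    rw [← Real.rpow_add hS0]
    norm_num
  rw [h4, ← hy]
  linarith

theorem slaw_pairs {E : ℕ → Set Ω} (hE : ∀ n, MeasurableSet (E n)) (Q : ℕ → ℝ) (hQ0 : ∀ n, 0 ≤ Q n) (hQ1 : ∀ n, Q n ≤ 1)
    (hQz : Q 0 = 0) (hQ : Tendsto (fun N => ∑ n ∈ range N, Q n) atTop atTop) (D : ℕ → ℕ → Prop) {c K : ℝ} (hc : 0 ≤ c) (hK : 0 ≤ K)
    (h1 : ∀ n : ℕ, (1 - c * (n : ℝ) ^ (-(1 / 5) : ℝ)) * Q n ≤ μ.real (E n))
    (h1' : ∀ n : ℕ, μ.real (E n) ≤ (1 + c) * Q n)
    (h2 : ∀ n m : ℕ, n < m → ¬ D n m → μ.real (E n ∩ E m) ≤ (1 + c * (n : ℝ) ^ (-(1 / 5) : ℝ)) * (Q n * Q m))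
    (h3 : ∀ n N : ℕ, n < N → ∀ R : Finset ℕ, (∀ m ∈ R, n < m ∧ m < N ∧ D n m) →
      ∑ m ∈ R, (μ.real (E n ∩ E m) + Q n * Q m) ≤ K * (1 + ∑ m ∈ range N, Q m) ^ (5 / 6 : ℝ) * Q n) :
    ∀ᵐ ω ∂μ, Tendsto (fun N => cnt E N ω / ∑ n ∈ range N, Q n) atTop (𝓝 1) := by
  classical
  refine slaw hE Q hQ0 hQ1 hQ (K := 2 + c + 18 * c + 4 * K) ?_
  filter_upwards [hQ.eventually_ge_atTop 1] with N hN
  obtain ⟨S, hS⟩ : ∃ S : ℝ, S = ∑ n ∈ range N, Q n := ⟨_, rfl⟩
  rw [← hS] at hN ⊢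
  obtain ⟨u, hu⟩ : ∃ u : ℕ → ℕ → ℝ, u = fun (n m : ℕ) => if n < m then (3 * c * ((n : ℝ) ^ (-(1 / 5) : ℝ)) *
      (Q n * Q m) + (if D n m then μ.real (E n ∩ E m) + Q n * Q m else 0)) else 0 := ⟨_, rfl⟩
  have hQQ : ∀ n m, 0 ≤ Q n * Q m := fun n m => mul_nonneg (hQ0 n) (hQ0 m)
  have hpow : ∀ n : ℕ, 0 ≤ (n : ℝ) ^ (-(1 / 5) : ℝ) := fun n => by positivity
  have hu0 : ∀ n m, 0 ≤ u n m := by
    intro n m
    rw [hu]
    simp only
    have e1 := hQQ n m
    have e2 := hpow n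
    have e3 : 0 ≤ μ.real (E n ∩ E m) := measureReal_nonneg
    split_ifs
    · positivity
    · positivity
    · exact le_rfl
  have key : ∀ n m : ℕ, n < m → μ.real (E n ∩ E m) - Q m * μ.real (E n) - Q n * μ.real (E m) + Q n * Q m ≤ u n m := by
    intro n m hnm
    have e0 := hQQ n m
    have e1 := mul_nonneg (hQ0 m) (measureReal_nonneg (μ := μ) (s := E n))
    have e2 := mul_nonneg (hQ0 n) (measureReal_nonneg (μ := μ) (s := E m))
    have hun : u n m = 3 * c * ((n : ℝ) ^ (-(1 / 5) : ℝ)) * (Q n * Q m) +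
        (if D n m then μ.real (E n ∩ E m) + Q n * Q m else 0) := by
      rw [hu]
      simp only
      rw [if_pos hnm]
    rw [hun]
    by_cases hD : D n m
    · rw [if_pos hD]
      have e3 : 0 ≤ 3 * c * ((n : ℝ) ^ (-(1 / 5) : ℝ)) * (Q n * Q m) :=
        mul_nonneg (mul_nonneg (by positivity) (hpow n)) e0
      linarith
    · rw [if_neg hD, add_zero]
      rcases Nat.eq_zero_or_pos n with h | h
      · have e3 : Q n = 0 := by rw [h]; exact hQz
        have e4 : μ.real (E n ∩ E m) ≤ 0 := by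
          refine (measureReal_mono Set.inter_subset_left).trans ((h1' n).trans ?_)
          rw [e3, mul_zero]
        rw [e3]
        rw [e3] at e2
        simp only [zero_mul, mul_zero, add_zero, sub_zero]
        linarith
      · have e3 := h2 n m hnm hD
        have e4 := mul_le_mul_of_nonneg_left (h1 n) (hQ0 m)
        have e5 := mul_le_mul_of_nonneg_left (h1 m) (hQ0 n)
        have e6 : (m : ℝ) ^ (-(1 / 5) : ℝ) ≤ (n : ℝ) ^ (-(1 / 5) : ℝ) :=
          Real.rpow_le_rpow_of_nonpos (by exact_mod_cast h) (by exact_mod_cast hnm.le) (by norm_num)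
        have e7 := mul_le_mul_of_nonneg_left e6 (mul_nonneg hc e0)
        nlinarith
  have hdiag : ∀ n : ℕ, μ.real (E n ∩ E n) - Q n * μ.real (E n) - Q n * μ.real (E n) + Q n * Q n ≤ (2 + c) * Q n := by
    intro n
    rw [Set.inter_self]
    have e1 := mul_nonneg (hQ0 n) (measureReal_nonneg (μ := μ) (s := E n))
    have e2 := h1' n
    have e3 := mul_le_mul_of_nonneg_left (hQ1 n) (hQ0 n)
    linarith
  have hall : ∀ n m : ℕ, μ.real (E n ∩ E m) - Q m * μ.real (E n) - Q n * μ.real (E m) + Q n * Q m ≤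
      (if m = n then (2 + c) * Q n else 0) + u n m + u m n := by
    intro n m
    rcases lt_trichotomy n m with h | h | h
    · rw [if_neg (by omega)]
      have := key n m h
      have := hu0 m n
      linarith
    · rw [if_pos h.symm, ← h]
      have := hdiag n
      have := hu0 n n
      linarith
    · rw [if_neg (by omega)]
      have e1 := key m n h
      have e2 := hu0 n m
      rw [Set.inter_comm]
      linarith
  have hrow : ∀ n ∈ range N, ∑ m ∈ range N, u n m ≤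
      3 * c * S * ((n : ℝ) ^ (-(1 / 5) : ℝ) * Q n) + K * (1 + S) ^ (5 / 6 : ℝ) * Q n := by
    intro n hn
    rw [mem_range] at hn
    have e1 : ∑ m ∈ range N, u n m ≤ ∑ m ∈ range N, (3 * c * ((n : ℝ) ^ (-(1 / 5) : ℝ)) * (Q n * Q m) +
        (if n < m ∧ D n m then μ.real (E n ∩ E m) + Q n * Q m else 0)) := by
      refine sum_le_sum (fun m _ => ?_)
      have e0 := hQQ n m
      have e2 := hpow n
      have e3 : 0 ≤ μ.real (E n ∩ E m) := measureReal_nonneg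
      rw [hu]
      simp only
      by_cases h4 : n < m
      · rw [if_pos h4]
        by_cases h5 : D n m
        · rw [if_pos h5, if_pos ⟨h4, h5⟩]
        · rw [if_neg h5, if_neg (fun h => h5 h.2)]
      · rw [if_neg h4, if_neg (fun h => h4 h.1)]
        positivity
    refine e1.trans ?_
    rw [sum_add_distrib, ← sum_filter, ← mul_sum, ← mul_sum, ← hS]
    have e2 := h3 n N hn ((range N).filter (fun m => n < m ∧ D n m)) (fun m hm => by
      rw [mem_filter, mem_range] at hm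
      exact ⟨hm.2.1, hm.1, hm.2.2⟩)
    rw [← hS] at e2
    have e3 : 3 * c * ((n : ℝ) ^ (-(1 / 5) : ℝ)) * (Q n * S) = 3 * c * S * ((n : ℝ) ^ (-(1 / 5) : ℝ) * Q n) := by ring
    linarith
  have hB : ∑ n ∈ range N, ∑ m ∈ range N, u n m ≤ (9 * c + 2 * K) * S ^ (11 / 6 : ℝ) := by
    refine (sum_le_sum hrow).trans ?_
    rw [sum_add_distrib, ← mul_sum, ← mul_sum, ← hS]
    have e1 := sum_pow_le Q hQ0 hQ1 hS hN
    have hS0 : 0 < S := by linarith
    have e2 : S * S ^ (5 / 6 : ℝ) = S ^ (11 / 6 : ℝ) := by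
      nth_rw 1 [← Real.rpow_one S]
      rw [← Real.rpow_add hS0]
      norm_num
    have e3 : (1 + S) ^ (5 / 6 : ℝ) ≤ 2 * S ^ (5 / 6 : ℝ) := by
      have f1 : (1 + S) ^ (5 / 6 : ℝ) ≤ (2 * S) ^ (5 / 6 : ℝ) :=
        Real.rpow_le_rpow (by linarith) (by linarith) (by norm_num)
      rw [Real.mul_rpow (by norm_num) hS0.le] at f1
      have f2 : (2 : ℝ) ^ (5 / 6 : ℝ) ≤ 2 := by
        calc (2 : ℝ) ^ (5 / 6 : ℝ) ≤ (2 : ℝ) ^ (1 : ℝ) :=
              Real.rpow_le_rpow_of_exponent_le (by norm_num) (by norm_num)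
          _ = 2 := Real.rpow_one 2
      have f3 : 0 ≤ S ^ (5 / 6 : ℝ) := by positivity
      nlinarith
    have e4 : 3 * c * S * ∑ n ∈ range N, (n : ℝ) ^ (-(1 / 5) : ℝ) * Q n ≤ 3 * c * S * (3 * S ^ (5 / 6 : ℝ)) :=
      mul_le_mul_of_nonneg_left e1 (by positivity)
    have e5 : K * (1 + S) ^ (5 / 6 : ℝ) * S ≤ K * (2 * S ^ (5 / 6 : ℝ)) * S :=
      mul_le_mul_of_nonneg_right (mul_le_mul_of_nonneg_left e3 hK) hS0.le
    have e6 : 3 * c * S * (3 * S ^ (5 / 6 : ℝ)) = 9 * c * (S * S ^ (5 / 6 : ℝ)) := by ring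
    have e7 : K * (2 * S ^ (5 / 6 : ℝ)) * S = 2 * K * (S * S ^ (5 / 6 : ℝ)) := by ring
    rw [e6, e2] at e4
    rw [e7, e2] at e5
    linarith
  have hSS : S ≤ S ^ (11 / 6 : ℝ) := by
    calc S = S ^ (1 : ℝ) := (Real.rpow_one S).symm
      _ ≤ S ^ (11 / 6 : ℝ) := Real.rpow_le_rpow_of_exponent_le hN (by norm_num)
  calc ∑ n ∈ range N, ∑ m ∈ range N, (μ.real (E n ∩ E m) - Q m * μ.real (E n) - Q n * μ.real (E m) + Q n * Q m)
      ≤ ∑ n ∈ range N, ∑ m ∈ range N, ((if m = n then (2 + c) * Q n else 0) + u n m + u m n) :=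
        sum_le_sum (fun n _ => sum_le_sum (fun m _ => hall n m))
    _ = ∑ n ∈ range N, ∑ m ∈ range N, (if m = n then (2 + c) * Q n else 0) + ∑ n ∈ range N, ∑ m ∈ range N, u n m +
        ∑ n ∈ range N, ∑ m ∈ range N, u m n := by
        simp only [sum_add_distrib]
    _ = (2 + c) * S + ∑ n ∈ range N, ∑ m ∈ range N, u n m + ∑ n ∈ range N, ∑ m ∈ range N, u n m := by
        congr 1
        · congr 1
          rw [hS, mul_sum]
          refine sum_congr rfl (fun n hn => ?_)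
          rw [sum_ite_eq', if_pos hn]
        · rw [sum_comm]
    _ ≤ (2 + c + 18 * c + 4 * K) * S ^ (11 / 6 : ℝ) := by
        have e1 := mul_le_mul_of_nonneg_left hSS (show 0 ≤ 2 + c by linarith)
        linarith

end Pool.Agent.Q197.CI
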