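import Pool.Agent.Q197.CI.CountB

/-!
# The range `k ≤ c log² n`, `0 < c < 1`
-/

set_option autoImplicit false

namespace Pool.Agent.Q197.CI

open Finset Filter MeasureTheory Pool.Agent.Q120.ET Pool.Agent.Q120.MF Pool.Agent.Q120.NC
open scoped Topology

theorem mvt_choose {F F' : ℝ → ℝ} (hF : ∀ x : ℝ, 1 < x → HasDerivAt F (F' x) x) :
    ∃ ξ : ℕ → ℝ, (∀ n : ℕ, 2 ≤ n → (n : ℝ) < ξ n ∧ ξ n < n + 1 ∧ F (n + 1) - F n = F' (ξ n)) ∧
      Tendsto (fun n : ℕ => Real.log (ξ n) / Real.log n) atTop (𝓝 1) ∧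
      Tendsto (fun n : ℕ => ξ n / n) atTop (𝓝 1) := by
  have h1 : ∀ n : ℕ, ∃ ξ : ℝ, 2 ≤ n → (n : ℝ) < ξ ∧ ξ < n + 1 ∧ F (n + 1) - F n = F' ξ := by
    intro n
    by_cases hn : 2 ≤ n
    · have hn1 : (2 : ℝ) ≤ n := by exact_mod_cast hn
      obtain ⟨ξ, h2, h3⟩ := exists_hasDerivAt_eq_slope F F' (show (n : ℝ) < n + 1 by linarith)
        (fun x hx => (hF x (by linarith [hx.1])).continuousAt.continuousWithinAt)
        (fun x hx => hF x (by linarith [hx.1]))
      refine ⟨ξ, fun _ => ⟨h2.1, h2.2, ?_⟩⟩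
      rw [h3]
      ring
    · exact ⟨0, fun h => absurd h hn⟩
  choose ξ hξ using h1
  refine ⟨ξ, hξ, ?_, ?_⟩
  · have e1 : Tendsto (fun n : ℕ => 1 + 1 / Real.log (n : ℝ)) atTop (𝓝 (1 + 0)) := by
      refine Tendsto.const_add 1 ?_
      simp only [one_div]
      exact hl.inv_tendsto_atTop
    rw [add_zero] at e1
    refine tendsto_of_tendsto_of_tendsto_of_le_of_le' tendsto_const_nhds e1 ?_ ?_
    · filter_upwards [hl.eventually_ge_atTop 1, eventually_ge_atTop 2] with n e2 e3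
      obtain ⟨f1, f2, _⟩ := hξ n e3
      have hn1 : (2 : ℝ) ≤ n := by exact_mod_cast e3
      rw [le_div_iff₀ (by linarith), one_mul]
      exact Real.log_le_log (by linarith) f1.le
    · filter_upwards [hl.eventually_ge_atTop 1, eventually_ge_atTop 2] with n e2 e3
      obtain ⟨f1, f2, _⟩ := hξ n e3
      have hn1 : (2 : ℝ) ≤ n := by exact_mod_cast e3
      rw [div_le_iff₀ (by linarith)]
      have e4 : (1 + 1 / Real.log n) * Real.log n = Real.log n + 1 := by field_simp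
      rw [e4]
      have e5 := Real.log_le_log (by linarith) (show ξ n ≤ 2 * n by linarith)
      rw [Real.log_mul (by norm_num) (by linarith)] at e5
      have := Real.log_two_lt_d9
      linarith
  · have e1 : Tendsto (fun n : ℕ => 1 + 1 / (n : ℝ)) atTop (𝓝 (1 + 0)) :=
      tendsto_one_div_atTop_nhds_zero_nat.const_add 1
    rw [add_zero] at e1
    refine tendsto_of_tendsto_of_tendsto_of_le_of_le' tendsto_const_nhds e1 ?_ ?_
    · filter_upwards [eventually_ge_atTop 2] with n e3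
      obtain ⟨f1, f2, _⟩ := hξ n e3
      have hn1 : (2 : ℝ) ≤ n := by exact_mod_cast e3
      rw [le_div_iff₀ (by linarith), one_mul]
      exact f1.le
    · filter_upwards [eventually_ge_atTop 2] with n e3
      obtain ⟨f1, f2, _⟩ := hξ n e3
      have hn1 : (2 : ℝ) ≤ n := by exact_mod_cast e3
      rw [div_le_iff₀ (by linarith)]
      have e4 : (1 + 1 / (n : ℝ)) * n = n + 1 := by field_simp
      rw [e4]
      exact f2.le

theorem sum_c {Q : ℕ → ℝ} {κ c γ : ℝ} (hc : c < 1)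
    (hQ : Tendsto (fun n : ℕ => Q n / ((n : ℝ) ^ (-c) * Real.log n ^ γ)) atTop (𝓝 κ)) (hγ : 0 ≤ γ) :
    Tendsto (fun N : ℕ => (∑ n ∈ range N, Q n) / ((N : ℝ) ^ (1 - c) * Real.log N ^ γ)) atTop (𝓝 (κ / (1 - c))) := by
  have hder : ∀ x : ℝ, 1 < x → HasDerivAt (fun x : ℝ => x ^ (1 - c) * Real.log x ^ γ)
      (x ^ (-c) * Real.log x ^ γ * ((1 - c) + γ / Real.log x)) x := by
    intro x hx
    have hx0 : 0 < x := by linarith
    have hlx : 0 < Real.log x := Real.log_pos hx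
    have h1 := (Real.hasDerivAt_rpow_const (p := 1 - c) (Or.inl hx0.ne')).mul
      ((Real.hasDerivAt_log hx0.ne').rpow_const (p := γ) (Or.inl hlx.ne'))
    refine h1.congr_deriv ?_
    have e1 : (1 - c - 1 : ℝ) = -c := by ring
    have e2 : x ^ (1 - c) = x ^ (-c) * x := by
      nth_rw 3 [← Real.rpow_one x]
      rw [← Real.rpow_add hx0]
      congr 1
      ring
    have e3 : Real.log x ^ (γ - 1) = Real.log x ^ γ / Real.log x := Real.rpow_sub_one hlx.ne' γ
    rw [e1, e2, e3]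
    field_simp
  obtain ⟨ξ, hξ, hr, hq⟩ := mvt_choose hder
  have hp : Tendsto (fun n : ℕ => (Real.log (ξ n) / Real.log n) ^ γ) atTop (𝓝 1) := by
    have e1 := hr.rpow_const (p := γ) (Or.inl one_ne_zero)
    rwa [Real.one_rpow] at e1
  have hp2 : Tendsto (fun n : ℕ => (ξ n / n) ^ (-c)) atTop (𝓝 1) := by
    have e1 := hq.rpow_const (p := -c) (Or.inl one_ne_zero)
    rwa [Real.one_rpow] at e1
  have hξt : Tendsto (fun n : ℕ => Real.log (ξ n)) atTop atTop := by
    refine tendsto_atTop_mono' _ ?_ hl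
    filter_upwards [eventually_ge_atTop 2] with n e3
    have hn1 : (2 : ℝ) ≤ n := by exact_mod_cast e3
    exact Real.log_le_log (by linarith) (hξ n e3).1.le
  have hv : Tendsto (fun n : ℕ => (1 - c) + γ / Real.log (ξ n)) atTop (𝓝 (1 - c)) := by
    have e1 := (tendsto_const_nhds (x := γ)).div_atTop hξt
    have e2 := e1.const_add (1 - c)
    rwa [add_zero] at e2
  have hratio : Tendsto (fun n : ℕ => (((n + 1 : ℕ) : ℝ) ^ (1 - c) * Real.log ((n + 1 : ℕ) : ℝ) ^ γ - (n : ℝ) ^ (1 - c) * Real.log (n : ℝ) ^ γ) /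
      ((n : ℝ) ^ (-c) * Real.log n ^ γ)) atTop (𝓝 (1 - c)) := by
    have e1 := (hp2.mul hp).mul hv
    rw [one_mul, one_mul] at e1
    refine e1.congr' ?_
    filter_upwards [hl.eventually_ge_atTop 1, eventually_ge_atTop 2] with n e2 e3
    obtain ⟨f1, f2, f3⟩ := hξ n e3
    have hn1 : (2 : ℝ) ≤ n := by exact_mod_cast e3
    have hlξ : 0 < Real.log (ξ n) := Real.log_pos (by linarith)
    push_cast
    rw [f3, Real.div_rpow hlξ.le (by linarith), Real.div_rpow (by linarith) (by linarith)]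
    have g1 : 0 < Real.log (n : ℝ) ^ γ := Real.rpow_pos_of_pos (by linarith) _
    have g2 : 0 < (n : ℝ) ^ (-c) := Real.rpow_pos_of_pos (by linarith) _
    field_simp
  have hFt : Tendsto (fun n : ℕ => (n : ℝ) ^ (1 - c) * Real.log (n : ℝ) ^ γ) atTop atTop := by
    refine tendsto_atTop_mono' _ ?_ ((tendsto_rpow_atTop (show 0 < 1 - c by linarith)).comp tendsto_natCast_atTop_atTop)
    filter_upwards [hl.eventually_ge_atTop 1] with n e2
    simp only [Function.comp]
    exact le_mul_of_one_le_right (by positivity) (Real.one_le_rpow e2 hγ)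
  refine stolz (F := fun n : ℕ => (n : ℝ) ^ (1 - c) * Real.log (n : ℝ) ^ γ) (Q := Q) ?_ hFt ?_
  · filter_upwards [hratio.eventually_const_lt (show (0 : ℝ) < 1 - c by linarith), hl.eventually_ge_atTop 1,
      eventually_ge_atTop 2] with n e1 e2 e3
    have hn1 : (2 : ℝ) ≤ n := by exact_mod_cast e3
    have g1 : 0 < Real.log (n : ℝ) ^ γ := Real.rpow_pos_of_pos (by linarith) _
    have g2 : 0 < (n : ℝ) ^ (-c) := Real.rpow_pos_of_pos (by linarith) _
    by_contra hcon
    push Not at hcon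
    have := div_nonpos_of_nonpos_of_nonneg hcon (by positivity : 0 ≤ (n : ℝ) ^ (-c) * Real.log n ^ γ)
    linarith
  · have h1 := hQ.div hratio (by linarith : (1 - c) ≠ 0)
    refine h1.congr' ?_
    filter_upwards [hratio.eventually_const_lt (show (0 : ℝ) < 1 - c by linarith), hl.eventually_ge_atTop 1,
      eventually_ge_atTop 2] with n e1 e2 e3
    have hn1 : (2 : ℝ) ≤ n := by exact_mod_cast e3
    have g1 : 0 < Real.log (n : ℝ) ^ γ := Real.rpow_pos_of_pos (by linarith) _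
    have g2 : 0 < (n : ℝ) ^ (-c) := Real.rpow_pos_of_pos (by linarith) _
    simp only [Pi.div_apply]
    have g3 : (((n + 1 : ℕ) : ℝ) ^ (1 - c) * Real.log ((n + 1 : ℕ) : ℝ) ^ γ - (n : ℝ) ^ (1 - c) * Real.log (n : ℝ) ^ γ) ≠ 0 := by
      intro h0
      rw [h0, zero_div] at e1
      exact lt_irrefl _ e1
    field_simp

theorem hc_lim {c : ℝ} (hc : 0 < c) : Tendsto (fun n : ℕ => ((⌊c * Real.log n ^ 2⌋₊ : ℝ) / Real.log n ^ 2 - c) *
    Real.log (Real.log n)) atTop (𝓝 0) := by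
  have h1 : Tendsto (fun n : ℕ => Real.log (Real.log (n : ℝ)) / Real.log n ^ 2) atTop (𝓝 0) := by
    have e1 := (ll_pow_div 1).mul hl.inv_tendsto_atTop
    rw [mul_zero] at e1
    refine e1.congr' ?_
    filter_upwards [hl.eventually_ge_atTop 1] with n hn
    simp only [Pi.inv_apply]
    field_simp
  refine squeeze_zero_norm' ?_ h1
  filter_upwards [hl.eventually_ge_atTop 1, lll.eventually_ge_atTop 0] with n e2 e3
  have h2 : 0 ≤ c * Real.log (n : ℝ) ^ 2 := by positivity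
  have h5 := Nat.floor_le h2
  have h6 := Nat.lt_floor_add_one (c * Real.log (n : ℝ) ^ 2)
  rw [Real.norm_eq_abs, abs_mul, abs_of_nonneg e3]
  have e4 : (⌊c * Real.log n ^ 2⌋₊ : ℝ) / Real.log n ^ 2 - c = ((⌊c * Real.log n ^ 2⌋₊ : ℝ) - c * Real.log n ^ 2) / Real.log n ^ 2 := by
    field_simp
  have e5 : |(⌊c * Real.log n ^ 2⌋₊ : ℝ) / Real.log n ^ 2 - c| ≤ 1 / Real.log n ^ 2 := by
    rw [e4, abs_div, abs_of_pos (by positivity : 0 < Real.log (n : ℝ) ^ 2)]
    refine div_le_div_of_nonneg_right ?_ (by positivity)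
    rw [abs_le]
    constructor <;> linarith
  refine (mul_le_mul_of_nonneg_right e5 e3).trans (le_of_eq ?_)
  field_simp

theorem hc_lim1 {c : ℝ} (hc : 0 < c) : Tendsto (fun n : ℕ => (⌊c * Real.log n ^ 2⌋₊ : ℝ) / Real.log n ^ 2) atTop (𝓝 c) := by
  have h1 : Tendsto (fun n : ℕ => (⌊c * Real.log n ^ 2⌋₊ : ℝ) / Real.log n ^ 2 - c) atTop (𝓝 0) := by
    refine squeeze_zero_norm' ?_ ((hc_lim hc).norm.trans (by rw [norm_zero]))
    filter_upwards [lll.eventually_ge_atTop 1] with n e1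
    rw [norm_mul, Real.norm_eq_abs (Real.log (Real.log n)), abs_of_nonneg (by linarith)]
    exact le_mul_of_one_le_right (norm_nonneg _) e1
  have h2 := h1.add_const c
  rw [zero_add] at h2
  refine h2.congr (fun n => ?_)
  ring

theorem lim_c {d : ℕ} (hd : 1 ≤ d) {c : ℝ} (hc : 0 < c) : Tendsto (fun n : ℕ => Qp (Jd d ⌊c * Real.log n ^ 2⌋₊ n) /
    ((n : ℝ) ^ (-c) * Real.log n ^ ((2 * d + 1) * c : ℝ))) atTop (𝓝 (Real.exp (c * (d * (Real.log c - 1) - 1 / 2)))) := by
  have h1 := lim_Qp2 hd hc (hc_lim1 hc)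
  have h2 : Tendsto (fun n : ℕ => (⌊c * Real.log n ^ 2⌋₊ : ℝ) / Real.log n - c * Real.log n) atTop (𝓝 0) := by
    have e1 : Tendsto (fun n : ℕ => 1 / Real.log (n : ℝ)) atTop (𝓝 0) := by
      simp only [one_div]
      exact hl.inv_tendsto_atTop
    refine squeeze_zero_norm' ?_ e1
    filter_upwards [hl.eventually_ge_atTop 1] with n e3
    have h2 : 0 ≤ c * Real.log (n : ℝ) ^ 2 := by positivity
    have h5 := Nat.floor_le h2
    have h6 := Nat.lt_floor_add_one (c * Real.log (n : ℝ) ^ 2)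
    have e4 : (⌊c * Real.log n ^ 2⌋₊ : ℝ) / Real.log n - c * Real.log n =
        ((⌊c * Real.log n ^ 2⌋₊ : ℝ) - c * Real.log n ^ 2) / Real.log n := by
      field_simp
    rw [e4, Real.norm_eq_abs, abs_div, abs_of_pos (by linarith : 0 < Real.log (n : ℝ))]
    refine div_le_div_of_nonneg_right ?_ (by linarith)
    rw [abs_le]
    constructor <;> linarith
  have h3 := ((h1.sub h2).add ((hc_lim hc).const_mul (2 * (d : ℝ) + 1)))
  rw [sub_zero, mul_zero, add_zero] at h3
  have h5 := (Real.continuous_exp.tendsto _).comp h3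
  refine h5.congr' ?_
  filter_upwards [hl.eventually_ge_atTop 1, eventually_ge_atTop 10] with n e1 e2
  have hn0 : (0 : ℝ) < n := by
    have : 0 < n := by omega
    exact_mod_cast this
  have hQ : 0 < Qp (Jd d ⌊c * Real.log n ^ 2⌋₊ n) := prod_pos (fun m hm => by
    have h6 := Jd_ge hm
    have := pb_lt_one (show 3 ≤ fp m by have := le_fp m; omega)
    linarith)
  have hL0 : 0 < Real.log (n : ℝ) := by linarith
  simp only [Function.comp]
  have e3 : Qp (Jd d ⌊c * Real.log n ^ 2⌋₊ n) / ((n : ℝ) ^ (-c) * Real.log n ^ ((2 * d + 1) * c : ℝ)) =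
      Real.exp (Real.log (Qp (Jd d ⌊c * Real.log n ^ 2⌋₊ n)) - (2 * d + 1) * c * Real.log (Real.log n) + c * Real.log n) := by
    rw [Real.exp_add, Real.exp_sub, Real.exp_log hQ, Real.rpow_def_of_pos hL0, Real.rpow_def_of_pos hn0]
    rw [mul_comm (Real.log (Real.log n)) ((2 * (d : ℝ) + 1) * c)]
    have e4 : Real.exp (Real.log n * -c) = (Real.exp (c * Real.log n))⁻¹ := by
      rw [← Real.exp_neg]
      congr 1
      ring
    rw [e4]
    field_simp
  rw [e3]
  congr 1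
  ring

variable {Ω : Type*} [MeasurableSpace Ω] {μ : Measure Ω} [IsProbabilityMeasure μ] {A : Ω → Set ℕ}

theorem law_c (hA : IsCramer μ A) {s d : ℕ} (hs : 1 ≤ s) (hd : 1 ≤ d) {c : ℝ} (hc : 0 < c) (hc1 : c < 1) :
    ∀ᵐ ω ∂μ, Tendsto (fun N : ℕ => count (A ω) s d (fun n => c * Real.log n ^ 2) N /
      ((N : ℝ) ^ (1 - c) * Real.log N ^ ((2 * d + 1) * c : ℝ))) atTop
      (𝓝 (Real.exp (c * (d * (Real.log c - 1) - 1 / 2)) / (1 - c))) := by
  have hγ : 0 ≤ (2 * (d : ℝ) + 1) * c := by positivity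
  have h1c : 0 < 1 - c := by linarith
  have hFt : Tendsto (fun n : ℕ => (n : ℝ) ^ (1 - c) * Real.log (n : ℝ) ^ ((2 * d + 1) * c : ℝ)) atTop atTop := by
    refine tendsto_atTop_mono' _ ?_ ((tendsto_rpow_atTop h1c).comp tendsto_natCast_atTop_atTop)
    filter_upwards [hl.eventually_ge_atTop 1] with n e2
    simp only [Function.comp]
    exact le_mul_of_one_le_right (by positivity) (Real.one_le_rpow e2 hγ)
  refine count_law hA (by positivity) hFt (sum_c hc1 (lim_c hd hc) hγ)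
    (fun hdiv => law_kd hA hs hd (h := fun n => ⌊c * Real.log n ^ 2⌋₊) (C := c) hc.le ?_ ?_ (Or.inl ⟨1, ?_⟩) hdiv)
  · exact Eventually.of_forall (fun n => Nat.floor_le (by positivity))
  · filter_upwards [eventually_ge_atTop 1] with n hn m hm
    have h2 : Real.log n ≤ Real.log m := Real.log_le_log (by exact_mod_cast hn) (by exact_mod_cast hm)
    have h1 : ⌊c * Real.log n ^ 2⌋₊ ≤ ⌊c * Real.log m ^ 2⌋₊ :=
      Nat.floor_le_floor (mul_le_mul_of_nonneg_left (pow_le_pow_left₀ (Real.log_natCast_nonneg n) h2 2) hc.le)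
    omega
  · have h0 := ((hc_lim1 hc).eventually_const_le (show c / 2 < c by linarith)).and (hl.eventually_ge_atTop 1)
    obtain ⟨n0, hn0⟩ := eventually_atTop.1 h0
    have h1 : ∀ᶠ n : ℕ in atTop, Real.log n ^ 4 ≤ (n : ℝ) ^ (c / 12 : ℝ) := by
      filter_upwards [polylog_le 1 2 (show 0 < c / 12 by positivity)] with n e1
      calc Real.log n ^ 4 = (1 * Real.log n ^ 2) ^ 2 := by ring
        _ ≤ _ := e1
    filter_upwards [eventually_ge_atTop n0, eventually_ge_atTop 1, h1, hl.eventually_ge_atTop 1] with n hn hn1 h2 h3 m hm _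
    obtain ⟨h5, h6⟩ := hn0 m (hn.trans hm)
    rw [le_div_iff₀ (by positivity)] at h5
    have h7 : Real.log n ≤ Real.log m := Real.log_le_log (by exact_mod_cast hn1) (by exact_mod_cast hm)
    have hn0 : (0 : ℝ) < n := by exact_mod_cast hn1
    have h8 : c / 12 * Real.log n ≤ (⌊c * Real.log m ^ 2⌋₊ : ℝ) / (6 * Real.log m) := by
      rw [le_div_iff₀ (by positivity)]
      have h9 : c / 12 * Real.log n * (6 * Real.log m) ≤ c / 12 * Real.log m * (6 * Real.log m) :=
        mul_le_mul_of_nonneg_right (mul_le_mul_of_nonneg_left h7 (by positivity)) (by positivity)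
      nlinarith
    have h9 : Real.exp (-((⌊c * Real.log m ^ 2⌋₊ : ℝ) / (6 * Real.log m))) ≤ (n : ℝ) ^ (-(c / 12) : ℝ) := by
      rw [Real.rpow_def_of_pos hn0, Real.exp_le_exp]
      linarith
    calc Real.log n ^ 4 * Real.exp (-((⌊c * Real.log m ^ 2⌋₊ : ℝ) / (6 * Real.log m))) ≤
          (n : ℝ) ^ (c / 12 : ℝ) * (n : ℝ) ^ (-(c / 12) : ℝ) :=
          mul_le_mul h2 h9 (Real.exp_pos _).le (by positivity)
      _ = 1 := by
        rw [← Real.rpow_add hn0]
        norm_num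

end Pool.Agent.Q197.CI
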