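import Pool.Agent.Q197.CI.Asym2

/-!
# Sums of powers of logarithms over `n`
-/

set_option autoImplicit false

namespace Pool.Agent.Q197.CI

open Finset Filter
open scoped Topology

/-- Comparison of a sum with an antiderivative. -/
theorem mvt_ratio {F : ℝ → ℝ} {γ : ℝ} (hF : ∀ x : ℝ, 1 < x → HasDerivAt F (Real.log x ^ γ / x) x) :
    Tendsto (fun n : ℕ => (Real.log n ^ γ / n) / (F (n + 1) - F n)) atTop (𝓝 1) ∧
      ∀ᶠ n : ℕ in atTop, 0 < F (n + 1) - F n := by
  have h1 : ∀ n : ℕ, ∃ ξ : ℝ, 2 ≤ n → (n : ℝ) < ξ ∧ ξ < n + 1 ∧ F (n + 1) - F n = Real.log ξ ^ γ / ξ := by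
    intro n
    by_cases hn : 2 ≤ n
    · have hn1 : (2 : ℝ) ≤ n := by exact_mod_cast hn
      obtain ⟨ξ, h2, h3⟩ := exists_hasDerivAt_eq_slope F (fun x => Real.log x ^ γ / x) (show (n : ℝ) < n + 1 by linarith)
        (fun x hx => (hF x (by linarith [hx.1])).continuousAt.continuousWithinAt)
        (fun x hx => hF x (by linarith [hx.1]))
      refine ⟨ξ, fun _ => ⟨h2.1, h2.2, ?_⟩⟩
      rw [h3]
      ring
    · exact ⟨0, fun h => absurd h hn⟩
  choose ξ hξ using h1
  have hr : Tendsto (fun n : ℕ => Real.log (ξ n) / Real.log n) atTop (𝓝 1) := by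
    have e1 : Tendsto (fun n : ℕ => 1 + 1 / Real.log (n : ℝ)) atTop (𝓝 (1 + 0)) := by
      refine Tendsto.const_add 1 ?_
      simp only [one_div]
      exact hl.inv_tendsto_atTop
    rw [add_zero] at e1
    refine tendsto_of_tendsto_of_tendsto_of_le_of_le' tendsto_const_nhds e1 ?_ ?_
    · filter_upwards [hl.eventually_ge_atTop 1, eventually_ge_atTop 2] with n e2 e3
      obtain ⟨f1, f2, _⟩ := hξ n e3
      have hn1 : (2 : ℝ) ≤ n := by exact_mod_cast e3
      rw [le_div_iff₀ (by linarith), one_mul]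
      exact Real.log_le_log (by linarith) f1.le
    · filter_upwards [hl.eventually_ge_atTop 1, eventually_ge_atTop 2] with n e2 e3
      obtain ⟨f1, f2, _⟩ := hξ n e3
      have hn1 : (2 : ℝ) ≤ n := by exact_mod_cast e3
      rw [div_le_iff₀ (by linarith)]
      have e4 : (1 + 1 / Real.log n) * Real.log n = Real.log n + 1 := by field_simp
      rw [e4]
      have e5 := Real.log_le_log (by linarith) (show ξ n ≤ 2 * n by linarith)
      rw [Real.log_mul (by norm_num) (by linarith)] at e5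
      have := Real.log_two_lt_d9
      linarith
  have hq : Tendsto (fun n : ℕ => ξ n / n) atTop (𝓝 1) := by
    have e1 : Tendsto (fun n : ℕ => 1 + 1 / (n : ℝ)) atTop (𝓝 (1 + 0)) :=
      tendsto_one_div_atTop_nhds_zero_nat.const_add 1
    rw [add_zero] at e1
    refine tendsto_of_tendsto_of_tendsto_of_le_of_le' tendsto_const_nhds e1 ?_ ?_
    · filter_upwards [eventually_ge_atTop 2] with n e3
      obtain ⟨f1, f2, _⟩ := hξ n e3
      have hn1 : (2 : ℝ) ≤ n := by exact_mod_cast e3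
      rw [le_div_iff₀ (by linarith), one_mul]
      exact f1.le
    · filter_upwards [eventually_ge_atTop 2] with n e3
      obtain ⟨f1, f2, _⟩ := hξ n e3
      have hn1 : (2 : ℝ) ≤ n := by exact_mod_cast e3
      rw [div_le_iff₀ (by linarith)]
      have e4 : (1 + 1 / (n : ℝ)) * n = n + 1 := by field_simp
      rw [e4]
      exact f2.le
  have hp : Tendsto (fun n : ℕ => (Real.log (ξ n) / Real.log n) ^ γ) atTop (𝓝 1) := by
    have e1 := hr.rpow_const (p := γ) (Or.inl one_ne_zero)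
    rwa [Real.one_rpow] at e1
  constructor
  · have h2 := hq.div hp one_ne_zero
    rw [div_one] at h2
    refine h2.congr' ?_
    filter_upwards [hl.eventually_ge_atTop 1, eventually_ge_atTop 2] with n e2 e3
    obtain ⟨f1, f2, f3⟩ := hξ n e3
    have hn1 : (2 : ℝ) ≤ n := by exact_mod_cast e3
    have hlξ : 0 < Real.log (ξ n) := Real.log_pos (by linarith)
    simp only [Pi.div_apply]
    rw [f3, Real.div_rpow hlξ.le (by linarith)]
    have : 0 < Real.log (ξ n) ^ γ := by positivity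
    have : 0 < Real.log (n : ℝ) ^ γ := Real.rpow_pos_of_pos (by linarith) _
    have : ξ n ≠ 0 := by linarith
    field_simp
  · filter_upwards [eventually_ge_atTop 2] with n e3
    obtain ⟨f1, f2, f3⟩ := hξ n e3
    have hn1 : (2 : ℝ) ≤ n := by exact_mod_cast e3
    have hlξ : 0 < Real.log (ξ n) := Real.log_pos (by linarith)
    have : 0 < Real.log (ξ n) ^ γ := by positivity
    rw [f3]
    exact div_pos this (by linarith)

theorem deriv_pow {β : ℝ} (hβ : β ≠ 0) (x : ℝ) (hx : 1 < x) :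
    HasDerivAt (fun x : ℝ => Real.log x ^ β / β) (Real.log x ^ (β - 1) / x) x := by
  have hlx : 0 < Real.log x := Real.log_pos hx
  have h1 := ((Real.hasDerivAt_log (by linarith : x ≠ 0)).rpow_const (p := β) (Or.inl hlx.ne')).div_const β
  refine h1.congr_deriv ?_
  field_simp

theorem deriv_ll (x : ℝ) (hx : 1 < x) :
    HasDerivAt (fun x : ℝ => Real.log (Real.log x)) (Real.log x ^ (-1 : ℝ) / x) x := by
  have hlx : 0 < Real.log x := Real.log_pos hx
  have h1 := (Real.hasDerivAt_log (by linarith : x ≠ 0)).log hlx.ne'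
  refine h1.congr_deriv ?_
  rw [Real.rpow_neg_one]
  field_simp

variable {Q : ℕ → ℝ} {κ : ℝ}

theorem sum_pow {β : ℝ} (hβ : 0 < β) (hQ : Tendsto (fun n : ℕ => Q n / (Real.log n ^ (β - 1) / n)) atTop (𝓝 κ)) :
    Tendsto (fun N : ℕ => (∑ n ∈ range N, Q n) / Real.log N ^ β) atTop (𝓝 (κ / β)) := by
  obtain ⟨h1, h2⟩ := mvt_ratio (fun x hx => deriv_pow hβ.ne' x hx)
  have h3 : Tendsto (fun n : ℕ => Real.log (n : ℝ) ^ β / β) atTop atTop :=
    ((tendsto_rpow_atTop hβ).comp hl).atTop_div_const hβ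
  have h4 := stolz (F := fun n : ℕ => Real.log (n : ℝ) ^ β / β) (Q := Q) (κ := κ) ?_ h3 ?_
  · refine (h4.div_const β).congr (fun N => ?_)
    rw [div_div_eq_mul_div, div_div, mul_div_mul_right _ _ hβ.ne']
  · filter_upwards [h2] with n hn
    push_cast
    exact hn
  · have h5 := hQ.mul h1
    rw [mul_one] at h5
    refine h5.congr' ?_
    filter_upwards [h2, hl.eventually_ge_atTop 1, eventually_ge_atTop 1] with n h6 h7 h8
    have h9 : 0 < Real.log (n : ℝ) ^ (β - 1) := Real.rpow_pos_of_pos (by linarith) _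
    have h10 : (0 : ℝ) < n := by exact_mod_cast h8
    push_cast
    field_simp

theorem sum_ll (hQ : Tendsto (fun n : ℕ => Q n / (Real.log n ^ (-1 : ℝ) / n)) atTop (𝓝 κ)) :
    Tendsto (fun N : ℕ => (∑ n ∈ range N, Q n) / Real.log (Real.log N)) atTop (𝓝 κ) := by
  obtain ⟨h1, h2⟩ := mvt_ratio (fun x hx => deriv_ll x hx)
  refine stolz (F := fun n : ℕ => Real.log (Real.log (n : ℝ))) (Q := Q) (κ := κ) ?_ lll ?_
  · filter_upwards [h2] with n hn
    push_cast
    exact hn
  · have h5 := hQ.mul h1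
    rw [mul_one] at h5
    refine h5.congr' ?_
    filter_upwards [h2, hl.eventually_ge_atTop 1, eventually_ge_atTop 1] with n h6 h7 h8
    have h9 : 0 < Real.log (n : ℝ) ^ (-1 : ℝ) := Real.rpow_pos_of_pos (by linarith) _
    have h10 : (0 : ℝ) < n := by exact_mod_cast h8
    push_cast
    field_simp

theorem summable_log {β : ℝ} (hβ : β < 0) : Summable (fun n : ℕ => Real.log n ^ (β - 1) / n) := by
  obtain ⟨h1, h2⟩ := mvt_ratio (fun x hx => deriv_pow hβ.ne x hx)
  obtain ⟨n0, hn0⟩ := eventually_atTop.1 (h2.and ((h1.eventually_le_const (show (1 : ℝ) < 2 by norm_num)).and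
    ((hl.eventually_ge_atTop 1).and (eventually_ge_atTop 1))))
  rw [← summable_nat_add_iff n0]
  have h3 : Summable (fun n : ℕ => 2 * (Real.log ((n + n0 : ℕ) + 1) ^ β / β - Real.log ((n + n0 : ℕ) : ℝ) ^ β / β)) := by
    refine Summable.mul_left 2 ?_
    refine summable_of_sum_range_le (c := -(Real.log (n0 : ℝ) ^ β / β)) (fun n => ?_) (fun N => ?_)
    · have := (hn0 (n + n0) (by omega)).1
      push_cast at this ⊢
      exact this.le
    · have h4 := sum_range_sub (fun n : ℕ => Real.log ((n + n0 : ℕ) : ℝ) ^ β / β) N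
      have h5 : ∑ i ∈ range N, (Real.log ((i + n0 : ℕ) + 1) ^ β / β - Real.log ((i + n0 : ℕ) : ℝ) ^ β / β) =
          ∑ i ∈ range N, (Real.log ((i + 1 + n0 : ℕ) : ℝ) ^ β / β - Real.log ((i + n0 : ℕ) : ℝ) ^ β / β) := by
        refine sum_congr rfl (fun i _ => ?_)
        have : ((i + 1 + n0 : ℕ) : ℝ) = ((i + n0 : ℕ) : ℝ) + 1 := by push_cast; ring
        rw [this]
      rw [h5, h4, zero_add]
      have h6 : 0 ≤ Real.log ((N + n0 : ℕ) : ℝ) ^ β := Real.rpow_nonneg (Real.log_natCast_nonneg _) _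
      have h7 : Real.log ((N + n0 : ℕ) : ℝ) ^ β / β ≤ 0 := div_nonpos_of_nonneg_of_nonpos h6 hβ.le
      linarith
  refine Summable.of_nonneg_of_le (fun n => ?_) (fun n => ?_) h3
  · exact div_nonneg (Real.rpow_nonneg (Real.log_natCast_nonneg _) _) (Nat.cast_nonneg _)
  · obtain ⟨e1, e2, e3, e4⟩ := hn0 (n + n0) (by omega)
    rw [div_le_iff₀ e1] at e2
    exact e2

end Pool.Agent.Q197.CI
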