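import Pool.Agent.Q197.CI.Power
import Pool.Agent.Q197.CI.SLaw2

/-!
# Tests of the position `a + s` after the `m`-th element `a`
-/

set_option autoImplicit false

namespace Pool.Agent.Q197.CI

open Finset Filter MeasureTheory Pool.Agent.Q120.ET Pool.Agent.Q120.MF
open scoped Topology

/-- The target. -/
def gs (s : ℕ) : ℕ → ℕ → ℕ := fun _ a => a + s

/-- The product of the probabilities. -/
noncomputable def Qp (J : Finset ℕ) : ℝ := ∏ m ∈ J, (1 - pb (fp m))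

theorem dl_anti {n m : ℕ} (hn : 1 ≤ n) (h : n ≤ m) : dl m ≤ dl n := by
  unfold dl
  exact Real.rpow_le_rpow_of_nonpos (by exact_mod_cast hn) (by exact_mod_cast h) (by norm_num)

/-- Values of `1 / log` at nearby points. -/
theorem pb_close {u v n : ℕ} {d : ℝ} (hn : 3 ≤ n) (hu : n ≤ u) (hv : n ≤ v) (hd0 : 0 ≤ d) (hd1 : d ≤ 1 / 4)
    (h1 : (u : ℝ) ≤ (1 + 3 * d) * v) (h2 : (1 - 2 * d) * v ≤ u) : |pb u - pb v| ≤ 4 * d / Real.log n ^ 2 := by
  have hn0 : (0 : ℝ) < n := by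
    have : 0 < n := by omega
    exact_mod_cast this
  have hu0 : (0 : ℝ) < u := lt_of_lt_of_le hn0 (by exact_mod_cast hu)
  have hv0 : (0 : ℝ) < v := lt_of_lt_of_le hn0 (by exact_mod_cast hv)
  have hln : 0 < Real.log n := by
    have := one_lt_log hn
    linarith
  have hlu : Real.log n ≤ Real.log u := Real.log_le_log hn0 (by exact_mod_cast hu)
  have hlv : Real.log n ≤ Real.log v := Real.log_le_log hn0 (by exact_mod_cast hv)
  have e1 : |Real.log v - Real.log u| ≤ 4 * d := by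
    rw [abs_le]
    constructor
    · have f1 := Real.log_le_log hu0 h1
      rw [Real.log_mul (by positivity) hv0.ne'] at f1
      have f2 := Real.log_le_sub_one_of_pos (show 0 < 1 + 3 * d by positivity)
      linarith
    · have f1 := Real.log_le_log (by nlinarith) h2
      rw [Real.log_mul (by nlinarith) hv0.ne'] at f1
      have f2 := Real.one_sub_inv_le_log_of_pos (show 0 < 1 - 2 * d by linarith)
      have f3 : (1 - 2 * d)⁻¹ ≤ 1 + 4 * d := by
        rw [inv_le_iff_one_le_mul₀ (by linarith)]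
        nlinarith
      linarith
  have e2 : pb u - pb v = (Real.log v - Real.log u) / (Real.log u * Real.log v) := by
    unfold pb
    have : Real.log u ≠ 0 := by linarith
    have : Real.log v ≠ 0 := by linarith
    field_simp
  rw [e2, abs_div, abs_of_pos (show 0 < Real.log u * Real.log v by nlinarith)]
  have e3 : Real.log n ^ 2 ≤ Real.log u * Real.log v := by
    rw [sq]
    exact mul_le_mul hlu hlv hln.le (by linarith)
  exact div_le_div₀ (by positivity) e1 (by positivity) e3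

theorem pb_near (s : ℕ) : ∀ᶠ n : ℕ in atTop, ∀ m, n ≤ m → ∀ a, lo m ≤ a → a < hi m →
    |pb (a + s) - pb (fp m)| ≤ 4 * dl n / Real.log n ^ 2 := by
  obtain ⟨n1, hn1⟩ := eventually_atTop.1 (pos_bounds.and (dl_mul.eventually_ge_atTop (s : ℝ)))
  filter_upwards [eventually_ge_atTop n1, eventually_ge_atTop 3] with n hn hn3 m hm a h1 h2
  obtain ⟨⟨b1, b2, b3, b4, b5, b6, b7, b8, b9, b10, b11⟩, hs⟩ := hn1 m (hn.trans hm)
  have hfm : (m : ℝ) ≤ fp m := by exact_mod_cast le_fp m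
  have ha1 : (lo m : ℝ) ≤ a := by exact_mod_cast h1
  have ha2 : (a : ℝ) ≤ hi m := by exact_mod_cast h2.le
  have hfp := le_fp m
  have h3 : (s : ℝ) ≤ dl m * fp m := hs.trans (mul_le_mul_of_nonneg_left hfm b1.le)
  refine (pb_close (u := a + s) (v := fp m) (d := dl m) hn3 (by omega) (by omega) b1.le (by linarith) ?_ ?_).trans ?_
  · push_cast
    nlinarith
  · push_cast
    nlinarith
  · have h4 := dl_anti (show 1 ≤ n by omega) hm
    have h5 : 0 < Real.log n ^ 2 := by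
      have := one_lt_log hn3
      positivity
    exact div_le_div_of_nonneg_right (by linarith) h5.le

theorem small_err (C : ℝ) : ∀ᶠ n : ℕ in atTop, 4 * (4 * dl n / Real.log n ^ 2) * (C * Real.log n ^ 2) ≤ 1 ∧
    4 * (4 * dl n / Real.log n ^ 2) * (C * Real.log n ^ 2) + 2 * (n : ℝ) ^ (-(1 : ℝ)) ≤ (n : ℝ) ^ (-(1 / 5) : ℝ) := by
  have h1 : Tendsto (fun n : ℕ => 16 * C * (n : ℝ) ^ (-(1 / 20) : ℝ) + 2 * (n : ℝ) ^ (-(4 / 5) : ℝ)) atTop (𝓝 (16 * C * 0 + 2 * 0)) :=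
    (((tendsto_rpow_neg_atTop (by norm_num)).comp tendsto_natCast_atTop_atTop).const_mul _).add
      (((tendsto_rpow_neg_atTop (by norm_num)).comp tendsto_natCast_atTop_atTop).const_mul _)
  rw [mul_zero, mul_zero, add_zero] at h1
  filter_upwards [h1.eventually_le_const one_pos, hl.eventually_ge_atTop 1, eventually_ge_atTop 1,
    (dl_tendsto.const_mul (16 * C)).eventually_le_const (show 16 * C * 0 < 1 by norm_num)] with n h2 h3 h4 h5
  have hn0 : (0 : ℝ) < n := by exact_mod_cast h4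
  have e1 : 4 * (4 * dl n / Real.log n ^ 2) * (C * Real.log n ^ 2) = 16 * C * dl n := by
    have : Real.log n ≠ 0 := by linarith
    field_simp
    ring
  rw [e1]
  refine ⟨h5, ?_⟩
  have e2 : 16 * C * dl n + 2 * (n : ℝ) ^ (-(1 : ℝ)) =
      (16 * C * (n : ℝ) ^ (-(1 / 20) : ℝ) + 2 * (n : ℝ) ^ (-(4 / 5) : ℝ)) * (n : ℝ) ^ (-(1 / 5) : ℝ) := by
    unfold dl
    rw [add_mul, mul_assoc (16 * C), mul_assoc 2, ← Real.rpow_add hn0, ← Real.rpow_add hn0]
    norm_num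
  rw [e2]
  have h6 : 0 ≤ (n : ℝ) ^ (-(1 / 5) : ℝ) := by positivity
  nlinarith

theorem Qp_nonneg {J : Finset ℕ} (hJ : ∀ m ∈ J, 3 ≤ m) : 0 ≤ Qp J := prod_nonneg (fun m hm => by
  have := pb_lt_one (show 3 ≤ fp m from (hJ m hm).trans (le_fp m))
  linarith)

theorem Qp_le_one {J : Finset ℕ} (hJ : ∀ m ∈ J, 3 ≤ m) : Qp J ≤ 1 := prod_le_one (fun m hm => by
  have := pb_lt_one (show 3 ≤ fp m from (hJ m hm).trans (le_fp m))
  linarith) (fun m hm => by
  have := pb_pos (show 3 ≤ fp m from (hJ m hm).trans (le_fp m))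
  linarith)

variable {Ω : Type*} [MeasurableSpace Ω] {μ : Measure Ω} [IsProbabilityMeasure μ] {A : Ω → Set ℕ}

theorem twin_cond {s : ℕ} (hs : 1 ≤ s) {C : ℝ} (hC : 0 ≤ C) : ∀ᶠ n : ℕ in atTop, ∀ y : ℕ, 3 ≤ y → (y : ℝ) ≤ Real.sqrt n →
    ∀ T0 : Finset ℕ, (∀ j ∈ T0, j < y) → ∀ J : Finset ℕ, (∀ m ∈ J, n ≤ m) →
    (J.card : ℝ) ≤ C * Real.log n ^ 2 → ∀ x, (∀ m ∈ J, hi m + s ≤ x) →
    Pr y T0 x (fun S => NH J (gs s) S ∨ ∃ m ∈ J, ¬ Good S m) ≤ (1 + (n : ℝ) ^ (-(1 / 5) : ℝ)) * Qp J := by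
  filter_upwards [cond_near hC, pb_near s, small_err C, eventually_ge_atTop 10, hl.eventually_ge_atTop 1]
    with n h1 h2 h3 h4 h5 y hy hyn T0 hT0 J hJ hJc x hx
  have hdl : 0 ≤ dl n := by unfold dl; positivity
  obtain ⟨h6, _⟩ := h1 y hy hyn T0 hT0 J hJ hJc (gs s) (fun m _ a _ => by unfold gs; omega)
    (fun m _ m' _ a a' _ haa => by unfold gs; omega) (fun m => pb (fp m)) (4 * dl n / Real.log n ^ 2)
    (fun m hm => pb_anti (by omega) ((hJ m hm).trans (le_fp m)))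
    (fun m hm a ha1 ha2 => h2 m (hJ m hm) a ha1 ha2) (by positivity) h3.1 x
    (fun m hm => ⟨by have := hx m hm; omega, fun a ha => by have := hx m hm; unfold gs; omega⟩)
  refine h6.trans ?_
  have h7 : 0 ≤ Qp J := Qp_nonneg (fun m hm => by have := hJ m hm; omega)
  have h8 : ∏ m ∈ J, (1 - (fun m => pb (fp m)) m) = Qp J := rfl
  rw [h8]
  exact mul_le_mul_of_nonneg_right (by linarith [h3.2]) h7

theorem twin_near (hA : IsCramer μ A) {s : ℕ} (hs : 1 ≤ s) {C : ℝ} (hC : 0 ≤ C) : ∀ᶠ n : ℕ in atTop, ∀ J : Finset ℕ,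
    (∀ m ∈ J, n ≤ m) → (J.card : ℝ) ≤ C * Real.log n ^ 2 →
    |μ.real (Ev A J (gs s)) - Qp J| ≤ (n : ℝ) ^ (-(1 / 5) : ℝ) * Qp J := by
  filter_upwards [ev_near hA hC, pb_near s, small_err C, eventually_ge_atTop 10, hl.eventually_ge_atTop 1]
    with n h1 h2 h3 h4 h5 J hJ hJc
  have hdl : 0 ≤ dl n := by unfold dl; positivity
  have h6 := h1 J hJ hJc (gs s) (fun m _ a _ => by unfold gs; omega)
    (fun m _ m' _ a a' _ haa => by unfold gs; omega) (fun m => pb (fp m)) (4 * dl n / Real.log n ^ 2)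
    (fun m hm => pb_anti (by omega) ((hJ m hm).trans (le_fp m)))
    (fun m hm a ha1 ha2 => h2 m (hJ m hm) a ha1 ha2) (by positivity) h3.1
  have h8 : ∏ m ∈ J, (1 - (fun m => pb (fp m)) m) = Qp J := rfl
  rw [h8] at h6
  refine h6.trans ?_
  have h7 : 0 ≤ Qp J := Qp_nonneg (fun m hm => by have := hJ m hm; omega)
  exact mul_le_mul_of_nonneg_right h3.2 h7

/-- Two index sets at different scales. -/
theorem twin_far (hA : IsCramer μ A) {s : ℕ} (hs : 1 ≤ s) {C : ℝ} (hC : 0 ≤ C) : ∀ᶠ n : ℕ in atTop, ∀ J : Finset ℕ,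
    (∀ m ∈ J, n ≤ m) → (J.card : ℝ) ≤ C * Real.log n ^ 2 → ∀ n', n ≤ n' → ∀ y : ℕ, (∀ m ∈ J, hi m + s ≤ y) →
    (y : ℝ) ≤ Real.sqrt n' → 3 ≤ y → ∀ J' : Finset ℕ, (∀ m ∈ J', n' ≤ m) → (J'.card : ℝ) ≤ C * Real.log n' ^ 2 →
    μ.real (Ev A J (gs s) ∩ Ev A J' (gs s)) ≤ (1 + (n : ℝ) ^ (-(1 / 5) : ℝ)) * Qp J *
      ((1 + (n' : ℝ) ^ (-(1 / 5) : ℝ)) * Qp J') := by
  obtain ⟨n1, hn1⟩ := eventually_atTop.1 (twin_cond hs hC)
  obtain ⟨n2, hn2⟩ := eventually_atTop.1 pos_bounds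
  filter_upwards [eventually_ge_atTop n1, eventually_ge_atTop n2, eventually_ge_atTop 10] with n hn hnn hn10
    J hJ hJc n' hnn' y hy hyn' hy3 J' hJ' hJc'
  have hn0 : (0 : ℝ) < n := by
    have : 0 < n := by omega
    exact_mod_cast this
  have hn'0 : (0 : ℝ) < n' := by
    have : 0 < n' := by omega
    exact_mod_cast this
  have hpos : ∀ m, n ≤ m → 100 ≤ lo m ∧ lo m ≤ hi m ∧ m ≤ lo m := by
    intro m hm
    have h1 := hn2 m (hnn.trans hm)
    refine ⟨h1.2.2.2.1, ?_, h1.2.2.2.2.1⟩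
    have h2 := h1.2.2.2.2.2.2.1.trans h1.2.2.2.2.2.2.2.1
    exact_mod_cast h2
  obtain ⟨x, hx, hyx⟩ : ∃ x : ℕ, (∀ m ∈ J', hi m + s ≤ x) ∧ y ≤ x := by
    refine ⟨y + ∑ m ∈ J', (hi m + s), fun m hm => ?_, by omega⟩
    have h1 := single_le_sum (f := fun m => hi m + s) (fun _ _ => Nat.zero_le _) hm
    omega
  obtain ⟨V, hV⟩ : ∃ V : Finset ℕ → Set ℕ → Prop, V = fun J S => NH J (gs s) S ∨ ∃ m ∈ J, ¬ Good S m := ⟨_, rfl⟩
  have hdep : ∀ (I : Finset ℕ) (z : ℕ), (∀ m ∈ I, n ≤ m) → (∀ m ∈ I, hi m + s ≤ z) → Dep z (V I) := by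
    intro I z hI hz S S' hS
    have e3 : NH I (gs s) S = NH I (gs s) S' := dep_nh (x := z) (fun m hm a _ h2 => ⟨by unfold gs; omega, by
      have := hz m hm
      unfold gs
      omega⟩) (fun m hm => by have := (hpos m (hI m hm)).1; omega) S S' hS
    have e4 : (∃ m ∈ I, ¬ Good S m) = (∃ m ∈ I, ¬ Good S' m) := by
      apply propext
      have key : ∀ m ∈ I, (Good S m ↔ Good S' m) := by
        intro m hm
        have h3 := (hpos m (hI m hm)).2.1
        have h4 := hz m hm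
        have e : Good S m = Good S' m := dep_good (x := z) (by omega) (by omega) S S' hS
        rw [e]
      constructor
      · rintro ⟨m, hm, h3⟩
        exact ⟨m, hm, fun h4 => h3 ((key m hm).2 h4)⟩
      · rintro ⟨m, hm, h3⟩
        exact ⟨m, hm, fun h4 => h3 ((key m hm).1 h4)⟩
    rw [hV]
    show (NH I (gs s) S ∨ ∃ m ∈ I, ¬ Good S m) = (NH I (gs s) S' ∨ ∃ m ∈ I, ¬ Good S' m)
    rw [e3, e4]
  have hsub : ∀ I : Finset ℕ, (∀ m ∈ I, n ≤ m) → Ev A I (gs s) ⊆ {ω | V I (A ω)} := by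
    intro I hI ω hω
    rw [hV]
    by_cases h3 : ∃ m ∈ I, ¬ Good (A ω) m
    · exact Or.inr h3
    · left
      push Not at h3
      intro m hm
      obtain ⟨a, h4, h5, h6⟩ := good_isEl (by have := hI m hm; omega) (h3 m hm)
      exact ⟨a, h4, h5, h6, hω m hm a h6⟩
  have hJ'n : ∀ m ∈ J', n ≤ m := fun m hm => hnn'.trans (hJ' m hm)
  have hdV := hdep J y hJ hy
  have hdV' := hdep J' x hJ'n hx
  have hdVV : Dep x (fun S => V J S ∧ V J' S) := by
    intro S S' hS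
    have e1 : V J S = V J S' := dep_mono hdV hyx S S' hS
    have e2 : V J' S = V J' S' := hdV' S S' hS
    show (V J S ∧ V J' S) = (V J S' ∧ V J' S')
    rw [e1, e2]
  have h1 : μ.real (Ev A J (gs s) ∩ Ev A J' (gs s)) ≤ Pr 3 ∅ x (fun S => V J S ∧ V J' S) := by
    rw [← real_eq_pr hA hdVV]
    exact measureReal_mono (fun ω hω => ⟨hsub J hJ hω.1, hsub J' hJ'n hω.2⟩)
  have h2 := pr_and_le hy3 hyx hdV (Q := V J') (c := (1 + (n' : ℝ) ^ (-(1 / 5) : ℝ)) * Qp J') (fun T0 hT0 => by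
    rw [hV]
    exact hn1 n' (hn.trans hnn') y hy3 hyn' T0 (fun j hj => (mem_Ico.1 (hT0 hj)).2) J' hJ' hJc' x hx)
  have h3 : Pr 3 ∅ x (V J) ≤ (1 + (n : ℝ) ^ (-(1 / 5) : ℝ)) * Qp J := by
    have h4 := hn1 n hn 3 le_rfl (by
      rw [Real.le_sqrt (by norm_num) hn0.le]
      have : (10 : ℝ) ≤ n := by exact_mod_cast hn10
      push_cast
      linarith) ∅ (by simp) J hJ hJc x (fun m hm => (hy m hm).trans hyx)
    rw [hV]
    exact h4
  have hQ' : 0 ≤ (1 + (n' : ℝ) ^ (-(1 / 5) : ℝ)) * Qp J' := by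
    have := Qp_nonneg (J := J') (fun m hm => by have := hJ'n m hm; omega)
    positivity
  exact h1.trans (h2.trans (mul_le_mul_of_nonneg_right h3 hQ'))

end Pool.Agent.Q197.CI
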