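import Pool.Agent.Q197.CI.Elem

/-!
# Typical positions of the elements
-/

set_option autoImplicit false

namespace Pool.Agent.Q197.CI

open Finset Filter
open scoped Topology

/-- The expected number of elements in `[3, x)`. -/
noncomputable def Lf (x : ℕ) : ℝ := ∑ j ∈ Ico 3 x, pb j

theorem pb_anti {a b : ℕ} (ha : 3 ≤ a) (hab : a ≤ b) : pb b ≤ pb a := by
  unfold pb
  have h1 : 0 < Real.log (a : ℝ) := by
    have := Pool.Agent.Q120.ET.one_lt_log ha
    linarith
  have h2 : (0 : ℝ) < a := by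
    have : 0 < a := by omega
    exact_mod_cast this
  exact one_div_le_one_div_of_le h1 (Real.log_le_log h2 (by exact_mod_cast hab))

theorem Lf_mono : Monotone Lf := by
  intro x y h
  unfold Lf
  refine sum_le_sum_of_subset_of_nonneg (fun _ hj => ?_) (fun _ hj _ => (pb_pos (mem_Ico.1 hj).1).le)
  rw [mem_Ico] at hj ⊢
  omega

theorem Lf_sub {u v : ℕ} (hu : 3 ≤ u) (huv : u ≤ v) : Lf v - Lf u = ∑ j ∈ Ico u v, pb j := by
  unfold Lf
  rw [← sum_Ico_consecutive _ hu huv]
  ring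

theorem Lf_nonneg (x : ℕ) : 0 ≤ Lf x := sum_nonneg (fun j hj => (pb_pos (mem_Ico.1 hj).1).le)

theorem Lf_succ_le (x : ℕ) : Lf (x + 1) ≤ Lf x + 1 := by
  rcases lt_or_ge x 3 with h | h
  · have h1 : Lf (x + 1) = 0 := by
      unfold Lf
      rw [Ico_eq_empty (by omega), sum_empty]
    rw [h1]
    have := Lf_nonneg x
    linarith
  · have h1 := Lf_sub h (Nat.le_succ x)
    rw [show Ico x (x + 1) = {x} from Nat.Ico_succ_singleton x, sum_singleton] at h1
    have := pb_lt_one h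
    linarith

theorem Lf_sub_ge {u v : ℕ} (hu : 3 ≤ u) (huv : u ≤ v) : ((v : ℝ) - u) * pb v ≤ Lf v - Lf u := by
  rw [Lf_sub hu huv]
  have h1 : ∑ j ∈ Ico u v, pb v ≤ ∑ j ∈ Ico u v, pb j :=
    sum_le_sum (fun j hj => pb_anti (by have := (mem_Ico.1 hj).1; omega) (mem_Ico.1 hj).2.le)
  rw [sum_const, Nat.card_Ico, nsmul_eq_mul, Nat.cast_sub huv] at h1
  exact h1

theorem Lf_sub_le {u v : ℕ} (hu : 3 ≤ u) (huv : u ≤ v) : Lf v - Lf u ≤ ((v : ℝ) - u) * pb u := by
  rw [Lf_sub hu huv]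
  have h1 : ∑ j ∈ Ico u v, pb j ≤ ∑ j ∈ Ico u v, pb u :=
    sum_le_sum (fun j hj => pb_anti hu (mem_Ico.1 hj).1)
  rw [sum_const, Nat.card_Ico, nsmul_eq_mul, Nat.cast_sub huv] at h1
  exact h1

theorem Lf_le (x : ℕ) : Lf x ≤ x := by
  induction x with
  | zero => simp [Lf]
  | succ x ih =>
    have := Lf_succ_le x
    push_cast
    linarith

theorem hl : Tendsto (fun x : ℕ => Real.log (x : ℝ)) atTop atTop :=
  Real.tendsto_log_atTop.comp tendsto_natCast_atTop_atTop

/-- Any power beats the logarithm. -/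
theorem log_le_rpow {η r : ℝ} (hη : 0 < η) (hr : 0 < r) : ∀ᶠ x : ℕ in atTop, Real.log (x : ℝ) ≤ η * (x : ℝ) ^ r := by
  have h1 := (isLittleO_log_rpow_atTop hr).bound hη
  have h2 := tendsto_natCast_atTop_atTop (R := ℝ) |>.eventually h1
  filter_upwards [h2, hl.eventually_ge_atTop 0] with x h3 h4
  rw [Real.norm_of_nonneg h4, Real.norm_of_nonneg (by positivity)] at h3
  exact h3

theorem Lf_upper {c : ℝ} (hc : 1 < c) : ∀ᶠ x : ℕ in atTop, Lf x ≤ c * (x / Real.log x) := by
  obtain ⟨θ, hθ0, hθ1, hθc⟩ : ∃ θ : ℝ, 0 < θ ∧ θ < 1 ∧ 1 / θ ^ 2 ≤ (1 + c) / 2 := by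
    refine ⟨Real.sqrt (2 / (1 + c)), by positivity, ?_, ?_⟩
    · rw [Real.sqrt_lt' one_pos, div_lt_iff₀ (by linarith)]
      linarith
    · rw [Real.sq_sqrt (by positivity), one_div_div]
  have h1 := log_le_rpow (show 0 < (c - 1) / 4 by linarith) (show 0 < 1 - θ by linarith)
  have h2 : Tendsto (fun x : ℕ => (x : ℝ) ^ θ) atTop atTop :=
    (tendsto_rpow_atTop hθ0).comp tendsto_natCast_atTop_atTop
  have h3 : ∀ᶠ x : ℕ in atTop, Real.log 2 ≤ (θ - θ ^ 2) * Real.log x :=
    (hl.const_mul_atTop (show 0 < θ - θ ^ 2 by nlinarith)).eventually_ge_atTop _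
  filter_upwards [h1, h2.eventually_ge_atTop 4, h3, hl.eventually_ge_atTop 1, eventually_ge_atTop 4]
    with x h4 h5 h6 h7 h8
  obtain ⟨u, hu⟩ : ∃ u : ℕ, u = ⌊(x : ℝ) ^ θ⌋₊ := ⟨_, rfl⟩
  have hx0 : (0 : ℝ) < x := by
    have : 0 < x := by omega
    exact_mod_cast this
  have hu1 : (u : ℝ) ≤ (x : ℝ) ^ θ := by
    rw [hu]
    exact Nat.floor_le (by positivity)
  have hu2 : (x : ℝ) ^ θ < u + 1 := by
    rw [hu]
    exact Nat.lt_floor_add_one _
  have hu3 : 3 ≤ u := by
    have : (3 : ℝ) < u + 1 := by linarith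
    have h9 : 3 < u + 1 := by exact_mod_cast this
    omega
  have hux : u ≤ x := by
    have h9 : (x : ℝ) ^ θ ≤ (x : ℝ) ^ (1 : ℝ) := Real.rpow_le_rpow_of_exponent_le (by
      have : 1 ≤ x := by omega
      exact_mod_cast this) hθ1.le
    rw [Real.rpow_one] at h9
    exact_mod_cast hu1.trans h9
  have hulog : θ ^ 2 * Real.log x ≤ Real.log u := by
    have h9 : (x : ℝ) ^ θ / 2 ≤ u := by linarith
    have h10 := Real.log_le_log (by positivity) h9
    rw [Real.log_div (by positivity) (by norm_num), Real.log_rpow hx0] at h10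
    nlinarith
  have h9 := Lf_sub_le hu3 hux
  have h10 : pb u ≤ 1 / θ ^ 2 * (1 / Real.log x) := by
    unfold pb
    rw [one_div_mul_one_div]
    exact one_div_le_one_div_of_le (by positivity) hulog
  have h11 : Lf u ≤ (x : ℝ) ^ θ := (Lf_le u).trans hu1
  have h12 : (x : ℝ) ^ θ ≤ (c - 1) / 4 * (x / Real.log x) := by
    rw [mul_div_assoc', le_div_iff₀ (by linarith)]
    calc (x : ℝ) ^ θ * Real.log x ≤ (x : ℝ) ^ θ * ((c - 1) / 4 * (x : ℝ) ^ (1 - θ)) :=
          mul_le_mul_of_nonneg_left h4 (by positivity)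
      _ = (c - 1) / 4 * ((x : ℝ) ^ θ * (x : ℝ) ^ (1 - θ)) := by ring
      _ = (c - 1) / 4 * x := by
        rw [← Real.rpow_add hx0]
        norm_num
  have h13 : ((x : ℝ) - u) * pb u ≤ x * (1 / θ ^ 2 * (1 / Real.log x)) := by
    have h14 : (0 : ℝ) ≤ u := Nat.cast_nonneg u
    have h15 : (0 : ℝ) ≤ (x : ℝ) - u := by
      have : (u : ℝ) ≤ x := by exact_mod_cast hux
      linarith
    exact mul_le_mul (by linarith) h10 (pb_pos hu3).le hx0.le
  have h14 : (x : ℝ) * (1 / θ ^ 2 * (1 / Real.log x)) ≤ (1 + c) / 2 * (x / Real.log x) := by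
    have h15 : (x : ℝ) * (1 / θ ^ 2 * (1 / Real.log x)) = 1 / θ ^ 2 * (x / Real.log x) := by ring
    rw [h15]
    exact mul_le_mul_of_nonneg_right hθc (by positivity)
  have h15 : (0 : ℝ) ≤ x / Real.log x := by positivity
  nlinarith

theorem Lf_lower {c : ℝ} (hc : c < 1) : ∀ᶠ x : ℕ in atTop, c * (x / Real.log x) ≤ Lf x := by
  have h0 : Tendsto (fun x : ℕ => (1 - c) * (x : ℝ)) atTop atTop :=
    tendsto_natCast_atTop_atTop.const_mul_atTop (by linarith)
  filter_upwards [h0.eventually_ge_atTop 3, hl.eventually_ge_atTop 1, eventually_ge_atTop 3] with x h1 h2 h3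
  have h4 := Lf_sub_ge (le_refl 3) h3
  have h5 := Lf_nonneg 3
  push_cast at h4
  have h6 : c * (x / Real.log x) ≤ ((x : ℝ) - 3) * pb x := by
    unfold pb
    rw [mul_div_assoc', mul_one_div]
    gcongr
    linarith
  linarith

theorem tendsto_Lf : Tendsto (fun x : ℕ => Lf x / (x / Real.log x)) atTop (𝓝 1) := by
  rw [tendsto_order]
  constructor
  · intro c hc
    filter_upwards [Lf_lower (show (c + 1) / 2 < 1 by linarith), hl.eventually_ge_atTop 1,
      eventually_ge_atTop 1] with x h1 h2 h3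
    have h4 : (0 : ℝ) < x := by exact_mod_cast h3
    rw [lt_div_iff₀ (by positivity)]
    have h5 : (0 : ℝ) < x / Real.log x := by positivity
    nlinarith
  · intro c hc
    filter_upwards [Lf_upper (show 1 < (c + 1) / 2 by linarith), hl.eventually_ge_atTop 1,
      eventually_ge_atTop 1] with x h1 h2 h3
    have h4 : (0 : ℝ) < x := by exact_mod_cast h3
    rw [div_lt_iff₀ (by positivity)]
    have h5 : (0 : ℝ) < x / Real.log x := by positivity
    nlinarith

theorem x_div_log : Tendsto (fun x : ℕ => (x : ℝ) / Real.log x) atTop atTop := by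
  rw [tendsto_atTop]
  intro b
  have h1 := log_le_rpow (show (0 : ℝ) < 1 by norm_num) (show (0 : ℝ) < 1 / 2 by norm_num)
  have h2 : Tendsto (fun x : ℕ => (x : ℝ) ^ (1 / 2 : ℝ)) atTop atTop :=
    (tendsto_rpow_atTop (by norm_num)).comp tendsto_natCast_atTop_atTop
  filter_upwards [h1, h2.eventually_ge_atTop (max b 0), hl.eventually_ge_atTop 1, eventually_ge_atTop 1]
    with x h3 h4 h5 h6
  have h7 : (0 : ℝ) < x := by exact_mod_cast h6
  rw [le_div_iff₀ (by linarith)]
  have h8 : (x : ℝ) = (x : ℝ) ^ (1 / 2 : ℝ) * (x : ℝ) ^ (1 / 2 : ℝ) := by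
    rw [← Real.rpow_add h7]
    norm_num
  have h9 : b ≤ (x : ℝ) ^ (1 / 2 : ℝ) := (le_max_left _ _).trans h4
  have h10 : 0 ≤ (x : ℝ) ^ (1 / 2 : ℝ) := by positivity
  rw [one_mul] at h3
  calc b * Real.log x ≤ (x : ℝ) ^ (1 / 2 : ℝ) * Real.log x := mul_le_mul_of_nonneg_right h9 (by linarith)
    _ ≤ (x : ℝ) ^ (1 / 2 : ℝ) * (x : ℝ) ^ (1 / 2 : ℝ) := mul_le_mul_of_nonneg_left h3 h10
    _ = x := h8.symm

theorem Lf_top : Tendsto Lf atTop atTop := by
  refine tendsto_atTop_mono' _ ?_ (x_div_log.const_mul_atTop (show (0 : ℝ) < 1 / 2 by norm_num))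
  filter_upwards [Lf_lower (show (1 / 2 : ℝ) < 1 by norm_num)] with x h
  exact h

theorem exists_Lf (m : ℕ) : ∃ x, (m : ℝ) ≤ Lf x := (Lf_top.eventually_ge_atTop (m : ℝ)).exists

open Classical in
/-- The typical position of the `m`-th element. -/
noncomputable def fp (m : ℕ) : ℕ := Nat.find (exists_Lf m)

theorem fp_spec (m : ℕ) : (m : ℝ) ≤ Lf (fp m) := by
  classical
  exact Nat.find_spec (exists_Lf m)

theorem fp_lt (m : ℕ) : Lf (fp m) < m + 1 := by
  classical
  rcases Nat.eq_zero_or_pos (fp m) with h | h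
  · rw [h]
    have h1 : Lf 0 = 0 := by simp [Lf]
    rw [h1]
    positivity
  · have h1 : ¬ ((m : ℝ) ≤ Lf (fp m - 1)) := Nat.find_min (exists_Lf m) (by
      show fp m - 1 < fp m
      omega)
    have h2 := Lf_succ_le (fp m - 1)
    rw [Nat.sub_add_cancel h] at h2
    push Not at h1
    linarith

theorem le_fp (m : ℕ) : m ≤ fp m := by
  have := (fp_spec m).trans (Lf_le _)
  exact_mod_cast this

theorem fp_top : Tendsto fp atTop atTop := tendsto_atTop_mono le_fp tendsto_id

theorem ll_div : Tendsto (fun x : ℕ => Real.log (Real.log (x : ℝ)) / Real.log x) atTop (𝓝 0) := by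
  have h1 : Tendsto (fun t : ℝ => Real.log t / t) atTop (𝓝 0) := by
    have := Real.isLittleO_log_id_atTop.tendsto_div_nhds_zero
    simpa using this
  exact h1.comp hl

theorem fp_div : Tendsto (fun m : ℕ => (fp m : ℝ) / Real.log (fp m) / m) atTop (𝓝 1) := by
  have h1 : Tendsto (fun m : ℕ => Lf (fp m) / m) atTop (𝓝 1) := by
    have h2 : Tendsto (fun m : ℕ => 1 + 1 / (m : ℝ)) atTop (𝓝 (1 + 0)) :=
      tendsto_one_div_atTop_nhds_zero_nat.const_add 1
    rw [add_zero] at h2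
    refine tendsto_of_tendsto_of_tendsto_of_le_of_le' tendsto_const_nhds h2 ?_ ?_
    · filter_upwards [eventually_ge_atTop 1] with m hm
      have h3 : (0 : ℝ) < m := by exact_mod_cast hm
      rw [le_div_iff₀ h3, one_mul]
      exact fp_spec m
    · filter_upwards [eventually_ge_atTop 1] with m hm
      have h3 : (0 : ℝ) < m := by exact_mod_cast hm
      rw [div_le_iff₀ h3]
      have := fp_lt m
      field_simp
      linarith
  have h2 := tendsto_Lf.comp fp_top
  have h3 := h1.div h2 one_ne_zero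
  rw [div_one] at h3
  refine h3.congr' ?_
  filter_upwards [(fp_top.eventually (hl.eventually_ge_atTop 1)), eventually_ge_atTop 1] with m h4 h5
  have h6 : (0 : ℝ) < m := by exact_mod_cast h5
  have h7 : (m : ℝ) ≤ fp m := by exact_mod_cast le_fp m
  have h8 : 0 < Lf (fp m) := lt_of_lt_of_le h6 (fp_spec m)
  have h9 : (0 : ℝ) < fp m := by linarith
  simp only [Pi.div_apply, Function.comp]
  field_simp

theorem log_fp_aux : Tendsto (fun m : ℕ => Real.log (fp m) - Real.log (Real.log (fp m)) - Real.log m) atTop (𝓝 0) := by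
  have h1 := (Real.continuousAt_log one_ne_zero).tendsto.comp fp_div
  rw [Real.log_one] at h1
  refine h1.congr' ?_
  filter_upwards [(fp_top.eventually (hl.eventually_ge_atTop 1)), eventually_ge_atTop 1] with m h4 h5
  have h6 : (0 : ℝ) < m := by exact_mod_cast h5
  have h7 : (m : ℝ) ≤ fp m := by exact_mod_cast le_fp m
  have h9 : (0 : ℝ) < fp m := by linarith
  simp only [Function.comp]
  rw [Real.log_div (by positivity) h6.ne', Real.log_div h9.ne' (by linarith)]

theorem log_fp_ratio : Tendsto (fun m : ℕ => Real.log (fp m) / Real.log m) atTop (𝓝 1) := by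
  have h1 : Tendsto (fun m : ℕ => (Real.log (fp m) - Real.log (Real.log (fp m)) - Real.log m) / Real.log (fp m))
      atTop (𝓝 0) := log_fp_aux.div_atTop (hl.comp fp_top)
  have h2 := ll_div.comp fp_top
  have h3 : Tendsto (fun m : ℕ => Real.log m / Real.log (fp m)) atTop (𝓝 (1 - 0 - 0)) := by
    refine ((tendsto_const_nhds.sub h2).sub h1).congr' ?_
    filter_upwards [(fp_top.eventually (hl.eventually_ge_atTop 1))] with m h4
    simp only [Function.comp]
    field_simp
    ring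
  rw [sub_zero, sub_zero] at h3
  have h4 := h3.inv₀ one_ne_zero
  rw [inv_one] at h4
  refine h4.congr (fun m => ?_)
  rw [inv_div]

theorem log_fp : Tendsto (fun m : ℕ => Real.log (fp m) - Real.log m - Real.log (Real.log m)) atTop (𝓝 0) := by
  have h1 := (Real.continuousAt_log one_ne_zero).tendsto.comp log_fp_ratio
  rw [Real.log_one] at h1
  have h2 := log_fp_aux.add h1
  rw [add_zero] at h2
  refine h2.congr' ?_
  filter_upwards [(fp_top.eventually (hl.eventually_ge_atTop 1)), hl.eventually_ge_atTop 1] with m h4 h5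
  simp only [Function.comp]
  rw [Real.log_div (by linarith) (by linarith)]
  ring

/-- The relative error of the positions. -/
noncomputable def dl (m : ℕ) : ℝ := (m : ℝ) ^ (-(1 / 4) : ℝ)

noncomputable def lo (m : ℕ) : ℕ := ⌊(1 - dl m) * fp m⌋₊

noncomputable def hi (m : ℕ) : ℕ := ⌈(1 + dl m) * fp m⌉₊

theorem dl_tendsto : Tendsto dl atTop (𝓝 0) :=
  (tendsto_rpow_neg_atTop (by norm_num)).comp tendsto_natCast_atTop_atTop

theorem dl_mul : Tendsto (fun m : ℕ => dl m * m) atTop atTop := by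
  have h1 : Tendsto (fun m : ℕ => (m : ℝ) ^ (3 / 4 : ℝ)) atTop atTop :=
    (tendsto_rpow_atTop (by norm_num)).comp tendsto_natCast_atTop_atTop
  refine h1.congr' ?_
  filter_upwards [eventually_ge_atTop 1] with m hm
  have h6 : (0 : ℝ) < m := by exact_mod_cast hm
  unfold dl
  nth_rw 3 [← Real.rpow_one (m : ℝ)]
  rw [← Real.rpow_add h6]
  norm_num

/-- What we need about the positions. -/
theorem pos_bounds : ∀ᶠ m : ℕ in atTop, 0 < dl m ∧ dl m ≤ 1 / 100 ∧ 12 ≤ dl m * m ∧ 100 ≤ lo m ∧ m ≤ lo m ∧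
    (1 - 2 * dl m) * fp m ≤ lo m ∧ (lo m : ℝ) ≤ fp m ∧ (fp m : ℝ) ≤ hi m ∧ (hi m : ℝ) ≤ (1 + 2 * dl m) * fp m ∧
    Lf (lo m) ≤ m - dl m * m / 3 ∧ m + dl m * m / 3 ≤ Lf (hi m) := by
  have h0 : Tendsto (fun m : ℕ => (fp m : ℝ) / m) atTop atTop := by
    have h1 : Tendsto (fun m : ℕ => (fp m : ℝ) / Real.log (fp m) / m * Real.log (fp m)) atTop atTop :=
      fp_div.pos_mul_atTop one_pos (hl.comp fp_top)
    refine h1.congr' ?_
    filter_upwards [(fp_top.eventually (hl.eventually_ge_atTop 1)), eventually_ge_atTop 1] with m h4 h5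
    have h6 : (0 : ℝ) < m := by exact_mod_cast h5
    field_simp
  filter_upwards [fp_div.eventually_const_le (show (9 / 10 : ℝ) < 1 by norm_num), dl_tendsto.eventually_le_const
    (show (0 : ℝ) < 1 / 100 by norm_num), dl_mul.eventually_ge_atTop 12, h0.eventually_ge_atTop 4,
    fp_top.eventually (hl.eventually_ge_atTop 3), eventually_ge_atTop 100] with m h1 h2 h3 h4 h5 h6
  obtain ⟨f, hf⟩ : ∃ f : ℕ, f = fp m := ⟨_, rfl⟩
  obtain ⟨d, hd⟩ : ∃ d : ℝ, d = dl m := ⟨_, rfl⟩
  have hm0 : (0 : ℝ) < m := by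
    have : 0 < m := by omega
    exact_mod_cast this
  have hm100 : (100 : ℝ) ≤ m := by exact_mod_cast h6
  have hd0 : 0 < d := by rw [hd]; unfold dl; positivity
  have hlo : lo m = ⌊(1 - d) * f⌋₊ := by rw [hf, hd]; rfl
  have hhi : hi m = ⌈(1 + d) * f⌉₊ := by rw [hf, hd]; rfl
  have hfs : (m : ℝ) ≤ Lf f := by rw [hf]; exact fp_spec m
  have hfl : Lf f < m + 1 := by rw [hf]; exact fp_lt m
  rw [← hd, ← hf]
  rw [← hd] at h2 h3
  rw [← hf] at h1 h4 h5
  rw [le_div_iff₀ hm0] at h1 h4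
  rw [le_div_iff₀ (by linarith)] at h1
  have hf0 : (0 : ℝ) < f := by linarith
  have hfd : 12 ≤ d * f := by nlinarith
  have e1 : (lo m : ℝ) ≤ (1 - d) * f := by rw [hlo]; exact Nat.floor_le (by nlinarith)
  have e2 : (1 - d) * f - 1 < lo m := by rw [hlo]; exact Nat.sub_one_lt_floor _
  have e3 : (1 + d) * f ≤ hi m := by rw [hhi]; exact Nat.le_ceil _
  have e4 : (hi m : ℝ) < (1 + d) * f + 1 := by rw [hhi]; exact Nat.ceil_lt_add_one (by positivity)
  have e5 : (lo m : ℝ) ≤ f := by nlinarith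
  have e6 : (f : ℝ) ≤ hi m := by nlinarith
  have e7 : (m : ℝ) ≤ lo m := by nlinarith
  have e7' : m ≤ lo m := by exact_mod_cast e7
  have e8 : lo m ≤ f := by exact_mod_cast e5
  have e9 : f ≤ hi m := by exact_mod_cast e6
  have e10 : 3 ≤ lo m := by omega
  have hlogf : 0 < Real.log f := by linarith
  refine ⟨hd0, h2, h3, by omega, e7', by nlinarith, e5, e6, by nlinarith, ?_, ?_⟩
  · have g1 := Lf_sub_ge e10 e8
    have g2 : d * f * pb f ≤ ((f : ℝ) - lo m) * pb f :=
      mul_le_mul_of_nonneg_right (by linarith) (pb_pos (by omega)).le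
    have g3 : 9 / 10 * (d * m) ≤ d * f * pb f := by
      unfold pb
      rw [mul_one_div, le_div_iff₀ hlogf]
      nlinarith
    nlinarith
  · have g1 := Lf_sub_ge (show 3 ≤ f by omega) e9
    have g2 : d * f * pb (hi m) ≤ ((hi m : ℝ) - f) * pb (hi m) :=
      mul_le_mul_of_nonneg_right (by linarith) (pb_pos (by omega)).le
    have g3 : 1 / 2 * (d * m) ≤ d * f * pb (hi m) := by
      have g4 : Real.log (hi m) ≤ Real.log f + 1 := by
        have g5 : (hi m : ℝ) ≤ 2 * f := by nlinarith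
        have g6 := Real.log_le_log (by linarith) g5
        rw [Real.log_mul (by norm_num) hf0.ne'] at g6
        have := Real.log_two_lt_d9
        linarith
      have g7 : 0 < Real.log (hi m) := by
        have := Real.log_le_log hf0 e6
        linarith
      unfold pb
      rw [mul_one_div, le_div_iff₀ g7]
      have g8 : d * m * Real.log (hi m) ≤ d * m * (4 / 3 * Real.log f) :=
        mul_le_mul_of_nonneg_left (by linarith) (by positivity)
      nlinarith
    nlinarith

end Pool.Agent.Q197.CI
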